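import Mathlib

namespace Pool.Agent.H10.BF
open Equiv Finset

variable {M : Type} [DecidableEq M]

structure C (P : Finset M → Perm M → Prop) where
  D : Finset M
  π : Perm M
  p : P D π

instance (P : Finset M → Perm M → Prop) : Preorder (C P) where
  le c d := c.D ⊆ d.D ∧ ∀ w ∈ c.D, d.π w = c.π w
  le_refl c := ⟨le_rfl, fun _ _ => rfl⟩
  le_trans c d e h h' := ⟨h.1.trans h'.1, fun w hw => (h'.2 w (h.1 hw)).trans (h.2 w hw)⟩

/-- back and forth -/
theorem bf [Countable M] {P : Finset M → Perm M → Prop}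
    (hs : ∀ D π, P D π → P (D.image π) π⁻¹)
    (he : ∀ D π c, P D π → ∃ π', P (insert c D) π' ∧ ∀ w ∈ D, π' w = π w) {D π} (h : P D π) :
    ∃ g : Perm M, (∀ w ∈ D, g w = π w) ∧
      ∀ U, ∃ D' π', U ⊆ D' ∧ P D' π' ∧ ∀ w ∈ D', g w = π' w := by
  let 𝒟 : M → Order.Cofinal (C P) := fun w => ⟨{d | w ∈ d.D ∧ w ∈ d.D.image d.π}, fun c => by
    obtain ⟨π1, a1, a2⟩ := he _ _ w c.p
    obtain ⟨π2, b1, b2⟩ := he _ _ w (hs _ _ a1)
    have e : ∀ v ∈ insert w c.D, π2 (π1 v) = v := fun v hv => by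
      simpa using b2 _ (mem_image_of_mem _ hv)
    have e1 : insert w c.D ⊆ (insert w ((insert w c.D).image π1)).image π2 := fun v hv =>
      e v hv ▸ mem_image_of_mem _ (mem_insert_of_mem (mem_image_of_mem _ hv))
    refine ⟨⟨_, _, hs _ _ b1⟩, ⟨e1 (mem_insert_self _ _), by simp⟩, (subset_insert _ _).trans e1,
      fun v hv => ?_⟩
    change π2⁻¹ v = _
    rw [← a2 v hv, Perm.inv_eq_iff_eq, e v (mem_insert_of_mem hv)]⟩
  letI := Encodable.ofCountable M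
  let s := Order.sequenceOfCofinals ⟨D, π, h⟩ 𝒟
  have m : Monotone s := Order.sequenceOfCofinals.monotone _ 𝒟
  have h : ∀ w, ∃ n, w ∈ (s n).D ∧ w ∈ (s n).D.image (s n).π := fun w =>
    ⟨_, Order.sequenceOfCofinals.encode_mem _ 𝒟 w⟩
  choose n hn using h
  let g : M → M := fun w => (s (n w)).π w
  have g1 : ∀ l, ∀ w ∈ (s l).D, g w = (s l).π w := fun l w hw =>
    ((m (le_max_left (n w) l)).2 w (hn w).1).symm.trans ((m (le_max_right _ _)).2 w hw)
  have g2 : ∀ U : Finset M, U ⊆ (s (U.sup n)).D := fun U w hw => (m (le_sup hw)).1 (hn w).1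
  refine ⟨Equiv.ofBijective g ⟨fun u v e => ?_, fun w => ?_⟩, g1 0,
    fun U => ⟨_, _, g2 U, (s _).p, g1 _⟩⟩
  · rw [g1 _ u (g2 {u, v} (by simp)), g1 _ v (g2 {u, v} (by simp))] at e
    exact (s _).π.injective e
  · obtain ⟨u, hu, e⟩ := mem_image.1 (hn w).2
    exact ⟨u, (g1 _ u hu).trans e⟩

end Pool.Agent.H10.BF
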