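import Mathlib

open Set Filter Topology

namespace Pool.Agent.H10.BK

/-- The closed unit ball of `ℓ₁(κ)` inside `ℝ^κ` with the product topology. -/
def B (κ : Type) : Set (κ → ℝ) := {x | ∀ F : Finset κ, ∑ i ∈ F, |x i| ≤ 1}

instance (κ : Type) : CompactSpace (B κ) := by
  have hc : IsClosed (B κ) := by
    have : B κ = ⋂ F : Finset κ, {x : κ → ℝ | ∑ i ∈ F, |x i| ≤ 1} := by
      ext x; simp [B]
    rw [this]
    exact isClosed_iInter fun F => isClosed_le (by fun_prop) continuous_const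
  refine isCompact_iff_compactSpace.1 ((isCompact_univ_pi fun _ : κ =>
    isCompact_Icc (a := (-1 : ℝ)) (b := 1)).of_isClosed_subset hc fun x hx i _ => ?_)
  exact abs_le.1 (by simpa using hx {i})

lemma exists_dep {X ι Y : Type*} [TopologicalSpace X] [CompactSpace X] [TopologicalSpace Y]
    [T2Space Y] (π : ι → X → Y) (hπ : ∀ i, Continuous (π i))
    (hsep : ∀ x x', (∀ i, π i x = π i x') → x = x') (f : C(X, ℝ)) {ε : ℝ} (hε : 0 < ε) :
    ∃ s : Finset ι, ∀ x x', (∀ i ∈ s, π i x = π i x') → |f x - f x'| ≤ ε := by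
  have hK : IsCompact {w : X × X | ε ≤ |f w.1 - f w.2|} :=
    (isClosed_le continuous_const (by fun_prop)).isCompact
  obtain ⟨s, hs⟩ := hK.elim_finite_subcover (fun i => {w : X × X | π i w.1 ≠ π i w.2})
    (fun i => isOpen_ne_fun ((hπ i).comp continuous_fst) ((hπ i).comp continuous_snd))
    (fun w hw => by
      by_contra hc
      have : w.1 = w.2 := hsep _ _ fun i => by
        by_contra h
        exact hc (mem_iUnion.2 ⟨i, h⟩)
      have hw' : ε ≤ |f w.1 - f w.2| := hw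
      rw [this, sub_self, abs_zero] at hw'
      linarith)
  refine ⟨s, fun x x' h => ?_⟩
  by_contra hc
  obtain ⟨i, hi, hne⟩ := mem_iUnion₂.1 (hs (show (x, x') ∈ _ from (not_le.1 hc).le))
  exact hne (h i hi)

lemma exists_fiber {κ : Type*} {Γ : Set κ} (hΓ : ¬ Γ.Countable) (g : κ → ℕ) :
    ∃ m, ¬ {γ ∈ Γ | g γ = m}.Countable := by
  by_contra hc
  push Not at hc
  refine hΓ ((countable_iUnion hc).mono fun γ hγ => ?_)
  exact mem_iUnion.2 ⟨g γ, hγ, rfl⟩

lemma exists_root {κ α : Type*} {Γ : Set κ} (hΓ : ¬ Γ.Countable) (S : κ → Finset α) :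
    ∃ Γ' ⊆ Γ, ¬ Γ'.Countable ∧ ∃ R : Finset α, ∀ a ∉ R, {γ ∈ Γ' | a ∈ S γ}.Countable := by
  classical
  obtain ⟨s, hs⟩ := exists_fiber hΓ fun γ => (S γ).card
  let P : ℕ → Prop := fun m => ∃ R : Finset α, R.card = m ∧
    ¬ {γ ∈ Γ | (S γ).card = s ∧ R ⊆ S γ}.Countable
  have h0 : P 0 := ⟨∅, rfl, by simpa using hs⟩
  have hb : ∀ m, P m → m ≤ s := by
    rintro m ⟨R, rfl, hR⟩
    obtain ⟨γ, -, h1, h2⟩ : {γ ∈ Γ | (S γ).card = s ∧ R ⊆ S γ}.Nonempty := by
      by_contra hc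
      rw [not_nonempty_iff_eq_empty.1 hc] at hR
      exact hR countable_empty
    exact h1 ▸ Finset.card_le_card h2
  obtain ⟨R, hRc, hR⟩ : P (Nat.findGreatest P s) := Nat.findGreatest_spec (Nat.zero_le s) h0
  refine ⟨_, fun γ hγ => hγ.1, hR, R, fun a ha => ?_⟩
  by_contra hc
  have hP : P (Nat.findGreatest P s + 1) := by
    refine ⟨insert a R, by rw [Finset.card_insert_of_notMem ha, hRc], fun h => hc (h.mono ?_)⟩
    rintro γ ⟨⟨h1, h2, h3⟩, h4⟩
    exact ⟨h1, h2, Finset.insert_subset h4 h3⟩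
  exact Nat.findGreatest_is_greatest (Nat.lt_succ_self _) (hb _ hP) hP

lemma exists_select {κ ι : Type*} [Finite ι] (Γ : ι → Set κ) (hΓ : ∀ i, ¬ (Γ i).Countable)
    (C : ι → κ → ι → κ → Prop)
    (hC : ∀ i i' γ, γ ∈ Γ i → {γ' ∈ Γ i' | ¬ (C i γ i' γ' ∧ C i' γ' i γ)}.Countable) :
    ∃ c : ι → κ, (∀ i, c i ∈ Γ i) ∧ ∀ i i', i ≠ i' → C i (c i) i' (c i') := by
  classical
  have hne : ∀ i, (Γ i).Nonempty := fun i => by
    by_contra hc
    exact hΓ i (not_nonempty_iff_eq_empty.1 hc ▸ countable_empty)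
  have key : ∀ s : Finset ι, ∃ c : ι → κ, (∀ i, c i ∈ Γ i) ∧
      ∀ i ∈ s, ∀ i' ∈ s, i ≠ i' → C i (c i) i' (c i') := fun s => by
    induction s using Finset.induction_on with
    | empty => exact ⟨fun i => (hne i).some, fun i => (hne i).some_mem, by simp⟩
    | insert j s hj ih =>
      obtain ⟨c, hc1, hc2⟩ := ih
      have hcount : (⋃ i ∈ s, {γ' ∈ Γ j | ¬ (C i (c i) j γ' ∧ C j γ' i (c i))}).Countable :=
        s.countable_toSet.biUnion fun i _ => hC i j (c i) (hc1 i)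
      obtain ⟨γ, hγ, hγ'⟩ : ∃ γ ∈ Γ j,
          γ ∉ ⋃ i ∈ s, {γ' ∈ Γ j | ¬ (C i (c i) j γ' ∧ C j γ' i (c i))} := by
        by_contra hc
        refine hΓ j (hcount.mono fun γ hγ => ?_)
        by_contra h
        exact hc ⟨γ, hγ, h⟩
      have hgood : ∀ i ∈ s, C i (c i) j γ ∧ C j γ i (c i) := fun i hi => by
        by_contra hc
        exact hγ' (mem_iUnion₂.2 ⟨i, hi, hγ, hc⟩)
      refine ⟨Function.update c j γ, fun i => ?_, fun i hi i' hi' hne' => ?_⟩
      · by_cases h : i = j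
        · subst h; simpa using hγ
        · rw [Function.update_of_ne h]; exact hc1 i
      · rcases Finset.mem_insert.1 hi with rfl | hi2
        · rcases Finset.mem_insert.1 hi' with rfl | hi3
          · exact absurd rfl hne'
          · rw [Function.update_self, Function.update_of_ne hne'.symm]
            exact (hgood i' hi3).2
        · have h1 : i ≠ j := fun e => hj (e ▸ hi2)
          rcases Finset.mem_insert.1 hi' with rfl | hi3
          · rw [Function.update_self, Function.update_of_ne h1]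
            exact (hgood i hi2).1
          · have h2 : i' ≠ j := fun e => hj (e ▸ hi3)
            rw [Function.update_of_ne h1, Function.update_of_ne h2]
            exact hc2 i hi2 i' hi3 hne'
  have := Fintype.ofFinite ι
  obtain ⟨c, h1, h2⟩ := key Finset.univ
  exact ⟨c, h1, fun i i' h => h2 i (Finset.mem_univ _) i' (Finset.mem_univ _) h⟩

/-- petals of a weak Delta system avoid a given finite set -/
lemma petal_countable {κ α : Type*} {Γ : Set κ} {S : κ → Finset α} {R R' : Finset α}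
    (hR : ∀ a ∉ R, {γ ∈ Γ | a ∈ S γ}.Countable) (hRR : R ⊆ R') (T : Finset α) :
    {γ ∈ Γ | ¬ ∀ a ∈ T, a ∈ S γ → a ∈ R'}.Countable := by
  classical
  refine ((T.filter (· ∉ R')).countable_toSet.biUnion
    fun a ha => hR a fun h => (Finset.mem_filter.1 ha).2 (hRR h)).mono ?_
  rintro γ ⟨h1, h2⟩
  push Not at h2
  obtain ⟨a, ha, h3, h4⟩ := h2
  exact mem_iUnion₂.2 ⟨a, Finset.mem_coe.2 (Finset.mem_filter.2 ⟨ha, h4⟩), h1, h3⟩

lemma sum_abs_le {X Y ι : Type*} [TopologicalSpace X] [CompactSpace X] [TopologicalSpace Y]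
    [CompactSpace Y] (T : C(X, ℝ) →L[ℝ] C(Y, ℝ)) (s : Finset ι) (f : ι → C(X, ℝ))
    (hf : ∀ x, ∑ i ∈ s, |f i x| ≤ 1) (y : Y) : ∑ i ∈ s, |T (f i) y| ≤ ‖T‖ := by
  let g : C(X, ℝ) := ∑ i ∈ s, (SignType.sign (T (f i) y) : ℝ) • f i
  have hg : ‖g‖ ≤ 1 := (ContinuousMap.norm_le _ zero_le_one).2 fun x => by
    refine le_trans ?_ (hf x)
    simp only [g, ContinuousMap.sum_apply, ContinuousMap.smul_apply, smul_eq_mul, Real.norm_eq_abs]
    refine (Finset.abs_sum_le_sum_abs _ _).trans (Finset.sum_le_sum fun i _ => ?_)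
    rw [abs_mul]
    refine mul_le_of_le_one_left (abs_nonneg _) ?_
    rcases lt_trichotomy (T (f i) y) 0 with h | h | h <;> simp [h]
  have h1 : T g y = ∑ i ∈ s, |T (f i) y| := by
    simp only [g, map_sum, map_smul, ContinuousMap.sum_apply, ContinuousMap.smul_apply, smul_eq_mul]
    exact Finset.sum_congr rfl fun i _ => sign_mul_self _
  rw [← h1]
  calc T g y ≤ ‖T g‖ := (le_abs_self _).trans ((T g).norm_coe_le_norm y)
    _ ≤ ‖T‖ * ‖g‖ := T.le_opNorm g
    _ ≤ ‖T‖ := mul_le_of_le_one_right T.opNorm_nonneg hg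

open Classical in
noncomputable def pt {κ ι : Type} [Fintype ι] (c : ι → κ) (v : ι → ℝ) : κ → ℝ :=
  fun a => ∑ i, if c i = a then v i else 0

lemma pt_mem {κ ι : Type} [Fintype ι] (c : ι → κ) (v : ι → ℝ) (hv : ∑ i, |v i| ≤ 1) :
    pt c v ∈ B κ := fun F => by
  classical
  refine le_trans ?_ hv
  calc ∑ a ∈ F, |pt c v a| ≤ ∑ a ∈ F, ∑ i, if c i = a then |v i| else 0 :=
        Finset.sum_le_sum fun a _ => (Finset.abs_sum_le_sum_abs _ _).trans
          (Finset.sum_le_sum fun i _ => by split_ifs <;> simp)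
    _ = ∑ i, ∑ a ∈ F, if c i = a then |v i| else 0 := Finset.sum_comm
    _ ≤ ∑ i, |v i| := Finset.sum_le_sum fun i _ => by
        rw [Finset.sum_ite_eq]
        split_ifs <;> simp

lemma pt_self {κ ι : Type} [Fintype ι] {c : ι → κ} (v : ι → ℝ) (i : ι)
    (hc : ∀ j, c j = c i → j = i) : pt c v (c i) = v i := by
  unfold pt
  rw [Finset.sum_eq_single i (fun j _ hj => if_neg fun h => hj (hc j h)) (by simp), if_pos rfl]

lemma pt_of_ne {κ ι : Type} [Fintype ι] {c : ι → κ} (v : ι → ℝ) {a : κ} (h : ∀ j, c j ≠ a) :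
    pt c v a = 0 :=
  Finset.sum_eq_zero fun j _ => if_neg (h j)

end Pool.Agent.H10.BK
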