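import Pool.Agent.H10.BK

open Set Filter Topology

namespace Pool.Agent.H10.BK

lemma exists_rat_small (t : ℝ) {η : ℝ} (hη : 0 < η) : ∃ q : ℚ, |(q : ℝ)| ≤ |t| ∧ |(q : ℝ) - t| < η := by
  rcases lt_trichotomy t 0 with h | h | h
  · obtain ⟨q, h1, h2⟩ := exists_rat_btwn (show t < min 0 (t + η) from lt_min h (by linarith))
    have h3 := h2.trans_le (min_le_left _ _)
    have h4 := h2.trans_le (min_le_right _ _)
    refine ⟨q, ?_, ?_⟩
    · rw [abs_of_neg h3, abs_of_neg h]; linarith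
    · rw [abs_lt]; constructor <;> linarith
  · exact ⟨0, by simp, by simpa [h] using hη⟩
  · obtain ⟨q, h1, h2⟩ := exists_rat_btwn (show max 0 (t - η) < t from max_lt h (by linarith))
    have h3 := (le_max_left _ _).trans_lt h1
    have h4 := (le_max_right _ _).trans_lt h1
    refine ⟨q, ?_, ?_⟩
    · rw [abs_of_pos h3, abs_of_pos h]; linarith
    · rw [abs_lt]; constructor <;> linarith

lemma le_of_rat {κ : Type} (R : Finset κ) (g : C(B κ, ℝ)) (C : ℝ)
    (h : ∀ z : B κ, (∀ r ∈ R, ∃ q : ℚ, z.1 r = q) → |g z| ≤ C) (z : B κ) : |g z| ≤ C := by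
  classical
  choose q hq1 hq2 using fun (m : ℕ) (a : κ) =>
    exists_rat_small (z.1 a) (show (0 : ℝ) < 1 / ((m : ℝ) + 1) by positivity)
  let w : ℕ → B κ := fun m => ⟨fun a => if a ∈ R then (q m a : ℝ) else z.1 a, fun F =>
    le_trans (Finset.sum_le_sum fun a _ => by
      dsimp only
      split_ifs
      · exact hq1 m a
      · exact le_rfl) (z.2 F)⟩
  have hw : Tendsto w atTop (𝓝 z) := by
    refine tendsto_subtype_rng.2 (tendsto_pi_nhds.2 fun a => ?_)
    by_cases ha : a ∈ R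
    · simp only [w, if_pos ha]
      refine tendsto_iff_norm_sub_tendsto_zero.2 (squeeze_zero (fun m => norm_nonneg _)
        (fun m => (hq2 m a).le) tendsto_one_div_add_atTop_nhds_zero_nat)
    · simp only [w, if_neg ha]
      exact tendsto_const_nhds
  refine le_of_tendsto' ((g.continuous.abs.tendsto z).comp hw) fun m => h (w m) fun r hr => ?_
  exact ⟨q m r, if_pos hr⟩

lemma glue_pt {κ ι : Type} [DecidableEq κ] [Fintype ι] (R : Finset κ) (P : ι → Finset κ)
    (hP : ∀ i j, i ≠ j → ∀ a ∈ P i, a ∈ P j → a ∈ R) (ω : κ → ℝ) (z : ι → κ → ℝ)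
    (hz : ∀ i, ∀ r ∈ R, z i r = ω r)
    (hs : ∑ r ∈ R, |ω r| + ∑ i, ∑ a ∈ P i \ R, |z i a| ≤ 1) :
    ∃ y : B κ, ∀ i, ∀ a ∈ P i, y.1 a = z i a := by
  refine ⟨⟨fun a => (if a ∈ R then ω a else 0) + ∑ i, if a ∈ P i \ R then z i a else 0,
    fun F => le_trans ?_ hs⟩, fun i a ha => ?_⟩
  · calc ∑ a ∈ F, |(if a ∈ R then ω a else 0) + ∑ i, if a ∈ P i \ R then z i a else 0|
        ≤ ∑ a ∈ F, ((if a ∈ R then |ω a| else 0) + ∑ i, if a ∈ P i \ R then |z i a| else 0) := by
          refine Finset.sum_le_sum fun a _ => (abs_add_le _ _).trans (add_le_add ?_ ?_)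
          · split_ifs <;> simp
          · refine (Finset.abs_sum_le_sum_abs _ _).trans (Finset.sum_le_sum fun i _ => ?_)
            split_ifs <;> simp
      _ ≤ _ := by
          rw [Finset.sum_add_distrib, Finset.sum_comm]
          refine add_le_add ?_ (Finset.sum_le_sum fun i _ => ?_)
          · rw [Finset.sum_ite_mem]
            exact Finset.sum_le_sum_of_subset_of_nonneg Finset.inter_subset_right
              fun _ _ _ => abs_nonneg _
          · rw [Finset.sum_ite_mem]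
            exact Finset.sum_le_sum_of_subset_of_nonneg Finset.inter_subset_right
              fun _ _ _ => abs_nonneg _
  · dsimp only
    by_cases hR : a ∈ R
    · rw [if_pos hR, Finset.sum_eq_zero fun j _ => if_neg (by simp [hR]), add_zero, hz i a hR]
    · rw [if_neg hR, zero_add, Finset.sum_eq_single i (fun j _ hj => if_neg fun h =>
        hR (hP j i hj a (Finset.mem_sdiff.1 h).1 ha)) (by simp),
        if_pos (Finset.mem_sdiff.2 ⟨ha, hR⟩)]

lemma petal_sum {κ ι : Type} [DecidableEq κ] [Fintype ι] (R : Finset κ) (P : ι → Finset κ)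
    (hP : ∀ i j, i ≠ j → ∀ a ∈ P i, a ∈ P j → a ∈ R) (z : B κ) :
    ∑ r ∈ R, |z.1 r| + ∑ i, ∑ a ∈ P i \ R, |z.1 a| ≤ 1 := by
  have hd : (↑(Finset.univ : Finset ι) : Set ι).PairwiseDisjoint fun i => P i \ R :=
    fun i _ j _ hij => Finset.disjoint_left.2 fun a ha hb =>
      (Finset.mem_sdiff.1 ha).2 (hP i j hij a (Finset.mem_sdiff.1 ha).1 (Finset.mem_sdiff.1 hb).1)
  rw [← Finset.sum_biUnion hd, ← Finset.sum_union]
  · exact z.2 _
  · refine Finset.disjoint_left.2 fun a ha hb => ?_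
    obtain ⟨i, -, hi⟩ := Finset.mem_biUnion.1 hb
    exact (Finset.mem_sdiff.1 hi).2 ha

theorem no_embed {κ κ' : Type} [Uncountable κ] {X : Type} [TopologicalSpace X] [CompactSpace X]
    (e : ℕ → κ → C(X, ℝ)) (he : ∀ l (F : Finset κ) x, ∑ γ ∈ F, |e l γ x| ≤ 1)
    (hbig : ∀ (n : ℕ) (c : Fin n → κ), (n : ℝ) ≤ ‖∑ l : Fin n, e l (c l)‖)
    (T : C(X, ℝ) →L[ℝ] C(B κ', ℝ)) {c0 : ℝ} (hc0 : 0 < c0) (hT : ∀ f, c0 * ‖f‖ ≤ ‖T f‖) :
    False := by
  classical
  set a := ‖T‖ with ha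
  have ha0 : 0 ≤ a := T.opNorm_nonneg
  obtain ⟨n, hn⟩ := exists_nat_gt ((3 * a + 1) / c0)
  have hn0 : (0 : ℝ) < n := lt_of_le_of_lt (by positivity) hn
  have hε : (0 : ℝ) < 1 / n := by positivity
  choose S hS using fun (l : Fin n) (γ : κ) => exists_dep (fun (i : κ') (x : B κ') => x.1 i)
    (fun i => (continuous_apply i).comp continuous_subtype_val)
    (fun x x' h => Subtype.ext (funext h)) (T (e l γ)) hε
  have huniv : ¬ (univ : Set κ).Countable := by
    rw [countable_univ_iff]; exact not_countable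
  choose Γ _ hΓ R0 hR0 using fun l : Fin n => exists_root huniv (S l)
  let R : Finset κ' := Finset.univ.biUnion R0
  have hRR : ∀ l, R0 l ⊆ R := fun l => Finset.subset_biUnion_of_mem R0 (Finset.mem_univ l)
  have hcomp : ∀ (l l' : Fin n) (γ : κ) (G : Set κ), G ⊆ Γ l' →
      {γ' ∈ G | ¬ ((γ ≠ γ' ∧ ∀ b ∈ S l γ, b ∈ S l' γ' → b ∈ R) ∧
        (γ' ≠ γ ∧ ∀ b ∈ S l' γ', b ∈ S l γ → b ∈ R))}.Countable := fun l l' γ G hG => by
    refine ((petal_countable (hR0 l') (hRR l') (S l γ)).union (countable_singleton γ)).mono ?_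
    rintro γ' ⟨h1, h2⟩
    by_contra hc
    rw [mem_union, not_or] at hc
    have h3 : ∀ b ∈ S l γ, b ∈ S l' γ' → b ∈ R := by
      by_contra h
      exact hc.1 ⟨hG h1, h⟩
    exact h2 ⟨⟨fun h => hc.2 h.symm, h3⟩, hc.2, fun b hb hb' => h3 b hb' hb⟩
  let Bad : Fin n → (R → ℚ) × ℕ → Set κ := fun l w => {γ ∈ Γ l | ∃ z : B κ',
    (∀ r : R, z.1 r = w.1 r) ∧
    ((w.2 : ℝ) + 1) * ∑ b ∈ S l γ \ R, |z.1 b| ≤ 1 - ∑ r ∈ R, |z.1 r| ∧
    a / (w.2 + 1) + 1 / n < |T (e l γ) z|}
  have hBad : ∀ l w, (Bad l w).Countable := fun l w => by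
    by_contra hc
    obtain ⟨c, hc1, hc2⟩ := exists_select (ι := Fin (w.2 + 1)) (fun _ => Bad l w) (fun _ => hc)
      (fun _ γ _ γ' => γ ≠ γ' ∧ ∀ b ∈ S l γ, b ∈ S l γ' → b ∈ R)
      fun _ _ γ _ => hcomp l l γ _ fun _ h => h.1
    choose z hz1 hz2 hz3 using fun m => (hc1 m).2
    have hk : (0 : ℝ) < w.2 + 1 := by positivity
    obtain ⟨y, hy⟩ := glue_pt R (fun m => S l (c m)) (fun i j hij => (hc2 i j hij).2)
      (z 0).1 (fun m => (z m).1) (fun m r hr => (hz1 m ⟨r, hr⟩).trans (hz1 0 ⟨r, hr⟩).symm) (by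
        have e1 : ∀ m, ∑ b ∈ S l (c m) \ R, |(z m).1 b| ≤
            (1 - ∑ r ∈ R, |(z 0).1 r|) / (w.2 + 1) := fun m => by
          have e2 : ∑ r ∈ R, |(z m).1 r| = ∑ r ∈ R, |(z 0).1 r| := Finset.sum_congr rfl
            fun r hr => by rw [(hz1 m ⟨r, hr⟩).trans (hz1 0 ⟨r, hr⟩).symm]
          rw [le_div_iff₀ hk, ← e2, mul_comm]
          exact hz2 m
        have e3 := Finset.sum_le_sum fun m (_ : m ∈ Finset.univ) => e1 m
        rw [Finset.sum_const, Finset.card_univ, Fintype.card_fin, nsmul_eq_mul] at e3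
        push_cast at e3
        rw [mul_div_cancel₀ _ hk.ne'] at e3
        linarith)
    have hinj : Function.Injective c := fun i j h => by
      by_contra hij
      exact (hc2 i j hij).1 h
    have h1 := sum_abs_le T Finset.univ (fun m => e l (c m)) (fun x => by
      have := he l (Finset.univ.image c) x
      rwa [Finset.sum_image fun i _ j _ h => hinj h] at this) y
    have h2 : ∀ m, a / (w.2 + 1) < |T (e l (c m)) y| := fun m => by
      have e1 := hS l (c m) (z m) y fun b hb => (hy m b hb).symm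
      have e2 := hz3 m
      have e3 := abs_sub_abs_le_abs_sub (T (e l (c m)) (z m)) (T (e l (c m)) y)
      linarith
    have h3 := Finset.sum_lt_sum_of_nonempty Finset.univ_nonempty
      fun m (_ : m ∈ Finset.univ) => h2 m
    rw [Finset.sum_const, Finset.card_univ, Fintype.card_fin, nsmul_eq_mul] at h3
    push_cast at h3
    rw [mul_div_cancel₀ _ hk.ne'] at h3
    linarith
  obtain ⟨c, hc1, hc2⟩ := exists_select (ι := Fin n) (fun l => Γ l \ ⋃ w, Bad l w)
    (fun l h => hΓ l ((h.union (countable_iUnion (hBad l))).mono (by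
      rw [sdiff_union_self]; exact subset_union_left)))
    (fun l γ l' γ' => γ ≠ γ' ∧ ∀ b ∈ S l γ, b ∈ S l' γ' → b ∈ R)
    fun l l' γ _ => hcomp l l' γ _ sdiff_subset
  have hbound : ∀ z, |T (∑ l : Fin n, e l (c l)) z| ≤ 3 * a + 1 := by
    refine le_of_rat R _ _ fun z hz => ?_
    choose q hq using fun r : R => hz r r.2
    set ρ := 1 - ∑ r ∈ R, |z.1 r| with hρ
    let τ : Fin n → ℝ := fun l => ∑ b ∈ S l (c l) \ R, |z.1 b|
    have hτ0 : ∀ l, 0 ≤ τ l := fun l => Finset.sum_nonneg fun _ _ => abs_nonneg _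
    have hτ : ∑ l, τ l ≤ ρ := by
      have := petal_sum R (fun l => S l (c l)) (fun i j hij => (hc2 i j hij).2) z
      linarith
    have hgood : ∀ l (k : ℕ), ((k : ℝ) + 1) * τ l ≤ ρ → |T (e l (c l)) z| ≤ a / (k + 1) + 1 / n :=
      fun l k hk => by
        by_contra hc
        exact (hc1 l).2 (mem_iUnion.2 ⟨(q, k), (hc1 l).1, z, hq, hk, not_le.1 hc⟩)
    have hρ0 : 0 ≤ ρ := (Finset.sum_nonneg fun l _ => hτ0 l).trans hτ
    have h1 : ∀ l : Fin n, |T (e l (c l)) z| ≤ a / n + 2 * a * (τ l / ρ) + 1 / n := fun l => by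
      have hq0 : 0 ≤ 2 * a * (τ l / ρ) := by have := hτ0 l; positivity
      by_cases hcase : (n : ℝ) * τ l ≤ ρ
      · obtain ⟨k, hk⟩ : ∃ k : ℕ, n = k + 1 := ⟨n - 1, by
          have : 0 < n := by exact_mod_cast hn0
          omega⟩
        have hk' : (n : ℝ) = k + 1 := by exact_mod_cast hk
        have := hgood l k (by rwa [← hk'])
        rw [← hk'] at this
        linarith
      · have hτρ : τ l ≤ ρ :=
          (Finset.single_le_sum (fun l _ => hτ0 l) (Finset.mem_univ l)).trans hτ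
        have hτp : 0 < τ l := by
          rcases (hτ0 l).lt_or_eq with h | h
          · exact h
          · rw [← h, mul_zero] at hcase; exact absurd hρ0 hcase
        have hρp : 0 < ρ := hτp.trans_le hτρ
        have h1 : 1 ≤ ρ / τ l := (one_le_div hτp).2 hτρ
        obtain ⟨k, hk⟩ : ∃ k : ℕ, ⌊ρ / τ l⌋₊ = k + 1 := ⟨⌊ρ / τ l⌋₊ - 1, by
          have := Nat.one_le_floor_iff (ρ / τ l) |>.2 h1
          omega⟩
        have f1 := Nat.floor_le (zero_le_one.trans h1)
        have f2 := Nat.lt_floor_add_one (ρ / τ l)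
        rw [hk] at f1 f2
        push_cast at f1 f2
        rw [le_div_iff₀ hτp] at f1
        rw [div_lt_iff₀ hτp] at f2
        have hk0 : (0 : ℝ) ≤ k := Nat.cast_nonneg k
        have e1 := hgood l k f1
        have e2 : a / (k + 1) ≤ 2 * a * (τ l / ρ) := by
          rw [div_le_iff₀ (by positivity), mul_assoc, mul_comm 2 a, mul_assoc]
          refine le_mul_of_one_le_right ha0 ?_
          rw [← mul_assoc, ← mul_div_assoc, div_mul_eq_mul_div, le_div_iff₀ hρp]
          nlinarith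
        have e3 : 0 ≤ a / n := by positivity
        linarith
    have h2 : ∑ l, τ l / ρ ≤ 1 := by
      rw [← Finset.sum_div]
      exact div_le_one_of_le₀ hτ hρ0
    rw [map_sum, ContinuousMap.sum_apply]
    refine (Finset.abs_sum_le_sum_abs _ _).trans ((Finset.sum_le_sum fun l _ => h1 l).trans ?_)
    rw [Finset.sum_add_distrib, Finset.sum_add_distrib, ← Finset.mul_sum, Finset.sum_const,
      Finset.sum_const, Finset.card_univ, Fintype.card_fin, nsmul_eq_mul, nsmul_eq_mul,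
      mul_div_cancel₀ _ hn0.ne', mul_div_cancel₀ _ hn0.ne']
    nlinarith
  have h1 : ‖T (∑ l : Fin n, e l (c l))‖ ≤ 3 * a + 1 :=
    (ContinuousMap.norm_le _ (by positivity)).2 hbound
  have h2 := hT (∑ l : Fin n, e l (c l))
  have h3 := hbig n c
  rw [div_lt_iff₀ hc0] at hn
  nlinarith

end Pool.Agent.H10.BK
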