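import Pool.Agent.H10.BK

open Set Filter Topology

namespace Pool.Agent.H10.BK

section

variable {κ' : Type} [TopologicalSpace κ'] [DiscreteTopology κ']

open Classical in
noncomputable def co (w : ℕ × κ') (z : ℕ → OnePoint κ') : Bool := decide (z w.1 = (w.2 : OnePoint κ'))

lemma co_cont (w : ℕ × κ') : Continuous (co w) := by
  classical
  have h : IsClopen ({(w.2 : OnePoint κ')} : Set (OnePoint κ')) :=
    ⟨isClosed_singleton, by
      rw [← image_singleton, OnePoint.isOpen_image_coe]; exact isOpen_discrete _⟩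
  have h2 := (continuous_boolIndicator_iff_isClopen _).2 (h.preimage
    (continuous_apply (A := fun _ : ℕ => OnePoint κ') w.1))
  refine h2.congr fun z => ?_
  simp [Set.boolIndicator, co]

lemma co_eq {w : ℕ × κ'} {z z' : ℕ → OnePoint κ'} :
    co w z = co w z' ↔ (z w.1 = (w.2 : OnePoint κ') ↔ z' w.1 = (w.2 : OnePoint κ')) := by
  simp [co]

lemma dep_Z (f : C(ℕ → OnePoint κ', ℝ)) {ε : ℝ} (hε : 0 < ε) : ∃ (M : ℕ) (S : Finset κ'),
    ∀ z z' : ℕ → OnePoint κ', (∀ s < M, ∀ b ∈ S, (z s = (b : OnePoint κ') ↔ z' s = b)) →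
      |f z - f z'| ≤ ε := by
  classical
  obtain ⟨t, ht⟩ := exists_dep co co_cont (fun z z' h => funext fun s => by
    cases hz : z s using OnePoint.rec with
    | infty =>
      cases hz' : z' s using OnePoint.rec with
      | infty => rfl
      | coe b => exact hz.symm.trans ((co_eq.1 (h (s, b))).2 hz')
    | coe b => exact ((co_eq.1 (h (s, b))).1 hz).symm) f hε
  refine ⟨t.sup Prod.fst + 1, t.image Prod.snd, fun z z' h => ht z z' fun w hw => co_eq.2 ?_⟩
  exact h w.1 (Nat.lt_succ_of_le (Finset.le_sup (f := Prod.fst) hw)) w.2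
    (Finset.mem_image_of_mem _ hw)

end

noncomputable def fk {κ : Type} (k : ℕ) (γ : κ) : C(B κ, ℝ) :=
  ⟨fun x => min (k * |x.1 γ|) 1, (continuous_const.mul
    ((continuous_apply γ).comp continuous_subtype_val).abs).min continuous_const⟩

lemma fk_nonneg {κ : Type} (k : ℕ) (γ : κ) (x : B κ) : 0 ≤ fk k γ x :=
  le_min (by positivity) zero_le_one

lemma avg_ge {k : ℕ} (u v : Fin k → ℝ) (Bd : Finset (Fin k)) {a ε : ℝ} (hε : 0 ≤ ε)
    (hv : ∀ m, v m ≤ a) (hu : ∀ m, 0 ≤ u m) (h : ∀ m ∉ Bd, v m ≤ u m + ε) :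
    ∑ m, v m ≤ ∑ m, u m + k * ε + Bd.card * a := by
  have h1 : ∀ m, v m ≤ u m + ε + if m ∈ Bd then a else 0 := fun m => by
    split_ifs with hm
    · linarith [hv m, hu m]
    · linarith [h m hm]
  refine (Finset.sum_le_sum fun m _ => h1 m).trans (le_of_eq ?_)
  rw [Finset.sum_add_distrib, Finset.sum_add_distrib, Finset.sum_ite_mem, Finset.univ_inter]
  simp

theorem no_compl {κ κ' : Type} [Uncountable κ] [TopologicalSpace κ'] [DiscreteTopology κ']
    (i : C(B κ, ℝ) →L[ℝ] C(ℕ → OnePoint κ', ℝ)) (p : C(ℕ → OnePoint κ', ℝ) →L[ℝ] C(B κ, ℝ))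
    (hpi : ∀ f, p (i f) = f) : False := by
  classical
  set a := ‖i‖ with ha
  have ha0 : 0 ≤ a := i.opNorm_nonneg
  set b := ‖p‖ + 1 with hb
  have hb1 : 1 ≤ b := by linarith [p.opNorm_nonneg]
  have hp : ∀ (g : C(ℕ → OnePoint κ', ℝ)) (C : ℝ), (∀ z, |g z| ≤ C) → ∀ x, |p g x| ≤ b * C :=
    fun g C hg x => by
      have hC : 0 ≤ C := (abs_nonneg _).trans (hg fun _ => OnePoint.infty)
      have h1 : ‖g‖ ≤ C := (ContinuousMap.norm_le _ hC).2 hg
      calc |p g x| ≤ ‖p g‖ := (p g).norm_coe_le_norm x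
        _ ≤ ‖p‖ * ‖g‖ := p.le_opNorm g
        _ ≤ b * C := mul_le_mul (by linarith) h1 (norm_nonneg _) (by linarith)
  set ε : ℝ := 1 / (8 * b) with hε
  have hε0 : 0 < ε := by positivity
  have hbε : b * ε = 1 / 8 := by rw [hε]; field_simp
  obtain ⟨n, hn⟩ := exists_nat_gt (11 * a ^ 2 * b ^ 2)
  have hn0 : 0 < n := by
    have : (0 : ℝ) < n := lt_of_le_of_lt (by positivity) hn
    exact_mod_cast this
  have huniv : ¬ (univ : Set κ).Countable := by
    rw [countable_univ_iff]; exact not_countable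
  have hψ : ∀ k γ z, |i (fk k γ) z| ≤ a := fun k γ z => by
    simpa using sum_abs_le i {()} (fun _ => fk k γ) (fun x => by
      rw [Finset.sum_singleton, abs_of_nonneg (fk_nonneg k γ x)]
      exact min_le_right _ _) z
  have st1 : ∀ k : ℕ, ∃ (M : ℕ) (Γ : Set κ) (S : κ → Finset κ') (R : Finset κ'), ¬ Γ.Countable ∧
      (∀ γ ∈ Γ, ∀ z z' : ℕ → OnePoint κ',
        (∀ s < M, ∀ b ∈ S γ, (z s = (b : OnePoint κ') ↔ z' s = b)) →
        |i (fk k γ) z - i (fk k γ) z'| ≤ ε) ∧ ∀ b ∉ R, {γ ∈ Γ | b ∈ S γ}.Countable := fun k => by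
    choose M S h using fun γ : κ => dep_Z (i (fk k γ)) hε0
    obtain ⟨m, hm⟩ := exists_fiber huniv M
    obtain ⟨Γ, h1, h2, R, hR⟩ := exists_root hm S
    exact ⟨m, Γ, S, R, h2, fun γ hγ z z' hz => h γ z z' (by rwa [(h1 hγ).2]), hR⟩
  choose M Γ S R0 hΓ hS hR0 using st1
  let K : ℕ → ℕ := fun m => ⌈2 * a * m / ε⌉₊ + n
  obtain ⟨N, hN⟩ : ∃ N : ℕ → ℕ, ∀ j, N (j + 1) = N j + M (K (N j)) + 1 :=
    ⟨fun j => Nat.rec (motive := fun _ => ℕ) 0 (fun _ m => m + M (K m) + 1) j, fun _ => rfl⟩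
  have hNm : StrictMono N := strictMono_nat_of_lt_succ fun j => by rw [hN]; omega
  let k : ℕ → ℕ := fun j => K (N j)
  have hkn : ∀ j, n ≤ k j := fun j => Nat.le_add_left _ _
  have hk0 : ∀ j, (0 : ℝ) < k j := fun j => by exact_mod_cast hn0.trans_le (hkn j)
  have hkN : ∀ j : ℕ, 2 * (Nat.cast (N j) : ℝ) * a ≤ k j * ε := fun j => by
    have h1 := Nat.le_ceil (2 * a * (N j) / ε)
    rw [div_le_iff₀ hε0] at h1
    have h2 : (⌈2 * a * (N j) / ε⌉₊ : ℝ) ≤ k j := by exact_mod_cast Nat.le_add_right _ _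
    nlinarith
  let R : Finset κ' := Finset.univ.biUnion fun j : Fin n => R0 (k j)
  have hRR : ∀ j : Fin n, R0 (k j) ⊆ R := fun j =>
    Finset.subset_biUnion_of_mem (fun j : Fin n => R0 (k j)) (Finset.mem_univ j)
  let rt : (ℕ → OnePoint κ') → (Fin (N n) × R → Bool) := fun z w => co (w.1.1, w.2.1) z
  have hrt : Continuous rt := continuous_pi fun w => co_cont _
  have hdisc : DiscreteTopology (Fin (N n) × R → Bool) := Finite.instDiscreteTopology
  let χ : Set (Fin (N n) × R → Bool) → C(ℕ → OnePoint κ', ℝ) := fun V =>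
    ⟨fun z => if rt z ∈ V then 1 else 0,
      (continuous_of_discreteTopology
        (f := fun t : Fin (N n) × R → Bool => if t ∈ V then (1 : ℝ) else 0)).comp hrt⟩
  have hχ : ∀ V z, χ V z = if rt z ∈ V then 1 else 0 := fun _ _ => rfl
  choose S1 hS1 using fun (j : Fin n) (γ : κ) (V : Set (Fin (N n) × R → Bool)) =>
    exists_dep (fun (c : κ) (x : B κ) => x.1 c)
      (fun c => (continuous_apply c).comp continuous_subtype_val)
      (fun x x' h => Subtype.ext (funext h)) (p (χ V * i (fk (k j) γ))) hε0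
  let S' : Fin n → κ → Finset κ := fun j γ => Finset.univ.biUnion (S1 j γ)
  choose Γ' hΓ'1 hΓ' R1 hR1 using fun j : Fin n => exists_root (hΓ (k j)) (S' j)
  let R' : Finset κ := Finset.univ.biUnion R1
  obtain ⟨c, hc1, hc2⟩ := exists_select (ι := Σ j : Fin n, Fin (k j))
    (fun w => Γ' w.1 \ R') (fun w h => hΓ' w.1 ((h.union R'.countable_toSet).mono (by
      rw [sdiff_union_self]; exact subset_union_left)))
    (fun w γ w' γ' => γ ≠ γ' ∧ γ' ∉ S' w.1 γ ∧ ∀ b ∈ S (k w.1) γ, b ∈ S (k w'.1) γ' → b ∈ R)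
    (fun w w' γ hγ => by
      have hγ' : γ ∉ R1 w'.1 := fun h =>
        hγ.2 (Finset.mem_biUnion.2 ⟨w'.1, Finset.mem_univ _, h⟩)
      refine ((((petal_countable (hR0 (k w'.1)) (hRR w'.1) (S (k w.1) γ)).union
        (countable_singleton γ)).union (S' w.1 γ).countable_toSet).union
        (hR1 w'.1 γ hγ')).mono ?_
      rintro γ' ⟨h1, h2⟩
      by_contra hc
      simp only [mem_union, not_or] at hc
      obtain ⟨⟨⟨c1, c2⟩, c3⟩, c4⟩ := hc
      have h3 : ∀ b ∈ S (k w.1) γ, b ∈ S (k w'.1) γ' → b ∈ R := by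
        by_contra h
        exact c1 ⟨hΓ'1 _ h1.1, h⟩
      exact h2 ⟨⟨fun h => c2 h.symm, c3, h3⟩, c2, fun h => c4 ⟨h1.1, h⟩,
        fun b hb hb' => h3 b hb' hb⟩)
  have hinj : Function.Injective c := fun w w' h => by
    by_contra hne
    exact (hc2 w w' hne).1 h
  let ψ : (Σ j : Fin n, Fin (k j)) → C(ℕ → OnePoint κ', ℝ) := fun w => i (fk (k w.1) (c w))
  have hP : ∀ z, ∑ j : Fin n, (∑ m : Fin (k j), |ψ ⟨j, m⟩ z|) / k j ≤ a := fun z => by
    have h1 := sum_abs_le i Finset.univ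
      (fun w : Σ j : Fin n, Fin (k j) => (1 / (k w.1 : ℝ)) • fk (k w.1) (c w)) (fun x => by
        have h2 := x.2 (Finset.univ.image c)
        rw [Finset.sum_image fun w _ w' _ h => hinj h] at h2
        refine le_trans (Finset.sum_le_sum fun w _ => ?_) h2
        rw [ContinuousMap.smul_apply, smul_eq_mul, abs_mul, abs_of_nonneg (fk_nonneg _ _ _),
          abs_of_pos (one_div_pos.2 (hk0 _)), one_div_mul_eq_div, div_le_iff₀ (hk0 _), mul_comm]
        exact min_le_left _ _) z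
    rw [Fintype.sum_sigma] at h1
    refine le_trans (le_of_eq (Finset.sum_congr rfl fun j _ => ?_)) h1
    rw [Finset.sum_div]
    refine Finset.sum_congr rfl fun m _ => ?_
    rw [map_smul, ContinuousMap.smul_apply, smul_eq_mul, abs_mul,
      abs_of_pos (one_div_pos.2 (hk0 _)), one_div_mul_eq_div]
  let V : Fin n → Set (Fin (N n) × R → Bool) := fun j =>
    {t | ∃ z, rt z = t ∧ 4 * ε * k j ≤ ∑ m : Fin (k j), |ψ ⟨j, m⟩ z|}
  -- Step A
  have stA : ∀ j : Fin n, ∃ (m : Fin (k j)) (x : B κ),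
      x.1 = pt (fun m' : Fin (k j) => c ⟨j, m'⟩) (fun _ => 1 / k j) ∧
      1 / 2 ≤ p (χ (V j) * ψ ⟨j, m⟩) x := fun j => by
    let x : B κ := ⟨pt (fun m' : Fin (k j) => c ⟨j, m'⟩) (fun _ => 1 / k j), pt_mem _ _ (by
      rw [Finset.sum_const, Finset.card_univ, Fintype.card_fin, nsmul_eq_mul,
        abs_of_pos (one_div_pos.2 (hk0 _)), mul_one_div_cancel (hk0 _).ne'])⟩
    have h1 : ∀ m, p (ψ ⟨j, m⟩) x = 1 := fun m => by
      change p (i _) x = 1
      rw [hpi]
      change min (k j * |pt (fun m' : Fin (k j) => c ⟨j, m'⟩) (fun _ => 1 / k j) (c ⟨j, m⟩)|) 1 = 1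
      rw [pt_self (c := fun m' : Fin (k j) => c ⟨j, m'⟩) _ m fun m' h => by simpa using hinj h,
        abs_of_pos (one_div_pos.2 (hk0 _)), mul_one_div_cancel (hk0 _).ne', min_self]
    have h2 := hp (∑ m, (ψ ⟨j, m⟩ - χ (V j) * ψ ⟨j, m⟩)) (4 * ε * k j) (fun z => by
      rw [ContinuousMap.sum_apply]
      by_cases hz : rt z ∈ V j
      · rw [Finset.sum_eq_zero fun m _ => by simp [hχ, hz], abs_zero]
        have := hk0 j
        positivity
      · have : ¬ 4 * ε * k j ≤ ∑ m : Fin (k j), |ψ ⟨j, m⟩ z| := fun h => hz ⟨z, rfl, h⟩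
        refine (Finset.abs_sum_le_sum_abs _ _).trans (le_trans (le_of_eq ?_) (not_le.1 this).le)
        exact Finset.sum_congr rfl fun m _ => by simp [hχ, hz]) x
    rw [map_sum, ContinuousMap.sum_apply] at h2
    simp only [map_sub, ContinuousMap.sub_apply, h1] at h2
    by_contra hc
    have h3 : ∀ m : Fin (k j), 1 / 2 < 1 - p (χ (V j) * ψ ⟨j, m⟩) x := fun m => by
      by_contra h
      exact hc ⟨m, x, rfl, by linarith⟩
    have : Nonempty (Fin (k j)) := ⟨⟨0, hn0.trans_le (hkn j)⟩⟩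
    have h4 := Finset.sum_lt_sum_of_nonempty Finset.univ_nonempty
      fun m (_ : m ∈ Finset.univ) => h3 m
    rw [Finset.sum_const, Finset.card_univ, Fintype.card_fin, nsmul_eq_mul] at h4
    have h5 := (abs_le.1 h2).2
    have h6 : b * (4 * ε * k j) = k j * (1 / 2) := by
      rw [show b * (4 * ε * k j) = 4 * (b * ε) * k j by ring, hbε]; ring
    linarith
  choose mm xx hxx hA using stA
  -- Step B
  let xs : B κ := ⟨pt (fun j : Fin n => c ⟨j, mm j⟩) (fun j => 1 / k j), pt_mem _ _ (by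
    have h1 : ∀ j : Fin n, |(1 : ℝ) / k j| ≤ 1 / n := fun j => by
      rw [abs_of_pos (one_div_pos.2 (hk0 _))]
      exact one_div_le_one_div_of_le (by exact_mod_cast hn0) (by exact_mod_cast hkn j)
    refine (Finset.sum_le_sum fun j _ => h1 j).trans ?_
    rw [Finset.sum_const, Finset.card_univ, Fintype.card_fin, nsmul_eq_mul,
      mul_one_div_cancel (by exact_mod_cast hn0.ne')])⟩
  have stB : ∀ j : Fin n, 3 / 8 ≤ p (χ (V j) * ψ ⟨j, mm j⟩) xs := fun j => by
    have h1 := hS1 j (c ⟨j, mm j⟩) (V j) (xx j) xs fun d hd => by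
      have hd' : d ∈ S' j (c ⟨j, mm j⟩) := Finset.mem_biUnion.2 ⟨V j, Finset.mem_univ _, hd⟩
      rw [hxx]
      change _ = pt (fun j : Fin n => c ⟨j, mm j⟩) (fun j => 1 / k j) d
      by_cases h : d = c ⟨j, mm j⟩
      · rw [h, pt_self (c := fun m' : Fin (k j) => c ⟨j, m'⟩) _ (mm j)
          fun m' h => by simpa using hinj h,
          pt_self (c := fun j : Fin n => c ⟨j, mm j⟩) _ j fun j' h => congrArg Sigma.fst (hinj h)]
      · have h2 : ∀ w, c w ≠ d := fun w hw => by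
          have hne : (⟨j, mm j⟩ : Σ j : Fin n, Fin (k j)) ≠ w := fun e => h (by rw [e, hw])
          exact (hc2 _ w hne).2.1 (hw ▸ hd')
        rw [pt_of_ne _ fun m' => h2 _, pt_of_ne _ fun m' => h2 _]
    have h2 := hA j
    have h3 : ε ≤ 1 / 8 := by nlinarith
    have h4 := (abs_le.1 h1).2
    change p (χ (V j) * ψ ⟨j, mm j⟩) (xx j) - p (χ (V j) * ψ ⟨j, mm j⟩) xs ≤ ε at h4
    linarith
  -- Step C
  have stC : ∀ z, ((Finset.univ.filter fun j : Fin n => rt z ∈ V j).card : ℝ) * (2 * ε) ≤ a :=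
    fun z => by
    have h1 : ∀ j : ℕ, ∃ z', rt z' = rt z ∧ ∀ h : j < n, rt z ∈ V ⟨j, h⟩ →
        4 * ε * k j ≤ ∑ m : Fin (k j), |ψ ⟨⟨j, h⟩, m⟩ z'| := fun j => by
      by_cases h : ∃ h : j < n, rt z ∈ V ⟨j, h⟩
      · obtain ⟨h, z', h1, h2⟩ := h
        exact ⟨z', h1, fun _ _ => h2⟩
      · exact ⟨z, rfl, fun h1 h2 => absurd ⟨h1, h2⟩ h⟩
    choose zz hz1 hz2 using h1
    have hex : ∀ s : ℕ, ∃ j, s < N (j + 1) := fun s =>
      ⟨s, Nat.lt_of_succ_le (hNm.le_apply (x := s + 1))⟩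
    let zt : ℕ → OnePoint κ' := fun s => zz (Nat.find (hex s)) s
    have hroot : ∀ j j' s, s < N n → ∀ r ∈ R, (zz j s = (r : OnePoint κ') ↔ zz j' s = r) :=
      fun j j' s hs r hr =>
        co_eq.1 (congrFun ((hz1 j).trans (hz1 j').symm) (⟨s, hs⟩, ⟨r, hr⟩))
    have h2 : ∀ j : Fin n, rt z ∈ V j → 2 * ε ≤ (∑ m : Fin (k j), |ψ ⟨j, m⟩ zt|) / k j :=
      fun j hj => by
      let Bd : (ℕ → OnePoint κ') → Finset (Fin (k j)) := fun y => Finset.univ.filter fun m =>
        ∃ s < N j, ∃ d ∈ S (k j) (c ⟨j, m⟩), d ∉ R ∧ y s = d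
      have hBd : ∀ y, (Bd y).card ≤ N j := fun y => by
        have : ∀ m : Fin (k j), ∃ s, m ∈ Bd y → s < N j ∧
            ∃ d ∈ S (k j) (c ⟨j, m⟩), d ∉ R ∧ y s = d := fun m => by
          by_cases hm : m ∈ Bd y
          · obtain ⟨s, h⟩ := (Finset.mem_filter.1 hm).2
            exact ⟨s, fun _ => h⟩
          · exact ⟨0, fun h => absurd h hm⟩
        choose σ hσ using this
        rw [← Finset.card_range (N j)]
        refine Finset.card_le_card_of_injOn σ (fun m hm => Finset.mem_coe.2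
          (Finset.mem_range.2 (hσ m hm).1)) fun m hm m' hm' h => ?_
        by_contra hne
        obtain ⟨d, d1, d2, d3⟩ := (hσ m hm).2
        obtain ⟨d', d1', -, d3'⟩ := (hσ m' hm').2
        have : d = d' := OnePoint.coe_injective (by rw [← d3, ← d3', h])
        subst this
        exact d2 ((hc2 ⟨j, m⟩ ⟨j, m'⟩ (by simpa using hne)).2.2 d d1 d1')
      have h3 := avg_ge (fun m => |ψ ⟨j, m⟩ zt|) (fun m => |ψ ⟨j, m⟩ (zz j)|)
        (Bd (zz j) ∪ Bd zt) hε0.le (fun m => hψ _ _ _) (fun m => abs_nonneg _) (fun m hm => by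
          rw [Finset.mem_union, not_or] at hm
          have h4 := hS (k j) (c ⟨j, m⟩) (hΓ'1 j (hc1 ⟨j, m⟩).1) (zz j) zt fun s hs d hd => by
            have hs1 : s < N (j + 1) := by
              rw [hN]
              change s < M (K (N j)) at hs
              omega
            by_cases hdR : d ∈ R
            · exact hroot _ _ s (hs1.trans_le (hNm.monotone j.2)) d hdR
            by_cases hs2 : s < N j
            · exact ⟨fun h => absurd (Finset.mem_filter.2 ⟨Finset.mem_univ _, s, hs2, d, hd, hdR, h⟩)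
                hm.1, fun h => absurd
                (Finset.mem_filter.2 ⟨Finset.mem_univ _, s, hs2, d, hd, hdR, h⟩) hm.2⟩
            · have : Nat.find (hex s) = j := (Nat.find_eq_iff _).2 ⟨hs1, fun l hl h =>
                hs2 (h.trans_le (hNm.monotone hl))⟩
              change _ ↔ zz (Nat.find (hex s)) s = d
              rw [this]
          have h5 := abs_sub_abs_le_abs_sub (ψ ⟨j, m⟩ (zz j)) (ψ ⟨j, m⟩ zt)
          change |ψ ⟨j, m⟩ (zz j) - ψ ⟨j, m⟩ zt| ≤ ε at h4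
          linarith)
      have h6 : ((Bd (zz j) ∪ Bd zt).card : ℝ) ≤ 2 * N j := by
        have := (Finset.card_union_le (Bd (zz j)) (Bd zt)).trans (add_le_add (hBd _) (hBd _))
        have h7 : ((Bd (zz j) ∪ Bd zt).card : ℝ) ≤ (N j + N j : ℕ) := by exact_mod_cast this
        push_cast at h7
        linarith
      have h7 := hz2 j j.2 hj
      have h8 := hkN j
      have h9 : ((Bd (zz j) ∪ Bd zt).card : ℝ) * a ≤ 2 * N j * a :=
        mul_le_mul_of_nonneg_right h6 ha0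
      rw [le_div_iff₀ (hk0 j)]
      change 4 * ε * k j ≤ ∑ m : Fin (k j), |ψ ⟨j, m⟩ (zz j)| at h7
      linarith
    refine le_trans ?_ (hP zt)
    rw [← nsmul_eq_mul, ← Finset.sum_const]
    refine (Finset.sum_le_sum fun j hj => h2 j (Finset.mem_filter.1 hj).2).trans ?_
    exact Finset.sum_le_sum_of_subset_of_nonneg (Finset.filter_subset _ _) fun j _ _ =>
      div_nonneg (Finset.sum_nonneg fun _ _ => abs_nonneg _) (hk0 j).le
  have h1 := hp (∑ j : Fin n, χ (V j) * ψ ⟨j, mm j⟩) (4 * a ^ 2 * b) (fun z => by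
    rw [ContinuousMap.sum_apply]
    have e1 : ∀ j : Fin n, |(χ (V j) * ψ ⟨j, mm j⟩) z| ≤ if rt z ∈ V j then a else 0 := fun j => by
      rw [ContinuousMap.mul_apply, hχ]
      split_ifs
      · rw [one_mul]; exact hψ _ _ _
      · simp
    refine (Finset.abs_sum_le_sum_abs _ _).trans ((Finset.sum_le_sum fun j _ => e1 j).trans ?_)
    rw [← Finset.sum_filter, Finset.sum_const, nsmul_eq_mul]
    have e2 := stC z
    set t : ℝ := ((Finset.univ.filter fun j : Fin n => rt z ∈ V j).card : ℝ)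
    have e3 : t ≤ 4 * a * b := by
      have : t * (2 * ε) * b ≤ a * b := mul_le_mul_of_nonneg_right e2 (by linarith)
      rw [show t * (2 * ε) * b = 2 * t * (b * ε) by ring, hbε] at this
      linarith
    nlinarith) xs
  rw [map_sum, ContinuousMap.sum_apply] at h1
  have h2 := Finset.sum_le_sum fun j (_ : j ∈ Finset.univ) => stB j
  rw [Finset.sum_const, Finset.card_univ, Fintype.card_fin, nsmul_eq_mul] at h2
  have h3 := (abs_le.1 h1).2
  nlinarith [sq_nonneg (a * b)]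

end Pool.Agent.H10.BK
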