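import Mathlib

/-! The Bass-Serre tree of `BS(2,3)` as a real tree. -/

namespace Pool.Agent.H10.BS

abbrev Lt := ℤ × Bool

def md : Bool → ℤ
  | true => 3
  | false => 2

def Red : List Lt → Prop
  | [] => True
  | (i, e) :: w => 0 ≤ i ∧ i < md e ∧ w.head? ≠ some (0, !e) ∧ Red w

def A : ℤ → List Lt → List Lt
  | _, [] => []
  | k, (i, e) :: w => ((k + i) % md e, e) :: A (md (!e) * ((k + i) / md e)) w

theorem A_len : ∀ (k : ℤ) (w : List Lt), (A k w).length = w.length
  | _, [] => rfl
  | k, (i, e) :: w => by simp [A, A_len]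

theorem A_A : ∀ (k l : ℤ) (w : List Lt), A k (A l w) = A (k + l) w
  | _, _, [] => rfl
  | k, l, (i, e) :: w => by
      simp only [A, A_A]
      cases e <;> simp only [md, Bool.not_true, Bool.not_false] <;> congr 2 <;> omega

theorem A_zero : ∀ (w : List Lt), Red w → A 0 w = w
  | [], _ => rfl
  | (i, e) :: w, h => by
      obtain ⟨h1, h2, -, h4⟩ := h
      have e1 : (0 + i) % md e = i := by cases e <;> simp only [md] at * <;> omega
      have e2 : (0 + i) / md e = 0 := by cases e <;> simp only [md] at * <;> omega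
      simp only [A, e1, e2, mul_zero, A_zero w h4]

theorem A_red : ∀ (k : ℤ) (w : List Lt), Red w → Red (A k w)
  | _, [], _ => trivial
  | k, (i, e) :: w, h => by
      obtain ⟨h1, h2, h3, h4⟩ := h
      refine ⟨by cases e <;> simp only [md] <;> omega, by cases e <;> simp only [md] <;> omega,
        ?_, A_red _ w h4⟩
      match w, h3, h4 with
      | [], _, _ => simp [A]
      | (j, f) :: w, h3, h4 =>
        obtain ⟨h5, h6, -⟩ := h4
        cases e <;> cases f <;> simp [A, md] at * <;> omega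

def lcp : List Lt → List Lt → ℕ
  | a :: l, b :: m => if a = b then lcp l m + 1 else 0
  | _, _ => 0

theorem lcp_comm : ∀ u v, lcp u v = lcp v u
  | [], [] => rfl
  | [], _ :: _ => rfl
  | _ :: _, [] => rfl
  | a :: l, b :: m => by simp only [lcp, lcp_comm l m, eq_comm]

theorem lcp_self : ∀ u, lcp u u = u.length
  | [] => rfl
  | a :: l => by simp [lcp, lcp_self l]

theorem lcp_nil (u : List Lt) : lcp [] u = 0 := by cases u <;> rfl

theorem lcp_ultra : ∀ u v w, min (lcp u v) (lcp v w) ≤ lcp u w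
  | [], v, w => by simp [lcp_nil]
  | _ :: _, [], w => by simp [lcp]
  | _ :: _, _ :: _, [] => by simp [lcp]
  | a :: l, b :: m, c :: n => by
      have := lcp_ultra l m n
      simp only [lcp]
      split_ifs with h1 h2 h3 <;> first | omega | exact absurd (h1.trans h2) h3

theorem lcp_A : ∀ (k : ℤ) (u v : List Lt), Red u → Red v → lcp (A k u) (A k v) = lcp u v
  | _, [], v, _, _ => by simp [A, lcp_nil]
  | _, (_, _) :: _, [], _, _ => by simp [A, lcp]
  | k, (i, e) :: u, (j, f) :: v, hu, hv => by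
      simp only [A, lcp]
      by_cases h : (i, e) = (j, f)
      · obtain ⟨rfl, rfl⟩ := Prod.mk.inj h
        simp [lcp_A _ u v hu.2.2.2 hv.2.2.2]
      · rw [if_neg h, if_neg]
        intro h'
        obtain ⟨h1, rfl⟩ := Prod.mk.inj h'
        apply h
        obtain ⟨a1, a2, -⟩ := hu
        obtain ⟨b1, b2, -⟩ := hv
        have : i = j := by cases e <;> simp only [md] at * <;> omega
        rw [this]

theorem lcp_head {u v : List Lt} (h : u.head? ≠ v.head?) : lcp u v = 0 := by
  match u, v, h with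
  | [], v, _ => exact lcp_nil v
  | _ :: _, [], _ => rfl
  | a :: l, b :: m, h =>
    have : a ≠ b := by simpa using h
    simp [lcp, this]

/-- points of the tree before identification -/
@[ext] structure P where
  w : List Lt
  s : ℝ
  red : Red w
  h0 : 0 ≤ s
  h1 : s ≤ w.length

/-- the height of the meet -/
noncomputable def mt (p q : P) : ℝ := min (min p.s q.s) (lcp p.w q.w)

theorem mt_comm (p q : P) : mt p q = mt q p := by simp only [mt, lcp_comm p.w, min_comm p.s]

theorem mt_le (p q : P) : mt p q ≤ p.s ∧ mt p q ≤ q.s ∧ mt p q ≤ lcp p.w q.w ∧ 0 ≤ mt p q :=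
  ⟨(min_le_left _ _).trans (min_le_left _ _), (min_le_left _ _).trans (min_le_right _ _),
    min_le_right _ _, le_min (le_min p.h0 q.h0) (Nat.cast_nonneg _)⟩

theorem mt_ultra (p q r : P) : mt p q ≤ mt p r ∨ mt q r ≤ mt p r := by
  have h1 := mt_le p q
  have h2 := mt_le q r
  have h3 : (min (lcp p.w q.w) (lcp q.w r.w) : ℝ) ≤ lcp p.w r.w := by
    exact_mod_cast lcp_ultra p.w q.w r.w
  rcases le_total (mt p q) (mt q r) with h | h
  · left
    exact le_min (le_min h1.1 (h.trans h2.2.1)) ((le_min h1.2.2.1 (h.trans h2.2.2.1)).trans h3)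
  · right
    exact le_min (le_min (h.trans h1.1) h2.2.1) ((le_min (h.trans h1.2.2.1) h2.2.2.1).trans h3)

noncomputable instance : PseudoMetricSpace P where
  dist p q := p.s + q.s - 2 * mt p q
  dist_self p := by
    have : mt p p = p.s := by simp [mt, lcp_self, p.h1]
    rw [this]; ring
  dist_comm p q := by rw [mt_comm]; ring
  dist_triangle p q r := by
    have h1 := mt_le p q
    have h2 := mt_le q r
    rcases mt_ultra p q r with h | h <;> linarith [h1.2.1, h2.1]

theorem dist_def (p q : P) : dist p q = p.s + q.s - 2 * mt p q := rfl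

/-- the elliptic generator -/
def pA (k : ℤ) (p : P) : P := ⟨A k p.w, p.s, A_red k _ p.red, p.h0, by rw [A_len]; exact p.h1⟩

theorem dist_pA (k : ℤ) (p q : P) : dist (pA k p) (pA k q) = dist p q := by
  simp only [dist_def, mt, pA, lcp_A k _ _ p.red q.red]

theorem pA_pA (k l : ℤ) (p : P) : pA k (pA l p) = pA (k + l) p := P.ext (A_A k l _) rfl

theorem pA_zero (p : P) : pA 0 p = p := P.ext (A_zero _ p.red) rfl

theorem red_tail : ∀ {w : List Lt}, Red w → Red w.tail
  | [], _ => trivial
  | (_, _) :: _, h => h.2.2.2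

theorem md_pos (e : Bool) : 0 < md e := by cases e <;> decide

/-- the stable letter and its inverse -/
noncomputable def pT (e : Bool) (p : P) : P :=
  if h : p.w.head? = some (0, !e) then
    if h' : 1 ≤ p.s then ⟨p.w.tail, p.s - 1, red_tail p.red, by linarith, by
      have := p.h1
      match p.w, h, this with
      | _ :: l, _, this => simp at this ⊢; linarith⟩
    else ⟨[(0, e)], 1 - p.s, ⟨le_rfl, md_pos e, by simp, trivial⟩, by linarith,
      by simp [p.h0]⟩
  else ⟨(0, e) :: p.w, p.s + 1, ⟨le_rfl, md_pos e, h, p.red⟩, by linarith [p.h0],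
    by simp [p.h1]⟩

theorem pT_cases (e : Bool) (p : P) :
    (∃ u, p.w = (0, !e) :: u ∧ u.head? ≠ some (0, e) ∧ 1 ≤ p.s ∧ (pT e p).w = u ∧
      (pT e p).s = p.s - 1) ∨
    (∃ u, p.w = (0, !e) :: u ∧ p.s < 1 ∧ (pT e p).w = [(0, e)] ∧ (pT e p).s = 1 - p.s) ∨
    (p.w.head? ≠ some (0, !e) ∧ (pT e p).w = (0, e) :: p.w ∧ (pT e p).s = p.s + 1) := by
  by_cases h : p.w.head? = some (0, !e)
  · obtain ⟨u, hu⟩ : ∃ u, p.w = (0, !e) :: u := by
      match p.w, h with
      | a :: l, h => exact ⟨l, by simp at h; rw [h]⟩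
    have hr := p.red
    rw [hu] at hr
    by_cases h' : 1 ≤ p.s
    · left
      refine ⟨u, hu, by simpa using hr.2.2.1, h', ?_, ?_⟩ <;> simp [pT, h', hu]
    · right; left
      refine ⟨u, hu, not_le.1 h', ?_, ?_⟩ <;> simp [pT, h', hu]
  · right; right
    refine ⟨h, ?_, ?_⟩ <;> simp [pT, h]

theorem dist_pT (e : Bool) (p q : P) : dist (pT e p) (pT e q) = dist p q := by
  have hp := p.h0
  have hq := q.h0
  rcases pT_cases e p with ⟨u, h1, h2, h3, h4, h5⟩ | ⟨u, h1, h3, h4, h5⟩ | ⟨h1, h4, h5⟩ <;>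
  rcases pT_cases e q with ⟨v, k1, k2, k3, k4, k5⟩ | ⟨v, k1, k3, k4, k5⟩ | ⟨k1, k4, k5⟩ <;>
  simp only [dist_def, mt, h4, h5, k4, k5]
  · rw [h1, k1]
    simp only [lcp, if_true]
    push_cast
    simp only [min_def]; split_ifs <;> linarith
  · rw [lcp_head (u := u) (by simpa using h2), h1, k1]
    simp only [lcp, if_true]
    push_cast
    have : (0 : ℝ) ≤ lcp u v := Nat.cast_nonneg _
    simp only [min_def]; split_ifs <;> linarith
  · rw [lcp_head (u := u) (by simpa using h2), lcp_head (u := p.w) (by rw [h1]; simpa using k1.symm)]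
    push_cast
    simp only [min_def]; split_ifs <;> linarith
  · rw [lcp_head (v := v) (by simpa using k2.symm), h1, k1]
    simp only [lcp, if_true]
    push_cast
    have : (0 : ℝ) ≤ lcp u v := Nat.cast_nonneg _
    simp only [min_def]; split_ifs <;> linarith
  · rw [h1, k1]
    simp only [lcp, if_true]
    push_cast
    have : (0 : ℝ) ≤ lcp u v := Nat.cast_nonneg _
    simp only [min_def]; split_ifs <;> linarith
  · rw [lcp_head (u := p.w) (by rw [h1]; simpa using k1.symm)]
    simp only [lcp, if_true, lcp_nil]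
    push_cast
    simp only [min_def]; split_ifs <;> linarith
  · rw [lcp_head (v := v) (by simpa using k2.symm), lcp_head (u := p.w) (by rw [k1]; simpa using h1)]
    push_cast
    simp only [min_def]; split_ifs <;> linarith
  · rw [lcp_head (u := p.w) (by rw [k1]; simpa using h1), lcp_comm]
    simp only [lcp, if_true, lcp_nil]
    push_cast
    simp only [min_def]; split_ifs <;> linarith
  · simp only [lcp, if_true]
    push_cast
    simp only [min_def]; split_ifs <;> linarith

theorem pT_pT (e : Bool) (p : P) : dist (pT e (pT (!e) p)) p = 0 := by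
  have hp := p.h0
  have hp1 := p.h1
  rcases pT_cases (!e) p with ⟨u, h1, h2, h3, h4, h5⟩ | ⟨u, h1, h3, h4, h5⟩ | ⟨h1, h4, h5⟩ <;>
  rcases pT_cases e (pT (!e) p) with
    ⟨v, k1, k2, k3, k4, k5⟩ | ⟨v, k1, k3, k4, k5⟩ | ⟨k1, k4, k5⟩ <;>
  simp only [dist_def, mt, k4, k5, h5, Bool.not_not] at *
  · rw [h4] at k1; simp [k1] at h2
  · rw [h4] at k1; simp [k1] at h2
  · rw [h4, ← h1, lcp_self]
    simp only [min_def]; split_ifs <;> linarith
  · have : (0 : ℝ) ≤ lcp v p.w := Nat.cast_nonneg _
    simp only [min_def]; split_ifs <;> linarith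
  · rw [h1]
    simp only [lcp, if_true, lcp_nil]
    push_cast
    simp only [min_def]; split_ifs <;> linarith
  · rw [h4] at k1; simp at k1
  · rw [h4] at k1
    obtain rfl : p.w = v := by simpa using k1
    rw [lcp_self]
    simp only [min_def]; split_ifs <;> linarith
  · linarith
  · rw [h4] at k1; simp at k1

theorem rel (p : P) : pT true (pA 2 p) = pA 3 (pT true p) := by
  have hr := p.red
  rcases pT_cases true p with ⟨u, h1, h2, h3, h4, h5⟩ | ⟨u, h1, h3, h4, h5⟩ | ⟨h1, h4, h5⟩ <;>
  rcases pT_cases true (pA 2 p) with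
    ⟨v, k1, k2, k3, k4, k5⟩ | ⟨v, k1, k3, k4, k5⟩ | ⟨k1, k4, k5⟩ <;>
  apply P.ext <;> simp only [pA, h4, h5, k4, k5, Bool.not_true] at * <;>
  first
    | linarith
    | rfl
    | (rw [h1] at k1; simp [A, md] at k1; done)
    | (rw [h1] at k1; simp [A, md] at k1; exact k1.symm)
    | (simp [A, md]; done)
    | (exfalso
       match p.w, h1, k1, hr with
       | (i, f) :: l, h1, k1, hr =>
         obtain ⟨a1, a2, -⟩ := hr
         cases f <;> simp [A, md] at * <;> omega)

end Pool.Agent.H10.BS
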