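import Pool.Agent.H10.BS1

/-! The real tree, its isometries, and invariable generation. -/

namespace Pool.Agent.H10.BS

/-- the real tree -/
abbrev X := SeparationQuotient P

/-- the projection -/
noncomputable def mk (p : P) : X := SeparationQuotient.mk p

theorem mk_surj : Function.Surjective mk := SeparationQuotient.surjective_mk

theorem dist_mk (p q : P) : dist (mk p) (mk q) = dist p q := SeparationQuotient.dist_mk p q

theorem mk_eq {p q : P} (h : dist p q = 0) : mk p = mk q := by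
  rw [← dist_eq_zero, dist_mk, h]

/-- descend a distance preserving map -/
noncomputable def desc (f : P → P) (hf : ∀ p q, dist (f p) (f q) = dist p q) : X → X :=
  SeparationQuotient.lift (fun p => mk (f p)) (fun p q h => mk_eq (by
    rw [hf]; exact Metric.inseparable_iff.1 h))

/-- an isometry of the tree -/
noncomputable def iso (f g : P → P) (hf : ∀ p q, dist (f p) (f q) = dist p q)
    (hg : ∀ p q, dist (g p) (g q) = dist p q) (h1 : ∀ p, dist (g (f p)) p = 0)
    (h2 : ∀ p, dist (f (g p)) p = 0) : X ≃ᵢ X where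
  toFun := desc f hf
  invFun := desc g hg
  left_inv x := by obtain ⟨p, rfl⟩ := mk_surj x; exact mk_eq (h1 p)
  right_inv x := by obtain ⟨p, rfl⟩ := mk_surj x; exact mk_eq (h2 p)
  isometry_toFun := Isometry.of_dist_eq fun x y => by
    obtain ⟨p, rfl⟩ := mk_surj x
    obtain ⟨q, rfl⟩ := mk_surj y
    exact (dist_mk _ _).trans ((hf p q).trans (dist_mk p q).symm)

/-- the generator `a` -/
noncomputable def al : X ≃ᵢ X := iso (pA 1) (pA (-1)) (dist_pA 1) (dist_pA (-1))
  (fun p => by rw [pA_pA]; simp [pA_zero]) (fun p => by rw [pA_pA]; simp [pA_zero])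

/-- the generator `t` -/
noncomputable def ta : X ≃ᵢ X := iso (pT true) (pT false) (dist_pT true) (dist_pT false)
  (pT_pT false) (pT_pT true)

theorem al_mk (p : P) : al (mk p) = mk (pA 1 p) := rfl
theorem al_inv_mk (p : P) : al⁻¹ (mk p) = mk (pA (-1) p) := rfl
theorem ta_mk (p : P) : ta (mk p) = mk (pT true p) := rfl
theorem ta_inv_mk (p : P) : ta⁻¹ (mk p) = mk (pT false p) := rfl

theorem relation : ta * al ^ 2 * ta⁻¹ = al ^ 3 := by
  rw [mul_inv_eq_iff_eq_mul]
  ext x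
  obtain ⟨p, rfl⟩ := mk_surj x
  simp only [pow_succ, pow_zero, one_mul, IsometryEquiv.mul_apply, al_mk, ta_mk, pA_pA]
  exact congrArg mk (rel p)

/-- the root -/
def o : P := ⟨[], 0, trivial, le_rfl, by simp⟩

theorem dist_o (p : P) : dist o p = p.s := by
  have h := mt_le o p
  have h0 : o.s = 0 := rfl
  rw [dist_def]
  linarith [h.1, h.2.2.2]

theorem al_o : al (mk o) = mk o := rfl

theorem red_rep (e : Bool) : ∀ n, Red (List.replicate n ((0 : ℤ), e))
  | 0 => trivial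
  | n + 1 => ⟨le_rfl, md_pos e, by cases n <;> simp [List.replicate], red_rep e n⟩

/-- points on the axis -/
def ax (e : Bool) (n : ℕ) : P := ⟨List.replicate n (0, e), n, red_rep e n, by simp, by simp⟩

theorem pT_ax (e : Bool) (n : ℕ) : pT e (ax e n) = ax e (n + 1) := by
  have h : ¬ (ax e n).w.head? = some (0, !e) := by cases n <;> simp [ax, List.replicate]
  rw [pT, dif_neg h]
  apply P.ext <;> simp [ax, List.replicate]

theorem ta_pow (n : ℕ) : (ta ^ n) (mk o) = mk (ax true n) := by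
  induction n with
  | zero => exact congrArg mk (P.ext rfl (by simp [ax, o]))
  | succ n ih => rw [pow_succ', IsometryEquiv.mul_apply, ih, ta_mk, pT_ax]

theorem ta_inv_pow (n : ℕ) : (ta⁻¹ ^ n) (mk o) = mk (ax false n) := by
  induction n with
  | zero => exact congrArg mk (P.ext rfl (by simp [ax, o]))
  | succ n ih => rw [pow_succ', IsometryEquiv.mul_apply, ih, ta_inv_mk, pT_ax]

theorem dist_ta (n : ℤ) : dist (mk o) ((ta ^ n) (mk o)) = |(n : ℝ)| := by
  obtain ⟨m, rfl | rfl⟩ := Int.eq_nat_or_neg n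
  · rw [zpow_natCast, ta_pow, dist_mk, dist_o]; simp [ax]
  · rw [zpow_neg, zpow_natCast, ← inv_pow, ta_inv_pow, dist_mk, dist_o]; simp [ax]

theorem gp_eq (p q : P) :
    (dist (mk o) (mk p) + dist (mk o) (mk q) - dist (mk p) (mk q)) / 2 = mt p q := by
  rw [dist_mk, dist_mk, dist_mk, dist_o, dist_o, dist_def]; ring

theorem head_zero (p : P) (h : 1 ≤ mt p (pT true p)) : ∃ e u, p.w = (0, e) :: u := by
  rcases pT_cases true p with ⟨u, h1, -⟩ | ⟨u, h1, -⟩ | ⟨-, h4, -⟩
  · exact ⟨_, u, h1⟩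
  · exact ⟨_, u, h1⟩
  · have h2 := (mt_le p (pT true p)).2.2.1
    rw [h4] at h2
    match p.w, h2 with
    | [], h2 => simp [lcp] at h2; linarith
    | a :: l, h2 =>
      by_cases ha : a = (0, true)
      · exact ⟨true, l, by rw [ha]⟩
      · simp [lcp, ha] at h2; linarith

theorem no_common (x : X)
    (h1 : 1 ≤ (dist (mk o) x + dist (mk o) (ta x) - dist x (ta x)) / 2)
    (h2 : 1 ≤ (dist (mk o) x + dist (mk o) ((al * ta * al⁻¹) x) -
      dist x ((al * ta * al⁻¹) x)) / 2) : False := by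
  obtain ⟨p, rfl⟩ := mk_surj x
  rw [ta_mk, gp_eq] at h1
  have e : mk p = al (mk (pA (-1) p)) := by rw [al_mk, pA_pA]; simp [pA_zero]
  have e2 : (al * ta * al⁻¹) (mk p) = al (mk (pT true (pA (-1) p))) := rfl
  rw [e2, e, ← al_o, al.dist_eq, al.dist_eq, al.dist_eq, gp_eq] at h2
  obtain ⟨f, u, hu⟩ := head_zero _ h1
  obtain ⟨g, v, hv⟩ := head_zero _ h2
  simp only [pA, hu, A] at hv
  cases f <;> simp [md] at hv

theorem four (w x y z : X) :
    dist x z + dist w y ≤ max (dist x y + dist w z) (dist y z + dist w x) := by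
  obtain ⟨w, rfl⟩ := mk_surj w
  obtain ⟨x, rfl⟩ := mk_surj x
  obtain ⟨y, rfl⟩ := mk_surj y
  obtain ⟨z, rfl⟩ := mk_surj z
  simp only [dist_mk, dist_def]
  by_contra h
  rw [not_le, max_lt_iff] at h
  obtain ⟨h1, h2⟩ := h
  have a1 := mt_ultra x y z
  have a2 := mt_ultra x w z
  have a3 := mt_ultra w x y
  have a4 := mt_ultra w z y
  rw [mt_comm x w] at a2
  rw [mt_comm z y] at a4
  rcases a1 with a1 | a1 <;> rcases a2 with a2 | a2 <;> rcases a3 with a3 | a3 <;>
    rcases a4 with a4 | a4 <;> linarith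

theorem geod (x y : X) : ∃ γ : Set.Icc (0 : ℝ) (dist x y) → X, Isometry γ ∧
    γ ⟨0, le_rfl, dist_nonneg⟩ = x ∧ γ ⟨dist x y, dist_nonneg, le_rfl⟩ = y := by
  obtain ⟨p, rfl⟩ := mk_surj x
  obtain ⟨q, rfl⟩ := mk_surj y
  have hd : dist (mk p) (mk q) = p.s + q.s - 2 * mt p q := dist_mk p q
  obtain ⟨m1, m2, m3, m4⟩ := mt_le p q
  have m5 : mt p q = p.s ∨ mt p q = q.s ∨ mt p q = lcp p.w q.w := by
    simp only [mt, min_def]; split_ifs <;> simp
  have p1 := p.h1
  have q1 := q.h1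
  let γ : Set.Icc (0 : ℝ) (dist (mk p) (mk q)) → P := fun r =>
    if h : r.1 ≤ p.s - mt p q then ⟨p.w, p.s - r.1, p.red, by linarith, by linarith [r.2.1]⟩
    else ⟨q.w, r.1 - p.s + 2 * mt p q, q.red, by linarith, by linarith [r.2.2]⟩
  refine ⟨fun r => mk (γ r), Isometry.of_dist_eq fun r r' => ?_, mk_eq ?_, mk_eq ?_⟩
  · have r1 := r.2.1
    have r2 := r.2.2
    have r3 := r'.2.1
    have r4 := r'.2.2
    rw [dist_mk, Subtype.dist_eq, Real.dist_eq, dist_def]
    generalize mt p q = m at *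
    simp only [γ]
    split_ifs <;> simp only [mt, lcp_self, lcp_comm q.w p.w] <;>
      rcases abs_cases (r.1 - r'.1) with ⟨h, _⟩ | ⟨h, _⟩ <;> rw [h] <;>
      simp only [min_def] <;> split_ifs <;> rcases m5 with m5 | m5 | m5 <;> linarith
  · have : γ ⟨0, le_rfl, dist_nonneg⟩ = p := by
      simp only [γ]
      rw [dif_pos (by linarith)]
      exact P.ext rfl (by simp)
    rw [this, dist_self]
  · simp only [γ]
    split_ifs with h
    · change (p.s - dist (mk p) (mk q)) + q.s -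
        2 * min (min (p.s - dist (mk p) (mk q)) q.s) (lcp p.w q.w) = 0
      simp only [min_def]
      split_ifs <;> linarith
    · have : (⟨q.w, dist (mk p) (mk q) - p.s + 2 * mt p q, q.red, by linarith, by linarith⟩ : P)
          = q := P.ext rfl (by simp only [hd]; ring)
      rw [this, dist_self]

theorem fig {G : Type} [Group G] (a t : G) (hgen : Subgroup.closure {a, t} = ⊤)
    (hrel : t * a ^ 2 * t⁻¹ = a ^ 3) (H : Subgroup G) (x y : G) (hx : x * a * x⁻¹ ∈ H)
    (hy : y * t * y⁻¹ ∈ H) : H = ⊤ := by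
  have com : ∀ z : G, ∃ i j k l : ℕ, z * a ^ (2 ^ i * 3 ^ j) * z⁻¹ = a ^ (2 ^ k * 3 ^ l) := by
    intro z
    have hz : z ∈ Subgroup.closure {a, t} := hgen ▸ Subgroup.mem_top z
    induction hz using Subgroup.closure_induction with
    | mem g hg =>
      rcases hg with rfl | rfl
      · exact ⟨0, 0, 0, 0, by simp⟩
      · exact ⟨1, 0, 0, 1, by simpa using hrel⟩
    | one => exact ⟨0, 0, 0, 0, by simp⟩
    | mul g h _ _ hg hh =>
      obtain ⟨i, j, k, l, hg⟩ := hg
      obtain ⟨i', j', k', l', hh⟩ := hh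
      refine ⟨i' + i, j' + j, k + k', l + l', ?_⟩
      have e1 : 2 ^ (i' + i) * 3 ^ (j' + j) = (2 ^ i' * 3 ^ j') * (2 ^ i * 3 ^ j) := by ring
      have e2 : 2 ^ (k + k') * 3 ^ (l + l') = (2 ^ k * 3 ^ l) * (2 ^ k' * 3 ^ l') := by ring
      rw [e1, e2]
      generalize 2 ^ i * 3 ^ j = M at *
      generalize 2 ^ k * 3 ^ l = N at *
      generalize 2 ^ i' * 3 ^ j' = M' at *
      generalize 2 ^ k' * 3 ^ l' = N' at *
      calc g * h * a ^ (M' * M) * (g * h)⁻¹ = g * (h * a ^ M' * h⁻¹) ^ M * g⁻¹ := by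
            rw [conj_pow, pow_mul]; group
        _ = (g * a ^ M * g⁻¹) ^ N' := by rw [hh, conj_pow, ← pow_mul, ← pow_mul, mul_comm N']
        _ = a ^ (N * N') := by rw [hg, pow_mul]
    | inv g _ hg =>
      obtain ⟨i, j, k, l, hg⟩ := hg
      exact ⟨k, l, i, j, by rw [← hg]; group⟩
  let K : Subgroup G := H.comap (MulAut.conj y).toMonoidHom
  have ht : t ∈ K := hy
  obtain ⟨i, j, k, l, hz⟩ := com (y⁻¹ * x)
  have h0 : a ^ (2 ^ k * 3 ^ l) ∈ K := by
    rw [← hz, ← conj_pow]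
    refine K.pow_mem ?_ _
    change y * (y⁻¹ * x * a * (y⁻¹ * x)⁻¹) * y⁻¹ ∈ H
    have : y * (y⁻¹ * x * a * (y⁻¹ * x)⁻¹) * y⁻¹ = x * a * x⁻¹ := by group
    rwa [this]
  have s1 : ∀ N, a ^ (2 * N) ∈ K ↔ a ^ (3 * N) ∈ K := by
    intro N
    rw [pow_mul, pow_mul, ← hrel, conj_pow, K.mul_mem_cancel_right (K.inv_mem ht),
      K.mul_mem_cancel_left ht]
  have u3 : ∀ k l, a ^ (2 ^ k * 3 ^ l) ∈ K → a ^ 3 ^ (k + l) ∈ K := by
    intro k
    induction k with
    | zero => intro l h; simpa using h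
    | succ k ih =>
      intro l h
      rw [show 2 ^ (k + 1) * 3 ^ l = 2 * (2 ^ k * 3 ^ l) by ring, s1,
        show 3 * (2 ^ k * 3 ^ l) = 2 ^ k * 3 ^ (l + 1) by ring] at h
      rw [show k + 1 + l = k + (l + 1) by ring]
      exact ih _ h
  have u2 : ∀ l k, a ^ (2 ^ k * 3 ^ l) ∈ K → a ^ 2 ^ (k + l) ∈ K := by
    intro l
    induction l with
    | zero => intro k h; simpa using h
    | succ l ih =>
      intro k h
      rw [show 2 ^ k * 3 ^ (l + 1) = 3 * (2 ^ k * 3 ^ l) by ring, ← s1,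
        show 2 * (2 ^ k * 3 ^ l) = 2 ^ (k + 1) * 3 ^ l by ring] at h
      rw [show k + (l + 1) = k + 1 + l by ring]
      exact ih _ h
  have ha : a ∈ K := by
    have hc : Nat.Coprime (2 ^ (k + l)) (3 ^ (k + l)) := Nat.Coprime.pow _ _ (by norm_num)
    have hb := Nat.gcd_eq_gcd_ab (2 ^ (k + l)) (3 ^ (k + l))
    rw [hc.gcd_eq_one] at hb
    have h1 := K.mul_mem (K.zpow_mem (u2 l k h0) (Nat.gcdA (2 ^ (k + l)) (3 ^ (k + l))))
      (K.zpow_mem (u3 k l h0) (Nat.gcdB (2 ^ (k + l)) (3 ^ (k + l))))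
    rwa [← zpow_natCast, ← zpow_natCast, ← zpow_mul, ← zpow_mul, ← zpow_add, ← hb, Nat.cast_one,
      zpow_one] at h1
  have hK : K = ⊤ := by
    rw [eq_top_iff, ← hgen, Subgroup.closure_le]
    rintro g (rfl | rfl)
    · exact ha
    · exact ht
  rw [eq_top_iff]
  intro g _
  have : y⁻¹ * g * y ∈ K := hK ▸ Subgroup.mem_top _
  have h2 : y * (y⁻¹ * g * y) * y⁻¹ ∈ H := this
  have h3 : y * (y⁻¹ * g * y) * y⁻¹ = g := by group
  rwa [h3] at h2

end Pool.Agent.H10.BS
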