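import Pool.Agent.H10.Bing

namespace Pool.Agent.H10.Ball
open Set Filter Topology ENNReal

variable {ι ι' ι'' K : Type}

noncomputable def N (x : ι → ℝ) : ℝ≥0∞ := ∑' i, ‖x i‖ₑ

def S (J : ι → ℝ × ℝ) : Set (ι → ℝ) := {x | (∀ i, (J i).1 ≤ x i ∧ x i ≤ (J i).2) ∧ N x ≤ 1}

theorem closed_N (r : ℝ≥0∞) : IsClosed {x : ι → ℝ | N x ≤ r} := by
  simp only [N, ENNReal.tsum_eq_iSup_sum, iSup_le_iff, setOf_forall]
  exact isClosed_iInter fun F => isClosed_le (by fun_prop) continuous_const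

instance (J : ι → ℝ × ℝ) : CompactSpace (S J) := by
  refine isCompact_iff_compactSpace.1 ?_
  convert (isCompact_univ_pi fun i => isCompact_Icc (a := (J i).1) (b := (J i).2)).inter_right
    (closed_N 1) using 1
  ext x; simp [S, Pi.le_def, forall_and]

def Iso (R : (ι → ℝ) → (ι' → ℝ) → Prop) (J : ι → ℝ × ℝ) (J' : ι' → ℝ × ℝ) : Prop :=
  ∃ e : S J ≃ₜ S J', ∀ x, N (e x).1 = N x.1 ∧ R x.1 (e x).1

abbrev Eqv (J : ι → ℝ × ℝ) (J' : ι' → ℝ × ℝ) : Prop := Iso (fun _ _ => True) J J'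

variable {J : ι → ℝ × ℝ} {J' : ι' → ℝ × ℝ} {J'' : ι'' → ℝ × ℝ} {R : (ι → ℝ) → (ι' → ℝ) → Prop}

theorem Iso.mono {R' : (ι → ℝ) → (ι' → ℝ) → Prop} (h : Iso R J J') (h' : ∀ x y, R x y → R' x y) :
    Iso R' J J' := h.imp fun _ he x => ⟨(he x).1, h' _ _ (he x).2⟩

theorem Iso.eqv (h : Iso R J J') : Eqv J J' := h.mono fun _ _ _ => trivial

theorem Iso.trans {R' : (ι' → ℝ) → (ι'' → ℝ) → Prop} (h : Iso R J J') (h' : Iso R' J' J'') :
    Iso (fun x z => ∃ y, R x y ∧ R' y z) J J'' := by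
  obtain ⟨e, he⟩ := h
  obtain ⟨e', he'⟩ := h'
  exact ⟨e.trans e', fun x => ⟨(he' _).1.trans (he x).1, _, (he x).2, (he' _).2⟩⟩

theorem Iso.tr {R' : (ι' → ℝ) → (ι'' → ℝ) → Prop} (h : Iso R J J') (h' : Iso R' J' J'') :
    Eqv J J'' := (h.trans h').eqv

theorem Iso.symm (h : Iso R J J') : Iso (fun y x => R x y) J' J := by
  obtain ⟨e, he⟩ := h
  refine ⟨e.symm, fun y => ?_⟩
  have := he (e.symm y)
  rw [e.apply_symm_apply] at this
  exact ⟨this.1.symm, this.2⟩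

theorem of_bij (f : (ι → ℝ) → ι' → ℝ) (hc : ContinuousOn f (S J)) (hb : BijOn f (S J) (S J'))
    (h : ∀ x ∈ S J, N (f x) = N x ∧ R x (f x)) : Iso R J J' :=
  ⟨Continuous.homeoOfEquivCompactToT2 (f := hb.equiv f) (hc.restrict.subtype_mk _),
    fun x => h x.1 x.2⟩

theorem reidx (e : ι ≃ ι') (h : ∀ i, J' (e i) = J i) : Iso (fun x y => ∀ i, y (e i) = x i) J J' := by
  have h1 : ∀ x : ι → ℝ, N (fun i => x (e.symm i)) = N x := fun x =>
    e.symm.tsum_eq fun i => ‖x i‖ₑ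
  refine of_bij (fun x i => x (e.symm i)) (Continuous.continuousOn (by fun_prop))
    ⟨fun x hx => ⟨fun i => ?_, (h1 x).trans_le hx.2⟩, fun x _ y _ hxy => funext fun i => ?_,
      fun y hy => ⟨fun i => y (e i), ⟨fun i => h i ▸ hy.1 _, ?_⟩, by simp⟩⟩
    fun x _ => ⟨h1 x, by simp⟩
  · have := hx.1 (e.symm i)
    rwa [← h, e.apply_symm_apply] at this
  · simpa using congrFun hxy (e i)
  · exact (e.tsum_eq fun i => ‖y i‖ₑ).trans_le hy.2

theorem Iso.rfl' (h : J = J) : Iso (fun x y => y = x) J J :=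
  (reidx (Equiv.refl ι) fun _ => rfl).mono fun _ _ h => funext h

section
variable {α α' : K → Type}

theorem N_sig (x : (Σ k, α k) → ℝ) : N x = ∑' k, N fun a => x ⟨k, a⟩ := ENNReal.tsum_sigma' _

def blk {J : (Σ k, α k) → ℝ × ℝ} (x : S J) (k : K) : S fun a => J ⟨k, a⟩ :=
  ⟨fun a => x.1 ⟨k, a⟩, fun _ => x.2.1 _,
    (ENNReal.le_tsum (f := fun k => N fun a => x.1 ⟨k, a⟩) k).trans (N_sig x.1 ▸ x.2.2)⟩

def glue {J : (Σ k, α k) → ℝ × ℝ} {J' : (Σ k, α' k) → ℝ × ℝ}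
    (e : ∀ k, (S fun a => J ⟨k, a⟩) ≃ₜ S fun a => J' ⟨k, a⟩) (he : ∀ k x, N (e k x).1 = N x.1)
    (x : S J) : S J' :=
  ⟨fun p => (e p.1 (blk x p.1)).1 p.2, fun p => (e p.1 (blk x p.1)).2.1 p.2, by
    rw [N_sig]
    exact (tsum_congr fun k => he k (blk x k)).trans_le (N_sig x.1 ▸ x.2.2)⟩

theorem glue_cont {J : (Σ k, α k) → ℝ × ℝ} {J' : (Σ k, α' k) → ℝ × ℝ}
    (e : ∀ k, (S fun a => J ⟨k, a⟩) ≃ₜ S fun a => J' ⟨k, a⟩) (he : ∀ k x, N (e k x).1 = N x.1) :
    Continuous (glue e he) := by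
  refine Continuous.subtype_mk (continuous_pi fun p => ?_) _
  have h : Continuous fun x : S J => blk x p.1 := by
    refine Continuous.subtype_mk (continuous_pi fun a => ?_) _
    exact (continuous_apply (⟨p.1, a⟩ : Σ k, α k)).comp (continuous_subtype_val (p := (· ∈ S J)))
  exact (continuous_apply p.2).comp (continuous_subtype_val.comp ((e p.1).continuous.comp h))

theorem sig0 {J : (Σ k, α k) → ℝ × ℝ} {J' : (Σ k, α' k) → ℝ × ℝ}
    {R : ∀ k, (α k → ℝ) → (α' k → ℝ) → Prop}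
    (h : ∀ k, Iso (R k) (fun a => J ⟨k, a⟩) fun a => J' ⟨k, a⟩) :
    Iso (fun x y => ∀ k, R k (fun a => x ⟨k, a⟩) fun a => y ⟨k, a⟩) J J' := by
  choose e he using h
  have h1 : ∀ k x, N (e k x).1 = N x.1 := fun k x => (he k x).1
  have h2 : ∀ k y, N ((e k).symm y).1 = N y.1 := fun k y => by
    rw [← h1, (e k).apply_symm_apply]
  refine ⟨⟨⟨glue e h1, glue (fun k => (e k).symm) h2, fun x => Subtype.ext (funext fun p => ?_),
    fun x => Subtype.ext (funext fun p => ?_)⟩, glue_cont e h1, glue_cont (fun k => (e k).symm) h2⟩, fun x =>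
    ⟨?_, fun k => (he k (blk x k)).2⟩⟩
  · exact congrArg (fun z => z.1 p.2) ((e p.1).symm_apply_apply (blk x p.1))
  · exact congrArg (fun z => z.1 p.2) ((e p.1).apply_symm_apply (blk x p.1))
  · rw [N_sig, N_sig]
    exact tsum_congr fun k => h1 k (blk x k)

theorem sig (e : (Σ k, α k) ≃ ι) (e' : (Σ k, α' k) ≃ ι') {R : ∀ k, (α k → ℝ) → (α' k → ℝ) → Prop}
    (h : ∀ k, Iso (R k) (fun a => J (e ⟨k, a⟩)) fun a => J' (e' ⟨k, a⟩)) :
    Iso (fun x y => ∀ k, R k (fun a => x (e ⟨k, a⟩)) fun a => y (e' ⟨k, a⟩)) J J' := by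
  refine (((reidx e fun _ => rfl).symm.trans (sig0 (J := fun p => J (e p))
    (J' := fun p => J' (e' p)) h)).trans (reidx e' fun _ => rfl)).mono ?_
  rintro x y ⟨y', ⟨x', h1, h2⟩, h3⟩ k
  simpa only [h1, h3] using h2 k

end

theorem prod {J J' : K × Bool → ℝ × ℝ} {R : K → (Bool → ℝ) → (Bool → ℝ) → Prop}
    (h : ∀ k, Iso (R k) (fun a => J (k, a)) fun a => J' (k, a)) :
    Iso (fun x y => ∀ k, R k (fun a => x (k, a)) fun a => y (k, a)) J J' :=
  sig (Equiv.sigmaEquivProd K Bool) (Equiv.sigmaEquivProd K Bool) h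

theorem sum {J : K ⊕ ι → ℝ × ℝ} {J' : K ⊕ ι' → ℝ × ℝ} (h0 : ∀ a, J' (.inl a) = J (.inl a))
    (h : Eqv (fun a => J (.inr a)) fun a => J' (.inr a)) :
    Iso (fun x y => ∀ a, y (.inl a) = x (.inl a)) J J' := by
  refine (sig (Equiv.sumEquivSigmaBool K ι).symm (Equiv.sumEquivSigmaBool K ι').symm
    (R := fun b => match b with
      | false => fun x y => ∀ a, y a = x a
      | true => fun _ _ => True) fun b => ?_).mono fun x y h => h false
  cases b
  · exact reidx (Equiv.refl K) h0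
  · exact h

/-- level sets in dimension two -/
def lev (J : Bool → ℝ × ℝ) (r : ℝ) : Set ℝ :=
  {h | (J true).1 ≤ h ∧ h ≤ (J true).2 ∧ |h| ≤ r ∧ r - |h| ≤ (J false).2}

theorem N_two (x : Bool → ℝ) : N x = ENNReal.ofReal (|x true| + |x false|) := by
  rw [N, tsum_fintype, Fintype.sum_bool, ENNReal.ofReal_add (abs_nonneg _) (abs_nonneg _)]
  simp [Real.enorm_eq_ofReal_abs]

theorem mem_two {J : Bool → ℝ × ℝ} (h0 : (J false).1 = 0) {x : Bool → ℝ} : x ∈ S J ↔
    (|x true| + x false) ∈ Icc (0 : ℝ) 1 ∧ x true ∈ lev J (|x true| + x false) := by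
  simp only [S, lev, N_two, mem_ofPred_eq, Bool.forall_bool, h0, ENNReal.ofReal_le_one, mem_Icc]
  constructor
  · rintro ⟨⟨⟨a, b⟩, c, d⟩, e⟩
    rw [abs_of_nonneg a] at e
    exact ⟨⟨by positivity, e⟩, c, d, by linarith, by linarith⟩
  · rintro ⟨⟨a, b⟩, c, d, e, f⟩
    exact ⟨⟨⟨by linarith, by linarith⟩, c, d⟩, by rwa [abs_of_nonneg (by linarith : 0 ≤ x false)]⟩

theorem two {J J' : Bool → ℝ × ℝ} (h0 : (J false).1 = 0) (h0' : (J' false).1 = 0) (T : ℝ × ℝ → ℝ)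
    (hb : ∀ r ∈ Icc (0 : ℝ) 1, BijOn (fun h => T (r, h)) (lev J r) (lev J' r))
    (hc : ContinuousOn T {p | p.1 ∈ Icc (0 : ℝ) 1 ∧ p.2 ∈ lev J p.1}) :
    Iso (fun x y => ∃ r ∈ Icc (0 : ℝ) 1, x true ∈ lev J r ∧ y true = T (r, x true)) J J' := by
  let f : (Bool → ℝ) → Bool → ℝ := fun x b => cond b (T (|x true| + x false, x true))
    (|x true| + x false - |T (|x true| + x false, x true)|)
  have e1 : ∀ x, |f x true| + f x false = |x true| + x false := fun x => by simp [f]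
  have hm : MapsTo f (S J) (S J') := fun x hx => by
    rw [mem_two h0] at hx
    rw [mem_two h0', e1]
    exact ⟨hx.1, (hb _ hx.1).mapsTo hx.2⟩
  have c1 : ContinuousOn (fun x : Bool → ℝ => T (|x true| + x false, x true)) (S J) :=
    hc.comp (Continuous.continuousOn (by fun_prop)) fun x hx => (mem_two h0).1 hx
  refine of_bij f (continuousOn_pi.2 fun b => ?_) ⟨hm, fun x hx y hy hxy => ?_, fun y hy => ?_⟩
    fun x hx => ⟨?_, _, ((mem_two h0).1 hx).1, ((mem_two h0).1 hx).2, rfl⟩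
  · cases b
    · exact (Continuous.continuousOn (by fun_prop)).sub c1.abs
    · exact c1
  · rw [mem_two h0] at hx hy
    have a1 := (e1 x).symm.trans (hxy ▸ e1 y)
    have a2 : x true = y true := (hb _ hx.1).injOn hx.2 (a1 ▸ hy.2) (by
      have := congrFun hxy true
      simp only [f, cond_true] at this
      rwa [← a1] at this)
    funext b
    cases b
    · rw [a2] at a1; linarith
    · exact a2
  · rw [mem_two h0'] at hy
    obtain ⟨h, h1, h2⟩ := (hb _ hy.1).surjOn hy.2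
    refine ⟨fun b => cond b h (|y true| + y false - |h|), (mem_two h0).2 ?_, funext fun b => ?_⟩
    · simpa using And.intro hy.1 h1
    · cases b <;> simp [f, h2]
  · have a1 := (hx.1 false).1
    have a2 := ((hm hx).1 false).1
    rw [h0] at a1
    rw [h0'] at a2
    rw [N_two, N_two, abs_of_nonneg a1, abs_of_nonneg a2, e1]

theorem arc {J J' : Bool → ℝ × ℝ} (h0 : (J false).1 = 0) (h0' : (J' false).1 = 0)
    {lo hi lo' hi' M : ℝ → ℝ} (c1 : Continuous lo) (c2 : Continuous hi) (c3 : Continuous lo')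
    (c4 : Continuous hi') (c5 : Continuous M) (hM : Monotone M) {δ : ℝ} (d0 : 0 < δ) (d1 : δ ≤ 1)
    (l : ∀ r ∈ Icc (0 : ℝ) 1, lev J r = Icc (lo r) (hi r) ∧ lev J' r = Icc (lo' r) (hi' r) ∧
      (lo r < hi r ↔ lo' r < hi' r) ∧ (lo r ≤ hi r ↔ lo' r ≤ hi' r) ∧
      (1 - δ) * M (lo r) = (1 - δ) * lo' r ∧ (1 - δ) * M (hi r) = (1 - δ) * hi' r) :
    Iso (fun x y => ∃ t, (J' true).1 ≤ t ∧ t ≤ (J' true).2 ∧
      y true = (1 - δ) * M (x true) + δ * t) J J' := by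
  let A : ℝ × ℝ → ℝ := fun p => lo' p.1 + (p.2 - lo p.1) / (hi p.1 - lo p.1) * (hi' p.1 - lo' p.1)
  have hA : ∀ r ∈ Icc (0 : ℝ) 1, ∀ h ∈ lev J r, lo' r ≤ A (r, h) ∧ A (r, h) ≤ hi' r := by
    intro r hr h hh
    obtain ⟨l1, -, -, l4, -⟩ := l r hr
    rw [l1] at hh
    have a1 := sub_nonneg.2 (l4.1 (hh.1.trans hh.2))
    have a2 : 0 ≤ (h - lo r) / (hi r - lo r) :=
      div_nonneg (by linarith [hh.1]) (by linarith [hh.1, hh.2])
    have a3 : (h - lo r) / (hi r - lo r) ≤ 1 :=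
      div_le_one_of_le₀ (by linarith [hh.2]) (by linarith [hh.1, hh.2])
    simp only [A]
    constructor <;> nlinarith
  have cA : ContinuousOn A {p | p.1 ∈ Icc (0 : ℝ) 1 ∧ p.2 ∈ lev J p.1} := by
    intro p hp
    obtain ⟨l1, -, l3, l4, -⟩ := l _ hp.1
    have hh := hp.2
    rw [l1] at hh
    rcases (hh.1.trans hh.2).lt_or_eq with h | h
    · have : hi p.1 - lo p.1 ≠ 0 := by linarith
      exact ContinuousAt.continuousWithinAt (by fun_prop (disch := assumption))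
    · have e : lo' p.1 = hi' p.1 := (l4.1 h.le).antisymm (not_lt.1 fun h' => (l3.2 h').ne h)
      have e1 : A p = lo' p.1 := by simp [A, e]
      refine tendsto_of_tendsto_of_tendsto_of_le_of_le' (g := fun q => lo' q.1)
        (h := fun q => hi' q.1) ?_ ?_ (eventually_nhdsWithin_of_forall fun q hq =>
          (hA _ hq.1 _ hq.2).1) (eventually_nhdsWithin_of_forall fun q hq => (hA _ hq.1 _ hq.2).2)
      · rw [e1]; exact (c3.comp continuous_fst).continuousWithinAt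
      · rw [e1, e]; exact (c4.comp continuous_fst).continuousWithinAt
  refine (two h0 h0' (fun p => (1 - δ) * M p.2 + δ * A p) (fun r hr => ?_)
    ((Continuous.continuousOn (by fun_prop)).add (continuousOn_const.mul cA))).mono ?_
  · obtain ⟨l1, l2, l3, l4, l5, l6⟩ := l r hr
    rw [l1, l2]
    by_cases h : lo r ≤ hi r
    swap
    · rw [Icc_eq_empty h, Icc_eq_empty (mt l4.2 h)]; exact bijOn_empty _
    have m : StrictMonoOn (fun h => (1 - δ) * M h + δ * A (r, h)) (Icc (lo r) (hi r)) := by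
      intro u hu v hv huv
      have a1 : lo r < hi r := by linarith [hu.1, hv.2]
      have a2 := sub_pos.2 (l3.1 a1)
      have a3 : (u - lo r) / (hi r - lo r) < (v - lo r) / (hi r - lo r) :=
        div_lt_div_of_pos_right (by linarith) (by linarith)
      have a4 := mul_le_mul_of_nonneg_left (hM huv.le) (sub_nonneg.2 d1)
      have a5 := mul_lt_mul_of_pos_left (mul_lt_mul_of_pos_right a3 a2) d0
      simp only [A]; linarith
    have e1 : (1 - δ) * M (lo r) + δ * A (r, lo r) = lo' r := by simp only [A, l5]; simp; ring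
    have e2 : (1 - δ) * M (hi r) + δ * A (r, hi r) = hi' r := by
      simp only [A, l6]
      rcases h.lt_or_eq with h | h
      · rw [div_self (by linarith)]; ring
      · rw [(l4.1 h.le).antisymm (not_lt.1 fun h' => (l3.2 h').ne h)]; ring
    refine ⟨fun u hu => ⟨e1 ▸ m.monotoneOn (left_mem_Icc.2 h) hu hu.1,
      e2 ▸ m.monotoneOn hu (right_mem_Icc.2 h) hu.2⟩, m.injOn, ?_⟩
    have := intermediate_value_Icc h (f := fun h => (1 - δ) * M h + δ * A (r, h))
      (Continuous.continuousOn (by simp only [A]; fun_prop))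
    rwa [e1, e2] at this
  · rintro x y ⟨r, hr, h1, h2⟩
    have := hA r hr _ h1
    rw [← mem_Icc, ← (l r hr).2.1] at this
    exact ⟨_, this.1, this.2.1, h2⟩

end Pool.Agent.H10.Ball
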