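import Pool.Agent.H10.Ball1

namespace Pool.Agent.H10.Ball
open Set Filter Topology ENNReal Uniformity

variable {ι ι' K : Type} {J : ι → ℝ × ℝ} {J' : ι' → ℝ × ℝ}

theorem long {J J' : Bool → ℝ × ℝ} {c d δ : ℝ} (h0 : J false = (0, d)) (h0' : J' false = (0, 1))
    (h1 : J' true = (0, c)) (hd : 1 ≤ d) (ha : (J true).1 ≤ 0) (hb : 0 < (J true).2) (hc : 0 < c)
    (d0 : 0 < δ) (d1 : δ ≤ 1) (h : δ = 1 ∨ c ≤ (J true).2) :
    Iso (fun x y => |y true - max 0 (min (x true) c)| ≤ δ * c) J J' := by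
  refine (arc (by rw [h0]) (by rw [h0']) (lo := fun r => max (J true).1 (-r))
    (hi := fun r => min (J true).2 r) (lo' := fun _ => 0) (hi' := fun r => min c r)
    (M := fun h => max 0 (min h c)) (by fun_prop) (by fun_prop) (by fun_prop) (by fun_prop)
    (by fun_prop) (fun u v h => max_le_max le_rfl (min_le_min h le_rfl)) d0 d1 ?_).mono ?_
  · rintro r ⟨r0, r1⟩
    refine ⟨?_, ?_, ?_, ?_, ?_, ?_⟩
    · ext h
      simp only [lev, h0, mem_ofPred_eq, mem_Icc, max_le_iff, le_min_iff, abs_le]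
      exact ⟨fun ⟨a, b, ⟨c, d⟩, _⟩ => ⟨⟨a, c⟩, b, d⟩,
        fun ⟨⟨a, c⟩, b, d⟩ => ⟨a, b, ⟨c, d⟩, by linarith [abs_nonneg h]⟩⟩
    · ext h
      simp only [lev, h0', h1, mem_ofPred_eq, mem_Icc, le_min_iff, abs_le]
      exact ⟨fun ⟨a, b, ⟨c, d⟩, _⟩ => ⟨a, b, d⟩,
        fun ⟨a, b, d⟩ => ⟨a, b, ⟨by linarith, d⟩, by linarith [abs_nonneg h]⟩⟩
    · simp only [max_lt_iff, lt_min_iff]
      exact ⟨fun h => ⟨hc, by linarith [h.2.2]⟩, fun h =>
        ⟨⟨by linarith, by linarith [h.2]⟩, by linarith [h.2], by linarith [h.2]⟩⟩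
    · simp only [max_le_iff, le_min_iff]
      exact ⟨fun _ => ⟨hc.le, r0⟩, fun _ => ⟨⟨by linarith, by linarith⟩, by linarith, by linarith⟩⟩
    · rw [max_eq_left ((min_le_left _ _).trans (max_le ha (by linarith)))]
    · rcases h with rfl | h
      · simp
      · rw [max_eq_right (le_min (le_min hb.le r0) hc.le), min_right_comm, min_eq_right h]
  · rintro x y ⟨t, t0, t1, e⟩
    rw [h1] at t0 t1
    have a1 : 0 ≤ max 0 (min (x true) c) := le_max_left _ _
    have a2 : max 0 (min (x true) c) ≤ c := max_le hc.le (min_le_right _ _)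
    rw [e, abs_le]
    constructor <;> nlinarith

theorem merge {J J' : Bool → ℝ × ℝ} {c : ℝ} (hc : 0 < c) (h0 : J false = (0, c))
    (h1 : J true = (0, c)) (h0' : J' false = (0, c / 2)) (h1' : J' true = (0, 3 * c / 2)) :
    Eqv J J' := by
  have l : ∀ (J : Bool → ℝ × ℝ) (b d r : ℝ), J false = (0, d) → J true = (0, b) →
      lev J r = Icc (max 0 (r - d)) (min b r) := fun J b d r h0 h1 => by
    ext h
    simp only [lev, h0, h1, mem_ofPred_eq, mem_Icc, max_le_iff, le_min_iff]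
    exact ⟨fun ⟨a, b, c, d⟩ => by rw [abs_of_nonneg a] at c d; exact ⟨⟨a, by linarith⟩, b, c⟩,
      fun ⟨⟨a, c⟩, b, d⟩ => by rw [abs_of_nonneg a]; exact ⟨a, b, d, by linarith⟩⟩
  refine (arc (by rw [h0]) (by rw [h0']) (lo := fun r => max 0 (r - c))
    (hi := fun r => min c r) (lo' := fun r => max 0 (r - c / 2)) (hi' := fun r => min (3 * c / 2) r)
    (M := id) (by fun_prop) (by fun_prop) (by fun_prop) (by fun_prop)
    (by fun_prop) monotone_id one_pos le_rfl fun r _ =>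
      ⟨l _ _ _ _ h0 h1, l _ _ _ _ h0' h1', ?_, ?_, by simp, by simp⟩).eqv
  · simp only [max_lt_iff, lt_min_iff]
    constructor <;> rintro ⟨⟨a, b⟩, c, d⟩ <;> exact ⟨⟨by linarith, by linarith⟩, by linarith, by linarith⟩
  · simp only [max_le_iff, le_min_iff]
    constructor <;> rintro ⟨⟨a, b⟩, c, d⟩ <;> exact ⟨⟨by linarith, by linarith⟩, by linarith, by linarith⟩

theorem split [Countable ι] {T : Set ι} (hT : T.Infinite) :
    ∃ e : ℕ × Bool ≃ ι, (∀ n, e (n, false) ∈ T) ∧ {n | e (n, true) ∈ T}.Infinite := by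
  let s : ℕ → ι := fun n => hT.natEmbedding T n
  have hs : Function.Injective s := Subtype.val_injective.comp (hT.natEmbedding T).injective
  let C : Set ι := (range fun n => s (2 * n))ᶜ
  have h1 : ∀ n, s (2 * n + 1) ∈ C := fun n ⟨m, hm⟩ => by have := hs hm; omega
  let u : ℕ → C := fun n => ⟨_, h1 n⟩
  have hu : Function.Injective u := fun m n h => by
    have : 2 * m + 1 = 2 * n + 1 := hs (congrArg (Subtype.val : C → ι) h)
    omega
  haveI := Infinite.of_injective u hu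
  obtain ⟨e⟩ : Nonempty (ℕ ≃ C) := inferInstance
  refine ⟨Equiv.ofBijective (fun p => cond p.2 (e p.1).1 (s (2 * p.1))) ⟨?_, fun i => ?_⟩,
    fun n => (hT.natEmbedding T _).2, infinite_of_injective_forall_mem
      (e.symm.injective.comp hu) fun n => ?_⟩
  · rintro ⟨m, _ | _⟩ ⟨n, _ | _⟩ h
    · have := hs h; congr 1; omega
    · exact ((e n).2 ⟨m, h⟩).elim
    · exact ((e m).2 ⟨n, h.symm⟩).elim
    · exact Prod.ext (e.injective (Subtype.ext h)) rfl
  · by_cases h : i ∈ C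
    · exact ⟨(e.symm ⟨i, h⟩, true), by simp⟩
    · obtain ⟨n, hn⟩ := not_not.1 h
      exact ⟨(n, false), hn⟩
  · simpa using (show (u n).1 ∈ T from (hT.natEmbedding T _).2)

def Nm (J : ι → ℝ × ℝ) : Prop := ∀ i, (J i).1 ≤ 0 ∧ 0 < (J i).2

abbrev Om (ι : Type) : ι → ℝ × ℝ := fun _ => (0, 1)

theorem good0 (k : ℕ) : ∀ (ι : Type) [Countable ι] (J : ι → ℝ × ℝ) (c : ℝ), Nm J →
    (2 / 3) ^ k ≤ c → {i | J i = (0, c)}.Infinite → Eqv J (Om (ℕ × Bool)) := by
  classical
  induction k with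
  | zero =>
    intro ι _ J c hJ hc hT
    obtain ⟨e, e1, -⟩ := split hT
    exact (reidx e fun _ => rfl).symm.tr (prod fun n => long (e1 n) rfl rfl (by simpa using hc)
      (hJ _).1 (hJ _).2 one_pos one_pos le_rfl (.inl rfl))
  | succ k ih =>
    intro ι _ J c hJ hc hT
    obtain ⟨e, e1, e2⟩ := split hT
    have c0 : 0 < c := lt_of_lt_of_le (by positivity) hc
    let J2 : ℕ × Bool → ℝ × ℝ := fun p =>
      if J (e (p.1, true)) = (0, c) then cond p.2 (0, 3 * c / 2) (0, c / 2) else J (e p)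
    refine ((reidx e fun _ => rfl).symm.tr (prod (J' := J2) (R := fun _ _ _ => True) fun n => ?_)).tr
      (ih _ J2 (3 * c / 2) (fun p => ?_) (by rw [pow_succ] at hc; linarith) ?_)
    · by_cases h : J (e (n, true)) = (0, c)
      · exact merge c0 (e1 n) h (if_pos h) (if_pos h)
      · exact (reidx (Equiv.refl Bool) fun b => if_neg h).eqv
    · simp only [J2]
      split_ifs
      · cases p.2 <;> exact ⟨le_rfl, by simp only [cond_true, cond_false]; positivity⟩
      · exact hJ _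
    · refine (e2.image (f := fun n => (n, true)) (fun _ _ _ _ h => congrArg Prod.fst h)).mono ?_
      rintro _ ⟨n, hn, rfl⟩
      exact if_pos hn

theorem good [Countable ι] (hJ : Nm J) {c : ℝ} (hc : 0 < c) (hT : {i | J i = (0, c)}.Infinite) :
    Eqv J (Om (ℕ × Bool)) := by
  obtain ⟨k, hk⟩ := exists_pow_lt_of_lt_one hc (by norm_num : (2 / 3 : ℝ) < 1)
  exact good0 k ι J c hJ hk.le hT

theorem ext [Countable ι] [Countable ι'] (hJ : Nm J) (hJ' : Nm J') {f : K → ι} {f' : K → ι'}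
    (hf : Function.Injective f) (hf' : Function.Injective f') (h : ∀ a, J' (f' a) = J (f a))
    {c c' : ℝ} (hc : 0 < c) (hc' : 0 < c') (hT : {i | i ∉ range f ∧ J i = (0, c)}.Infinite)
    (hT' : {i | i ∉ range f' ∧ J' i = (0, c')}.Infinite) :
    Iso (fun x y => ∀ a, y (f' a) = x (f a)) J J' := by
  classical
  let e := ((Equiv.ofInjective f hf).sumCongr (Equiv.refl _)).trans (Equiv.Set.sumCompl (range f))
  let e' := ((Equiv.ofInjective f' hf').sumCongr (Equiv.refl _)).trans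
    (Equiv.Set.sumCompl (range f'))
  refine (((reidx e fun _ => rfl).symm.trans (sum (J := fun p => J (e p)) (J' := fun p => J' (e' p))
    h ?_)).trans (reidx e' fun _ => rfl)).mono ?_
  · exact (good (fun _ => hJ _) hc ((hT.preimage (f := Subtype.val) fun i hi =>
      ⟨⟨i, hi.1⟩, rfl⟩).mono fun _ h => h.2)).tr (good (fun _ => hJ' _) hc'
        ((hT'.preimage (f := Subtype.val) fun i hi => ⟨⟨i, hi.1⟩, rfl⟩).mono fun _ h => h.2)).symm
  · rintro x y ⟨y', ⟨x', h1, h2⟩, h3⟩ a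
    exact (h3 (.inl a)).trans ((h2 a).trans (h1 (.inl a)).symm)

theorem shrink [Countable ι] (hJ : Nm J) {c δ : ℝ} (hc : 0 < c) (d0 : 0 < δ) (d1 : δ ≤ 1)
    (F : Set ι) {G : Set ℕ} (hG : G.Finite) {h : ℕ → ι} (hh : Function.Injective h)
    (h1 : ∀ n, h n ∉ F) (h2 : ∀ n, c ≤ (J (h n)).2) :
    Iso (fun x y => (∀ i ∈ F, y (.inl i) = x (.inl i)) ∧
      ∀ n ∈ G, |y (.inr n) - max 0 (min (x (.inl (h n))) c)| ≤ δ * c)
      (Sum.elim J fun _ : ℕ => (0, c)) (Sum.elim J fun _ : ℕ => (0, c)) := by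
  classical
  haveI := Infinite.of_injective h hh
  let J1 : ι × Bool → ℝ × ℝ := fun p => cond p.2 (J p.1) (0, 1)
  let J2 : ι × Bool → ℝ × ℝ := fun p => cond p.2 (if p.1 ∈ range h then (0, c) else J p.1) (0, 1)
  have n0 : Nm (Sum.elim J fun _ : ℕ => (0, c)) := by
    rintro (i | n)
    exacts [hJ i, ⟨le_rfl, hc⟩]
  have n1 : Nm J1 := by
    rintro ⟨i, _ | _⟩
    exacts [⟨le_rfl, one_pos⟩, hJ i]
  have n2 : Nm J2 := by
    rintro ⟨i, _ | _⟩
    · exact ⟨le_rfl, one_pos⟩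
    · simp only [J2, cond_true]
      split_ifs
      exacts [⟨le_rfl, hc⟩, hJ i]
  have a1 := ext n0 n1 (f := .inl) (f' := fun i => (i, true)) Sum.inl_injective
    (fun _ _ h => congrArg Prod.fst h) (fun _ => rfl) hc one_pos
    (infinite_of_injective_forall_mem Sum.inr_injective fun n => ⟨by simp, rfl⟩)
    (infinite_of_injective_forall_mem (f := fun i => (i, false))
      (fun _ _ h => congrArg Prod.fst h) fun n => ⟨by simp, rfl⟩)
  have a2 := prod (J := J1) (J' := J2) (R := fun i x y =>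
    (i ∈ range h → |y true - max 0 (min (x true) c)| ≤ δ * c) ∧ (i ∉ range h → y true = x true))
    fun i => by
      by_cases hi : i ∈ range h
      · refine (long rfl rfl (if_pos hi) le_rfl (hJ i).1 (hJ i).2 hc d0 d1 (.inr ?_)).mono
          fun x y h => ⟨fun _ => h, fun h => (h hi).elim⟩
        obtain ⟨n, rfl⟩ := hi
        exact h2 n
      · refine (reidx (Equiv.refl _) ?_).mono fun x y h => ⟨fun h => (hi h).elim, fun _ => h true⟩
        rintro (_ | _)
        exacts [rfl, if_neg hi]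
  have hF : ∀ i ∈ F, i ∉ range h := by rintro _ hi ⟨n, rfl⟩; exact h1 n hi
  have a3 := ext n2 n0 (K := F ⊕ G) (f := Sum.elim (fun i => (i.1, true)) fun n => (h n.1, true))
    (f' := Sum.map Subtype.val Subtype.val) (by
      rintro (i | i) (j | j) e <;> have e := congrArg Prod.fst e
      · exact congrArg _ (Subtype.ext e)
      · exact (hF i i.2 ⟨j, e.symm⟩).elim
      · exact (hF j j.2 ⟨i, e⟩).elim
      · exact congrArg _ (Subtype.ext (hh e)))
    (Subtype.val_injective.sumMap Subtype.val_injective) (by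
      rintro (i | n)
      · exact (if_neg (hF i i.2)).symm
      · exact (if_pos ⟨n, rfl⟩).symm) one_pos hc
    (infinite_of_injective_forall_mem (f := fun i => (i, false))
      (fun _ _ h => congrArg Prod.fst h) fun n => ⟨by rintro ⟨_ | _, h⟩ <;> simp at h, rfl⟩)
    ((hG.infinite_compl.image Sum.inr_injective.injOn).mono (by
      rintro _ ⟨n, hn, rfl⟩
      refine ⟨?_, rfl⟩
      rintro ⟨m | m, h⟩
      · cases h
      · exact hn (Sum.inr_injective h ▸ m.2)))
  refine ((a1.trans a2).trans a3).mono ?_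
  rintro x y ⟨y', ⟨x', b1, b2⟩, b3⟩
  refine ⟨fun i hi => (b3 (.inl ⟨i, hi⟩)).trans (((b2 i).2 (hF i hi)).trans (b1 i)), fun n hn => ?_⟩
  have := (b2 (h n)).1 ⟨n, rfl⟩
  simp only [b1] at this
  exact (b3 (.inr ⟨n, hn⟩)).symm ▸ this

theorem KL [Countable ι] (hJ : Nm J) {c : ℝ} (hc : 0 < c) (hT : {i | c ≤ (J i).2}.Infinite) :
    Eqv (Sum.elim J fun _ : ℕ => (0, c)) J := by
  have h1 : ∀ y : ι ⊕ ℕ → ℝ, N (fun i => y (.inl i)) ≤ N y := fun y =>
    ENNReal.tsum_comp_le_tsum_of_injective Sum.inl_injective fun i => ‖y i‖ₑ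
  have h2 : ∀ x : ι → ℝ, N (Sum.elim x fun _ : ℕ => 0) = N x := fun x =>
    (Sum.inl_injective.tsum_eq (f := fun i => ‖Sum.elim x (fun _ : ℕ => (0 : ℝ)) i‖ₑ) (by
      rintro (i | n) <;> simp)).symm
  let π : C(S (Sum.elim J fun _ : ℕ => (0, c)), S J) :=
    ⟨fun y => ⟨fun i => y.1 (.inl i), fun i => y.2.1 (.inl i), (h1 _).trans y.2.2⟩,
      by
      refine Continuous.subtype_mk (continuous_pi fun i => ?_) _
      exact (continuous_apply (Sum.inl i)).comp (continuous_subtype_val (p := (· ∈ S _)))⟩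
  obtain ⟨p, p1, p2⟩ := Bing.bing (fun r => {y : S (Sum.elim J fun _ : ℕ => (0, c)) | N y.1 ≤ r})
    (fun r => {y : S J | N y.1 ≤ r})
    (fun r => (closed_N r).preimage continuous_subtype_val)
    (fun r => (closed_N r).preimage continuous_subtype_val) π (fun r => by
      ext x
      refine ⟨?_, fun hx => ⟨⟨Sum.elim x.1 fun _ => 0, ?_, (h2 _).trans_le x.2.2⟩,
        (h2 _).trans_le hx, rfl⟩⟩
      · rintro ⟨y, hy, rfl⟩
        exact (h1 _).trans hy
      · rintro (i | n)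
        exacts [x.2.1 i, ⟨le_rfl, hc.le⟩]) (by
      rintro U ⟨U', hU, u1⟩ V ⟨V', hV, v1⟩
      obtain ⟨F, δ, hF, hδ, u2⟩ := Bing.pi_unif hU
      obtain ⟨G, ε, hG, hε, v2⟩ := Bing.pi_unif hV
      have := hT.sdiff (hF.union (hG.preimage Sum.inl_injective.injOn))
      obtain ⟨g, hg⟩ := shrink hJ hc (δ := min 1 (ε / (3 * c))) (by positivity) (min_le_left _ _)
        (F ∪ Sum.inl ⁻¹' G) (hG.preimage Sum.inr_injective.injOn)
        (Subtype.val_injective.comp (this.natEmbedding _).injective)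
        (fun n => (this.natEmbedding _ n).2.2) fun n => (this.natEmbedding _ n).2.1
      have e1 : min 1 (ε / (3 * c)) * c ≤ ε / 3 :=
        (mul_le_mul_of_nonneg_right (min_le_right _ _) hc.le).trans_eq (by field_simp)
      refine ⟨g, fun r x => by simp only [mem_ofPred_eq, (hg x).1], fun x => u1 (u2 _ _ fun i hi => ?_),
        fun x x' e => v1 (v2 _ _ ?_)⟩
      · simpa [π, (hg x).2.1 i (.inl hi)] using hδ
      have e2 : ∀ i, x.1 (.inl i) = x'.1 (.inl i) := congrFun (congrArg Subtype.val e)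
      rintro (i | n) hi
      · simpa [(hg x).2.1 i (.inr hi), (hg x').2.1 i (.inr hi), e2] using hε
      · have b1 := abs_le.1 ((hg x).2.2 n hi)
        have b2 := abs_le.1 ((hg x').2.2 n hi)
        rw [e2] at b1
        rw [abs_lt]
        constructor <;> linarith [b1.1, b1.2, b2.1, b2.2])
  refine ⟨Continuous.homeoOfEquivCompactToT2 (f := Equiv.ofBijective p ⟨p1, fun y => ?_⟩)
    p.continuous, fun x => ⟨le_antisymm ?_ ?_, trivial⟩⟩
  · obtain ⟨x, -, hx⟩ := (p2 ⊤).ge (show N y.1 ≤ ⊤ from le_top)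
    exact ⟨x, hx⟩
  · exact (p2 (N x.1)).le ⟨x, le_refl (N x.1), rfl⟩
  · obtain ⟨x', h, hx⟩ := (p2 _).ge (show N (p x).1 ≤ N (p x).1 from le_rfl)
    rw [p1 hx] at h
    exact h

theorem block [Countable ι] (hJ : Nm J) {c : ℝ} (hc : 0 < c) (hT : {i | c ≤ (J i).2}.Infinite) :
    Eqv J (Om ι) := by
  refine ((KL hJ hc hT).symm.tr (good ?_ hc ?_)).tr (good (fun _ => ⟨le_rfl, one_pos⟩) one_pos
    (hT.mono fun _ _ => rfl)).symm
  · rintro (i | n)
    exacts [hJ i, ⟨le_rfl, hc⟩]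
  · exact infinite_of_injective_forall_mem Sum.inr_injective fun n => rfl

theorem part0 (T : Set ι) : ∃ ψ : ι → ι, T.Infinite → (∀ i ∈ T, ψ i ∈ T) ∧
    (∀ j, {i | i ∈ T ∧ ψ i = j}.Countable) ∧ ∀ j ∈ T, {i | i ∈ T ∧ ψ i = j}.Infinite := by
  classical
  by_cases hT : T.Infinite
  swap
  · exact ⟨id, fun h => (hT h).elim⟩
  haveI := hT.to_subtype
  obtain ⟨e⟩ : Nonempty (T ≃ T × ℕ) := Cardinal.eq.1 (by
    simp [Cardinal.mul_aleph0_eq (Cardinal.aleph0_le_mk T)])
  refine ⟨fun i => if h : i ∈ T then (e ⟨i, h⟩).1 else i, fun _ => ⟨fun i hi => by simp [hi],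
    fun j => ?_, fun j hj => ?_⟩⟩
  · refine (MapsTo.countable_of_injOn (f := fun i => if h : i ∈ T then (e ⟨i, h⟩).2 else 0)
      (mapsTo_univ _ _) ?_ countable_univ)
    rintro u ⟨u1, u2⟩ v ⟨v1, v2⟩ h
    simp only [dif_pos u1, dif_pos v1] at h u2 v2
    exact congrArg Subtype.val (e.injective (Prod.ext (Subtype.ext (u2.trans v2.symm)) h))
  · exact infinite_of_injective_forall_mem (f := fun n => (e.symm (⟨j, hj⟩, n)).1)
      (fun _ _ h => congrArg Prod.snd (e.symm.injective (Subtype.ext h))) fun n =>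
        ⟨(e.symm _).2, by simp⟩

theorem part [Uncountable ι] (n : ι → ℕ) : ∃ b : ι → ι, ∀ j, {i | b i = j}.Countable ∧
    ∀ i, b i = j → ∃ m, {i | b i = j ∧ n i = m}.Infinite := by
  classical
  choose ψ hψ using fun m => part0 {i | n i = m}
  obtain ⟨m0, h0⟩ : ∃ m, {i | n i = m}.Infinite := by
    by_contra h
    push Not at h
    exact not_countable_univ ((countable_iUnion fun m => (h m).countable).mono fun i _ =>
      mem_iUnion.2 ⟨n i, rfl⟩)
  obtain ⟨i0, hi⟩ := h0.nonempty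
  let b : ι → ι := fun i => if {j | n j = n i}.Infinite then ψ (n i) i else i0
  have h1 : ∀ m j, {i | n i = m}.Infinite → n j = m → {i | b i = j ∧ n i = m}.Infinite :=
    fun m j hm hj => ((hψ m hm).2.2 j hj).mono (by
      rintro i ⟨rfl, h⟩
      exact ⟨(if_pos hm).trans h, rfl⟩)
  refine ⟨b, fun j => ⟨?_, fun i e => ?_⟩⟩
  · refine (countable_iUnion (t := fun m => {i | b i = j ∧ n i = m}) fun m => ?_).mono fun i h =>
      mem_iUnion.2 ⟨n i, And.intro h rfl⟩
    by_cases hm : {i | n i = m}.Infinite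
    · refine ((hψ m hm).2.1 j).mono ?_
      rintro i ⟨h, rfl⟩
      exact ⟨rfl, (if_pos hm).symm.trans h⟩
    · exact (not_infinite.1 hm).countable.mono fun _ h => h.2
  · by_cases hm : {j | n j = n i}.Infinite
    · refine ⟨_, h1 _ j hm ?_⟩
      rw [← e, show b i = _ from if_pos hm]
      exact (hψ _ hm).1 i rfl
    · refine ⟨_, h1 _ j h0 ?_⟩
      rw [← e, show b i = _ from if_neg hm]
      exact hi

theorem all [Uncountable ι] (hJ : Nm J) : Eqv J (Om ι) := by
  choose n hn using fun i => exists_nat_one_div_lt (hJ i).2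
  obtain ⟨b, hb⟩ := part n
  refine (sig (Equiv.sigmaFiberEquiv b) (Equiv.sigmaFiberEquiv b) (R := fun _ _ _ => True)
    fun j => ?_).eqv
  by_cases h : ∃ i, b i = j
  · obtain ⟨i, hi⟩ := h
    obtain ⟨m, hm⟩ := (hb j).2 i hi
    haveI : Countable {i // b i = j} := (hb j).1
    refine block (fun _ => hJ _) (c := 1 / ((m : ℝ) + 1)) (by positivity)
      ((hm.preimage (f := Subtype.val) fun i hi => ⟨⟨i, hi.1⟩, rfl⟩).mono ?_)
    rintro i ⟨-, rfl⟩
    exact (hn _).le
  · exact (reidx (Equiv.refl _) fun i => (h ⟨_, i.2⟩).elim).eqv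

end Pool.Agent.H10.Ball
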