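import Mathlib

open FirstOrder FirstOrder.Language Pointwise

namespace Pool.Agent.H10.BaurMonk

/-- `U` is empty or a coset of `H` -/
def Cos {N : Type} [AddCommGroup N] (H : AddSubgroup N) (U : Set N) : Prop :=
  ∀ x ∈ U, ∀ y, y ∈ U ↔ y - x ∈ H

theorem cover_transfer {N I : Type} [AddCommGroup N] (T : Finset I) (H : I → AddSubgroup N)
    (U V : I → Set N) (hU : ∀ i ∈ T, Cos (H i) (U i)) (hV : ∀ i ∈ T, Cos (H i) (V i))
    (hp : ∀ S ⊆ T, (∃ c, ∀ i ∈ S, c ∈ U i) ↔ ∃ d, ∀ i ∈ S, d ∈ V i)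
    (hc : ∀ d, ∃ i ∈ T, d ∈ V i) (c : N) : ∃ i ∈ T, c ∈ U i := by
  classical
  let g : I → N := fun i => if h : (V i).Nonempty then h.some else 0
  have hg : ∀ i, (V i).Nonempty → g i ∈ V i := fun i h => by simp only [g, dif_pos h]; exact h.some_mem
  have hm : ∀ i ∈ T, (V i).Nonempty → ∀ d, d ∈ g i +ᵥ (H i : Set N) ↔ d ∈ V i := fun i hi h d => by
    rw [hV i hi _ (hg i h), mem_leftAddCoset_iff, neg_add_eq_sub]; rfl
  have c1 : ⋃ i ∈ T.filter (fun i => (V i).Nonempty), g i +ᵥ (H i : Set N) = Set.univ := by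
    refine Set.eq_univ_of_forall fun d => ?_
    obtain ⟨i, hi, hd⟩ := hc d
    exact Set.mem_biUnion (Finset.mem_filter.2 ⟨hi, d, hd⟩) ((hm i hi ⟨d, hd⟩ d).2 hd)
  have c2 := AddSubgroup.leftCoset_cover_filter_FiniteIndex c1
  set T1 := (T.filter (fun i => (V i).Nonempty)).filter fun i => (H i).FiniteIndex with hT1
  have sub : T1 ⊆ T := (Finset.filter_subset _ _).trans (Finset.filter_subset _ _)
  have c3 : ∀ d, ∃ i ∈ T1, d ∈ V i := fun d => by
    obtain ⟨i, hi, hd⟩ := Set.mem_iUnion₂.1 (c2 ▸ Set.mem_univ d)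
    exact ⟨i, hi, (hm i (sub hi) (Finset.mem_filter.1 (Finset.mem_filter.1 hi).1).2 d).1 hd⟩
  let K : AddSubgroup N := ⨅ i ∈ T1, H i
  haveI : K.FiniteIndex := AddSubgroup.finiteIndex_iInf' _ fun i hi => (Finset.mem_filter.1 hi).2
  letI : Fintype (N ⧸ K) := Fintype.ofFinite _
  let im : Set N → Finset (N ⧸ K) := fun W => Finset.univ.filter fun q => ∃ p ∈ W, (p : N ⧸ K) = q
  have sat : ∀ i ∈ T1, ∀ W, Cos (H i) W → ∀ p : N, (p : N ⧸ K) ∈ im W ↔ p ∈ W := by
    intro i hi W hW p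
    simp only [im, Finset.mem_filter, Finset.mem_univ, true_and]
    refine ⟨fun ⟨p', h1, h2⟩ => (hW p' h1 p).2 ?_, fun h => ⟨p, h, rfl⟩⟩
    have := QuotientAddGroup.eq.1 h2
    rw [neg_add_eq_sub] at this
    exact (AddSubgroup.mem_iInf.1 ((AddSubgroup.mem_iInf.1 this) i)) hi
  have card : ∀ S ∈ T1.powerset, (S.inf fun i => im (U i)).card = (S.inf fun i => im (V i)).card := by
    intro S hS
    have hS1 := Finset.mem_powerset.1 hS
    have mU : ∀ p : N, (p : N ⧸ K) ∈ (S.inf fun i => im (U i)) ↔ ∀ i ∈ S, p ∈ U i := fun p => by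
      rw [Finset.mem_inf]
      exact forall₂_congr fun i hi => sat i (hS1 hi) _ (hU i (sub (hS1 hi))) p
    have mV : ∀ p : N, (p : N ⧸ K) ∈ (S.inf fun i => im (V i)) ↔ ∀ i ∈ S, p ∈ V i := fun p => by
      rw [Finset.mem_inf]
      exact forall₂_congr fun i hi => sat i (hS1 hi) _ (hV i (sub (hS1 hi))) p
    by_cases he : ∃ c, ∀ i ∈ S, c ∈ U i
    · obtain ⟨d', hd'⟩ := (hp S (hS1.trans sub)).1 he
      obtain ⟨c', hc'⟩ := he
      refine Finset.card_equiv (Equiv.addRight ((d' - c' : N) : N ⧸ K)) fun q => ?_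
      obtain ⟨p, rfl⟩ := QuotientAddGroup.mk_surjective q
      simp only [Equiv.coe_addRight]
      rw [← QuotientAddGroup.mk_add, mU, mV]
      refine forall₂_congr fun i hi => ?_
      rw [hU i (sub (hS1 hi)) _ (hc' i hi), hV i (sub (hS1 hi)) _ (hd' i hi),
        show p + (d' - c') - d' = p - c' by abel]
    · have he' := mt (hp S (hS1.trans sub)).2 he
      rw [Finset.card_eq_zero.2, Finset.card_eq_zero.2]
      · refine Finset.eq_empty_of_forall_notMem fun q hq => ?_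
        obtain ⟨p, rfl⟩ := QuotientAddGroup.mk_surjective q
        exact he' ⟨p, (mV p).1 hq⟩
      · refine Finset.eq_empty_of_forall_notMem fun q hq => ?_
        obtain ⟨p, rfl⟩ := QuotientAddGroup.mk_surjective q
        exact he ⟨p, (mU p).1 hq⟩
  have e1 := Finset.inclusion_exclusion_card_inf_compl T1 fun i => im (U i)
  have e2 := Finset.inclusion_exclusion_card_inf_compl T1 fun i => im (V i)
  rw [Finset.sum_congr rfl fun S hS => by rw [card S hS], ← e2] at e1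
  have z : (T1.inf fun i => (im (V i))ᶜ) = ∅ := by
    refine Finset.eq_empty_of_forall_notMem fun q hq => ?_
    obtain ⟨p, rfl⟩ := QuotientAddGroup.mk_surjective q
    obtain ⟨i, hi, h⟩ := c3 p
    exact Finset.mem_compl.1 (Finset.mem_inf.1 hq i hi) ((sat i hi _ (hV i (sub hi)) p).2 h)
  rw [z, Finset.card_empty, Nat.cast_inj, Finset.card_eq_zero] at e1
  by_contra hne
  push Not at hne
  have : (c : N ⧸ K) ∈ T1.inf fun i => (im (U i))ᶜ := Finset.mem_inf.2 fun i hi =>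
    Finset.mem_compl.2 fun h => hne i (sub hi) ((sat i hi _ (hU i (sub hi)) c).1 h)
  rw [e1] at this
  simp at this

theorem forth {N I : Type} [AddCommGroup N] (T : Finset I) (H : I → AddSubgroup N)
    (U V : I → Set N) (hU : ∀ i ∈ T, Cos (H i) (U i)) (hV : ∀ i ∈ T, Cos (H i) (V i))
    (hp : ∀ S ⊆ T, (∃ c, ∀ i ∈ S, c ∈ U i) ↔ ∃ d, ∀ i ∈ S, d ∈ V i) (c : N) :
    ∃ d, ∀ i ∈ T, c ∈ U i ↔ d ∈ V i := by
  classical
  let S0 := T.filter fun i => c ∈ U i
  have s0 : S0 ⊆ T := Finset.filter_subset _ _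
  obtain ⟨d0, hd0⟩ := (hp S0 s0).1 ⟨c, fun i hi => (Finset.mem_filter.1 hi).2⟩
  let P : AddSubgroup N := ⨅ i ∈ S0, H i
  have mP : ∀ y, y ∈ P ↔ ∀ i ∈ S0, y ∈ H i := fun y => by simp only [P, AddSubgroup.mem_iInf]
  have cs : ∀ i W (e : N), Cos (H i) W → Cos ((H i).addSubgroupOf P) {p : P | e + (p : N) ∈ W} :=
    fun i W e hW x hx y => by
      rw [AddSubgroup.mem_addSubgroupOf, Set.mem_ofPred_eq, hW _ hx]
      simp
  have tr : ∀ (W : I → Set N) (e : N), (∀ i ∈ T, Cos (H i) (W i)) → (∀ i ∈ S0, e ∈ W i) →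
      ∀ S : Finset I, (∃ p : P, ∀ i ∈ S, e + p ∈ W i) ↔ ∃ c, ∀ i ∈ S0 ∪ S, c ∈ W i := by
    intro W e hW he S
    refine ⟨fun ⟨p, h⟩ => ⟨e + p, fun i hi => ?_⟩, fun ⟨c, h⟩ => ⟨⟨c - e, (mP _).2 fun i hi =>
      (hW i (s0 hi) e (he i hi) c).1 (h i (by simp [hi]))⟩, fun i hi => by
        simpa using h i (by simp [hi])⟩⟩
    rcases Finset.mem_union.1 hi with hi | hi
    · exact (hW i (s0 hi) e (he i hi) _).2 (by simpa using (mP _).1 p.2 i hi)
    · exact h i hi
  by_contra hne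
  push Not at hne
  obtain ⟨i, hi, h⟩ := cover_transfer (T.filter fun i => c ∉ U i) (fun i => (H i).addSubgroupOf P)
    (fun i => {p : P | c + p ∈ U i}) (fun i => {p : P | d0 + p ∈ V i})
    (fun i hi => cs i _ _ (hU i (Finset.mem_filter.1 hi).1))
    (fun i hi => cs i _ _ (hV i (Finset.mem_filter.1 hi).1))
    (fun S hS => (tr U c hU (fun i hi => (Finset.mem_filter.1 hi).2) S).trans
      ((hp _ (Finset.union_subset s0 (hS.trans (Finset.filter_subset _ _)))).trans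
        (tr V d0 hV hd0 S).symm))
    (fun p => by
      obtain ⟨i, hi, h⟩ := hne (d0 + p)
      rcases h with ⟨h1, h2⟩ | ⟨h1, h2⟩
      · have hi0 : i ∈ S0 := Finset.mem_filter.2 ⟨hi, h1⟩
        exact absurd ((hV i hi d0 (hd0 i hi0) _).2 (by simpa using (mP _).1 p.2 i hi0)) h2
      · exact ⟨i, Finset.mem_filter.2 ⟨hi, h1⟩, h2⟩) 0
  exact (Finset.mem_filter.1 hi).2 (by simpa using h)

variable {N α : Type} [AddCommGroup N] (M : Set (N → N))

abbrev G (N α : Type) (n : ℕ) : Type := (α → N) × (Fin n → N)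

/-- affine and invariant -/
def Good {n : ℕ} (A : Set (G N α n)) : Prop :=
  (∀ x ∈ A, ∀ y ∈ A, ∀ z ∈ A, x - y + z ∈ A) ∧ ∀ f ∈ M, ∀ p ∈ A, (f ∘ p.1, f ∘ p.2) ∈ A

/-- determined by finitely many affine invariant sets -/
def Det {n : ℕ} (P : G N α n → Prop) : Prop :=
  ∃ F : Finset (Set (G N α n)), (∀ A ∈ F, Good M A) ∧
    ∀ p q, (∀ A ∈ F, p ∈ A ↔ q ∈ A) → P p → P q

def J {n : ℕ} (p : G N α n) (c : N) : G N α (n + 1) := (p.1, Fin.snoc p.2 c)

theorem J_aff {n : ℕ} (p q s : G N α n) (c d e : N) :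
    J (p - q + s) (c - d + e) = J p c - J q d + J s e := by
  refine Prod.ext rfl (funext fun i => ?_)
  refine Fin.lastCases ?_ (fun i => ?_) i <;> simp [J]

theorem det_all {n : ℕ} {P : G N α (n + 1) → Prop} (h : Det M P) :
    Det M fun p => ∀ c, P (J p c) := by
  classical
  obtain ⟨F, h1, h2⟩ := h
  refine ⟨F.powerset.image fun S => {p | ∃ c, ∀ A ∈ S, J p c ∈ A}, fun A hA => ?_,
    fun p q hpq hp d => ?_⟩
  · obtain ⟨S, hS, rfl⟩ := Finset.mem_image.1 hA
    have hS1 := Finset.mem_powerset.1 hS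
    refine ⟨fun x ⟨c, hc⟩ y ⟨d, hd⟩ z ⟨e, he⟩ => ⟨c - d + e, fun A hA => ?_⟩,
      fun f hf p ⟨c, hc⟩ => ⟨f c, fun A hA => ?_⟩⟩
    · rw [J_aff]; exact (h1 A (hS1 hA)).1 _ (hc A hA) _ (hd A hA) _ (he A hA)
    · have := (h1 A (hS1 hA)).2 f hf _ (hc A hA)
      simpa [J, Fin.comp_snoc] using this
  · let H : Set (G N α (n + 1)) → AddSubgroup N := fun A =>
      { carrier := {y | ∀ w, w ∈ A ↔ w + J 0 y - J 0 0 ∈ A}
        zero_mem' := fun w => by simp
        add_mem' := fun {a b} ha hb w => by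
          have e := J_aff (0 : G N α n) 0 0 a 0 b
          simp only [sub_zero, add_zero] at e
          rw [ha w, hb, e]
          exact iff_of_eq (by congr 1; abel)
        neg_mem' := fun {a} ha w => by
          have e := J_aff (0 : G N α n) 0 0 0 a 0
          simp only [sub_zero, add_zero, zero_sub] at e
          rw [ha (w + J 0 (-a) - J 0 0), e]
          exact iff_of_eq (by congr 1; abel) }
    have cs : ∀ p : G N α n, ∀ A ∈ F, Cos (H A) {c | J p c ∈ A} := by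
      intro p A hA x hx y
      have e := J_aff (0 : G N α n) 0 p (y - x) 0 x
      have e' := J_aff p p 0 y x 0
      have e'' := J_aff (0 : G N α n) 0 0 0 0 0
      simp only [sub_zero, add_zero, zero_add, sub_add_cancel, sub_self] at e e' e''
      refine ⟨fun hy w => ⟨fun hw => ?_, fun hw => ?_⟩, fun hy => ?_⟩
      · have := (h1 A hA).1 _ hy _ hx _ hw
        rwa [show J p y - J p x + w = w + J 0 (y - x) - J 0 0 by rw [e']; abel] at this
      · have := (h1 A hA).1 _ hx _ hy _ hw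
        rwa [show J p x - J p y + (w + J 0 (y - x) - J 0 0) = w by rw [e']; abel] at this
      · have := (hy _).1 hx
        rwa [show J p x + J 0 (y - x) - J 0 0 = J p y by rw [e]; abel] at this
    obtain ⟨c, hc⟩ := forth F H (fun A => {c | J q c ∈ A}) (fun A => {c | J p c ∈ A}) (cs q) (cs p)
      (fun S hS => (hpq _ (Finset.mem_image_of_mem _ (Finset.mem_powerset.2 hS))).symm) d
    exact h2 _ _ (fun A hA => (hc A hA).symm) (hp c)

theorem det_formula {L : FirstOrder.Language.{0, 0}} [L.Structure N] [∀ n, IsEmpty (L.Relations n)]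
    (hat : ∀ (n : ℕ) (s t : L.Term (α ⊕ Fin n)),
      Det M fun p : G N α n => s.realize (Sum.elim p.1 p.2) = t.realize (Sum.elim p.1 p.2))
    {n : ℕ} (φ : L.BoundedFormula α n) : Det M fun p : G N α n => φ.Realize p.1 p.2 := by
  classical
  induction φ with
  | falsum => exact ⟨∅, by simp, fun _ _ _ h => h⟩
  | equal s t => exact hat _ s t
  | rel R _ => exact isEmptyElim R
  | imp φ ψ ih1 ih2 =>
    obtain ⟨F, a1, a2⟩ := ih1
    obtain ⟨F', b1, b2⟩ := ih2
    exact ⟨F ∪ F', fun A hA => (Finset.mem_union.1 hA).elim (a1 A) (b1 A), fun p q h hp hq =>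
      b2 p q (fun A hA => h A (by simp [hA])) (hp (a2 q p (fun A hA => (h A (by simp [hA])).symm) hq))⟩
  | all φ ih => exact det_all M ih

theorem same_type {L : FirstOrder.Language.{0, 0}} [L.Structure N] [∀ n, IsEmpty (L.Relations n)]
    (hat : ∀ (n : ℕ) (s t : L.Term (α ⊕ Fin n)),
      Det M fun p : G N α n => s.realize (Sum.elim p.1 p.2) = t.realize (Sum.elim p.1 p.2))
    {a b : α → N} {f g : N → N} (hf : f ∈ M) (hg : g ∈ M) (h1 : f ∘ a = b) (h2 : g ∘ b = a)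
    (φ : L.Formula α) : φ.Realize a ↔ φ.Realize b := by
  obtain ⟨F, a1, a2⟩ := det_formula M hat φ
  have : ∀ A ∈ F, ((a, default) : G N α 0) ∈ A ↔ ((b, default) : G N α 0) ∈ A := fun A hA =>
    ⟨fun h => by simpa [h1, Subsingleton.elim (f ∘ default) default] using (a1 A hA).2 f hf _ h,
     fun h => by simpa [h2, Subsingleton.elim (g ∘ default) default] using (a1 A hA).2 g hg _ h⟩
  exact ⟨a2 _ _ this, a2 _ _ fun A hA => (this A hA).symm⟩

end Pool.Agent.H10.BaurMonk
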