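import Pool.Agent.H10.Reg

open Set Filter Topology

namespace Pool.Agent.H10.PosIso

def NN (n : ℕ) : ℕ := 4 ^ n

lemma NN_pos (n : ℕ) : (0 : ℝ) < NN n := by unfold NN; positivity

noncomputable def sg (i : ℕ) (ω : Finset ℕ) : ℝ := if i ∈ ω then 1 else -1

lemma rad_sq (a : ℕ → ℝ) (s : Finset ℕ) :
    ∑ ω ∈ s.powerset, (∑ i ∈ s, sg i ω * a i) ^ 2 = 2 ^ s.card * ∑ i ∈ s, a i ^ 2 := by
  induction s using Finset.induction_on with
  | empty => simp
  | insert j s hj ih =>
    rw [Finset.sum_powerset_insert hj, ← Finset.sum_add_distrib, Finset.card_insert_of_notMem hj,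
      Finset.sum_insert hj]
    have h1 : ∀ ω ∈ s.powerset, (∑ i ∈ insert j s, sg i ω * a i) ^ 2 +
        (∑ i ∈ insert j s, sg i (insert j ω) * a i) ^ 2 =
        2 * (∑ i ∈ s, sg i ω * a i) ^ 2 + 2 * a j ^ 2 := fun ω hω => by
      have hjω : j ∉ ω := fun h => hj (Finset.mem_powerset.1 hω h)
      have e1 : ∑ i ∈ s, sg i (insert j ω) * a i = ∑ i ∈ s, sg i ω * a i :=
        Finset.sum_congr rfl fun i hi => by
          have : i ≠ j := fun e => hj (e ▸ hi)
          simp [sg, this]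
      rw [Finset.sum_insert hj, Finset.sum_insert hj, e1]
      simp only [sg, hjω, if_false, Finset.mem_insert_self, if_true]
      ring
    rw [Finset.sum_congr rfl h1, Finset.sum_add_distrib, ← Finset.mul_sum, ih, Finset.sum_const,
      Finset.card_powerset, nsmul_eq_mul]
    push_cast
    ring

lemma rad_zero (i : ℕ) (s : Finset ℕ) (hi : i ∈ s) : ∑ ω ∈ s.powerset, sg i ω = 0 := by
  rw [← Finset.insert_erase hi, Finset.sum_powerset_insert (Finset.notMem_erase i s),
    ← Finset.sum_add_distrib]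
  refine Finset.sum_eq_zero fun ω hω => ?_
  have : i ∉ ω := fun h => Finset.notMem_erase i s (Finset.mem_powerset.1 hω h)
  simp [sg, this]

lemma rad_cut (n : ℕ) (a : ℕ → ℝ) (b : Finset ℕ → ℝ) (ha : ∀ i, |a i| ≤ 1) (hb : ∀ ω, |b ω| ≤ 1) :
    |∑ i ∈ Finset.range (NN n), ∑ ω ∈ (Finset.range (NN n)).powerset, sg i ω * (a i * b ω)| ≤
      (1 / 2) ^ n * (NN n * 2 ^ NN n) := by
  rw [Finset.sum_comm]
  have h1 : ∀ ω ∈ (Finset.range (NN n)).powerset, ∑ i ∈ Finset.range (NN n), sg i ω * (a i * b ω) =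
      (∑ i ∈ Finset.range (NN n), sg i ω * a i) * b ω := fun ω _ => by
    rw [Finset.sum_mul]
    exact Finset.sum_congr rfl fun i _ => by ring
  rw [Finset.sum_congr rfl h1]
  refine abs_le_of_sq_le_sq' ?_ (by have := NN_pos n; positivity) |> abs_le.2
  refine (Finset.sum_mul_sq_le_sq_mul_sq _ _ _).trans ?_
  rw [rad_sq, Finset.card_range]
  have h2 : ∑ i ∈ Finset.range (NN n), a i ^ 2 ≤ NN n := by
    refine (Finset.sum_le_sum fun i _ => (sq_le_one_iff_abs_le_one _).2 (ha i)).trans ?_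
    simp
  have h3 : ∑ ω ∈ (Finset.range (NN n)).powerset, b ω ^ 2 ≤ 2 ^ NN n := by
    refine (Finset.sum_le_sum fun i _ => (sq_le_one_iff_abs_le_one _).2 (hb i)).trans ?_
    simp
  have h4 : ((1 / 2 : ℝ) ^ n) ^ 2 * NN n = 1 := by
    unfold NN
    push_cast
    rw [← pow_mul, mul_comm n 2, pow_mul, ← mul_pow]
    norm_num
  calc 2 ^ NN n * (∑ i ∈ Finset.range (NN n), a i ^ 2) *
        ∑ ω ∈ (Finset.range (NN n)).powerset, b ω ^ 2 ≤ 2 ^ NN n * NN n * 2 ^ NN n := by
        gcongr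
    _ = (((1 / 2 : ℝ) ^ n) ^ 2 * NN n) * (2 ^ NN n * NN n * 2 ^ NN n) := by rw [h4, one_mul]
    _ = _ := by ring

noncomputable def wt (n : ℕ) (b : Bool) (i : ℕ) (ω : Finset ℕ) : ℝ :=
  (1 + (bif b then 1 else -1) * sg i ω) / (NN n * 2 ^ NN n)

lemma wt_nonneg (n : ℕ) (b : Bool) (i : ℕ) (ω : Finset ℕ) : 0 ≤ wt n b i ω := by
  refine div_nonneg ?_ (by have := NN_pos n; positivity)
  unfold sg
  cases b <;> split_ifs <;> simp

lemma wt_supp {n : ℕ} {b : Bool} {i : ℕ} {ω : Finset ℕ} (h : wt n b i ω ≠ 0) :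
    i ∈ ω ↔ b = true := by
  by_contra hc
  refine h ?_
  unfold wt sg
  cases b <;> split_ifs <;> simp_all

lemma wt_sum (n : ℕ) (b : Bool) :
    ∑ i ∈ Finset.range (NN n), ∑ ω ∈ (Finset.range (NN n)).powerset, wt n b i ω = 1 := by
  have h : ∀ i ∈ Finset.range (NN n), ∑ ω ∈ (Finset.range (NN n)).powerset, wt n b i ω =
      1 / NN n := fun i hi => by
    unfold wt
    rw [← Finset.sum_div, Finset.sum_add_distrib, ← Finset.mul_sum, rad_zero i _ hi]
    have := NN_pos n
    simp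
    field_simp
  rw [Finset.sum_congr rfl h, Finset.sum_const, Finset.card_range, nsmul_eq_mul,
    mul_one_div_cancel (NN_pos n).ne']

abbrev WW := List ℕ × List (Finset ℕ)

noncomputable def PP : ℕ → ℕ → D → ((WW → ℝ) →ₗ[ℝ] ℝ)
  | 0, _, _ => LinearMap.proj ([], [])
  | m + 1, n, d => ∑ i ∈ Finset.range (NN n), ∑ ω ∈ (Finset.range (NN n)).powerset,
      wt n (d n) i ω • (PP m (n + 1) d).comp
        (LinearMap.funLeft ℝ ℝ fun w : WW => (i :: w.1, ω :: w.2))

lemma PP_zero (n : ℕ) (d : D) (F : WW → ℝ) : PP 0 n d F = F ([], []) := rfl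

lemma PP_succ (m n : ℕ) (d : D) (F : WW → ℝ) : PP (m + 1) n d F =
    ∑ i ∈ Finset.range (NN n), ∑ ω ∈ (Finset.range (NN n)).powerset,
      wt n (d n) i ω * PP m (n + 1) d fun w => F (i :: w.1, ω :: w.2) := by
  simp only [PP, LinearMap.coe_sum, Finset.sum_apply, LinearMap.smul_apply, smul_eq_mul]
  rfl

def WS (m n : ℕ) (d : D) (w : WW) : Prop :=
  ∀ k < m, w.1.getD k 0 < NN (n + k) ∧ (w.1.getD k 0 ∈ w.2.getD k ∅ ↔ d (n + k) = true)

lemma PP_ge (d : D) (a : ℝ) (m : ℕ) : ∀ (n : ℕ) (F : WW → ℝ), (∀ w, WS m n d w → a ≤ F w) →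
    a ≤ PP m n d F := by
  induction m with
  | zero => intro n F h; exact h _ fun k hk => absurd hk (by omega)
  | succ m ih =>
    intro n F h
    rw [PP_succ]
    conv_lhs => rw [← one_mul a, ← wt_sum n (d n), Finset.sum_mul]
    refine Finset.sum_le_sum fun i hi => ?_
    rw [Finset.sum_mul]
    refine Finset.sum_le_sum fun ω _ => ?_
    by_cases h0 : wt n (d n) i ω = 0
    · simp [h0]
    refine mul_le_mul_of_nonneg_left (ih _ _ fun w hw => h _ fun k hk => ?_) (wt_nonneg _ _ _ _)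
    cases k with
    | zero => exact ⟨by simpa using hi, by simpa using wt_supp h0⟩
    | succ k =>
      have := hw k (by omega)
      rw [show n + 1 + k = n + (k + 1) by ring] at this
      simpa using this

lemma PP_near (d : D) (m n : ℕ) (F : WW → ℝ) (a ε : ℝ) (h : ∀ w, WS m n d w → |F w - a| ≤ ε) :
    |PP m n d F - a| ≤ ε := by
  have h1 := PP_ge d (a - ε) m n F fun w hw => by linarith [(abs_le.1 (h w hw)).1]
  have h2 := PP_ge d (-a - ε) m n (-F) fun w hw => by
    rw [Pi.neg_apply]; linarith [(abs_le.1 (h w hw)).2]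
  rw [map_neg] at h2
  exact abs_le.2 ⟨by linarith, by linarith⟩

lemma PP_split (d : D) (m l : ℕ) : ∀ (n : ℕ) (F : WW → ℝ), PP (m + l) n d F =
    PP l n d fun w => PP m (n + l) d fun v => F (w.1 ++ v.1, w.2 ++ v.2) := by
  induction l with
  | zero => intro n F; simp [PP_zero]
  | succ l ih =>
    intro n F
    rw [← add_assoc, PP_succ, PP_succ]
    refine Finset.sum_congr rfl fun i _ => Finset.sum_congr rfl fun ω _ => ?_
    rw [ih, show n + 1 + l = n + (l + 1) by ring]
    rfl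

noncomputable def U1 : ℕ → ℕ → (List ℕ → ℝ) → ℝ
  | 0, _, a => a []
  | m + 1, n, a => (∑ i ∈ Finset.range (NN n), U1 m (n + 1) fun w => a (i :: w)) / NN n

noncomputable def U2 : ℕ → ℕ → (List (Finset ℕ) → ℝ) → ℝ
  | 0, _, a => a []
  | m + 1, n, a =>
    (∑ ω ∈ (Finset.range (NN n)).powerset, U2 m (n + 1) fun w => a (ω :: w)) / 2 ^ NN n

lemma U1_le (m : ℕ) : ∀ (n : ℕ) (a : List ℕ → ℝ), (∀ w, |a w| ≤ 1) → |U1 m n a| ≤ 1 := by
  induction m with
  | zero => intro n a h; exact h _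
  | succ m ih =>
    intro n a h
    rw [U1, abs_div, abs_of_pos (NN_pos n), div_le_one (NN_pos n)]
    refine (Finset.abs_sum_le_sum_abs _ _).trans
      ((Finset.sum_le_sum fun i _ => ih _ _ fun w => h _).trans ?_)
    simp

lemma U2_le (m : ℕ) : ∀ (n : ℕ) (a : List (Finset ℕ) → ℝ), (∀ w, |a w| ≤ 1) → |U2 m n a| ≤ 1 := by
  induction m with
  | zero => intro n a h; exact h _
  | succ m ih =>
    intro n a h
    have hp : (0 : ℝ) < 2 ^ NN n := by positivity
    rw [U2, abs_div, abs_of_pos hp, div_le_one hp]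
    refine (Finset.abs_sum_le_sum_abs _ _).trans
      ((Finset.sum_le_sum fun i _ => ih _ _ fun w => h _).trans ?_)
    simp

lemma PP_tail (d : D) (m : ℕ) : ∀ (n : ℕ) (a : List ℕ → ℝ) (b : List (Finset ℕ) → ℝ),
    (∀ w, |a w| ≤ 1) → (∀ w, |b w| ≤ 1) →
    |PP m n d (fun w => a w.1 * b w.2) - U1 m n a * U2 m n b| ≤ 2 * (1 / 2) ^ n := by
  induction m with
  | zero => intro n a b _ _; simp [PP_zero, U1, U2]
  | succ m ih =>
    intro n a b ha hb
    set A : ℕ → ℝ := fun i => U1 m (n + 1) fun w => a (i :: w)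
    set Bv : Finset ℕ → ℝ := fun ω => U2 m (n + 1) fun w => b (ω :: w)
    have hA : ∀ i, |A i| ≤ 1 := fun i => U1_le _ _ _ fun w => ha _
    have hB : ∀ ω, |Bv ω| ≤ 1 := fun ω => U2_le _ _ _ fun w => hb _
    have hN := NN_pos n
    have h1 : |PP (m + 1) n d (fun w => a w.1 * b w.2) -
        ∑ i ∈ Finset.range (NN n), ∑ ω ∈ (Finset.range (NN n)).powerset,
          wt n (d n) i ω * (A i * Bv ω)| ≤ (1 / 2) ^ n := by
      have hw : ((1 / 2 : ℝ) ^ n) = (∑ i ∈ Finset.range (NN n),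
          ∑ ω ∈ (Finset.range (NN n)).powerset, wt n (d n) i ω) * (1 / 2) ^ n := by
        rw [wt_sum, one_mul]
      rw [PP_succ, ← Finset.sum_sub_distrib, hw, Finset.sum_mul]
      refine (Finset.abs_sum_le_sum_abs _ _).trans (Finset.sum_le_sum fun i _ => ?_)
      rw [← Finset.sum_sub_distrib, Finset.sum_mul]
      refine (Finset.abs_sum_le_sum_abs _ _).trans (Finset.sum_le_sum fun ω _ => ?_)
      rw [← mul_sub, abs_mul, abs_of_nonneg (wt_nonneg _ _ _ _)]
      refine mul_le_mul_of_nonneg_left ?_ (wt_nonneg _ _ _ _)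
      refine (ih (n + 1) (fun w => a (i :: w)) (fun w => b (ω :: w)) (fun w => ha _)
        fun w => hb _).trans (le_of_eq (by ring))
    have h2 : ∑ i ∈ Finset.range (NN n), ∑ ω ∈ (Finset.range (NN n)).powerset,
          wt n (d n) i ω * (A i * Bv ω) - U1 (m + 1) n a * U2 (m + 1) n b =
        (bif d n then 1 else -1) * (∑ i ∈ Finset.range (NN n),
          ∑ ω ∈ (Finset.range (NN n)).powerset, sg i ω * (A i * Bv ω)) / (NN n * 2 ^ NN n) := by
      rw [U1, U2, div_mul_div_comm, Finset.sum_mul_sum, Finset.mul_sum, Finset.sum_div,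
        Finset.sum_div, ← Finset.sum_sub_distrib]
      refine Finset.sum_congr rfl fun i _ => ?_
      rw [Finset.mul_sum, Finset.sum_div, Finset.sum_div, ← Finset.sum_sub_distrib]
      refine Finset.sum_congr rfl fun ω _ => ?_
      unfold wt
      ring
    have h3 : |(bif d n then 1 else -1) * (∑ i ∈ Finset.range (NN n),
          ∑ ω ∈ (Finset.range (NN n)).powerset, sg i ω * (A i * Bv ω)) / (NN n * 2 ^ NN n)| ≤
        (1 / 2) ^ n := by
      have hp : (0 : ℝ) < NN n * 2 ^ NN n := by positivity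
      rw [abs_div, abs_of_pos hp, div_le_iff₀ hp, abs_mul]
      have : |(bif d n then (1 : ℝ) else -1)| = 1 := by cases d n <;> simp
      rw [this, one_mul]
      exact rad_cut n A Bv hA hB
    rw [← h2] at h3
    exact (abs_sub_le _ _ _).trans ((add_le_add h1 h3).trans (le_of_eq (by ring)))

lemma PP_tendsto {ι : Type*} {l : Filter ι} (d : D) (m : ℕ) : ∀ (n : ℕ) (F : ι → WW → ℝ)
    (G : WW → ℝ), (∀ w, Tendsto (fun t => F t w) l (𝓝 (G w))) →
    Tendsto (fun t => PP m n d (F t)) l (𝓝 (PP m n d G)) := by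
  induction m with
  | zero => intro n F G h; exact h _
  | succ m ih =>
    intro n F G h
    simp only [PP_succ]
    exact tendsto_finsetSum _ fun i _ => tendsto_finsetSum _ fun ω _ =>
      (ih _ _ _ fun w => h _).const_mul _

lemma PP_cont {X : Type*} [TopologicalSpace X] (m : ℕ) : ∀ (n : ℕ) (F : X → WW → ℝ),
    (∀ w, Continuous fun x => F x w) → Continuous fun z : D × X => PP m n z.1 (F z.2) := by
  induction m with
  | zero => intro n F h; exact (h _).comp continuous_snd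
  | succ m ih =>
    intro n F h
    simp only [PP_succ]
    refine continuous_finsetSum _ fun i _ => continuous_finsetSum _ fun ω _ => Continuous.mul ?_
      (ih _ (fun x w => F x (i :: w.1, ω :: w.2)) fun w => h _)
    exact (continuous_of_discreteTopology (f := fun b => wt n b i ω)).comp
      ((continuous_apply n).comp continuous_fst)

lemma exists_ulim (u : ℕ → ℝ) (C : ℝ) (h : ∀ m, |u m| ≤ C) :
    ∃ x, |x| ≤ C ∧ Tendsto u (hyperfilter ℕ) (𝓝 x) := by
  obtain ⟨x, hx, hl⟩ := (isCompact_Icc (a := -C) (b := C)).ultrafilter_le_nhds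
    ((hyperfilter ℕ).map u) (by
      rw [Ultrafilter.coe_map, le_principal_iff, mem_map]
      exact Eventually.of_forall fun m => abs_le.1 (h m))
  exact ⟨x, abs_le.2 hx, hl⟩

lemma exists_ext (g : ℕ → ℝ) (h : ∀ m, |g m| ≤ 1) :
    ∃ G : C(StoneCech ℕ, ℝ), ∀ m, G (stoneCechUnit m) = g m := by
  let g' : ℕ → Icc (-1 : ℝ) 1 := fun m => ⟨g m, abs_le.1 (h m)⟩
  have hg : Continuous g' := continuous_of_discreteTopology
  exact ⟨⟨fun p => (stoneCechExtend hg p).1, continuous_subtype_val.comp (continuous_stoneCechExtend hg)⟩,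
    fun m => congrArg Subtype.val (stoneCechExtend_stoneCechUnit hg m)⟩

lemma ext_of_approx {Z α : Type*} [TopologicalSpace Z] [CompactSpace Z] {j : α → Z}
    (hj : DenseRange j) (g : α → ℝ)
    (h : ∀ ε > 0, ∃ G : C(Z, ℝ), ∀ w, |G (j w) - g w| ≤ ε) : ∃ G : C(Z, ℝ), ∀ w, G (j w) = g w := by
  choose G hG using fun n : ℕ => h (1 / ((n : ℝ) + 1)) (by positivity)
  have hc : CauchySeq G := by
    refine cauchySeq_of_le_tendsto_0 (fun N : ℕ => 2 * (1 / ((N : ℝ) + 1))) (fun n m N hn hm => ?_)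
      (by simpa using (tendsto_one_div_add_atTop_nhds_zero_nat (𝕜 := ℝ)).const_mul (2 : ℝ))
    refine (ContinuousMap.dist_le (by positivity)).2 fun z => ?_
    refine hj.induction_on z (isClosed_le (by fun_prop) continuous_const) fun w => ?_
    have e1 := abs_le.1 ((hG n w).trans (Nat.one_div_le_one_div hn))
    have e2 := abs_le.1 ((hG m w).trans (Nat.one_div_le_one_div hm))
    rw [Real.dist_eq, abs_le]
    constructor <;> linarith [e1.1, e1.2, e2.1, e2.2]
  obtain ⟨G0, hG0⟩ := cauchySeq_tendsto_of_complete hc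
  refine ⟨G0, fun w => tendsto_nhds_unique (((continuous_eval_const (j w)).tendsto _).comp hG0) ?_⟩
  exact tendsto_iff_norm_sub_tendsto_zero.2 (squeeze_zero (fun m => norm_nonneg _)
    (fun m => hG m w) tendsto_one_div_add_atTop_nhds_zero_nat)

abbrev BN := StoneCech ℕ

theorem pc_beta : PC (D × BN × BN) (BN × BN) := by
  classical
  have : ExtremallyDisconnected BN := StoneCech.projective.extremallyDisconnected
  obtain ⟨e1, he1⟩ := Countable.exists_injective_nat (List ℕ × ℕ)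
  obtain ⟨e2, he2⟩ := Countable.exists_injective_nat (List (Finset ℕ) × ℕ)
  let d1 := Function.invFun e1
  let d2 := Function.invFun e2
  have hd1 : ∀ w, d1 (e1 w) = w := Function.leftInverse_invFun he1
  have hd2 : ∀ w, d2 (e2 w) = w := Function.leftInverse_invFun he2
  let res : C(BN × BN, ℝ) → ℕ → ℕ → WW → ℝ := fun F x y w =>
    F (stoneCechUnit (e1 (w.1, x)), stoneCechUnit (e2 (w.2, y)))
  have hbd : ∀ (F : C(BN × BN, ℝ)) (C : ℝ), (∀ z, |F z| ≤ C) → ∀ (w : D × ℕ × ℕ) m,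
      |PP m 0 w.1 (res F w.2.1 w.2.2)| ≤ C := fun F C hF w m => by
    simpa using PP_near w.1 m 0 (res F w.2.1 w.2.2) 0 C fun v _ => by simpa using hF _
  choose Φ _ hΦ using fun (F : C(BN × BN, ℝ)) (w : D × ℕ × ℕ) =>
    exists_ulim _ _ (hbd F ‖F‖ F.norm_coe_le_norm w)
  have hΦb : ∀ (F : C(BN × BN, ℝ)) (C : ℝ), (∀ z, |F z| ≤ C) → ∀ w, |Φ F w| ≤ C :=
    fun F C hF w => le_of_tendsto' (hΦ F w).abs (hbd F C hF w)
  have hadd : ∀ F G w, Φ (F + G) w = Φ F w + Φ G w := fun F G w =>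
    tendsto_nhds_unique (hΦ _ w) (((hΦ F w).add (hΦ G w)).congr fun m => (map_add _ _ _).symm)
  have hsmul : ∀ (c : ℝ) F w, Φ (c • F) w = c * Φ F w := fun c F w =>
    tendsto_nhds_unique (hΦ _ w) (((hΦ F w).const_mul c).congr fun m =>
      (map_smul (PP m 0 w.1) c (res F w.2.1 w.2.2)).symm)
  let j : D × ℕ × ℕ → D × BN × BN := Prod.map id (Prod.map stoneCechUnit stoneCechUnit)
  have hj : DenseRange j :=
    denseRange_id.prodMap (denseRange_stoneCechUnit.prodMap denseRange_stoneCechUnit)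
  let tn : C(BN, ℝ) → C(BN, ℝ) → C(BN × BN, ℝ) := fun a b =>
    ⟨fun z => a z.1 * b z.2, by fun_prop⟩
  have htn1 : ∀ a b : C(BN, ℝ), (∀ z, |a z| ≤ 1) → (∀ z, |b z| ≤ 1) →
      ∃ G : C(D × BN × BN, ℝ), ∀ w, G (j w) = Φ (tn a b) w := fun a b ha hb => by
    refine ext_of_approx hj _ fun ε hε => ?_
    obtain ⟨l, hl⟩ := exists_pow_lt_of_lt_one (half_pos hε) (show (1 / 2 : ℝ) < 1 by norm_num)
    choose α hα1 hα using fun (w : List ℕ) (x : ℕ) => exists_ulim
      (fun m => U1 (m - l) l fun v => a (stoneCechUnit (e1 (w ++ v, x)))) 1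
      fun m => U1_le _ _ _ fun v => ha _
    choose β hβ1 hβ using fun (w : List (Finset ℕ)) (y : ℕ) => exists_ulim
      (fun m => U2 (m - l) l fun v => b (stoneCechUnit (e2 (w ++ v, y)))) 1
      fun m => U2_le _ _ _ fun v => hb _
    choose A hA using fun w => exists_ext (α w) (hα1 w)
    choose Bv hB using fun w => exists_ext (β w) (hβ1 w)
    refine ⟨⟨fun z => PP l 0 z.1 fun w => A w.1 z.2.1 * Bv w.2 z.2.2,
      PP_cont l 0 (fun (z : BN × BN) w => A w.1 z.1 * Bv w.2 z.2) fun w => by fun_prop⟩,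
      fun ⟨d, x, y⟩ => ?_⟩
    change |PP l 0 d (fun w => A w.1 (stoneCechUnit x) * Bv w.2 (stoneCechUnit y)) - _| ≤ ε
    simp only [hA, hB]
    have h1 := PP_tendsto d l 0 _ _ fun w : WW => (hα w.1 x).mul (hβ w.2 y)
    refine le_of_tendsto (h1.sub (hΦ (tn a b) (d, x, y))).abs
      (Nat.hyperfilter_le_atTop (eventually_atTop.2 ⟨l, fun m hm => ?_⟩))
    obtain ⟨m, rfl⟩ := Nat.exists_eq_add_of_le' hm
    dsimp only
    rw [PP_split, ← map_sub, Nat.add_sub_cancel]
    have h2 := PP_near d l 0 _ 0 ε fun w _ => show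
      |((fun w : WW => (U1 m l fun v => a (stoneCechUnit (e1 (w.1 ++ v, x)))) *
        U2 m l fun v => b (stoneCechUnit (e2 (w.2 ++ v, y)))) -
        fun w : WW => PP m (0 + l) d fun v => res (tn a b) x y (w.1 ++ v.1, w.2 ++ v.2)) w - 0| ≤ ε by
      rw [sub_zero, Pi.sub_apply, abs_sub_comm, zero_add]
      refine (PP_tail d m l (fun v => a (stoneCechUnit (e1 (w.1 ++ v, x))))
        (fun v => b (stoneCechUnit (e2 (w.2 ++ v, y)))) (fun _ => ha _) fun _ => hb _).trans ?_
      linarith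
    rwa [sub_zero] at h2
  have htn : ∀ a b : C(BN, ℝ), ∃ G : C(D × BN × BN, ℝ), ∀ w, G (j w) = Φ (tn a b) w :=
    fun a b => by
    have hn : ∀ a : C(BN, ℝ), ∀ z, |((‖a‖ + 1)⁻¹ • a) z| ≤ 1 := fun a z => by
      have h0 : 0 < ‖a‖ + 1 := by positivity
      rw [ContinuousMap.smul_apply, smul_eq_mul, abs_mul, abs_of_pos (inv_pos.2 h0),
        inv_mul_le_iff₀ h0]
      linarith [a.norm_coe_le_norm z, Real.norm_eq_abs (a z)]
    obtain ⟨G, hG⟩ := htn1 _ _ (hn a) (hn b)
    refine ⟨((‖a‖ + 1) * (‖b‖ + 1)) • G, fun w => ?_⟩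
    rw [ContinuousMap.smul_apply, smul_eq_mul, hG, ← hsmul]
    congr 1
    ext z
    have h0 : 0 < ‖a‖ + 1 := by positivity
    have h1 : 0 < ‖b‖ + 1 := by positivity
    simp only [tn, ContinuousMap.smul_apply, ContinuousMap.coe_mk, smul_eq_mul]
    field_simp
  have hsum : ∀ (n : ℕ) (a b : Fin n → C(BN, ℝ)) (s : Finset (Fin n)),
      ∃ G : C(D × BN × BN, ℝ), ∀ w, G (j w) = Φ (∑ i ∈ s, tn (a i) (b i)) w := fun n a b s => by
    induction s using Finset.induction_on with
    | empty =>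
      refine ⟨0, fun w => ?_⟩
      have := hsmul 0 0 w
      simpa using this.symm
    | insert i s hi ih =>
      obtain ⟨G, hG⟩ := ih
      obtain ⟨G', hG'⟩ := htn (a i) (b i)
      exact ⟨G' + G, fun w => by rw [Finset.sum_insert hi, hadd, ← hG, ← hG']; rfl⟩
  have hall : ∀ F, ∃ G : C(D × BN × BN, ℝ), ∀ w, G (j w) = Φ F w := fun F => by
    refine ext_of_approx hj _ fun ε hε => ?_
    obtain ⟨n, a, b, hab⟩ := ContinuousMap.exists_finite_sum_mul_approximation_of_mem_uniformity F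
      (Metric.dist_mem_uniformity hε)
    obtain ⟨G, hG⟩ := hsum n a b Finset.univ
    refine ⟨G, fun w => ?_⟩
    have h1 := hΦb (∑ i, tn (a i) (b i) + (-1 : ℝ) • F) ε (fun z => by
      have h2 : dist (F (z.1, z.2)) (∑ i, a i z.1 * b i z.2) < ε := hab z.1 z.2
      rw [dist_comm, Real.dist_eq] at h2
      refine le_of_eq_of_le (congrArg abs ?_) h2.le
      simp [tn, ContinuousMap.sum_apply, sub_eq_add_neg]) w
    rw [hadd, hsmul] at h1
    rw [hG]
    refine le_of_eq_of_le (congrArg abs (by ring)) h1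
  choose p hp using hall
  have huniq : ∀ G G' : C(D × BN × BN, ℝ), (∀ w, G (j w) = G' (j w)) → G = G' := fun G G' h =>
    ContinuousMap.ext fun z => hj.induction_on z (isClosed_eq G.continuous G'.continuous) h
  let pl : C(BN × BN, ℝ) →ₗ[ℝ] C(D × BN × BN, ℝ) :=
    { toFun := p
      map_add' := fun F G => huniq _ _ fun w => by
        rw [ContinuousMap.add_apply, hp, hp, hp, hadd]
      map_smul' := fun c F => huniq _ _ fun w => by
        rw [RingHom.id_apply, ContinuousMap.smul_apply, hp, hp, hsmul, smul_eq_mul] }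
  have hpl : ∀ F, ‖pl F‖ ≤ 1 * ‖F‖ := fun F => by
    rw [one_mul]
    refine (ContinuousMap.norm_le _ (norm_nonneg _)).2 fun z =>
      hj.induction_on z (isClosed_le (by fun_prop) continuous_const) fun w => ?_
    change |p F (j w)| ≤ _
    rw [hp]
    exact hΦb F _ F.norm_coe_le_norm w
  have c1 : ∀ n, Continuous fun (k : ℕ) (i : Fin (NN n)) => decide ((d1 k).1.getD n 0 = i) :=
    fun n => continuous_of_discreteTopology
  have c2 : ∀ n, Continuous fun (k : ℕ) (i : Fin (NN n)) => decide (i.1 ∈ (d2 k).1.getD n ∅) :=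
    fun n => continuous_of_discreteTopology
  have c3 : Continuous fun k : ℕ => stoneCechUnit (d1 k).2 := continuous_of_discreteTopology
  have c4 : Continuous fun k : ℕ => stoneCechUnit (d2 k).2 := continuous_of_discreteTopology
  let ψ : C(BN × BN, D × BN × BN) := ⟨fun z => (fun n => decide (∃ i,
      stoneCechExtend (c1 n) z.1 i = true ∧ stoneCechExtend (c2 n) z.2 i = true),
      stoneCechExtend c3 z.1, stoneCechExtend c4 z.2), by
    refine Continuous.prodMk (continuous_pi fun n => ?_)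
      (((continuous_stoneCechExtend c3).comp continuous_fst).prodMk
        ((continuous_stoneCechExtend c4).comp continuous_snd))
    exact (continuous_of_discreteTopology (f := fun t : (Fin (NN n) → Bool) × (Fin (NN n) → Bool) =>
      decide (∃ i, t.1 i = true ∧ t.2 i = true))).comp
      (((continuous_stoneCechExtend (c1 n)).comp continuous_fst).prodMk
        ((continuous_stoneCechExtend (c2 n)).comp continuous_snd))⟩
  refine ⟨pl.mkContinuous 1 hpl, pre ψ, fun f => huniq _ _ fun ⟨d, x, y⟩ => ?_, fun F hF z => ?_,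
    fun f hf z => hf _⟩
  · change p (f.comp ψ) _ = _
    rw [hp]
    refine tendsto_nhds_unique (hΦ _ _) (Tendsto.mono_left (Metric.tendsto_atTop.2 fun ε hε => ?_)
      Nat.hyperfilter_le_atTop)
    obtain ⟨N, hN⟩ := exists_osc (f.comp ⟨fun d' : D => (d', stoneCechUnit x, stoneCechUnit y),
      by fun_prop⟩) (half_pos hε)
    refine ⟨N, fun m hm => ?_⟩
    rw [Real.dist_eq]
    refine (PP_near d m 0 _ _ (ε / 2) fun w hw => ?_).trans_lt (half_lt_self hε)
    have e : ψ (stoneCechUnit (e1 (w.1, x)), stoneCechUnit (e2 (w.2, y))) =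
        ((ψ (stoneCechUnit (e1 (w.1, x)), stoneCechUnit (e2 (w.2, y)))).1,
          stoneCechUnit x, stoneCechUnit y) := by
      simp only [ψ, ContinuousMap.coe_mk, stoneCechExtend_stoneCechUnit, hd1, hd2]
    change |f (ψ (stoneCechUnit (e1 (w.1, x)), stoneCechUnit (e2 (w.2, y)))) - _| ≤ _
    rw [e]
    refine hN _ d fun k hk => ?_
    have h1 := hw k (hk.trans_le hm)
    rw [zero_add] at h1
    simp only [ψ, ContinuousMap.coe_mk, stoneCechExtend_stoneCechUnit, hd1, hd2, decide_eq_true_eq]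
    rw [Bool.eq_iff_iff, decide_eq_true_eq, ← h1.2]
    exact ⟨fun ⟨i, h2, h3⟩ => h2 ▸ h3, fun h => ⟨⟨_, h1.1⟩, rfl, h⟩⟩
  · refine hj.induction_on z (isClosed_le continuous_const (by fun_prop)) fun w => ?_
    change 0 ≤ p F (j w)
    rw [hp]
    exact ge_of_tendsto' (hΦ F w) fun m => PP_ge _ _ _ _ _ fun v _ => hF _

end Pool.Agent.H10.PosIso
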