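import Pool.Agent.H10.BetaN
import Pool.Agent.H10.BK

open Set Filter Topology

namespace Pool.Agent.H10.PosIso

section

variable {X Y Z : Type*} [TopologicalSpace X] [CompactSpace X] [T2Space X]
  [TopologicalSpace Y] [CompactSpace Y] [T2Space Y] [TopologicalSpace Z] [CompactSpace Z] [T2Space Z]

noncomputable def Cur' : C(Z × X, ℝ) ≃L[ℝ] C(Z, C(X, ℝ)) where
  toFun f := f.curry
  invFun g := g.uncurry
  map_add' _ _ := by ext; rfl
  map_smul' _ _ := by ext; rfl
  left_inv f := by ext x; rfl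
  right_inv g := by ext x y; rfl
  continuous_toFun := ContinuousMap.continuous_curry
  continuous_invFun := ContinuousMap.continuous_uncurry

lemma PC.tensor' (h : PC X Y) : PC (Z × X) (Z × Y) := by
  obtain ⟨p, i, hpi, hp, hi⟩ := h
  refine ⟨((Cur' (X := X) (Z := Z)).symm : _ →L[ℝ] _).comp ((p.compLeftContinuous ℝ Z).comp
      (Cur' (X := Y) (Z := Z) : _ →L[ℝ] _)),
    ((Cur' (X := Y) (Z := Z)).symm : _ →L[ℝ] _).comp ((i.compLeftContinuous ℝ Z).comp
      (Cur' (X := X) (Z := Z) : _ →L[ℝ] _)), fun b => ?_, fun f hf y => hp (Cur' f y.1) (fun x => hf _) y.2,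
    fun f hf y => hi (Cur' f y.1) (fun x => hf _) y.2⟩
  ext w
  change p (i (Cur' b w.1)) w.2 = b w
  rw [hpi]
  rfl

end

lemma pc_homeo {X Y : Type*} [TopologicalSpace X] [CompactSpace X] [TopologicalSpace Y]
    [CompactSpace Y] (e : X ≃ₜ Y) : PC X Y :=
  pc_retract (e : C(X, Y)) (e.symm : C(Y, X)) e.symm_apply_apply

lemma pc_beta' (K : Type*) [MetricSpace K] [CompactSpace K] [Nonempty K] :
    PC ((BN × BN) × D × K) (BN × BN) := by
  let _ : MetricSpace (D × K) := TopologicalSpace.metrizableSpaceMetric _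
  exact (((pc_miljutin (D × K)).tensor' (Z := BN × BN)).trans
    (pc_homeo (Homeomorph.prodComm _ _))).trans pc_beta

theorem iso_of_pc {K M : Type*} [TopologicalSpace K] [CompactSpace K] [T2Space K]
    [TopologicalSpace M] [CompactSpace M] [T2Space M] (h1 : PC (D × K) M) (h2 : PC (D × M) K) :
    Nonempty (C(K, ℝ) ≃L[ℝ] C(M, ℝ)) := by
  obtain ⟨T, -⟩ := (steps h2).1
  obtain ⟨S, -⟩ := (steps h1).2
  exact ⟨(T.trans (ContinuousLinearEquiv.prodComm ℝ _ _)).trans S⟩

theorem iso_omega : Nonempty (C(OnePoint ℕ × BN × BN, ℝ) ≃L[ℝ] C(BN × BN, ℝ)) := by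
  let _ : MetricSpace (OnePoint ℕ) := TopologicalSpace.metrizableSpaceMetric _
  refine iso_of_pc (PC.trans (pc_retract
    ⟨fun z : D × OnePoint ℕ × BN × BN => (z.2.2, z.1, z.2.1), by fun_prop⟩
    ⟨fun z : (BN × BN) × D × OnePoint ℕ => (z.2.1, z.2.2, z.1), by fun_prop⟩ fun _ => rfl)
    (pc_beta' (OnePoint ℕ))) (pc_beta.trans (pc_retract
    ⟨fun z => (OnePoint.infty, z), by fun_prop⟩ ⟨fun z => z.2, by fun_prop⟩ fun _ => rfl))

lemma pc_K (K₁ K₂ : Type*) [MetricSpace K₁] [CompactSpace K₁] [Nonempty K₁]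
    [TopologicalSpace K₂] [CompactSpace K₂] [Nonempty K₂] :
    PC (D × BN × BN × K₁) (BN × BN × K₂) :=
  (PC.trans (pc_retract
    ⟨fun z : D × BN × BN × K₁ => ((z.2.1, z.2.2.1), z.1, z.2.2.2), by fun_prop⟩
    ⟨fun z : (BN × BN) × D × K₁ => (z.2.1, z.1.1, z.1.2, z.2.2), by fun_prop⟩ fun _ => rfl)
    (pc_beta' K₁)).trans (pc_retract
    ⟨fun z => (z.1, z.2, Classical.arbitrary K₂), by fun_prop⟩
    ⟨fun z => (z.1, z.2.1), by fun_prop⟩ fun _ => rfl)

theorem iso_K (K₁ K₂ : Type*) [MetricSpace K₁] [CompactSpace K₁] [Nonempty K₁]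
    [MetricSpace K₂] [CompactSpace K₂] [Nonempty K₂] :
    Nonempty (C(BN × BN × K₁, ℝ) ≃L[ℝ] C(BN × BN × K₂, ℝ)) :=
  iso_of_pc (pc_K K₁ K₂) (pc_K K₂ K₁)

lemma sep_abs {E F : Type*} [NormedAddCommGroup E] [NormedSpace ℝ E] [NormedAddCommGroup F]
    [NormedSpace ℝ F] (T : E ≃L[ℝ] F) (u0 : E →L[ℝ] ℝ) (v0 : E) (u : ℕ → E →L[ℝ] ℝ) (v : ℕ → E)
    (hu : ∀ n f, |u n f| ≤ 2 * ‖f‖) (hs : ∀ f, HasSum (fun n => u n f • v n) (f - u0 f • v0))
    (hv : ∀ φ : E →L[ℝ] ℝ, Summable fun n => |φ (v n)|) {ι : Type*} (w : ι → F →L[ℝ] ℝ)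
    (hw : ∀ i j, i ≠ j → ∃ f, ‖f‖ ≤ 1 ∧ w i f - w j f = 1) : Countable ι := by
  have hsep := (((countable_range u).insert u0).isSeparable.span (R := ℝ)).closure
  have : TopologicalSpace.SeparableSpace (E →L[ℝ] ℝ) := by
    refine TopologicalSpace.isSeparable_univ_iff.1 (hsep.mono fun φ _ => ?_)
    have hsum2 : Summable fun n : ℕ => φ (v n) • u n :=
      Summable.of_norm_bounded ((hv φ).mul_right 2) fun n => by
        rw [norm_smul, Real.norm_eq_abs]
        exact mul_le_mul_of_nonneg_left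
          (ContinuousLinearMap.opNorm_le_bound _ zero_le_two (hu n)) (abs_nonneg _)
    have hφ : φ = φ v0 • u0 + ∑' n : ℕ, φ (v n) • u n := by
      ext f
      have h1 := φ.hasSum (hs f)
      have h2 := (ContinuousLinearMap.apply ℝ ℝ f).hasSum hsum2.hasSum
      have h3 : φ (f - u0 f • v0) = (∑' n : ℕ, φ (v n) • u n) f := by
        refine h1.unique ?_
        have h4 : (fun n : ℕ => φ (u n f • v n)) = fun n : ℕ =>
            (ContinuousLinearMap.apply ℝ ℝ f) (φ (v n) • u n) := by
          funext n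
          simp [mul_comm]
        rw [h4]
        exact h2
      rw [map_sub, map_smul] at h3
      rw [add_apply, ← h3]
      simp [mul_comm]
    rw [hφ]
    refine (Submodule.span ℝ (insert u0 (range u))).topologicalClosure.add_mem
      (subset_closure (Submodule.smul_mem _ _ (Submodule.subset_span (mem_insert _ _)))) ?_
    refine mem_closure_of_tendsto hsum2.hasSum (Eventually.of_forall fun s => ?_)
    exact Submodule.sum_mem _ fun n _ => Submodule.smul_mem _ _
      (Submodule.subset_span (mem_insert_of_mem _ (mem_range_self n)))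
  have h1 : TopologicalSpace.SeparableSpace (F →L[ℝ] ℝ) :=
    (T.arrowCongr (ContinuousLinearEquiv.refl ℝ ℝ)).surjective.denseRange.separableSpace
      (T.arrowCongr (ContinuousLinearEquiv.refl ℝ ℝ)).continuous
  have hd : Pairwise (Function.onFun Disjoint fun i => Metric.ball (w i) (1 / 2)) :=
    fun i j hne => by
    refine Metric.ball_disjoint_ball ?_
    obtain ⟨f, hf, h3⟩ := hw i j hne
    have h2 := (w i - w j).le_opNorm f
    rw [sub_apply, h3, norm_one] at h2
    rw [dist_eq_norm]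
    nlinarith [norm_nonneg (w i - w j)]
  exact hd.countable_of_isOpen_disjoint (fun _ => Metric.isOpen_ball)
    fun _ => Metric.nonempty_ball.2 (by norm_num)

theorem not_iso : ¬ Nonempty (C(OnePoint ℕ, ℝ) ≃L[ℝ] C(D, ℝ)) := by
  classical
  rintro ⟨T⟩
  let e : ℕ → C(OnePoint ℕ, ℝ) := fun n => ⟨fun x => if x = (n : OnePoint ℕ) then 1 else 0, by
    rw [OnePoint.continuous_iff_from_nat, if_neg (OnePoint.infty_ne_coe n)]
    refine tendsto_const_nhds.congr' (eventually_atTop.2 ⟨n + 1, fun m hm => ?_⟩)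
    exact (if_neg fun h => by have := OnePoint.coe_injective h; omega).symm⟩
  have he : ∀ n x, e n x = if x = (n : OnePoint ℕ) then 1 else 0 := fun _ _ => rfl
  have hs : ∀ f : C(OnePoint ℕ, ℝ), HasSum (fun n : ℕ => (f n - f OnePoint.infty) • e n)
      (f - f OnePoint.infty • 1) := fun f => by
    have h1 : Tendsto (fun n : ℕ => f n) atTop (𝓝 (f OnePoint.infty)) :=
      (OnePoint.continuous_iff_from_nat _).1 f.continuous
    refine Metric.tendsto_nhds.2 fun ε hε => ?_
    obtain ⟨N, hN⟩ := Metric.tendsto_atTop.1 h1 (ε / 2) (half_pos hε)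
    refine eventually_atTop.2 ⟨Finset.range N, fun s hs => ?_⟩
    refine ((ContinuousMap.dist_le (half_pos hε).le).2 fun x => ?_).trans_lt (half_lt_self hε)
    simp only [ContinuousMap.sum_apply, ContinuousMap.smul_apply, he, smul_eq_mul,
      ContinuousMap.sub_apply, ContinuousMap.one_apply, mul_one]
    cases x using OnePoint.rec with
    | infty => simp [hε.le, (half_pos hε).le]
    | coe k =>
      simp only [OnePoint.coe_eq_coe, mul_ite, mul_one, mul_zero, Finset.sum_ite_eq]
      split_ifs with hk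
      · simpa using (half_pos hε).le
      · have hkN : N ≤ k := by
          by_contra h
          exact hk (hs (Finset.mem_range.2 (not_le.1 h)))
        have := hN k hkN
        rw [dist_zero_left, Real.norm_eq_abs]
        exact this.le
  have hD : ¬ Countable (ℕ → Bool) := by
    rw [← Cardinal.mk_le_aleph0_iff, not_le]
    simp [Cardinal.aleph0_lt_continuum]
  have hc : Countable D := by
    refine sep_abs T (ContinuousMap.evalCLM ℝ OnePoint.infty) 1
      (fun n => ContinuousMap.evalCLM ℝ (n : OnePoint ℕ) - ContinuousMap.evalCLM ℝ OnePoint.infty)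
      e (fun n f => ?_) (fun f => ?_) (fun φ => ?_) (fun d => ContinuousMap.evalCLM ℝ d) fun d d' hne => ?_
    · simp only [sub_apply, ContinuousMap.evalCLM_apply]
      have h1 : |f n| ≤ ‖f‖ := f.norm_coe_le_norm _
      have h2 : |f OnePoint.infty| ≤ ‖f‖ := f.norm_coe_le_norm _
      linarith [abs_sub (f n) (f OnePoint.infty)]
    · simp only [sub_apply, ContinuousMap.evalCLM_apply]
      exact hs f
    · let φ' : C(OnePoint ℕ, ℝ) →L[ℝ] C(Unit, ℝ) := (ContinuousLinearMap.const ℝ Unit).comp φ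
      refine summable_of_sum_le (c := ‖φ'‖) (fun n => abs_nonneg _) fun s => ?_
      have h1 : ∀ n, φ (e n) = φ' (e n) () := fun _ => rfl
      simp only [h1]
      refine BK.sum_abs_le φ' s e (fun x => ?_) ()
      cases x using OnePoint.rec with
      | infty => simp [he]
      | coe k =>
        simp only [he, OnePoint.coe_eq_coe, apply_ite abs, abs_one, abs_zero, Finset.sum_ite_eq]
        split_ifs <;> simp
    · obtain ⟨n, hn⟩ := Function.ne_iff.1 hne
      refine ⟨⟨fun x => if x n = d n then 1 else 0,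
        (continuous_of_discreteTopology (f := fun b => if b = d n then (1 : ℝ) else 0)).comp
          (continuous_apply n)⟩, (ContinuousMap.norm_le _ zero_le_one).2 fun x => ?_, ?_⟩
      · change ‖if x n = d n then (1 : ℝ) else 0‖ ≤ 1
        split_ifs <;> simp
      · change (if d n = d n then (1 : ℝ) else 0) - (if d' n = d n then 1 else 0) = 1
        rw [if_pos rfl, if_neg hn.symm, sub_zero]
  exact hD hc

end Pool.Agent.H10.PosIso
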