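import Mathlib

namespace Pool.Agent.H10.Bing
open Set Filter Topology Uniformity

theorem closed_ex {P Z : Type} [TopologicalSpace P] [TopologicalSpace Z] [CompactSpace Z]
    {s : P → Z → Prop} (h : IsClosed {q : P × Z | s q.1 q.2}) : IsClosed {p | ∃ z, s p z} := by
  convert isClosedMap_fst_of_compactSpace _ h using 1
  ext p; simp

theorem bing0 {X Y ρ : Type} [MetricSpace X] [CompactSpace X] [MetricSpace Y] [CompactSpace Y]
    (A : ρ → Set X) (B : ρ → Set Y) (hA : ∀ r, IsClosed (A r)) (hB : ∀ r, IsClosed (B r))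
    (π : C(X, Y)) (hπ : ∀ r, π '' A r = B r)
    (h : ∀ ε > 0, ∃ g : X ≃ₜ X, (∀ r x, g x ∈ A r ↔ x ∈ A r) ∧ (∀ x, dist (π (g x)) (π x) < ε) ∧
      ∀ x x', π x = π x' → dist (g x) (g x') < ε) :
    ∃ p : C(X, Y), Function.Injective p ∧ ∀ r, p '' A r = B r := by
  let W : Set C(X, Y) := {p | ∃ g : X ≃ₜ X, (∀ r x, g x ∈ A r ↔ x ∈ A r) ∧ ∀ x, p (g x) = π x}
  have h1 : closure W ⊆ {p | ∀ r, p '' A r = B r} := by
    refine closure_minimal ?_ ?_
    · rintro p ⟨g, g1, g2⟩ r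
      rw [← hπ]
      ext y
      constructor
      · rintro ⟨x, hx, rfl⟩
        obtain ⟨x, rfl⟩ := g.surjective x
        exact ⟨x, (g1 r x).1 hx, (g2 x).symm⟩
      · rintro ⟨x, hx, rfl⟩
        exact ⟨g x, (g1 r x).2 hx, g2 x⟩
    · have : {p : C(X, Y) | ∀ r, p '' A r = B r} = ⋂ r, (⋂ x ∈ A r, {p : C(X, Y) | p x ∈ B r}) ∩
          ⋂ y ∈ B r, {p : C(X, Y) | ∃ x, x ∈ A r ∧ p x = y} := by
        ext p
        simp only [mem_iInter, mem_inter_iff, mem_ofPred_eq, Subset.antisymm_iff, image_subset_iff]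
        rfl
      rw [this]
      refine isClosed_iInter fun r => IsClosed.inter (isClosed_biInter fun x _ => ?_)
        (isClosed_biInter fun y _ => closed_ex (IsClosed.inter ?_ ?_))
      · exact (hB r).preimage (continuous_eval_const x)
      · exact (hA r).preimage continuous_snd
      · exact isClosed_eq continuous_eval continuous_const
  haveI : CompleteSpace (closure W) := isClosed_closure.completeSpace_coe
  let U : ℕ → Set (closure W) := fun n =>
    {p | ∃ z : X × X, 1 / ((n : ℝ) + 1) ≤ dist z.1 z.2 ∧ p.1 z.1 = p.1 z.2}ᶜ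
  have h2 : ∀ n, IsOpen (U n) := fun n => by
    refine isOpen_compl_iff.2 (closed_ex ?_)
    simp only [setOf_and]
    exact (isClosed_le (by fun_prop) (by fun_prop)).inter (isClosed_eq (by fun_prop) (by fun_prop))
  have h3 : ∀ n, Dense (U n) := fun n p => by
    rw [Metric.mem_closure_iff]
    intro η hη
    obtain ⟨q, ⟨g, g1, g2⟩, hq⟩ := Metric.mem_closure_iff.1 p.2 (η / 2) (by positivity)
    obtain ⟨δ, hδ, hg⟩ := Metric.uniformContinuous_iff.1
      (CompactSpace.uniformContinuous_of_continuous g.continuous) (1 / ((n : ℝ) + 1))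
      (by positivity)
    obtain ⟨k, k1, k2, k3⟩ := h (min δ (η / 2)) (by positivity)
    let q' : C(X, Y) := π.comp ⟨(k.trans g).symm, (k.trans g).symm.continuous⟩
    have e1 : ∀ x, q' (g (k x)) = π x := fun x => by simp [q']
    refine ⟨⟨q', subset_closure ⟨k.trans g, fun r x => (g1 r _).trans (k1 r x), e1⟩⟩, ?_, ?_⟩
    · rintro ⟨⟨x, x'⟩, a1, a2⟩
      obtain ⟨x, rfl⟩ := (k.trans g).surjective x
      obtain ⟨x', rfl⟩ := (k.trans g).surjective x'
      exact a1.not_gt (hg ((k3 x x' ((e1 x).symm.trans (a2.trans (e1 x')))).trans_le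
        (min_le_left _ _)))
    · have : dist q q' < η / 2 := by
        rw [ContinuousMap.dist_lt_iff (by positivity)]
        intro x
        obtain ⟨x, rfl⟩ := (k.trans g).surjective x
        change dist (q (g (k x))) (q' (g (k x))) < _
        rw [g2, e1]
        exact (k2 x).trans_le (min_le_right _ _)
      change dist p.1 q' < η
      linarith [dist_triangle p.1 q q']
  haveI : Nonempty (closure W) := ⟨⟨π, subset_closure ⟨Homeomorph.refl X, by simp, by simp⟩⟩⟩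
  obtain ⟨p, hp⟩ := (dense_iInter_of_isOpen h2 h3).nonempty
  refine ⟨p.1, fun x x' e => ?_, h1 p.2⟩
  by_contra hne
  obtain ⟨n, hn⟩ := exists_nat_one_div_lt (dist_pos.2 hne)
  exact mem_iInter.1 hp n ⟨(x, x'), hn.le, e⟩

theorem bing {X Y ρ : Type} [UniformSpace X] [CompactSpace X] [UniformSpace Y] [CompactSpace Y]
    [T0Space X] [T0Space Y] [IsCountablyGenerated (𝓤 X)] [IsCountablyGenerated (𝓤 Y)]
    (A : ρ → Set X) (B : ρ → Set Y) (hA : ∀ r, IsClosed (A r)) (hB : ∀ r, IsClosed (B r))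
    (π : C(X, Y)) (hπ : ∀ r, π '' A r = B r)
    (h : ∀ U ∈ 𝓤 Y, ∀ V ∈ 𝓤 X, ∃ g : X ≃ₜ X, (∀ r x, g x ∈ A r ↔ x ∈ A r) ∧
      (∀ x, (π (g x), π x) ∈ U) ∧ ∀ x x', π x = π x' → (g x, g x') ∈ V) :
    ∃ p : C(X, Y), Function.Injective p ∧ ∀ r, p '' A r = B r := by
  letI := UniformSpace.metricSpace X
  letI := UniformSpace.metricSpace Y
  exact bing0 A B hA hB π hπ fun ε hε =>
    h _ (Metric.dist_mem_uniformity hε) _ (Metric.dist_mem_uniformity hε)

theorem pi_unif {ι : Type} {U : Set ((ι → ℝ) × (ι → ℝ))} (hU : U ∈ 𝓤 (ι → ℝ)) :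
    ∃ (F : Set ι) (δ : ℝ), F.Finite ∧ 0 < δ ∧ ∀ x y, (∀ i ∈ F, |x i - y i| < δ) → (x, y) ∈ U := by
  rw [Pi.uniformity] at hU
  refine Filter.iInf_sets_induct hU ⟨∅, 1, finite_empty, one_pos, fun _ _ _ => trivial⟩ ?_
  rintro i s t ⟨s', hs, h1⟩ ⟨F, δ, hF, hδ, h⟩
  obtain ⟨ε, hε, h2⟩ := Metric.mem_uniformity_dist.1 hs
  exact ⟨insert i F, min δ ε, hF.insert i, lt_min hδ hε, fun x y h3 =>
    ⟨h1 (h2 ((h3 i (mem_insert _ _)).trans_le (min_le_right _ _))),
      h x y fun j hj => (h3 j (mem_insert_of_mem _ hj)).trans_le (min_le_left _ _)⟩⟩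

end Pool.Agent.H10.Bing
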