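import Mathlib

namespace Pool.Agent.H10.Boom
open Matrix

abbrev V : Type := Fin 3 → ℚ
abbrev G : Type := SpecialLinearGroup (Fin 3) ℚ

/-- underlying matrix -/
def m : G →* Matrix (Fin 3) (Fin 3) ℚ := SpecialLinearGroup.coeMonoidHom

theorem inj {x y : G} (h : m x = m y) : x = y := Subtype.ext h
theorem mt {i j : Fin 3} (h : i ≠ j) (q : ℚ) :
    m (SpecialLinearGroup.transvection h q) = 1 + single i j q := rfl
theorem md {i j : Fin 3} (h : i ≠ j) (a : ℚ) (ha : a ≠ 0) : m (SpecialLinearGroup.diag2n h a ha) =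
    diagonal fun k => if k = i then a else if k = j then a⁻¹ else 1 := rfl

theorem par {a b : V} (hb : b ≠ 0) (h : ∀ g : V, g ⬝ᵥ b = 0 → g ⬝ᵥ a = 0) : ∃ s : ℚ, a = s • b := by
  obtain ⟨i, hi⟩ := Function.ne_iff.1 hb
  refine ⟨a i / b i, funext fun j => ?_⟩
  have := h (Pi.single j (b i) - Pi.single i (b j)) (by simp [mul_comm])
  simp at this hi ⊢
  field_simp
  linarith

theorem ex (g h : V) : ∃ c : V, c ≠ 0 ∧ g ⬝ᵥ c = 0 ∧ h ⬝ᵥ c = 0 := by
  obtain ⟨c, c0, hc⟩ := Matrix.exists_mulVec_eq_zero_iff.2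
    (det_eq_zero_of_row_eq_zero (A := of ![g, h, 0]) 2 fun _ => rfl)
  exact ⟨c, c0, congrFun hc 0, congrFun hc 1⟩

theorem inv {x : G} {a g : V} (h : g ⬝ᵥ a = 0) (e : m x = 1 + vecMulVec a g) :
    m x⁻¹ = 1 - vecMulVec a g := by
  have : m x * (1 - vecMulVec a g) = 1 := by
    simp [e, mul_sub, add_mul, vecMulVec_mul_vecMulVec, h]
  have := congrArg (m x⁻¹ * ·) this
  simpa [← mul_assoc, ← map_mul] using this.symm

variable {Δ : Subgroup G} (H : ∀ γ : G, ∀ δ ∈ Δ, ∃ n : ℕ, n ≠ 0 ∧ γ ^ n * δ * (γ ^ n)⁻¹ ∈ Δ)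
include H

theorem key {a g : V} (h : g ⬝ᵥ a = 0) {δ : G} (hδ : δ ∈ Δ) : ∃ n : ℚ, n ≠ 0 ∧ ∃ x ∈ Δ,
    m x = (1 + vecMulVec (n • a) g) * (1 - vecMulVec (m δ *ᵥ (n • a)) (g ᵥ* m δ⁻¹)) ∧
    (x = 1 → Commute (vecMulVec a g) (m δ)) := by
  let t : G := ⟨1 + vecMulVec a g, by
    rw [vecMulVec_eq Unit, det_one_add_replicateCol_mul_replicateRow, h, add_zero]⟩
  have e : ∀ n : ℕ, m (t ^ n) = 1 + vecMulVec ((n : ℚ) • a) g := fun n => by
    induction n with
    | zero => simp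
    | succ n ih =>
      rw [pow_succ, map_mul, ih, show m t = 1 + vecMulVec a g from rfl]
      simp [mul_add, add_mul, vecMulVec_mul_vecMulVec, h, add_smul, add_vecMulVec, add_assoc]
  obtain ⟨n, n0, hn⟩ := H t δ hδ
  refine ⟨n, by simpa, _, mul_mem hn (inv_mem hδ), ?_, fun h1 => ?_⟩
  · simp only [map_mul, mul_assoc]
    rw [inv (by simp [h]) (e n), e, sub_mul, mul_sub (m δ), one_mul, ← map_mul,
      mul_inv_cancel, vecMulVec_mul, mul_vecMulVec, map_one]
  · have := congrArg m (mul_inv_eq_iff_eq_mul.1 (mul_inv_eq_one.1 h1))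
    simp only [map_mul, e, add_mul, mul_add, one_mul, mul_one, add_right_inj,
      smul_vecMulVec, smul_mul_assoc, mul_smul_comm] at this
    exact smul_right_injective _ (Nat.cast_ne_zero.2 n0 : (n : ℚ) ≠ 0) this

/-- a transvection in the subgroup -/
def R (Δ : Subgroup G) (a g : V) : Prop :=
  a ≠ 0 ∧ g ≠ 0 ∧ g ⬝ᵥ a = 0 ∧ ∃ s : ℚ, s ≠ 0 ∧ ∃ x ∈ Δ, m x = 1 + vecMulVec (s • a) g

theorem start (h : Δ ≠ ⊥) : ∃ a g, R Δ a g := by
  obtain ⟨⟨δ, hδ⟩, d1⟩ := Subgroup.ne_bot_iff_exists_ne_one.1 h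
  obtain ⟨x, hx, x1, c, c0, hc⟩ : ∃ x ∈ Δ, x ≠ 1 ∧ ∃ c : V, c ≠ 0 ∧ m x *ᵥ c = c := by
    by_contra hn
    push Not at hn
    obtain ⟨s, hs⟩ := mem_range_scalar_of_commute_single (M := m δ) fun i j hij => by
      obtain ⟨n, -, x, hx, e, k⟩ := key H (a := Pi.single i 1) (g := Pi.single j 1)
        (by simp [Pi.single_apply, hij]) hδ
      obtain ⟨c, c0, c1, c2⟩ := ex (Pi.single j 1) (Pi.single j 1 ᵥ* m δ⁻¹)
      rw [single_eq_single_vecMulVec_single]
      refine k (by_contra fun x1 => hn x hx x1 c c0 ?_)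
      rw [e, ← mulVec_mulVec]
      simp only [sub_mulVec, add_mulVec, vecMulVec_mulVec, c1, c2, one_mulVec,
        MulOpposite.op_zero, zero_smul, sub_zero, add_zero]
    have : det (m δ) = 1 := δ.2
    rw [← hs] at this
    simp at this
    obtain rfl : s = 1 := (Odd.strictMono_pow (by decide : Odd 3)).injective (by simpa)
    exact d1 (Subtype.ext (inj (by rw [← hs, map_one, OneMemClass.coe_one, map_one])))
  have c1 : m x⁻¹ *ᵥ c = c := by
    conv_lhs => rw [← hc, mulVec_mulVec, ← map_mul, inv_mul_cancel]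
    simp
  by_cases h : ∀ g : V, g ⬝ᵥ c = 0 → g ᵥ* m x⁻¹ = g
  · choose s hs using fun j => par (a := (m x⁻¹ - 1) *ᵥ Pi.single j 1) c0 fun g hg => by
      rw [dotProduct_mulVec, vecMul_sub, h g hg]; simp
    have e : m x⁻¹ = 1 + vecMulVec c s := by
      ext i j
      have := congrFun (hs j) i
      simp [vecMulVec_apply] at this ⊢
      linarith
    refine ⟨c, s, c0, fun s0 => x1 (inv_eq_one.1 (inj ?_)), ?_, 1, one_ne_zero, _,
      inv_mem hx, by rw [e, one_smul]⟩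
    · rw [e, s0]; simp
    · simpa [e, add_mulVec, vecMulVec_mulVec, c0] using c1
  push Not at h
  obtain ⟨g, g0, g1⟩ := h
  obtain ⟨n, n0, y, hy, e, -⟩ := key H g0 hx
  refine ⟨c, g - g ᵥ* m x⁻¹, c0, sub_ne_zero.2 g1.symm, ?_, n, n0, y, hy, ?_⟩
  · rw [sub_dotProduct, ← dotProduct_mulVec, c1, sub_self]
  · rw [e, mulVec_smul, hc]
    simp [mul_sub, add_mul, vecMulVec_mul_vecMulVec, g0, vecMulVec_sub, add_sub_assoc]

theorem mv1 {a b g : V} (r : R Δ a g) (b0 : b ≠ 0) (hb : g ⬝ᵥ b = 0) : R Δ b g := by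
  obtain ⟨a0, g0, ha, s, s0, x, hx, e⟩ := r
  refine ⟨b0, g0, hb, ?_⟩
  by_cases h : ∀ h : V, h ⬝ᵥ b = 0 → h ⬝ᵥ a = 0
  · obtain ⟨r, rfl⟩ := par b0 h
    exact ⟨s * r, mul_ne_zero s0 (left_ne_zero_of_smul a0), x, hx, by rw [e, mul_smul]⟩
  push Not at h
  obtain ⟨h, h0, h1⟩ := h
  obtain ⟨n, n0, y, hy, e', -⟩ := key H h0 hx
  refine ⟨n * (s * h ⬝ᵥ a), by positivity, y, hy, ?_⟩
  rw [e', inv (by simp [ha]) e, e]
  simp [mul_sub, add_mul, vecMulVec_mul_vecMulVec, vecMulVec_sub, add_mulVec, vecMulVec_mulVec,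
    vecMul_sub, vecMul_vecMulVec, h0, hb, mul_smul, -smul_vecMulVec]
  simp only [smul_vecMulVec]
  module

theorem mv2 {a g h : V} (r : R Δ a g) (h0 : h ≠ 0) (hh : h ⬝ᵥ a = 0) : R Δ a h := by
  obtain ⟨a0, g0, ha, s, s0, x, hx, e⟩ := r
  refine ⟨a0, h0, hh, ?_⟩
  by_cases k : ∀ b : V, b ⬝ᵥ h = 0 → b ⬝ᵥ g = 0
  · obtain ⟨r, rfl⟩ := par h0 k
    exact ⟨r * s, mul_ne_zero (left_ne_zero_of_smul g0) s0, x, hx, by simp [e, mul_smul]⟩
  push Not at k
  obtain ⟨b, b0, b1⟩ := k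
  rw [dotProduct_comm] at b0 b1
  obtain ⟨n, n0, y, hy, e', -⟩ := key H b0 hx
  refine ⟨-(n * g ⬝ᵥ b * s), neg_ne_zero.2 (by positivity), y, hy, ?_⟩
  rw [e', inv (by simp [ha]) e, e]
  simp [mul_sub, add_mul, vecMulVec_mul_vecMulVec, add_vecMulVec, add_mulVec, vecMulVec_mulVec,
    vecMul_sub, vecMul_vecMulVec, b0, hh, mul_smul, mul_add, -smul_vecMulVec]
  simp only [smul_vecMulVec, neg_vecMulVec]
  module

theorem top (h : Δ ≠ ⊥) : Δ = ⊤ := by
  obtain ⟨a, g, r⟩ := start H h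
  have t : ∀ (i j : Fin 3) (hij : i ≠ j) (q : ℚ), SpecialLinearGroup.transvection hij q ∈ Δ :=
    fun i j hij q => by
    obtain ⟨b, b0, b1, b2⟩ := ex g (Pi.single j 1)
    obtain ⟨-, -, -, s, s0, x, hx, e⟩ := mv1 H (mv2 H (mv1 H r b0 b1) (by simp) b2)
      (b := Pi.single i 1) (by simp) (by simp [Pi.single_apply, hij])
    obtain rfl : x = SpecialLinearGroup.transvection hij s := inj (by
      rw [e, mt, smul_vecMulVec,
        ← single_eq_single_vecMulVec_single]; simp)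
    obtain ⟨k, ki, kj⟩ : ∃ k, i ≠ k ∧ j ≠ k := (by decide : ∀ i j : Fin 3, ∃ k, i ≠ k ∧ j ≠ k) i j
    have d0 : ((q / s).den : ℚ) ≠ 0 := by simp
    obtain ⟨n, n0, hn⟩ := H (SpecialLinearGroup.diag2n ki _ (inv_ne_zero d0)) _ hx
    have c : ∀ n : ℕ, SpecialLinearGroup.diag2n ki _ (inv_ne_zero d0) ^ n *
        SpecialLinearGroup.transvection hij s = SpecialLinearGroup.transvection hij
        (s / (q / s).den ^ n) * SpecialLinearGroup.diag2n ki _ (inv_ne_zero d0) ^ n := fun n => by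
      induction n with
      | zero => simp
      | succ n ih =>
        rw [pow_succ', mul_assoc, ih, ← mul_assoc, ← mul_assoc]
        congr 1
        refine inj (Matrix.ext fun u v => ?_)
        simp only [map_mul, md, mt, diagonal_mul, mul_diagonal, Matrix.add_apply, one_apply,
          single_apply]
        by_cases h : i = u ∧ j = v
        · obtain ⟨rfl, rfl⟩ := h
          simp [hij, hij.symm, kj]; field_simp; ring
        · rw [if_neg h, if_neg h]
          by_cases h' : u = v <;> simp [h']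
    rw [c, mul_inv_cancel_right] at hn
    have z : ∀ (m : ℤ) (s : ℚ), SpecialLinearGroup.transvection hij (m * s) =
        SpecialLinearGroup.transvection hij s ^ m := fun m s => by
      induction m with
      | zero => simp
      | succ m ih =>
        push_cast at *
        rw [add_one_mul, SpecialLinearGroup.transvection_add, ih, _root_.zpow_add_one]
      | pred m ih =>
        push_cast at *
        rw [sub_one_mul, sub_eq_add_neg, SpecialLinearGroup.transvection_add, ih,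
          _root_.zpow_sub_one,
          SpecialLinearGroup.transvection_inv]
    obtain ⟨n, rfl⟩ := Nat.exists_eq_succ_of_ne_zero n0
    have := zpow_mem hn ((q / s).num * (q / s).den ^ n)
    rw [← z] at this
    convert this
    have := Rat.num_div_den (q / s)
    push_cast
    field_simp at this ⊢
    rw [pow_succ]; linear_combination -(q / s).den ^ n * this
  refine eq_top_iff.2 fun M _ => SpecialLinearGroup.diagonal_transvection_induction' (· ∈ Δ) M
    (fun i j hij c hc => ?_) t fun _ _ => mul_mem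
  convert mul_mem (mul_mem (mul_mem (t i j hij c) (t j i hij.symm (-c⁻¹))) (t i j hij c))
    (mul_mem (mul_mem (t i j hij (-1)) (t j i hij.symm 1)) (t i j hij (-1)))
  refine inj (Matrix.ext fun u v => ?_)
  simp only [map_mul, md, mt]
  fin_cases i <;> fin_cases j <;> simp at hij <;> fin_cases u <;> fin_cases v <;>
    simp [mul_apply, Fin.sum_univ_three, one_apply, single_apply, hc]

end Pool.Agent.H10.Boom
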