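import Pool.Agent.H10.ClDefs

namespace Pool.Agent.H10.ClDefs
open Set

theorem Emb.trans {L K M : Type} [PartialOrder L] [PartialOrder K] [PartialOrder M]
    (h : Emb L K) (k : Emb K M) : Emb L M := by
  obtain ⟨φ, a, b⟩ := h
  obtain ⟨ψ, c, d⟩ := k
  exact ⟨ψ ∘ φ, c.comp a, fun x y z => ⟨fun e => (d _ _ _).1 ((b x y z).1 e),
    fun e => (d _ _ _).2 ((b x y z).2 e)⟩⟩

theorem mk_emb {L K : Type} [PartialOrder L] [PartialOrder K] (φ : L → K)
    (mono : ∀ a b, φ a ≤ φ b ↔ a ≤ b)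
    (meet : ∀ a b, ∃ c, c ≤ a ∧ c ≤ b ∧ ∀ G, G ≤ φ a → G ≤ φ b → G ≤ φ c)
    (adj : ∀ G a, φ a ≤ G → ∃ ψ, ∀ a, φ a ≤ G ↔ a ≤ ψ) : Emb L K := by
  refine ⟨φ, fun a b e => ((mono _ _).1 e.le).antisymm ((mono _ _).1 e.ge), fun a b c =>
    ⟨fun h => ⟨?_, fun G hG => ?_⟩, fun h => ⟨?_, fun G hG => ?_⟩⟩⟩
  · rintro _ (rfl | rfl)
    exacts [(mono _ _).2 (h.1 (.inl rfl)), (mono _ _).2 (h.1 (.inr rfl))]
  · obtain ⟨d, d1, d2, d3⟩ := meet a b
    refine (d3 G (hG (.inl rfl)) (hG (.inr rfl))).trans ((mono _ _).2 (h.2 ?_))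
    rintro _ (rfl | rfl) <;> assumption
  · rintro _ (rfl | rfl)
    exacts [(mono _ _).2 (h.1 (.inl rfl)), (mono _ _).2 (h.1 (.inr rfl))]
  · obtain ⟨ψ, k⟩ := adj G a (hG (.inl rfl))
    refine (k c).2 (h.2 ?_)
    rintro _ (rfl | rfl)
    exacts [(k _).1 (hG (.inl rfl)), (k _).1 (hG (.inr rfl))]

theorem closed_iff {A X : Type} {S : Set (A → X)} : @IsClosed _ (ptw A X) S ↔
    ∀ g : A → X, (∀ F : Finset A, ∃ h ∈ S, ∀ x ∈ F, h x = g x) → g ∈ S := by
  letI : TopologicalSpace X := ⊥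
  haveI := discreteTopology_bot X
  refine ⟨fun h g k => h.closure_subset (mem_closure_iff_nhds.2 fun t ht => ?_), fun h =>
    isOpen_compl_iff.1 (isOpen_iff_mem_nhds.2 fun g hg => ?_)⟩
  · rw [nhds_pi, Filter.mem_pi'] at ht
    obtain ⟨I, s, s1, s2⟩ := ht
    obtain ⟨f, f1, f2⟩ := k I
    exact ⟨f, s2 fun i hi => f2 i hi ▸ mem_of_mem_nhds (s1 i), f1⟩
  · have := mt (h g) hg
    push Not at this
    obtain ⟨F, hF⟩ := this
    have : ∀ᶠ f in nhds g, ∀ x ∈ F, f x = g x := (Filter.eventually_all_finset F).2 fun x _ =>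
      ((continuous_apply x).tendsto g).eventually (p := fun y => y = g x)
        ((isOpen_discrete {g x}).mem_nhds rfl)
    refine Filter.mem_of_superset this fun f hf k => ?_
    obtain ⟨x, hx, e⟩ := hF f k
    exact e (hf x hx)

theorem closedG_iff {X : Type} {S : Set (Equiv.Perm X)} : @IsClosed (Equiv.Perm X)
    (TopologicalSpace.induced (fun σ : Equiv.Perm X => (σ : X → X)) (ptw X X)) S ↔
    ∀ g : Equiv.Perm X, (∀ F : Finset X, ∃ h ∈ S, ∀ x ∈ F, h x = g x) → g ∈ S := by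
  rw [@isClosed_induced_iff _ _ (ptw X X)]
  constructor
  · rintro ⟨t, ht, rfl⟩ g k
    exact closed_iff.1 ht g fun F => let ⟨h, a, b⟩ := k F; ⟨h, a, b⟩
  · intro h
    refine ⟨{g | ∀ F : Finset X, ∃ h ∈ S, ∀ x ∈ F, h x = g x}, closed_iff.2 fun g k F => ?_,
      Set.ext fun g => ⟨h g, fun k F => ⟨g, k, fun _ _ => rfl⟩⟩⟩
    obtain ⟨f, f1, f2⟩ := k F
    obtain ⟨u, u1, u2⟩ := f1 F
    exact ⟨u, u1, fun x hx => (u2 x hx).trans (f2 x hx)⟩

variable {X : Type} (i : Option (Σ n : ℕ, Fin (n + 1) → X) ↪ X)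

def enc (n : ℕ) (x : Fin (n + 1) → X) : X := i (some ⟨n, x⟩)

theorem enc_inj (n : ℕ) : Function.Injective (enc i n) := fun x y e => by
  simpa [enc] using e

theorem enc_eq {n m : ℕ} {x y} (e : enc i n x = enc i m y) : n = m := by
  simp [enc] at e
  exact e.1

theorem enc_ne {n : ℕ} {x} : enc i n x ≠ i none := by simp [enc]

noncomputable def hat {n m : ℕ} (f : (Fin (n + 1) → X) → Fin (m + 1) → X) : Function.End X :=
  Function.extend (enc i n) (enc i m ∘ f) fun _ => i none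

theorem hat_enc {n m : ℕ} (f : (Fin (n + 1) → X) → Fin (m + 1) → X) (x) :
    hat i f (enc i n x) = enc i m (f x) := (enc_inj i n).extend_apply _ _ _

theorem hat_out {n m : ℕ} (f : (Fin (n + 1) → X) → Fin (m + 1) → X) {y} (h : ¬ ∃ x, enc i n x = y) :
    hat i f y = i none := Function.extend_apply' _ _ _ h

theorem hat_mul {n m k : ℕ} (f : (Fin (n + 1) → X) → Fin (m + 1) → X)
    (g : (Fin (m + 1) → X) → Fin (k + 1) → X) : hat i g * hat i f = hat i (g ∘ f) := funext fun y => by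
  show hat i g (hat i f y) = _
  by_cases h : ∃ x, enc i n x = y
  · obtain ⟨x, rfl⟩ := h
    rw [hat_enc, hat_enc, hat_enc]; rfl
  · rw [hat_out i f h, hat_out i _ h, hat_out i g fun ⟨x, e⟩ => enc_ne i e]

theorem hat_at {n m n' m' : ℕ} {f : (Fin (n' + 1) → X) → Fin (m' + 1) → X} {x z}
    (e : hat i f (enc i n x) = enc i m z) : n' = n ∧ m' = m := by
  by_cases h : ∃ y, enc i n' y = enc i n x
  · obtain ⟨y, h⟩ := h
    rw [← h, hat_enc] at e
    exact ⟨enc_eq i h, enc_eq i e⟩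
  · rw [hat_out i f h] at e
    exact (enc_ne i e.symm).elim

def Mc (C : Cl X) : Set (Function.End X) := {φ | φ = 1 ∨ φ = (fun _ => i none) ∨
  ∃ (n m : ℕ) (f : (Fin (n + 1) → X) → Fin (m + 1) → X), (∀ j, (f · j) ∈ C.1 n) ∧ φ = hat i f}

theorem hat_mem {C : Cl X} {n m : ℕ} {f : (Fin (n + 1) → X) → Fin (m + 1) → X} :
    hat i f ∈ Mc i C ↔ ∀ j, (f · j) ∈ C.1 n := by
  refine ⟨?_, fun h => .inr (.inr ⟨n, m, f, h, rfl⟩)⟩
  rintro (h | h | ⟨n', m', f', h, e⟩)
  · have := congrFun h (enc i (n + 1) fun _ => i none)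
    rw [hat_out i f fun ⟨x, e⟩ => by simpa using enc_eq i e] at this
    exact (enc_ne i this.symm).elim
  · exact (enc_ne i ((hat_enc i f fun _ => i none).symm.trans (congrFun h _))).elim
  · obtain ⟨rfl, rfl⟩ := hat_at i ((congrFun e _).symm.trans (hat_enc i f fun _ => i none))
    obtain rfl : f = f' := funext fun x => enc_inj i _
      ((hat_enc i f x).symm.trans ((congrFun e _).trans (hat_enc i f' x)))
    exact h

theorem Mc_o {C : Cl X} {φ} (h : φ ∈ Mc i C) : φ (i none) = i none := by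
  rcases h with rfl | rfl | ⟨n, m, f, -, rfl⟩
  exacts [rfl, rfl, hat_out i f fun ⟨x, e⟩ => enc_ne i e]

noncomputable def MM (C : Cl X) : Mon X :=
  ⟨{ carrier := Mc i C
     one_mem' := .inl rfl
     mul_mem' := by
      rintro φ ψ hφ (rfl | rfl | ⟨n, m, f, hf, rfl⟩)
      · rwa [mul_one]
      · exact .inr (.inl (funext fun _ => Mc_o i hφ))
      rcases hφ with rfl | rfl | ⟨n', m', g, hg, rfl⟩
      · exact (hat_mem i).2 hf
      · exact .inr (.inl rfl)
      by_cases e : n' = m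
      · subst e
        rw [hat_mul]
        exact (hat_mem i).2 fun j => C.2.2.1 _ _ _ (fun k x => f x k) (hg j) hf
      · refine .inr (.inl (funext fun y => ?_))
        show hat i g (hat i f y) = _
        refine hat_out i g fun ⟨x, k⟩ => ?_
        by_cases h : ∃ x, enc i n x = y
        · obtain ⟨z, rfl⟩ := h
          rw [hat_enc] at k
          exact e (enc_eq i k)
        · rw [hat_out i f h] at k
          exact enc_ne i k }, closed_iff.2 fun φ h => by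
    classical
    by_contra k
    obtain ⟨y0, h0⟩ := Function.ne_iff.1 fun e : φ = id => k (.inl e)
    obtain ⟨y1, h1⟩ := Function.ne_iff.1 fun e : φ = fun _ => i none => k (.inr (.inl e))
    have A : ∀ F : Finset X, ∃ (n m : ℕ) (f : (Fin (n + 1) → X) → Fin (m + 1) → X),
        (∀ j, (f · j) ∈ C.1 n) ∧ hat i f y1 = φ y1 ∧ ∀ x ∈ F, hat i f x = φ x := fun F => by
      obtain ⟨ψ, rfl | rfl | ⟨n, m, f, hf, rfl⟩, e⟩ := h (insert y0 (insert y1 F))
      · exact (h0 (e y0 (by simp)).symm).elim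
      · exact (h1 (e y1 (by simp)).symm).elim
      · exact ⟨n, m, f, hf, e _ (by simp), fun x hx => e _ (by simp [hx])⟩
    obtain ⟨n, m, f0, -, e0, -⟩ := A ∅
    obtain ⟨x1, rfl⟩ : ∃ x, enc i n x = y1 := by
      by_contra q
      exact h1 (e0.symm.trans (hat_out i f0 q))
    rw [hat_enc] at e0
    have B : ∀ F : Finset X, ∃ f : (Fin (n + 1) → X) → Fin (m + 1) → X,
        (∀ j, (f · j) ∈ C.1 n) ∧ ∀ x ∈ F, hat i f x = φ x := fun F => by
      obtain ⟨n', m', f, a, b, c⟩ := A F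
      obtain ⟨rfl, rfl⟩ := hat_at i (b.trans e0.symm)
      exact ⟨f, a, c⟩
    have D : ∀ x, ∃ z, enc i m z = φ (enc i n x) := fun x => by
      obtain ⟨f, -, b⟩ := B {enc i n x}
      exact ⟨f x, (hat_enc i f x).symm.trans (b _ (by simp))⟩
    choose f hf using D
    refine k (.inr (.inr ⟨n, m, f, fun j => closed_iff.1 (C.2.2.2 n) _ fun F => ?_,
      funext fun y => ?_⟩))
    · obtain ⟨g, a, b⟩ := B (F.image (enc i n))
      refine ⟨_, a j, fun x hx => congrFun (enc_inj i m ?_) j⟩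
      rw [hf, ← hat_enc, b _ (Finset.mem_image_of_mem _ hx)]
    · by_cases q : ∃ x, enc i n x = y
      · obtain ⟨x, rfl⟩ := q
        rw [hat_enc, hf]
      · obtain ⟨g, -, b⟩ := B {y}
        rw [← b y (by simp), hat_out i _ q, hat_out i _ q]⟩

def psi (G : Mon X) (n : ℕ) : Set ((Fin (n + 1) → X) → X) :=
  {g | ∀ (m : ℕ) (σ : Fin (n + 1) → Fin (m + 1)),
    hat i (fun x : Fin (m + 1) → X => (Fin.cons (g (x ∘ σ)) x : Fin (m + 2) → X)) ∈ G.1}

theorem line (G : Mon X) (h1 : ∀ m, hat i (fun x : Fin (m + 1) → X => x) ∈ G.1) {m : ℕ} :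
    ∀ (k : ℕ) (h : Fin k → (Fin (m + 1) → X) → X), (∀ j, h j ∈ psi i G m) →
    ∃ (N : ℕ) (u : (Fin (m + 1) → X) → Fin (N + 1) → X) (α : Fin (m + 1) → Fin (N + 1))
      (β : Fin k → Fin (N + 1)), hat i u ∈ G.1 ∧ ∀ x, u x ∘ α = x ∧ ∀ j, u x (β j) = h j x
  | 0, _, _ => ⟨m, fun x => x, id, Fin.elim0, h1 m, fun _ => ⟨rfl, fun j => j.elim0⟩⟩
  | k + 1, h, hh => by
    obtain ⟨N, u, α, β, a, b⟩ := line G h1 k (fun j => h j.succ) fun j => hh _
    have := G.1.mul_mem (hh 0 N α) a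
    rw [hat_mul] at this
    refine ⟨N + 1, _, Fin.succ ∘ α, Fin.cons 0 (Fin.succ ∘ β), this, fun x => ⟨?_, fun j => ?_⟩⟩
    · exact (b x).1
    · refine Fin.cases ?_ (fun j => (b x).2 j) j
      exact congrArg (h 0) (b x).1

include i in
theorem emb1 : Emb (Cl X) (Mon X) := by
  classical
  refine mk_emb (MM i) (fun a b => ⟨fun h n g hg => ?_, fun h φ => ?_⟩) (fun a b => ?_)
    fun G a0 h0 => ?_
  · exact (hat_mem i (f := fun x (_ : Fin 1) => g x)).1 (h ((hat_mem i).2 fun _ => hg)) 0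
  · rintro (rfl | rfl | ⟨n, m, f, hf, rfl⟩)
    exacts [.inl rfl, .inr (.inl rfl), (hat_mem i).2 fun j => h n (hf j)]
  · refine ⟨⟨a.1 ⊓ b.1, fun n j => ⟨a.2.1 n j, b.2.1 n j⟩, fun n m g h hg hh =>
      ⟨a.2.2.1 n m g h hg.1 fun j => (hh j).1, b.2.2.1 n m g h hg.2 fun j => (hh j).2⟩,
      fun n => @IsClosed.inter _ _ _ (ptw _ _) (a.2.2.2 n) (b.2.2.2 n)⟩, inf_le_left (a := a.1),
      inf_le_right (a := a.1), fun G ha hb φ hφ => ?_⟩
    have := hb hφ
    obtain rfl | rfl | ⟨n, m, f, hf, rfl⟩ := ha hφ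
    exacts [.inl rfl, .inr (.inl rfl), (hat_mem i).2 fun j => ⟨hf j, (hat_mem i).1 this j⟩]
  · have pr : ∀ n m (τ : Fin (m + 1) → Fin (n + 1)), hat i (fun x : Fin (n + 1) → X => x ∘ τ) ∈ G.1 :=
      fun n m τ => h0 ((hat_mem i).2 fun j => a0.2.1 n (τ j))
    refine ⟨⟨psi i G, fun n j m σ => ?_, fun n m g h hg hh p σ => ?_,
      fun n => closed_iff.2 fun g hg m σ => closed_iff.1 G.2 _ fun F => ?_⟩,
      fun a => ⟨fun h n g hg m σ => h ((hat_mem i).2 fun j => ?_), fun h φ => ?_⟩⟩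
    · convert pr m (m + 1) (Fin.cons (σ j) id) using 2
      funext x k
      exact Fin.cases rfl (fun _ => rfl) k
    · obtain ⟨N, u, α, β, a, b⟩ := line i G (fun m => pr m m id) (n + 1)
        (fun j (x : Fin (p + 1) → X) => h j (x ∘ σ)) fun j q τ => hh j q (τ ∘ σ)
      have := G.1.mul_mem (pr (N + 1) (p + 1) (Fin.cons 0 (Fin.succ ∘ α))) (G.1.mul_mem (hg N β) a)
      rw [hat_mul, hat_mul] at this
      convert this using 2
      funext x k
      refine Fin.cases ?_ (fun k => (congrFun (b x).1 k).symm) k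
      exact congrArg g (funext fun j => ((b x).2 j).symm)
    · obtain ⟨h, a, b⟩ := hg ((F.preimage _ (enc_inj i m).injOn).image (· ∘ σ))
      refine ⟨_, a m σ, fun y hy => ?_⟩
      by_cases q : ∃ x, enc i m x = y
      · obtain ⟨x, rfl⟩ := q
        rw [hat_enc, hat_enc, b _ (Finset.mem_image_of_mem _ (Finset.mem_preimage.2 hy))]
      · rw [hat_out i _ q, hat_out i _ q]
    · refine Fin.cases ?_ (fun j => a.2.1 m j) j
      exact a.2.2.1 n m g (fun k x => x (σ k)) hg fun k => a.2.1 m _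
    · rintro (rfl | rfl | ⟨n, m, f, hf, rfl⟩)
      · exact G.1.one_mem
      · exact h0 (.inr (.inl rfl))
      · obtain ⟨N, u, α, β, a, b⟩ := line i G (fun m => pr m m id) (m + 1)
          (fun j x => f x j) fun j => h n (hf j)
        have := G.1.mul_mem (pr N m β) a
        rw [hat_mul] at this
        convert this using 2
        funext x k
        exact ((b x).2 k).symm

theorem cl_mon (X : Type) [Countable X] [Infinite X] : Emb (Cl X) (Mon X) := by
  obtain ⟨f, hf⟩ := exists_injective_nat (Option (Σ n : ℕ, Fin (n + 1) → X))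
  exact emb1 ((⟨f, hf⟩ : _ ↪ ℕ).trans (Infinite.natEmbedding X))

end Pool.Agent.H10.ClDefs
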