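import Pool.Agent.H10.Cl1

namespace Pool.Agent.H10.ClDefs
open Set Finsupp

abbrev Rg (V : Type) [AddCommGroup V] : Type :=
  {R : Subring (Module.End ℤ V) //
    ∀ φ : Module.End ℤ V, (∀ F : Finset V, ∃ ψ ∈ R, ∀ x ∈ F, ψ x = φ x) → φ ∈ R}

variable {Y : Type}

noncomputable abbrev lin (τ : List Y → List Y) : Module.End ℤ (List Y →₀ ℤ) := lmapDomain ℤ ℤ τ

def Natu (τ : List Y → List Y) : Prop := ∀ (f : Y → Y) (L : List Y), τ (L.map f) = (τ L).map f

def Com (φ : Module.End ℤ (List Y →₀ ℤ)) : Prop := ∀ τ, Natu τ → φ * lin τ = lin τ * φ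

theorem lin_mul (σ τ : List Y → List Y) : lin σ * lin τ = lin (σ ∘ τ) :=
  (lmapDomain_comp ℤ ℤ τ σ).symm

theorem lin_single (τ : List Y → List Y) (l : List Y) : lin τ (single l 1) = single (τ l) 1 := by
  simp

theorem com_lin (f : Y → Y) : Com (lin (List.map f)) := fun τ h => by
  rw [lin_mul, lin_mul]
  exact congrArg lin (funext fun L => (h f L).symm)

theorem exists_natu (L : List Y) : ∀ l : List Y, (∀ y ∈ l, y ∈ L) → ∃ τ, Natu τ ∧ τ L = l
  | [], _ => ⟨fun _ => [], fun _ _ => rfl, rfl⟩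
  | a :: l, h => by
    obtain ⟨τ, h1, h2⟩ := exists_natu L l fun y hy => h y (.tail _ hy)
    obtain ⟨k, hk⟩ := List.mem_iff_getElem?.1 (h a (.head _))
    exact ⟨fun M => (M[k]?).toList ++ τ M, fun f M => by simp [h1 f M, Option.toList_map], by simp [hk, h2]⟩

theorem expand (φ : Module.End ℤ (List Y →₀ ℤ)) (v : List Y →₀ ℤ) :
    φ v = ∑ p ∈ v.support, v p • φ (single p 1) := by
  conv_lhs => rw [← v.sum_single, Finsupp.sum, map_sum]
  exact Finset.sum_congr rfl fun p _ => by rw [← map_smul, smul_single_one]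

theorem supp_apply {φ : Module.End ℤ (List Y →₀ ℤ)} {v : List Y →₀ ℤ} {q} (h : q ∈ (φ v).support) :
    ∃ p ∈ v.support, q ∈ (φ (single p 1)).support := by
  by_contra k
  push Not at k
  rw [expand, mem_support_iff, finsetSum_apply] at h
  exact h (Finset.sum_eq_zero fun p hp => by simp [notMem_support_iff.1 (k p hp)])

def RR (M : Mon Y) : Rg (List Y →₀ ℤ) :=
  ⟨{ carrier := {φ | Com φ ∧ ∀ l, ∀ p ∈ (φ (single l 1)).support, ∃ f ∈ M.1, p = l.map f}
     one_mem' := ⟨fun τ _ => by simp, fun l p hp => ⟨1, M.1.one_mem,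
       (Finset.mem_singleton.1 (support_single_subset hp)).trans (List.map_id l).symm⟩⟩
     mul_mem' := fun {φ ψ} h k => ⟨fun τ t => by rw [mul_assoc, k.1 τ t, ← mul_assoc, h.1 τ t,
       mul_assoc], fun l q hq => by
        obtain ⟨p, hp, hq⟩ := supp_apply (φ := φ) (v := ψ (single l 1)) hq
        obtain ⟨f, f1, rfl⟩ := k.2 l p hp
        obtain ⟨g, g1, rfl⟩ := h.2 _ q hq
        exact ⟨g * f, M.1.mul_mem g1 f1, List.map_map⟩⟩
     zero_mem' := ⟨fun τ _ => by simp, fun l p hp => by simp at hp⟩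
     add_mem' := fun {φ ψ} h k => ⟨fun τ t => by rw [add_mul, mul_add, h.1 τ t, k.1 τ t],
       fun l q hq => by
        classical
        exact (Finset.mem_union.1 (support_add hq)).elim (h.2 l q) (k.2 l q)⟩
     neg_mem' := fun {φ} h => ⟨fun τ t => by rw [neg_mul, mul_neg, h.1 τ t],
       fun l q hq => h.2 l q (by simpa using hq)⟩ }, fun φ h => by
    classical
    refine ⟨fun τ t => LinearMap.ext fun v => ?_, fun l p hp => ?_⟩
    · obtain ⟨ψ, a, b⟩ := h {v, lin τ v}
      show φ (lin τ v) = lin τ (φ v)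
      rw [← b v (by simp), ← b _ (by simp)]
      exact LinearMap.congr_fun (a.1 τ t) v
    · obtain ⟨ψ, a, b⟩ := h {single l 1}
      exact a.2 l p (by rwa [b _ (Finset.mem_singleton_self _)])⟩

theorem lin_mem {M : Mon Y} {f : Y → Y} (h : f ∈ M.1) : lin (List.map f) ∈ (RR M).1 :=
  ⟨com_lin f, fun l p hp => ⟨f, h, by
    rw [lin_single] at hp
    exact Finset.mem_singleton.1 (support_single_subset hp)⟩⟩

theorem ents (F : Finset (List Y →₀ ℤ)) : ∃ E : Finset Y, ∀ v ∈ F, ∀ l ∈ v.support, ∀ y ∈ l, y ∈ E := by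
  classical
  exact ⟨F.biUnion fun v => v.support.biUnion List.toFinset, fun v hv l hl y hy => by
    simp only [Finset.mem_biUnion, List.mem_toFinset]
    exact ⟨v, hv, l, hl, hy⟩⟩

theorem agree {φ : Module.End ℤ (List Y →₀ ℤ)} (h : Com φ) {L : List Y} (f : List Y → Y → Y)
    (f2 : ∀ p ∈ (φ (single L 1)).support, p = L.map (f p)) {l : List Y} (hl : ∀ y ∈ l, y ∈ L) :
    (∑ p ∈ (φ (single L 1)).support, φ (single L 1) p • lin (List.map (f p))) (single l 1) =
      φ (single l 1) := by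
  obtain ⟨τ, t, rfl⟩ := exists_natu L l hl
  have := LinearMap.congr_fun (h τ t) (single L 1)
  rw [Module.End.mul_apply, Module.End.mul_apply, lin_single] at this
  rw [this, expand (lin τ), LinearMap.sum_apply]
  refine Finset.sum_congr rfl fun p hp => ?_
  rw [LinearMap.smul_apply, lin_single, lin_single, ← t, ← f2 p hp]

theorem dense {φ : Module.End ℤ (List Y →₀ ℤ)} (h : Com φ) (G : Rg (List Y →₀ ℤ))
    (k : ∀ E : Finset Y, ∃ L : List Y, (∀ y ∈ E, y ∈ L) ∧ ∀ p ∈ (φ (single L 1)).support,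
      ∃ f : Y → Y, lin (List.map f) ∈ G.1 ∧ p = L.map f) : φ ∈ G.1 := by
  refine G.2 φ fun F => ?_
  obtain ⟨E, hE⟩ := ents F
  obtain ⟨L, l1, l2⟩ := k E
  haveI : Nonempty (Y → Y) := ⟨id⟩
  choose! f f1 f2 using l2
  refine ⟨∑ p ∈ (φ (single L 1)).support, φ (single L 1) p • lin (List.map (f p)),
    sum_mem fun p hp => zsmul_mem (f1 p hp) _, fun v hv => ?_⟩
  rw [expand _ v, expand φ v]
  exact Finset.sum_congr rfl fun l hl => by rw [agree h f f2 fun y hy => l1 y (hE v hv l hl y hy)]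

def ell (e : ℕ → Y) : ℕ → List Y
  | 0 => []
  | n + 1 => e n :: ell e n

theorem ell_mono (e : ℕ → Y) {m n : ℕ} (h : m ≤ n) {y} (k : y ∈ ell e m) : y ∈ ell e n := by
  induction n, h using Nat.le_induction with
  | base => exact k
  | succ n _ ih => exact .tail _ ih

theorem branch (e : ℕ → Y) (he : Function.Surjective e) {M N : Mon Y} {φ} (hM : φ ∈ (RR M).1)
    (hN : φ ∈ (RR N).1) (n : ℕ) (p) (hp : p ∈ (φ (single (ell e n) 1)).support) :
    ∃ h : Y → Y, (h ∈ M.1 ∧ h ∈ N.1) ∧ p = (ell e n).map h := by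
  classical
  have st : ∀ m, ∀ p ∈ (φ (single (ell e m) 1)).support,
      ∃ q ∈ (φ (single (ell e (m + 1)) 1)).support, q.tail = p := fun m p hp => by
    have := LinearMap.congr_fun (hM.1 List.tail fun f L => by simp) (single (ell e (m + 1)) 1)
    simp only [Module.End.mul_apply, lin_single] at this
    rw [show ell e m = (ell e (m + 1)).tail from rfl, this] at hp
    exact Finset.mem_image.1 (mapDomain_support hp)
  choose! s s1 s2 using st
  let P : ℕ → List Y := fun k => Nat.rec p (fun k q => s (n + k) q) k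
  have hP : ∀ k, P k ∈ (φ (single (ell e (n + k)) 1)).support := fun k => by
    induction k with
    | zero => exact hp
    | succ k ih => exact s1 _ _ ih
  choose f f1 f2 using fun k => hM.2 _ _ (hP k)
  choose g g1 g2 using fun k => hN.2 _ _ (hP k)
  have c : ∀ k k', k ≤ k' → ∀ y ∈ ell e (n + k), f k' y = f k y := fun k k' q y hy => by
    induction k', q using Nat.le_induction with
    | base => rfl
    | succ k' q ih =>
      have : List.map (f (k' + 1)) (ell e (n + k')) = List.map (f k') (ell e (n + k')) :=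
        ((congrArg List.tail (f2 (k' + 1))).symm.trans (s2 _ _ (hP k'))).trans (f2 k')
      exact (List.map_inj_left.1 this y (ell_mono e (by omega) hy)).trans ih
  choose x hx using he
  have mem : ∀ y k, x y < k → y ∈ ell e (n + k) := fun y k q =>
    ell_mono e (show x y + 1 ≤ _ by omega) (by rw [ell, hx]; exact .head _)
  have d : ∀ k, ∀ y ∈ ell e (n + k), f k y = f (x y + 1) y := fun k y hy =>
    (c _ _ (le_max_left k (x y + 1)) y hy).symm.trans
      (c _ _ (le_max_right k (x y + 1)) y (mem _ _ (by omega)))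
  have m2 : ∀ F : Finset Y, ∀ y ∈ F, y ∈ ell e (n + (F.sup x + 1)) := fun F y hy =>
    mem _ _ (Nat.lt_succ_of_le (Finset.le_sup hy))
  refine ⟨fun y => f (x y + 1) y, ⟨closed_iff.1 M.2 _ fun F => ⟨_, f1 _, fun y hy => d _ y (m2 F y hy)⟩,
    closed_iff.1 N.2 _ fun F => ⟨_, g1 (F.sup x + 1), fun y hy => ?_⟩⟩,
    (f2 0).trans (List.map_inj_left.2 (d 0))⟩
  exact (List.map_inj_left.1 ((g2 _).symm.trans (f2 _)) y (m2 F y hy)).trans (d _ y (m2 F y hy))

theorem mon_rg (Y : Type) [Countable Y] [Nonempty Y] : Emb (Mon Y) (Rg (List Y →₀ ℤ)) := by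
  classical
  obtain ⟨e, he⟩ := exists_surjective_nat Y
  refine mk_emb RR (fun a b => ⟨fun h f hf => closed_iff.1 b.2 f fun F => ?_, fun h φ k =>
    ⟨k.1, fun l p hp => let ⟨f, f1, f2⟩ := k.2 l p hp; ⟨f, h f1, f2⟩⟩⟩) (fun a b => ?_)
    fun G a0 h0 => ?_
  · obtain ⟨g, g1, g2⟩ := (h (lin_mem hf)).2 F.toList (F.toList.map f) (by simp)
    exact ⟨g, g1, fun y hy => (List.map_inj_left.1 g2 y (by simpa using hy)).symm⟩
  · refine ⟨⟨a.1 ⊓ b.1, @IsClosed.inter _ _ _ (ptw _ _) a.2 b.2⟩, inf_le_left (a := a.1),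
      inf_le_right (a := a.1), fun G ha hb φ hφ => dense (ha hφ).1 _ fun E => ?_⟩
    choose x hx using he
    refine ⟨ell e (E.sup x + 1), fun y hy => ell_mono e (Nat.succ_le_succ (Finset.le_sup (f := x) hy))
      (by rw [ell, hx]; exact .head _), fun p hp => ?_⟩
    obtain ⟨h, h1, h2⟩ := branch e (fun y => ⟨_, hx y⟩) (ha hφ) (hb hφ) _ p hp
    exact ⟨h, lin_mem h1, h2⟩
  · refine ⟨⟨⟨⟨{f | lin (List.map f) ∈ G.1}, fun {f g} a b => ?_⟩, ?_⟩,
      closed_iff.2 fun f hf => G.2 _ fun F => ?_⟩, fun a => ⟨fun h f hf => h (lin_mem hf),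
      fun h φ k => dense k.1 G fun E => ⟨E.toList, by simp, fun p hp => ?_⟩⟩⟩
    · have := G.1.mul_mem a b
      rw [lin_mul] at this
      rwa [show List.map f ∘ List.map g = List.map (f * g) from
        funext fun L => List.map_map] at this
    · exact h0 (lin_mem a0.1.one_mem)
    · obtain ⟨E, hE⟩ := ents F
      obtain ⟨h, h1, h2⟩ := hf E
      exact ⟨_, h1, fun v hv => mapDomain_congr fun l hl =>
        List.map_inj_left.2 fun y hy => h2 y (hE v hv l hl y hy)⟩
    · obtain ⟨f, f1, f2⟩ := k.2 _ p hp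
      exact ⟨f, h f1, f2⟩

end Pool.Agent.H10.ClDefs
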