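import Pool.Agent.H10.Cl2

namespace Pool.Agent.H10.ClDefs
open Set Finsupp

variable {V : Type} [AddCommGroup V]

noncomputable def ent (a : Module.End ℤ (ℕ →₀ V)) (i j : ℕ) : Module.End ℤ V :=
  lapply i ∘ₗ a ∘ₗ lsingle j

noncomputable def el (i j : ℕ) (r : Module.End ℤ V) : Module.End ℤ (ℕ →₀ V) :=
  lsingle i ∘ₗ r ∘ₗ lapply j

theorem ent_apply (a : Module.End ℤ (ℕ →₀ V)) (i j : ℕ) (v : V) : ent a i j v = a (single j v) i := rfl

theorem el_apply (i j : ℕ) (r : Module.End ℤ V) (w : ℕ →₀ V) : el i j r w = single i (r (w j)) := rfl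

theorem el_mul0 {i j k l : ℕ} (h : j ≠ k) (r s : Module.End ℤ V) : el i j r * el k l s = 0 :=
  LinearMap.ext fun w => by simp [el_apply, single_eq_of_ne h]

theorem el_mul (i j l : ℕ) (r s : Module.End ℤ V) : el i j r * el j l s = el i l (r * s) :=
  LinearMap.ext fun w => by simp [el_apply]

theorem sum_s {s : Finset ℕ} {w : ℕ →₀ V} (h : w.support ⊆ s) : ∑ j ∈ s, single j (w j) = w :=
  (sum_of_support_subset w h single (by simp)).symm.trans w.sum_single

noncomputable def MR (R : Rg V) : Subring (Module.End ℤ (ℕ →₀ V)) where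
  carrier := {a | ∀ i j, ent a i j ∈ R.1}
  one_mem' := fun i j => by
    by_cases h : i = j
    · convert R.1.one_mem
      ext v; simp [ent_apply, h]
    · convert R.1.zero_mem
      ext v; simp [ent_apply, single_eq_of_ne h]
  zero_mem' := fun i j => R.1.zero_mem
  add_mem' := fun a b i j => R.1.add_mem (a i j) (b i j)
  neg_mem' := fun a i j => R.1.neg_mem (a i j)
  mul_mem' := fun {a b} ha hb i k => R.2 _ fun F => by
    classical
    refine ⟨∑ j ∈ F.biUnion fun v => (b (single k v)).support, ent a i j * ent b j k,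
      sum_mem fun j _ => R.1.mul_mem (ha i j) (hb j k), fun v hv => ?_⟩
    rw [ent_apply, Module.End.mul_apply, ← sum_s (Finset.subset_biUnion_of_mem
      (fun v => (b (single k v)).support) hv), map_sum, finsetSum_apply, LinearMap.sum_apply]
    rfl

theorem loc_lin (R : Rg V) (g : (ℕ →₀ V) → ℕ →₀ V)
    (h : ∀ F : Finset (ℕ →₀ V), ∃ a ∈ MR R, ∀ x ∈ F, a x = g x) : ∃ a ∈ MR R, g = a := by
  classical
  refine ⟨(AddMonoidHom.mk' g fun x y => ?_).toIntLinearMap, fun i j => R.2 _ fun F => ?_, rfl⟩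
  · obtain ⟨a, -, b⟩ := h {x, y, x + y}
    rw [← b _ (by simp), ← b _ (by simp), ← b _ (by simp), map_add]
  · obtain ⟨a, a1, b⟩ := h (F.image (single j))
    exact ⟨_, a1 i j, fun v hv => congrArg (· i) (b _ (Finset.mem_image_of_mem _ hv))⟩

def GG (R : Rg V) : Gr (ℕ →₀ V) :=
  ⟨{ carrier := {π | (∃ a ∈ MR R, ⇑π = a) ∧ ∃ a ∈ MR R, ⇑π⁻¹ = a}
     one_mem' := ⟨⟨1, one_mem _, rfl⟩, 1, one_mem _, rfl⟩
     mul_mem' := fun ⟨⟨a, a1, a2⟩, b, b1, b2⟩ ⟨⟨c, c1, c2⟩, d, d1, d2⟩ =>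
      ⟨⟨a * c, mul_mem a1 c1, by rw [Equiv.Perm.coe_mul, a2, c2]; rfl⟩, d * b, mul_mem d1 b1, by
        rw [mul_inv_rev, Equiv.Perm.coe_mul, b2, d2]; rfl⟩
     inv_mem' := fun h => ⟨h.2, h.1⟩ }, closedG_iff.2 fun π h => by
    classical
    refine ⟨loc_lin R _ fun F => ?_, loc_lin R _ fun F => ?_⟩
    · obtain ⟨ρ, ⟨⟨a, a1, a2⟩, -⟩, k⟩ := h F
      exact ⟨a, a1, a2 ▸ k⟩
    · obtain ⟨ρ, ⟨-, a, a1, a2⟩, k⟩ := h (F.image ⇑π⁻¹)
      refine ⟨a, a1, fun y hy => ?_⟩
      rw [← a2, Equiv.Perm.inv_eq_iff_eq, k _ (Finset.mem_image_of_mem _ hy)]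
      simp⟩

def T (G : Gr (ℕ →₀ V)) (a : Module.End ℤ (ℕ →₀ V)) : Prop := ∃ π ∈ G.1, ⇑π = a

theorem T.mul {G : Gr (ℕ →₀ V)} {a b} (h : T G a) (k : T G b) : T G (a * b) :=
  let ⟨π, p, q⟩ := h
  let ⟨ρ, r, s⟩ := k
  ⟨π * ρ, mul_mem p r, by rw [Equiv.Perm.coe_mul, q, s]; rfl⟩

theorem T.add {G : Gr (ℕ →₀ V)} {a b} (h : T G (1 + a)) (k : T G (1 + b)) (e : a * b = 0) :
    T G (1 + (a + b)) := by
  convert h.mul k using 1
  rw [add_mul, one_mul, mul_add, e, mul_one]; abel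

theorem T.neg {G : Gr (ℕ →₀ V)} {a} (h : T G (1 + a)) (e : a * a = 0) : T G (1 + -a) := by
  obtain ⟨π, p, q⟩ := h
  refine ⟨π⁻¹, inv_mem p, funext fun w => ?_⟩
  rw [Equiv.Perm.inv_eq_iff_eq, q, ← Module.End.mul_apply]
  simp [add_mul, mul_add, e]

theorem T.sum {G : Gr (ℕ →₀ V)} {ι : Type} (f : ι → Module.End ℤ (ℕ →₀ V)) (t : Finset ι)
    (h : ∀ x ∈ t, T G (1 + f x)) (k : ∀ x ∈ t, ∀ y ∈ t, f x * f y = 0) : T G (1 + ∑ x ∈ t, f x) := by
  classical
  induction t using Finset.induction_on with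
  | empty => exact ⟨1, one_mem _, by simp; rfl⟩
  | insert x t hx ih =>
    rw [Finset.sum_insert hx]
    refine (h x (by simp)).add (ih (fun y hy => h y (by simp [hy])) fun y hy z hz =>
      k y (by simp [hy]) z (by simp [hz])) ?_
    rw [Finset.mul_sum]
    exact Finset.sum_eq_zero fun y hy => k x (by simp) y (by simp [hy])

noncomputable def sh (a : Module.End ℤ (ℕ →₀ V)) (h : a * a = 0) : Equiv.Perm (ℕ →₀ V) :=
  ⟨⇑(1 + a), ⇑(1 + -a), fun w => by rw [← Module.End.mul_apply]; simp [add_mul, mul_add, h],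
    fun w => by rw [← Module.End.mul_apply]; simp [add_mul, mul_add, h]⟩

theorem el_mem {R : Rg V} {i j : ℕ} (h : i ≠ j) {r} : T (GG R) (1 + el i j r) ↔ r ∈ R.1 := by
  refine ⟨fun ⟨π, ⟨⟨a, a1, a2⟩, _⟩, q⟩ => ?_, fun k => ?_⟩
  · obtain rfl : a = 1 + el i j r := DFunLike.coe_injective (a2.symm.trans q)
    convert a1 i j
    ext v; simp [ent_apply, el_apply, single_eq_of_ne h]
  · have : el i j r ∈ MR R := fun p q => by
      by_cases e : p = i ∧ q = j
      · convert k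
        ext v; simp [ent_apply, el_apply, e]
      · convert R.1.zero_mem
        ext v
        by_cases e1 : p = i
        · simp [ent_apply, el_apply, single_eq_of_ne (Ne.symm fun e2 => e ⟨e1, e2⟩)]
        · simp [ent_apply, el_apply, single_eq_of_ne e1]
    exact ⟨sh _ (el_mul0 h.symm r r), ⟨⟨_, add_mem (one_mem _) this, rfl⟩, _,
      add_mem (one_mem _) (neg_mem this), rfl⟩, rfl⟩

noncomputable def gate (s : Finset ℕ) (α β : ℕ → ℕ) (a : Module.End ℤ (ℕ →₀ V)) :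
    Module.End ℤ (ℕ →₀ V) := ∑ p ∈ s ×ˢ s, el (α p.1) (β p.2) (ent a p.1 p.2)

theorem gate_apply {s : Finset ℕ} (α β : ℕ → ℕ) (a : Module.End ℤ (ℕ →₀ V)) {u w : ℕ →₀ V}
    (h : w.support ⊆ s) (k : ∀ j ∈ s, u (β j) = w j) :
    (1 + gate s α β a) u = u + ∑ i ∈ s, single (α i) (a w i) := by
  rw [LinearMap.add_apply, gate, LinearMap.sum_apply, Finset.sum_product]
  refine congrArg _ (Finset.sum_congr rfl fun i _ => ?_)
  rw [← sum_s h, map_sum, finsetSum_apply, single_finsetSum]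
  exact Finset.sum_congr rfl fun j hj => by rw [el_apply, ent_apply, k j hj]

theorem bennett {R : Rg V} {G : Gr (ℕ →₀ V)}
    (H : ∀ r ∈ R.1, ∀ i j, i ≠ j → T G (1 + el i j r)) : GG R ≤ G := by
  classical
  rintro π ⟨⟨a, a1, a2⟩, b, b1, b2⟩
  refine closedG_iff.1 G.2 π fun F => ?_
  let s : Finset ℕ := F.biUnion fun w => w.support ∪ (a w).support
  let n := s.sup id + 1
  have hn : ∀ i ∈ s, ∀ j, i ≠ j + n := fun i hi j => by
    have : i ≤ s.sup id := Finset.le_sup (f := id) hi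
    omega
  have g : ∀ (α β : ℕ → ℕ) (c), c ∈ MR R → (∀ i ∈ s, ∀ j ∈ s, α i ≠ β j) →
      T G (1 + gate s α β c) := fun α β c hc k => T.sum _ _ (fun p hp => H _ (hc _ _) _ _
        (k _ (Finset.mem_product.1 hp).1 _ (Finset.mem_product.1 hp).2)) fun p hp q hq =>
      el_mul0 (k _ (Finset.mem_product.1 hq).1 _ (Finset.mem_product.1 hp).2).symm _ _
  have g1 := fun c hc => g (· + n) id c hc fun i _ j hj => (hn j hj i).symm
  have g2 := fun c hc => g id (· + n) c hc fun i hi j _ => hn i hi j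
  obtain ⟨ρ, r1, r2⟩ := (g1 _ (neg_mem (one_mem _))).mul ((g2 _ (one_mem _)).mul
    ((g2 _ (neg_mem b1)).mul (g1 _ a1)))
  refine ⟨ρ, r1, fun w hw => ?_⟩
  have sub : w.support ⊆ s ∧ (a w).support ⊆ s := Finset.union_subset_iff.1
    (Finset.subset_biUnion_of_mem (fun w => w.support ∪ (a w).support) hw)
  have ba : b (a w) = w := by rw [← a2, ← b2]; simp
  have d1 : ∀ j ∈ s, (∑ i ∈ s, single (i + n) (a w i)) (j + n) = a w j := fun j hj => by
    rw [finsetSum_apply, Finset.sum_eq_single_of_mem j hj fun i _ e => single_eq_of_ne (by omega)]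
    simp
  have d2 : ∀ j ∈ s, (∑ i ∈ s, single (i + n) (a w i)) j = 0 := fun j hj => by
    rw [finsetSum_apply]
    exact Finset.sum_eq_zero fun i _ => single_eq_of_ne (hn j hj i)
  rw [r2, a2, Module.End.mul_apply, Module.End.mul_apply, Module.End.mul_apply,
    gate_apply _ id a sub.1 fun _ _ => rfl, gate_apply _ (· + n) (-b) sub.2 fun j hj => by
      rw [Finsupp.add_apply, d1 j hj, notMem_support_iff.1 fun k => hn _ (sub.1 k) j rfl, zero_add]]
  simp only [id, LinearMap.neg_apply, ba]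
  rw [sum_s (by simpa using sub.1), add_right_comm, add_neg_cancel, zero_add,
    gate_apply _ (· + n) 1 sub.2 d1]
  simp only [id, Module.End.one_apply]
  rw [sum_s sub.2, gate_apply _ id (-1) sub.2 fun j hj => by rw [id, Finsupp.add_apply, d2 j hj, zero_add]]
  simp

theorem rg_gr (V : Type) [AddCommGroup V] : Emb (Rg V) (Gr (ℕ →₀ V)) := by
  classical
  refine mk_emb GG (fun a b => ⟨fun h r hr => ?_, fun h π ⟨⟨c, c1, c2⟩, d, d1, d2⟩ =>
    ⟨⟨c, fun i j => h (c1 i j), c2⟩, d, fun i j => h (d1 i j), d2⟩⟩) (fun a b => ?_)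
    fun G a0 h0 => ?_
  · obtain ⟨π, p, q⟩ := (el_mem zero_ne_one).2 hr
    exact (el_mem zero_ne_one).1 ⟨π, h p, q⟩
  · refine ⟨⟨a.1 ⊓ b.1, fun φ h => ⟨a.2 φ fun F => let ⟨ψ, p, q⟩ := h F; ⟨ψ, p.1, q⟩,
      b.2 φ fun F => let ⟨ψ, p, q⟩ := h F; ⟨ψ, p.2, q⟩⟩⟩, inf_le_left (a := a.1),
      inf_le_right (a := a.1), fun G ha hb π hπ => ?_⟩
    obtain ⟨⟨c, c1, c2⟩, d, d1, d2⟩ := ha hπ
    obtain ⟨⟨c', c3, c4⟩, d', d3, d4⟩ := hb hπ
    obtain rfl : c = c' := DFunLike.coe_injective (c2.symm.trans c4)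
    obtain rfl : d = d' := DFunLike.coe_injective (d2.symm.trans d4)
    exact ⟨⟨c, fun i j => ⟨c1 i j, c3 i j⟩, c2⟩, d, fun i j => ⟨d1 i j, d3 i j⟩, d2⟩
  · have up : ∀ a : Rg V, GG a ≤ G → ∀ r ∈ a.1, ∀ i j, i ≠ j → T G (1 + el i j r) :=
      fun a h r hr i j e => let ⟨π, p, q⟩ := (el_mem e).2 hr; ⟨π, h p, q⟩
    refine ⟨⟨{ carrier := {r | ∀ i j, i ≠ j → T G (1 + el i j r)}
               one_mem' := up a0 h0 1 (one_mem _)
               zero_mem' := up a0 h0 0 (zero_mem _)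
               add_mem' := fun {r s} a b i j e => ?_
               neg_mem' := fun {r} a i j e => ?_
               mul_mem' := fun {r s} a b i j e => ?_ }, fun r h i j e => ?_⟩,
      fun a => ⟨up a, fun h => bennett h⟩⟩
    · have x : i ≠ i + j + 1 := by omega
      have y : i + j + 1 ≠ j := by omega
      have aa := el_mul0 (i := i) (l := i + j + 1) x.symm r r
      have bb := el_mul0 (i := i + j + 1) (l := j) y.symm s s
      have ba := el_mul0 (i := i + j + 1) (l := i + j + 1) e.symm s r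
      convert ((a _ _ x).mul (b _ _ y)).mul (((a _ _ x).neg aa).mul ((b _ _ y).neg bb)) using 1
      rw [← el_mul i (i + j + 1) j]
      generalize el i (i + j + 1) r = A at *
      generalize el (i + j + 1) j s = B at *
      have h1 : ∀ C, A * (A * C) = 0 := fun C => by rw [← mul_assoc, aa, zero_mul]
      have h2 : ∀ C, B * (A * C) = 0 := fun C => by rw [← mul_assoc, ba, zero_mul]
      simp only [add_mul, mul_add, mul_neg, neg_mul, one_mul, mul_one, mul_assoc, aa, bb, ba, h1, h2,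
        mul_zero, neg_neg, neg_zero]
      abel
    · convert (a i j e).add (b i j e) (el_mul0 e.symm r s) using 2
      ext w; simp [el_apply]
    · convert (a i j e).neg (el_mul0 e.symm r r) using 2
      ext w; simp [el_apply]
    · refine ⟨sh _ (el_mul0 e.symm r r), closedG_iff.1 G.2 _ fun F => ?_, rfl⟩
      obtain ⟨t, t1, t2⟩ := h (F.image (· j))
      obtain ⟨π, p, q⟩ := t1 i j e
      refine ⟨π, p, fun w hw => ?_⟩
      rw [q]
      show w + single i (t (w j)) = w + single i (r (w j))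
      rw [t2 _ (Finset.mem_image_of_mem _ hw)]

noncomputable def tr {W X : Type} (e : W ≃ X) (S : Gr W) : Gr X :=
  ⟨S.1.comap e.symm.permCongrHom.toMonoidHom, closedG_iff.2 fun π h =>
    closedG_iff.1 S.2 _ fun F => by
      obtain ⟨ρ, a, b⟩ := h (F.map e.toEmbedding)
      exact ⟨_, a, fun x hx => congrArg e.symm (b _ (Finset.mem_map_of_mem _ hx))⟩⟩

theorem tr_le {W X : Type} (e : W ≃ X) (S : Gr W) (G : Gr X) : tr e S ≤ G ↔ S ≤ tr e.symm G :=
  ⟨fun h π k => h (show e.symm.permCongr (e.permCongr π) ∈ S.1 by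
      convert k; ext; simp), fun h π k => by
    have : e.permCongr (e.symm.permCongr π) ∈ G.1 := h k
    convert this; ext; simp⟩

theorem gr_gr {W X : Type} (e : W ≃ X) : Emb (Gr W) (Gr X) := by
  refine mk_emb (tr e) (fun a b => ⟨fun h π k => ?_, fun h π k => h k⟩) (fun a b => ?_)
    fun G _ _ => ⟨_, fun a => tr_le e a G⟩
  · have : e.symm.permCongr (e.permCongr π) ∈ b.1 := (tr_le e _ _).1 h k
    convert this; ext; simp
  · exact ⟨⟨a.1 ⊓ b.1, @IsClosed.inter _ _ _ (TopologicalSpace.induced _ (ptw _ _)) a.2 b.2⟩,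
      inf_le_left (a := a.1), inf_le_right (a := a.1), fun G ha hb π k => ⟨ha k, hb k⟩⟩

theorem mon_gr (X : Type) [Countable X] [Infinite X] : Emb (Mon X) (Gr X) := by
  obtain ⟨e⟩ : Nonempty ((ℕ →₀ List X →₀ ℤ) ≃ X) := nonempty_equiv_of_countable
  exact (mon_rg X).trans ((rg_gr _).trans (gr_gr e))

end Pool.Agent.H10.ClDefs
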