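import Mathlib

namespace Pool.Agent.H10.ClDefs
open Set

/-- Pointwise convergence on `A → X`, with `X` discrete. -/
@[reducible] def ptw (A X : Type) : TopologicalSpace (A → X) :=
  @Pi.topologicalSpace A (fun _ => X) (fun _ => ⊥)

/-- Local clones on `X`, ordered by inclusion; index `n` holds the `(n+1)`-ary operations. -/
abbrev Cl (X : Type) : Type :=
  {C : ∀ n : ℕ, Set ((Fin (n + 1) → X) → X) //
    (∀ (n : ℕ) (i : Fin (n + 1)), (fun x => x i) ∈ C n) ∧
    (∀ (n m : ℕ) (g : (Fin (n + 1) → X) → X) (h : Fin (n + 1) → (Fin (m + 1) → X) → X),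
      g ∈ C n → (∀ i, h i ∈ C m) → (fun x => g fun i => h i x) ∈ C m) ∧
    ∀ n : ℕ, @IsClosed _ (ptw (Fin (n + 1) → X) X) (C n)}

/-- Local monoids on `X`, ordered by inclusion. -/
abbrev Mon (X : Type) : Type :=
  {S : Submonoid (Function.End X) // @IsClosed (X → X) (ptw X X) {f | f ∈ S}}

/-- Locally closed permutation groups on `X`, ordered by inclusion. -/
abbrev Gr (X : Type) : Type :=
  {S : Subgroup (Equiv.Perm X) // @IsClosed (Equiv.Perm X)
    (TopologicalSpace.induced (fun σ : Equiv.Perm X => (σ : X → X)) (ptw X X)) S}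

/-- Lattice embedding: an injective map carrying binary meets to meets and joins to joins. -/
def Emb (L K : Type) [PartialOrder L] [PartialOrder K] : Prop :=
  ∃ φ : L → K, Function.Injective φ ∧ ∀ a b c,
    (IsGLB {a, b} c → IsGLB {φ a, φ b} (φ c)) ∧ (IsLUB {a, b} c → IsLUB {φ a, φ b} (φ c))

end Pool.Agent.H10.ClDefs
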