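import Mathlib

namespace Pool.Agent.H10.Cost

open Equiv Set
open scoped Pointwise

variable {V : Type}

theorem fin_inj (T : Set (Perm V)) (D Z : Set V) (hD : D.Finite) (hZ : Z.Finite)
    (h1 : ∀ g ∈ T, ∀ x ∈ D, g x ∈ Z)
    (h2 : ∀ g ∈ T, ∀ g' ∈ T, (∀ x ∈ D, g x = g' x) → g = g') : T.Finite := by
  have : Finite D := hD
  refine Set.Finite.of_injOn (f := fun (g : Perm V) (x : D) => g x)
    (t := {f : D → V | ∀ x, f x ∈ Z}) (fun g hg x => h1 g hg x x.2) ?_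
    (Set.Finite.pi' fun _ => hZ)
  intro g hg g' hg' h
  exact h2 g hg g' hg' fun x hx => congrFun h ⟨x, hx⟩

theorem fin_base (A : Subgroup (Perm V)) (D Z : Set V) (hD : D.Finite) (hZ : Z.Finite)
    (hb : ∀ g ∈ A, (∀ x ∈ D, g x = x) → g = 1) :
    {g | g ∈ A ∧ ∀ x ∈ D, g x ∈ Z}.Finite := by
  refine fin_inj _ D Z hD hZ (fun g hg => hg.2) fun g hg g' hg' h => ?_
  have := hb (g'⁻¹ * g) (A.mul_mem (A.inv_mem hg'.1) hg.1) fun x hx => by
    rw [Perm.mul_apply, h x hx]; simp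
  exact (inv_mul_eq_one.mp this).symm

theorem neumann (A : Subgroup (Perm V)) (B Z : Set V) (hB : B.Finite) (hZ : Z.Finite)
    (hinf : ∀ b ∈ B, (MulAction.orbit A b).Infinite) : ∃ h ∈ A, ∀ b ∈ B, h b ∉ Z := by
  classical
  by_contra hcon
  push Not at hcon
  let g : V × V → A := fun p => if h : ∃ a : A, a • p.1 = p.2 then h.choose else 1
  have hcov : ⋃ i ∈ (hB.toFinset ×ˢ hZ.toFinset),
      g i • ((MulAction.stabilizer A i.1 : Subgroup A) : Set A) = Set.univ := by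
    refine Set.eq_univ_of_forall fun a => ?_
    obtain ⟨b, hb, hz⟩ := hcon a a.2
    simp only [Set.mem_iUnion]
    refine ⟨(b, (a : Perm V) b), by simp [hb, hz], ?_⟩
    have hex : ∃ a' : A, a' • b = (a : Perm V) b := ⟨a, rfl⟩
    have hg : g (b, (a : Perm V) b) • b = a • b := by
      simp only [g, dif_pos hex]; exact hex.choose_spec
    rw [mem_leftCoset_iff]
    show _ • b = b
    rw [mul_smul, ← hg, inv_smul_smul]
  obtain ⟨k, hk, hfi⟩ := Subgroup.exists_finiteIndex_of_leftCoset_cover hcov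
  have hb : k.1 ∈ B := by simpa using (Finset.mem_product.mp hk).1
  apply hinf _ hb
  have := hfi.index_ne_zero
  rw [MulAction.index_stabilizer] at this
  exact Set.finite_of_ncard_ne_zero this

theorem core (A : Subgroup (Perm V)) (R : Set V) (hR : R.Finite)
    (hinv : ∀ g ∈ A, ∀ x ∈ R, g x ∈ R)
    (hF : ∀ g ∈ A, {x | g x ≠ x}.Finite → ∀ x, x ∉ R → g x = x) (n : ℕ) :
    ∀ X : Set V, X.Finite → (∀ x ∈ X, x ∉ R) →
      (∀ b, ∀ g ∈ A, (∀ x ∈ X, x ≠ b → g x = x) → {x | g x ≠ x}.Finite) →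
      {g | g ∈ A ∧ ∀ x ∈ X, g x ∈ X}.ncard ≤ n →
      ∃ Y : Set V, Y.Finite ∧ (∀ x ∈ Y, x ∉ R) ∧
        ∀ g ∈ A, (∀ x ∈ Y, g x ∈ Y) → {x | g x ≠ x}.Finite := by
  have key : ∀ X : Set V, X.Finite →
      (∀ b, ∀ g ∈ A, (∀ x ∈ X, x ≠ b → g x = x) → {x | g x ≠ x}.Finite) →
      ∀ b, {g | g ∈ A ∧ ∀ x ∈ X, x ≠ b → g x ∈ X}.Finite := by
    intro X hX hrob b
    refine (fin_base A ({x ∈ X | x ≠ b} ∪ R) (X ∪ R) ((hX.subset (sep_subset _ _)).union hR)
      (hX.union hR) ?_).subset ?_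
    · intro g hg h
      have h1 := hrob b g hg fun x hx hb => h x (Or.inl ⟨hx, hb⟩)
      ext x
      by_cases hx : x ∈ R
      · exact h x (Or.inr hx)
      · exact hF g hg h1 x hx
    · rintro g ⟨hg, h⟩
      refine ⟨hg, ?_⟩
      rintro x (hx | hx)
      · exact Or.inl (h x hx.1 hx.2)
      · exact Or.inr (hinv g hg x hx)
  induction n with
  | zero =>
    intro X hX hXR hrob hc
    exfalso
    have hfin : {g | g ∈ A ∧ ∀ x ∈ X, g x ∈ X}.Finite := by
      rcases isEmpty_or_nonempty V with h | ⟨⟨b⟩⟩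
      · exact Set.toFinite _
      · exact (key X hX hrob b).subset fun g hg => ⟨hg.1, fun x hx _ => hg.2 x hx⟩
    have : 0 < {g | g ∈ A ∧ ∀ x ∈ X, g x ∈ X}.ncard :=
      (Set.ncard_pos hfin).mpr ⟨1, A.one_mem, fun x hx => hx⟩
    omega
  | succ n ih =>
    intro X hX hXR hrob hc
    by_cases hall : ∀ g ∈ A, (∀ x ∈ X, g x ∈ X) → {x | g x ≠ x}.Finite
    · exact ⟨X, hX, hXR, hall⟩
    push Not at hall
    obtain ⟨g0, hg0, hst, hinf⟩ := hall
    have hbad : (⋃ b ∈ X, (fun g : Perm V => g b) ''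
        {g | g ∈ A ∧ ∀ x ∈ X, x ≠ b → g x ∈ X}).Finite :=
      hX.biUnion fun b _ => (key X hX hrob b).image _
    obtain ⟨y, hy, hyn⟩ := Set.Infinite.exists_notMem_finite hinf ((hX.union hR).union hbad)
    have hyX : y ∉ X := fun h => hyn (Or.inl (Or.inl h))
    have hfin : {g | g ∈ A ∧ ∀ x ∈ X, g x ∈ X}.Finite :=
      (key X hX hrob y).subset fun g hg => ⟨hg.1, fun x hx _ => hg.2 x hx⟩
    refine ih (insert y X) (hX.insert y) ?_ ?_ ?_
    · rintro x (rfl | hx)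
      · exact fun h => hyn (Or.inl (Or.inr h))
      · exact hXR x hx
    · exact fun b g hg h => hrob b g hg fun x hx hb => h x (Or.inr hx) hb
    · have hsub : {g | g ∈ A ∧ ∀ x ∈ insert y X, g x ∈ insert y X} ⊆
          {g | g ∈ A ∧ ∀ x ∈ X, g x ∈ X} \ {g0} := by
        rintro g ⟨hg, h⟩
        have hX' : ∀ x ∈ X, g x ∈ X := by
          intro b hb
          rcases h b (Or.inr hb) with h1 | h1
          · exfalso
            refine hyn (Or.inr (mem_iUnion₂.mpr ⟨b, hb, g, ⟨hg, fun x hx hxb => ?_⟩, h1⟩))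
            rcases h x (Or.inr hx) with h2 | h2
            · exact absurd (g.injective (h2.trans h1.symm)) hxb
            · exact h2
          · exact h1
        refine ⟨⟨hg, hX'⟩, ?_⟩
        rintro rfl
        rcases h y (Or.inl rfl) with h1 | h1
        · exact hy h1
        · have hb := (hX.injOn_iff_bijOn_of_mapsTo hX').mp g.injective.injOn
          obtain ⟨x, hx, hxy⟩ := hb.surjOn h1
          exact hyX (g.injective hxy ▸ hx)
      have h1 := Set.ncard_le_ncard hsub (hfin.subset diff_subset)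
      have h2 := Set.ncard_diff_singleton_lt_of_mem (s := {g | g ∈ A ∧ ∀ x ∈ X, g x ∈ X})
        (a := g0) ⟨hg0, hst⟩ hfin
      omega

theorem inf_thm (A : Subgroup (Perm V)) (B : Set V) (hB : B.Finite)
    (hb : ∀ g ∈ A, (∀ x ∈ B, g x = x) → g = 1) (W : Set V)
    (hW : ∀ g ∈ A, (∀ x, x ∈ W ↔ g x ∈ W) → g = 1) :
    ∃ S : Set V, S.Finite ∧ ∀ g ∈ A, (∀ x ∈ S, g x ∈ S) → g = 1 := by
  classical
  let R : Set V := ⋃ b ∈ {b ∈ B | (MulAction.orbit A b).Finite}, MulAction.orbit A b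
  have hR : R.Finite := (hB.subset (sep_subset _ _)).biUnion fun b hb => hb.2
  have hRi : ∀ g ∈ A, ∀ x ∈ R, g x ∈ R := by
    intro g hg x hx
    obtain ⟨b, hb1, a, rfl⟩ := mem_iUnion₂.mp hx
    exact mem_iUnion₂.mpr ⟨b, hb1, ⟨g, hg⟩ * a, rfl⟩
  have sep : ∀ Z : Set V, Z.Finite → ∃ D : Set V, D.Finite ∧ (∀ x ∈ D, x ∉ Z) ∧
      ∀ g ∈ A, (∀ x ∈ D ∪ R, g x = x) → g = 1 := by
    intro Z hZ
    obtain ⟨h, hh, hsep⟩ := neumann A {b ∈ B | (MulAction.orbit A b).Infinite} Z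
      (hB.subset (sep_subset _ _)) hZ fun b hb => hb.2
    refine ⟨h '' {b ∈ B | (MulAction.orbit A b).Infinite}, (hB.subset (sep_subset _ _)).image _,
      ?_, fun g hg hfix => ?_⟩
    · rintro _ ⟨b, hb1, rfl⟩; exact hsep b hb1
    · have : h⁻¹ * g * h = 1 := by
        refine hb _ (A.mul_mem (A.mul_mem (A.inv_mem hh) hg) hh) fun b hb1 => ?_
        have : g (h b) = h b := by
          by_cases hf : (MulAction.orbit A b).Finite
          · exact hfix _ (Or.inr (mem_iUnion₂.mpr ⟨b, ⟨hb1, hf⟩, ⟨h, hh⟩, rfl⟩))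
          · exact hfix _ (Or.inl ⟨b, ⟨hb1, hf⟩, rfl⟩)
        simp [this]
      calc g = h * (h⁻¹ * g * h) * h⁻¹ := by group
        _ = 1 := by rw [this]; group
  let F : Set (Perm V) := {g | g ∈ A ∧ {x | g x ≠ x}.Finite}
  have hFf : F.Finite := by
    refine fin_inj F R R hR hR (fun g hg => hRi g hg.1) fun g hg g' hg' h => ?_
    obtain ⟨D, -, hD, hD2⟩ := sep _ (hg.2.union hg'.2)
    have := hD2 (g'⁻¹ * g) (A.mul_mem (A.inv_mem hg'.1) hg.1) ?_
    · exact (inv_mul_eq_one.mp this).symm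
    rintro x (hx | hx)
    · have h1 : g x = x := by by_contra h1; exact hD x hx (Or.inl h1)
      have h2 : g' x = x := by by_contra h2; exact hD x hx (Or.inr h2)
      rw [Perm.mul_apply, h1, Perm.inv_eq_iff_eq, h2]
    · rw [Perm.mul_apply, h x hx]; simp
  let R2 : Set V := ⋃ g ∈ F, {x | g x ≠ x}
  have hR2 : R2.Finite := hFf.biUnion fun g hg => hg.2
  have hR2i : ∀ g ∈ A, ∀ x ∈ R2, g x ∈ R2 := by
    intro g hg x hx
    obtain ⟨f, hf, hx⟩ := mem_iUnion₂.mp hx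
    refine mem_iUnion₂.mpr ⟨g * f * g⁻¹, ⟨A.mul_mem (A.mul_mem hg hf.1) (A.inv_mem hg), ?_⟩, ?_⟩
    · refine (hf.2.image g).subset fun z hz => ⟨g⁻¹ z, fun h => hz ?_, by simp⟩
      show g (f (g⁻¹ z)) = z
      rw [h]; simp
    · simpa using hx
  have hF2 : ∀ g ∈ A, {x | g x ≠ x}.Finite → ∀ x, x ∉ R2 → g x = x := by
    intro g hg hf x hx
    by_contra h
    exact hx (mem_iUnion₂.mpr ⟨g, ⟨hg, hf⟩, h⟩)
  have good : ∀ Z : Set V, Z.Finite → ∃ Y : Set V, Y.Finite ∧ (∀ x ∈ Y, x ∉ Z) ∧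
      ∀ g ∈ A, (∀ x ∈ Y, g x = x) → {x | g x ≠ x}.Finite := by
    intro Z hZ
    obtain ⟨D, hD, hDZ, hD2⟩ := sep Z hZ
    have hE := fin_base A (D ∪ R) (D ∪ R) (hD.union hR) (hD.union hR) hD2
    have hch : ∀ g : {g : Perm V // {x | g x ≠ x}.Infinite}, ∃ y, g.1 y ≠ y ∧ y ∉ Z :=
      fun g => g.2.exists_notMem_finite hZ
    choose w hw using hch
    refine ⟨D ∪ w '' (Subtype.val ⁻¹' {g | g ∈ A ∧ ∀ x ∈ D ∪ R, g x ∈ D ∪ R}),
      hD.union ((hE.preimage Subtype.val_injective.injOn).image _), ?_, fun g hg hfix => ?_⟩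
    · rintro x (hx | ⟨g, -, rfl⟩)
      · exact hDZ x hx
      · exact (hw g).2
    · by_contra hinf
      refine (hw ⟨g, hinf⟩).1 (hfix _ (Or.inr ⟨⟨g, hinf⟩, ⟨hg, ?_⟩, rfl⟩))
      rintro x (hx | hx)
      · show g x ∈ D ∪ R
        rw [hfix x (Or.inl hx)]; exact Or.inl hx
      · exact Or.inr (hRi g hg x hx)
  obtain ⟨Y1, hY1, hY1R, hg1⟩ := good R2 hR2
  obtain ⟨Y2, hY2, hY2R, hg2⟩ := good (R2 ∪ Y1) (hR2.union hY1)
  obtain ⟨X, hX, hXR, hst⟩ := core A R2 hR2 hR2i hF2 _ (Y1 ∪ Y2) (hY1.union hY2)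
    (by
      rintro x (hx | hx)
      · exact hY1R x hx
      · exact fun h => hY2R x hx (Or.inl h))
    (by
      intro b g hg h
      by_cases hb1 : b ∈ Y1
      · exact hg2 g hg fun x hx => h x (Or.inr hx) fun e => hY2R x hx (Or.inr (e ▸ hb1))
      · exact hg1 g hg fun x hx => h x (Or.inl hx) fun e => hb1 (e ▸ hx)) le_rfl
  refine ⟨X ∪ W ∩ R2, hX.union (hR2.subset inter_subset_right), fun g hg h => ?_⟩
  have h1 : ∀ x ∈ X, g x ∈ X := by
    intro x hx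
    rcases h x (Or.inl hx) with h1 | h1
    · exact h1
    · exact absurd (by simpa using hR2i g⁻¹ (A.inv_mem hg) _ h1.2) (hXR x hx)
  have h2 : MapsTo g (W ∩ R2) (W ∩ R2) := by
    intro x hx
    rcases h x (Or.inr hx) with h2 | h2
    · exact absurd (hR2i g hg x hx.2) (hXR _ h2)
    · exact h2
  have hbij := ((hR2.subset inter_subset_right).injOn_iff_bijOn_of_mapsTo h2).mp
    g.injective.injOn
  refine hW g hg fun x => ?_
  by_cases hx : x ∈ R2
  · refine ⟨fun hw => (h2 ⟨hw, hx⟩).1, fun hw => ?_⟩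
    obtain ⟨z, hz, hzx⟩ := hbij.surjOn ⟨hw, hR2i g hg x hx⟩
    exact g.injective hzx ▸ hz.1
  · rw [hF2 g hg (hst g hg h1) x hx]

open Filter in
theorem unif (d : ℕ) : ∃ C : ℕ, ∀ (V : Type) (A : Subgroup (Perm V)) (B : Fin (d + 1) → V)
    (W : Set V), (∀ g ∈ A, (∀ i, g (B i) = B i) → g = 1) →
    (∀ g ∈ A, (∀ x, x ∈ W ↔ g x ∈ W) → g = 1) →
    ∃ S : Finset V, S.card ≤ C ∧ ∀ g ∈ A, (∀ x ∈ S, g x ∈ S) → g = 1 := by
  classical
  by_contra hcon
  push Not at hcon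
  choose V A B W hB hW hS using hcon
  let U : Ultrafilter ℕ := hyperfilter ℕ
  let st : Setoid (∀ n, V n) :=
    ⟨fun x y => ∀ᶠ n in (U : Filter ℕ), x n = y n, fun _ => Eventually.of_forall fun _ => rfl,
      fun h => h.mono fun _ => Eq.symm, fun h1 h2 => (h1.and h2).mono fun _ h => h.1.trans h.2⟩
  let Q := Quotient st
  let act : (∀ n, A n) → Q → Q := fun g => Quotient.map (fun x n => (g n : Perm (V n)) (x n))
    fun x y (h : ∀ᶠ n in (U : Filter ℕ), x n = y n) => h.mono fun n hn => congrArg _ hn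
  have act_mul : ∀ g h q, act (g * h) q = act g (act h q) := by
    intro g h q; induction q using Quotient.inductionOn; rfl
  have act_one : ∀ q, act 1 q = q := by
    intro q; induction q using Quotient.inductionOn; rfl
  let φ : (∀ n, A n) →* Perm Q :=
    { toFun := fun g => ⟨act g, act g⁻¹, fun q => by rw [← act_mul, inv_mul_cancel, act_one],
        fun q => by rw [← act_mul, mul_inv_cancel, act_one]⟩
      map_one' := by ext q; exact act_one q
      map_mul' := fun g h => by ext q; exact act_mul g h q }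
  have φ_mk : ∀ g (x : ∀ n, V n), φ g (⟦x⟧ : Q) = ⟦fun n => (g n : Perm (V n)) (x n)⟧ :=
    fun _ _ => rfl
  have eq_iff : ∀ x y : ∀ n, V n, (⟦x⟧ : Q) = ⟦y⟧ ↔ ∀ᶠ n in (U : Filter ℕ), x n = y n :=
    fun x y => Quotient.eq
  have triv : ∀ g : ∀ n, A n, (∀ᶠ n in (U : Filter ℕ), (g n : Perm (V n)) = 1) → φ g = 1 := by
    intro g hg
    ext q
    induction q using Quotient.inductionOn with
    | h x => exact (eq_iff _ _).mpr (hg.mono fun n hn => by
        show (g n : Perm (V n)) (x n) = x n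
        rw [hn]; rfl)
  obtain ⟨S, hSf, hSr⟩ := inf_thm φ.range (Set.range fun i => (⟦fun n => B n i⟧ : Q))
    (Set.finite_range _)
    (by
      rintro _ ⟨g, rfl⟩ h
      refine triv g ?_
      have : ∀ᶠ n in (U : Filter ℕ), ∀ i, (g n : Perm (V n)) (B n i) = B n i :=
        eventually_all.mpr fun i => (eq_iff _ _).mp (h _ ⟨i, rfl⟩)
      exact this.mono fun n hn => hB n _ (g n).2 hn)
    {q | ∃ x : ∀ n, V n, q = ⟦x⟧ ∧ ∀ᶠ n in (U : Filter ℕ), x n ∈ W n}
    (by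
      rintro _ ⟨g, rfl⟩ h
      refine triv g ?_
      have hx : ∀ n, ∃ x : V n, (x ∈ W n ↔ (g n : Perm (V n)) x ∈ W n) →
          (g n : Perm (V n)) = 1 := by
        intro n
        by_cases hn : ∀ x, x ∈ W n ↔ (g n : Perm (V n)) x ∈ W n
        · exact ⟨B n 0, fun _ => hW n _ (g n).2 hn⟩
        · obtain ⟨x, hx⟩ := not_forall.mp hn
          exact ⟨x, fun h => absurd h hx⟩
      choose x hx using hx
      have mem : ∀ y : ∀ n, V n,
          (⟦y⟧ : Q) ∈ {q : Q | ∃ x : ∀ n, V n, q = ⟦x⟧ ∧ ∀ᶠ n in (U : Filter ℕ), x n ∈ W n} ↔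
            ∀ᶠ n in (U : Filter ℕ), y n ∈ W n := by
        intro y
        refine ⟨?_, fun h => ⟨y, rfl, h⟩⟩
        rintro ⟨z, hz, hz2⟩
        exact (((eq_iff _ _).mp hz).and hz2).mono fun n hn => hn.1 ▸ hn.2
      have h1 := h ⟦x⟧
      rw [φ_mk, mem, mem] at h1
      by_cases h2 : ∀ᶠ n in (U : Filter ℕ), x n ∈ W n
      · exact (h2.and (h1.mp h2)).mono fun n hn => hx n (iff_of_true hn.1 hn.2)
      · have h3 := Ultrafilter.eventually_not.mpr h2
        have h4 := Ultrafilter.eventually_not.mpr fun h => h2 (h1.mpr h)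
        exact (h3.and h4).mono fun n hn => hx n (iff_of_false hn.1 hn.2))
  let T : ∀ n, Finset (V n) := fun n => hSf.toFinset.image fun q : Q => Quotient.out q n
  have hg : ∀ n, ∃ g : A n, (∀ x ∈ T n, (g : Perm (V n)) x ∈ T n) ∧
      (hSf.toFinset.card ≤ n → (g : Perm (V n)) ≠ 1) := by
    intro n
    by_cases hn : hSf.toFinset.card ≤ n
    · obtain ⟨g, hg, h1, h2⟩ := hS n (T n) (Finset.card_image_le.trans hn)
      exact ⟨⟨g, hg⟩, h1, fun _ => h2⟩
    · exact ⟨1, fun x hx => hx, fun h => absurd h hn⟩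
  choose g hg1 hg2 using hg
  have h1 : φ g = 1 := by
    refine hSr _ ⟨g, rfl⟩ fun q hq => ?_
    have : ∀ᶠ n in (U : Filter ℕ), ∃ r ∈ S, (g n : Perm (V n)) (Quotient.out q n) =
        Quotient.out r n := by
      refine Eventually.of_forall fun n => ?_
      obtain ⟨r, hr, hr2⟩ := Finset.mem_image.mp
        (hg1 n _ (Finset.mem_image.mpr ⟨q, hSf.mem_toFinset.mpr hq, rfl⟩))
      exact ⟨r, hSf.mem_toFinset.mp hr, hr2.symm⟩
    obtain ⟨r, hr, hr2⟩ := (Ultrafilter.eventually_exists_mem_iff hSf).mp this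
    have : φ g q = r := by
      rw [← Quotient.out_eq q, ← Quotient.out_eq r, φ_mk]
      exact (eq_iff _ _).mpr hr2
    rw [this]; exact hr
  have hx : ∀ n, ∃ x : V n, (g n : Perm (V n)) x = x → (g n : Perm (V n)) = 1 := by
    intro n
    by_cases hn : ∀ x, (g n : Perm (V n)) x = x
    · exact ⟨B n 0, fun _ => Equiv.ext hn⟩
    · obtain ⟨x, hx⟩ := not_forall.mp hn
      exact ⟨x, fun h => absurd h hx⟩
  choose x hx using hx
  have h2 : φ g (⟦x⟧ : Q) = ⟦x⟧ := by rw [h1]; rfl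
  rw [φ_mk, eq_iff] at h2
  have h3 : ∀ᶠ n in (U : Filter ℕ), hSf.toFinset.card ≤ n :=
    Nat.hyperfilter_le_atTop (eventually_ge_atTop _)
  obtain ⟨n, hn⟩ := (h2.and h3).exists
  exact hg2 n hn.2 (hx n hn.1)

end Pool.Agent.H10.Cost
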