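import Mathlib

namespace Pool.Agent.H10.DST
open Set Filter Topology PiNat MeasureTheory

theorem tend {α : Type} [TopologicalSpace α] {u : ℕ → ℕ → α} {x : ℕ → α}
    (h : ∀ n, ∀ i < n, u n i = x i) : Tendsto u atTop (𝓝 x) :=
  tendsto_pi_nhds.2 fun i => tendsto_const_nhds.congr'
    ((eventually_gt_atTop i).mono fun n hn => (h n i hn).symm)

theorem pol : PolishSpace (ℕ → Bool) := {}

/-- Ill-founded trees are not Borel. -/
theorem illf : ¬ MeasurableSet {T : List ℕ → Bool | ∃ b : ℕ → ℕ, ∀ n, T (res b n) = true} := by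
  classical
  intro h
  let τ : (ℕ → Bool) → List ℕ → Bool := fun x s => x (Encodable.encode (s, res x s.length))
  have hτ : Measurable τ := measurable_pi_iff.2 fun s => measurable_to_bool (by
    have : (fun x => τ x s) ⁻¹' {true} = ⋃ t, {x | res x s.length = t} ∩
        {x | x (Encodable.encode (s, t)) = true} := by ext; simp [τ]
    rw [this]
    refine .iUnion fun t => .inter (IsOpen.measurableSet (isOpen_iff_forall_mem_open.2
      fun y hy => ⟨cylinder y s.length, ?_, isOpen_cylinder _ _ _, self_mem_cylinder _ _⟩))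
      (measurableSet_eq_fun (measurable_pi_apply _) measurable_const)
    rw [cylinder_eq_res]
    exact fun z hz => Eq.trans hz hy)
  have := pol
  have D : AnalyticSet (τ ⁻¹' _) := (hτ h.compl).analyticSet
  obtain ⟨x, hx⟩ : ∃ x : ℕ → Bool, ∀ z, (∃ b : ℕ → ℕ, ∀ n,
      x (Encodable.encode (res b n, res z n)) = true) ↔ z ∈ τ ⁻¹'
        {T : List ℕ → Bool | ∃ b : ℕ → ℕ, ∀ n, T (res b n) = true}ᶜ := by
    rw [AnalyticSet] at D
    rcases D with D | ⟨f, f1, f2⟩
    · exact ⟨fun _ => false, fun z => by rw [D]; simp⟩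
    refine ⟨fun m => decide (∃ b n, m = Encodable.encode (res b n, res (f b) n)), fun z => ?_⟩
    rw [← f2]
    simp only [decide_eq_true_eq, Encodable.encode_inj, Prod.mk.injEq]
    refine ⟨fun ⟨b, hb⟩ => ⟨b, ?_⟩, fun ⟨b, hb⟩ => ⟨b, fun n => ⟨b, n, rfl, by rw [hb]⟩⟩⟩
    choose c m h1 h2 using hb
    have e : ∀ n, m n = n := fun n => by simpa using (congrArg List.length (h1 n)).symm
    simp only [e, res_eq_res] at h1 h2
    exact tendsto_nhds_unique ((f1.tendsto b).comp (tend fun n i hi => (h1 n hi).symm))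
      (tend fun n i hi => (h2 n hi).symm)
  have := hx x
  simp only [mem_preimage, mem_compl_iff, mem_ofPred_eq, τ, res_length] at this
  tauto

/-- `V` is covered by countably many closed subsets of `𝒰`. -/
def Small {Y : Type} [TopologicalSpace Y] (𝒰 V : Set Y) : Prop :=
  ∃ S : Set (Set Y), S.Countable ∧ (∀ F ∈ S, IsClosed F ∧ F ⊆ 𝒰) ∧ V ⊆ ⋃₀ S

theorem step {𝒰 : Set (ℕ → Bool)} {f : (ℕ → ℕ) → ℕ → Bool} (hf : Continuous f) {w : ℕ → ℕ} {m : ℕ}
    (h : ¬ Small 𝒰 (f '' cylinder w m)) : ∃ q ∉ 𝒰, q ∈ closure (f '' cylinder w m) ∧ ∀ k,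
      ∃ w' ∈ cylinder w m, ∃ m' > m, ¬ Small 𝒰 (f '' cylinder w' m') ∧
        f '' cylinder w' m' ⊆ cylinder q k := by
  let P := {v ∈ cylinder w m | ∀ l, ¬ Small 𝒰 (f '' cylinder v l)}
  obtain ⟨q, q1, q2⟩ : ∃ q ∈ closure (f '' P), q ∉ 𝒰 := by
    by_contra! c
    have : ∀ v ∈ cylinder w m \ P, ∃ l, Small 𝒰 (f '' cylinder v l) := fun v hv => by
      by_contra! d
      exact hv.2 ⟨hv.1, d⟩
    choose! l S S1 S2 S3 using this
    obtain ⟨t, t1, t2, t3⟩ := TopologicalSpace.countable_cover_nhdsWithin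
      (f := fun v => cylinder v (l v)) (s := cylinder w m \ P) fun v _ => mem_nhdsWithin_of_mem_nhds
        ((isOpen_cylinder _ _ _).mem_nhds (self_mem_cylinder _ _))
    refine h ⟨insert (closure (f '' P)) (⋃ v ∈ t, S v), (t2.biUnion fun v hv => S1 v (t1 hv)).insert _,
      ?_, ?_⟩
    · rintro F (rfl | hF)
      · exact ⟨isClosed_closure, c⟩
      · obtain ⟨v, hv, hF⟩ := mem_iUnion₂.1 hF
        exact S2 v (t1 hv) F hF
    · rintro _ ⟨v, hv, rfl⟩
      by_cases hP : v ∈ P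
      · exact ⟨_, mem_insert _ _, subset_closure ⟨v, hP, rfl⟩⟩
      · obtain ⟨u, hu, hv⟩ := mem_iUnion₂.1 (t3 ⟨hv, hP⟩)
        obtain ⟨F, h1, h2⟩ := S3 u (t1 hu) ⟨v, hv, rfl⟩
        exact ⟨F, mem_insert_of_mem _ (mem_iUnion₂.2 ⟨u, hu, h1⟩), h2⟩
  refine ⟨q, q2, closure_mono (image_mono fun v hv => hv.1) q1, fun k => ?_⟩
  obtain ⟨_, h1, v, hv, rfl⟩ := mem_closure_iff.1 q1 _ (isOpen_cylinder _ q k)
    (self_mem_cylinder _ _)
  obtain ⟨_, ⟨u, l, rfl⟩, h2, h3⟩ := (isTopologicalBasis_cylinders _).exists_subset_of_mem_open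
    (show v ∈ f ⁻¹' cylinder q k from h1) ((isOpen_cylinder _ q k).preimage hf)
  rw [← mem_cylinder_iff_eq.1 h2] at h3
  exact ⟨v, hv.1, m + 1 + l, by omega, hv.2 _,
    image_subset_iff.2 ((cylinder_anti _ (by omega)).trans h3)⟩

theorem closed_cyl (q : ℕ → Bool) (k : ℕ) : IsClosed (cylinder q k) := by
  rw [cylinder_eq_pi]
  exact isClosed_set_pi fun _ _ => isClosed_singleton

/-- Hurewicz scheme for an analytic set that is not `F_σ`. -/
theorem hur {𝒰 : Set (ℕ → Bool)} (h : AnalyticSet 𝒰) (hn : ¬ Small 𝒰 𝒰) :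
    ∃ q : List ℕ → ℕ → Bool, ∀ T : List ℕ → Prop, (∃ b : ℕ → ℕ, ∀ n, T (res b n)) ↔
      (closure (q '' {s | ∀ t, t <:+ s → T t}) ∩ 𝒰).Nonempty := by
  rw [AnalyticSet] at h
  rcases h with rfl | ⟨f, hf, rfl⟩
  · exact absurd ⟨∅, countable_empty, by simp, by simp⟩ hn
  choose q q1 q2 w' w1 m' m1 n1 n2 using
    fun c : {c : (ℕ → ℕ) × ℕ // ¬ Small (range f) (f '' cylinder c.1 c.2)} => step hf c.2
  let c : List ℕ → {c : (ℕ → ℕ) × ℕ // ¬ Small (range f) (f '' cylinder c.1 c.2)} :=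
    List.rec ⟨(0, 0), by simpa using hn⟩ fun k s c =>
      ⟨(w' c (k + s.length), m' c (k + s.length)), n1 _ _⟩
  let V := fun s => cylinder (c s).1.1 (c s).1.2
  have V1 : ∀ k s, V (k :: s) ⊆ V s := fun k s =>
    (cylinder_anti _ (m1 _ _).le).trans (mem_cylinder_iff_eq.1 (w1 _ _)).le
  have V2 : ∀ s t, s <:+ t → V t ⊆ V s := by
    rintro s _ ⟨u, rfl⟩
    induction u with
    | nil => rfl
    | cons k u ih => exact (V1 k _).trans ih
  have V3 : ∀ k s, f '' V (k :: s) ⊆ cylinder (q (c s)) (k + s.length) := fun k s => n2 _ _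
  refine ⟨fun s => q (c s), fun T => ⟨fun ⟨b, hb⟩ => ?_, fun ⟨z, z1, z2⟩ => ?_⟩⟩
  · have a : ∀ n, n ≤ (c (res b n)).1.2 := fun n => by
      induction n with
      | zero => simp
      | succ n ih => exact ih.trans_lt (m1 _ _)
    have an : Antitone fun n => V (res b n) := antitone_nat_of_succ_le fun n => V1 _ _
    let w : ℕ → ℕ := fun i => (c (res b (i + 1))).1.1 i
    have hw : ∀ n, w ∈ V (res b n) := fun n => mem_cylinder_iff.2 fun i hi => by
      rcases le_total n (i + 1) with h | h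
      · exact mem_cylinder_iff.1 (an h (self_mem_cylinder _ _)) i hi
      · exact (mem_cylinder_iff.1 (an h (self_mem_cylinder _ _)) i (a _)).symm
    refine ⟨f w, mem_closure_of_tendsto (tend (u := fun n => q (c (res b n))) fun n i hi =>
      (mem_cylinder_iff.1 (V3 _ _ ⟨w, hw (n + 1), rfl⟩) i (by simp; omega)).symm)
      (.of_forall fun n => ⟨_, fun t ht => ?_, rfl⟩), w, rfl⟩
    induction n with
    | zero => exact List.suffix_nil.1 ht ▸ hb 0
    | succ n ih =>
      rcases List.suffix_cons_iff.1 ht with rfl | h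
      exacts [hb (n + 1), ih h]
  · let C := fun s => closure ((fun s => q (c s)) '' {t | s <:+ t ∧ ∀ u, u <:+ t → T u})
    have st : ∀ s, z ∈ C s → ∃ k, z ∈ C (k :: s) := fun s hs => by
      obtain ⟨N, hN⟩ : ∃ N, z N ≠ q (c s) N := Function.ne_iff.1 fun e => q1 _ (e ▸ z2)
      have : C s ⊆ (⋃ k ∈ Iic N, C (k :: s)) ∪ {v | v N = q (c s) N} := by
        refine closure_minimal ?_ (((finite_Iic N).isClosed_biUnion fun _ _ => isClosed_closure).union
          (isClosed_eq (continuous_apply N) continuous_const))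
        rintro _ ⟨t, ⟨⟨u, rfl⟩, h2⟩, rfl⟩
        rcases u.eq_nil_or_concat with rfl | ⟨u, k, rfl⟩
        · exact .inr rfl
        have e : k :: s <:+ u.concat k ++ s := ⟨u, by simp⟩
        rcases le_or_gt k N with h | h
        · exact .inl (mem_iUnion₂.2 ⟨k, h, subset_closure ⟨_, ⟨e, h2⟩, rfl⟩⟩)
        · exact .inr (mem_cylinder_iff.1 (closure_minimal ((image_mono (V2 _ _ e)).trans (V3 k s))
            (closed_cyl _ _) (q2 _)) N (by omega))
      obtain ⟨k, -, hk⟩ := mem_iUnion₂.1 ((this hs).resolve_right hN)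
      exact ⟨k, hk⟩
    choose! g hg using st
    let l : ℕ → List ℕ := fun n => Nat.rec [] (fun _ s => g s :: s) n
    have l1 : ∀ n, res (fun n => g (l n)) n = l n := fun n => by
      induction n with
      | zero => rfl
      | succ n ih => rw [res_succ, ih]
    have l2 : ∀ n, z ∈ C (l n) := fun n => by
      induction n with
      | zero => simpa [C, l] using z1
      | succ n ih => exact hg _ ih
    refine ⟨fun n => g (l n), fun n => ?_⟩
    rw [l1]
    obtain ⟨_, t, h, -⟩ := closure_nonempty_iff.1 ⟨z, l2 n⟩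
    exact h.2 _ h.1

end Pool.Agent.H10.DST
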