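import Mathlib

open FirstOrder FirstOrder.Language

namespace Pool.Agent.H10.Defin

universe u v w
variable {L : FirstOrder.Language.{u, v}} {M : Type w} [L.Structure M] {α : Type}

/-- term-definable functions -/
def T (L : FirstOrder.Language.{u, v}) {M : Type w} [L.Structure M] {α : Type}
    (f : (α → M) → M) : Prop := ∃ t : L.Term α, ∀ v, t.realize v = f v

/-- definable predicates -/
def Df (L : FirstOrder.Language.{u, v}) {M : Type w} [L.Structure M] {α : Type}
    (P : (α → M) → Prop) : Prop := ∃ φ : L.Formula α, ∀ v, φ.Realize v ↔ P v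

theorem T.var (a : α) : T L fun v : α → M => v a := ⟨Term.var a, fun _ => rfl⟩

theorem T.relabel {β : Type} {f : (β → M) → M} (h : T L f) (g : β → α) :
    T L fun v : α → M => f fun b => v (g b) := by
  obtain ⟨t, ht⟩ := h
  exact ⟨t.relabel g, fun v => by rw [Term.realize_relabel]; exact ht _⟩

theorem Df.of_iff {P Q : (α → M) → Prop} (hP : Df L P) (h : ∀ v, P v ↔ Q v) : Df L Q := by
  obtain ⟨φ, h'⟩ := hP
  exact ⟨φ, fun v => (h' v).trans (h v)⟩

theorem Df.relabel {β : Type} {P : (β → M) → Prop} (h : Df L P) (g : β → α) :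
    Df L fun v : α → M => P fun b => v (g b) := by
  obtain ⟨t, ht⟩ := h
  exact ⟨t.relabel g, fun v => by rw [Formula.realize_relabel]; exact ht _⟩

theorem Df.eq {f g : (α → M) → M} (hf : T L f) (hg : T L g) : Df L fun v => f v = g v := by
  obtain ⟨s, hs⟩ := hf
  obtain ⟨t, ht⟩ := hg
  exact ⟨s.equal t, fun v => by rw [Formula.realize_equal, hs, ht]⟩

theorem Df.and {P Q : (α → M) → Prop} (hP : Df L P) (hQ : Df L Q) : Df L fun v => P v ∧ Q v := by
  obtain ⟨φ, h⟩ := hP
  obtain ⟨ψ, h'⟩ := hQ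
  exact ⟨φ ⊓ ψ, fun v => by rw [Formula.realize_inf, h, h']⟩

theorem Df.or {P Q : (α → M) → Prop} (hP : Df L P) (hQ : Df L Q) : Df L fun v => P v ∨ Q v := by
  obtain ⟨φ, h⟩ := hP
  obtain ⟨ψ, h'⟩ := hQ
  exact ⟨φ ⊔ ψ, fun v => by rw [Formula.realize_sup, h, h']⟩

theorem Df.imp {P Q : (α → M) → Prop} (hP : Df L P) (hQ : Df L Q) : Df L fun v => P v → Q v := by
  obtain ⟨φ, h⟩ := hP
  obtain ⟨ψ, h'⟩ := hQ
  exact ⟨φ.imp ψ, fun v => by rw [Formula.realize_imp, h, h']⟩

theorem Df.not {P : (α → M) → Prop} (hP : Df L P) : Df L fun v => ¬ P v := by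
  obtain ⟨φ, h⟩ := hP
  exact ⟨φ.not, fun v => by rw [Formula.realize_not, h]⟩

theorem Df.finAll {β : Type} [Finite β] {P : β → (α → M) → Prop} (hP : ∀ b, Df L (P b)) :
    Df L fun v => ∀ b, P b v := by
  choose φ h using hP
  exact ⟨Formula.iInf φ, fun v => by rw [Formula.realize_iInf]; exact forall_congr' fun b => h b v⟩

theorem Df.finEx {β : Type} [Finite β] {P : β → (α → M) → Prop} (hP : ∀ b, Df L (P b)) :
    Df L fun v => ∃ b, P b v := by
  choose φ h using hP
  exact ⟨Formula.iSup φ, fun v => by rw [Formula.realize_iSup]; exact exists_congr fun b => h b v⟩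

theorem Df.exFun {β : Type} [Finite β] {P : (α → M) → (β → M) → Prop}
    (hP : Df L fun w : α ⊕ β → M => P (fun a => w (Sum.inl a)) fun b => w (Sum.inr b)) :
    Df L fun v => ∃ y : β → M, P v y := by
  obtain ⟨φ, h⟩ := hP
  exact ⟨φ.iExs β, fun v => by rw [Formula.realize_iExs]; exact exists_congr fun b => h _⟩

theorem Df.allFun {β : Type} [Finite β] {P : (α → M) → (β → M) → Prop}
    (hP : Df L fun w : α ⊕ β → M => P (fun a => w (Sum.inl a)) fun b => w (Sum.inr b)) :
    Df L fun v => ∀ y : β → M, P v y := by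
  obtain ⟨φ, h⟩ := hP
  exact ⟨φ.iAlls β, fun v => by rw [Formula.realize_iAlls]; exact forall_congr' fun b => h _⟩

theorem Df.ex {P : (α → M) → M → Prop}
    (hP : Df L fun w : α ⊕ Unit → M => P (fun a => w (Sum.inl a)) (w (Sum.inr ()))) :
    Df L fun v => ∃ y : M, P v y :=
  (Df.exFun (P := fun v (y : Unit → M) => P v (y ())) hP).of_iff fun _ =>
    ⟨fun ⟨y, h⟩ => ⟨y (), h⟩, fun ⟨y, h⟩ => ⟨fun _ => y, h⟩⟩

theorem Df.all {P : (α → M) → M → Prop}
    (hP : Df L fun w : α ⊕ Unit → M => P (fun a => w (Sum.inl a)) (w (Sum.inr ()))) :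
    Df L fun v => ∀ y : M, P v y :=
  (Df.allFun (P := fun v (y : Unit → M) => P v (y ())) hP).of_iff fun _ =>
    ⟨fun h y => h fun _ => y, fun h y => h (y ())⟩

/-- a formula mentions only finitely many parameters -/
theorem fin_params {κ : Type} [Inhabited κ] (φ : L.Formula (α ⊕ κ)) :
    ∃ (r : ℕ) (c : Fin r → κ) (ψ : L.Formula (α ⊕ Fin r)), ∀ (v : α → M) (w : κ → M),
      ψ.Realize (Sum.elim v fun i => w (c i)) ↔ φ.Realize (Sum.elim v w) := by
  classical
  let e := (BoundedFormula.freeVarFinset φ).equivFin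
  refine ⟨_, fun j => Sum.elim (fun _ => default) id (e.symm j).1,
    BoundedFormula.restrictFreeVar φ fun x => Sum.elim Sum.inl (fun _ => Sum.inr (e x)) x.1,
    fun v w => BoundedFormula.realize_restrictFreeVar _ ?_⟩
  rintro ⟨a | a, h⟩ <;> simp

section ring
variable {R : Type} [CommRing R] [Ring.CompatibleRing R]

theorem T.add {f g : (α → R) → R} (hf : T Language.ring f) (hg : T Language.ring g) :
    T Language.ring fun v => f v + g v := by
  obtain ⟨s, hs⟩ := hf
  obtain ⟨t, ht⟩ := hg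
  exact ⟨s + t, fun v => by rw [Ring.realize_add, hs, ht]⟩

theorem T.mul {f g : (α → R) → R} (hf : T Language.ring f) (hg : T Language.ring g) :
    T Language.ring fun v => f v * g v := by
  obtain ⟨s, hs⟩ := hf
  obtain ⟨t, ht⟩ := hg
  exact ⟨s * t, fun v => by rw [Ring.realize_mul, hs, ht]⟩

theorem T.sub {f g : (α → R) → R} (hf : T Language.ring f) (hg : T Language.ring g) :
    T Language.ring fun v => f v - g v := by
  obtain ⟨s, hs⟩ := hf
  obtain ⟨t, ht⟩ := hg
  exact ⟨s + -t, fun v => by rw [Ring.realize_add, Ring.realize_neg, hs, ht, ← sub_eq_add_neg]⟩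

theorem T.zero : T Language.ring fun _ : α → R => (0 : R) := ⟨0, fun v => Ring.realize_zero v⟩
theorem T.one : T Language.ring fun _ : α → R => (1 : R) := ⟨1, fun v => Ring.realize_one v⟩

theorem Df.dvd {f g : (α → R) → R} (hf : T Language.ring f) (hg : T Language.ring g) :
    Df Language.ring fun v => f v ∣ g v :=
  Df.ex (P := fun v c => g v = f v * c) (Df.eq (hg.relabel _) ((hf.relabel _).mul (T.var _)))

theorem Df.unit {f : (α → R) → R} (hf : T Language.ring f) :
    Df Language.ring fun v => IsUnit (f v) :=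
  (Df.dvd hf T.one).of_iff fun _ => isUnit_iff_dvd_one.symm

theorem Df.cop {f g : (α → R) → R} (hf : T Language.ring f) (hg : T Language.ring g) :
    Df Language.ring fun v => IsCoprime (f v) (g v) :=
  Df.ex (P := fun v a => ∃ b, a * f v + b * g v = 1) (Df.ex (Df.eq
    (((T.var _).mul ((hf.relabel _).relabel _)).add ((T.var _).mul ((hg.relabel _).relabel _)))
    T.one))

end ring

end Pool.Agent.H10.Defin
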