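import Pool.Agent.H10.Reg

open Set Filter Topology

namespace Pool.Agent.H10.PosIso

section States

variable (X : Type*) [TopologicalSpace X] [CompactSpace X]

def St : Set (C(X, ℝ) → ℝ) :=
  {s | (∀ f g, s (f + g) = s f + s g) ∧ (∀ (c : ℝ) f, s (c • f) = c * s f) ∧
    ∀ (f : C(X, ℝ)) (a : ℝ), (∀ x, a ≤ f x) → a ≤ s f}

variable {X}

def St.lin (s : St X) : C(X, ℝ) →ₗ[ℝ] ℝ where
  toFun := s.1
  map_add' := s.2.1
  map_smul' := s.2.2.1

lemma St.le (s : St X) (f : C(X, ℝ)) (a : ℝ) (h : ∀ x, f x ≤ a) : s.1 f ≤ a := by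
  have h1 := s.2.2.2 (-f) (-a) fun x => by simpa using h x
  have h2 : s.1 (-f) = -s.1 f := map_neg (St.lin s) f
  linarith

lemma St.abs_le (s : St X) (f : C(X, ℝ)) : |s.1 f| ≤ ‖f‖ :=
  _root_.abs_le.2 ⟨s.2.2.2 f _ fun x => (_root_.abs_le.1 (f.norm_coe_le_norm x)).1,
    St.le s f _ fun x => (_root_.abs_le.1 (f.norm_coe_le_norm x)).2⟩

lemma St.cont (s : St X) : Continuous s.1 :=
  ((St.lin s).mkContinuous 1 fun f => by rw [one_mul]; exact St.abs_le s f).continuous

lemma isClosed_St : IsClosed (St X) := by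
  have : St X = (⋂ f, ⋂ g, {s : C(X, ℝ) → ℝ | s (f + g) = s f + s g}) ∩
      ((⋂ c : ℝ, ⋂ f, {s : C(X, ℝ) → ℝ | s (c • f) = c * s f}) ∩
      ⋂ f : C(X, ℝ), ⋂ a : ℝ, ⋂ _ : ∀ x, a ≤ f x, {s : C(X, ℝ) → ℝ | a ≤ s f}) := by
    ext s
    simp only [St, mem_inter_iff, mem_iInter, Set.mem_ofPred_eq]
  rw [this]
  refine IsClosed.inter (isClosed_iInter fun f => isClosed_iInter fun g => ?_) (IsClosed.inter
    (isClosed_iInter fun c => isClosed_iInter fun f => ?_)
    (isClosed_iInter fun f => isClosed_iInter fun a => isClosed_iInter fun _ => ?_))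
  · exact isClosed_eq (by fun_prop) (by fun_prop)
  · exact isClosed_eq (by fun_prop) (by fun_prop)
  · exact isClosed_le continuous_const (by fun_prop)

instance : CompactSpace (St X) := by
  refine isCompact_iff_compactSpace.1 ((isCompact_univ_pi fun f : C(X, ℝ) =>
    isCompact_Icc (a := -‖f‖) (b := ‖f‖)).of_isClosed_subset isClosed_St fun s hs f _ => ?_)
  exact abs_le.1 (St.abs_le ⟨s, hs⟩ f)

def dirac : C(X, St X) :=
  ⟨fun x => ⟨fun f => f x, fun _ _ => rfl, fun _ _ => rfl, fun _ _ h => h x⟩,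
    (continuous_pi fun f => f.continuous).subtype_mk _⟩

instance [Nonempty X] : Nonempty (St X) := ‹Nonempty X›.map dirac

def St.ev (f : C(X, ℝ)) : C(St X, ℝ) :=
  ⟨fun s => s.1 f, (continuous_apply f).comp continuous_subtype_val⟩

lemma reg_St [T2Space X] : Reg fun s : St X => {y : X | ∀ x, s = dirac x → y = x} := by
  refine ⟨{ toFun := St.ev, map_add' := fun f g => ?_, map_smul' := fun c f => ?_ },
    fun f s a ha => ?_⟩
  · ext s; exact s.2.1 f g
  · ext s; exact s.2.2.1 c f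
  · by_cases h : ∃ x, s = dirac x
    · obtain ⟨x, rfl⟩ := h
      refine ha x fun x' hx' => ?_
      by_contra hne
      obtain ⟨g, h0, h1, -⟩ := exists_continuous_zero_one_of_isClosed (isClosed_singleton (x := x))
        (isClosed_singleton (x := x')) (disjoint_singleton.2 hne)
      have e : g x = g x' := congrArg (fun t : St X => t.1 g) hx'
      rw [h0 rfl, h1 rfl] at e
      simp at e
    · exact s.2.2.2 f a fun y => ha y fun x hx => absurd ⟨x, hx⟩ h

end States

lemma reg_bern : Reg fun t : unitInterval =>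
    {β : Bool | (β = true → (t : ℝ) ≠ 0) ∧ (β = false → (t : ℝ) ≠ 1)} := by
  refine ⟨{ toFun := fun f => ⟨fun t => (t : ℝ) * f true + (1 - t) * f false, by fun_prop⟩
            map_add' := fun f g => ?_
            map_smul' := fun c f => ?_ }, fun f t a ha => ?_⟩
  · ext t; simp; ring
  · ext t; simp; ring
  · change a ≤ (t : ℝ) * f true + (1 - t) * f false
    by_cases h0 : (t : ℝ) = 0
    · have := ha false ⟨by simp, fun _ => by rw [h0]; exact zero_ne_one⟩
      rw [h0]; linarith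
    by_cases h1 : (t : ℝ) = 1
    · have := ha true ⟨fun _ => h0, by simp⟩
      rw [h1]; linarith
    have e1 := ha true ⟨fun _ => h0, by simp⟩
    have e2 := ha false ⟨by simp, fun _ => h1⟩
    nlinarith [t.2.1, t.2.2]

section Ditor

variable {J K : Type} [TopologicalSpace K] [CompactSpace K] (y : J → C(K, ℝ))

noncomputable def lev (p : J × ℕ) (s : K) : ℝ :=
  (((Nat.unpair p.2).2 : ℝ) + 1) * y p.1 s - (((Nat.unpair p.2).1 : ℝ) + 1)

lemma lev_cont (p : J × ℕ) : Continuous (lev y p) := by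
  unfold lev; fun_prop

def DR : Set ((J × ℕ → Bool) × K) :=
  {w | ∀ p, (w.1 p = true → 0 ≤ lev y p w.2) ∧ (w.1 p = false → lev y p w.2 ≤ 1)}

lemma DR_closed : IsClosed (DR y) := by
  have : DR y = ⋂ p, (({w : (J × ℕ → Bool) × K | w.1 p = false} ∪ {w | 0 ≤ lev y p w.2}) ∩
      ({w : (J × ℕ → Bool) × K | w.1 p = true} ∪ {w | lev y p w.2 ≤ 1})) := by
    ext w
    simp only [DR, mem_iInter, mem_inter_iff, mem_union, Set.mem_ofPred_eq]
    refine forall_congr' fun n => ?_
    cases w.1 n <;> simp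
  rw [this]
  refine isClosed_iInter fun n => IsClosed.inter (IsClosed.union ?_ ?_) (IsClosed.union ?_ ?_)
  · exact isClosed_eq (by fun_prop) continuous_const
  · exact isClosed_le continuous_const ((lev_cont y n).comp continuous_snd)
  · exact isClosed_eq (by fun_prop) continuous_const
  · exact isClosed_le ((lev_cont y n).comp continuous_snd) continuous_const

def DL : Set (J × ℕ → Bool) := Prod.fst '' DR y

lemma DL_closed : IsClosed (DL y) := isClosedMap_fst_of_compactSpace _ (DR_closed y)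

lemma DL_ne [Nonempty K] : (DL y).Nonempty := by
  classical
  obtain ⟨s⟩ := ‹Nonempty K›
  refine ⟨fun p => decide (0 ≤ lev y p s), mem_image_of_mem Prod.fst
    (show (fun p => decide (0 ≤ lev y p s), s) ∈ DR y from fun p => ⟨fun h => ?_, fun h => ?_⟩)⟩
  · exact of_decide_eq_true h
  · have := of_decide_eq_false h
    push Not at this
    change lev y p s ≤ 1
    linarith

lemma DR_lt (h0 : ∀ j s, 0 ≤ y j s) {x : J × ℕ → Bool} {s s' : K} (h : (x, s) ∈ DR y)
    (h' : (x, s') ∈ DR y) (j : J) : ¬ y j s < y j s' := fun hlt => by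
  have hd : 0 < y j s' - y j s := sub_pos.2 hlt
  obtain ⟨m, hm⟩ := exists_nat_gt (3 / (y j s' - y j s))
  rw [div_lt_iff₀ hd] at hm
  have hnn : 0 ≤ ((m : ℝ) + 1) * y j s := mul_nonneg (by positivity) (h0 j s)
  have a1 := Nat.floor_le hnn
  have a2 := Nat.lt_floor_add_one (((m : ℝ) + 1) * y j s)
  set a := ⌊((m : ℝ) + 1) * y j s⌋₊
  have e1 : lev y (j, Nat.pair a m) s = ((m : ℝ) + 1) * y j s - (a + 1) := by simp [lev]
  have e2 : lev y (j, Nat.pair a m) s' = ((m : ℝ) + 1) * y j s' - (a + 1) := by simp [lev]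
  cases hx : x (j, Nat.pair a m)
  · have := (h' _).2 hx
    change lev y _ s' ≤ 1 at this
    nlinarith
  · have := (h _).1 hx
    change 0 ≤ lev y _ s at this
    linarith

theorem ditor (h0 : ∀ j s, 0 ≤ y j s) (hsep : ∀ s s', (∀ j, y j s = y j s') → s = s') :
    ∃ (ψ : C(DL y, K)) (S : K → Set (DL y)), Reg S ∧ ∀ s, ∀ x ∈ S s, ψ x = s := by
  have hfun : ∀ x s s', (x, s) ∈ DR y → (x, s') ∈ DR y → s = s' := fun x s s' h h' =>
    hsep s s' fun j => le_antisymm (not_lt.1 (DR_lt y h0 h' h j)) (not_lt.1 (DR_lt y h0 h h' j))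
  have hex : ∀ x : DL y, ∃ s, (x.1, s) ∈ DR y := fun x => by
    obtain ⟨w, hw, hw'⟩ := x.2
    exact ⟨w.2, by rw [← hw']; exact hw⟩
  choose ψ hψ using hex
  have hψc : Continuous ψ := by
    refine continuous_iff_isClosed.2 fun s hs => ?_
    have : ψ ⁻¹' s = Subtype.val ⁻¹' (Prod.fst '' (DR y ∩ Prod.snd ⁻¹' s)) := by
      ext x
      refine ⟨fun hx => ⟨(x.1, ψ x), ⟨hψ x, hx⟩, rfl⟩, ?_⟩
      rintro ⟨w, ⟨hw, hws⟩, hw'⟩
      have : ψ x = w.2 := hfun x.1 _ _ (hψ x) (by rw [← hw']; exact hw)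
      rw [mem_preimage, this]
      exact hws
    rw [this]
    exact (isClosedMap_fst_of_compactSpace _
      ((DR_closed y).inter (hs.preimage continuous_snd))).preimage continuous_subtype_val
  let g : C(K, J × ℕ → unitInterval) :=
    ⟨fun s p => projIcc 0 1 zero_le_one (lev y p s),
      continuous_pi fun p => continuous_projIcc.comp (lev_cont y p)⟩
  have h1 := (Reg.pi (ι := J × ℕ) (X := fun _ => unitInterval) (Y := fun _ => Bool)
    fun _ => reg_bern).comap g
  have h2 : Reg fun s : K => {x : J × ℕ → Bool | (x, s) ∈ DR y} := h1.mono fun s x hx p => by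
    refine ⟨fun hp => ?_, fun hp => ?_⟩
    · by_contra hc
      refine (hx p).1 hp ?_
      change ((projIcc 0 1 zero_le_one (lev y p s) : unitInterval) : ℝ) = 0
      rw [projIcc_of_le_left _ (not_le.1 hc).le]
    · by_contra hc
      refine (hx p).2 hp ?_
      change ((projIcc 0 1 zero_le_one (lev y p s) : unitInterval) : ℝ) = 1
      rw [projIcc_of_right_le _ (not_le.1 hc).le]
  refine ⟨⟨ψ, hψc⟩, _, h2.restrict (DL_closed y) fun s x hx => mem_image_of_mem Prod.fst hx,
    fun s x hx => hfun x.1 _ _ (hψ x) hx⟩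

end Ditor

structure Zd where
  I : Type
  w : I → ℝ
  L : Set (I → Bool)
  w_pos : ∀ i, 0 < w i
  closed : IsClosed L
  ne : L.Nonempty
  bound : ∀ x ∈ L, ∀ F : Finset I, (∀ i ∈ F, x i = true) → ∑ i ∈ F, w i ≤ 1

namespace Zd

variable (z : Zd)

instance : CompactSpace z.L := isCompact_iff_compactSpace.1 z.closed.isCompact

instance : Nonempty z.L := z.ne.to_subtype

def co (i : z.I) : C(z.L, ℝ) :=
  ⟨fun x => bif x.1 i then 1 else 0,
    (continuous_of_discreteTopology (f := fun b : Bool => bif b then (1 : ℝ) else 0)).comp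
      ((continuous_apply i).comp continuous_subtype_val)⟩

noncomputable def ind (F : Finset z.I) : C(z.L, ℝ) := ∏ i ∈ F, z.co i

lemma ind_of (F : Finset z.I) (x : z.L) (h : ∀ i ∈ F, x.1 i = true) : z.ind F x = 1 := by
  rw [ind, ContinuousMap.prod_apply]
  refine Finset.prod_eq_one fun i hi => ?_
  change (bif x.1 i then (1 : ℝ) else 0) = 1
  rw [h i hi]; rfl

lemma ind_of_not (F : Finset z.I) (x : z.L) (h : ¬ ∀ i ∈ F, x.1 i = true) : z.ind F x = 0 := by
  push Not at h
  obtain ⟨i, hi, hx⟩ := h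
  rw [ind, ContinuousMap.prod_apply]
  refine Finset.prod_eq_zero hi ?_
  change (bif x.1 i then (1 : ℝ) else 0) = 0
  rw [Bool.eq_false_iff.2 hx]; rfl

lemma ind_nonneg (F : Finset z.I) (x : z.L) : 0 ≤ z.ind F x := by
  by_cases h : ∀ i ∈ F, x.1 i = true
  · rw [z.ind_of F x h]; exact zero_le_one
  · rw [z.ind_of_not F x h]

lemma ind_mul [DecidableEq z.I] (F G : Finset z.I) : z.ind F * z.ind G = z.ind (F ∪ G) := by
  ext x
  rw [ContinuousMap.mul_apply]
  by_cases hF : ∀ i ∈ F, x.1 i = true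
  · by_cases hG : ∀ i ∈ G, x.1 i = true
    · rw [z.ind_of F x hF, z.ind_of G x hG, z.ind_of _ x, one_mul]
      intro i hi
      rcases Finset.mem_union.1 hi with h | h
      exacts [hF i h, hG i h]
    · rw [z.ind_of_not G x hG, mul_zero, z.ind_of_not]
      exact fun h => hG fun i hi => h i (Finset.mem_union_right _ hi)
  · rw [z.ind_of_not F x hF, zero_mul, z.ind_of_not]
    exact fun h => hF fun i hi => h i (Finset.mem_union_left _ hi)

noncomputable def W (F : Finset z.I) : ℝ := (∏ i ∈ F, z.w i) / 3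

lemma W_pos (F : Finset z.I) : 0 < z.W F :=
  div_pos (Finset.prod_pos fun i _ => z.w_pos i) (by norm_num)

lemma sum_ind (T : Finset (Finset z.I)) (x : z.L) : ∑ F ∈ T, z.W F * z.ind F x ≤ 1 := by
  classical
  let G : Finset z.I := (T.biUnion id).filter fun i => x.1 i = true
  have h1 : ∑ F ∈ T, z.W F * z.ind F x = ∑ F ∈ T.filter (fun F => ∀ i ∈ F, x.1 i = true), z.W F := by
    rw [Finset.sum_filter]
    refine Finset.sum_congr rfl fun F _ => ?_
    split_ifs with h
    · rw [z.ind_of F x h, mul_one]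
    · rw [z.ind_of_not F x h, mul_zero]
  have h2 : ∑ F ∈ T.filter (fun F => ∀ i ∈ F, x.1 i = true), z.W F ≤ ∑ F ∈ G.powerset, z.W F := by
    refine Finset.sum_le_sum_of_subset_of_nonneg (fun F hF => ?_) fun F _ _ => (z.W_pos F).le
    rw [Finset.mem_filter] at hF
    exact Finset.mem_powerset.2 fun i hi =>
      Finset.mem_filter.2 ⟨Finset.mem_biUnion.2 ⟨F, hF.1, hi⟩, hF.2 i hi⟩
  have h3 : ∑ F ∈ G.powerset, z.W F = (∏ i ∈ G, (1 + z.w i)) / 3 := by
    rw [Finset.prod_one_add, Finset.sum_div]; rfl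
  have h4 : ∏ i ∈ G, (1 + z.w i) ≤ Real.exp (∑ i ∈ G, z.w i) := by
    rw [Real.exp_sum]
    exact Finset.prod_le_prod (fun i _ => by linarith [z.w_pos i]) fun i _ => by
      linarith [Real.add_one_le_exp (z.w i)]
  have h5 : Real.exp (∑ i ∈ G, z.w i) ≤ Real.exp 1 :=
    Real.exp_le_exp.2 (z.bound x.1 x.2 G fun i hi => (Finset.mem_filter.1 hi).2)
  have h6 := Real.exp_one_lt_d9
  rw [h1]
  linarith

noncomputable def yy (F : Finset z.I) : C(St z.L, ℝ) := St.ev (z.ind F)

lemma yy_nonneg (F : Finset z.I) (s : St z.L) : 0 ≤ z.yy F s := s.2.2.2 _ 0 (z.ind_nonneg F)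

lemma sum_yy (T : Finset (Finset z.I)) (s : St z.L) : ∑ F ∈ T, z.W F * z.yy F s ≤ 1 := by
  have h1 : s.1 (∑ F ∈ T, z.W F • z.ind F) = ∑ F ∈ T, z.W F * z.yy F s := by
    change St.lin s _ = _
    rw [map_sum]
    exact Finset.sum_congr rfl fun F _ => map_smul (St.lin s) _ _
  rw [← h1]
  refine St.le s _ _ fun x => ?_
  rw [ContinuousMap.sum_apply]
  exact z.sum_ind T x

lemma yy_sep (s s' : St z.L) (h : ∀ F, z.yy F s = z.yy F s') : s = s' := by
  classical
  let A : Subalgebra ℝ C(z.L, ℝ) := Algebra.adjoin ℝ (range z.ind)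
  have hA : A.SeparatesPoints := fun x x' hne => by
    obtain ⟨i, hi⟩ : ∃ i, x.1 i ≠ x'.1 i := by
      by_contra hc
      push Not at hc
      exact hne (Subtype.ext (funext hc))
    refine ⟨_, ⟨z.ind {i}, Algebra.subset_adjoin (mem_range_self _), rfl⟩, ?_⟩
    simp only [ind, Finset.prod_singleton]
    change (bif x.1 i then (1 : ℝ) else 0) ≠ bif x'.1 i then 1 else 0
    revert hi
    cases x.1 i <;> cases x'.1 i <;> simp
  have htop := ContinuousMap.subalgebra_topologicalClosure_eq_top_of_separatesPoints A hA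
  have hcl : ∀ f ∈ Submonoid.closure (range z.ind), f ∈ range z.ind := fun f hf => by
    induction hf using Submonoid.closure_induction with
    | mem f hf => exact hf
    | one => exact ⟨∅, by simp [ind]⟩
    | mul f g _ _ hf hg =>
      obtain ⟨F, rfl⟩ := hf
      obtain ⟨G, rfl⟩ := hg
      exact ⟨F ∪ G, (z.ind_mul F G).symm⟩
  have hAe : ∀ f ∈ A, s.1 f = s'.1 f := fun f hf => by
    have hf' : f ∈ Submodule.span ℝ (Submonoid.closure (range z.ind) : Set C(z.L, ℝ)) := by
      rw [← Algebra.adjoin_eq_span]; exact hf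
    refine LinearMap.eqOn_span (f := St.lin s) (g := St.lin s') (fun g hg => ?_) hf'
    obtain ⟨F, rfl⟩ := hcl g hg
    exact h F
  refine Subtype.ext (funext fun f => ?_)
  have hf : f ∈ closure (A : Set C(z.L, ℝ)) := by
    change f ∈ A.topologicalClosure
    rw [htop]; trivial
  exact (isClosed_eq (St.cont s) (St.cont s')).closure_subset_iff.2 hAe hf

lemma geo (T : Finset ℕ) : ∑ k ∈ T, (1 / 2 : ℝ) ^ (k + 1) ≤ 1 := by
  have h : HasSum (fun k : ℕ => (1 / 2 : ℝ) ^ (k + 1)) 1 := by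
    have := hasSum_geometric_two.mul_left (1 / 2)
    rw [show (1 / 2 : ℝ) * 2 = 1 by norm_num] at this
    simpa only [pow_succ'] using this
  exact sum_le_hasSum T (fun k _ => by positivity) h

noncomputable def next : Zd where
  I := Finset z.I × ℕ
  w p := z.W p.1 * ((((Nat.unpair p.2).1 : ℝ) + 1) / (((Nat.unpair p.2).2 : ℝ) + 1)) *
    (1 / 2) ^ (p.2 + 1)
  L := DL z.yy
  w_pos p := mul_pos (mul_pos (z.W_pos _) (by positivity)) (by positivity)
  closed := DL_closed _
  ne := DL_ne _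
  bound x hx G hG := by
    classical
    obtain ⟨⟨x', s⟩, hw, rfl⟩ := hx
    have h1 : ∀ p ∈ G, z.W p.1 * ((((Nat.unpair p.2).1 : ℝ) + 1) / (((Nat.unpair p.2).2 : ℝ) + 1)) *
        (1 / 2) ^ (p.2 + 1) ≤ z.W p.1 * z.yy p.1 s * (1 / 2) ^ (p.2 + 1) := fun p hp => by
      have h := (hw p).1 (hG p hp)
      change 0 ≤ lev z.yy p s at h
      unfold lev at h
      have hW := z.W_pos p.1
      gcongr
      rw [div_le_iff₀ (by positivity)]
      linarith
    refine (Finset.sum_le_sum h1).trans ?_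
    have h2 : ∑ p ∈ G, z.W p.1 * z.yy p.1 s * (1 / 2) ^ (p.2 + 1) ≤
        ∑ p ∈ G.image Prod.fst ×ˢ G.image Prod.snd, z.W p.1 * z.yy p.1 s * (1 / 2) ^ (p.2 + 1) :=
      Finset.sum_le_sum_of_subset_of_nonneg Finset.subset_product fun p _ _ =>
        mul_nonneg (mul_nonneg (z.W_pos _).le (z.yy_nonneg _ _)) (by positivity)
    refine h2.trans ?_
    rw [Finset.sum_product]
    dsimp only
    rw [← Finset.sum_mul_sum]
    exact mul_le_one₀ (z.sum_yy _ s) (Finset.sum_nonneg fun k _ => by positivity) (geo _)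

end Zd

end Pool.Agent.H10.PosIso
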