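import Pool.Agent.H10.Eber

open Set Filter Topology

namespace Pool.Agent.H10.PosIso

noncomputable def z0 : Zd where
  I := ℕ ⊕ ℝ
  w := Sum.elim (fun k => (1 / 2) ^ (k + 1) / 2) fun _ => 1 / 2
  L := {x | ∀ a b : ℝ, x (Sum.inr a) = true → x (Sum.inr b) = true → a = b}
  w_pos i := by
    rcases i with k | a
    · simp only [Sum.elim_inl]; positivity
    · simp
  closed := by
    have : {x : ℕ ⊕ ℝ → Bool | ∀ a b : ℝ, x (Sum.inr a) = true → x (Sum.inr b) = true → a = b} =
        ⋂ a : ℝ, ⋂ b : ℝ, ⋂ _ : a ≠ b,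
          ({x : ℕ ⊕ ℝ → Bool | x (Sum.inr a) = false} ∪ {x | x (Sum.inr b) = false}) := by
      ext x
      simp only [mem_iInter, mem_union, Set.mem_ofPred_eq]
      refine forall_congr' fun a => forall_congr' fun b => ?_
      cases x (Sum.inr a) <;> cases x (Sum.inr b) <;> simp
    rw [this]
    exact isClosed_iInter fun a => isClosed_iInter fun b => isClosed_iInter fun _ =>
      (isClosed_eq (continuous_apply _) continuous_const).union
        (isClosed_eq (continuous_apply _) continuous_const)
  ne := ⟨fun _ => false, fun a b h => by simp at h⟩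
  bound x hx F hF := by
    rw [← Finset.toLeft_disjSum_toRight (u := F), Finset.sum_disjSum]
    simp only [Sum.elim_inl, Sum.elim_inr]
    have h1 := Zd.geo F.toLeft
    have h2 : F.toRight.card ≤ 1 := Finset.card_le_one.2 fun a ha b hb =>
      hx a b (hF _ (Finset.mem_toRight.1 ha)) (hF _ (Finset.mem_toRight.1 hb))
    have h3 : (F.toRight.card : ℝ) ≤ 1 := by exact_mod_cast h2
    rw [← Finset.sum_div, Finset.sum_const, nsmul_eq_mul]
    linarith

noncomputable def zs : ℕ → Zd
  | 0 => z0
  | n + 1 => (zs n).next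

abbrev LL : Type := ∀ n, (zs n).L
abbrev KK : Type := ∀ n, St (zs n).L

lemma pc_LK : PC LL KK := by
  refine (Reg.pi (X := fun n => St (zs n).L) (Y := fun n => (zs n).L) fun n => reg_St).pcE
    ⟨fun x n => dirac (x n), continuous_pi fun n => dirac.continuous.comp (continuous_apply n)⟩
    fun x x' h => funext fun n => h n (x n) rfl

lemma pc_KL : PC KK LL := by
  have h : ∀ n, ∃ (ψ : C((zs (n + 1)).L, St (zs n).L)) (S : St (zs n).L → Set (zs (n + 1)).L),
      Reg S ∧ ∀ s, ∀ x ∈ S s, ψ x = s := fun n =>
    ditor (zs n).yy (zs n).yy_nonneg (zs n).yy_sep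
  choose ψ S hS hψ using h
  have h1 : PC KK (∀ n, (zs (n + 1)).L) :=
    (Reg.pi (X := fun n => St (zs n).L) (Y := fun n => (zs (n + 1)).L) hS).pcA
      ⟨fun x n => ψ n (x n), continuous_pi fun n => (ψ n).continuous.comp (continuous_apply n)⟩
      fun s x hx => funext fun n => hψ n _ _ (hx n)
  refine h1.trans (pc_retract
    ⟨fun x n => Nat.casesOn (motive := fun n => (zs n).L) n (Classical.arbitrary _) x,
      continuous_pi fun n => ?_⟩
    ⟨fun x n => x (n + 1), continuous_pi fun n => continuous_apply (n + 1)⟩ fun x => rfl)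
  cases n with
  | zero => exact continuous_const
  | succ n => exact continuous_apply n

def ee (p : D × z0.L) : z0.L :=
  ⟨Sum.elim (fun n => if n % 2 = 0 then p.1 (n / 2) else p.2.1 (Sum.inl (n / 2)))
    fun a => p.2.1 (Sum.inr a), p.2.2⟩

def rr (x : z0.L) : z0.L :=
  ⟨Sum.elim (fun n => x.1 (Sum.inl (2 * n + 1))) fun a => x.1 (Sum.inr a), x.2⟩

lemma ee_cont : Continuous ee := by
  refine Continuous.subtype_mk (continuous_pi fun i => ?_) _
  rcases i with n | a
  · simp only [Sum.elim_inl]
    split_ifs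
    · exact (continuous_apply _).comp continuous_fst
    · exact (continuous_apply _).comp (continuous_subtype_val.comp continuous_snd)
  · exact (continuous_apply _).comp (continuous_subtype_val.comp continuous_snd)

lemma rr_cont : Continuous rr := by
  refine Continuous.subtype_mk (continuous_pi fun i => ?_) _
  rcases i with n | a
  · exact (continuous_apply _).comp continuous_subtype_val
  · exact (continuous_apply _).comp continuous_subtype_val

lemma rr_ee (p : D × z0.L) : rr (ee p) = p.2 := by
  refine Subtype.ext (funext fun i => ?_)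
  rcases i with n | a
  · have h1 : (2 * n + 1) % 2 ≠ 0 := by omega
    have h2 : (2 * n + 1) / 2 = n := by omega
    change (if (2 * n + 1) % 2 = 0 then p.1 ((2 * n + 1) / 2)
      else p.2.1 (Sum.inl ((2 * n + 1) / 2))) = _
    rw [if_neg h1, h2]
  · rfl

lemma pc_DL : PC (D × LL) LL := by
  refine pc_retract
    ⟨fun p n => Nat.casesOn (motive := fun n => (zs n).L) n (ee (p.1, p.2 0)) fun n => p.2 (n + 1),
      continuous_pi fun n => ?_⟩
    ⟨fun x => (fun n => (show z0.L from x 0).1 (Sum.inl (2 * n)),
      fun n => Nat.casesOn (motive := fun n => (zs n).L) n (rr (x 0)) fun n => x (n + 1)),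
      Continuous.prodMk (continuous_pi fun n => ?_) (continuous_pi fun n => ?_)⟩ fun p => ?_
  · cases n with
    | zero => exact ee_cont.comp (continuous_fst.prodMk ((continuous_apply 0).comp continuous_snd))
    | succ n => exact (continuous_apply (n + 1)).comp continuous_snd
  · exact (continuous_apply _).comp (continuous_subtype_val.comp (continuous_apply 0))
  · cases n with
    | zero => exact rr_cont.comp (continuous_apply 0)
    | succ n => exact continuous_apply (n + 1)
  · refine Prod.ext (funext fun n => ?_) (funext fun n => ?_)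
    · have h1 : (2 * n) % 2 = 0 := by omega
      have h2 : (2 * n) / 2 = n := by omega
      change (if (2 * n) % 2 = 0 then p.1 ((2 * n) / 2)
        else (show z0.L from p.2 0).1 (Sum.inl ((2 * n) / 2))) = _
      rw [if_pos h1, h2]
    · cases n with
      | zero => exact rr_ee (p.1, p.2 0)
      | succ n => rfl

theorem iso_KL : Nonempty (C(KK, ℝ) ≃L[ℝ] C(LL, ℝ)) := by
  obtain ⟨T, -⟩ := (steps (pc_DL.trans pc_LK)).1
  obtain ⟨S, -⟩ := (steps (pc_KL.tensor.trans pc_DL)).2
  exact ⟨(T.trans (ContinuousLinearEquiv.prodComm ℝ _ _)).trans S⟩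

def ir (a : ℝ) : z0.I := Sum.inr a

theorem not_metrizable : ¬ TopologicalSpace.MetrizableSpace KK := fun hm => by
  classical
  let U : ℝ → Set KK := fun a => {s | 1 / 2 < z0.yy {ir a} (s 0)}
  have hU : ∀ a, IsOpen (U a) := fun a =>
    isOpen_lt continuous_const ((z0.yy _).continuous.comp (continuous_apply 0))
  have hne : ∀ a, (U a).Nonempty := fun a => by
    let x : z0.L := ⟨fun i => decide (i = ir a), fun b c hb hc => by
      have h1' := of_decide_eq_true hb
      have h2' := of_decide_eq_true hc
      have h1 : b = a := Sum.inr.inj h1'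
      have h2 : c = a := Sum.inr.inj h2'
      rw [h1, h2]⟩
    refine ⟨fun n => Nat.casesOn (motive := fun n => St (zs n).L) n (dirac x)
      fun n => Classical.arbitrary _, ?_⟩
    change 1 / 2 < z0.ind {ir a} x
    rw [z0.ind_of _ x fun i hi => decide_eq_true (Finset.mem_singleton.1 hi)]
    norm_num
  have hd : Pairwise (Function.onFun Disjoint U) := fun a b hab => by
    refine Set.disjoint_left.2 fun s ha hb => ?_
    have h1 : (show St z0.L from s 0).1 (z0.ind {ir a} + z0.ind {ir b}) ≤ 1 := by
      refine St.le _ _ _ fun x => ?_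
      rw [ContinuousMap.add_apply]
      by_cases e1 : ∀ i ∈ ({ir a} : Finset z0.I), x.1 i = true
      · rw [z0.ind_of _ x e1, z0.ind_of_not {ir b} x fun e2 =>
          hab (x.2 a b (e1 _ (Finset.mem_singleton_self _)) (e2 _ (Finset.mem_singleton_self _)))]
        norm_num
      · rw [z0.ind_of_not _ x e1]
        by_cases e2 : ∀ i ∈ ({ir b} : Finset z0.I), x.1 i = true
        · rw [z0.ind_of _ x e2]; norm_num
        · rw [z0.ind_of_not _ x e2]; norm_num
    rw [(show St z0.L from s 0).2.1] at h1
    have ha' : 1 / 2 < (show St z0.L from s 0).1 (z0.ind {ir a}) := ha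
    have hb' : 1 / 2 < (show St z0.L from s 0).1 (z0.ind {ir b}) := hb
    linarith
  let _ := TopologicalSpace.metrizableSpaceMetric KK
  have := hd.countable_of_isOpen_disjoint hU hne
  exact not_countable this

abbrev JJ : Type := Σ n, Finset (zs n).I

noncomputable def phi (s : KK) (j : JJ) : ℝ :=
  (1 / 2) ^ (j.1 + 1) * ((zs j.1).W j.2 * (zs j.1).yy j.2 (s j.1))

lemma phi_nonneg (s : KK) (j : JJ) : 0 ≤ phi s j :=
  mul_nonneg (by positivity) (mul_nonneg ((zs _).W_pos _).le ((zs _).yy_nonneg _ _))

lemma phi_sum (s : KK) (G : Finset JJ) : ∑ j ∈ G, phi s j ≤ 1 := by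
  classical
  rw [← Finset.sigma_image_fst_preimage_mk G, Finset.sum_sigma]
  refine le_trans (Finset.sum_le_sum fun n _ => ?_) (Zd.geo _)
  simp only [phi]
  rw [← Finset.mul_sum]
  exact mul_le_of_le_one_right (by positivity) ((zs n).sum_yy _ _)

lemma phi_sq (s : KK) (G : Finset JJ) : ∑ j ∈ G, ‖phi s j‖ ^ (2 : ENNReal).toReal ≤ 1 := by
  refine le_trans (Finset.sum_le_sum fun j _ => ?_) (phi_sum s G)
  have h1 : phi s j ≤ 1 := by simpa using phi_sum s {j}
  have h0 := phi_nonneg s j
  rw [Real.norm_of_nonneg h0, ENNReal.toReal_ofNat, Real.rpow_two]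
  nlinarith

abbrev EE : Type := lp (fun _ : JJ => ℝ) 2

noncomputable def Phi (s : KK) : EE := ⟨phi s, memℓp_gen' (phi_sq s)⟩

lemma Phi_norm (s : KK) : ‖Phi s‖ ≤ 1 :=
  lp.norm_le_of_forall_sum_le (by norm_num) zero_le_one fun G => by
    rw [Real.one_rpow]; exact phi_sq s G

lemma Phi_inj : Function.Injective Phi := fun s t h => by
  funext n
  refine (zs n).yy_sep _ _ fun F => ?_
  have h1 : phi s ⟨n, F⟩ = phi t ⟨n, F⟩ := congrArg (fun v : EE => v ⟨n, F⟩) h
  simp only [phi] at h1
  exact mul_left_cancel₀ ((zs n).W_pos F).ne' (mul_left_cancel₀ (by positivity) h1)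

lemma phi_cont (j : JJ) : Continuous fun s => phi s j :=
  continuous_const.mul (continuous_const.mul
    (((zs j.1).yy j.2).continuous.comp (continuous_apply j.1)))

lemma Phi_cont : Continuous fun s => toWeakSpace ℝ EE (Phi s) := by
  classical
  refine WeakBilin.continuous_of_continuous_eval _ fun ℓ => ?_
  obtain ⟨a, rfl⟩ := (InnerProductSpace.toDual ℝ EE).surjective ℓ
  change Continuous fun s => inner ℝ a (Phi s)
  have ha := lp.hasSum_single (p := 2) (by norm_num) a
  refine TendstoUniformly.continuous (p := atTop)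
    (F := fun (G : Finset JJ) s => inner ℝ (∑ j ∈ G, lp.single 2 j (a j) : EE) (Phi s)) ?_
    (Frequently.of_forall fun G => ?_)
  · refine Metric.tendstoUniformly_iff.2 fun ε hε => ?_
    filter_upwards [Metric.tendsto_nhds.1 ha ε hε] with G hG s
    rw [Real.dist_eq, ← inner_sub_left]
    rw [dist_comm, dist_eq_norm] at hG
    refine (abs_real_inner_le_norm _ _).trans_lt ?_
    exact (mul_le_of_le_one_right (norm_nonneg _) (Phi_norm s)).trans_lt hG
  · simp only [sum_inner, lp.inner_single_left]
    exact continuous_finsetSum _ fun j _ => continuous_const.inner (phi_cont j)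

theorem final :
    ∃ (E : Type) (_ : NormedAddCommGroup E) (_ : NormedSpace ℝ E) (_ : CompleteSpace E)
      (K : Set (WeakSpace ℝ E)),
      Convex ℝ K ∧ IsCompact K ∧ ¬ TopologicalSpace.MetrizableSpace (↥K) ∧
      ∃ (L : Type) (_ : TopologicalSpace L) (_ : CompactSpace L) (_ : T2Space L),
        TotallyDisconnectedSpace L ∧ Nonempty (C(↥K, ℝ) ≃L[ℝ] C(L, ℝ)) := by
  have hemb : IsEmbedding fun s => toWeakSpace ℝ EE (Phi s) :=
    (Phi_cont.isClosedEmbedding ((toWeakSpace ℝ EE).injective.comp Phi_inj)).isEmbedding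
  let e := hemb.toHomeomorph
  refine ⟨EE, inferInstance, inferInstance, inferInstance,
    range fun s => toWeakSpace ℝ EE (Phi s), ?_, isCompact_range Phi_cont,
    fun h => not_metrizable e.isEmbedding.metrizableSpace,
    LL, inferInstance, inferInstance, inferInstance, inferInstance, ?_⟩
  · rintro _ ⟨s, rfl⟩ _ ⟨t, rfl⟩ a b ha hb hab
    refine ⟨fun n => ⟨fun f => a * (s n).1 f + b * (t n).1 f, fun f g => ?_, fun c f => ?_,
      fun f c hc => ?_⟩, ?_⟩
    · dsimp only
      rw [(s n).2.1, (t n).2.1]; ring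
    · dsimp only
      rw [(s n).2.2.1, (t n).2.2.1]; ring
    · have e1 := (s n).2.2.2 f c hc
      have e2 := (t n).2.2.2 f c hc
      have e3 : c = a * c + b * c := by rw [← add_mul, hab, one_mul]
      dsimp only
      rw [e3]
      gcongr
    · rw [← map_smul, ← map_smul, ← map_add]
      refine congrArg _ (lp.ext (funext fun j => ?_))
      change (1 / 2) ^ (j.1 + 1) * ((zs j.1).W j.2 *
          (a * (zs j.1).yy j.2 (s j.1) + b * (zs j.1).yy j.2 (t j.1))) = a * phi s j + b * phi t j
      simp only [phi]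
      ring
  · obtain ⟨T⟩ := iso_KL
    refine ⟨(ContinuousLinearEquiv.equivOfInverse (pre (e : C(KK, _))) (pre (e.symm : C(_, KK)))
      (fun f => ?_) fun f => ?_).trans T⟩
    · ext x; simp
    · ext x; simp

end Pool.Agent.H10.PosIso
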