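import Mathlib

/-! Fox ideals: general lemmas and a Magnus type group. -/

namespace Pool.Agent.H10.Fox

open MonoidAlgebra

section General

variable {G : Type} [Group G]

/-- augmentation -/
noncomputable def eps (G : Type) [Group G] : MonoidAlgebra ℤ G →+* ℤ :=
  (MonoidAlgebra.lift ℤ ℤ G 1).toRingHom

theorem eps_of (g : G) : eps G (of ℤ G g) = 1 := by
  simp [eps]

theorem inv_smul {M : Type} [AddCommGroup M] [Module (MonoidAlgebra ℤ G) M] (d : M →+ ℤ)
    (h : ∀ g c, d (of ℤ G g • c) = d c) (a : MonoidAlgebra ℤ G) (c : M) :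
    d (a • c) = eps G a * d c := by
  induction a using MonoidAlgebra.induction_on with
  | of g => rw [h, eps_of, one_mul]
  | add a b ha hb => rw [add_smul, map_add, ha, hb, map_add, add_mul]
  | smul r a ha => rw [smul_assoc, map_zsmul, ha, map_zsmul, smul_mul_assoc]

theorem exact_gen {n : ℕ} (s : Fin n → G) (hs : Subgroup.closure (Set.range s) = ⊤)
    (z : MonoidAlgebra ℤ G) (hz : eps G z = 0) :
    ∃ t : Fin n → MonoidAlgebra ℤ G, ∑ i, t i * (of ℤ G (s i) - 1) = z := by
  let L := Submodule.span (MonoidAlgebra ℤ G) (Set.range fun i => of ℤ G (s i) - 1)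
  have h1 : ∀ g : G, of ℤ G g - 1 ∈ L := by
    intro g
    have hg : g ∈ Subgroup.closure (Set.range s) := hs ▸ Subgroup.mem_top g
    induction hg using Subgroup.closure_induction with
    | mem g hg => obtain ⟨i, rfl⟩ := hg; exact Submodule.subset_span ⟨i, rfl⟩
    | one => rw [map_one, sub_self]; exact L.zero_mem
    | mul g h _ _ hg hh =>
      have : of ℤ G (g * h) - 1 = of ℤ G g • (of ℤ G h - 1) + (of ℤ G g - 1) := by
        rw [map_mul, smul_eq_mul]; noncomm_ring
      rw [this]; exact L.add_mem (L.smul_mem _ hh) hg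
    | inv g _ hg =>
      have : of ℤ G g⁻¹ - 1 = (-of ℤ G g⁻¹) • (of ℤ G g - 1) := by
        rw [smul_eq_mul, neg_mul, mul_sub, ← map_mul, inv_mul_cancel, map_one]; noncomm_ring
      rw [this]; exact L.smul_mem _ hg
  have h2 : ∀ z : MonoidAlgebra ℤ G, z - eps G z • 1 ∈ L := by
    intro z
    induction z using MonoidAlgebra.induction_on with
    | of g => rw [eps_of, one_smul]; exact h1 g
    | add a b ha hb =>
      have : a + b - eps G (a + b) • 1 = (a - eps G a • 1) + (b - eps G b • 1) := by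
        rw [map_add, add_smul]; abel
      rw [this]; exact L.add_mem ha hb
    | smul r a ha =>
      have : r • a - eps G (r • a) • 1 = r • (a - eps G a • 1) := by
        rw [map_zsmul, smul_sub, smul_assoc]
      rw [this]; exact L.toAddSubgroup.zsmul_mem ha r
  have h3 := h2 z
  rw [hz, zero_smul, sub_zero] at h3
  exact (Submodule.mem_span_range_iff_exists_fun _).1 h3

theorem lower {n a b : ℕ} (χ : MonoidAlgebra ℤ G →+* ℚ) (D : MonoidAlgebra ℤ G →+ (Fin n → ℚ))
    (hD : ∀ x z, eps G z = 0 → D (x * z) = χ x • D z)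
    (hs : ∀ l, ∃ z, eps G z = 0 ∧ D z = Pi.single l 1)
    (d1 : (Fin a → MonoidAlgebra ℤ G) →ₗ[MonoidAlgebra ℤ G] (Fin b → MonoidAlgebra ℤ G))
    (d0 : (Fin b → MonoidAlgebra ℤ G) →+ ℤ) (hinv : ∀ g c, d0 (of ℤ G g • c) = d0 c)
    (hsurj : Function.Surjective d0) (hex : Function.Exact d1 d0) : n + b ≤ a + 1 := by
  obtain ⟨s, hs1⟩ := hsurj 1
  let f : (Fin b → MonoidAlgebra ℤ G) →ₗ[MonoidAlgebra ℤ G] MonoidAlgebra ℤ G :=
    Fintype.linearCombination _ fun l => ((d0 (Pi.single l 1) : ℤ) : MonoidAlgebra ℤ G)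
  have hf : ∀ e, eps G (f e) = d0 e := by
    intro e
    conv_rhs => rw [pi_eq_sum_univ' e]
    simp only [f, Fintype.linearCombination_apply, map_sum, inv_smul d0 hinv, smul_eq_mul,
      map_mul, map_intCast, Int.cast_id]
  let Ψ : (Fin b → MonoidAlgebra ℤ G) → MonoidAlgebra ℤ G → (Fin n → ℚ) × (Fin b → ℚ) :=
    fun e z => (D (f e - z), fun l => χ (e l))
  have Ψadd : ∀ e z e' z', Ψ (e + e') (z + z') = Ψ e z + Ψ e' z' := by
    intro e z e' z'
    refine Prod.ext ?_ (funext fun l => by simp [Ψ])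
    simp only [Ψ, Prod.fst_add, ← map_add D, map_add f]
    congr 1; abel
  have Ψsmul : ∀ x e z, d0 e = eps G z → Ψ (x • e) (x * z) = χ x • Ψ e z := by
    intro x e z h
    refine Prod.ext ?_ (funext fun l => by simp [Ψ])
    simp only [Ψ, Prod.smul_fst, map_smul, smul_eq_mul, ← mul_sub]
    exact hD _ _ (by rw [map_sub, hf, h, sub_self])
  let v : Option (Fin a) → (Fin n → ℚ) × (Fin b → ℚ) := fun o =>
    match o with
    | none => Ψ s 1
    | some j => Ψ (d1 (Pi.single j 1)) 0
  let W := Submodule.span ℚ (Set.range v)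
  have h1 : ∀ t, Ψ (d1 t) 0 ∈ W := by
    intro t
    induction t using Pi.single_induction with
    | zero =>
      have : Ψ (d1 0) 0 = 0 := Prod.ext (by simp [Ψ]) (funext fun l => by simp [Ψ])
      rw [this]; exact W.zero_mem
    | add t t' ht ht' =>
      have := Ψadd (d1 t) 0 (d1 t') 0
      rw [add_zero] at this
      rw [map_add, this]; exact W.add_mem ht ht'
    | single j x =>
      have e : (Pi.single j x : Fin a → MonoidAlgebra ℤ G) = x • Pi.single j 1 := by
        rw [← Pi.single_smul, smul_eq_mul, mul_one]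
      have := Ψsmul x (d1 (Pi.single j 1)) 0 (by rw [map_zero]; exact (hex _).2 ⟨_, rfl⟩)
      rw [mul_zero] at this
      rw [e, map_smul, this]
      exact W.smul_mem _ (Submodule.subset_span ⟨some j, rfl⟩)
  have h2 : ∀ e z, d0 e = eps G z → Ψ e z ∈ W := by
    intro e z h
    obtain ⟨t, ht⟩ := (hex (e - z • s)).1 (by rw [map_sub, inv_smul d0 hinv, hs1, h]; ring)
    have e1 := Ψadd (d1 t) 0 (z • s) (z * 1)
    rw [Ψsmul z s 1 (by rw [hs1, map_one]), ht, sub_add_cancel, zero_add, mul_one, ← ht] at e1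
    rw [e1]
    exact W.add_mem (h1 t) (W.smul_mem _ (Submodule.subset_span ⟨none, rfl⟩))
  have h3 : W = ⊤ := by
    rw [eq_top_iff]
    rintro ⟨p, q⟩ -
    have e : (p, q) = ∑ l, p l • ((Pi.single l 1, 0) : (Fin n → ℚ) × (Fin b → ℚ)) +
        ∑ l, q l • ((0, Pi.single l 1) : (Fin n → ℚ) × (Fin b → ℚ)) := by
      refine Prod.ext ?_ ?_
      · simp only [Prod.fst_add, Prod.fst_sum, Prod.smul_fst, smul_zero, Finset.sum_const_zero,
          add_zero]
        exact pi_eq_sum_univ' p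
      · simp only [Prod.snd_add, Prod.snd_sum, Prod.smul_snd, smul_zero, Finset.sum_const_zero,
          zero_add]
        exact pi_eq_sum_univ' q
    rw [e]
    refine W.add_mem (W.sum_mem fun l _ => W.smul_mem _ ?_) (W.sum_mem fun l _ => W.smul_mem _ ?_)
    · obtain ⟨z, hz, hz'⟩ := hs l
      have := h2 0 (-z) (by simp [hz])
      have e : Ψ 0 (-z) = (Pi.single l 1, 0) :=
        Prod.ext (by simp [Ψ, hz']) (funext fun l => by simp [Ψ])
      rwa [e] at this
    · have := h2 (Pi.single l 1) (f (Pi.single l 1)) (hf _).symm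
      have e : Ψ (Pi.single l 1) (f (Pi.single l 1)) = (0, Pi.single l 1) :=
        Prod.ext (by simp [Ψ]) (funext fun k => by
          by_cases h : k = l
          · subst h; simp [Ψ]
          · simp [Ψ, h])
      rwa [e] at this
  have := finrank_le_of_span_eq_top h3
  simpa using this

end General

/-- operators on sequences -/
abbrev E := Module.End ℚ (ℕ → ℚ)

/-- the coefficient ring -/
abbrev T := E × ℚ

/-- a partial substitution operator -/
def op (p : ℕ → Prop) [DecidablePred p] (σ : ℕ → ℕ) : E where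
  toFun f k := if p k then f (σ k) else 0
  map_add' f g := by funext k; simp only [Pi.add_apply]; split_ifs <;> simp
  map_smul' c f := by funext k; simp only [Pi.smul_apply]; split_ifs <;> simp

theorem op_apply (p : ℕ → Prop) [DecidablePred p] (σ : ℕ → ℕ) (f : ℕ → ℚ) (k : ℕ) :
    op p σ f k = if p k then f (σ k) else 0 := rfl

theorem op_sq (p : ℕ → Prop) [DecidablePred p] (σ : ℕ → ℕ) (h : ∀ k, p k → ¬ p (σ k)) :
    op p σ * op p σ = 0 := by
  ext f k
  simp only [LinearMap.comp_apply, Module.End.mul_apply, op_apply, LinearMap.zero_apply,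
    Pi.zero_apply]
  split_ifs with h1 h2
  · exact absurd h2 (h k h1)
  · rfl
  · rfl

/-- a unit -/
def un (n : E) (h : n * n = 0) (c : ℚ) (hc : c ≠ 0) : Tˣ where
  val := (1 + n, c)
  inv := (1 - n, c⁻¹)
  val_inv := Prod.ext (by
    change (1 + n) * (1 - n) = 1
    rw [add_mul, mul_sub, mul_sub, h]; simp) (mul_inv_cancel₀ hc)
  inv_val := Prod.ext (by
    change (1 - n) * (1 + n) = 1
    rw [sub_mul, mul_add, mul_add, h]; simp) (inv_mul_cancel₀ hc)

/-- the four units -/
def u1 : Tˣ := un (op (fun k => k % 2 = 1) (· - 1)) (op_sq _ _ (by intro k; omega)) 2 two_ne_zero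
/-- the four units -/
def u2 : Tˣ := un (op (fun k => k % 2 = 0 ∧ k ≠ 0) (· - 1)) (op_sq _ _ (by intro k; omega)) 1
  one_ne_zero
/-- the four units -/
def u3 : Tˣ := un (op (fun k => k % 2 = 1) (· + 1)) (op_sq _ _ (by intro k; omega)) 2 two_ne_zero
/-- the four units -/
def u4 : Tˣ := un (op (fun k => k % 2 = 0) (· + 1)) (op_sq _ _ (by intro k; omega)) 1 one_ne_zero

/-- the shift -/
def al : T := u1 + u2 - 1 - 1
/-- its left inverse -/
def be : T := u3 + u4 - 1 - 1

theorem al_fst (f : ℕ → ℚ) (k : ℕ) : al.1 f k = if k = 0 then 0 else f (k - 1) := by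
  change ((1 + op (fun k => k % 2 = 1) (· - 1)) + (1 + op (fun k => k % 2 = 0 ∧ k ≠ 0) (· - 1))
    - 1 - 1 : E) f k = _
  simp only [LinearMap.sub_apply, LinearMap.add_apply, Module.End.one_apply, Pi.sub_apply,
    Pi.add_apply, op_apply]
  split_ifs <;> first | ring1 | omega

theorem be_fst (f : ℕ → ℚ) (k : ℕ) : be.1 f k = f (k + 1) := by
  change ((1 + op (fun k => k % 2 = 1) (· + 1)) + (1 + op (fun k => k % 2 = 0) (· + 1))
    - 1 - 1 : E) f k = _
  simp only [LinearMap.sub_apply, LinearMap.add_apply, Module.End.one_apply, Pi.sub_apply,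
    Pi.add_apply, op_apply]
  split_ifs <;> first | ring1 | omega

theorem be_al : be * al = 1 := by
  refine Prod.ext (LinearMap.ext fun f => funext fun k => ?_) ?_
  · change be.1 (al.1 f) k = f k
    rw [be_fst, al_fst]; simp
  · change ((2 : ℚ) + 1 - 1 - 1) * (2 + 1 - 1 - 1) = 1
    norm_num

theorem al_ne (c : T) : al * c ≠ 1 := by
  intro h
  have : al.1 (c.1 1) 0 = 1 := congrFun (congrArg (fun t : T => t.1 1) h) 0
  rw [al_fst] at this
  simp at this

/-- the ambient affine group -/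
@[ext] structure Mg (R : Type) [Ring R] where
  u : Rˣ
  v : Fin 5 → R

section Aff

variable {R : Type} [Ring R]

instance : Mul (Mg R) := ⟨fun a b => ⟨a.u * b.u, a.v + (a.u : R) • b.v⟩⟩
instance : One (Mg R) := ⟨⟨1, 0⟩⟩
instance : Inv (Mg R) := ⟨fun a => ⟨a.u⁻¹, -((a.u⁻¹ : Rˣ) : R) • a.v⟩⟩

@[simp] theorem mul_u (a b : Mg R) : (a * b).u = a.u * b.u := rfl
@[simp] theorem mul_v (a b : Mg R) : (a * b).v = a.v + (a.u : R) • b.v := rfl
@[simp] theorem one_u : (1 : Mg R).u = 1 := rfl
@[simp] theorem one_v : (1 : Mg R).v = 0 := rfl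
@[simp] theorem inv_u (a : Mg R) : (a⁻¹).u = a.u⁻¹ := rfl
@[simp] theorem inv_v (a : Mg R) : (a⁻¹).v = -((a.u⁻¹ : Rˣ) : R) • a.v := rfl

instance : Group (Mg R) := Group.ofLeftAxioms
  (fun a b c => Mg.ext (mul_assoc _ _ _) (by simp [mul_smul, add_assoc]))
  (fun a => Mg.ext (one_mul _) (by simp))
  (fun a => Mg.ext (inv_mul_cancel _) (by simp))

theorem cj (a b x : Mg R) (hx : x.u = 1) :
    a * x * a⁻¹ * (b * x * b⁻¹) * x⁻¹ * x⁻¹ = ⟨1, ((a.u : R) + b.u - 1 - 1) • x.v⟩ := by
  refine Mg.ext (by simp [hx]) ?_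
  simp only [mul_v, mul_u, inv_u, inv_v, hx, mul_one, mul_inv_cancel, Units.val_one, one_smul,
    inv_one, smul_neg, neg_smul, smul_smul, Units.mul_inv, sub_smul, add_smul]
  abel

end Aff

/-- the generators -/
def gen (i : Fin 5) : Mg T := ⟨![1, u1, u2, u3, u4] i, Pi.single i 1⟩

/-- the group -/
abbrev G : Type := Subgroup.closure (Set.range gen)

/-- first generating family -/
def s1 (i : Fin 5) : G := ⟨gen i, Subgroup.subset_closure ⟨i, rfl⟩⟩

/-- the new generator -/
def y : G := s1 1 * s1 0 * (s1 1)⁻¹ * (s1 2 * s1 0 * (s1 2)⁻¹) * (s1 0)⁻¹ * (s1 0)⁻¹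

/-- second generating family -/
def s2 : Fin 5 → G := ![y, s1 1, s1 2, s1 3, s1 4]

theorem y_val : (y : Mg T) = ⟨1, al • Pi.single 0 1⟩ := cj (gen 1) (gen 2) (gen 0) rfl

theorem hs1 : Subgroup.closure (Set.range s1) = ⊤ := by
  rw [← Subgroup.closure_closure_coe_preimage (k := Set.range gen)]
  congr 1
  ext g
  simp only [Set.mem_range, Set.mem_preimage, Subtype.ext_iff]
  rfl

theorem hs2 : Subgroup.closure (Set.range s2) = ⊤ := by
  rw [eq_top_iff, ← hs1, Subgroup.closure_le]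
  have h : ∀ i, s2 i ∈ Subgroup.closure (Set.range s2) := fun i =>
    Subgroup.subset_closure ⟨i, rfl⟩
  rintro _ ⟨i, rfl⟩
  fin_cases i
  · have e : s1 0 = s2 3 * s2 0 * (s2 3)⁻¹ * (s2 4 * s2 0 * (s2 4)⁻¹) * (s2 0)⁻¹ * (s2 0)⁻¹ := by
      apply Subtype.ext
      have := cj (gen 3) (gen 4) y (by rw [y_val])
      have e0 : s2 0 = y := rfl
      have e3 : s2 3 = s1 3 := rfl
      have e4 : s2 4 = s1 4 := rfl
      rw [e0, e3, e4]
      simp only [Subgroup.coe_mul, Subgroup.coe_inv, s1]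
      rw [this, y_val]
      change _ = Mg.mk 1 (be • al • Pi.single 0 1)
      have e : (be • al • Pi.single 0 1 : Fin 5 → T) = Pi.single 0 1 := by
        rw [← mul_smul, be_al]; exact one_smul T _
      rw [e]
      rfl
    change s1 0 ∈ Subgroup.closure (Set.range s2)
    rw [e]
    refine mul_mem (mul_mem (mul_mem (mul_mem (mul_mem (h _) (h _)) (inv_mem (h _)))
      (mul_mem (mul_mem (h _) (h _)) (inv_mem (h _)))) (inv_mem (h _))) (inv_mem (h _))
  · exact h 1
  · exact h 2
  · exact h 3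
  · exact h 4

/-- the linear part -/
noncomputable def rho : MonoidAlgebra ℤ G →+* T :=
  (MonoidAlgebra.lift ℤ T G
    { toFun := fun g => (g.1.u : T), map_one' := rfl, map_mul' := fun _ _ => rfl }).toRingHom

/-- the derivation -/
noncomputable def D : MonoidAlgebra ℤ G →+ (Fin 5 → T) :=
  MonoidAlgebra.liftNC (Int.castAddHom _) fun g : G => g.1.v

theorem rho_of (g : G) : rho (of ℤ G g) = g.1.u := by simp [rho]

theorem D_of (g : G) : D (of ℤ G g) = g.1.v := by simp [D]

theorem D_mul (a b : MonoidAlgebra ℤ G) : D (a * b) = rho a • D b + eps G b • D a := by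
  induction a using MonoidAlgebra.induction_on with
  | of g =>
    induction b using MonoidAlgebra.induction_on with
    | of h => rw [← map_mul, D_of, D_of, D_of, rho_of, eps_of, one_smul, add_comm]; rfl
    | add a b ha hb => simp only [mul_add, map_add, ha, hb, smul_add, add_smul]; abel
    | smul r a ha =>
      rw [mul_smul_comm, map_zsmul, ha, map_zsmul, map_zsmul, smul_add, smul_comm r, smul_assoc]
  | add a c ha hc => simp only [add_mul, map_add, ha, hc, smul_add, add_smul]; abel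
  | smul r a ha =>
    rw [smul_mul_assoc, map_zsmul, ha, map_zsmul, map_zsmul, smul_add, smul_assoc,
      smul_comm r (eps G b)]

theorem D_sub (g : G) : D (of ℤ G g - 1) = g.1.v := by
  rw [map_sub, D_of, ← map_one (of ℤ G), D_of]; simp

theorem eps_sub (g : G) : eps G (of ℤ G g - 1) = 0 := by rw [map_sub, eps_of, map_one, sub_self]

theorem D_sum (s : Fin 5 → G) (t : Fin 5 → MonoidAlgebra ℤ G) :
    D (∑ i, t i * (of ℤ G (s i) - 1)) = ∑ i, rho (t i) • (s i).1.v := by
  simp only [map_sum, D_mul, D_sub, eps_sub, zero_smul, add_zero]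

theorem D_sum1 (t : Fin 5 → MonoidAlgebra ℤ G) (j : Fin 5) :
    D (∑ i, t i * (of ℤ G (s1 i) - 1)) j = rho (t j) := by
  rw [D_sum]
  change (∑ i, rho (t i) • (Pi.single i 1 : Fin 5 → T)) j = _
  simp [Finset.sum_apply, Pi.single_apply]

theorem ker1 (t : Fin 5 → MonoidAlgebra ℤ G) (h : ∑ i, t i * (of ℤ G (s1 i) - 1) = 0) (j : Fin 5) :
    rho (t j) = 0 := by
  rw [← D_sum1, h, map_zero]; rfl

theorem ker2 : ∃ t : Fin 5 → MonoidAlgebra ℤ G, ∑ i, t i * (of ℤ G (s2 i) - 1) = 0 ∧
    rho (t 0) ≠ 0 := by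
  obtain ⟨a, ha⟩ := exact_gen s1 hs1 _ (eps_sub y)
  obtain ⟨b, hb⟩ := exact_gen s2 hs2 _ (eps_sub (s1 0))
  have h0 : rho (a 0) = al := by
    rw [← D_sum1, ha, D_sub, y_val]; simp
  refine ⟨![a 0 * b 0 - 1, a 0 * b 1 + a 1, a 0 * b 2 + a 2, a 0 * b 3 + a 3, a 0 * b 4 + a 4],
    ?_, ?_⟩
  · simp only [Fin.sum_univ_five, s2, Matrix.cons_val] at *
    rw [← hb] at ha
    rw [← sub_eq_zero] at ha
    rw [← ha]
    noncomm_ring
  · change rho (a 0 * b 0 - 1) ≠ 0
    rw [map_sub, map_mul, map_one, h0, sub_ne_zero]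
    exact al_ne _

theorem minimal {a b : ℕ}
    (d1 : (Fin a → MonoidAlgebra ℤ G) →ₗ[MonoidAlgebra ℤ G] (Fin b → MonoidAlgebra ℤ G))
    (d0 : (Fin b → MonoidAlgebra ℤ G) →+ ℤ) (hinv : ∀ g c, d0 (of ℤ G g • c) = d0 c)
    (hsurj : Function.Surjective d0) (hex : Function.Exact d1 d0) : 5 + b ≤ a + 1 := by
  refine lower ((RingHom.snd E ℚ).comp rho)
    { toFun := fun z i => (D z i).2
      map_zero' := by funext i; simp
      map_add' := fun _ _ => by funext i; simp } ?_ ?_ d1 d0 hinv hsurj hex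
  · intro x z hz
    funext i
    simp [D_mul, hz]
  · intro l
    refine ⟨_, eps_sub (s1 l), funext fun i => ?_⟩
    change (D _ i).2 = _
    rw [D_sub]
    change ((Pi.single l 1 : Fin 5 → T) i).2 = _
    by_cases h : i = l
    · subst h; simp
    · simp [h]

end Pool.Agent.H10.Fox
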