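import Pool.Agent.H10.Fox

/-! A non-minimal partial resolution with proper Fox ideal. -/

namespace Pool.Agent.H10.Fox2

open MonoidAlgebra Pool.Agent.H10.Fox

/-- the ambient affine group -/
@[ext] structure Mg (R : Type) [Ring R] where
  u : Rˣ
  v : Fin 7 → R

section Aff

variable {R : Type} [Ring R]

instance : Mul (Mg R) := ⟨fun a b => ⟨a.u * b.u, a.v + (a.u : R) • b.v⟩⟩
instance : One (Mg R) := ⟨⟨1, 0⟩⟩
instance : Inv (Mg R) := ⟨fun a => ⟨a.u⁻¹, -((a.u⁻¹ : Rˣ) : R) • a.v⟩⟩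

@[simp] theorem mul_u (a b : Mg R) : (a * b).u = a.u * b.u := rfl
@[simp] theorem mul_v (a b : Mg R) : (a * b).v = a.v + (a.u : R) • b.v := rfl
@[simp] theorem one_u : (1 : Mg R).u = 1 := rfl
@[simp] theorem one_v : (1 : Mg R).v = 0 := rfl
@[simp] theorem inv_u (a : Mg R) : (a⁻¹).u = a.u⁻¹ := rfl
@[simp] theorem inv_v (a : Mg R) : (a⁻¹).v = -((a.u⁻¹ : Rˣ) : R) • a.v := rfl

instance : Group (Mg R) := Group.ofLeftAxioms
  (fun a b c => Mg.ext (mul_assoc _ _ _) (by simp [mul_smul, add_assoc]))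
  (fun a => Mg.ext (one_mul _) (by simp))
  (fun a => Mg.ext (inv_mul_cancel _) (by simp))

theorem tr_add {H : Subgroup (Mg R)} {v w : Fin 7 → R} (hv : Mg.mk 1 v ∈ H) (hw : Mg.mk 1 w ∈ H) :
    Mg.mk 1 (v + w) ∈ H := by
  have := mul_mem hv hw
  rwa [show Mg.mk 1 v * Mg.mk 1 w = Mg.mk 1 (v + w) from Mg.ext (by simp) (by simp)] at this

/-- scalars preserving the translations in `H` -/
def sc (H : Subgroup (Mg R)) : Subring R where
  carrier := {r | ∀ v, Mg.mk 1 v ∈ H → Mg.mk 1 (r • v) ∈ H}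
  one_mem' v h := by rwa [one_smul]
  zero_mem' v _ := by rw [zero_smul]; exact H.one_mem
  mul_mem' ha hb v h := by rw [mul_smul]; exact ha _ (hb v h)
  add_mem' ha hb v h := by rw [add_smul]; exact tr_add (ha v h) (hb v h)
  neg_mem' {r} ha v h := by
    have := inv_mem (ha v h)
    rwa [show (Mg.mk 1 (r • v))⁻¹ = Mg.mk 1 (-r • v) from Mg.ext (by simp) (by simp)] at this

theorem sc_unit {H : Subgroup (Mg R)} {a : Mg R} (ha : a ∈ H) : (a.u : R) ∈ sc H := by
  intro v h
  have := mul_mem (mul_mem ha h) (inv_mem ha)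
  rwa [show a * Mg.mk 1 v * a⁻¹ = Mg.mk 1 ((a.u : R) • v) from Mg.ext (by simp)
    (by simp [smul_smul])] at this

/-- a unipotent unit -/
def un (n : R) (h : n * n = 0) : Rˣ where
  val := 1 + n
  inv := 1 - n
  val_inv := by rw [add_mul, mul_sub, mul_sub, h]; simp
  inv_val := by rw [sub_mul, mul_add, mul_add, h]; simp

variable (s : Fin 7 → Mg R)

/-- the linear part -/
noncomputable def rho (H : Subgroup (Mg R)) : MonoidAlgebra ℤ H →+* R :=
  (MonoidAlgebra.lift ℤ R H
    { toFun := fun g => (g.1.u : R), map_one' := rfl, map_mul' := fun _ _ => rfl }).toRingHom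

/-- the derivation -/
noncomputable def D (H : Subgroup (Mg R)) : MonoidAlgebra ℤ H →+ (Fin 7 → R) :=
  MonoidAlgebra.liftNC (Int.castAddHom _) fun g : H => g.1.v

variable {H : Subgroup (Mg R)}

theorem rho_of (g : H) : rho H (of ℤ H g) = g.1.u := by simp [rho]

theorem D_of (g : H) : D H (of ℤ H g) = g.1.v := by simp [D]

theorem D_mul (a : MonoidAlgebra ℤ H) (g : H) : D H (a * (of ℤ H g - 1)) = rho H a • g.1.v := by
  induction a using MonoidAlgebra.induction_on with
  | of h => rw [mul_sub, mul_one, ← map_mul, map_sub, D_of, D_of, rho_of]; simp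
  | add a c ha hc => simp only [add_mul, map_add, ha, hc, add_smul]
  | smul r a ha => rw [smul_mul_assoc, map_zsmul, ha, map_zsmul, smul_assoc]

theorem ker1 (s : Fin 7 → H) (hs : ∀ i, (s i).1.v = Pi.single i 1)
    (t : Fin 7 → MonoidAlgebra ℤ H) (h : ∑ i, t i * (of ℤ H (s i) - 1) = 0) (j : Fin 7) :
    rho H (t j) = 0 := by
  have := congrFun (congrArg (D H) h) j
  simpa [map_sum, D_mul, hs, Finset.sum_apply, Pi.single_apply, -MonoidAlgebra.of_apply] using this

end Aff

/-- operators -/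
abbrev E := Module.End ℚ (ℕ × Bool → ℚ)

/-- a partial substitution operator -/
def op (p : ℕ × Bool → Prop) [DecidablePred p] (σ : ℕ × Bool → ℕ × Bool) : E where
  toFun f k := if p k then f (σ k) else 0
  map_add' f g := by funext k; simp only [Pi.add_apply]; split_ifs <;> simp
  map_smul' c f := by funext k; simp only [Pi.smul_apply]; split_ifs <;> simp

theorem op_apply (p : ℕ × Bool → Prop) [DecidablePred p] (σ : ℕ × Bool → ℕ × Bool)
    (f : ℕ × Bool → ℚ) (k : ℕ × Bool) : op p σ f k = if p k then f (σ k) else 0 := rfl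

/-- diagonal operator -/
def dg (p : ℕ → Prop) [DecidablePred p] (τ : ℕ → ℕ) : E := op (fun k => p k.1) fun k => (τ k.1, k.2)

/-- nilpotent operator -/
def nl (p : ℕ → Prop) [DecidablePred p] (τ : ℕ → ℕ) : E :=
  op (fun k => p k.1 ∧ k.2 = true) fun k => (τ k.1, false)

/-- the swap -/
def sw : E := op (fun _ => True) fun k => (k.1, !k.2)

theorem nl_sq (p : ℕ → Prop) [DecidablePred p] (τ : ℕ → ℕ) : nl p τ * nl p τ = 0 :=
  LinearMap.ext fun f => funext fun k => by simp [nl, op_apply]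

theorem sw_sq : sw * sw = 1 := LinearMap.ext fun f => funext fun k => by simp [sw, op_apply]

theorem dg_eq (p : ℕ → Prop) [DecidablePred p] (τ : ℕ → ℕ) :
    dg p τ = (1 + nl p τ - 1) * sw + sw * (1 + nl p τ - 1) := by
  rw [add_sub_cancel_left]
  refine LinearMap.ext fun f => funext fun ⟨k, b⟩ => ?_
  cases b <;> simp [dg, nl, sw, op_apply]

/-- the four operators -/
def al : E := dg (fun k => k % 2 = 0) (· / 2)
/-- the four operators -/
def be : E := dg (fun k => k % 2 = 1) (· / 2)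
/-- the four operators -/
def ga : E := dg (fun _ => True) (2 * ·)
/-- the four operators -/
def de : E := dg (fun _ => True) (2 * · + 1)

theorem ga_al : ga * al = 1 := LinearMap.ext fun f => funext fun k => by
  simp [ga, al, dg, op_apply]
theorem ga_be : ga * be = 0 := LinearMap.ext fun f => funext fun k => by
  simp [ga, be, dg, op_apply]
theorem de_al : de * al = 0 := LinearMap.ext fun f => funext fun k => by
  simp [de, al, dg, op_apply]
theorem de_be : de * be = 1 := LinearMap.ext fun f => funext fun k => by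
  have : (2 * k.1 + 1) / 2 = k.1 := by omega
  simp [de, be, dg, op_apply, this]

/-- the generators -/
def gen (i : Fin 7) : Mg E :=
  ⟨![1, 1, ⟨sw, sw, sw_sq, sw_sq⟩, un _ (nl_sq (fun k => k % 2 = 0) (· / 2)),
    un _ (nl_sq (fun k => k % 2 = 1) (· / 2)), un _ (nl_sq (fun _ => True) (2 * ·)),
    un _ (nl_sq (fun _ => True) (2 * · + 1))] i, Pi.single i 1⟩

theorem scs {H : Subgroup (Mg E)} (h2 : gen 2 ∈ H) (h3 : gen 3 ∈ H) (h4 : gen 4 ∈ H)
    (h5 : gen 5 ∈ H) (h6 : gen 6 ∈ H) : al ∈ sc H ∧ be ∈ sc H ∧ ga ∈ sc H ∧ de ∈ sc H := by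
  have hs : sw ∈ sc H := sc_unit h2
  have key : ∀ (p : ℕ → Prop) [DecidablePred p] (τ : ℕ → ℕ), 1 + nl p τ ∈ sc H → dg p τ ∈ sc H :=
    fun p _ τ h => by
      rw [dg_eq]
      exact add_mem (mul_mem (sub_mem h (one_mem _)) hs) (mul_mem hs (sub_mem h (one_mem _)))
  exact ⟨key _ _ (sc_unit h3), key _ _ (sc_unit h4), key _ _ (sc_unit h5), key _ _ (sc_unit h6)⟩

/-- the group -/
abbrev GG : Subgroup (Mg E) := Subgroup.closure (Set.range gen)

theorem gm (i : Fin 7) : gen i ∈ GG := Subgroup.subset_closure ⟨i, rfl⟩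

/-- first generating family -/
def s1 (i : Fin 7) : GG := ⟨gen i, gm i⟩

theorem hs1 : Subgroup.closure (Set.range s1) = ⊤ := by
  rw [← Subgroup.closure_closure_coe_preimage (k := Set.range gen)]
  congr 1
  ext g
  simp only [Set.mem_range, Set.mem_preimage, Subtype.ext_iff]
  rfl

/-- the new generator -/
def y : GG := ⟨⟨1, al • Pi.single 0 1 + be • Pi.single 1 1⟩,
  tr_add ((scs (gm 2) (gm 3) (gm 4) (gm 5) (gm 6)).1 _ (gm 0))
    ((scs (gm 2) (gm 3) (gm 4) (gm 5) (gm 6)).2.1 _ (gm 1))⟩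

/-- second generating family -/
def s2 : Fin 6 → GG := ![y, s1 2, s1 3, s1 4, s1 5, s1 6]

theorem hs2 : Subgroup.closure (Set.range s2) = ⊤ := by
  have h : ∀ i, (s2 i).1 ∈ (Subgroup.closure (Set.range s2)).map GG.subtype := fun i =>
    ⟨_, Subgroup.subset_closure ⟨i, rfl⟩, rfl⟩
  obtain ⟨-, -, h3, h4⟩ := scs (h 1) (h 2) (h 3) (h 4) (h 5)
  have e0 := h3 _ (h 0)
  have e1 := h4 _ (h 0)
  rw [smul_add, ← mul_smul, ← mul_smul, ga_al, ga_be, one_smul, zero_smul, add_zero] at e0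
  rw [smul_add, ← mul_smul, ← mul_smul, de_al, de_be, one_smul, zero_smul, zero_add] at e1
  have key : ∀ i, gen i ∈ (Subgroup.closure (Set.range s2)).map GG.subtype := fun i => by
    fin_cases i
    exacts [e0, e1, h 1, h 2, h 3, h 4, h 5]
  refine top_le_iff.1 (hs1.ge.trans ((Subgroup.closure_le _).2 ?_))
  rintro _ ⟨i, rfl⟩
  obtain ⟨g, hg, e⟩ := key i
  rwa [show s1 i = g from Subtype.ext e.symm]

end Pool.Agent.H10.Fox2
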