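import Mathlib

namespace Pool.Agent.H10.FreeQ

open Quaternion Cardinal

section words
variable {ι : Type}

def gen {R : Type} [CommRing R] (τ : Option ι → R) (x : ι × Bool) : ℍ[R] :=
  if x.2 then ⟨τ none * (1 + τ (some x.1) ^ 2), -(1 - τ (some x.1) ^ 2), -(2 * τ (some x.1)), 0⟩
  else ⟨τ none * (1 + τ (some x.1) ^ 2), 1 - τ (some x.1) ^ 2, 2 * τ (some x.1), 0⟩

def wv {R : Type} [CommRing R] (τ : Option ι → R) (L : List (ι × Bool)) : ℍ[R] :=
  (L.map (gen τ)).prod

theorem wv_map {R S : Type} [CommRing R] [CommRing S] (f : R →+* S) (τ : Option ι → R)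
    (L : List (ι × Bool)) :
    f (wv τ L).re = (wv (f ∘ τ) L).re ∧ f (wv τ L).imI = (wv (f ∘ τ) L).imI ∧
      f (wv τ L).imJ = (wv (f ∘ τ) L).imJ ∧ f (wv τ L).imK = (wv (f ∘ τ) L).imK := by
  induction L with
  | nil => simp [wv]
  | cons a L ih =>
    obtain ⟨h1, h2, h3, h4⟩ := ih
    have e1 : wv τ (a :: L) = gen τ a * wv τ L := by simp [wv]
    have e2 : wv (f ∘ τ) (a :: L) = gen (f ∘ τ) a * wv (f ∘ τ) L := by simp [wv]
    rw [e1, e2]
    obtain ⟨i, b⟩ := a
    cases b <;> simp [gen, ← h1, ← h2, ← h3, ← h4, map_ofNat]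

open Complex in
noncomputable def mat (q : ℍ[ℂ]) : Matrix (Fin 2) (Fin 2) ℂ :=
  !![q.re + I * q.imI, q.imJ + I * q.imK; -q.imJ + I * q.imK, q.re - I * q.imI]

theorem mat_mul (p q : ℍ[ℂ]) : mat (p * q) = mat p * mat q := by
  ext i j; fin_cases i <;> fin_cases j <;>
    simp [mat, Matrix.mul_apply, Fin.sum_univ_two] <;> ring_nf <;> simp [Complex.I_sq] <;> ring

open Complex in
noncomputable def col (σ : ι → ℝ) (x : ι × Bool) : Fin 2 → ℂ :=
  if x.2 then ![I * σ x.1, 1] else ![I, -σ x.1]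

open Complex in
noncomputable def row (σ : ι → ℝ) (x : ι × Bool) : Fin 2 → ℂ :=
  if x.2 then ![2 * σ x.1, 2 * I] else ![2, -(2 * I * σ x.1)]

noncomputable def tc (σ : ι → ℝ) : Option ι → ℂ := fun o => o.elim Complex.I fun i => (σ i : ℂ)

theorem mat_gen (σ : ι → ℝ) (x : ι × Bool) :
    mat (gen (tc σ) x) = Matrix.vecMulVec (col σ x) (row σ x) := by
  obtain ⟨i, b⟩ := x
  ext k l
  cases b <;> fin_cases k <;> fin_cases l <;>
    simp [mat, gen, tc, col, row, Matrix.vecMulVec_apply] <;> ring_nf <;> simp [Complex.I_sq]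

theorem pair_ne (σ : ι → ℝ) (hpos : ∀ i, 0 < σ i) (hinj : Function.Injective σ)
    (x y : ι × Bool) (h : x.1 = y.1 → x.2 = y.2) :
    row σ x 0 * col σ y 0 + row σ x 1 * col σ y 1 ≠ 0 := by
  obtain ⟨i, b⟩ := x
  obtain ⟨j, c⟩ := y
  intro h0
  have h1 := congrArg Complex.im h0
  have := mul_pos (hpos i) (hpos j)
  cases b <;> cases c <;> simp [row, col] at h1 h
  · linarith
  · exact h (hinj (by linarith))
  · exact h (hinj (by linarith))
  · linarith

theorem mat_wv (σ : ι → ℝ) (hpos : ∀ i, 0 < σ i) (hinj : Function.Injective σ)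
    (L : List (ι × Bool)) : ∀ a, FreeGroup.IsReduced (a :: L) →
      ∃ r : Fin 2 → ℂ, r ≠ 0 ∧ mat (wv (tc σ) (a :: L)) = Matrix.vecMulVec (col σ a) r := by
  induction L with
  | nil =>
    intro a _
    refine ⟨row σ a, ?_, by simp [wv, mat_gen]⟩
    obtain ⟨i, b⟩ := a
    intro h
    cases b
    · simpa [row] using congrFun h 0
    · simpa [row] using congrFun h 1
  | cons b L ih =>
    intro a h
    obtain ⟨h1, h2⟩ := List.isChain_cons_cons.mp h
    obtain ⟨r, hr, hm⟩ := ih b h2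
    refine ⟨(row σ a 0 * col σ b 0 + row σ a 1 * col σ b 1) • r,
      smul_ne_zero (pair_ne σ hpos hinj a b h1) hr, ?_⟩
    have e1 : wv (tc σ) (a :: b :: L) = gen (tc σ) a * wv (tc σ) (b :: L) := by simp [wv]
    rw [e1, mat_mul, hm, mat_gen]
    ext k l
    simp [Matrix.mul_apply, Fin.sum_univ_two, Matrix.vecMulVec_apply]
    ring

theorem not_scalar (τ : Option ι → ℝ) (hτ : AlgebraicIndependent ℚ τ) (L : List (ι × Bool))
    (hL : FreeGroup.IsReduced L) (hJ : (wv τ L).imJ = 0) (hK : (wv τ L).imK = 0) : L = [] := by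
  cases L with
  | nil => rfl
  | cons a L =>
    exfalso
    let σ : ι → ℝ := fun i => Real.exp (τ (some i))
    have hpos : ∀ i, 0 < σ i := fun i => Real.exp_pos _
    have hinj : Function.Injective σ := fun i j h =>
      Option.some_injective _ (hτ.injective (Real.exp_injective h))
    obtain ⟨r, hr, hm⟩ := mat_wv σ hpos hinj L a hL
    let f : MvPolynomial (Option ι) ℚ →+* ℝ := (MvPolynomial.aeval τ).toRingHom
    let g : MvPolynomial (Option ι) ℚ →+* ℂ := (MvPolynomial.aeval (tc σ)).toRingHom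
    have hf : f ∘ MvPolynomial.X = τ := by funext o; simp [f]
    have hg : g ∘ MvPolynomial.X = tc σ := by funext o; simp [g]
    have finj : Function.Injective f := hτ
    obtain ⟨-, -, a3, a4⟩ := wv_map f MvPolynomial.X (a :: L)
    obtain ⟨-, -, b3, b4⟩ := wv_map g MvPolynomial.X (a :: L)
    rw [hf, hJ] at a3
    rw [hf, hK] at a4
    rw [hg, finj (a3.trans (map_zero f).symm), map_zero] at b3
    rw [hg, finj (a4.trans (map_zero f).symm), map_zero] at b4
    have h01 := congrFun (congrFun hm 0) 1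
    have h10 := congrFun (congrFun hm 1) 0
    apply hr
    obtain ⟨i, b⟩ := a
    have hz : r 0 = 0 ∧ r 1 = 0 := by
      cases b <;> simp [mat, ← b3, ← b4, col, Matrix.vecMulVec_apply, (hpos i).ne'] at h01 h10 <;>
        exact ⟨by first | exact h10 | exact h10.symm, by first | exact h01 | exact h01.symm⟩
    ext k
    fin_cases k
    · exact hz.1
    · exact hz.2

theorem gen_ne (τ : Option ι → ℝ) (i : ι) : gen τ (i, true) ≠ 0 := by
  intro h
  have h1 := congrArg QuaternionAlgebra.imI h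
  have h2 := congrArg QuaternionAlgebra.imJ h
  simp [gen] at h1 h2
  rw [h2] at h1
  norm_num at h1

noncomputable def un (τ : Option ι → ℝ) (i : ι) : ℍˣ :=
  Units.mk0 (‖gen τ (i, true)‖⁻¹ • gen τ (i, true))
    (smul_ne_zero (inv_ne_zero (norm_ne_zero_iff.mpr (gen_ne τ i))) (gen_ne τ i))

theorem lift_norm (τ : Option ι → ℝ) (γ : FreeGroup ι) :
    ‖(FreeGroup.lift (un τ) γ : ℍˣ).val‖ = 1 := by
  induction γ using FreeGroup.induction_on with
  | C1 => simp
  | of i =>
    rw [FreeGroup.lift_apply_of]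
    simp [un, norm_smul, norm_ne_zero_iff.mpr (gen_ne τ i)]
  | inv_of i h => rw [map_inv, Units.val_inv_eq_inv_val, norm_inv, h, inv_one]
  | mul a b ha hb => rw [map_mul, Units.val_mul, norm_mul, ha, hb, mul_one]

theorem lift_wv (τ : Option ι → ℝ) (L : List (ι × Bool)) :
    ∃ c : ℝ, (FreeGroup.lift (un τ) (FreeGroup.mk L) : ℍˣ).val = c • wv τ L := by
  rw [FreeGroup.lift_mk]
  induction L with
  | nil => exact ⟨1, by simp [wv]⟩
  | cons a L ih =>
    obtain ⟨c, hc⟩ := ih
    have e1 : wv τ (a :: L) = gen τ a * wv τ L := by simp [wv]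
    rw [List.map_cons, List.prod_cons, Units.val_mul, hc, e1]
    obtain ⟨i, b⟩ := a
    cases b
    · have hs : gen τ (i, false) = star (gen τ (i, true)) := by ext <;> simp [gen]
      refine ⟨(normSq (un τ i).val)⁻¹ * ‖gen τ (i, true)‖⁻¹ * c, ?_⟩
      have : ((un τ i)⁻¹ : ℍˣ).val =
          ((normSq (un τ i).val)⁻¹ * ‖gen τ (i, true)‖⁻¹) • gen τ (i, false) := by
        rw [Units.val_inv_eq_inv_val, Quaternion.inv_def, hs, mul_smul]
        congr 1
        simp [un]
      simp only [cond_false]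
      rw [this, smul_mul_smul_comm]
    · refine ⟨‖gen τ (i, true)‖⁻¹ * c, ?_⟩
      simp only [cond_true, un, Units.val_mk0]
      rw [smul_mul_smul_comm]

theorem lift_inj (τ : Option ι → ℝ) (hτ : AlgebraicIndependent ℚ τ) :
    Function.Injective (FreeGroup.lift (un τ)) := by
  classical
  rw [injective_iff_map_eq_one]
  intro γ hγ
  obtain ⟨c, hc⟩ := lift_wv τ γ.toWord
  rw [FreeGroup.mk_toWord, hγ, Units.val_one] at hc
  have hc0 : c ≠ 0 := by rintro rfl; simp at hc
  have h1 := congrArg QuaternionAlgebra.imJ hc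
  have h2 := congrArg QuaternionAlgebra.imK hc
  simp [hc0] at h1 h2
  exact FreeGroup.toWord_eq_nil_iff.mp (not_scalar τ hτ _ FreeGroup.isReduced_toWord h1 h2)

theorem exists_indep (h : #ι ≤ 𝔠) : ∃ τ : Option ι → ℝ, AlgebraicIndependent ℚ τ := by
  obtain ⟨s, hs⟩ := exists_isTranscendenceBasis ℚ ℝ
  have h1 : 𝔠 ≤ #s := by
    by_contra hlt
    push Not at hlt
    have := hs.isAlgebraic
    have h2 := Algebra.IsAlgebraic.cardinalMk_le_max
      (Algebra.adjoin ℚ (Set.range ((↑) : s → ℝ))) ℝ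
    rw [← hs.1.aevalEquiv.toEquiv.cardinal_eq, mk_real] at h2
    have h3 := MvPolynomial.cardinalMk_le_max (σ := s) (R := ℚ)
    have h4 : #ℚ ⊔ #s ⊔ ℵ₀ < 𝔠 :=
      max_lt (max_lt (by rw [Cardinal.mkRat]; exact aleph0_lt_continuum) hlt) aleph0_lt_continuum
    exact absurd h2 (not_le.mpr (max_lt (h3.trans_lt h4) aleph0_lt_continuum))
  have h2 : #(Option ι) ≤ #s := by
    rw [mk_option]
    exact (add_le_of_le aleph0_le_continuum h (one_le_aleph0.trans aleph0_le_continuum)).trans h1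
  obtain ⟨e⟩ := (Cardinal.le_def _ _).mp h2
  exact ⟨_, hs.1.comp e e.injective⟩

end words

end Pool.Agent.H10.FreeQ
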