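import Mathlib

/-! Frobenius' theorem for prime powers: the number of `p`-elements is divisible by `|G|_p`. -/

namespace Pool.Agent.H10.Frob

open Subgroup Finset

universe u

theorem dvd_sum_class {G : Type u} [Group G] [Finite G] (n : ℕ) (s : Finset G) (c : G → ℕ)
    (hs : ∀ g, ∀ y ∈ s, g * y * g⁻¹ ∈ s) (hc : ∀ g y, c (g * y * g⁻¹) = c y)
    (h : ∀ y ∈ s, n ∣ (centralizer {y}).index * c y) : n ∣ ∑ y ∈ s, c y := by
  classical
  have := Fintype.ofFinite (ConjClasses G)
  rw [← Finset.sum_fiberwise s ConjClasses.mk c]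
  refine Finset.dvd_sum fun K _ => ?_
  rcases (s.filter fun y => ConjClasses.mk y = K).eq_empty_or_nonempty with h0 | ⟨y, hy⟩
  · simp [h0]
  obtain ⟨hy, rfl⟩ := mem_filter.1 hy
  clear hy
  rename_i hy _
  have h1 : ((s.filter fun z => ConjClasses.mk z = ConjClasses.mk y : Finset G) : Set G) =
      MulAction.orbit (ConjAct G) y := by
    ext z
    rw [ConjAct.mem_orbit_conjAct, coe_filter, Set.mem_ofPred_eq, ConjClasses.mk_eq_mk_iff_isConj]
    refine ⟨fun h => h.2, fun h => ⟨?_, h⟩⟩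
    obtain ⟨g, rfl⟩ := isConj_iff.1 h.symm
    exact hs g y hy
  rw [Finset.sum_congr rfl (g := fun _ => c y), sum_const, smul_eq_mul, ← Set.ncard_coe_finset, h1,
    ← MulAction.index_stabilizer]
  · have := h y hy
    rw [centralizer_eq_comap_stabilizer] at this
    exact this
  · intro z hz
    obtain ⟨g, rfl⟩ := isConj_iff.1 (ConjClasses.mk_eq_mk_iff_isConj.1 (mem_filter.1 hz).2).symm
    exact hc g y

/-- the set of `p`-elements -/
def pel (p : ℕ) (G : Type u) [Group G] : Set G := {x | ∃ j, x ^ p ^ j = 1}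

theorem frob (p : ℕ) [hp : Fact p.Prime] (n : ℕ) : ∀ (G : Type u) [Group G] [Finite G],
    Nat.card G = n → ∀ k, p ^ k ∣ n → p ^ k ∣ (pel p G).ncard := by
  induction n using Nat.strong_induction_on with
  | _ n ih =>
  intro G _ _ hG k hk
  classical
  have := Fintype.ofFinite G
  have hn : n ≠ 0 := hG ▸ Nat.card_pos.ne'
  obtain ⟨a, m, hm, rfl⟩ := Nat.exists_eq_pow_mul_and_not_dvd hn p hp.1.ne_one
  have hco : (p ^ a).Coprime m := ((Nat.Prime.coprime_iff_not_dvd hp.1).2 hm).pow_left a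
  obtain ⟨e, ⟨b, hb⟩, he⟩ : ∃ e, p ^ a ∣ e ∧ e ≡ 1 [MOD m] :=
    ⟨_, Nat.modEq_zero_iff_dvd.1 (Nat.chineseRemainder hco 0 1).2.1,
      (Nat.chineseRemainder hco 0 1).2.2⟩
  have hall : ∀ x : G, x ^ (p ^ a * m) = 1 := fun x => hG ▸ pow_card_eq_one'
  have h1 : ∀ y : G, y ^ m = 1 → y ^ e = y := fun y hy => by
    simpa using pow_eq_pow_of_modEq he hy
  have h2 : ∀ x : G, (x ^ e) ^ m = 1 := fun x => by
    rw [← pow_mul, hb, mul_right_comm, pow_mul, hall, one_pow]
  have h3 : ∀ x : G, (x * (x ^ e)⁻¹) ^ p ^ a = 1 := fun x => by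
    rw [((Commute.refl x).pow_right e).inv_right.mul_pow, inv_pow, ← pow_mul, mul_comm e, pow_mul,
      h1 _ (by rw [← pow_mul, hall]), mul_inv_cancel]
  have h4 : ∀ u : G, u ∈ pel p G → u ^ e = 1 := by
    rintro u ⟨j, hj⟩
    have a1 := orderOf_dvd_of_pow_eq_one hj
    have a2 := orderOf_dvd_of_pow_eq_one (hall u)
    have a3 : (orderOf u).Coprime m :=
      (((Nat.Prime.coprime_iff_not_dvd hp.1).2 hm).pow_left j).coprime_dvd_left a1
    exact orderOf_dvd_iff_pow_eq_one.1 ((a3.dvd_of_dvd_mul_right a2).trans ⟨b, hb⟩)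
  let c : G → ℕ := fun y => #{x | x ^ e = y}
  have hc : ∀ y : G, y ^ m = 1 → c y = (pel p (centralizer {y})).ncard := by
    intro y hy
    show #{x | x ^ e = y} = _
    rw [← Set.ncard_coe_finset]
    symm
    refine Set.ncard_congr (fun u _ => u.1 * y) (fun u hu => ?_) (fun u v _ _ h => ?_)
      (fun x hx => ?_)
    · obtain ⟨j, hj⟩ := hu
      have : Commute u.1 y := mem_centralizer_singleton_iff.1 u.2
      simp [this.mul_pow, h4 u.1 ⟨j, congrArg Subtype.val hj⟩, h1 y hy]
    · exact Subtype.ext (mul_right_cancel h)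
    · have hx' : x ^ e = y := by simpa using hx
      subst hx'
      refine ⟨⟨x * (x ^ e)⁻¹, mem_centralizer_singleton_iff.2 ?_⟩, ⟨a, Subtype.ext (h3 x)⟩, by simp⟩
      exact (((Commute.refl x).pow_right e).mul_left (Commute.refl _).inv_left).eq
  have hc0 : ∀ y : G, y ^ m ≠ 1 → c y = 0 := fun y hy =>
    card_eq_zero.2 (filter_eq_empty_iff.2 fun x _ h => hy (h ▸ h2 x))
  have hsum : p ^ a * m = ∑ y, c y := by
    rw [← hG, Nat.card_eq_fintype_card, ← card_univ]
    exact card_eq_sum_card_fiberwise (f := fun x : G => x ^ e) fun _ _ => mem_univ _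
  have hnc : p ^ k ∣ ∑ y with y ∉ center G, c y := by
    refine dvd_sum_class _ _ c (fun g y hy => ?_) (fun g y => ?_) fun y hy => ?_
    · simp only [mem_filter, mem_univ, true_and] at hy ⊢
      refine fun h => hy ?_
      have := (normal_of_characteristic (center G)).conj_mem _ h g⁻¹
      rwa [show g⁻¹ * (g * y * g⁻¹) * g⁻¹⁻¹ = y by group] at this
    · refine card_bij (fun x _ => g⁻¹ * x * g) (fun x hx => ?_) (fun _ _ _ _ h => by simpa using h)
        (fun x hx => ⟨g * x * g⁻¹, ?_, by group⟩)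
      · simp only [mem_filter, mem_univ, true_and] at hx ⊢
        have := conj_pow (a := g⁻¹) (b := x) (i := e)
        rw [inv_inv] at this
        rw [this, hx]
        group
      · simp only [mem_filter, mem_univ, true_and] at hx ⊢
        rw [conj_pow, hx]
    · by_cases h0 : y ^ m = 1
      swap
      · simp [hc0 y h0]
      have hy' : centralizer {y} ≠ ⊤ := fun h => (mem_filter.1 hy).2
        (mem_center_iff.2 fun g => mem_centralizer_singleton_iff.1 (h ▸ mem_top g))
      obtain ⟨i, l, hl, hil⟩ := Nat.exists_eq_pow_mul_and_not_dvd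
        (Nat.card_pos (α := centralizer {y})).ne' p hp.1.ne_one
      have hlt : Nat.card (centralizer {y}) < p ^ a * m := hG ▸
        lt_of_le_of_ne (card_le_card_group _) fun h => hy' (eq_top_of_card_eq _ h)
      have := ih _ hlt (centralizer {y}) rfl i ⟨l, hil⟩
      rw [hc y h0]
      refine dvd_trans ?_ (Nat.mul_dvd_mul_left _ this)
      rw [← hG, ← index_mul_card (centralizer {y}), hil, ← mul_assoc] at hk
      exact (((Nat.Prime.coprime_iff_not_dvd hp.1).2 hl).pow_left k).dvd_of_dvd_mul_right hk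
  let Z : Subgroup G :=
    { carrier := {y | y ∈ center G ∧ y ^ m = 1}
      one_mem' := ⟨one_mem _, one_pow _⟩
      mul_mem' := fun {x y} hx hy => ⟨mul_mem hx.1 hy.1, by
        rw [Commute.mul_pow (mem_center_iff.1 hy.1 x), hx.2, hy.2, one_mul]⟩
      inv_mem' := fun {x} hx => ⟨inv_mem hx.1, by rw [inv_pow, hx.2, inv_one]⟩ }
  have hZ : ¬ p ∣ Nat.card Z := fun h => by
    obtain ⟨z, hz⟩ := exists_prime_orderOf_dvd_card' p h
    exact hm (hz ▸ orderOf_dvd_of_pow_eq_one (Subtype.ext z.2.2))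
  have hce : ∑ y with y ∈ center G, c y = Nat.card Z * (pel p G).ncard := by
    rw [← sum_filter_add_sum_filter_not _ (fun y => y ^ m = 1), sum_eq_zero
      (s := filter (fun y => ¬ y ^ m = 1) _) (fun y hy => hc0 y (mem_filter.1 hy).2), add_zero,
      sum_congr rfl (g := fun _ => (pel p G).ncard), sum_const, smul_eq_mul, ← Set.ncard_coe_finset]
    · congr 1
      refine congrArg Set.ncard (?_ : _ = (Z : Set G))
      ext y
      simp [Z]
    · intro y hy
      simp only [mem_filter, mem_univ, true_and] at hy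
      rw [hc y hy.2]
      refine Set.ncard_congr (fun u _ => u.1) (fun u hu => ?_) (fun u v _ _ h => Subtype.ext h)
        (fun x hx => ⟨⟨x, mem_centralizer_singleton_iff.2 (mem_center_iff.1 hy.1 x)⟩, ?_, rfl⟩)
      · exact hu.imp fun j hj => congrArg Subtype.val hj
      · exact hx.imp fun j hj => Subtype.ext hj
  rw [hsum, ← sum_filter_add_sum_filter_not _ (fun y => y ∈ center G), Nat.dvd_add_left hnc,
    hce] at hk
  exact (((Nat.Prime.coprime_iff_not_dvd hp.1).2 hZ).pow_left k).dvd_of_dvd_mul_left hk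

end Pool.Agent.H10.Frob
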