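import Mathlib

set_option autoImplicit false

namespace Pool.Agent.H10.Funtf

open Finset Module Filter Topology

lemma sum_nonpos_of_prod {S : Type*} [Fintype S] (r : S → ℝ)
    (h : ∀ t : ℝ, 0 < t → t < 1 → (∀ s, 0 < 1 + t * r s) → ∏ s, (1 + t * r s) ≤ 1) :
    ∑ s, r s ≤ 0 := by
  have hc : Tendsto (fun t : ℝ => ∑ s, r s / (1 + t * r s)) (𝓝[>] 0) (𝓝 (∑ s, r s)) := by
    refine tendsto_nhdsWithin_of_tendsto_nhds (tendsto_finsetSum _ fun s _ => ?_)
    have : ContinuousAt (fun t : ℝ => r s / (1 + t * r s)) 0 :=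
      continuousAt_const.div (by fun_prop) (by simp)
    simpa using this.tendsto
  refine le_of_tendsto hc ?_
  have h1 : ∀ᶠ t : ℝ in 𝓝[>] 0, ∀ s, 0 < 1 + t * r s := by
    refine eventually_all.mpr fun s => mem_nhdsWithin_of_mem_nhds ?_
    have : ContinuousAt (fun t : ℝ => 1 + t * r s) 0 := by fun_prop
    exact this.eventually (lt_mem_nhds (by simp))
  filter_upwards [h1, Ioo_mem_nhdsGT (zero_lt_one' ℝ)] with t ht ht2
  have h2 := h t ht2.1 ht2.2 ht
  have h3 : ∑ s, Real.log (1 + t * r s) ≤ 0 := by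
    rw [← Real.log_prod (fun s _ => (ht s).ne')]
    exact Real.log_nonpos (prod_nonneg fun s _ => (ht s).le) h2
  have h4 : t * ∑ s, r s / (1 + t * r s) ≤ ∑ s, Real.log (1 + t * r s) := by
    rw [mul_sum]
    refine sum_le_sum fun s _ => le_trans (le_of_eq ?_) (Real.one_sub_inv_le_log_of_pos (ht s))
    have := (ht s).ne'
    field_simp
    ring
  exact nonpos_of_mul_nonpos_right (h4.trans h3) ht2.1 |> fun h => h

theorem exists_funtf (𝕜 : Type*) [RCLike 𝕜] (X : Type*) [NormedAddCommGroup X] [NormedSpace 𝕜 X]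
    [FiniteDimensional 𝕜 X] (n N : ℕ) (hn : finrank 𝕜 X = n) (hn1 : 1 ≤ n) (hN : n ≤ N) :
    ∃ (x : Fin N → X) (f : Fin N → X →L[𝕜] 𝕜),
      (∀ i, ‖x i‖ = 1 ∧ ‖f i‖ = 1 ∧ f i (x i) = 1) ∧
      ∀ y, ∑ i, f i y • x i = ((N : 𝕜) / (n : 𝕜)) • y := by
  classical
  haveI : NeZero N := ⟨by omega⟩
  haveI : ProperSpace X := FiniteDimensional.proper_rclike 𝕜 X
  let b : Basis (Fin n) 𝕜 X := finBasisOfFinrankEq 𝕜 X hn
  let σ : Fin N → Fin n → Fin N := fun s i => s + Fin.castLE hN i
  have hσ : ∀ s, Function.Injective (σ s) := fun s i j h =>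
    Fin.castLE_injective hN (add_left_cancel h)
  have hdc : Continuous (fun v : Fin n → X => b.det v) := by
    simp only [Basis.det_apply]
    refine Continuous.matrix_det (continuous_matrix fun i j => ?_)
    exact ((b.coord i).continuous_of_finiteDimensional).comp (continuous_apply j)
  let F : (Fin N → X) → ℝ := fun θ => ∏ s, ‖b.det (θ ∘ σ s)‖
  have hF : Continuous F :=
    continuous_finsetProd _ fun s _ => (hdc.comp (by fun_prop)).norm
  let K : Set (Fin N → X) := Set.pi Set.univ fun _ => Metric.closedBall 0 1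
  have hK : IsCompact K := isCompact_univ_pi fun _ => isCompact_closedBall _ _
  have hpos : ∃ θ ∈ K, 0 < F θ := by
    let w : Fin N → X := fun j => ∑ i : Fin n, ((j.val : 𝕜) ^ i.val) • b i
    let c : Fin N → 𝕜 := fun j => ((‖w j‖ + 1 : ℝ) : 𝕜)⁻¹
    have hc : ∀ j, c j ≠ 0 := fun j => inv_ne_zero (RCLike.ofReal_ne_zero.mpr (by positivity))
    refine ⟨fun j => c j • w j, fun j _ => ?_, prod_pos fun s _ => norm_pos_iff.mpr ?_⟩
    · rw [mem_closedBall_zero_iff, norm_smul, norm_inv, RCLike.norm_ofReal,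
        abs_of_pos (by positivity), inv_mul_le_iff₀ (by positivity)]
      linarith
    · have e : ((fun j => c j • w j) ∘ σ s) = fun i => c (σ s i) • w (σ s i) := rfl
      rw [e, AlternatingMap.map_smul_univ, smul_eq_mul]
      refine mul_ne_zero (prod_ne_zero_iff.mpr fun i _ => hc _) ?_
      have e2 : b.toMatrix (fun i => w (σ s i))
          = (Matrix.vandermonde fun i => (((σ s i).val : ℕ) : 𝕜)).transpose := by
        ext i k
        simp [Basis.toMatrix_apply, w, Matrix.vandermonde_apply, Finsupp.single_apply]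
      rw [Basis.det_apply, e2, Matrix.det_transpose, Matrix.det_vandermonde_ne_zero_iff]
      intro i k h
      exact hσ s (Fin.ext (Nat.cast_injective h))
  obtain ⟨θ0, hθ0, hpos0⟩ := hpos
  obtain ⟨θ, hθK, hmax⟩ := hK.exists_isMaxOn ⟨θ0, hθ0⟩ hF.continuousOn
  have hFθ : 0 < F θ := hpos0.trans_le (hmax hθ0)
  have hθ1 : ∀ j, ‖θ j‖ ≤ 1 := fun j => mem_closedBall_zero_iff.mp (hθK j trivial)
  have hD : ∀ s, b.det (θ ∘ σ s) ≠ 0 := fun s =>
    norm_ne_zero_iff.mp (prod_ne_zero_iff.mp hFθ.ne' s (mem_univ _))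
  have hb : ∀ s, LinearIndependent 𝕜 (θ ∘ σ s) ∧ Submodule.span 𝕜 (Set.range (θ ∘ σ s)) = ⊤ :=
    fun s => b.is_basis_iff_det.mpr (hD s).isUnit
  let e : Fin N → Basis (Fin n) 𝕜 X := fun s => Basis.mk (hb s).1 (hb s).2.ge
  have he : ∀ s i, e s i = θ (σ s i) := fun s i => Basis.mk_apply _ _ _
  have hupd : ∀ s i z, b.det (Function.update (θ ∘ σ s) i z)
      = b.det (θ ∘ σ s) * (e s).coord i z := fun s i z =>
    (LinearMap.congr_fun (b.det_smul_mk_coord_eq_det_update (hb s).1 (hb s).2.ge i) z).symm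
  let ψ : Fin N → X →ₗ[𝕜] 𝕜 := fun j =>
    (n : 𝕜)⁻¹ • ∑ s, ∑ i, if σ s i = j then (e s).coord i else 0
  have hψ : ∀ j z, ψ j z = (n : 𝕜)⁻¹ * ∑ s, ∑ i, if σ s i = j then (e s).coord i z else 0 := by
    intro j z
    simp only [ψ, LinearMap.smul_apply, LinearMap.sum_apply, smul_eq_mul]
    congr 1
    refine sum_congr rfl fun s _ => sum_congr rfl fun i _ => ?_
    split_ifs <;> rfl
  have hn0 : (n : 𝕜) ≠ 0 := Nat.cast_ne_zero.mpr (by omega)
  have hcount : ∀ j, (∑ s, ∑ i, if σ s i = j then (1 : 𝕜) else 0) = n := by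
    intro j
    rw [sum_comm]
    have : ∀ i : Fin n, (∑ s, if σ s i = j then (1 : 𝕜) else 0) = 1 := by
      intro i
      simp only [σ, ← eq_sub_iff_add_eq, sum_ite_eq', mem_univ, if_true]
    simp [this]
  have hψ1 : ∀ j, ψ j (θ j) = 1 := by
    intro j
    rw [hψ, inv_mul_eq_one₀ hn0, ← hcount j]
    refine sum_congr rfl fun s _ => sum_congr rfl fun i _ => ?_
    split_ifs with h
    · rw [← h, ← he]; simp
    · rfl
  have hre : ∀ j z, ‖z‖ ≤ 1 → RCLike.re (ψ j z) ≤ 1 := by
    intro j z hz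
    let A : Fin N → 𝕜 := fun s => ∑ i, if σ s i = j then (e s).coord i z - 1 else 0
    have hA : ∑ s, RCLike.re (A s) ≤ 0 := by
      refine sum_nonpos_of_prod _ fun t ht0 ht1 hp => ?_
      let z' : X := θ j + (t : 𝕜) • (z - θ j)
      have hz' : ‖z'‖ ≤ 1 := by
        have : z' = ((1 - t : ℝ) : 𝕜) • θ j + (t : 𝕜) • z := by
          simp only [z', smul_sub, RCLike.ofReal_sub, RCLike.ofReal_one, sub_smul, one_smul]; abel
        rw [this]
        refine (norm_add_le _ _).trans ?_
        rw [norm_smul, norm_smul, RCLike.norm_ofReal, RCLike.norm_ofReal, abs_of_pos ht0,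
          abs_of_pos (by linarith)]
        nlinarith [hθ1 j]
      have hmem : Function.update θ j z' ∈ K := by
        intro k _
        rw [mem_closedBall_zero_iff]
        by_cases hk : k = j
        · rw [hk, Function.update_self]; exact hz'
        · rw [Function.update_of_ne hk]; exact hθ1 k
      have hdet : ∀ s, b.det (Function.update θ j z' ∘ σ s) = b.det (θ ∘ σ s) * (1 + t * A s) := by
        intro s
        by_cases hs : ∃ i, σ s i = j
        · obtain ⟨i, hi⟩ := hs
          have hAs : A s = (e s).coord i z - 1 := by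
            simp only [A]
            rw [sum_eq_single i, if_pos hi]
            · intro k _ hk
              exact if_neg fun h => hk (hσ s (h.trans hi.symm))
            · simp
          rw [← hi, Function.update_comp_eq_of_injective _ (hσ s), hupd, hAs]
          congr 1
          simp only [z', ← hi, ← he, map_add, map_smul, map_sub, smul_eq_mul]
          simp
        · push Not at hs
          rw [Function.update_comp_eq_of_forall_ne _ _ hs]
          simp [A, hs]
      have h1 : F (Function.update θ j z') ≤ F θ := hmax hmem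
      simp only [F, hdet, norm_mul, prod_mul_distrib] at h1
      have h2 : ∏ s, ‖1 + (t : 𝕜) * A s‖ ≤ 1 := by
        have := (mul_le_iff_le_one_right hFθ).mp h1
        exact this
      refine le_trans (prod_le_prod (fun s _ => (hp s).le) fun s _ => ?_) h2
      have := RCLike.re_le_norm (1 + (t : 𝕜) * A s)
      simpa using this
    have h3 : ∑ s, A s = n * ψ j z - n := by
      rw [hψ, mul_inv_cancel_left₀ hn0, ← hcount j, ← sum_sub_distrib]
      refine sum_congr rfl fun s _ => ?_
      rw [← sum_sub_distrib]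
      refine sum_congr rfl fun i _ => ?_
      split_ifs <;> simp
    rw [← map_sum, h3] at hA
    have hn' : (0 : ℝ) < n := by exact_mod_cast hn1
    simp at hA
    nlinarith
  have hnorm : ∀ j z, ‖ψ j z‖ ≤ ‖z‖ := by
    intro j z
    by_cases h0 : ψ j z = 0
    · rw [h0, norm_zero]; exact norm_nonneg _
    have hz : z ≠ 0 := fun h => h0 (by rw [h, map_zero])
    have hz' : 0 < ‖z‖ := norm_pos_iff.mpr hz
    have ha : 0 < ‖ψ j z‖ := norm_pos_iff.mpr h0
    have := hre j ((((‖ψ j z‖ / ‖z‖ : ℝ) : 𝕜) / ψ j z) • z) (by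
      rw [norm_smul, norm_div, RCLike.norm_ofReal, abs_of_pos (by positivity)]
      apply le_of_eq
      field_simp)
    rw [map_smul, smul_eq_mul, div_mul_cancel₀ _ h0, RCLike.ofReal_re, div_le_one hz'] at this
    exact this
  refine ⟨θ, fun j => (ψ j).toContinuousLinearMap, fun j => ?_, fun y => ?_⟩
  · have h1 : ‖θ j‖ = 1 := le_antisymm (hθ1 j) (by simpa [hψ1] using hnorm j (θ j))
    refine ⟨h1, le_antisymm (ContinuousLinearMap.opNorm_le_bound _ zero_le_one fun z => ?_) ?_,
      hψ1 j⟩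
    · rw [one_mul]; exact hnorm j z
    · have := ((ψ j).toContinuousLinearMap).le_opNorm (θ j)
      simpa [hψ1, h1] using this
  · simp only [LinearMap.coe_toContinuousLinearMap', hψ, mul_smul, ← smul_sum, sum_smul]
    rw [sum_comm]
    have : ∀ s, (∑ j, ∑ i, (if σ s i = j then (e s).coord i y else 0) • θ j) = y := by
      intro s
      rw [sum_comm]
      simp only [ite_smul, zero_smul, sum_ite_eq, mem_univ, if_true, ← he]
      exact (e s).sum_repr y
    simp only [this, sum_const, card_univ, Fintype.card_fin]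
    rw [← Nat.cast_smul_eq_nsmul 𝕜, smul_smul, div_eq_inv_mul]

end Pool.Agent.H10.Funtf
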