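import Mathlib

namespace Pool.Agent.H10.GF
open Filter Topology Finset

variable {E : ℕ → Type} [∀ i, NormedAddCommGroup (E i)]

theorem hs (x : lp E 2) : HasSum (fun i => ‖x i‖ ^ 2) (‖x‖ ^ 2) := by
  simpa using lp.hasSum_norm (p := 2) (by simp) x

theorem add_single (v : lp E 2) (i : ℕ) (w : E i) :
    ‖v + lp.single 2 i w‖ ^ 2 = ‖v‖ ^ 2 - ‖v i‖ ^ 2 + ‖v i + w‖ ^ 2 := by
  have := (hs v).update i (‖v i + w‖ ^ 2)
  have e0 : Function.update (fun i => ‖v i‖ ^ 2) i (‖v i + w‖ ^ 2) =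
      fun j => ‖(v + lp.single 2 i w) j‖ ^ 2 := by
    funext j
    by_cases h : j = i
    · subst h; simp
    · simp [h]
  rw [e0] at this
  have e := (hs (v + lp.single 2 i w)).unique this
  linarith

theorem pd_le {a : ℕ → ℝ} (ha : Antitone a)
    (H1 : ∀ i (x y : E i), 2 * ‖x‖ ^ 2 + 2 * ‖y‖ ^ 2 - ‖x + y‖ ^ 2 - ‖x - y‖ ^ 2 ≤
      a i * (‖x‖ ^ 2 + ‖y‖ ^ 2)) (u v : lp E 2) (j : ℕ) :
    2 * ‖u‖ ^ 2 + 2 * ‖v‖ ^ 2 - ‖u + v‖ ^ 2 - ‖u - v‖ ^ 2 ≤ a j * (‖u‖ ^ 2 + ‖v‖ ^ 2) +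
      ∑ i ∈ range j, (a i - a j) * (‖u i‖ ^ 2 + ‖v i‖ ^ 2) := by
  have h1 := ((((hs u).mul_left 2).add ((hs v).mul_left 2)).sub (hs (u + v))).sub (hs (u - v))
  have h2 : HasSum (fun i => if i ∈ range j then (a i - a j) * (‖u i‖ ^ 2 + ‖v i‖ ^ 2) else 0)
      (∑ i ∈ range j, (a i - a j) * (‖u i‖ ^ 2 + ‖v i‖ ^ 2)) := by
    have := hasSum_sum_of_ne_finset_zero (L := .unconditional ℕ) (s := range j)
      (f := fun i => if i ∈ range j then (a i - a j) * (‖u i‖ ^ 2 + ‖v i‖ ^ 2) else 0)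
      (fun i hi => if_neg hi)
    rwa [sum_congr rfl fun i hi => if_pos hi] at this
  refine hasSum_le (fun i => ?_) h1 ((((hs u).add (hs v)).mul_left (a j)).add h2)
  have := H1 i (u i) (v i)
  simp only [lp.coeFn_add, lp.coeFn_sub, Pi.add_apply, Pi.sub_apply]
  split_ifs with h
  · linarith
  · have := mul_le_mul_of_nonneg_right (ha (not_lt.1 (mem_range.not.1 h)))
      (by positivity : 0 ≤ ‖u i‖ ^ 2 + ‖v i‖ ^ 2)
    linarith

variable [∀ i, NormedSpace ℝ (E i)]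

noncomputable def diag0 (g : ∀ i, E i ≃ₗᵢ[ℝ] E i) (x : lp E 2) : lp E 2 :=
  ⟨fun i => g i (x i), (lp.memℓp x).mono' fun i => by simp⟩

noncomputable def diag (g : ∀ i, E i ≃ₗᵢ[ℝ] E i) : lp E 2 ≃ₗᵢ[ℝ] lp E 2 where
  toFun := diag0 g
  invFun := diag0 fun i => (g i).symm
  map_add' x y := lp.ext (funext fun i => map_add (g i) _ _)
  map_smul' c x := lp.ext (funext fun i => map_smul (g i) _ _)
  left_inv x := lp.ext (funext fun i => (g i).symm_apply_apply _)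
  right_inv x := lp.ext (funext fun i => (g i).apply_symm_apply _)
  norm_map' x := by
    have := (hs (diag0 g x)).unique (by simpa [diag0] using hs x)
    exact (pow_left_inj₀ (norm_nonneg _) (norm_nonneg _) two_ne_zero).1 this

theorem diag_single (g : ∀ i, E i ≃ₗᵢ[ℝ] E i) (i : ℕ) (w : E i) :
    diag g (lp.single 2 i w) = lp.single 2 i (g i w) := lp.ext (funext fun j => by
  change g j (lp.single 2 i w j) = _
  by_cases h : j = i
  · subst h; simp
  · simp [Pi.single_eq_of_ne h])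

theorem unif {Y Z α : Type} [NormedAddCommGroup Y] [NormedSpace ℝ Y] [FiniteDimensional ℝ Y]
    [NormedAddCommGroup Z] [NormedSpace ℝ Z] {l : Filter α} (A : α → Y →ₗ[ℝ] Z)
    (h : ∀ y, Tendsto (fun m => A m y) l (𝓝 0)) {ε : ℝ} (hε : 0 < ε) :
    ∀ᶠ m in l, ∀ y, ‖A m y‖ ≤ ε * ‖y‖ := by
  obtain ⟨C, hC, H⟩ := (Module.finBasis ℝ Y).exists_opNorm_le (F := Z)
  have : ∀ᶠ m in l, ∀ i, ‖A m (Module.finBasis ℝ Y i)‖ ≤ ε / C := eventually_all.2 fun i =>
    ((tendsto_zero_iff_norm_tendsto_zero.1 (h _)).eventually_le_const (by positivity))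
  filter_upwards [this] with m hm y
  have := H (u := LinearMap.toContinuousLinearMap (A m)) (by positivity) hm
  rw [mul_div_cancel₀ _ hC.ne'] at this
  exact (LinearMap.toContinuousLinearMap (A m)).le_of_opNorm_le this y

variable [∀ i, FiniteDimensional ℝ (E i)] {a : ℕ → ℝ}

theorem step (ha : StrictAnti a)
    (H1 : ∀ i (x y : E i), 2 * ‖x‖ ^ 2 + 2 * ‖y‖ ^ 2 - ‖x + y‖ ^ 2 - ‖x - y‖ ^ 2 ≤
      a i * (‖x‖ ^ 2 + ‖y‖ ^ 2))
    (H2 : ∀ j, ∃ x y : E j, ‖x‖ = 1 ∧ ‖y‖ = 1 ∧ ‖x + y‖ ^ 2 + ‖x - y‖ ^ 2 = 4 - 2 * a j ∧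
      ∀ z, ∃ s t : ℝ, z = s • x + t • y)
    (U : Ultrafilter ℕ) (T : ℕ → lp E 2 →ₗ[ℝ] lp E 2) (F : Submodule ℝ (lp E 2))
    (hT : ∀ x ∈ F, Tendsto (fun m => ‖T m x‖) U (𝓝 ‖x‖)) (k : ℕ)
    (hF : ∀ j < k, ∀ w, lp.single 2 j w ∈ F) (j : ℕ) : j < k → ∃ g : E j ≃ₗᵢ[ℝ] E j,
      ∀ w, Tendsto (fun m => T m (lp.single 2 j w)) U (𝓝 (lp.single 2 j (g w))) := by
  have ex : ∀ x ∈ F, ∀ i, ∃ s : E i, Tendsto (fun m => T m x i) U (𝓝 s) := fun x hx i => by
    haveI := FiniteDimensional.proper_real (E i)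
    obtain ⟨s, -, hs⟩ := (isCompact_closedBall (0 : E i) (‖x‖ + 1)).ultrafilter_le_nhds
      (U.map fun m => T m x i) (by
        simp only [Ultrafilter.coe_map, le_principal_iff, Filter.mem_map]
        filter_upwards [(hT x hx).eventually_le_const (lt_add_one _)] with m hm
        exact mem_closedBall_zero_iff.2 ((lp.norm_apply_le_norm (by simp) _ i).trans hm))
    exact ⟨s, hs⟩
  choose! S hS using ex
  have ns : ∀ i (w : E i), ‖lp.single (E := E) 2 i w‖ = ‖w‖ := lp.norm_single (by simp)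
  induction j using Nat.strong_induction_on with
  | _ j ih =>
  intro hj
  have A : ∀ i < j, ∀ w, S (lp.single 2 j w) i = 0 := fun i hi w => by
    obtain ⟨g, hg⟩ := ih i hi (hi.trans hj)
    set y := lp.single (E := E) 2 j w
    have hy : y ∈ F := hF j hj w
    set b := g.symm (-S y i)
    have t1 : Tendsto (fun m => ‖T m y + lp.single 2 i (g b)‖ ^ 2) U
        (𝓝 (‖y‖ ^ 2 - ‖S y i‖ ^ 2 + ‖S y i + g b‖ ^ 2)) := by
      simp only [add_single]
      exact (((hT y hy).pow 2).sub ((hS y hy i).norm.pow 2)).add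
        (((hS y hy i).add_const _).norm.pow 2)
    have t2 : Tendsto (fun m => ‖T m y + lp.single 2 i (g b)‖) U (𝓝 ‖y + lp.single 2 i b‖) := by
      refine (hT _ (F.add_mem hy (hF i (hi.trans hj) b))).congr_dist ?_
      refine squeeze_zero (fun _ => dist_nonneg) (fun m => ?_)
        (tendsto_iff_norm_sub_tendsto_zero.1 (hg b))
      refine (dist_norm_norm_le _ _).trans_eq ?_
      rw [map_add, add_sub_add_left_eq_sub]
    have e := tendsto_nhds_unique (t2.pow 2) t1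
    have y0 : y i = 0 := lp.single_apply_ne 2 j w hi.ne
    rw [add_single, y0] at e
    simp only [b, g.apply_symm_apply, add_neg_cancel, norm_zero, zero_add, g.symm.norm_map,
      norm_neg] at e
    exact norm_eq_zero.1 (pow_eq_zero_iff two_ne_zero |>.1 (by linarith))
  have C : ∀ x ∈ F, ‖S x j‖ = ‖x‖ → Tendsto (fun m => T m x) U (𝓝 (lp.single 2 j (S x j))) := by
    intro x hx e
    have t1 : Tendsto (fun m => ‖T m x + lp.single 2 j (-S x j)‖ ^ 2) U
        (𝓝 (‖x‖ ^ 2 - ‖S x j‖ ^ 2 + ‖S x j + -S x j‖ ^ 2)) := by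
      simp only [add_single]
      exact (((hT x hx).pow 2).sub ((hS x hx j).norm.pow 2)).add
        (((hS x hx j).add_const _).norm.pow 2)
    rw [tendsto_iff_norm_sub_tendsto_zero]
    simpa [e, lp.single_neg, sub_eq_add_neg] using t1.sqrt
  obtain ⟨x, y, hx, hy, hxy, sp⟩ := H2 j
  set x' := lp.single (E := E) 2 j x
  set y' := lp.single (E := E) 2 j y
  have fx : x' ∈ F := hF j hj x
  have fy : y' ∈ F := hF j hj y
  have le : ∀ x ∈ F, ‖S x j‖ ≤ ‖x‖ := fun x hx => le_of_tendsto_of_tendsto' (hS x hx j).norm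
    (hT x hx) fun m => lp.norm_apply_le_norm (by simp) _ j
  have B := le_of_tendsto_of_tendsto'
    ((((((hT x' fx).pow 2).const_mul 2).add (((hT y' fy).pow 2).const_mul 2)).sub
      ((hT _ (F.add_mem fx fy)).pow 2)).sub ((hT _ (F.sub_mem fx fy)).pow 2))
    (((((hT x' fx).pow 2).add ((hT y' fy).pow 2)).const_mul (a (j + 1))).add
      (tendsto_finsetSum (range (j + 1)) fun i _ =>
        (((hS x' fx i).norm.pow 2).add ((hS y' fy i).norm.pow 2)).const_mul (a i - a (j + 1))))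
    fun m => by simpa only [map_add, map_sub] using pd_le ha.antitone H1 (T m x') (T m y') (j + 1)
  rw [sum_range_succ, sum_eq_zero fun i hi => by
    simp [x', y', A i (mem_range.1 hi)]] at B
  have lx := le x' fx
  have ly := le y' fy
  have nx : ‖x'‖ = 1 := (ns _ _).trans hx
  have ny : ‖y'‖ = 1 := (ns _ _).trans hy
  rw [nx, ny, show x' + y' = _ from (lp.single_add 2 j x y).symm, show x' - y' = _ from
    (lp.single_sub 2 j x y).symm, ns, ns] at B
  rw [nx] at lx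
  rw [ny] at ly
  have gap := sub_pos.2 (ha (lt_add_one j))
  have M : 2 ≤ ‖S x' j‖ ^ 2 + ‖S y' j‖ ^ 2 := le_of_mul_le_mul_left (by linarith) gap
  have px := norm_nonneg (S x' j)
  have py := norm_nonneg (S y' j)
  have cx := C x' fx (by rw [nx]; nlinarith)
  have cy := C y' fy (by rw [ny]; nlinarith)
  let g0 : E j →ₗ[ℝ] E j := linearMapOfTendsto (l := (U : Filter ℕ))
    (fun w => S (lp.single 2 j w) j)
    (fun m => lp.evalₗ (𝕜 := ℝ) E 2 j ∘ₗ T m ∘ₗ lp.lsingle 2 j)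
    (tendsto_pi_nhds.2 fun w => hS _ (hF j hj w) j)
  have D : ∀ w, Tendsto (fun m => T m (lp.single 2 j w)) U (𝓝 (lp.single 2 j (g0 w))) := by
    intro w
    obtain ⟨s, t, rfl⟩ := sp w
    simp only [map_add, map_smul, lp.single_add, lp.single_smul]
    exact (cx.const_smul s).add (cy.const_smul t)
  refine ⟨LinearIsometry.toLinearIsometryEquiv ⟨g0, fun w => ?_⟩ rfl, D⟩
  simpa only [ns] using tendsto_nhds_unique (D w).norm (hT _ (hF j hj w))

end Pool.Agent.H10.GF
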