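import Mathlib

namespace Pool.Agent.H10.GS
open Equiv

abbrev Wd : Type := List (ZMod 3)

def fa (e : ZMod 3) : Wd → Wd
  | [] => []
  | i :: w => (i + e) :: w

/-- rooted generator, to the power `e` -/
def a (e : ZMod 3) : Perm Wd :=
  ⟨fa e, fa (-e), fun w => by cases w <;> simp [fa], fun w => by cases w <;> simp [fa]⟩

def fb (e : ZMod 3) : Wd → Wd
  | [] => []
  | i :: w => i :: if i = 2 then fb e w else fa (if i = 0 then e else -e) w

theorem fa_add (e f : ZMod 3) (w : Wd) : fa e (fa f w) = fa (e + f) w := by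
  cases w <;> simp [fa, add_assoc, add_comm f]

theorem fb_add (e f : ZMod 3) (w : Wd) : fb e (fb f w) = fb (e + f) w := by
  induction w with
  | nil => rfl
  | cons i w ih => simp only [fb]; split_ifs <;> simp [ih, fa_add, add_comm]

theorem fb_zero (w : Wd) : fb 0 w = w := by
  induction w with
  | nil => rfl
  | cons i w ih => simp only [fb, ih]; split_ifs <;> cases w <;> simp [fa]

/-- directed generator of the Gupta-Sidki group -/
def b : Perm Wd := ⟨fb 1, fb (-1), fun w => by simp [fb_add, fb_zero], fun w => by simp [fb_add, fb_zero]⟩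

theorem a_mul (e f : ZMod 3) : a e * a f = a (e + f) := Equiv.ext (fa_add e f)
theorem a_zero : a 0 = 1 := Equiv.ext fun w => by cases w <;> simp [a, fa]
theorem b3 : b ^ 3 = 1 := Equiv.ext fun w => by
  change fb 1 (fb 1 (fb 1 w)) = w
  rw [fb_add, fb_add]; exact fb_zero w

def P (l : Wd) : Perm Wd := (l.map fun i => a i * b * a (-i)).prod

theorem P_app (l m : Wd) : P (l ++ m) = P l * P m := by simp [P]

theorem a_P (e : ZMod 3) (l : Wd) : a e * P l = P (l.map (· + e)) * a e := by
  induction l with
  | nil => simp [P]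
  | cons i l ih =>
    simp only [P, List.map_cons, List.prod_cons, mul_assoc] at ih ⊢
    rw [← ih, ← mul_assoc, a_mul, ← mul_assoc (a _) (a e), a_mul, add_comm e]; simp

theorem P_nil (l : Wd) : P l [] = [] := by
  induction l with
  | nil => rfl
  | cons i l ih => simp only [P, List.map_cons, List.prod_cons, Perm.mul_apply] at ih ⊢; rw [ih]; rfl

theorem sec (l : Wd) (j : ZMod 3) : ∃ m : Wd, m.length = l.count (j - 2) ∧
    ∀ w, P l (j :: w) = j :: (P m * a ((l.count j : ZMod 3) - l.count (j - 1))) w := by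
  induction l with
  | nil => exact ⟨[], rfl, fun w => by simp [P, a_zero]⟩
  | cons i l ih =>
    obtain ⟨m, h1, h2⟩ := ih
    have e : ∀ w, P (i :: l) (j :: w) = j :: (if j - i = 2 then b else a (if j - i = 0 then 1 else -1))
        ((P m * a ((l.count j : ZMod 3) - l.count (j - 1))) w) := fun w => by
      change (a i * b * a (-i)) (P l (j :: w)) = _
      rw [h2]
      simp only [Perm.mul_apply, ← sub_eq_add_neg, a, b, coe_fn_mk, fa, fb, sub_add_cancel]
      split_ifs <;> rfl
    by_cases h : j - i = 2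
    · refine ⟨0 :: m, by simp [h1, ← h], fun w => ?_⟩
      have : i ≠ j ∧ i ≠ j - 1 := (by decide : ∀ j i : ZMod 3, j - i = 2 → i ≠ j ∧ i ≠ j - 1) j i h
      rw [e]
      simp [h, this, P, a_zero]
    · refine ⟨m.map (· + if j - i = 0 then 1 else -1), ?_, fun w => ?_⟩
      · have : i ≠ j - 2 := fun h' => h (by simp [h'])
        simp [h1, this]
      · rw [e, if_neg h, ← Perm.mul_apply, ← mul_assoc, a_P, mul_assoc, a_mul]
        congr 4
        by_cases h0 : j - i = 0
        · obtain rfl := sub_eq_zero.1 h0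
          have : j ≠ j - 1 := (by decide : ∀ j : ZMod 3, j ≠ j - 1) j
          simp [this]; ring
        · have : i = j - 1 ∧ j - 1 ≠ j :=
            (by decide : ∀ j i : ZMod 3, ¬ j - i = 2 → ¬ j - i = 0 → i = j - 1 ∧ j - 1 ≠ j) j i h h0
          simp [this]; ring

theorem fin_of {g : Perm Wd} (h0 : g [] = []) (h : ∀ j, ∃ k : Perm Wd, IsOfFinOrder k ∧
    ∀ w, g (j :: w) = j :: k w) : IsOfFinOrder g := by
  choose k h1 h2 using h
  have p : ∀ n j w, (g ^ n) (j :: w) = j :: (k j ^ n) w := fun n j => by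
    induction n with
    | zero => simp
    | succ n ih => intro w; simp [pow_succ, h2, ih]
  refine isOfFinOrder_iff_pow_eq_one.2 ⟨∏ j, orderOf (k j), Finset.prod_pos fun j _ =>
    (h1 j).orderOf_pos, Equiv.ext fun w => ?_⟩
  cases w with
  | nil => exact Perm.pow_apply_eq_self_of_apply_eq_self h0 _
  | cons j w => rw [p, orderOf_dvd_iff_pow_eq_one.1
      (Finset.dvd_prod_of_mem (fun j => orderOf (k j)) (Finset.mem_univ j))]; rfl

theorem tor (n : ℕ) : ∀ l : Wd, l.length = n → ∀ e, IsOfFinOrder (P l * a e) := by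
  induction n using Nat.strong_induction_on with | _ n ih =>
  have z : ∀ l : Wd, l.length = n → IsOfFinOrder (P l) := fun l hl => by
    by_cases h : ∃ i, l.count i = l.length
    · obtain ⟨i, hi⟩ := h
      rw [List.eq_replicate_of_mem fun b hb => (List.count_eq_length.1 hi b hb).symm, P,
        List.map_replicate, List.prod_replicate]
      refine IsOfFinOrder.pow (isOfFinOrder_iff_pow_eq_one.2 ⟨3, by norm_num, ?_⟩)
      rw [show a (-i) = (a i)⁻¹ from Equiv.ext fun _ => rfl, conj_pow, b3]; simp
    refine fin_of (P_nil l) fun j => ?_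
    obtain ⟨m, h1, h2⟩ := sec l j
    exact ⟨_, ih _ (by
      rw [h1, ← hl]; exact lt_of_le_of_ne List.count_le_length fun h' => h ⟨_, h'⟩) m rfl _, h2⟩
  intro l hl e
  by_cases he : e = 0
  · simpa [he, a_zero] using z l hl
  have c : ∀ i, (l ++ (l ++ l.map (· + e)).map (· + e)).count i = n := fun i => by
    rw [← hl]
    clear hl
    induction l with
    | nil => simp
    | cons x l ih' =>
      have := (by decide : ∀ x e i : ZMod 3, ¬ e = 0 → (if x = i then 1 else 0) +
        ((if x + e = i then 1 else 0) + (if x + e + e = i then 1 else 0)) = 1) x e i he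
      simp only [List.map_append, List.count_append, List.map_cons, List.count_cons, beq_iff_eq,
        List.length_cons] at ih' ⊢
      omega
  refine IsOfFinOrder.of_pow (n := 3) ?_ (by norm_num)
  have : (P l * a e) ^ 3 = P (l ++ (l ++ l.map (· + e)).map (· + e)) := by
    have t : e + (e + e) = 0 := (by decide : ∀ e : ZMod 3, e + (e + e) = 0) e
    have u : P l * a e * (P l * a e) = P (l ++ l.map (· + e)) * a (e + e) := by
      rw [mul_assoc, ← mul_assoc (a e), a_P, P_app, ← a_mul]; simp only [mul_assoc]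
    rw [pow_three, u, mul_assoc, ← mul_assoc (a e), a_P, mul_assoc, a_mul, t, a_zero, mul_one, P_app]
  rw [this]
  refine fin_of (P_nil _) fun j => ?_
  obtain ⟨m, h1, h2⟩ := sec (l ++ (l ++ l.map (· + e)).map (· + e)) j
  exact ⟨_, z m (h1.trans (c _)), by simpa only [c, sub_self, a_zero, mul_one] using h2⟩

/-- an infinite finitely generated torsion group -/
theorem gs : ∃ (Q : Type) (_ : Group Q) (x y : Q), Subgroup.closure {x, y} = ⊤ ∧ Infinite Q ∧
    ∀ q : Q, IsOfFinOrder q := by
  let C := Subgroup.closure {a 1, b}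
  have ha : ∀ e, a e ∈ C := fun e => by
    have h : a 1 ∈ C := Subgroup.subset_closure (by simp)
    have : e = 0 ∨ e = 1 ∨ e = 1 + 1 := by revert e; decide
    rcases this with rfl | rfl | rfl
    · exact a_zero ▸ one_mem C
    · exact h
    · exact a_mul 1 1 ▸ mul_mem h h
  have hb : b ∈ C := Subgroup.subset_closure (by simp)
  refine ⟨C, inferInstance, ⟨_, ha 1⟩, ⟨_, hb⟩, ?_, ?_, fun q => ?_⟩
  · rw [← Subgroup.closure_closure_coe_preimage]
    congr 1; ext; simp [Subtype.ext_iff]
  · have l : ∀ g ∈ C, ∃ h ∈ C, ∀ w, h (2 :: w) = 2 :: g w := fun g hg => by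
      induction hg using Subgroup.closure_induction with
      | mem s hs =>
        rcases hs with rfl | rfl
        · exact ⟨_, mul_mem (mul_mem (ha 2) hb) (ha (-2)), fun w => rfl⟩
        · exact ⟨_, hb, fun w => rfl⟩
      | one => exact ⟨1, one_mem _, fun _ => rfl⟩
      | mul x y _ _ hx hy =>
        obtain ⟨x', x1, x2⟩ := hx; obtain ⟨y', y1, y2⟩ := hy
        exact ⟨_, mul_mem x1 y1, fun w => by simp [x2, y2]⟩
      | inv x _ hx =>
        obtain ⟨x', x1, x2⟩ := hx
        exact ⟨_, inv_mem x1, fun w => by rw [Perm.inv_eq_iff_eq, x2]; simp⟩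
    have t : ∀ w : Wd, ∃ g ∈ C, g (List.replicate w.length 2) = w := fun w => by
      induction w with
      | nil => exact ⟨1, one_mem _, rfl⟩
      | cons i w ih =>
        obtain ⟨g, g1, g2⟩ := ih
        obtain ⟨h, h1, h2⟩ := l g g1
        exact ⟨_, mul_mem (ha (i - 2)) h1, by simp [List.replicate_succ, h2, g2, a, fa]⟩
    refine not_finite_iff_infinite.1 fun _ => ?_
    have := Fintype.ofFinite C
    have := Fintype.card_le_of_surjective (fun g : C => fun i : Fin (Fintype.card C) =>
      (g.1 (List.replicate (Fintype.card C) 2)).getD i 0) fun f => by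
        obtain ⟨g, g1, g2⟩ := t (List.ofFn f)
        exact ⟨⟨g, g1⟩, funext fun i => by simp_all⟩
    simp only [Fintype.card_fun, ZMod.card, Fintype.card_fin] at this
    exact this.not_gt (Nat.lt_pow_self (by norm_num))
  · obtain ⟨l, e, h⟩ : ∃ l e, q.1 = P l * a e := by
      obtain ⟨q, hq⟩ := q
      have m : ∀ x y : Perm Wd, (∃ l e, x = P l * a e) → (∃ l e, y = P l * a e) →
          ∃ l e, x * y = P l * a e := by
        rintro _ _ ⟨l, e, rfl⟩ ⟨m, f, rfl⟩
        exact ⟨l ++ m.map (· + e), e + f, by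
          rw [P_app, ← a_mul, mul_assoc, ← mul_assoc (a e), a_P]; simp only [mul_assoc]⟩
      have b1 : ∃ l e, b = P l * a e := ⟨[0], 0, by simp [P, a_zero]⟩
      induction hq using Subgroup.closure_induction'' with
      | one => exact ⟨[], 0, by simp [P, a_zero]⟩
      | mem s hs =>
        rcases hs with rfl | rfl
        exacts [⟨[], 1, by simp [P]⟩, b1]
      | inv_mem s hs =>
        rcases hs with rfl | rfl
        · exact ⟨[], -1, (one_mul _).symm⟩
        · change ∃ l e, b⁻¹ = _
          rw [inv_eq_of_mul_eq_one_right (by rw [← pow_three, b3] : b * (b * b) = 1)]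
          exact m _ _ b1 b1
      | mul x y _ _ hx hy => exact m x y hx hy
    exact Submonoid.isOfFinOrder_coe.1 (show IsOfFinOrder q.1 from h ▸ tor _ l rfl e)

end Pool.Agent.H10.GS
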