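import Mathlib

set_option autoImplicit false

/-! Laguerre's theorem on the polar derivative and the Grace–Walsh–Szegő coincidence theorem
for the closed upper half-plane. -/

namespace Pool.Agent.H10.GWS

open Polynomial

lemma sum_lt (h c : ℝ) (s : ℂ) (U : Multiset ℂ) (hU : U ≠ 0)
    (hu : ∀ u ∈ U, u.im + 2 * h * (u.re * s.re + u.im * s.im) < c) :
    U.sum.im + 2 * h * (U.sum.re * s.re + U.sum.im * s.im) < U.card * c := by
  induction U using Multiset.induction_on with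
  | empty => exact absurd rfl hU
  | cons u U ih =>
    have h1 := hu u (Multiset.mem_cons_self _ _)
    by_cases h0 : U = 0
    · subst h0; simpa using h1
    · have h2 := ih h0 fun v hv => hu v (Multiset.mem_cons_of_mem hv)
      simp only [Multiset.sum_cons, Complex.add_im, Complex.add_re, Multiset.card_cons]
      push_cast
      linarith

lemma laguerre (g : ℂ[X]) (n : ℕ) (hn : n ≠ 0) (hd : g.natDegree ≤ n)
    (hg : ∀ τ : ℂ, 0 ≤ τ.im → g.eval τ ≠ 0) (τ σ : ℂ) (hτ : 0 ≤ τ.im) (hσ : 0 ≤ σ.im) :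
    n * g.eval τ + (σ - τ) * g.derivative.eval τ ≠ 0 := by
  intro h
  have h0 := hg τ hτ
  have hn' : (n : ℂ) ≠ 0 := Nat.cast_ne_zero.mpr hn
  rw [(IsAlgClosed.splits g).eval_derivative_eq_eval_mul_sum h0] at h
  set U := g.roots.map fun z => 1 / (τ - z) with hU
  have h1 : (τ - σ) * U.sum = n := by
    apply mul_left_cancel₀ h0; linear_combination -h
  have hδ : τ - σ ≠ 0 := fun e => hn' (by rw [← h1, e, zero_mul])
  obtain ⟨s, hs⟩ : ∃ s, s = (τ - σ)⁻¹ := ⟨_, rfl⟩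
  have hS : U.sum = n * s := by rw [hs, ← h1]; field_simp
  have hU0 : U ≠ 0 := fun e => hn' (by rw [← h1, e]; simp)
  have hc : (U.card : ℝ) ≤ n := by
    rw [hU, Multiset.card_map]; exact_mod_cast (card_roots' g).trans hd
  have key : ∀ w : ℂ, w ≠ 0 → (w⁻¹).im = -w.im * ((w⁻¹).re ^ 2 + (w⁻¹).im ^ 2) := by
    intro w hw
    have hp : 0 < Complex.normSq w := Complex.normSq_pos.mpr hw
    rw [Complex.inv_re, Complex.inv_im]
    field_simp
    rw [Complex.normSq_apply]; ring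
  have h2 := sum_lt τ.im (τ.im * (s.re ^ 2 + s.im ^ 2)) s U hU0 (by
    intro u hu
    obtain ⟨z, hz, rfl⟩ := Multiset.mem_map.mp hu
    have hz0 : g.eval z = 0 := isRoot_of_mem_roots hz
    have hzi : z.im < 0 := not_le.mp fun e => hg z e hz0
    have hne : τ - z ≠ 0 := fun e => by
      rw [sub_eq_zero] at e; rw [e] at hτ; linarith
    rw [one_div]
    have k := key _ hne
    have hu0 : (τ - z)⁻¹ ≠ 0 := inv_ne_zero hne
    generalize (τ - z)⁻¹ = u at k hu0
    have hp : 0 < u.re ^ 2 + u.im ^ 2 := by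
      have := Complex.normSq_pos.mpr hu0
      rw [Complex.normSq_apply] at this; nlinarith
    rw [Complex.sub_im] at k
    nlinarith [mul_nonneg hτ (add_nonneg (sq_nonneg (u.re - s.re)) (sq_nonneg (u.im - s.im))),
      mul_pos hp (neg_pos.mpr hzi)])
  have k := key _ hδ
  rw [← hs, Complex.sub_im] at k
  rw [hS] at h2
  simp only [Complex.mul_re, Complex.mul_im, Complex.natCast_re, Complex.natCast_im, zero_mul,
    sub_zero, add_zero] at h2
  have hp : 0 ≤ s.re ^ 2 + s.im ^ 2 := by positivity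
  have hn0 : (0 : ℝ) ≤ n := Nat.cast_nonneg n
  nlinarith [mul_le_mul_of_nonneg_right hc (mul_nonneg hτ hp), mul_nonneg hn0 (mul_nonneg hσ hp)]

lemma lift_eval (Ψ : ℂ[X] →ₗ[ℂ] ℂ) (p : ℂ[X][X]) (g : ℂ[X]) (h : ∀ j, g.coeff j = Ψ (p.coeff j))
    (τ : ℂ) : g.eval τ = Ψ (p.eval (C τ)) := by
  have hd : g.natDegree < p.natDegree + 1 := Nat.lt_succ_of_le <|
    natDegree_le_iff_coeff_eq_zero.mpr fun j hj => by
      rw [h, coeff_eq_zero_of_natDegree_lt hj, map_zero]
  rw [eval_eq_sum_range' hd, eval_eq_sum_range, map_sum]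
  refine Finset.sum_congr rfl fun j _ => ?_
  rw [h, ← C_pow, mul_comm (p.coeff j), ← smul_eq_C_mul, map_smul, smul_eq_mul, mul_comm]

lemma step (Ψ : ℂ[X] →ₗ[ℂ] ℂ) (n : ℕ) (h : ∀ τ : ℂ, 0 ≤ τ.im → Ψ ((X + C τ) ^ (n + 1)) ≠ 0)
    (σ τ : ℂ) (hσ : 0 ≤ σ.im) (hτ : 0 ≤ τ.im) : Ψ ((X + C σ) * (X + C τ) ^ n) ≠ 0 := by
  let p : ℂ[X][X] := (X + C X) ^ (n + 1)
  have hp : p.natDegree ≤ n + 1 := by
    refine natDegree_pow_le.trans ?_
    rw [natDegree_X_add_C, mul_one]
  let g : ℂ[X] := ∑ j ∈ Finset.range (n + 2), monomial j (Ψ (p.coeff j))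
  have hg : ∀ j, g.coeff j = Ψ (p.coeff j) := by
    intro j
    simp only [g, finsetSum_coeff, coeff_monomial, Finset.sum_ite_eq', Finset.mem_range]
    split_ifs with hj
    · rfl
    · rw [coeff_eq_zero_of_natDegree_lt (by omega), map_zero]
  have hd : g.natDegree ≤ n + 1 := natDegree_le_iff_coeff_eq_zero.mpr fun j hj => by
    rw [hg, coeff_eq_zero_of_natDegree_lt (by omega), map_zero]
  have e1 : ∀ τ, g.eval τ = Ψ ((X + C τ) ^ (n + 1)) := fun τ => by
    rw [lift_eval Ψ p g hg]; simp [p, add_comm]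
  have e2 : g.derivative.eval τ = (n + 1 : ℕ) * Ψ ((X + C τ) ^ n) := by
    rw [lift_eval Ψ p.derivative g.derivative]
    · rw [← smul_eq_mul, ← map_smul]
      congr 1
      simp [p, derivative_X_add_C_pow, smul_eq_C_mul, add_comm]
    · intro j
      rw [coeff_derivative, coeff_derivative, hg, mul_comm, ← smul_eq_mul, ← map_smul]
      congr 1
      simp [smul_eq_C_mul, mul_comm]
  have hl := laguerre g (n + 1) (Nat.succ_ne_zero n) hd (fun τ hτ => by rw [e1]; exact h τ hτ)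
    τ σ hτ hσ
  intro h0
  apply hl
  have e3 : (X + C σ) * (X + C τ) ^ n = (X + C τ) ^ (n + 1) + (σ - τ) • (X + C τ) ^ n := by
    rw [smul_eq_C_mul, C_sub]; ring
  rw [e3, map_add, map_smul, smul_eq_mul] at h0
  rw [e1, e2]
  linear_combination ((n + 1 : ℕ) : ℂ) * h0

theorem gws (T : Multiset ℂ) (Ψ : ℂ[X] →ₗ[ℂ] ℂ)
    (h : ∀ τ : ℂ, 0 ≤ τ.im → Ψ ((X + C τ) ^ T.card) ≠ 0) (hT : ∀ t ∈ T, 0 ≤ t.im) :
    Ψ (T.map fun t => X + C t).prod ≠ 0 := by
  induction T using Multiset.induction_on generalizing Ψ with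
  | empty => simpa using h 0 le_rfl
  | cons t T ih =>
    rw [Multiset.map_cons, Multiset.prod_cons]
    rw [Multiset.card_cons] at h
    exact ih (Ψ ∘ₗ LinearMap.mulLeft ℂ (X + C t))
      (fun τ hτ => step Ψ _ h t τ (hT t (Multiset.mem_cons_self _ _)) hτ)
      fun u hu => hT u (Multiset.mem_cons_of_mem hu)

end Pool.Agent.H10.GWS
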