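import Mathlib

/-! Basic facts on the infinite Grassmann algebra. -/

namespace Pool.Agent.H10.Gr

open ExteriorAlgebra

variable {F : Type} [Field F]

abbrev L (F : Type) [Field F] := ℕ →₀ F
abbrev E (F : Type) [Field F] := ExteriorAlgebra F (L F)

/-- parity automorphism -/
noncomputable def sg : E F →ₐ[F] E F := ExteriorAlgebra.map (-LinearMap.id)

@[simp] lemma sg_i (v : L F) : sg (ι F v) = -ι F v := by simp [sg]

@[simp] lemma sg_sg (x : E F) : sg (sg x) = x := by
  have : (sg : E F →ₐ[F] E F).comp sg = AlgHom.id F _ := by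
    ext v; simp
  exact congrArg (fun f : E F →ₐ[F] E F => f x) this

lemma i_mul (v : L F) (y : E F) : ι F v * y = sg y * ι F v := by
  induction y using ExteriorAlgebra.induction with
  | algebraMap r => rw [AlgHom.commutes, Algebra.commutes]
  | ι w => rw [sg_i, neg_mul]; exact eq_neg_of_add_eq_zero_left (ι_add_mul_swap v w)
  | mul a b ha hb => rw [← mul_assoc, ha, mul_assoc, hb, map_mul, mul_assoc]
  | add a b ha hb => rw [mul_add, ha, hb, map_add, add_mul]

lemma decomp (x : E F) : ∃ x0 x1 : E F, x = x0 + x1 ∧ sg x0 = x0 ∧ sg x1 = -x1 ∧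
    (∀ y, x0 * y = y * x0) ∧ (∀ y, x1 * y = sg y * x1) := by
  induction x using ExteriorAlgebra.induction with
  | algebraMap r =>
    exact ⟨algebraMap F _ r, 0, by simp, by simp, by simp, fun y => Algebra.commutes _ _, by simp⟩
  | ι w => exact ⟨0, _, by simp, by simp, by simp, by simp, i_mul w⟩
  | add a b ha hb =>
    obtain ⟨a0, a1, rfl, h1, h2, h3, h4⟩ := ha
    obtain ⟨b0, b1, rfl, k1, k2, k3, k4⟩ := hb
    refine ⟨a0 + b0, a1 + b1, by abel, by simp [h1, k1], by simp [h2, k2, add_comm],
      fun y => ?_, fun y => ?_⟩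
    · rw [add_mul, mul_add, h3, k3]
    · rw [add_mul, mul_add, h4, k4]
  | mul a b ha hb =>
    obtain ⟨a0, a1, rfl, h1, h2, h3, h4⟩ := ha
    obtain ⟨b0, b1, rfl, k1, k2, k3, k4⟩ := hb
    refine ⟨a0 * b0 + a1 * b1, a0 * b1 + a1 * b0, by noncomm_ring, by simp [h1, h2, k1, k2],
      by simp [h1, h2, k1, k2, add_comm], fun y => ?_, fun y => ?_⟩
    · rw [add_mul, mul_add, mul_assoc a0, k3, ← mul_assoc, h3 y, mul_assoc y, mul_assoc a1, k4,
        ← mul_assoc a1, h4 (sg y), sg_sg, mul_assoc y a1]
    · rw [add_mul, mul_add, mul_assoc a0, k4, ← mul_assoc, h3 (sg y), mul_assoc (sg y),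
        mul_assoc a1, k3, ← mul_assoc a1, h4, mul_assoc]

variable (h2 : (2 : F) ≠ 0)
include h2

lemma two_cancel {x : E F} (h : x + x = 0) : x = 0 := by
  rw [← two_smul F x] at h
  exact (smul_eq_zero.1 h).resolve_left h2

lemma odd_mul {x : E F} (hx : sg x = -x) (y : E F) : x * y = sg y * x := by
  obtain ⟨x0, x1, rfl, h1, h3, -, h4⟩ := decomp x
  have : x0 = 0 := by
    apply two_cancel h2
    rw [map_add, h1, h3, neg_add] at hx
    exact eq_neg_iff_add_eq_zero.1 (add_right_cancel hx)
  simpa [this] using h4 y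

lemma even_mul {x : E F} (hx : sg x = x) (y : E F) : x * y = y * x := by
  obtain ⟨x0, x1, rfl, h1, h3, h4, -⟩ := decomp x
  have : x1 = 0 := by
    apply two_cancel h2
    rw [map_add, h1, h3] at hx
    have := add_left_cancel hx
    exact neg_eq_iff_add_eq_zero.1 this
  simpa [this] using h4 y

lemma odd_sq {x : E F} (hx : sg x = -x) : x * x = 0 := by
  apply two_cancel h2
  have := odd_mul h2 hx x
  rw [hx, neg_mul] at this
  exact eq_neg_iff_add_eq_zero.1 this

/-- ideal generated by a set -/
noncomputable def K (S : Set (E F)) : Submodule F (E F) := Submodule.span F S * ⊤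

omit h2 in
lemma K_mono {S T : Set (E F)} (h : S ⊆ T) : K S ≤ K T :=
  mul_le_mul_left (Submodule.span_mono h) _

omit h2 in
lemma mem_K {S : Set (E F)} {s : E F} (h : s ∈ S) : s ∈ K S := by
  simpa [K] using
    Submodule.mul_mem_mul (Submodule.subset_span h) (Submodule.mem_top (x := (1 : E F)))

omit h2 in
lemma K_mul_right {S : Set (E F)} {a : E F} (ha : a ∈ K S) (y : E F) : a * y ∈ K S := by
  refine Submodule.mul_induction_on ha (fun m hm n _ => ?_) (fun a b ha hb => ?_)
  · rw [mul_assoc]; exact Submodule.mul_mem_mul hm trivial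
  · rw [add_mul]; exact add_mem ha hb

omit h2 in
lemma span_odd {S : Set (E F)} (hS : ∀ s ∈ S, sg s = -s) {m : E F} (hm : m ∈ Submodule.span F S) :
    sg m = -m := by
  induction hm using Submodule.span_induction with
  | mem x h => exact hS x h
  | zero => simp
  | add x y _ _ hx hy => rw [map_add, hx, hy, neg_add]
  | smul a x _ hx => rw [map_smul, hx, smul_neg]

lemma K_mul_left {S : Set (E F)} (hS : ∀ s ∈ S, sg s = -s) {a : E F} (ha : a ∈ K S) (y : E F) :
    y * a ∈ K S := by
  refine Submodule.mul_induction_on ha (fun m hm n _ => ?_) (fun a b ha hb => ?_)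
  · have := odd_mul h2 (span_odd hS hm) (sg y)
    rw [sg_sg] at this
    rw [← mul_assoc, ← this, mul_assoc]; exact Submodule.mul_mem_mul hm trivial
  · rw [mul_add]; exact add_mem ha hb

omit h2 in
lemma K_map {S T : Set (E F)} (f : E F →ₐ[F] E F) (hf : ∀ s ∈ S, f s ∈ K T) {a : E F}
    (ha : a ∈ K S) : f a ∈ K T := by
  refine Submodule.mul_induction_on ha (fun m hm n _ => ?_) (fun a b ha hb => ?_)
  · rw [map_mul]
    refine K_mul_right ?_ _
    induction hm using Submodule.span_induction with
    | mem x h => exact hf x h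
    | zero => simp
    | add x y _ _ hx hy => rw [map_add]; exact add_mem hx hy
    | smul a x _ hx => rw [map_smul]; exact Submodule.smul_mem _ _ hx
  · rw [map_add]; exact add_mem ha hb

omit h2 in
lemma KK_map {S T : Set (E F)} (f : E F →ₐ[F] E F) (hf : ∀ s ∈ S, f s ∈ K T) {a : E F}
    (ha : a ∈ K S * K S) : f a ∈ K T * K T := by
  refine Submodule.mul_induction_on ha (fun m hm n hn => ?_) (fun a b ha hb => ?_)
  · rw [map_mul]; exact Submodule.mul_mem_mul (K_map f hf hm) (K_map f hf hn)
  · rw [map_add]; exact add_mem ha hb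

omit h2 in
lemma KK_le {S : Set (E F)} : K S * K S ≤ K S :=
  Submodule.mul_le.2 fun _ ha b _ => K_mul_right ha b

omit h2 in
lemma KK_mono {S T : Set (E F)} (h : S ⊆ T) : K S * K S ≤ K T * K T :=
  mul_le_mul' (K_mono h) (K_mono h)

omit h2 in
lemma KK_mul_right {S : Set (E F)} {a : E F} (ha : a ∈ K S * K S) (y : E F) :
    a * y ∈ K S * K S := by
  refine Submodule.mul_induction_on ha (fun m hm n hn => ?_) (fun a b ha hb => ?_)
  · rw [mul_assoc]; exact Submodule.mul_mem_mul hm (K_mul_right hn y)
  · rw [add_mul]; exact add_mem ha hb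

lemma KK_mul_left {S : Set (E F)} (hS : ∀ s ∈ S, sg s = -s) {a : E F} (ha : a ∈ K S * K S)
    (y : E F) : y * a ∈ K S * K S := by
  refine Submodule.mul_induction_on ha (fun m hm n hn => ?_) (fun a b ha hb => ?_)
  · rw [← mul_assoc]; exact Submodule.mul_mem_mul (K_mul_left h2 hS hm y) hn
  · rw [mul_add]; exact add_mem ha hb

lemma K_comm_le {S T : Set (E F)} (hS : ∀ s ∈ S, sg s = -s) (hT : ∀ s ∈ T, sg s = -s) :
    K S * K T ≤ K T * K S := by
  refine Submodule.mul_le.2 fun a ha b hb => ?_
  refine Submodule.mul_induction_on ha (fun m hm n _ => ?_) (fun a a' ha ha' => ?_)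
  · have h1 : n * b ∈ K T := K_mul_left h2 hT hb n
    have h3 : sg (n * b) ∈ K T := K_map sg (fun s hs => by
      rw [hT s hs]; exact neg_mem (mem_K hs)) h1
    rw [mul_assoc, odd_mul h2 (span_odd hS hm)]
    refine Submodule.mul_mem_mul h3 ?_
    simpa [K] using Submodule.mul_mem_mul hm (Submodule.mem_top (x := (1 : E F)))
  · rw [add_mul]; exact add_mem ha ha'

lemma K_nil {S : Set (E F)} (hfin : S.Finite) (hS : ∀ s ∈ S, sg s = -s) : IsNilpotent (K S) := by
  induction S, hfin using Set.Finite.induction_on with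
  | empty => exact ⟨1, by simp [K]⟩
  | @insert a S _ _ ih =>
    have hS' : ∀ s ∈ S, sg s = -s := fun s hs => hS s (Set.mem_insert_of_mem _ hs)
    have ha : ∀ s ∈ ({a} : Set (E F)), sg s = -s := fun s hs => hS s (by simp at hs; simp [hs])
    have h1 : K (insert a S) = K {a} + K S := by
      simp only [K]
      rw [Submodule.span_insert, Submodule.add_eq_sup, Submodule.sup_mul]
    rw [h1]
    refine Commute.isNilpotent_add (le_antisymm (K_comm_le h2 ha hS') (K_comm_le h2 hS' ha)) ?_
      (ih hS')
    refine ⟨2, ?_⟩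
    rw [pow_two, Submodule.zero_eq_bot, eq_bot_iff]
    refine Submodule.mul_le.2 fun x hx y hy => ?_
    have key : ∀ z ∈ K ({a} : Set (E F)), ∃ u, z = a * u := by
      intro z hz
      refine Submodule.mul_induction_on hz (fun m hm n _ => ?_) (fun a b ha hb => ?_)
      · obtain ⟨c, rfl⟩ := Submodule.mem_span_singleton.1 hm
        exact ⟨c • n, by simp⟩
      · obtain ⟨u, rfl⟩ := ha
        obtain ⟨v, rfl⟩ := hb
        exact ⟨u + v, by rw [mul_add]⟩
    obtain ⟨u, rfl⟩ := key x hx
    obtain ⟨v, rfl⟩ := key y hy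
    have h3 := odd_mul h2 (ha a rfl) (sg u)
    rw [sg_sg] at h3
    rw [Submodule.mem_bot, mul_assoc, ← mul_assoc u, ← h3, ← mul_assoc, ← mul_assoc,
      odd_sq h2 (ha a rfl), zero_mul, zero_mul]

/-- An endomorphism congruent to the identity modulo the square of such an ideal is unipotent. -/
lemma unip_of_KK {S : Set (E F)} (hfin : S.Finite) (hS : ∀ s ∈ S, sg s = -s)
    (h : E F →ₐ[F] E F) (hh : ∀ x, h x - x ∈ K S * K S) :
    IsNilpotent (h.toLinearMap - 1 : Module.End F (E F)) := by
  obtain ⟨n, hn⟩ := K_nil h2 hfin hS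
  have step : ∀ k : ℕ, ∀ x ∈ K S ^ (k + 1), h x - x ∈ K S ^ (k + 2) := by
    intro k
    induction k with
    | zero => intro x _; rw [zero_add, pow_two]; exact hh x
    | succ k ih =>
      intro x hx
      rw [pow_succ] at hx
      refine Submodule.mul_induction_on hx (fun a ha b hb => ?_) (fun a b ha hb => ?_)
      · have : h (a * b) - a * b = (h a - a) * h b + a * (h b - b) := by
          rw [map_mul]; noncomm_ring
        rw [this]
        refine add_mem ?_ ?_
        · rw [pow_succ _ (k + 2)]
          refine Submodule.mul_mem_mul (ih a ha) ?_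
          have : h b = (h b - b) + b := by abel
          rw [this]; exact add_mem (KK_le (hh b)) hb
        · rw [show k + 1 + 2 = (k + 1) + 2 from rfl, pow_add _ (k + 1) 2, pow_two]
          exact Submodule.mul_mem_mul ha (hh b)
      · have : h (a + b) - (a + b) = (h a - a) + (h b - b) := by rw [map_add]; abel
        rw [this]; exact add_mem ha hb
  have all : ∀ k : ℕ, ∀ x, ((h.toLinearMap - 1 : Module.End F (E F)) ^ (k + 1)) x ∈
      K S ^ (k + 2) := by
    intro k
    induction k with
    | zero => intro x; rw [zero_add, pow_one, pow_two]; exact hh x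
    | succ k ih =>
      intro x
      rw [pow_succ' (h.toLinearMap - 1 : Module.End F (E F)), Module.End.mul_apply, LinearMap.sub_apply, Module.End.one_apply,
        AlgHom.toLinearMap_apply]
      exact step (k + 1) _ (ih x)
  refine ⟨n + 1, LinearMap.ext fun x => ?_⟩
  have := all n x
  rw [pow_add, hn, zero_mul] at this
  simpa using this

end Pool.Agent.H10.Gr
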