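import Mathlib

/-! Square roots of unipotent algebra automorphisms. -/

namespace Pool.Agent.H10.Gr

open Polynomial

variable {F : Type} [Field F]

lemma intertwine (h2 : (2 : F) ≠ 0) {W : Type} [AddCommGroup W] [Module F W]
    (P Q : Module.End F W) (hc : Commute P Q) (hP : IsNilpotent (P - 1)) (hQ : IsNilpotent (Q - 1))
    (m : W) (h : P (P m) = Q (Q m)) : P m = Q m := by
  have h1 : IsNilpotent ((P - 1) + (Q - 1)) :=
    Commute.isNilpotent_add ((hc.sub_left (Commute.one_left Q)).sub_right (Commute.one_right _)) hP hQ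
  have h3 : IsUnit (2 : Module.End F W) := by
    have : (2 : Module.End F W) = algebraMap F _ 2 := by rw [map_ofNat]
    rw [this]
    exact (IsUnit.mk0 _ h2).map _
  have h4 : IsUnit (2 + ((P - 1) + (Q - 1))) :=
    h1.isUnit_add_left_of_commute h3 (Commute.ofNat_right _ 2)
  have h5 : (2 + ((P - 1) + (Q - 1)) : Module.End F W) = P + Q := by
    rw [← one_add_one_eq_two]; abel
  rw [h5, Module.End.isUnit_iff] at h4
  have h6 : (P + Q) (P m - Q m) = (P + Q) 0 := by
    have := congrArg (fun f : Module.End F W => f m) hc.eq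
    simp only [Module.End.mul_apply] at this
    simp [h, this]
  exact sub_eq_zero.1 (h4.1 h6)

lemma poly_sqrt (h2 : (2 : F) ≠ 0) (k : ℕ) :
    ∃ u c : F[X], (1 + X * u) * (1 + X * u) = 1 + X + X ^ (k + 1) * c := by
  induction k with
  | zero => exact ⟨0, -1, by ring⟩
  | succ k ih =>
    obtain ⟨u, c, h⟩ := ih
    have h3 : (C (2⁻¹ : F) : F[X]) * 2 = 1 := by
      rw [show (2 : F[X]) = C 2 from rfl, ← C_mul, inv_mul_cancel₀ h2, C_1]
    refine ⟨u - C (2⁻¹ : F) * X ^ k * c, -(u * c) + C (2⁻¹ : F) ^ 2 * X ^ k * c ^ 2, ?_⟩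
    generalize (C (2⁻¹ : F) : F[X]) = d at *
    linear_combination h - (X ^ (k + 1) * c + X ^ (k + 2) * u * c) * h3

variable {A : Type} [Ring A] [Algebra F A]

/-- bilinear maps -/
def Bil (F A : Type) [Field F] [Ring A] [Algebra F A] := A →ₗ[F] A →ₗ[F] A

instance : AddCommGroup (Bil F A) := LinearMap.addCommGroup
instance : Module F (Bil F A) := LinearMap.module

/-- the underlying map -/
def Bil.v (m : Bil F A) : A →ₗ[F] A →ₗ[F] A := m

@[ext] lemma Bil.ext' {m m' : Bil F A} (h : ∀ x y, m.v x y = m'.v x y) : m = m' :=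
  LinearMap.ext fun x => LinearMap.ext fun y => h x y

@[simp] lemma Bil.v_add (m m' : Bil F A) : (m + m').v = m.v + m'.v := rfl
@[simp] lemma Bil.v_sub (m m' : Bil F A) : (m - m').v = m.v - m'.v := rfl
@[simp] lemma Bil.v_zero : (0 : Bil F A).v = 0 := rfl
@[simp] lemma Bil.v_smul (c : F) (m : Bil F A) : (c • m).v = c • m.v := rfl

/-- post-composition on bilinear maps -/
def opP (f : Module.End F A) : Module.End F (Bil F A) where
  toFun m := m.v.compr₂ f
  map_add' _ _ := LinearMap.ext fun x => LinearMap.ext fun y => by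
    first | rfl | exact map_add f _ _
  map_smul' _ _ := LinearMap.ext fun x => LinearMap.ext fun y => by
    first | rfl | exact map_smul f _ _

/-- pre-composition in the first argument -/
def opQ (f : Module.End F A) : Module.End F (Bil F A) where
  toFun m := m.v ∘ₗ f
  map_add' _ _ := LinearMap.ext fun x => LinearMap.ext fun y => by
    first | rfl | exact map_add f _ _
  map_smul' _ _ := LinearMap.ext fun x => LinearMap.ext fun y => by
    first | rfl | exact map_smul f _ _

/-- pre-composition in the second argument -/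
def opR (f : Module.End F A) : Module.End F (Bil F A) where
  toFun m := m.v.compl₂ f
  map_add' _ _ := LinearMap.ext fun x => LinearMap.ext fun y => by
    first | rfl | exact map_add f _ _
  map_smul' _ _ := LinearMap.ext fun x => LinearMap.ext fun y => by
    first | rfl | exact map_smul f _ _

@[simp] lemma opP_apply (f : Module.End F A) (m x y) : (opP f m).v x y = f (m.v x y) := rfl
@[simp] lemma opQ_apply (f : Module.End F A) (m x y) : (opQ f m).v x y = m.v (f x) y := rfl
@[simp] lemma opR_apply (f : Module.End F A) (m x y) : (opR f m).v x y = m.v x (f y) := rfl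

lemma opP_nil {f : Module.End F A} (h : IsNilpotent (f - 1)) : IsNilpotent (opP f - 1) := by
  obtain ⟨n, hn⟩ := h
  have : ∀ (k : ℕ) (m : Bil F A) x y, (((opP f - 1) ^ k) m).v x y = ((f - 1) ^ k) (m.v x y) := by
    intro k
    induction k with
    | zero => simp
    | succ k ih => intro m x y; rw [pow_succ, pow_succ, Module.End.mul_apply, ih]; simp
  exact ⟨n, by ext m x y; rw [this, hn]; simp⟩

lemma opQ_nil {f : Module.End F A} (h : IsNilpotent (f - 1)) : IsNilpotent (opQ f - 1) := by
  obtain ⟨n, hn⟩ := h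
  have : ∀ (k : ℕ) (m : Bil F A) x y, (((opQ f - 1) ^ k) m).v x y = m.v (((f - 1) ^ k) x) y := by
    intro k
    induction k with
    | zero => simp
    | succ k ih => intro m x y; rw [pow_succ, pow_succ', Module.End.mul_apply, ih]; simp
  exact ⟨n, by ext m x y; rw [this, hn]; simp⟩

lemma opR_nil {f : Module.End F A} (h : IsNilpotent (f - 1)) : IsNilpotent (opR f - 1) := by
  obtain ⟨n, hn⟩ := h
  have : ∀ (k : ℕ) (m : Bil F A) x y, (((opR f - 1) ^ k) m).v x y = m.v x (((f - 1) ^ k) y) := by
    intro k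
    induction k with
    | zero => simp
    | succ k ih => intro m x y; rw [pow_succ, pow_succ', Module.End.mul_apply, ih]; simp
  exact ⟨n, by ext m x y; rw [this, hn]; simp⟩

/-- unipotent automorphisms -/
def Un (h : A ≃ₐ[F] A) : Prop := IsNilpotent (h.toLinearMap - 1 : Module.End F A)

lemma exists_sqrt (h2 : (2 : F) ≠ 0) (h : A ≃ₐ[F] A) (hh : Un h) :
    ∃ s : A ≃ₐ[F] A, s * s = h ∧ ∃ u : F[X], (s.toLinearMap : Module.End F A) =
      1 + (h.toLinearMap - 1) * aeval (h.toLinearMap - 1 : Module.End F A) u := by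
  obtain ⟨n, hn⟩ := hh
  obtain ⟨u, c, huc⟩ := poly_sqrt h2 n
  set t : Module.End F A := h.toLinearMap - 1 with ht
  have h1 := congrArg (aeval t) huc
  simp only [map_mul, map_add, map_one, aeval_X, map_pow] at h1
  rw [pow_succ, hn, zero_mul, zero_mul, add_zero] at h1
  set S : Module.End F A := 1 + t * aeval t u with hS
  have hSS : ∀ x, S (S x) = h x := by
    intro x
    have := congrArg (fun f : Module.End F A => f x) h1
    simpa [ht] using this
  have hcomm : Commute t (aeval t u) := by
    have := congrArg (aeval t) (mul_comm X u)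
    simpa [Commute, SemiconjBy] using this
  have hSn : IsNilpotent (S - 1) := by
    rw [hS, add_sub_cancel_left]
    exact hcomm.isNilpotent_mul_right ⟨n, hn⟩
  have hSu : Function.Bijective S := by
    rw [← Module.End.isUnit_iff]
    have := hSn.isUnit_add_one
    rwa [sub_add_cancel] at this
  have hmul : ∀ x y, S (x * y) = S x * S y := by
    have hQR : Commute (opQ S) (opR S) := by ext m x y; simp
    have hn2 : IsNilpotent (opQ S * opR S - 1) := by
      have : opQ S * opR S - 1 = (opQ S - 1) * opR S + (opR S - 1) := by noncomm_ring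
      rw [this]
      have c1 : Commute (opQ S - 1) (opR S) := hQR.sub_left (Commute.one_left _)
      refine Commute.isNilpotent_add ?_ (c1.isNilpotent_mul_right (opQ_nil hSn)) (opR_nil hSn)
      exact (c1.mul_left (Commute.refl _)).sub_right (Commute.one_right _)
    have := intertwine h2 (opP S) (opQ S * opR S) (by ext m x y; simp) (opP_nil hSn) hn2
      (LinearMap.mul F A) (by
        ext x y
        change S (S (x * y)) = S (S x) * S (S y)
        simp only [hSS, map_mul])
    intro x y
    exact congrArg (fun m : Bil F A => m.v x y) this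
  have hone : S 1 = 1 := by
    have := intertwine h2 S 1 (Commute.one_right _) hSn (by simp) 1 (by simp [hSS])
    simpa using this
  refine ⟨AlgEquiv.ofBijective (AlgHom.ofLinearMap S hone hmul) hSu, ?_, u, ?_⟩
  · ext x; exact hSS x
  · rfl

lemma sqrt_unique (h2 : (2 : F) ≠ 0) (s r : A ≃ₐ[F] A) (hs : Un s) (hr : Un r)
    (h : s * s = r * r) : s = r := by
  let P : Module.End F (Module.End F A) := LinearMap.mulLeft F s.toLinearMap
  let Q : Module.End F (Module.End F A) := LinearMap.mulRight F r.toLinearMap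
  have hP : IsNilpotent (P - 1) := by
    have : P - 1 = LinearMap.mulLeft F (s.toLinearMap - 1 : Module.End F A) := by
      ext m x; simp [P]
    rw [this]; exact (LinearMap.isNilpotent_mulLeft_iff _ _).2 hs
  have hQ : IsNilpotent (Q - 1) := by
    have : Q - 1 = LinearMap.mulRight F (r.toLinearMap - 1 : Module.End F A) := by
      ext m x; simp [Q]
    rw [this]; exact (LinearMap.isNilpotent_mulRight_iff _ _).2 hr
  have := intertwine h2 P Q (by ext m x; simp [P, Q]) hP hQ 1 (by
    ext x
    have := congrArg (fun f : A ≃ₐ[F] A => f x) h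
    simpa [P, Q] using this)
  ext x
  have := congrArg (fun m : Module.End F A => m x) this
  simpa [P, Q] using this

lemma aeval_mem {W : Type} [AddCommGroup W] [Module F W] (t : Module.End F W)
    (B : Submodule F W) (hB : ∀ x ∈ B, t x ∈ B) (u : F[X]) : ∀ x ∈ B, aeval t u x ∈ B := by
  induction u using Polynomial.induction_on with
  | C a => intro x hx; simpa using B.smul_mem a hx
  | add p q hp hq => intro x hx; simpa using B.add_mem (hp x hx) (hq x hx)
  | monomial n a ih =>
    intro x hx
    rw [pow_succ, ← mul_assoc, map_mul, aeval_X, Module.End.mul_apply]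
    exact ih _ (hB x hx)

lemma symm_mem {h : A ≃ₐ[F] A} (hh : Un h) (B : Submodule F A) (hB : ∀ x ∈ B, h x ∈ B) :
    ∀ y ∈ B, h.symm y ∈ B := by
  obtain ⟨n, hn⟩ := hh
  have : ∀ k, ∀ y ∈ B, ((h.toLinearMap - 1 : Module.End F A) ^ k) y = 0 → h.symm y ∈ B := by
    intro k
    induction k with
    | zero => intro y _ hy; simp at hy; simp [hy]
    | succ k ih =>
      intro y hy h0
      rw [pow_succ, Module.End.mul_apply] at h0
      have h1 := ih _ (B.sub_mem (hB y hy) hy) h0
      rw [map_sub, AlgEquiv.symm_apply_apply] at h1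
      have := B.sub_mem hy h1
      simpa using this
  intro y hy
  exact this n y hy (by rw [hn]; rfl)

/-- The fixed point lemma. -/
lemma fixed_point {G : Type} [Group G] (Γ H : Subgroup G) (φ g : G) (hφ : φ * φ = 1)
    (hn : ∀ h ∈ Γ, φ * h * φ ∈ Γ) (hex : ∀ h ∈ Γ, ∃ s ∈ Γ, s * s = h ∧ (h ∈ H → s ∈ H))
    (hu : ∀ s ∈ Γ, ∀ r ∈ Γ, s * s = r * r → s = r)
    (hj : ∀ s ∈ Γ, s * s = (g⁻¹ * φ) * (g⁻¹ * φ) → Commute s (g⁻¹ * φ))
    (hg : g ∈ Γ) (hH : g⁻¹ * φ ∈ H) : ∃ r ∈ Γ, r * φ * r⁻¹ ∈ H := by
  have hi : φ⁻¹ = φ := inv_eq_of_mul_eq_one_right hφ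
  have h0 : (g⁻¹ * φ) * (g⁻¹ * φ) ∈ Γ := by
    have := Γ.mul_mem (Γ.inv_mem hg) (hn _ (Γ.inv_mem hg))
    simpa [mul_assoc] using this
  obtain ⟨s, hs, hss, hsH⟩ := hex _ h0
  have hsH := hsH (H.mul_mem hH hH)
  have hc := hj s hs hss
  set j := g⁻¹ * φ * s⁻¹ with hjdef
  have hjj : j * j = 1 := by
    have : j * j = (g⁻¹ * φ) * (g⁻¹ * φ) * (s * s)⁻¹ := by
      rw [hjdef, mul_assoc (g⁻¹ * φ), ← mul_assoc s⁻¹, hc.inv_left.eq]; group
    rw [this, hss, mul_inv_cancel]
  have hγ : j * φ ∈ Γ := by
    have := Γ.mul_mem (Γ.inv_mem hg) (hn _ (Γ.inv_mem hs))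
    simpa [hjdef, mul_assoc] using this
  obtain ⟨r, hr, hrr, -⟩ := hex _ hγ
  have h1 : φ * r * φ = r⁻¹ := by
    refine hu _ (hn _ hr) _ (Γ.inv_mem hr) ?_
    have hj' : j⁻¹ = j := inv_eq_of_mul_eq_one_right hjj
    calc φ * r * φ * (φ * r * φ) = φ * r * (φ * φ) * r * φ := by group
      _ = φ * (r * r) * φ := by rw [hφ]; group
      _ = φ * j * (φ * φ) := by rw [hrr]; group
      _ = (r * r)⁻¹ := by rw [hφ, hrr, mul_inv_rev, hi, hj', mul_one]
      _ = _ := by group
  refine ⟨r, hr, ?_⟩
  have : r * φ * r⁻¹ = j := by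
    rw [← h1]
    calc r * φ * (φ * r * φ) = r * (φ * φ) * r * φ := by group
      _ = (r * r) * φ := by rw [hφ]; group
      _ = j * (φ * φ) := by rw [hrr]; group
      _ = j := by rw [hφ, mul_one]
  rw [this]
  exact H.mul_mem hH (H.inv_mem hsH)

end Pool.Agent.H10.Gr
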