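import Pool.Agent.H10.Gr1
import Pool.Agent.H10.Gr2

/-! Frames of the infinite Grassmann algebra. -/

namespace Pool.Agent.H10.Gr

open ExteriorAlgebra

variable {F : Type} [Field F]

/-- truncation at degree two -/
noncomputable def T : E F →ₐ[F] TrivSqZeroExt F (L F) := toTrivSqZeroExt

@[simp] lemma T_i (v : L F) : T (ι F v) = TrivSqZeroExt.inr v := toTrivSqZeroExt_ι v

lemma fst_of_sq {x : E F} (h : x * x = 0) : (T x).fst = 0 := by
  have := congrArg (fun z => (T z).fst) h
  simpa using this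

lemma fst_K {S : Set (E F)} (f : E F →ₐ[F] E F) (hS : ∀ s ∈ S, s * s = 0) {a : E F}
    (ha : a ∈ K S) : (T (f a)).fst = 0 := by
  refine Submodule.mul_induction_on ha (fun m hm n _ => ?_) (fun a b ha hb => ?_)
  · have : (T (f m)).fst = 0 := by
      induction hm using Submodule.span_induction with
      | mem x h => exact fst_of_sq (by rw [← map_mul, hS x h, map_zero])
      | zero => simp
      | add x y _ _ hx hy => simp [hx, hy]
      | smul a x _ hx => simp [hx]
    simp [this]
  · simp [ha, hb]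

lemma T_KK {S : Set (E F)} (f : E F →ₐ[F] E F) (hS : ∀ s ∈ S, s * s = 0) {a : E F}
    (ha : a ∈ K S * K S) : T (f a) = 0 := by
  refine Submodule.mul_induction_on ha (fun m hm n hn => ?_) (fun a b ha hb => ?_)
  · have h1 := fst_K f hS hm
    have h2 := fst_K f hS hn
    ext1 <;> simp [h1, h2]
  · simp [ha, hb]

variable (b : Module.Basis ℕ F (L F))

/-- generators -/
noncomputable def e (i : ℕ) : E F := ι F (b i)

@[simp] lemma sg_e (i : ℕ) : sg (e b i) = -e b i := sg_i _

lemma hom_ext_e {B : Type} [Ring B] [Algebra F B] {f g : E F →ₐ[F] B}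
    (h : ∀ i, f (e b i) = g (e b i)) : f = g :=
  ExteriorAlgebra.hom_ext (b.ext h)

/-- first generators -/
def SS (M : ℕ) : Set (E F) := e b '' Set.Iio M

lemma SS_fin (M : ℕ) : (SS b M).Finite := (Set.finite_Iio M).image _
lemma SS_odd (M : ℕ) : ∀ s ∈ SS b M, sg s = -s := by rintro _ ⟨i, -, rfl⟩; simp
lemma SS_sq (M : ℕ) : ∀ s ∈ SS b M, s * s = 0 := by rintro _ ⟨i, -, rfl⟩; exact ι_sq_zero _
lemma SS_mono {M N : ℕ} (h : M ≤ N) : SS b M ⊆ SS b N := Set.image_mono (Set.Iio_subset_Iio h)

lemma i_mem (v : L F) : ∃ M, ι F v ∈ K (SS b M) := by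
  have hv : v ∈ Submodule.span F (Set.range b) := by rw [b.span_eq]; trivial
  induction hv using Submodule.span_induction with
  | mem x h => obtain ⟨i, rfl⟩ := h; exact ⟨i + 1, mem_K ⟨i, by simp, rfl⟩⟩
  | zero => exact ⟨0, by simp⟩
  | add x y _ _ hx hy =>
    obtain ⟨M, hM⟩ := hx
    obtain ⟨N, hN⟩ := hy
    exact ⟨max M N, by
      rw [map_add]
      exact add_mem (K_mono (SS_mono b (le_max_left _ _)) hM) (K_mono (SS_mono b (le_max_right _ _)) hN)⟩
  | smul a x _ hx =>
    obtain ⟨M, hM⟩ := hx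
    exact ⟨M, by rw [map_smul]; exact Submodule.smul_mem _ _ hM⟩

lemma high_aux (h2 : (2 : F) ≠ 0) (x : E F) : ∃ M, ι F (T x).snd ∈ K (SS b M) ∧
    x - algebraMap F _ (T x).fst - ι F (T x).snd ∈ K (SS b M) * K (SS b M) := by
  have mono : ∀ x y : E F, (∃ M, ι F (T x).snd ∈ K (SS b M) ∧
      x - algebraMap F _ (T x).fst - ι F (T x).snd ∈ K (SS b M) * K (SS b M)) →
      (∃ M, ι F (T y).snd ∈ K (SS b M) ∧
      y - algebraMap F _ (T y).fst - ι F (T y).snd ∈ K (SS b M) * K (SS b M)) →
      ∃ M, (ι F (T x).snd ∈ K (SS b M) ∧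
      x - algebraMap F _ (T x).fst - ι F (T x).snd ∈ K (SS b M) * K (SS b M)) ∧
      (ι F (T y).snd ∈ K (SS b M) ∧
      y - algebraMap F _ (T y).fst - ι F (T y).snd ∈ K (SS b M) * K (SS b M)) := by
    rintro x y ⟨M, h1, h3⟩ ⟨N, k1, k3⟩
    exact ⟨max M N, ⟨K_mono (SS_mono b (le_max_left _ _)) h1, KK_mono (SS_mono b (le_max_left _ _)) h3⟩,
      K_mono (SS_mono b (le_max_right _ _)) k1, KK_mono (SS_mono b (le_max_right _ _)) k3⟩
  induction x using ExteriorAlgebra.induction with
  | algebraMap r => exact ⟨0, by simp [TrivSqZeroExt.algebraMap_eq_inl], by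
      simp [TrivSqZeroExt.algebraMap_eq_inl]⟩
  | ι v => obtain ⟨M, hM⟩ := i_mem b v; exact ⟨M, by simpa using hM, by simp⟩
  | add x y hx hy =>
    obtain ⟨M, ⟨h1, h3⟩, k1, k3⟩ := mono x y hx hy
    refine ⟨M, by simpa using add_mem h1 k1, ?_⟩
    convert add_mem h3 k3 using 1
    simp; abel
  | mul x y hx hy =>
    obtain ⟨M, ⟨h1, h3⟩, k1, k3⟩ := mono x y hx hy
    refine ⟨M, by simpa using add_mem (Submodule.smul_mem _ _ k1) (Submodule.smul_mem _ _ h1), ?_⟩
    have h4 := add_mem (add_mem (KK_mul_right h3 y)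
      (KK_mul_left h2 (SS_odd b M) k3 (algebraMap F _ (T x).fst + ι F (T x).snd)))
      (Submodule.mul_mem_mul h1 k1)
    convert h4 using 1
    simp only [map_mul, TrivSqZeroExt.fst_mul, TrivSqZeroExt.snd_mul, map_add, map_smul,
      op_smul_eq_smul, Algebra.algebraMap_eq_smul_one, sub_mul, mul_sub, add_mul,
      smul_mul_assoc, mul_smul_comm, one_mul, mul_one, smul_add, smul_smul]
    rw [mul_comm (T y).fst]
    abel

lemma high (h2 : (2 : F) ≠ 0) {x : E F} (hx : T x = 0) : ∃ M, x ∈ K (SS b M) * K (SS b M) := by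
  obtain ⟨M, -, h⟩ := high_aux b h2 x
  exact ⟨M, by simpa [hx] using h⟩

include b in
lemma T_map (h2 : (2 : F) ≠ 0) (f : E F →ₐ[F] E F) {x : E F} (hx : T x = 0) : T (f x) = 0 := by
  obtain ⟨M, h⟩ := high b h2 hx
  exact T_KK f (SS_sq b M) h

include b in
lemma T_congr (h2 : (2 : F) ≠ 0) (f : E F →ₐ[F] E F) {x y : E F} (h : T x = T y) :
    T (f x) = T (f y) := by
  have := T_map b h2 f (x := x - y) (by rw [map_sub, h, sub_self])
  rwa [map_sub, map_sub, sub_eq_zero] at this

/-- the endomorphism with prescribed odd values on the generators -/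
noncomputable def gen (h2 : (2 : F) ≠ 0) (y : ℕ → E F) (hy : ∀ i, sg (y i) = -y i) :
    E F →ₐ[F] E F :=
  ExteriorAlgebra.lift F ⟨b.constr F y, fun v => odd_sq h2 (span_odd (S := Set.range y)
    (by rintro _ ⟨i, rfl⟩; exact hy i) (by rw [← b.constr_range F]; exact ⟨v, rfl⟩))⟩

@[simp] lemma gen_e (h2 : (2 : F) ≠ 0) (y : ℕ → E F) (hy : ∀ i, sg (y i) = -y i) (i : ℕ) :
    gen b h2 y hy (e b i) = y i := by simp [gen, e]

/-- projection onto the subalgebra of the first generators -/
noncomputable def p (N : ℕ) : E F →ₐ[F] E F :=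
  ExteriorAlgebra.map (b.constr F fun i => if i < N then b i else 0)

lemma p_e (N i : ℕ) : p b N (e b i) = if i < N then e b i else 0 := by
  simp only [p, e, map_apply_ι, Module.Basis.constr_basis]
  split_ifs <;> simp

lemma agree {B : Type} [Ring B] [Algebra F B] {f g : E F →ₐ[F] B} {N : ℕ}
    (h : ∀ i < N, f (e b i) = g (e b i)) {x : E F} (hx : p b N x = x) : f x = g x := by
  have : f.comp (p b N) = g.comp (p b N) := hom_ext_e b fun i => by
    simp only [AlgHom.comp_apply, p_e]
    split_ifs with hi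
    · exact h i hi
    · simp
  rw [← hx]
  exact congrArg (fun k : E F →ₐ[F] B => k x) this

lemma p_mono {N M : ℕ} (h : N ≤ M) {x : E F} (hx : p b N x = x) : p b M x = x :=
  agree b (g := AlgHom.id F _) (fun i hi => by simp [p_e, lt_of_lt_of_le hi h]) hx

lemma p_p (N : ℕ) (x : E F) : p b N (p b N x) = p b N x := by
  have : (p b N).comp (p b N) = p b N := hom_ext_e b fun i => by
    simp only [AlgHom.comp_apply, p_e]
    split_ifs with hi <;> simp [p_e, *]
  exact congrArg (fun k : E F →ₐ[F] E F => k x) this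

lemma p_maps {f : E F →ₐ[F] E F} {N : ℕ} (h : ∀ i < N, p b N (f (e b i)) = f (e b i)) {x : E F}
    (hx : p b N x = x) : p b N (f x) = f x :=
  agree b (f := (p b N).comp f) h hx

lemma exists_p (x : E F) : ∃ N, p b N x = x := by
  induction x using ExteriorAlgebra.induction with
  | algebraMap r => exact ⟨0, by simp⟩
  | ι v =>
    have hv : v ∈ Submodule.span F (Set.range b) := by rw [b.span_eq]; trivial
    induction hv using Submodule.span_induction with
    | mem x h => obtain ⟨i, rfl⟩ := h; exact ⟨i + 1, by simpa [e] using p_e b (i + 1) i⟩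
    | zero => exact ⟨0, by simp⟩
    | add x y _ _ hx hy =>
      obtain ⟨M, hM⟩ := hx
      obtain ⟨N, hN⟩ := hy
      exact ⟨max M N, by
        rw [map_add, map_add, p_mono b (le_max_left _ _) hM, p_mono b (le_max_right _ _) hN]⟩
    | smul a x _ hx =>
      obtain ⟨M, hM⟩ := hx
      exact ⟨M, by rw [map_smul, map_smul, hM]⟩
  | add x y hx hy =>
    obtain ⟨M, hM⟩ := hx
    obtain ⟨N, hN⟩ := hy
    exact ⟨max M N, by rw [map_add, p_mono b (le_max_left _ _) hM, p_mono b (le_max_right _ _) hN]⟩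
  | mul x y hx hy =>
    obtain ⟨M, hM⟩ := hx
    obtain ⟨N, hN⟩ := hy
    exact ⟨max M N, by rw [map_mul, p_mono b (le_max_left _ _) hM, p_mono b (le_max_right _ _) hN]⟩

lemma sg_p (N : ℕ) (x : E F) : sg (p b N x) = p b N (sg x) := by
  have : (sg : E F →ₐ[F] E F).comp (p b N) = (p b N).comp sg := hom_ext_e b fun i => by
    simp only [AlgHom.comp_apply, p_e, sg_e, map_neg]
    split_ifs <;> simp
  exact congrArg (fun k : E F →ₐ[F] E F => k x) this

/-- Finite-type endomorphisms that are trivial modulo degree two are automorphisms. -/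
lemma finite_type (h2 : (2 : F) ≠ 0) (y : ℕ → E F) (hy : ∀ i, sg (y i) = -y i) (N : ℕ)
    (hT : ∀ i, T (y i) = T (e b i)) (hN : ∀ i, N ≤ i → y i = e b i) :
    ∃ w : E F ≃ₐ[F] E F, (∀ i, w (e b i) = y i) ∧ (∀ x, sg (w x) = w (sg x)) ∧
      ∃ M, ∀ x, w x - x ∈ K (SS b M) * K (SS b M) := by
  have h1 : ∀ n, ∃ M, ∀ i < n, y i - e b i ∈ K (SS b M) * K (SS b M) := by
    intro n
    induction n with
    | zero => exact ⟨0, by simp⟩
    | succ n ih =>
      obtain ⟨M, hM⟩ := ih
      obtain ⟨M', hM'⟩ := high b h2 (x := y n - e b n) (by rw [map_sub, hT, sub_self])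
      refine ⟨max M M', fun i hi => ?_⟩
      rcases Nat.lt_succ_iff_lt_or_eq.1 hi with hi | rfl
      · exact KK_mono (SS_mono b (le_max_left _ _)) (hM i hi)
      · exact KK_mono (SS_mono b (le_max_right _ _)) hM'
  obtain ⟨M, hM⟩ := h1 N
  set f := gen b h2 y hy with hf
  have h3 : ∀ x, f x - x ∈ K (SS b M) * K (SS b M) := by
    intro x
    induction x using ExteriorAlgebra.induction with
    | algebraMap r => simp
    | ι v =>
      have hv : v ∈ Submodule.span F (Set.range b) := by rw [b.span_eq]; trivial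
      induction hv using Submodule.span_induction with
      | mem x h =>
        obtain ⟨i, rfl⟩ := h
        change f (e b i) - e b i ∈ _
        rw [hf, gen_e]
        rcases lt_or_ge i N with hi | hi
        · exact hM i hi
        · simp [hN i hi]
      | zero => simp
      | add x y _ _ hx hy => convert add_mem hx hy using 1; simp; abel
      | smul a x _ hx => convert Submodule.smul_mem _ a hx using 1; simp [smul_sub]
    | add x y hx hy => convert add_mem hx hy using 1; simp; abel
    | mul x y hx hy =>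
      convert add_mem (KK_mul_right hx (f y)) (KK_mul_left h2 (SS_odd b M) hy x) using 1
      rw [map_mul]; noncomm_ring
  have h4 := (unip_of_KK h2 (SS_fin b M) (SS_odd b M) f h3).isUnit_add_one
  rw [sub_add_cancel, Module.End.isUnit_iff] at h4
  refine ⟨AlgEquiv.ofBijective f h4, fun i => gen_e b h2 y hy i, fun x => ?_, M, h3⟩
  have : (sg : E F →ₐ[F] E F).comp f = f.comp sg := hom_ext_e b fun i => by
    simp [hf, hy]
  exact congrArg (fun k : E F →ₐ[F] E F => k x) this

include b in
/-- The centre is the even part. -/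
lemma even_of_central (h2 : (2 : F) ≠ 0) {x : E F} (hx : ∀ y, x * y = y * x) : sg x = x := by
  obtain ⟨x0, x1, rfl, h1, h3, h4, h5⟩ := decomp x
  obtain ⟨N, hN⟩ := exists_p b x1
  have h6 : e b N * x1 = 0 := by
    apply two_cancel h2
    have := hx (e b N)
    rw [add_mul, mul_add, h4, h5, sg_e, neg_mul] at this
    exact neg_eq_iff_add_eq_zero.1 (add_left_cancel this)
  let d : E F →ₗ[F] E F := CliffordAlgebra.contractLeft (Q := 0) (b.coord N)
  have hd : ∀ v z, d (ι F v * z) = b.coord N v • z - ι F v * d z := fun v z =>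
    CliffordAlgebra.contractLeft_ι_mul (Q := 0) (b.coord N) v z
  have h7 : ∀ z, d (p b N z) = 0 := by
    intro z
    induction z using CliffordAlgebra.left_induction with
    | algebraMap r => rw [AlgHom.commutes]; exact CliffordAlgebra.contractLeft_algebraMap 0 _ r
    | add x y hx hy => rw [map_add, map_add, hx, hy, add_zero]
    | ι_mul x m hx =>
      change d (p b N (ι F m * x)) = 0
      rw [map_mul, p, map_apply_ι, hd, ← p, hx, mul_zero, sub_zero]
      have : (b.coord N) ∘ₗ (b.constr F fun i => if i < N then b i else 0) = 0 := b.ext fun i => by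
        simp only [LinearMap.comp_apply, Module.Basis.constr_basis]
        split_ifs with hi
        · simp [hi.ne]
        · simp
      rw [show b.coord N ((b.constr F fun i => if i < N then b i else 0) m) = 0 from
        congrArg (fun k : L F →ₗ[F] F => k m) this, zero_smul]
  have h8 := hd (b N) x1
  rw [show ι F (b N) * x1 = 0 from h6, map_zero, ← hN, h7, hN] at h8
  have : x1 = 0 := by simpa using h8.symm
  simp [this, h1]

end Pool.Agent.H10.Gr
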