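import Pool.Agent.H10.Gr3

/-! Diagonalising an involution of the infinite Grassmann algebra. -/

namespace Pool.Agent.H10.Gr

open ExteriorAlgebra

variable {F : Type} [Field F]

lemma fixed_point' {G : Type} [Group G] (Γ H : Subgroup G) (φ g : G) (hφ : φ * φ = 1)
    (hn : ∀ h ∈ Γ, φ * h * φ ∈ Γ) (hex : ∀ h ∈ Γ, ∃ s ∈ Γ, s * s = h ∧ (h ∈ H → s ∈ H))
    (hu : ∀ s ∈ Γ, ∀ r ∈ Γ, s * s = r * r → s = r)
    (hg : g ∈ Γ) (hH : g⁻¹ * φ ∈ H) : ∃ r ∈ Γ, r * φ * r⁻¹ ∈ H := by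
  have hi : φ⁻¹ = φ := inv_eq_of_mul_eq_one_right hφ
  refine fixed_point Γ H φ g hφ hn hex hu (fun s hs hss => ?_) hg hH
  have h1 : (g⁻¹ * φ) * s * (g⁻¹ * φ)⁻¹ ∈ Γ := by
    have := Γ.mul_mem (Γ.mul_mem (Γ.inv_mem hg) (hn s hs)) hg
    simpa [mul_assoc, hi] using this
  have h3 := hu _ h1 _ hs (by
    calc (g⁻¹ * φ) * s * (g⁻¹ * φ)⁻¹ * ((g⁻¹ * φ) * s * (g⁻¹ * φ)⁻¹)
        = (g⁻¹ * φ) * (s * s) * (g⁻¹ * φ)⁻¹ := by group
      _ = s * s := by rw [hss]; group)
  exact (mul_inv_eq_iff_eq_mul.1 h3).symm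

variable (b : Module.Basis ℕ F (L F))

lemma step (h2 : (2 : F) ≠ 0) (φ : E F ≃ₐ[F] E F) (hφ : φ * φ = 1)
    (hsg : ∀ x, sg (φ x) = φ (sg x)) (ε : ℕ → F) (hε : ∀ i, ε i * ε i = 1)
    (hT : ∀ i, T (φ (e b i)) = ε i • T (e b i)) (n : ℕ) (hn : ∀ i < n, φ (e b i) = ε i • e b i)
    (x : E F) : ∃ (g : E F ≃ₐ[F] E F) (N : ℕ), n < N ∧ (∀ x, sg (g x) = g (sg x)) ∧
      (∀ i, T (g (e b i)) = T (e b i)) ∧ (∀ i < n, g (e b i) = e b i) ∧
      (∀ i < N, φ (g (e b i)) = ε i • g (e b i)) ∧ p b N (g.symm x) = g.symm x := by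
  have hφφ : ∀ y, φ (φ y) = y := fun y => congrArg (fun k : E F ≃ₐ[F] E F => k y) hφ
  obtain ⟨N, hnN, hx1, hx2⟩ : ∃ N, n < N ∧ p b N x = x ∧ p b N (φ x) = φ x := by
    obtain ⟨N1, h1⟩ := exists_p b x
    obtain ⟨N2, h3⟩ := exists_p b (φ x)
    exact ⟨n + N1 + N2 + 1, by omega, p_mono b (by omega) h1, p_mono b (by omega) h3⟩
  have hpe : ∀ i < N, p b N (e b i) = e b i := fun i hi => by simp [p_e, hi]
  let τ := gen b h2 (fun i => ε i • e b i) (fun i => by simp)
  have hτe : ∀ i, τ (e b i) = ε i • e b i := fun i => gen_e b h2 _ _ i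
  have hττ : ∀ y, τ (τ y) = y := by
    have : τ.comp τ = AlgHom.id F _ := hom_ext_e b fun i => by
      simp [hτe, smul_smul, hε]
    exact fun y => congrArg (fun k : E F →ₐ[F] E F => k y) this
  have hτA : ∀ a, p b N a = a → p b N (τ a) = τ a := fun a ha =>
    p_maps b (fun i hi => by rw [hτe, map_smul, hpe i hi]) ha
  obtain ⟨α, hαe, hαs, M1, hα⟩ := finite_type b h2
    (fun i => if i < N then ε i • φ (e b i) else e b i)
    (fun i => by split_ifs <;> simp [hsg]) N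
    (fun i => by split_ifs <;> simp [hT, smul_smul, hε]) (fun i hi => by simp [not_lt.2 hi])
  obtain ⟨β, hβe, hβs, M2, hβ⟩ := finite_type b h2
    (fun i => if i < N then ε i • p b N (φ (e b i)) else e b i)
    (fun i => by split_ifs <;> simp [hsg, sg_p]) N
    (fun i => by
      split_ifs with hi
      · have := T_congr b h2 (p b N) (x := φ (e b i)) (y := ε i • e b i) (by simp [hT])
        simp [this, hpe i hi, smul_smul, hε]
      · rfl) (fun i hi => by simp [not_lt.2 hi])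
  have hατ : ∀ a, p b N a = a → α (τ a) = φ a := fun a ha =>
    agree b (f := (α : E F →ₐ[F] E F).comp τ) (g := (φ : E F →ₐ[F] E F))
      (fun i hi => by simp [hτe, hαe, hi, smul_smul, hε]) ha
  have hβτ : ∀ a, p b N a = a → β (τ a) = p b N (φ a) := fun a ha =>
    agree b (f := (β : E F →ₐ[F] E F).comp τ) (g := (p b N).comp (φ : E F →ₐ[F] E F))
      (fun i hi => by simp [hτe, hβe, hi, smul_smul, hε]) ha
  let S : Set (E F) := SS b (max M1 M2) ∪ φ '' SS b (max M1 M2)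
  have hSfin : S.Finite := (SS_fin b _).union ((SS_fin b _).image _)
  have hSodd : ∀ s ∈ S, sg s = -s := by
    rintro s (hs | ⟨s, hs, rfl⟩)
    · exact SS_odd b _ s hs
    · rw [hsg, SS_odd b _ s hs, map_neg]
  have hSφ : ∀ s ∈ S, (φ : E F →ₐ[F] E F) s ∈ K S := by
    rintro s (hs | ⟨s, hs, rfl⟩)
    · exact mem_K (Or.inr ⟨s, hs, rfl⟩)
    · exact mem_K (Or.inl (by simpa [hφφ] using hs))
  let A : Submodule F (E F) := LinearMap.eqLocus (p b N).toLinearMap LinearMap.id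
  have hA : ∀ a, a ∈ A ↔ p b N a = a := fun a => Iff.rfl
  let Γ0 : Subgroup (E F ≃ₐ[F] E F) :=
    { carrier := {h | (∀ x, h x - x ∈ K S * K S) ∧ ∀ x, sg (h x) = h (sg x)}
      one_mem' := ⟨fun x => by simp, fun x => rfl⟩
      mul_mem' := fun {h k} hh hk => ⟨fun x => by
          convert add_mem (hh.1 (k x)) (hk.1 x) using 1; simp, fun x => by
          simp [hh.2, hk.2]⟩
      inv_mem' := fun {h} hh => ⟨fun x => by
          convert neg_mem (hh.1 (h.symm x)) using 1; simp [AlgEquiv.aut_inv], fun x => by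
          apply h.injective; rw [← hh.2]; simp [AlgEquiv.aut_inv]⟩ }
  let Γ1 : Subgroup (E F ≃ₐ[F] E F) :=
    { carrier := {h | ∀ r, p b N r = r → p b N (φ r) = φ r → h r = r}
      one_mem' := fun r _ _ => rfl
      mul_mem' := fun {h k} hh hk r h1 h3 => by simp [hk r h1 h3, hh r h1 h3]
      inv_mem' := fun {h} hh r h1 h3 => by
        apply h.injective; rw [hh r h1 h3]; simp [AlgEquiv.aut_inv] }
  let H : Subgroup (E F ≃ₐ[F] E F) :=
    { carrier := {h | (∀ a ∈ A, h a ∈ A) ∧ ∀ a ∈ A, h.symm a ∈ A}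
      one_mem' := ⟨fun a ha => ha, fun a ha => ha⟩
      mul_mem' := fun {h k} hh hk => ⟨fun a ha => hh.1 _ (hk.1 a ha), fun a ha => hk.2 _ (hh.2 a ha)⟩
      inv_mem' := fun {h} hh => ⟨hh.2, hh.1⟩ }
  have hUn : ∀ h ∈ Γ0, Un h := fun h hh => unip_of_KK h2 hSfin hSodd (h : E F →ₐ[F] E F) hh.1
  have hαΓ : α ∈ Γ0 := ⟨fun y => KK_mono
    ((SS_mono b (le_max_left _ _)).trans Set.subset_union_left) (hα y), hαs⟩
  have hβΓ : β ∈ Γ0 := ⟨fun y => KK_mono
    ((SS_mono b (le_max_right _ _)).trans Set.subset_union_left) (hβ y), hβs⟩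
  have hβA : ∀ a ∈ A, β a ∈ A := fun a ha =>
    p_maps b (f := (β : E F →ₐ[F] E F)) (fun i hi => by simp [hβe, hi, p_p]) ha
  obtain ⟨r, ⟨hr0, hr1⟩, hrH⟩ := fixed_point' (Γ0 ⊓ Γ1) H φ (α * β⁻¹) hφ
    (fun h hh => ⟨⟨fun y => by
        convert KK_map (φ : E F →ₐ[F] E F) hSφ (hh.1.1 (φ y)) using 1
        simp [hφφ], fun y => by simp [hsg, hh.1.2]⟩, fun y h1 h3 => by
        have := hh.2 (φ y) h3 (by rw [hφφ, h1])
        simp [this, hφφ]⟩)
    (fun h hh => by
      obtain ⟨s, hs, u, hu⟩ := exists_sqrt h2 h (hUn h hh.1)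
      have hsx : ∀ y, s y = y + (h (Polynomial.aeval (h.toLinearMap - 1 : Module.End F (E F)) u y)
          - Polynomial.aeval (h.toLinearMap - 1 : Module.End F (E F)) u y) := fun y =>
        congrArg (fun k : Module.End F (E F) => k y) hu
      have hinv : ∀ B : Submodule F (E F), (∀ a ∈ B, h a ∈ B) → ∀ a ∈ B, s a ∈ B := by
        intro B hB a ha
        have := aeval_mem (h.toLinearMap - 1 : Module.End F (E F)) B
          (fun y hy => B.sub_mem (hB y hy) hy) u a ha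
        rw [hsx]
        exact B.add_mem ha (B.sub_mem (hB _ this) this)
      have hs0 : s ∈ Γ0 := by
        refine ⟨fun y => by rw [hsx, add_sub_cancel_left]; exact hh.1.1 _, fun y => ?_⟩
        obtain ⟨y0, y1, rfl, k1, k2, -, -⟩ := decomp y
        have l1 : sg (s y0) = s y0 := hinv (LinearMap.eqLocus sg.toLinearMap LinearMap.id)
          (fun a (ha : sg a = a) => (by rw [hh.1.2, ha] : sg (h a) = h a)) y0 k1
        have l2 : sg (s y1) = -s y1 := hinv (LinearMap.eqLocus sg.toLinearMap (-LinearMap.id))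
          (fun a (ha : sg a = -a) => (by rw [hh.1.2, ha, map_neg] : sg (h a) = -h a)) y1 k2
        simp [k1, k2, l1, l2]
      refine ⟨s, ⟨hs0, fun y h1 h3 => ?_⟩, hs, fun hH => ⟨hinv A hH.1,
        symm_mem (hUn s hs0) A (hinv A hH.1)⟩⟩
      have := aeval_mem (h.toLinearMap - 1 : Module.End F (E F))
        (LinearMap.eqLocus h.toLinearMap LinearMap.id)
        (fun z (hz : h z = z) => (by rw [map_sub, hz, hz] : h (h z - z) = h z - z)) u y
        (hh.2 y h1 h3)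
      rw [hsx, show h _ = _ from this]; simp)
    (fun s hs r hr h => sqrt_unique h2 s r (hUn s hs.1) (hUn r hr.1) h)
    ⟨Γ0.mul_mem hαΓ (Γ0.inv_mem hβΓ), fun y h1 h3 => by
      have k1 := hατ _ h3
      have k2 := hβτ _ h3
      rw [hφφ] at k1 k2
      rw [h1] at k2
      change α (β.symm y) = y
      conv_lhs => rw [← k2]
      rw [AlgEquiv.symm_apply_apply, k1]⟩
    ⟨fun a ha => by
      change β (α.symm (φ a)) ∈ A
      rw [← hατ a ha, AlgEquiv.symm_apply_apply]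
      exact hβA _ (hτA a ha), fun a ha => by
      change φ.symm (α (β.symm a)) ∈ A
      have k1 := hτA _ (symm_mem (hUn β hβΓ) A hβA a ha)
      have k2 := hατ _ k1
      rw [hττ] at k2
      rw [k2, AlgEquiv.symm_apply_apply]
      exact k1⟩
  have hTΓ : ∀ h ∈ Γ0, ∀ y, T (h y) = T y := fun h hh y => by
    have := T_KK (AlgHom.id F _) (fun s hs => odd_sq h2 (hSodd s hs)) (hh.1 y)
    rwa [AlgHom.id_apply, map_sub, sub_eq_zero] at this
  have hri := Γ0.inv_mem hr0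
  have hri1 := Γ1.inv_mem hr1
  set j := r * φ * r⁻¹ with hj
  have hjy : ∀ y, j y = r (φ (r⁻¹ y)) := fun y => rfl
  have hjj : ∀ y, j (j y) = y := fun y => by simp [hjy, AlgEquiv.aut_inv, hφφ]
  have hh : (2⁻¹ : F) + 2⁻¹ = 1 := by rw [← two_mul, mul_inv_cancel₀ h2]
  obtain ⟨w, hwe, hws, M3, hw⟩ := finite_type b h2
    (fun i => if i < N then (2⁻¹ : F) • (e b i + ε i • j (e b i)) else e b i)
    (fun i => by
      split_ifs
      · have : sg (j (e b i)) = -j (e b i) := by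
          rw [hjy, hr0.2, hsg, hri.2, sg_e, map_neg, map_neg, map_neg]
        simp [this, add_comm]
      · simp) N
    (fun i => by
      split_ifs
      · have : T (φ (r⁻¹ (e b i))) = T (φ (e b i)) :=
          T_congr b h2 (φ : E F →ₐ[F] E F) (hTΓ _ hri (e b i))
        rw [map_smul, map_add, map_smul, hjy, hTΓ _ hr0, this, hT, smul_smul, hε, one_smul,
          smul_add, ← add_smul, hh, one_smul]
      · rfl) (fun i hi => by simp [not_lt.2 hi])
  have hTw : ∀ y, T (w y) = T y := fun y => by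
    have := T_KK (AlgHom.id F _) (SS_sq b M3) (hw y)
    rwa [AlgHom.id_apply, map_sub, sub_eq_zero] at this
  refine ⟨r⁻¹ * w, N, hnN, fun y => by rw [AlgEquiv.mul_apply, AlgEquiv.mul_apply, hri.2, hws],
    fun i => by rw [AlgEquiv.mul_apply, hTΓ _ hri, hTw], fun i hi => ?_, fun i hi => ?_, ?_⟩
  · have k1 := hpe i (hi.trans hnN)
    have k2 : p b N (φ (e b i)) = φ (e b i) := by rw [hn i hi, map_smul, k1]
    have k3 : r⁻¹ (e b i) = e b i := hri1 _ k1 k2
    have k4 : r (e b i) = e b i := hr1 _ k1 k2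
    rw [AlgEquiv.mul_apply, hwe, if_pos (hi.trans hnN), hjy, k3, hn i hi, map_smul r, k4, smul_smul,
      hε, one_smul, smul_add, ← add_smul, hh, one_smul, k3]
  · have k1 : ∀ y, φ (r⁻¹ y) = r⁻¹ (j y) := fun y => by simp [hjy, AlgEquiv.aut_inv]
    rw [AlgEquiv.mul_apply, k1, ← map_smul, hwe, if_pos hi]
    congr 1
    simp only [map_smul, map_add, hjj, smul_add, smul_smul]
    rw [add_comm, mul_comm (ε i), mul_left_comm, hε, mul_one]
  · have k1 : (r⁻¹ * w).symm x = w.symm (r x) := rfl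
    rw [k1, hr1 x hx1 hx2]
    refine symm_mem (unip_of_KK h2 (SS_fin b M3) (SS_odd b M3) (w : E F →ₐ[F] E F) hw) A
      (fun a ha => p_maps b (f := (w : E F →ₐ[F] E F)) (fun i hi => ?_) ha) x hx1
    have k2 : p b N (j (e b i)) = j (e b i) := hrH.1 _ (hpe i hi)
    simp [hwe, hi, k2, hpe i hi]

end Pool.Agent.H10.Gr
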