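import Pool.Agent.H10.Gr4

/-! Every involution of the infinite Grassmann algebra has a free generating set of eigenvectors. -/

namespace Pool.Agent.H10.Gr

open ExteriorAlgebra

variable {F : Type} [Field F]

lemma limit (b : Module.Basis ℕ F (L F)) (h2 : (2 : F) ≠ 0) (φ : E F ≃ₐ[F] E F) (hφ : φ * φ = 1)
    (hsg : ∀ x, sg (φ x) = φ (sg x)) (ε : ℕ → F) (hε : ∀ i, ε i * ε i = 1)
    (hT : ∀ i, T (φ (e b i)) = ε i • T (e b i)) :
    ∃ ψ : E F ≃ₐ[F] E F, ∀ i, φ (ψ (e b i)) = ε i • ψ (e b i) := by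
  let St := {q : (E F ≃ₐ[F] E F) × ℕ // (∀ x, sg (q.1 x) = q.1 (sg x)) ∧
    (∀ i, T (q.1 (e b i)) = T (e b i)) ∧ ∀ i < q.2, φ (q.1 (e b i)) = ε i • q.1 (e b i)}
  have step' : ∀ (q : St) (x : E F), ∃ q' : St, q.1.2 < q'.1.2 ∧
      (∀ i < q.1.2, q'.1.1 (e b i) = q.1.1 (e b i)) ∧
      p b q'.1.2 (q'.1.1.symm x) = q'.1.1.symm x := by
    rintro ⟨⟨G, n⟩, h1, h3, h4⟩ x
    simp only at h1 h3 h4
    have hTG : ∀ y, T (G y) = T y := by
      have : T.comp (G : E F →ₐ[F] E F) = T := hom_ext_e b h3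
      exact fun y => congrArg (fun k : E F →ₐ[F] TrivSqZeroExt F (L F) => k y) this
    have hTG' : ∀ y, T (G.symm y) = T y := fun y => by rw [← hTG, AlgEquiv.apply_symm_apply]
    have hs' : ∀ y, sg (G.symm y) = G.symm (sg y) := fun y => by
      apply G.injective; rw [← h1]; simp
    have hap : ∀ y, (G⁻¹ * φ * G) y = G.symm (φ (G y)) := fun y => rfl
    obtain ⟨g, N, k1, k2, k3, k4, k5, k6⟩ := step b h2 (G⁻¹ * φ * G)
      (by calc G⁻¹ * φ * G * (G⁻¹ * φ * G) = G⁻¹ * (φ * φ) * G := by group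
            _ = 1 := by rw [hφ]; group)
      (fun y => by rw [hap, hap, hs', hsg, h1]) ε hε
      (fun i => by
        have : T (φ (G (e b i))) = T (φ (e b i)) := T_congr b h2 (φ : E F →ₐ[F] E F) (h3 i)
        rw [hap, hTG', this, hT]) n
      (fun i hi => by rw [hap, h4 i hi, map_smul, AlgEquiv.symm_apply_apply]) (G.symm x)
    refine ⟨⟨(G * g, N), fun y => ?_, fun i => ?_, fun i hi => ?_⟩, k1, fun i hi => ?_, k6⟩
    · rw [AlgEquiv.mul_apply, AlgEquiv.mul_apply, h1, k2]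
    · rw [AlgEquiv.mul_apply, hTG, k3]
    · have := congrArg G (k5 i hi)
      rw [hap, AlgEquiv.apply_symm_apply, map_smul] at this
      exact this
    · rw [AlgEquiv.mul_apply, k4 i hi]
  choose nx h1 h3 h4 using step'
  let s : ℕ → St := fun k => Nat.rec ⟨(1, 0), fun _ => rfl, fun _ => rfl, by simp⟩
    (fun k q => nx q (e b k)) k
  have hs : ∀ k, s (k + 1) = nx (s k) (e b k) := fun k => rfl
  have hmono : StrictMono fun k => (s k).1.2 := strictMono_nat_of_lt_succ fun k => h1 (s k) _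
  have hge : ∀ k, k ≤ (s k).1.2 := fun k => hmono.le_apply
  have hst : ∀ k l, k ≤ l → ∀ i < (s k).1.2, (s l).1.1 (e b i) = (s k).1.1 (e b i) := by
    intro k l hkl i hi
    induction l, hkl using Nat.le_induction with
    | base => rfl
    | succ l hkl ih => rw [hs, h3 _ _ i (lt_of_lt_of_le hi (hmono.monotone hkl)), ih]
  let ψ := gen b h2 (fun i => (s (i + 1)).1.1 (e b i)) (fun i => by
    rw [(s (i + 1)).2.1, sg_e, map_neg])
  have hψ : ∀ k, ∀ i < (s k).1.2, ψ (e b i) = (s k).1.1 (e b i) := by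
    intro k i hi
    rw [gen_e, ← hst k (max k (i + 1)) (le_max_left _ _) i hi,
      hst (i + 1) (max k (i + 1)) (le_max_right _ _) i (hge (i + 1))]
  have hψA : ∀ k x, p b (s k).1.2 x = x → ψ x = (s k).1.1 x := fun k x hx =>
    agree b (g := ((s k).1.1 : E F →ₐ[F] E F)) (hψ k) hx
  have hinj : Function.Injective ψ := by
    rw [injective_iff_map_eq_zero]
    intro x hx
    obtain ⟨N, hN⟩ := exists_p b x
    rw [hψA N x (p_mono b (hge N) hN)] at hx
    exact (map_eq_zero_iff _ (s N).1.1.injective).1 hx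
  have hsurj : Function.Surjective ψ := by
    have he : ∀ k, e b k ∈ ψ.range := fun k =>
      ⟨(s (k + 1)).1.1.symm (e b k), by
        have := hψA (k + 1) _ (h4 (s k) (e b k))
        rw [AlgEquiv.apply_symm_apply] at this
        exact this⟩
    intro x
    change x ∈ ψ.range
    induction x using ExteriorAlgebra.induction with
    | algebraMap r => exact Subalgebra.algebraMap_mem _ r
    | ι v =>
      have hv : v ∈ Submodule.span F (Set.range b) := by rw [b.span_eq]; trivial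
      induction hv using Submodule.span_induction with
      | mem x h => obtain ⟨i, rfl⟩ := h; exact he i
      | zero => simp
      | add x y _ _ hx hy => rw [map_add]; exact add_mem hx hy
      | smul a x _ hx => rw [map_smul]; exact Subalgebra.smul_mem _ hx a
    | add x y hx hy => exact add_mem hx hy
    | mul x y hx hy => exact mul_mem hx hy
  refine ⟨AlgEquiv.ofBijective ψ ⟨hinj, hsurj⟩, fun i => ?_⟩
  change φ (ψ (e b i)) = ε i • ψ (e b i)
  rw [gen_e]
  exact (s (i + 1)).2.2.2 i (hge (i + 1))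

lemma dihedral {G : Type} [Group G] (Γ : Subgroup G) (φ σ : G) (hφ : φ * φ = 1) (hσ : σ * σ = 1)
    (hn : ∀ h ∈ Γ, φ * h * φ ∈ Γ) (hn' : ∀ h ∈ Γ, σ * h * σ ∈ Γ)
    (hex : ∀ h ∈ Γ, ∃ s ∈ Γ, s * s = h) (hu : ∀ s ∈ Γ, ∀ r ∈ Γ, s * s = r * r → s = r)
    (h : σ * φ * σ * φ ∈ Γ) : ∃ q : G, σ * (q * φ * q⁻¹) = (q * φ * q⁻¹) * σ := by
  obtain ⟨s, hs, hss⟩ := hex _ h
  obtain ⟨q, hq, hqq⟩ := hex _ hs
  have hi : φ⁻¹ = φ := inv_eq_of_mul_eq_one_right hφ
  have hi' : σ⁻¹ = σ := inv_eq_of_mul_eq_one_right hσ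
  have key : ∀ c : G, c * c = 1 → (∀ h ∈ Γ, c * h * c ∈ Γ) → ∀ r ∈ Γ,
      c * (r * r) * c = (r * r)⁻¹ → c * r * c = r⁻¹ := by
    intro c hc hcn r hr h1
    refine hu _ (hcn r hr) _ (Γ.inv_mem hr) ?_
    calc c * r * c * (c * r * c) = c * r * (c * c) * r * c := by group
      _ = c * (r * r) * c := by rw [hc]; group
      _ = _ := by rw [h1]; group
  have a1 : φ * s * φ = s⁻¹ := key φ hφ hn s hs (by
    rw [hss]; simp only [mul_inv_rev, hi, hi', mul_assoc, hφ, mul_one])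
  have a2 : σ * s * σ = s⁻¹ := key σ hσ hn' s hs (by
    rw [hss]; simp only [mul_inv_rev, hi, hi', ← mul_assoc, hσ, one_mul])
  have a3 : φ * q * φ = q⁻¹ := key φ hφ hn q hq (by rw [hqq, a1])
  have a4 : σ * q * σ = q⁻¹ := key σ hσ hn' q hq (by rw [hqq, a2])
  refine ⟨q, ?_⟩
  have b1 : q * φ * q⁻¹ = s * φ := by
    rw [← a3, ← hqq]
    calc q * φ * (φ * q * φ) = q * (φ * φ) * q * φ := by group
      _ = _ := by rw [hφ]; group
  have b2 : σ * s = s⁻¹ * σ := by rw [← a2, mul_assoc _ σ σ, hσ, mul_one]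
  have b3 : σ * φ = s * s * φ * σ := by
    rw [hss]
    calc σ * φ = σ * φ * (σ * σ) := by rw [hσ, mul_one]
      _ = σ * φ * σ * (φ * φ) * σ := by rw [hφ]; group
      _ = _ := by group
  rw [b1, ← mul_assoc, b2, mul_assoc, b3]; group

lemma parity (h2 : (2 : F) ≠ 0) (φ : E F ≃ₐ[F] E F) (hφ : φ * φ = 1) :
    ∃ q : E F ≃ₐ[F] E F, ∀ x, sg ((q * φ * q⁻¹) x) = (q * φ * q⁻¹) (sg x) := by
  have hφφ : ∀ y, φ (φ y) = y := fun y => congrArg (fun k : E F ≃ₐ[F] E F => k y) hφ
  let σ : E F ≃ₐ[F] E F := AlgEquiv.ofAlgHom sg sg (AlgHom.ext sg_sg) (AlgHom.ext sg_sg)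
  have hσ : ∀ x, σ x = sg x := fun x => rfl
  have hev : ∀ x, sg x = x → sg (φ x) = φ x := fun x hx =>
    even_of_central Finsupp.basisSingleOne h2 fun y => by
      conv_lhs => rw [← hφφ y]
      rw [← map_mul, even_mul h2 hx, map_mul, hφφ]
  let Γ : Subgroup (E F ≃ₐ[F] E F) :=
    { carrier := {h | (∀ x, sg x = x → h x = x) ∧ ∀ x, sg (h x - x) = h x - x}
      one_mem' := ⟨fun _ _ => rfl, fun x => by simp⟩
      mul_mem' := fun {h k} hh hk => ⟨fun x hx => by
          rw [AlgEquiv.mul_apply, hk.1 x hx, hh.1 x hx], fun x => by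
          have : (h * k) x - x = (h (k x) - k x) + (k x - x) := by simp
          rw [this, map_add, hh.2, hk.2]⟩
      inv_mem' := fun {h} hh => ⟨fun x hx => by
          apply h.injective; rw [hh.1 x hx]; simp [AlgEquiv.aut_inv], fun x => by
          have : h⁻¹ x - x = -(h (h.symm x) - h.symm x) := by simp [AlgEquiv.aut_inv]
          rw [this, map_neg, hh.2]⟩ }
  have hUn : ∀ h ∈ Γ, Un h := fun h hh => ⟨2, LinearMap.ext fun x => by
    change h (h x - x) - (h x - x) = 0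
    rw [hh.1 _ (hh.2 x), sub_self]⟩
  obtain ⟨q, hq⟩ := dihedral Γ φ σ hφ (AlgEquiv.ext sg_sg)
    (fun h hh => ⟨fun x hx => by
        rw [AlgEquiv.mul_apply, AlgEquiv.mul_apply, hh.1 _ (hev x hx), hφφ], fun x => by
        have : (φ * h * φ) x - x = φ (h (φ x) - φ x) := by simp [hφφ]
        rw [this, hev _ (hh.2 _)]⟩)
    (fun h hh => ⟨fun x hx => by
        rw [AlgEquiv.mul_apply, AlgEquiv.mul_apply, hσ, hσ, hx, hh.1 _ hx, hx], fun x => by
        have : (σ * h * σ) x - x = sg (h (sg x) - sg x) := by simp [hσ]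
        rw [this, hh.2, hh.2]⟩)
    (fun h hh => by
      obtain ⟨s, hs, u, hu⟩ := exists_sqrt h2 h (hUn h hh)
      have hsx : ∀ y, s y = y + (h (Polynomial.aeval (h.toLinearMap - 1 : Module.End F (E F)) u y)
          - Polynomial.aeval (h.toLinearMap - 1 : Module.End F (E F)) u y) := fun y =>
        congrArg (fun k : Module.End F (E F) => k y) hu
      refine ⟨s, ⟨fun y hy => ?_, fun y => by rw [hsx, add_sub_cancel_left, hh.2]⟩, hs⟩
      have := aeval_mem (h.toLinearMap - 1 : Module.End F (E F))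
        (LinearMap.eqLocus h.toLinearMap LinearMap.id)
        (fun z (hz : h z = z) => (by rw [map_sub, hz, hz] : h (h z - z) = h z - z)) u y
        (hh.1 y hy)
      rw [hsx, show h _ = _ from this]; simp)
    (fun s hs r hr h => sqrt_unique h2 s r (hUn s hs) (hUn r hr) h)
    (by
      have c1 : ∀ x, sg x = x → (σ * φ * σ * φ) x = x := fun x hx => by
        simp only [AlgEquiv.mul_apply, hσ]
        rw [hev x hx, hφφ, hx]
      refine ⟨c1, fun x => ?_⟩
      obtain ⟨x0, x1, rfl, k1, k2, -, -⟩ := decomp x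
      obtain ⟨u, v, huv, l1, l2, -, -⟩ := decomp (φ x1)
      have c2 : (σ * φ * σ * φ) x1 = φ u + φ u + x1 := by
        simp only [AlgEquiv.mul_apply, hσ]
        have : sg (φ x1) = u + u - φ x1 := by rw [huv, map_add, l1, l2]; abel
        rw [this, map_sub, map_add, hφφ, map_sub, map_add, hev u l1, k2, sub_neg_eq_add]
      rw [map_add, c1 x0 k1, c2]
      have : x0 + (φ u + φ u + x1) - (x0 + x1) = φ u + φ u := by abel
      rw [this, map_add, hev u l1])
  exact ⟨q, fun x => congrArg (fun k : E F ≃ₐ[F] E F => k x) hq⟩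

lemma diag (h2 : (2 : F) ≠ 0) (f : L F →ₗ[F] L F) (hf : ∀ v, f (f v) = v) :
    ∃ (b : Module.Basis ℕ F (L F)) (ε : ℕ → F), (∀ i, ε i = 1 ∨ ε i = -1) ∧
      ∀ i, f (b i) = ε i • b i := by
  classical
  let P : Submodule F (L F) := LinearMap.eqLocus f LinearMap.id
  let Q : Submodule F (L F) := LinearMap.eqLocus f (-LinearMap.id)
  have hPQ : IsCompl P Q := by
    refine ⟨Submodule.disjoint_def.2 fun v (h1 : f v = v) (h3 : f v = -v) => ?_,
      codisjoint_iff.2 (eq_top_iff.2 fun v _ => ?_)⟩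
    · have : (2 : F) • v = 0 := by rw [two_smul]; exact eq_neg_iff_add_eq_zero.1 (h1.symm.trans h3)
      exact (smul_eq_zero.1 this).resolve_left h2
    · refine Submodule.mem_sup.2 ⟨(2⁻¹ : F) • (v + f v), Submodule.smul_mem _ _ ?_,
        (2⁻¹ : F) • (v - f v), Submodule.smul_mem _ _ ?_, ?_⟩
      · change f (v + f v) = v + f v
        rw [map_add, hf, add_comm]
      · change f (v - f v) = -(v - f v)
        rw [map_sub, hf, neg_sub]
      · rw [← smul_add, show v + f v + (v - f v) = (2 : F) • v by rw [two_smul]; abel, smul_smul,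
          inv_mul_cancel₀ h2, one_smul]
  let c := ((Module.Basis.ofVectorSpace F P).prod (Module.Basis.ofVectorSpace F Q)).map
    (Submodule.prodEquivOfIsCompl P Q hPQ)
  have hc : ∀ j, f (c j) = c j ∨ f (c j) = -c j := by
    rintro (j | j)
    · left
      have : c (Sum.inl j) = Module.Basis.ofVectorSpace F P j := by simp [c]
      rw [this]; exact (Module.Basis.ofVectorSpace F P j).2
    · right
      have : c (Sum.inr j) = Module.Basis.ofVectorSpace F Q j := by simp [c]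
      rw [this]; exact (Module.Basis.ofVectorSpace F Q j).2
  let t := c.indexEquiv (Finsupp.basisSingleOne (R := F) (ι := ℕ))
  refine ⟨c.reindex t, fun i => if f (c (t.symm i)) = c (t.symm i) then 1 else -1, fun i => ?_,
    fun i => ?_⟩
  · dsimp only; split_ifs <;> simp
  · rw [Module.Basis.reindex_apply]
    dsimp only
    split_ifs with h
    · simp [h]
    · simp [(hc _).resolve_left h]

theorem main (h2 : (2 : F) ≠ 0) (φ : E F ≃ₐ[F] E F) (hφ : φ * φ = 1) :
    ∃ ψ : E F ≃ₐ[F] E F, ∀ i, φ (ψ (ι F (Finsupp.single i 1))) = ψ (ι F (Finsupp.single i 1)) ∨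
      φ (ψ (ι F (Finsupp.single i 1))) = -ψ (ι F (Finsupp.single i 1)) := by
  obtain ⟨q, hq⟩ := parity h2 φ hφ
  set χ := q * φ * q⁻¹ with hχ
  have hχχ : χ * χ = 1 := by
    calc χ * χ = q * (φ * φ) * q⁻¹ := by rw [hχ]; group
      _ = 1 := by rw [hφ]; group
  let f : L F →ₗ[F] L F := (TrivSqZeroExt.sndHom F (L F)) ∘ₗ T.toLinearMap ∘ₗ χ.toLinearMap ∘ₗ ι F
  have hf : ∀ v, T (χ (ι F v)) = T (ι F (f v)) := fun v => by
    rw [T_i]
    ext1
    · exact fst_of_sq (by rw [← map_mul, ι_sq_zero, map_zero])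
    · rfl
  have hff : ∀ v, f (f v) = v := fun v => by
    have h1 : T (χ (χ (ι F v))) = T (χ (ι F (f v))) :=
      T_congr Finsupp.basisSingleOne h2 (χ : E F →ₐ[F] E F) (hf v)
    rw [hf (f v), show χ (χ (ι F v)) = ι F v from
      congrArg (fun k : E F ≃ₐ[F] E F => k (ι F v)) hχχ, T_i, T_i] at h1
    exact (TrivSqZeroExt.inr_injective h1).symm
  obtain ⟨b, ε, hε, hb⟩ := diag h2 f hff
  obtain ⟨ψ, hψ⟩ := limit b h2 χ hχχ hq ε (fun i => by rcases hε i with h | h <;> simp [h])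
    (fun i => by rw [e, hf, hb, map_smul, map_smul])
  let l : L F ≃ₗ[F] L F := (Finsupp.basisSingleOne (R := F) (ι := ℕ)).equiv b (Equiv.refl _)
  let m : E F ≃ₐ[F] E F := AlgEquiv.ofAlgHom (ExteriorAlgebra.map l.toLinearMap)
    (ExteriorAlgebra.map l.symm.toLinearMap) (by ext v; simp) (by ext v; simp)
  have hm : ∀ i, m (ι F (Finsupp.single i 1)) = e b i := fun i => by
    have : l (Finsupp.single i 1) = b i := by
      simpa using (Finsupp.basisSingleOne (R := F) (ι := ℕ)).equiv_apply i b (Equiv.refl _)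
    rw [e, ← this]
    exact map_apply_ι _ _
  refine ⟨q⁻¹ * ψ * m, fun i => ?_⟩
  have h1 : φ ((q⁻¹ * ψ * m) (ι F (Finsupp.single i 1))) =
      ε i • (q⁻¹ * ψ * m) (ι F (Finsupp.single i 1)) := by
    rw [AlgEquiv.mul_apply, AlgEquiv.mul_apply, hm, ← map_smul, ← hψ]
    simp [hχ, AlgEquiv.aut_inv]
  rcases hε i with h | h
  · left; rw [h1, h, one_smul]
  · right; rw [h1, h, neg_one_smul]

end Pool.Agent.H10.Gr
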