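import Mathlib

namespace Pool.Agent.H10.Grig
open Equiv

/-- rooted generator -/
def fa : List Bool → List Bool
  | [] => []
  | j :: w => (!j) :: w

/-- directed generators -/
def fg : List Bool → ZMod 3 → List Bool
  | [], _ => []
  | false :: w, k => false :: if k = 2 then w else fa w
  | true :: w, k => true :: fg w (k + 1)

theorem aa (w : List Bool) : fa (fa w) = w := by cases w <;> simp [fa]

theorem gg (w : List Bool) : ∀ x y, fg (fg w y) x = if x = y then w else fg w (-x - y) := by
  induction w with
  | nil => simp [fg]
  | cons j w ih =>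
    intro x y
    cases j
    · simp only [fg]
      have := (by decide : ∀ x y : ZMod 3, x ≠ y → (-x - y = 2 ↔ x ≠ 2 ∧ y ≠ 2)) x y
      by_cases h : x = y <;> by_cases hx : x = 2 <;> by_cases hy : y = 2 <;> simp_all [aa]
    · simp only [fg, ih, add_left_inj]
      split_ifs
      · rfl
      · rw [(by decide : ∀ x y : ZMod 3, -(x + 1) - (y + 1) = -x - y + 1)]

/-- generators of the Grigorchuk group -/
def gen : Option (ZMod 3) → Perm (List Bool)
  | none => Function.Involutive.toPerm fa aa
  | some k => Function.Involutive.toPerm (fg · k) fun w => by simp [gg]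

theorem gen2 (x : Option (ZMod 3)) : gen x * gen x = 1 := by
  cases x <;> ext w : 1 <;> simp [gen, aa, gg]

theorem gen3 {x y : ZMod 3} (h : x ≠ y) : gen x * gen y = gen (some (-x - y)) := by
  ext w : 1; simp [gen, gg, h]

/-- value of a word -/
def W (l : List (Option (ZMod 3))) : Perm (List Bool) := (l.map gen).prod

/-- weight of a word -/
def wt (l : List (Option (ZMod 3))) : ℕ :=
  (l.map fun x => if x = some 0 then 4 else if x = some 2 then 2 else 3).sum

/-- parity -/
def par (l : List (Option (ZMod 3))) (j : Bool) : Bool := if Even (l.count none) then j else !j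

/-- sections -/
def sec (j : Bool) : List (Option (ZMod 3)) → List (Option (ZMod 3))
  | [] => []
  | none :: r => sec j r
  | some k :: r => (if par r j then [some (k + 1)] else if k = 2 then [] else [none]) ++ sec j r

theorem W_app (l m : List (Option (ZMod 3))) : W (l ++ m) = W l * W m := by simp [W]

theorem act (l : List (Option (ZMod 3))) (j : Bool) (w : List Bool) :
    W l (j :: w) = par l j :: W (sec j l) w := by
  induction l with
  | nil => simp [W, par, sec]
  | cons x l ih =>
    change gen x (W l _) = _
    rw [ih]
    cases x with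
    | none => by_cases h : Even (l.count none) <;> simp [gen, fa, sec, par, Nat.even_add_one, h]
    | some k =>
      rw [sec, W_app, show par (some k :: l) j = par l j by simp [par]]
      cases par l j
      · by_cases h : k = 2 <;> simp [gen, fg, W, h]
      · simp [gen, fg, W]

theorem wt_sec (l : List (Option (ZMod 3))) (j : Bool) :
    wt (sec (!j) l) + wt (sec j l) + 5 * l.count none ≤ wt l + 2 * l.length := by
  induction l with
  | nil => simp [wt, sec]
  | cons x l ih =>
    cases x with
    | none => simp [wt, sec] at ih ⊢; omega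
    | some k =>
      have : par l (!j) = !par l j := by unfold par; split_ifs <;> simp
      simp only [wt, sec, this, List.map_append, List.sum_append, List.map_cons, List.sum_cons,
        List.length_cons] at ih ⊢
      rw [List.count_cons_of_ne (by simp)]
      have := (by decide : ∀ k : ZMod 3, k = 0 ∨ k = 1 ∨ k = 2) k
      have e : (2 : ZMod 3) + 1 = 0 := rfl
      have e1 : (1 : ZMod 3) + 1 = 2 := rfl
      have e2 : (2 : ZMod 3) ≠ 0 := by decide
      have e3 : (1 : ZMod 3) ≠ 2 := by decide
      rcases this with rfl | rfl | rfl <;> cases par l j <;> simp [e, e1, e2, e2.symm, e3] <;> omega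

theorem adj : ∀ t : List (Option (ZMod 3)), (∃ (u : List _) (x y : ZMod 3) (v : List _),
    t = u ++ some x :: some y :: v) ∨ t.length ≤ 2 * t.count none + 1
  | [] => by simp
  | [x] => by simp
  | some x :: some y :: r => .inl ⟨[], x, y, r, rfl⟩
  | none :: y :: r => (adj (y :: r)).imp (fun ⟨u, h⟩ => ⟨none :: u, by simpa using h⟩) fun h => by
      simp only [List.length_cons, List.count_cons_self] at h ⊢; omega
  | some x :: none :: r => (adj r).imp (fun ⟨u, h⟩ => ⟨some x :: none :: u, by simpa using h⟩)
      fun h => by simp; omega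

theorem W_nil (l : List (Option (ZMod 3))) : W l [] = [] := by
  induction l with
  | nil => rfl
  | cons x l ih => change gen x (W l _) = _; rw [ih]; cases x <;> rfl

theorem fin_of {g : Perm (List Bool)} (h0 : g [] = []) (h : ∀ j, ∃ k : Perm (List Bool),
    IsOfFinOrder k ∧ ∀ w, g (j :: w) = j :: k w) : IsOfFinOrder g := by
  choose k h1 h2 using h
  have p : ∀ n j w, (g ^ n) (j :: w) = j :: (k j ^ n) w := fun n j => by
    induction n with
    | zero => simp
    | succ n ih => intro w; simp [pow_succ, h2, ih]
  refine isOfFinOrder_iff_pow_eq_one.2 ⟨∏ j, orderOf (k j), Finset.prod_pos fun j _ =>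
    (h1 j).orderOf_pos, Equiv.ext fun w => ?_⟩
  cases w with
  | nil => exact Perm.pow_apply_eq_self_of_apply_eq_self h0 _
  | cons j w => rw [p, orderOf_dvd_iff_pow_eq_one.1
      (Finset.dvd_prod_of_mem (fun j => orderOf (k j)) (Finset.mem_univ j))]; rfl

theorem tor (n : ℕ) : ∀ l, wt l = n → IsOfFinOrder (W l) := by
  induction n using Nat.strong_induction_on with | _ n ih =>
  have m : ∀ u (x y : ZMod 3) v, wt (u ++ some x :: some y :: v) = n →
      IsOfFinOrder (W (u ++ some x :: some y :: v)) := fun u x y v h => by
    by_cases e : x = y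
    · subst e
      have := ih _ (by rw [← h]; simp [wt]; split_ifs <;> omega) (u ++ v) rfl
      simpa [W, ← mul_assoc (gen _), gen2] using this
    · have := ih _ (by
        have := (by decide : ∀ x y : ZMod 3, x ≠ y → wt [some (-x - y)] < wt [some x, some y]) x y e
        rw [← h]; simp [wt] at this ⊢; omega) (u ++ some (-x - y) :: v) rfl
      simpa [W, ← mul_assoc (gen _), gen3 e] using this
  have k : ∀ t, wt (none :: t) = n → IsOfFinOrder (W (none :: t)) := fun t h => by
    rcases adj t with ⟨u, x, y, v, rfl⟩ | ht
    · exact m (none :: u) x y v h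
    have s := wt_sec (none :: t)
    simp only [List.count_cons_self, List.length_cons, h] at s
    by_cases e : Even ((none :: t).count none)
    · exact fin_of (W_nil _) fun j => ⟨_, ih _ (by have := s j; omega) (sec j (none :: t)) rfl,
        fun w => by rw [act, par, if_pos e]⟩
    · refine IsOfFinOrder.of_pow (n := 2) (fin_of (by simp [sq, W_nil]) fun j => ⟨_, ih _ ?_
        (sec (!j) (none :: t) ++ sec j (none :: t)) rfl, fun w => ?_⟩) (by norm_num)
      · have := s j; simp only [wt, List.map_append, List.sum_append] at this ⊢; omega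
      · simp [sq, act, par, W_app, -List.count_cons_self, e]
  intro l hl
  by_cases h : none ∈ l
  · obtain ⟨u, v, rfl⟩ := List.append_of_mem h
    have := k (v ++ u) (by rw [← hl]; simp [wt]; omega)
    rw [← List.cons_append, W_app] at this
    rw [W_app, show W u * W (none :: v) = W u * (W (none :: v) * W u) * (W u)⁻¹ by group]
    exact (MulAut.conj (W u)).toMonoidHom.isOfFinOrder this
  rcases adj l with ⟨u, x, y, v, rfl⟩ | ht
  · exact m u x y v hl
  rw [List.count_eq_zero_of_not_mem h] at ht
  match l, ht with
  | [], _ => exact .one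
  | [x], _ => exact isOfFinOrder_iff_pow_eq_one.2 ⟨2, two_pos, by simp [W, sq, gen2]⟩

/-- the Grigorchuk group -/
def G : Subgroup (Perm (List Bool)) := Subgroup.closure (Set.range gen)

theorem torsion (g : G) : IsOfFinOrder g := by
  obtain ⟨l, h⟩ : ∃ l, g.1 = W l := by
    obtain ⟨g, hg⟩ := g
    induction hg using Subgroup.closure_induction'' with
    | one => exact ⟨[], rfl⟩
    | mem s hs => obtain ⟨x, rfl⟩ := hs; exact ⟨[x], by simp [W]⟩
    | inv_mem s hs =>
      obtain ⟨x, rfl⟩ := hs; exact ⟨[x], by simp [W, inv_eq_of_mul_eq_one_right (gen2 x)]⟩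
    | mul x y _ _ hx hy =>
      obtain ⟨l, h⟩ := hx; obtain ⟨m, h'⟩ := hy
      exact ⟨l ++ m, by rw [W_app, ← h, ← h']⟩
  exact Submonoid.isOfFinOrder_coe.1 (show IsOfFinOrder g.1 from h ▸ tor _ l rfl)

/-- the second generator of the infinite dihedral group -/
def σ : List Bool → List Bool
  | [] => []
  | false :: w => false :: fa w
  | true :: w => true :: σ w

theorem tri (w : List Bool) : ∃ k, fg w k = w ∧ fg w (k + 1) = σ w ∧ fg w (k + 1 + 1) = σ w := by
  induction w with
  | nil => exact ⟨0, rfl, rfl, rfl⟩
  | cons j w ih =>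
    cases j
    · exact ⟨2, rfl, rfl, rfl⟩
    · obtain ⟨k, h⟩ := ih
      exact ⟨k - 1, by simpa [fg, σ] using h⟩

theorem inf (n : ℕ) (hn : n ≠ 0) : (fa ∘ σ)^[n] ≠ id := by
  induction n using Nat.strong_induction_on with | _ n ih =>
  intro h
  have e : ∀ (m : ℕ) w, (fa ∘ σ)^[2 * m] (true :: w) = true :: (fa ∘ σ)^[m] w := by
    intro m
    induction m with
    | zero => simp
    | succ m ih =>
      intro w
      rw [mul_add, Function.iterate_add_apply, Function.iterate_succ_apply (fa ∘ σ) m, ← ih]
      rfl
  obtain ⟨m, rfl | rfl⟩ := Nat.even_or_odd' n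
  · exact ih m (by omega) (by omega) (funext fun w => by simpa [e] using congrFun h (true :: w))
  · have := congrFun h [true]
    rw [Function.iterate_succ_apply', e] at this
    simp [σ, fa] at this

end Pool.Agent.H10.Grig
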