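import Mathlib

set_option autoImplicit false
set_option linter.unusedSectionVars false

namespace Pool.Agent.H10.HL

open Finset SimpleGraph

/-- homomorphisms -/
abbrev Hm {α V : Type} (T : SimpleGraph α) (R : V → V → Prop) : Type :=
  {f : α → V // ∀ u v, T.Adj u v → R (f u) (f v)}

section indep
variable {α : Type} [DecidableEq α]

/-- independent -/
def Ind (G : SimpleGraph α) (A : Finset α) : Prop := ∀ u ∈ A, ∀ v ∈ A, ¬ G.Adj u v

open Classical in
/-- number of independent subsets of `S` -/
noncomputable def I (G : SimpleGraph α) (S : Finset α) : ℕ :=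
  (S.powerset.filter (fun A => Ind G A)).card

open Classical in
lemma I_rec (G : SimpleGraph α) (S : Finset α) (v : α) (hv : v ∈ S) :
    I G S = I G (S.erase v) + I G ((S.erase v).filter (fun u => ¬ G.Adj v u)) := by
  unfold I
  rw [← card_filter_add_card_filter_not (s := S.powerset.filter _) (fun A => v ∉ A)]
  congr 1
  · congr 1
    ext A
    simp only [mem_filter, mem_powerset, subset_erase]
    tauto
  · symm
    refine card_bij (fun A _ => insert v A) ?_ ?_ ?_
    · intro A hA
      simp only [mem_filter, mem_powerset, subset_iff, mem_erase] at hA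
      simp only [mem_filter, mem_powerset, not_not, mem_insert_self, and_true, subset_iff,
        mem_insert]
      simp only [Ind, mem_insert] at hA ⊢
      obtain ⟨h1, h2⟩ := hA
      refine ⟨?_, ?_⟩
      · rintro x (rfl | hx)
        · exact hv
        · exact (h1 hx).1.2
      · rintro x (rfl | hx) y (rfl | hy)
        · exact G.irrefl
        · exact (h1 hy).2
        · exact fun h => (h1 hx).2 h.symm
        · exact h2 x hx y hy
    · intro A hA B hB h
      simp only [mem_filter, mem_powerset, subset_iff, mem_erase] at hA hB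
      have hA' : v ∉ A := fun h => (hA.1 h).1.1 rfl
      have hB' : v ∉ B := fun h => (hB.1 h).1.1 rfl
      rw [← erase_insert hA', ← erase_insert hB']
      exact congrArg (fun C => Finset.erase C v) h
    · intro B hB
      simp only [mem_filter, mem_powerset, not_not] at hB
      obtain ⟨⟨h1, h2⟩, h3⟩ := hB
      refine ⟨B.erase v, ?_, insert_erase h3⟩
      simp only [mem_filter, mem_powerset, subset_iff, mem_erase]
      exact ⟨fun x hx => ⟨⟨hx.1, h1 hx.2⟩, h2 v h3 x hx.2⟩,
        fun x hx y hy => h2 x (mem_of_mem_erase hx) y (mem_of_mem_erase hy)⟩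

lemma I_empty (G : SimpleGraph α) : I G ∅ = 1 := by
  unfold I
  rw [powerset_empty, filter_singleton, if_pos (by simp [Ind]), card_singleton]

lemma parent_unique {T : SimpleGraph α} (hT : T.IsTree) (r x y z : α) (hy : T.Adj x y)
    (hz : T.Adj x z) (h1 : T.dist r x = T.dist r y + 1) (h2 : T.dist r x = T.dist r z + 1) :
    y = z := by
  obtain ⟨p, hp⟩ := hT.connected.exists_walk_length_eq_dist r y
  obtain ⟨q, hq⟩ := hT.connected.exists_walk_length_eq_dist r z
  have hp' : (p.concat hy.symm).IsPath :=
    Walk.isPath_of_length_eq_dist _ (by rw [Walk.length_concat, hp, h1])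
  have hq' : (q.concat hz.symm).IsPath :=
    Walk.isPath_of_length_eq_dist _ (by rw [Walk.length_concat, hq, h2])
  have := (hT.existsUnique_path r x).unique hp' hq'
  have h3 := congrArg Walk.penultimate this
  simpa using h3

lemma parent_exists {T : SimpleGraph α} (hT : T.IsTree) (r x : α) (k : ℕ)
    (h : T.dist r x = k + 1) : ∃ y, T.Adj x y ∧ T.dist r y = k := by
  obtain ⟨p, hp⟩ := hT.connected.exists_walk_length_eq_dist x r
  rw [dist_comm, h] at hp
  cases p with
  | nil => simp at hp
  | cons hadj q =>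
    rename_i y
    refine ⟨y, hadj, ?_⟩
    have h1 : T.dist r y ≤ k := by
      have := T.dist_le q
      rw [dist_comm] at this
      simp only [Walk.length_cons] at hp
      omega
    rcases hT.dist_eq_dist_add_one_of_adj r hadj with h2 | h2 <;> omega

open Classical in
lemma card_nonadj {T : SimpleGraph α} (hT : T.IsTree) (r : α) (S : Finset α) (v : α) (hv : v ∈ S)
    (h : ∀ u ∈ S, T.Adj v u → T.dist r v = T.dist r u + 1) :
    S.card ≤ ((S.erase v).filter (fun u => ¬ T.Adj v u)).card + 2 := by
  have h1 := card_filter_add_card_filter_not (s := S.erase v) (fun u => T.Adj v u)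
  have h2 : ((S.erase v).filter (fun u => T.Adj v u)).card ≤ 1 := by
    rw [card_le_one]
    intro a ha b hb
    simp only [mem_filter, mem_erase] at ha hb
    exact parent_unique hT r v a b ha.2 hb.2 (h a ha.1.2 ha.2) (h b hb.1.2 hb.2)
  have h3 := card_erase_of_mem hv
  have h4 := card_pos.mpr ⟨v, hv⟩
  omega

lemma I_ge {T : SimpleGraph α} (hT : T.IsTree) (n : ℕ) : ∀ S : Finset α, S.card = n →
    Nat.fib (n + 2) ≤ I T S := by
  classical
  induction n using Nat.strong_induction_on with
  | _ n ih =>
    intro S hS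
    rcases S.eq_empty_or_nonempty with rfl | hne
    · simp at hS
      subst hS
      simp [I_empty]
    · obtain ⟨r, -⟩ := id hne
      obtain ⟨v, hv, hmax⟩ := exists_max_image S (fun u => T.dist r u) hne
      have hc := card_nonadj hT r S v hv (fun u hu hadj => by
        have := hmax u hu
        rcases hT.dist_eq_dist_add_one_of_adj r hadj with h2 | h2 <;> omega)
      have h3 := card_erase_of_mem hv
      have h4 := card_pos.mpr hne
      have h5 := card_filter_le (S.erase v) (fun u => ¬ T.Adj v u)
      have a1 := ih _ (by omega) (S.erase v) rfl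
      have a2 := ih _ (by omega) ((S.erase v).filter (fun u => ¬ T.Adj v u)) rfl
      have a3 : Nat.fib n ≤ Nat.fib (((S.erase v).filter (fun u => ¬ T.Adj v u)).card + 2) :=
        Nat.fib_mono (by omega)
      have a4 : (S.erase v).card + 2 = n + 1 := by omega
      rw [a4] at a1
      rw [I_rec T S v hv, Nat.fib_add_two]
      omega

lemma I_gt {T : SimpleGraph α} (hT : T.IsTree) (r a b c : α) (ha : T.Adj r a) (hb : T.Adj r b)
    (hc : T.Adj r c) (hab : a ≠ b) (hac : a ≠ c) (hbc : b ≠ c) (n : ℕ) :
    ∀ S : Finset α, S.card = n → ({r, a, b, c} : Finset α) ⊆ S →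
    Nat.fib (n + 2) + 1 ≤ I T S := by
  classical
  have hd : ∀ x, T.Adj r x → T.dist r x = 1 := fun x hx => dist_eq_one_iff_adj.mpr hx
  have hna : ∀ x y, T.Adj r x → T.Adj r y → ¬ T.Adj x y := fun x y hx hy h =>
    hT.dist_ne_of_adj r h (by rw [hd x hx, hd y hy])
  induction n with
  | zero =>
    intro S hS hK
    rw [card_eq_zero] at hS
    subst hS
    simpa using hK (mem_insert_self _ _)
  | succ n ih =>
    intro S hS hK
    rcases (S \ {r, a, b, c}).eq_empty_or_nonempty with he | hne
    · have hSK : S = {r, a, b, c} := Subset.antisymm (sdiff_eq_empty_iff_subset.mp he) hK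
      have hr : r ∉ ({a, b, c} : Finset α) := by
        simp only [mem_insert, mem_singleton, not_or]
        exact ⟨ha.ne, hb.ne, hc.ne⟩
      have h3 : ({a, b, c} : Finset α).card = 3 := card_eq_three.mpr ⟨a, b, c, hab, hac, hbc, rfl⟩
      have hn : n = 3 := by
        rw [hSK, card_insert_of_notMem hr, h3] at hS
        omega
      have e : S.erase r = {a, b, c} := by rw [hSK, erase_insert hr]
      have h8 : I T {a, b, c} = 8 := by
        unfold I
        rw [filter_true_of_mem, card_powerset, h3]
        · norm_num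
        intro A hA u hu v hv
        rw [mem_powerset] at hA
        have hu' := hA hu
        have hv' := hA hv
        simp only [mem_insert, mem_singleton] at hu' hv'
        apply hna
        · rcases hu' with rfl | rfl | rfl <;> assumption
        · rcases hv' with rfl | rfl | rfl <;> assumption
      have h1 := I_ge hT _ ((S.erase r).filter (fun u => ¬ T.Adj r u)) rfl
      have h2 : 0 < Nat.fib (((S.erase r).filter (fun u => ¬ T.Adj r u)).card + 2) :=
        Nat.fib_pos.mpr (by omega)
      rw [I_rec T S r (hK (mem_insert_self _ _)), hn]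
      rw [e] at h1 h2 ⊢
      have : Nat.fib (3 + 1 + 2) = 8 := by decide
      omega
    · obtain ⟨v, hv, hmax⟩ := exists_max_image _ (fun u => T.dist r u) hne
      rw [mem_sdiff] at hv
      have hvr : v ≠ r := fun h => hv.2 (by simp [h])
      have hv0 : T.dist r v ≠ 0 := fun h => hvr ((hT.connected.dist_eq_zero_iff.mp h).symm)
      have hcard := card_nonadj hT r S v hv.1 (fun u hu hadj => by
        rcases hT.dist_eq_dist_add_one_of_adj r hadj with h2 | h2
        · exact h2
        · exfalso
          by_cases hK' : u ∈ ({r, a, b, c} : Finset α)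
          · simp only [mem_insert, mem_singleton] at hK'
            rcases hK' with rfl | rfl | rfl | rfl
            · simp at h2
            · have := hd _ ha; omega
            · have := hd _ hb; omega
            · have := hd _ hc; omega
          · have := hmax u (mem_sdiff.mpr ⟨hu, hK'⟩)
            omega)
      have h3 := card_erase_of_mem hv.1
      have a1 := ih (S.erase v) (by omega) (subset_erase.mpr ⟨hK, hv.2⟩)
      have a2 := I_ge hT _ ((S.erase v).filter (fun u => ¬ T.Adj v u)) rfl
      have a3 : Nat.fib (n + 1) ≤ Nat.fib (((S.erase v).filter (fun u => ¬ T.Adj v u)).card + 2) :=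
        Nat.fib_mono (by omega)
      rw [I_rec T S v hv.1, Nat.fib_add_two]
      have : n + 1 + 1 = n + 2 := by ring
      rw [this]
      omega

end indep

lemma I_path (n : ℕ) (k : ℕ) : k ≤ n →
    I (pathGraph n) (univ.filter (fun i : Fin n => i.val < k)) = Nat.fib (k + 2) := by
  classical
  induction k using Nat.strong_induction_on with
  | _ k ih =>
    intro hk
    rcases k with _ | k
    · simp [I_empty]
    · rw [I_rec _ _ ⟨k, by omega⟩ (by simp)]
      have e1 : (univ.filter (fun i : Fin n => i.val < k + 1)).erase ⟨k, by omega⟩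
          = univ.filter (fun i : Fin n => i.val < k) := by
        ext i
        simp only [mem_erase, mem_filter, mem_univ, true_and, ne_eq, Fin.ext_iff]
        omega
      rw [e1]
      have e2 : ∀ inst : DecidablePred (fun u => ¬ (pathGraph n).Adj ⟨k, by omega⟩ u),
          @Finset.filter _ (fun u => ¬ (pathGraph n).Adj ⟨k, by omega⟩ u) inst
            (univ.filter (fun i : Fin n => i.val < k))
          = univ.filter (fun i : Fin n => i.val < k - 1) := by
        intro inst
        ext i
        simp only [mem_filter, mem_univ, true_and, pathGraph_adj]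
        omega
      rw [e2, ih k (by omega) (by omega), ih (k - 1) (by omega) (by omega)]
      rcases k with _ | k
      · decide
      · rw [Nat.add_sub_cancel, Nat.fib_add_two (n := k + 1 + 1)]
        have : k + 1 + 1 = k + 2 := by ring
        rw [this]
        have : k + 1 + 2 = k + 2 + 1 := by ring
        rw [this]
        ring

lemma I_path' (n : ℕ) : I (pathGraph n) univ = Nat.fib (n + 2) := by
  rw [← I_path n n le_rfl]
  congr 1
  ext i
  simp

/-- a tree with no vertex of degree at least three has at least as many homomorphisms as the path -/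
lemma path_le {n : ℕ} {T : SimpleGraph (Fin n)} (hT : T.IsTree)
    (h3 : ∀ r a b c, T.Adj r a → T.Adj r b → T.Adj r c → a = b ∨ a = c ∨ b = c)
    {V : Type} [Finite V] (R : V → V → Prop) :
    Nat.card (Hm (pathGraph n) R) ≤ Nat.card (Hm T R) := by
  classical
  obtain ⟨r0⟩ := hT.connected.nonempty
  obtain ⟨r, -, hmax⟩ := exists_max_image univ (fun u => T.dist r0 u) ⟨r0, mem_univ _⟩
  have hleaf : ∀ a b, T.Adj r a → T.Adj r b → a = b := by
    intro a b ha hb
    have h1 := hmax a (mem_univ _)
    have h2 := hmax b (mem_univ _)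
    refine parent_unique hT r0 r a b ha hb ?_ ?_
    · rcases hT.dist_eq_dist_add_one_of_adj r0 ha with h | h <;> omega
    · rcases hT.dist_eq_dist_add_one_of_adj r0 hb with h | h <;> omega
  have hinj : ∀ k, ∀ x y, T.dist r x = k → T.dist r y = k → x = y := by
    intro k
    induction k with
    | zero =>
      intro x y hx hy
      rw [hT.connected.dist_eq_zero_iff] at hx hy
      rw [← hx, ← hy]
    | succ k ih =>
      intro x y hx hy
      obtain ⟨x', hx1, hx2⟩ := parent_exists hT r x k hx
      obtain ⟨y', hy1, hy2⟩ := parent_exists hT r y k hy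
      have e := ih x' y' hx2 hy2
      subst e
      rcases k with _ | k
      · rw [hT.connected.dist_eq_zero_iff] at hx2
        subst hx2
        exact hleaf x y hx1.symm hy1.symm
      · obtain ⟨z, hz1, hz2⟩ := parent_exists hT r x' k hx2
        rcases h3 x' x y z hx1.symm hy1.symm hz1 with h | h | h
        · exact h
        · subst h; omega
        · subst h; omega
  have hlt : ∀ x, T.dist r x < n := by
    intro x
    obtain ⟨p, hp⟩ := hT.connected.exists_walk_length_eq_dist r x
    have := (Walk.isPath_of_length_eq_dist p hp).length_lt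
    simpa [hp] using this
  let d : Fin n → Fin n := fun x => ⟨T.dist r x, hlt x⟩
  have hd : Function.Injective d := fun x y h =>
    hinj _ x y rfl (by simpa [d, Fin.ext_iff] using h.symm)
  have hs : Function.Surjective d := Finite.injective_iff_surjective.mp hd
  refine Nat.card_le_card_of_injective
    (fun f : Hm (pathGraph n) R => (⟨f.1 ∘ d, fun u v huv => f.2 _ _ ?_⟩ : Hm T R)) ?_
  · rw [pathGraph_adj]
    rcases hT.dist_eq_dist_add_one_of_adj r huv with h | h
    · right; simp [d, h]
    · left; simp [d, h]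
  · intro f g h
    apply Subtype.ext
    exact hs.injective_comp_right (congrArg Subtype.val h)

/-- blow-up of the hard-core target -/
def RA (m : ℕ) (a b : Bool × Fin m) : Prop := ¬ (a.1 = true ∧ b.1 = true)

lemma card_RA {α : Type} [Fintype α] [DecidableEq α] (T : SimpleGraph α) (m : ℕ) :
    Nat.card (Hm T (RA m)) = I T univ * m ^ Fintype.card α := by
  classical
  have e : Hm T (RA m) ≃ {A : Finset α // Ind T A} × (α → Fin m) :=
    { toFun := fun f => (⟨univ.filter (fun v => (f.1 v).1 = true), fun u hu v hv h =>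
          f.2 u v h ⟨(mem_filter.mp hu).2, (mem_filter.mp hv).2⟩⟩, fun v => (f.1 v).2)
      invFun := fun p => ⟨fun v => (decide (v ∈ p.1.1), p.2 v), fun u v h h' =>
          p.1.2 u (of_decide_eq_true h'.1) v (of_decide_eq_true h'.2) h⟩
      left_inv := fun f => by
        apply Subtype.ext
        funext v
        simp
      right_inv := fun p => by
        ext v <;> simp }
  rw [Nat.card_congr e, Nat.card_prod]
  congr 1
  · unfold I
    rw [Nat.card_eq_fintype_card, Fintype.card_subtype, powerset_univ]
  · simp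

/-- disjoint union of `A` with `M` copies of `W` -/
def RU {A W : Type} (M : ℕ) (R1 : A → A → Prop) (R2 : W → W → Prop) :
    A ⊕ (Fin M × W) → A ⊕ (Fin M × W) → Prop
  | Sum.inl a, Sum.inl b => R1 a b
  | Sum.inr a, Sum.inr b => a.1 = b.1 ∧ R2 a.2 b.2
  | Sum.inl _, Sum.inr _ => False
  | Sum.inr _, Sum.inl _ => False

lemma card_RU {α A W : Type} [Finite α] [Finite A] [Finite W] (T : SimpleGraph α)
    (hT : T.Connected) (M : ℕ) (R1 : A → A → Prop) (R2 : W → W → Prop) :
    Nat.card (Hm T (RU M R1 R2)) = Nat.card (Hm T R1) + M * Nat.card (Hm T R2) := by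
  obtain ⟨r⟩ := hT.nonempty
  let Φ : Hm T R1 ⊕ (Fin M × Hm T R2) → Hm T (RU M R1 R2) := fun x =>
    match x with
    | Sum.inl g => ⟨fun v => Sum.inl (g.1 v), fun u v h => g.2 u v h⟩
    | Sum.inr p => ⟨fun v => Sum.inr (p.1, p.2.1 v), fun u v h => ⟨rfl, p.2.2 u v h⟩⟩
  have hΦ : Function.Bijective Φ := by
    constructor
    · rintro (g | ⟨k, g⟩) (g' | ⟨k', g'⟩) h
      · have h' := congrArg Subtype.val h
        congr 1
        apply Subtype.ext
        funext v
        exact Sum.inl.inj (congrFun h' v)
      · exact absurd (congrFun (congrArg Subtype.val h) r) Sum.inl_ne_inr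
      · exact absurd (congrFun (congrArg Subtype.val h) r) Sum.inr_ne_inl
      · have h' := congrArg Subtype.val h
        have h1 : k = k' := congrArg Prod.fst (Sum.inr.inj (congrFun h' r))
        have h2 : g = g' := by
          apply Subtype.ext
          funext v
          exact congrArg Prod.snd (Sum.inr.inj (congrFun h' v))
        rw [h1, h2]
    · rintro ⟨f, hf⟩
      let lab : A ⊕ (Fin M × W) → Option (Fin M) := Sum.elim (fun _ => none) (fun p => some p.1)
      have hl : ∀ x y, RU M R1 R2 x y → lab x = lab y := by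
        rintro (a | a) (b | b) h
        · rfl
        · exact h.elim
        · exact h.elim
        · exact congrArg some h.1
      have hw : ∀ u v (p : T.Walk u v), lab (f u) = lab (f v) := by
        intro u v p
        induction p with
        | nil => rfl
        | cons h _ ih => exact (hl _ _ (hf _ _ h)).trans ih
      have hc : ∀ v, lab (f r) = lab (f v) := fun v => (hT r v).elim (fun p => hw r v p)
      cases hr : lab (f r) with
      | none =>
        have : ∀ v, ∃ a, f v = Sum.inl a := by
          intro v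
          have := hc v
          rw [hr] at this
          cases hv : f v with
          | inl a => exact ⟨a, rfl⟩
          | inr p => rw [hv] at this; simp [lab] at this
        choose g hg using this
        refine ⟨Sum.inl ⟨g, fun u v h => ?_⟩, Subtype.ext (funext fun v => (hg v).symm)⟩
        have := hf u v h
        rwa [hg u, hg v] at this
      | some k =>
        have : ∀ v, ∃ a, f v = Sum.inr (k, a) := by
          intro v
          have := hc v
          rw [hr] at this
          cases hv : f v with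
          | inl a => rw [hv] at this; simp [lab] at this
          | inr p =>
            rw [hv] at this
            have h2 : k = p.1 := Option.some.inj this
            exact ⟨p.2, by rw [h2]⟩
        choose g hg using this
        refine ⟨Sum.inr (k, ⟨g, fun u v h => ?_⟩), Subtype.ext (funext fun v => (hg v).symm)⟩
        have := hf u v h
        rw [hg u, hg v] at this
        exact this.2
  rw [← Nat.card_congr (Equiv.ofBijective Φ hΦ), Nat.card_sum, Nat.card_prod]
  simp

lemma card_le_pow {α W : Type} [Fintype α] [Finite W] (T : SimpleGraph α) (R : W → W → Prop) :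
    Nat.card (Hm T R) ≤ Nat.card W ^ Fintype.card α := by
  have := Nat.card_le_card_of_injective (Subtype.val : Hm T R → (α → W)) Subtype.val_injective
  rwa [Nat.card_fun, Nat.card_eq_fintype_card (α := α)] at this

/-- the spider with legs 1, 2, 3 -/
def E7 : SimpleGraph (Fin 7) := SimpleGraph.fromRel (fun u v =>
  (u = 0 ∧ v = 1) ∨ (u = 1 ∧ v = 2) ∨ (u = 2 ∧ v = 3) ∨ (u = 0 ∧ v = 4) ∨ (u = 4 ∧ v = 5) ∨ (u = 0 ∧ v = 6))

instance : DecidableRel E7.Adj := fun u v => by unfold E7; rw [fromRel_adj]; infer_instance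

lemma E7_tree : E7.IsTree := by
  rw [isTree_iff_connected_and_card]
  constructor
  · have h : ∀ v, E7.Reachable 0 v := by
      have a1 : E7.Adj 0 1 := by decide
      have a2 : E7.Adj 1 2 := by decide
      have a3 : E7.Adj 2 3 := by decide
      have a4 : E7.Adj 0 4 := by decide
      have a5 : E7.Adj 4 5 := by decide
      have a6 : E7.Adj 0 6 := by decide
      intro v
      fin_cases v
      · exact Reachable.refl _
      · exact a1.reachable
      · exact a1.reachable.trans a2.reachable
      · exact (a1.reachable.trans a2.reachable).trans a3.reachable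
      · exact a4.reachable
      · exact a4.reachable.trans a5.reachable
      · exact a6.reachable
    exact ⟨fun u v => (h u).symm.trans (h v)⟩
  · rw [Nat.card_eq_fintype_card, Nat.card_eq_fintype_card, ← edgeFinset_card]
    decide

section count
variable {W : Type} [Fintype W] [DecidableEq W] (R : W → W → Prop) [DecidableRel R]

/-- number of walks -/
def dd : ℕ → W → ℕ
  | 0, _ => 1
  | k + 1, a => ∑ b, (if R a b then 1 else 0) * dd k b

def e7 : (Fin 7 → W) ≃ W × W × W × W × W × W × W where
  toFun f := (f 0, f 1, f 2, f 3, f 4, f 5, f 6)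
  invFun p := ![p.1, p.2.1, p.2.2.1, p.2.2.2.1, p.2.2.2.2.1, p.2.2.2.2.2.1, p.2.2.2.2.2.2]
  left_inv f := by
    funext i
    fin_cases i <;> rfl
  right_inv p := rfl

lemma ite6 (a b c d e f : Prop) [Decidable a] [Decidable b] [Decidable c] [Decidable d]
    [Decidable e] [Decidable f] :
    (if a ∧ b ∧ c ∧ d ∧ e ∧ f then 1 else 0 : ℕ) = (if a then 1 else 0) * (if b then 1 else 0)
      * (if c then 1 else 0) * (if d then 1 else 0) * (if e then 1 else 0) * (if f then 1 else 0) := by
  by_cases a <;> by_cases b <;> by_cases c <;> by_cases d <;> by_cases e <;> by_cases f <;> simp [*]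

lemma alg (r : W → W → ℕ) (a : W) :
    ∑ x, ∑ x1, ∑ x2, ∑ x3, ∑ x4, ∑ x5, r a x * r x x1 * r x1 x2 * r a x3 * r x3 x4 * r a x5
      = (∑ x, r a x * ∑ x1, r x x1 * ∑ b, r x1 b) * (∑ x, r a x * ∑ b, r x b) * ∑ b, r a b := by
  simp only [mul_assoc, ← mul_sum]
  simp only [← mul_assoc, ← sum_mul]

lemma card_E7 (hs : ∀ a b, R a b → R b a) :
    Nat.card (Hm E7 R) = ∑ a, dd R 3 a * dd R 2 a * dd R 1 a := by
  have h : ∀ f : Fin 7 → W, (∀ u v, E7.Adj u v → R (f u) (f v)) ↔
      (R (f 0) (f 1) ∧ R (f 1) (f 2) ∧ R (f 2) (f 3) ∧ R (f 0) (f 4) ∧ R (f 4) (f 5) ∧ R (f 0) (f 6)) := by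
    intro f
    constructor
    · intro h
      exact ⟨h _ _ (by decide), h _ _ (by decide), h _ _ (by decide), h _ _ (by decide),
        h _ _ (by decide), h _ _ (by decide)⟩
    · rintro ⟨h1, h2, h3, h4, h5, h6⟩ u v huv
      unfold E7 at huv
      rw [fromRel_adj] at huv
      rcases huv with ⟨-, (⟨rfl, rfl⟩ | ⟨rfl, rfl⟩ | ⟨rfl, rfl⟩ | ⟨rfl, rfl⟩ | ⟨rfl, rfl⟩ | ⟨rfl, rfl⟩) |
        (⟨rfl, rfl⟩ | ⟨rfl, rfl⟩ | ⟨rfl, rfl⟩ | ⟨rfl, rfl⟩ | ⟨rfl, rfl⟩ | ⟨rfl, rfl⟩)⟩ <;>
        first | assumption | exact hs _ _ (by assumption)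
  rw [Nat.card_congr (Equiv.subtypeEquivRight h), Nat.card_eq_fintype_card, Fintype.card_subtype,
    card_filter]
  simp only [ite6]
  refine (Fintype.sum_equiv e7 _
    (fun p : W × W × W × W × W × W × W =>
      (if R p.1 p.2.1 then 1 else 0) * (if R p.2.1 p.2.2.1 then 1 else 0)
      * (if R p.2.2.1 p.2.2.2.1 then 1 else 0) * (if R p.1 p.2.2.2.2.1 then 1 else 0)
      * (if R p.2.2.2.2.1 p.2.2.2.2.2.1 then 1 else 0)
      * (if R p.1 p.2.2.2.2.2.2 then 1 else 0)) (fun f => rfl)).trans ?_
  simp only [Fintype.sum_prod_type, dd, mul_one]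
  refine sum_congr rfl fun a _ => ?_
  exact alg (fun x y => if R x y then 1 else 0) a

lemma card_P7 (hs : ∀ a b, R a b → R b a) :
    Nat.card (Hm (pathGraph 7) R) = ∑ a, dd R 6 a := by
  have h : ∀ f : Fin 7 → W, (∀ u v, (pathGraph 7).Adj u v → R (f u) (f v)) ↔
      (R (f 0) (f 1) ∧ R (f 1) (f 2) ∧ R (f 2) (f 3) ∧ R (f 3) (f 4) ∧ R (f 4) (f 5) ∧ R (f 5) (f 6)) := by
    intro f
    constructor
    · intro h
      exact ⟨h _ _ (by simp [pathGraph_adj]), h _ _ (by simp [pathGraph_adj]),
        h _ _ (by simp [pathGraph_adj]), h _ _ (by simp [pathGraph_adj]),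
        h _ _ (by simp [pathGraph_adj]), h _ _ (by simp [pathGraph_adj])⟩
    · rintro ⟨h1, h2, h3, h4, h5, h6⟩ u v huv
      rw [pathGraph_adj] at huv
      fin_cases u <;> fin_cases v <;> simp at huv <;>
        first | assumption | exact hs _ _ (by assumption)
  rw [Nat.card_congr (Equiv.subtypeEquivRight h), Nat.card_eq_fintype_card, Fintype.card_subtype,
    card_filter]
  simp only [ite6]
  refine (Fintype.sum_equiv e7 _
    (fun p : W × W × W × W × W × W × W =>
      (if R p.1 p.2.1 then 1 else 0) * (if R p.2.1 p.2.2.1 then 1 else 0)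
      * (if R p.2.2.1 p.2.2.2.1 then 1 else 0) * (if R p.2.2.2.1 p.2.2.2.2.1 then 1 else 0)
      * (if R p.2.2.2.2.1 p.2.2.2.2.2.1 then 1 else 0)
      * (if R p.2.2.2.2.2.1 p.2.2.2.2.2.2 then 1 else 0)) (fun f => rfl)).trans ?_
  simp only [Fintype.sum_prod_type, dd, mul_one, mul_sum, mul_assoc]

end count

/-- a 101-vertex tree-like target -/
def eW (a b : ℕ) : Bool :=
  (a == 0 && 1 ≤ b && b ≤ 20) || (1 ≤ a && a ≤ 20 && b == 21 + (a - 1) / 5)
    || (25 ≤ a && b == 21 + (a - 25) / 19)

def RW (a b : Fin 101) : Prop := (eW a.val b.val || eW b.val a.val) = true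

instance : DecidableRel RW := fun a b => by unfold RW; infer_instance

lemma RW_symm (a b : Fin 101) (h : RW a b) : RW b a := by
  unfold RW at *
  rwa [Bool.or_comm]

/-- class values -/
def cls (x0 x1 x2 x3 : ℕ) (a : Fin 101) : ℕ :=
  if a.val = 0 then x3 else if a.val ≤ 20 then x2 else if a.val ≤ 24 then x0 else x1

lemma dd_step (k x0 x1 x2 x3 : ℕ) (y0 y1 y2 y3 : ℕ) (h : ∀ a, dd RW k a = cls x0 x1 x2 x3 a)
    (h2 : ∀ a : Fin 101, ∑ b, (if RW a b then 1 else 0) * cls x0 x1 x2 x3 b = cls y0 y1 y2 y3 a) :
    ∀ a, dd RW (k + 1) a = cls y0 y1 y2 y3 a := by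
  intro a
  simp only [dd, h, h2]

lemma dd0 : ∀ a, dd RW 0 a = cls 1 1 1 1 a := by decide +kernel
lemma dd1 : ∀ a, dd RW 1 a = cls 24 1 2 20 a := dd_step 0 _ _ _ _ _ _ _ _ dd0 (by decide +kernel)
lemma dd2 : ∀ a, dd RW 2 a = cls 29 24 44 40 a := dd_step 1 _ _ _ _ _ _ _ _ dd1 (by decide +kernel)
lemma dd3 : ∀ a, dd RW 3 a = cls 676 29 69 880 a := dd_step 2 _ _ _ _ _ _ _ _ dd2 (by decide +kernel)
lemma dd4 : ∀ a, dd RW 4 a = cls 896 676 1556 1380 a :=
  dd_step 3 _ _ _ _ _ _ _ _ dd3 (by decide +kernel)
lemma dd5 : ∀ a, dd RW 5 a = cls 20624 896 2276 31120 a :=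
  dd_step 4 _ _ _ _ _ _ _ _ dd4 (by decide +kernel)
lemma dd6 : ∀ a, dd RW 6 a = cls 28404 20624 51744 45520 a :=
  dd_step 5 _ _ _ _ _ _ _ _ dd5 (by decide +kernel)

lemma E7_RW : Nat.card (Hm E7 RW) = 2760320 := by
  rw [card_E7 RW RW_symm]
  simp only [dd1, dd2, dd3]
  decide +kernel

lemma P7_RW : Nat.card (Hm (pathGraph 7) RW) = 2761440 := by
  rw [card_P7 RW RW_symm]
  simp only [dd6]
  decide +kernel

theorem main :
    ∃ (V : Type) (_ : Finite V) (R : V → V → Prop),
      (∀ a b, R a b → R b a) ∧
      ∃ α β : ℕ, α < β ∧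
        (∃ T : SimpleGraph (Fin α), T.IsTree ∧
          Nat.card (Hm T R) < Nat.card (Hm (pathGraph α) R)) ∧
        ∀ n : ℕ, β ≤ n → ∀ T : SimpleGraph (Fin n), T.IsTree →
          Nat.card (Hm (pathGraph n) R) ≤ Nat.card (Hm T R) := by
  classical
  obtain ⟨M, hM⟩ : ∃ M, M = Nat.card (Hm E7 (RA 202)) + 1 := ⟨_, rfl⟩
  refine ⟨(Bool × Fin 202) ⊕ (Fin M × Fin 101), inferInstance, RU M (RA 202) RW, ?_, 7, M + 8,
    by omega, ⟨E7, E7_tree, ?_⟩, ?_⟩
  · rintro (a | a) (b | b) h
    · exact fun h' => h ⟨h'.2, h'.1⟩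
    · exact h
    · exact h
    · exact ⟨h.1.symm, RW_symm _ _ h.2⟩
  · rw [card_RU _ E7_tree.connected, card_RU _ (pathGraph_connected 6), E7_RW, P7_RW]
    omega
  · intro n hn T hT
    by_cases h3 : ∀ r a b c, T.Adj r a → T.Adj r b → T.Adj r c → a = b ∨ a = c ∨ b = c
    · exact path_le hT h3 _
    · push Not at h3
      obtain ⟨r, a, b, c, ha, hb, hc, hab, hac, hbc⟩ := h3
      have h1 := I_gt hT r a b c ha hb hc hab hac hbc n univ (by simp) (subset_univ _)
      obtain ⟨n', rfl⟩ : ∃ n', n = n' + 1 := ⟨n - 1, by omega⟩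
      rw [card_RU _ hT.connected, card_RU _ (pathGraph_connected n'), card_RA, card_RA, I_path']
      have h2 := card_le_pow (pathGraph (n' + 1)) RW
      simp only [Fintype.card_fin, Nat.card_eq_fintype_card] at h2 ⊢
      have h4 : M ≤ 2 ^ (n' + 1) := le_trans (by omega) (Nat.lt_two_pow_self (n := n' + 1)).le
      have h5 : 202 ^ (n' + 1) = 2 ^ (n' + 1) * 101 ^ (n' + 1) := by
        rw [← mul_pow]; norm_num
      have h6 := Nat.mul_le_mul h4 h2
      have h7 := Nat.mul_le_mul_right (202 ^ (n' + 1)) h1
      rw [add_mul, one_mul] at h7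
      omega

end Pool.Agent.H10.HL
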