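import Mathlib

namespace Pool.Agent.H10.Hall
open LaurentPolynomial
open scoped commutatorElement

abbrev V : Type := LaurentPolynomial ℤ

/-- Hall type centre-by-metabelian group: central extension of the wreath product of two copies
of the integers by `A`. -/
@[ext] structure H {A : Type} [AddCommGroup A] (B : V →+ A) where
  v : V
  x : A
  k : ℤ

variable {A : Type} [AddCommGroup A] {B : V →+ A}

theorem TT (k : ℤ) : (T (-k) : V) * T k = 1 := by rw [← T_add]; simp

noncomputable instance : Mul (H B) :=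
  ⟨fun g h => ⟨g.v + T g.k * h.v, g.x + h.x + B (invert g.v * (T g.k * h.v)), g.k + h.k⟩⟩
noncomputable instance : One (H B) := ⟨⟨0, 0, 0⟩⟩
noncomputable instance : Inv (H B) :=
  ⟨fun g => ⟨-(T (-g.k) * g.v), -g.x + B (invert g.v * g.v), -g.k⟩⟩

@[simp] theorem mul_v (g h : H B) : (g * h).v = g.v + T g.k * h.v := rfl
@[simp] theorem mul_x (g h : H B) :
    (g * h).x = g.x + h.x + B (invert g.v * (T g.k * h.v)) := rfl
@[simp] theorem mul_k (g h : H B) : (g * h).k = g.k + h.k := rfl
@[simp] theorem one_v : (1 : H B).v = 0 := rfl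
@[simp] theorem one_x : (1 : H B).x = 0 := rfl
@[simp] theorem one_k : (1 : H B).k = 0 := rfl
@[simp] theorem inv_v (g : H B) : g⁻¹.v = -(T (-g.k) * g.v) := rfl
@[simp] theorem inv_x (g : H B) : g⁻¹.x = -g.x + B (invert g.v * g.v) := rfl
@[simp] theorem inv_k (g : H B) : g⁻¹.k = -g.k := rfl

noncomputable instance : Group (H B) := Group.ofLeftAxioms
  (fun a b c => by
    have := TT a.k
    ext1
    · simp only [mul_v, mul_k, T_add]; ring
    · simp only [mul_v, mul_k, mul_x, T_add, map_add, map_mul, invert_T]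
      have e : (invert a.v + T (-a.k) * invert b.v) * (T a.k * T b.k * c.v) =
          invert b.v * (T b.k * c.v) + invert a.v * (T a.k * (T b.k * c.v)) := by
        linear_combination (invert b.v * T b.k * c.v) * this
      rw [e, mul_add, mul_add, map_add, map_add]; abel
    · simp [add_assoc])
  (fun a => by ext1 <;> simp)
  (fun a => by
    have := TT a.k
    ext1
    · simp
    · simp only [mul_x, inv_x, inv_v, inv_k, map_neg, map_mul, invert_T, neg_neg, one_x]
      have e : -(T a.k * invert a.v) * (T (-a.k) * a.v) = -(invert a.v * a.v) := by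
        linear_combination (-invert a.v * a.v) * this
      rw [e, map_neg]; abel
    · simp)

/-- central elements -/
noncomputable def z (B : V →+ A) : Multiplicative A →* H B where
  toFun x := ⟨0, x.toAdd, 0⟩
  map_one' := rfl
  map_mul' x y := by ext1 <;> simp

@[simp] theorem z_v (x : Multiplicative A) : (z B x).v = 0 := rfl
@[simp] theorem z_x (x : Multiplicative A) : (z B x).x = x.toAdd := rfl
@[simp] theorem z_k (x : Multiplicative A) : (z B x).k = 0 := rfl

theorem z_comm (h : H B) (x : Multiplicative A) : ⁅h, z B x⁆ = 1 := by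
  rw [commutatorElement_eq_one_iff_mul_comm]
  ext1 <;> simp [add_comm]

theorem eq_z {h : H B} (h1 : h.v = 0) (h2 : h.k = 0) : h = z B (.ofAdd h.x) := by
  ext1 <;> simp [*]

noncomputable def t (B : V →+ A) (n : ℤ) : H B := ⟨0, 0, n⟩
noncomputable def a (B : V →+ A) : H B := ⟨1, 0, 0⟩

theorem ca (h : H B) : ⁅h, a B⁆.v = T h.k - 1 := by
  have := TT h.k
  simp only [commutatorElement_def, mul_v, mul_k, inv_v, inv_k, a, neg_zero, add_zero,
    add_neg_cancel, T_zero]
  linear_combination (-h.v) * this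

theorem ct (h : H B) : ⁅t B 1, h⁆.v = (T 1 - 1) * h.v := by
  have := TT h.k
  simp only [commutatorElement_def, mul_v, mul_k, inv_v, inv_k, t, add_neg_cancel_comm]
  linear_combination (-h.v) * this

@[simp] theorem ck (g h : H B) : ⁅g, h⁆.k = 0 := by simp [commutatorElement_def]

theorem T_inj {k : ℤ} (h : (T k : V) - 1 = 0) : k = 0 := by
  have := congrArg (fun f : V => f.coeff 0) (sub_eq_zero.1 h)
  by_contra hk
  simp [hk] at this

/-- the base parts of a shift invariant subgroup form an ideal -/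
def I (C : Subgroup (H B)) (hC : ∀ n, ∀ h ∈ C, t B n * h * (t B n)⁻¹ ∈ C) : Ideal V where
  carrier := {v | ∃ h ∈ C, h.v = v ∧ h.k = 0}
  zero_mem' := ⟨1, one_mem _, rfl, rfl⟩
  add_mem' := by
    rintro _ _ ⟨g, g1, rfl, g2⟩ ⟨h, h1, rfl, h2⟩
    exact ⟨g * h, mul_mem g1 h1, by simp [g2], by simp [g2, h2]⟩
  smul_mem' r v := by
    rintro ⟨g, g1, rfl, g2⟩
    let S : AddSubgroup V :=
      { carrier := {v | ∃ h ∈ C, h.v = v ∧ h.k = 0}
        zero_mem' := ⟨1, one_mem _, rfl, rfl⟩
        add_mem' := by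
          rintro _ _ ⟨g, g1, rfl, g2⟩ ⟨h, h1, rfl, h2⟩
          exact ⟨g * h, mul_mem g1 h1, by simp [g2], by simp [g2, h2]⟩
        neg_mem' := by
          rintro _ ⟨g, g1, rfl, g2⟩
          exact ⟨g⁻¹, inv_mem g1, by simp [g2], by simp [g2]⟩ }
    change r • g.v ∈ S
    induction r using LaurentPolynomial.induction_on' with
    | add p q hp hq => rw [add_smul]; exact add_mem hp hq
    | C_mul_T n c =>
      rw [← smul_eq_C_mul, smul_assoc]
      exact zsmul_mem (show _ ∈ S from ⟨_, hC n g g1, by simp [t], by simp [t, g2]⟩) c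

/-- a proper quotient of the Laurent polynomial ring has finite rank -/
theorem rank (J : Ideal V) (hJ : J ≠ ⊥) : ∃ n, ∀ v : Fin n → V, ∃ c : Fin n → ℤ, c ≠ 0 ∧
    ∑ i, c i • v i ∈ J := by
  obtain ⟨f, f1, f2⟩ := J.ne_bot_iff.1 hJ
  obtain ⟨m, p, hp⟩ := exists_T_pow f
  have p0 : p ≠ 0 := by
    rintro rfl
    rw [map_zero, eq_comm, (isUnit_T _).mul_left_eq_zero] at hp
    exact f2 hp
  let p' := p.map (algebraMap ℤ ℚ)
  have inj : Function.Injective (algebraMap ℤ ℚ) := (algebraMap ℤ ℚ).injective_int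
  have p1 : p' ≠ 0 := (Polynomial.map_ne_zero_iff inj).2 p0
  have := (AdjoinRoot.powerBasis p1).finite
  refine ⟨Module.finrank ℚ (AdjoinRoot p') + 1, fun v => ?_⟩
  choose n q hq using fun i => exists_T_pow (v i)
  let N := ∑ i, n i
  let q' := fun i => q i * Polynomial.X ^ (N - n i)
  have hq' : ∀ i, Polynomial.toLaurent (q' i) = v i * T N := fun i => by
    have : n i ≤ N := Finset.single_le_sum (f := n) (fun _ _ => Nat.zero_le _) (Finset.mem_univ i)
    simp only [q', map_mul, hq, Polynomial.toLaurent_X_pow, mul_T_assoc]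
    congr 2; omega
  have nl : ¬ LinearIndependent ℤ fun i => AdjoinRoot.mk p' ((q' i).map (algebraMap ℤ ℚ)) := by
    rw [LinearIndependent.iff_fractionRing ℤ ℚ]
    intro h
    simpa using h.fintype_card_le_finrank
  obtain ⟨c, c1, i, c2⟩ := Fintype.not_linearIndependent_iff.1 nl
  obtain ⟨s, hs⟩ : p' ∣ (∑ i, c i • q' i).map (algebraMap ℤ ℚ) := by
    rw [← AdjoinRoot.mk_eq_zero, ← c1, ← Polynomial.coe_mapRingHom, map_sum, map_sum]
    simp only [map_zsmul, Polynomial.coe_mapRingHom]
  obtain ⟨b, b0, hb⟩ := IsLocalization.integerNormalization_spec (nonZeroDivisors ℤ) s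
  have e : b • ∑ i, c i • q' i = p * IsLocalization.integerNormalization (nonZeroDivisors ℤ) s := by
    apply Polynomial.map_injective _ inj
    rw [Polynomial.map_mul, hb, ← Polynomial.coe_mapRingHom, map_zsmul, Polynomial.coe_mapRingHom,
      hs, mul_smul_comm]
  refine ⟨b • c, fun h => c2 ?_, ?_⟩
  · simpa [nonZeroDivisors.ne_zero b0] using congrFun h i
  have e2 := congrArg Polynomial.toLaurent e
  simp only [map_zsmul, map_sum, map_mul, hq', hp] at e2
  rw [← J.mul_unit_mem_iff_mem (isUnit_T (N : ℤ))]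
  have := e2 ▸ J.mul_mem_right _ (J.mul_mem_right _ f1)
  convert this using 1
  rw [Finset.smul_sum, Finset.sum_mul]
  simp only [Pi.smul_apply, smul_eq_mul, mul_smul, smul_mul_assoc]

theorem prod_v {n : ℕ} (g : Fin n → H B) (hg : ∀ i, (g i).k = 0) (c : Fin n → ℤ) :
    (List.ofFn fun i => g i ^ c i).prod.v = ∑ i, c i • (g i).v ∧
      (List.ofFn fun i => g i ^ c i).prod.k = 0 := by
  have p : ∀ (g : H B) (c : ℤ), g.k = 0 → (g ^ c).v = c • g.v ∧ (g ^ c).k = 0 := fun g c h => by
    induction c using Int.induction_on with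
    | zero => simp
    | succ n ih => rw [zpow_add_one]; simp only [mul_v, mul_k, ih, h, add_smul]; simp
    | pred n ih => rw [zpow_sub_one]; simp only [mul_v, mul_k, ih, sub_smul]; simp [h, sub_eq_add_neg]
  induction n with
  | zero => simp
  | succ n ih =>
    have := ih (fun i => g i.succ) (fun i => hg _) fun i => c i.succ
    simp only [List.ofFn_succ, List.prod_cons, mul_v, mul_k, this, p _ _ (hg 0), Fin.sum_univ_succ]
    simp

end Pool.Agent.H10.Hall
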