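import Pool.Agent.H10.Hall
import Pool.Agent.H10.DST

namespace Pool.Agent.H10.Hall
open LaurentPolynomial PiNat
open scoped commutatorElement

/-- central modulo `Z` -/
def Cen {F : Type} [Group F] (Z : F → Prop) (g : F) : Prop := ∀ h : F, Z ⁅h, g⁆

/-- modulo the centre there are many independent commutators -/
def R0 {F : Type} [Group F] (Z : F → Prop) : Prop :=
  ∀ n, ∃ x y : Fin n → F, ∀ c : Fin n → ℤ,
    Cen Z (List.ofFn fun i => ⁅x i, y i⁆ ^ c i).prod → c = 0

/-- the centre is infinite cyclic modulo torsion -/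
def R1 {F : Type} [Group F] (Z : F → Prop) : Prop :=
  ∃ a, Cen Z a ∧ (∀ m : ℤ, Z (a ^ m) → m = 0) ∧
    ∀ x, Cen Z x → ∃ k m : ℤ, m ≠ 0 ∧ Z ((x * a ^ k) ^ m)

theorem tr {F G : Type} [Group F] [Group G] (q : F →* G) (hq : Function.Surjective q)
    (Z : G → Prop) : (R0 Z ∧ R1 Z) ↔ (R0 (fun w => Z (q w)) ∧ R1 fun w => Z (q w)) := by
  have c : ∀ w, Cen (fun w => Z (q w)) w ↔ Cen Z (q w) := fun w => by
    simp only [Cen, hq.forall, map_commutatorElement]
  simp only [R0, R1, c, hq.forall, hq.exists, hq.comp_left.exists, map_list_prod, List.map_ofFn,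
    Function.comp_def, map_zpow, map_commutatorElement, map_mul]

variable {A : Type} [AddCommGroup A] {B : V →+ A}

theorem lemA (L : Subgroup (H B)) [L.Normal] (h0 : R0 (· ∈ L)) (h1 : R1 (· ∈ L)) :
    ∃ χ : A →+ ℤ, χ ≠ 0 ∧ ∀ x, z B (.ofAdd x) ∈ L → χ x = 0 := by
  let C := (Subgroup.center _).comap (QuotientGroup.mk' L)
  have hC : ∀ h, h ∈ C ↔ Cen (· ∈ L) h := fun h => by
    simp only [C, Subgroup.mem_comap, Subgroup.mem_center_iff, (QuotientGroup.mk'_surjective L).forall,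
      Cen, ← commutatorElement_eq_one_iff_mul_comm, ← map_commutatorElement]
    simp only [QuotientGroup.mk'_apply, QuotientGroup.eq_one_iff]
  have n : C.Normal := inferInstance
  have zc : ∀ x, Cen (· ∈ L) (z B x) := fun x h => by rw [z_comm]; exact one_mem L
  have J : I C (fun _ h hh => n.conj_mem h hh _) = ⊥ := by
    by_contra hJ
    obtain ⟨m, hm⟩ := rank _ hJ
    obtain ⟨x, y, h⟩ := h0 m
    obtain ⟨c, c0, g, g1, g2, g3⟩ := hm fun i => ⁅x i, y i⁆.v
    obtain ⟨p1, p2⟩ := prod_v (fun i => ⁅x i, y i⁆) (fun i => ck _ _) c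
    refine c0 (h c ((hC _).1 ?_))
    rw [← inv_mul_cancel_right (List.prod _) g]
    refine mul_mem ?_ g1
    rw [eq_z (h := _ * g⁻¹) (by simp [p1, p2, g2, g3]) (by simp [p2, g3]), hC]
    exact zc _
  have key : ∀ h, Cen (· ∈ L) h → h = z B (.ofAdd h.x) := fun h hh => by
    rw [← hC] at hh
    have k : h.k = 0 := T_inj (by
      rw [← ca, ← Ideal.mem_bot, ← J]
      refine ⟨_, ?_, rfl, ck _ _⟩
      rw [commutatorElement_def, mul_assoc, mul_assoc, ← mul_assoc (a B)]
      exact mul_mem hh (n.conj_mem _ (inv_mem hh) _))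
    exact eq_z (by rw [← Ideal.mem_bot, ← J]; exact ⟨h, hh, rfl, k⟩) k
  obtain ⟨g, g1, g2, g3⟩ := h1
  let L' := (L.comap (z B)).toAddSubgroup'
  rw [key g g1] at g2 g3
  have g2 : ∀ m : ℤ, m • g.x ∈ L' → m = 0 := fun m hm => g2 m (by rw [← map_zpow]; exact hm)
  have g3 : ∀ x, ∃ k m : ℤ, m ≠ 0 ∧ m • (x + k • g.x) ∈ L' := fun x => by
    obtain ⟨k, m, h1, h2⟩ := g3 _ (zc (.ofAdd x))
    rw [← map_zpow, ← map_mul, ← map_zpow] at h2
    exact ⟨k, m, h1, h2⟩
  choose k m h1 h2 using g3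
  have u : ∀ x (k' m' : ℤ), m' ≠ 0 → m' • (x + k' • g.x) ∈ L' → k x = k' := fun x k' m' h3 h4 => by
    have := g2 (m x * m' * (k x - k')) (by
      convert sub_mem (zsmul_mem (h2 x) m') (zsmul_mem h4 (m x)) using 1
      module)
    simpa [h1, h3, sub_eq_zero] using this
  refine ⟨.mk' k fun x y => u _ _ (m x * m y) (mul_ne_zero (h1 _) (h1 _)) ?_, fun h => ?_,
    fun x hx => u _ _ 1 one_ne_zero (by rw [one_smul, zero_smul, add_zero]; exact hx)⟩
  · convert add_mem (zsmul_mem (h2 x) (m y)) (zsmul_mem (h2 y) (m x)) using 1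
    module
  · have := DFunLike.congr_fun h g.x
    rw [AddMonoidHom.mk'_apply, u _ (-1) 1 one_ne_zero (by simp)] at this
    simp at this

theorem mem_z {K : AddSubgroup A} {h : H B} :
    h ∈ K.toSubgroup.map (z B) ↔ h.v = 0 ∧ h.k = 0 ∧ h.x ∈ K :=
  ⟨by rintro ⟨x, hx, rfl⟩; exact ⟨rfl, rfl, hx⟩, fun ⟨h1, h2, h3⟩ => ⟨_, h3, (eq_z h1 h2).symm⟩⟩

instance (K : AddSubgroup A) : (K.toSubgroup.map (z B)).Normal := ⟨by
  rintro _ ⟨x, hx, rfl⟩ g
  rw [commutatorElement_eq_one_iff_mul_comm.1 (z_comm g x), mul_inv_cancel_right]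
  exact ⟨x, hx, rfl⟩⟩

theorem lemB (χ : A →+ ℤ) (ψ : A →+ AddCircle (1 : ℚ)) {x0 : A} (h0 : χ x0 = 1) :
    R0 (· ∈ (χ.ker ⊓ ψ.ker).toSubgroup.map (z B)) ∧
      R1 (· ∈ (χ.ker ⊓ ψ.ker).toSubgroup.map (z B)) := by
  have c : ∀ h, Cen (· ∈ (χ.ker ⊓ ψ.ker).toSubgroup.map (z B)) h → h.v = 0 ∧ h.k = 0 := by
    intro h hh
    have h1 := (mem_z.1 (hh (t B 1))).1
    have h2 := (mem_z.1 (inv_mem (hh (a B)))).1
    rw [commutatorElement_inv, ca] at h2
    rw [ct, mul_eq_zero] at h1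
    exact ⟨h1.resolve_left fun h => one_ne_zero (T_inj h), T_inj h2⟩
  refine ⟨fun n => ⟨fun i => t B (i + 1), fun _ => a B, fun c' hc => ?_⟩, z B (.ofAdd x0),
    fun h => by rw [z_comm]; exact one_mem _, fun m hm => ?_, fun x hx => ?_⟩
  · have := (c _ hc).1
    rw [(prod_v _ (fun i => ck _ _) c').1] at this
    funext j
    have := congrArg (fun f : V => f.coeff (j + 1)) this
    have e : ∀ i : ℕ, (0 : ℤ) ≠ i + 1 := fun i => by omega
    simp only [ca, ← T_zero (R := ℤ), t, AddMonoidAlgebra.coeff_sum, AddMonoidAlgebra.coeff_sub,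
      Finsupp.finsetSum_apply, AddMonoidAlgebra.coeff_smul, Finsupp.smul_apply, Finsupp.sub_apply,
      T_apply, e] at this
    simpa [Fin.val_inj] using this
  · simp only [← map_zpow] at hm
    have : χ (m • x0) = 0 := (mem_z.1 hm).2.2.1
    simpa [h0] using this
  · obtain ⟨q, hq⟩ := QuotientAddGroup.mk_surjective (ψ (x.x + -χ x.x • x0))
    refine ⟨-χ x.x, q.den, by simp, ?_⟩
    rw [eq_z (c x hx).1 (c x hx).2, ← map_zpow, ← map_mul, ← map_zpow]
    refine ⟨_, ⟨?_, ?_⟩, rfl⟩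
    · simp [h0]
    · change ψ ((q.den : ℤ) • (x.x + -χ x.x • x0)) = 0
      rw [map_zsmul, ← hq, ← QuotientAddGroup.mk_zsmul, AddCircle.coe_eq_zero_iff]
      exact ⟨q.num, by simp⟩

/-- the marking -/
noncomputable def π (B : V →+ A) : FreeGroup (Fin 2) →* H B := FreeGroup.lift ![t B 1, a B]

theorem π_surj (hB : ∀ x, ∃ k, B (T k) - B (T (-k)) = x) : Function.Surjective (π B) := by
  have h1 : ∀ n, t B n ∈ (π B).range := fun n => by
    have : t B n = t B 1 ^ n := by
      induction n using Int.induction_on with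
      | zero => rfl
      | succ n ih => rw [zpow_add_one, ← ih]; ext1 <;> simp [t]
      | pred n ih => rw [zpow_sub_one, ← ih]; ext1 <;> simp [t, sub_eq_add_neg]
    rw [this]
    exact zpow_mem (show _ ∈ (π B).range from ⟨.of 0, by simp [π]⟩) _
  have h2 : a B ∈ (π B).range := ⟨.of 1, by simp [π]⟩
  have h3 : ∀ x, z B x ∈ (π B).range := fun x => by
    obtain ⟨k, hk⟩ := hB x.toAdd
    have h := mul_mem (mul_mem (h1 k) h2) (inv_mem (h1 k))
    rw [show t B k * a B * (t B k)⁻¹ = ⟨T k, 0, 0⟩ by ext1 <;> simp [a, t]] at h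
    convert mul_mem (mul_mem (mul_mem h2 h) (inv_mem h2)) (inv_mem h) using 1
    have := TT k
    ext1
    · simp [a]
    · simp [a, ← hk, this]; abel
    · simp [a]
  intro h
  let J := I (π B).range fun n h hh => mul_mem (mul_mem (h1 n) hh) (inv_mem (h1 n))
  obtain ⟨g, g1, g2, g3⟩ : h.v ∈ J := by
    rw [(J.eq_top_iff_one).2 ⟨_, h2, rfl, rfl⟩]; trivial
  change h ∈ (π B).range
  convert mul_mem (mul_mem g1 (h3 (.ofAdd (h.x - g.x)))) (h1 h.k) using 1
  ext1 <;> simp [t, g2, g3, -ofAdd_sub]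

/-! ### trees -/

abbrev Nd : Type := List (ℕ × Bool)
abbrev AA : Type := Nd × ℕ →₀ ℤ

noncomputable def y (σ : Nd) (k : ℕ) : AA := Finsupp.single (σ, k) 1

def p : Nd → ℤ
  | (_, true) :: _ => 3
  | _ => 2

def good (T : List ℕ → Bool) : Nd → Prop
  | [] => T [] = true
  | c :: σ => T ((c :: σ).map Prod.fst) = true ∧ good T σ

def Rel (T : List ℕ → Bool) : Set AA := {r | ∃ σ k,
  r = y σ k - (y ((k, false) :: σ) 0 + y ((k, true) :: σ) 0 + p σ • y σ (k + 1)) ∨
    r = y σ k ∧ ¬ good T σ}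

theorem good_T {T : List ℕ → Bool} : ∀ {σ : Nd}, good T σ → T (σ.map Prod.fst) = true
  | [], h => h
  | _ :: _, h => h.1

theorem good_suf {T : List ℕ → Bool} {τ : Nd} : ∀ {σ : Nd}, good T (σ ++ τ) → good T τ
  | [], h => h
  | _ :: _, h => good_suf h.2

theorem lemC {T : List ℕ → Bool} (χ : AA →+ ℤ) (h0 : χ ≠ 0) (h : ∀ r ∈ Rel T, χ r = 0) :
    ∃ b : ℕ → ℕ, ∀ n, T (res b n) = true := by
  have st : ∀ σ, (∃ k, χ (y σ k) ≠ 0) → ∃ c, ∃ k, χ (y (c :: σ) k) ≠ 0 := by
    rintro σ ⟨k, hk⟩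
    by_contra! hc
    have e : ∀ k, χ (y σ k) = p σ * χ (y σ (k + 1)) := fun k => by
      simpa [hc, sub_eq_zero] using h _ ⟨σ, k, .inl rfl⟩
    have d : ∀ n k, p σ ^ n ∣ χ (y σ k) := fun n => by
      induction n with
      | zero => simp
      | succ n ih => intro k; rw [e, pow_succ']; exact mul_dvd_mul_left _ (ih _)
    have p2 : 2 ≤ p σ := by unfold p; split <;> norm_num
    obtain ⟨n, hn⟩ := pow_unbounded_of_one_lt |χ (y σ k)| (by omega : 1 < p σ)
    exact hk (Int.eq_zero_of_abs_lt_dvd (d n k) hn)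
  choose! c hc using st
  obtain ⟨σ, hσ⟩ : ∃ σ k, χ (y σ k) ≠ 0 := by
    by_contra! hc
    refine h0 (Finsupp.addHom_ext' fun ⟨σ, k⟩ => AddMonoidHom.ext_int ?_)
    exact hc σ k
  let s : ℕ → Nd := fun n => (fun τ => c τ :: τ)^[n] σ
  have s1 : ∀ n, s (n + 1) = c (s n) :: s n := fun n => Function.iterate_succ_apply' _ _ _
  have s2 : ∀ n, ∃ k, χ (y (s n) k) ≠ 0 := fun n => by
    induction n with
    | zero => exact hσ
    | succ n ih => rw [s1]; exact hc _ ih
  have s3 : ∀ n, good T (s n) := fun n => by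
    by_contra hg
    obtain ⟨k, hk⟩ := s2 n
    exact hk (h _ ⟨_, k, .inr ⟨rfl, hg⟩⟩)
  -- prepend the ancestors of `σ`
  have up : ∀ (σ : Nd) (d : ℕ → ℕ × Bool), (∀ n, good T (res d n ++ σ)) →
      ∃ d : ℕ → ℕ × Bool, ∀ n, good T (res d n) := fun σ => by
    induction σ with
    | nil => exact fun d hd => ⟨d, by simpa using hd⟩
    | cons x τ ih =>
      intro d hd
      have e : ∀ n, res (fun i => Nat.casesOn i x d : ℕ → ℕ × Bool) (n + 1) = res d n ++ [x] :=
        fun n => by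
          induction n with
          | zero => rfl
          | succ n ih => rw [res_succ, ih]; rfl
      refine ih (fun i => Nat.casesOn i x d) fun n => ?_
      cases n with
      | zero => exact (hd 0).2
      | succ n => rw [e]; simpa using hd n
  have s4 : ∀ n, res (fun n => c (s n)) n ++ σ = s n := fun n => by
    induction n with
    | zero => rfl
    | succ n ih => rw [res_succ, List.cons_append, ih, s1]
  obtain ⟨d, hd⟩ := up σ (fun n => c (s n)) fun n => by rw [s4]; exact s3 n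
  refine ⟨fun i => (d i).1, fun n => ?_⟩
  convert good_T (hd n) using 2
  induction n with
  | zero => rfl
  | succ n ih => simp [ih]

theorem lemD {T : List ℕ → Bool} {b : ℕ → ℕ} (hb : ∀ n, T (res b n) = true) :
    ∃ (χ : AA →+ ℤ) (x : AA), χ x = 1 ∧ ∀ r ∈ Rel T, χ r = 0 := by
  classical
  have co : ∀ n : ℕ, ∃ α β : ℤ, α * 2 ^ n + β * 3 ^ n = 1 := fun n =>
    (show IsCoprime (2 : ℤ) 3 from ⟨-1, 1, by norm_num⟩).pow
  choose α β hc using co
  let u : Nd → ℤ := fun σ => σ.rec 1 fun c τ r => if c.1 = b τ.length then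
    (if c.2 then β else α) (b (τ.length + 1)) * r else 0
  have u1 : ∀ σ, u σ ≠ 0 → good T σ ∧ σ.map Prod.fst = res b σ.length := fun σ => by
    induction σ with
    | nil => exact fun _ => ⟨hb 0, rfl⟩
    | cons c τ ih =>
      intro h
      by_cases e : c.1 = b τ.length
      · have := ih (right_ne_zero_of_mul (by simpa [u, e] using h))
        have e2 : (c :: τ).map Prod.fst = res b (τ.length + 1) := by simp [this.2, e]
        exact ⟨⟨e2 ▸ hb _, this.1⟩, e2⟩
      · simp [u, e] at h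
  let w : Nd × ℕ → ℤ := fun i => if i.2 ≤ b i.1.length then p i.1 ^ (b i.1.length - i.2) * u i.1 else 0
  let χ := (Finsupp.linearCombination ℤ w).toAddMonoidHom
  have hχ : ∀ σ k, χ (y σ k) = w (σ, k) := fun σ k => by simp [χ, y]
  refine ⟨χ, y [] (b 0), by simp [hχ, w, u], ?_⟩
  rintro _ ⟨σ, k, rfl | ⟨rfl, h⟩⟩
  · simp only [map_sub, map_add, map_zsmul, hχ, w, zero_le, if_true, tsub_zero, List.length_cons,
      smul_eq_mul]
    have a1 : u ((k, false) :: σ) = if k = b σ.length then α (b (σ.length + 1)) * u σ else 0 := rfl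
    have a2 : u ((k, true) :: σ) = if k = b σ.length then β (b (σ.length + 1)) * u σ else 0 := rfl
    have a3 : p ((k, false) :: σ) = 2 := rfl
    have a4 : p ((k, true) :: σ) = 3 := rfl
    rw [a1, a2, a3, a4]
    rcases lt_trichotomy k (b σ.length) with h | h | h
    · rw [if_pos h.le, if_neg h.ne, if_neg h.ne, if_pos (show k + 1 ≤ _ from h),
        show b σ.length - k = b σ.length - (k + 1) + 1 by omega]
      ring
    · rw [if_pos h.le, if_pos h, if_pos h, if_neg (by omega), h, Nat.sub_self]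
      linear_combination (-u σ) * hc (b (σ.length + 1))
    · rw [if_neg h.not_ge, if_neg h.ne', if_neg h.ne', if_neg (by omega)]
      ring
  · have : u σ = 0 := by_contra fun h' => h (u1 σ h').1
    simp [hχ, w, this]

theorem good_meas (σ : Nd) : Measurable fun T => good T σ := by
  induction σ with
  | nil => unfold good; fun_prop
  | cons c τ ih => unfold good; fun_prop

theorem span_meas (x : AA) : Measurable fun T => x ∈ Submodule.span ℤ (Rel T) := by
  have : ∀ T, x ∈ Submodule.span ℤ (Rel T) ↔ ∃ s : Finset AA, x ∈ Submodule.span ℤ (s : Set AA) ∧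
      ∀ r, r ∈ s → r ∈ Rel T := fun T =>
    ⟨fun h => by obtain ⟨s, h1, h2⟩ := Submodule.mem_span_finite_of_mem_span h; exact ⟨s, h2, h1⟩,
      fun ⟨s, h1, h2⟩ => Submodule.span_mono h2 h1⟩
  simp only [this]
  simp only [Rel, Set.mem_ofPred_eq]
  have := good_meas
  fun_prop

end Pool.Agent.H10.Hall
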