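import Mathlib

namespace Pool.Agent.H10.Hopf
open Polynomial Filter

/-- `p`-integral rational numbers -/
noncomputable def Z (p : ℕ) [Fact p.Prime] : Subring ℚ :=
  (PadicInt.subring p).comap (Rat.castHom ℚ_[p])

variable {p : ℕ} [hp : Fact p.Prime]

theorem memZ {r : ℚ} : r ∈ Z p ↔ ‖(r : ℚ_[p])‖ ≤ 1 := Iff.rfl

theorem invZ {n : ℕ} (h : p.Coprime n) : (n : ℚ)⁻¹ ∈ Z p := by
  simp [memZ, Padic.norm_natCast_eq_one_iff.2 h]

theorem notZ : (p : ℚ)⁻¹ ∉ Z p := by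
  simpa [memZ] using hp.out.one_lt

/-- polynomials with `p`-integral coefficients -/
def J (p : ℕ) [Fact p.Prime] : AddSubgroup ℚ[X] where
  carrier := {f | ∀ i, f.coeff i ∈ Z p}
  add_mem' hf hg i := by rw [coeff_add]; exact add_mem (hf i) (hg i)
  zero_mem' i := by simp
  neg_mem' hf i := by rw [coeff_neg]; exact neg_mem (hf i)

theorem sm {r : ℚ} {f : ℚ[X]} (hr : f = 0 ∨ r ∈ Z p) (hf : f ∈ J p) : r • f ∈ J p := by
  rcases hr with rfl | hr
  · simp
  · exact fun i => by rw [coeff_smul]; exact mul_mem hr (hf i)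

theorem zero {f : ℚ[X]} (h : ∀ n : ℕ, (p : ℚ)⁻¹ ^ n • f ∈ J p) : f = 0 := by
  ext i
  by_contra hi
  obtain ⟨n, hn⟩ := pow_unbounded_of_one_lt ‖(f.coeff i : ℚ_[p])‖⁻¹
    (show (1 : ℝ) < p by exact_mod_cast hp.out.one_lt)
  have := memZ.1 (h n i)
  simp only [coeff_smul, smul_eq_mul, Rat.cast_mul, Rat.cast_pow, Rat.cast_inv, Rat.cast_natCast,
    norm_mul, norm_pow, norm_inv, Padic.norm_p, inv_inv] at this
  rw [inv_lt_iff_one_lt_mul₀ (norm_pos_iff.2 (Rat.cast_ne_zero.2 hi))] at hn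
  linarith

theorem ev (N : ℕ) (f : ℚ[X]) (h : p ∣ N) : ∀ᶠ k in atTop, (N : ℚ) ^ k • f ∈ J p := by
  have : ∀ i, ∀ᶠ k in atTop, (N : ℚ) ^ k * f.coeff i ∈ Z p := fun i => by
    have := (tendsto_pow_atTop_nhds_zero_of_lt_one (norm_nonneg _)
      (Padic.norm_natCast_lt_one_iff.2 h)).mul_const ‖(f.coeff i : ℚ_[p])‖
    simpa [memZ] using this.eventually (ge_mem_nhds (by simp : _ < (1 : ℝ)))
  filter_upwards [(eventually_all_finset f.support).2 fun i _ => this i] with k hk i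
  by_cases hi : i ∈ f.support
  · exact hk i hi
  · simp [notMem_support_iff.1 hi]

instance : Fact (Nat.Prime 5) := ⟨by norm_num⟩
instance : Fact (Nat.Prime 7) := ⟨by norm_num⟩
instance : Fact (Nat.Prime 11) := ⟨by norm_num⟩

/-- backward shift -/
noncomputable def s : ℚ[X] →ₗ[ℚ] ℚ[X] := divX_hom.toRatLinearMap

@[simp] theorem cs (f : ℚ[X]) (i : ℕ) : (s f).coeff i = f.coeff (i + 1) := coeff_divX

theorem sJ {f : ℚ[X]} (h : f ∈ J p) : s f ∈ J p := fun i => by rw [cs]; exact h _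

/-- the group -/
noncomputable def G : AddSubgroup (ℚ[X] × ℚ[X]) where
  carrier := {v | v.2 ∈ J 2 ∧ v.1 ∈ J 3 ∧ v.1 - v.2 ∈ J 5 ∧ v.2 - s v.1 ∈ J 7 ∧ v.1 ∈ J 11 ∧
    v.2 ∈ J 11 ∧ (11 : ℚ)⁻¹ • s v.2 ∈ J 11}
  add_mem' := fun ⟨a, b, c, d, e, f, g⟩ ⟨a', b', c', d', e', f', g'⟩ => ⟨add_mem a a', add_mem b b',
    by simpa [add_sub_add_comm] using add_mem c c', by simpa [add_sub_add_comm] using add_mem d d',
    add_mem e e', add_mem f f', by simpa using add_mem g g'⟩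
  zero_mem' := by simp
  neg_mem' := fun ⟨a, b, c, d, e, f, g⟩ => ⟨neg_mem a, neg_mem b,
    by simpa [sub_eq_add_neg, add_comm] using neg_mem c,
    by simpa [sub_eq_add_neg, add_comm] using neg_mem d, neg_mem e, neg_mem f,
    by simpa using neg_mem g⟩

theorem smG {r : ℚ} {v} (hv : v ∈ G) (h2 : v.2 = 0 ∨ r ∈ Z 2) (h3 : v.1 = 0 ∨ r ∈ Z 3)
    (h5 : v.1 - v.2 = 0 ∨ r ∈ Z 5) (h7 : v.2 - s v.1 = 0 ∨ r ∈ Z 7) (h : r ∈ Z 11) : r • v ∈ G := by
  obtain ⟨a, b, c, d, e, f, g⟩ := hv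
  exact ⟨sm h2 a, sm h3 b, by simpa [smul_sub] using sm h5 c, by simpa [smul_sub] using sm h7 d,
    sm (.inr h) e, sm (.inr h) f, by simpa [smul_comm r] using sm (.inr h) g⟩

theorem mult (v : ℚ[X] × ℚ[X]) : ∃ N : ℚ, N ≠ 0 ∧ N • v ∈ G := by
  obtain ⟨k, a, b, c, d, e, f, g⟩ := ((ev (p := 2) 2310 v.2 (by norm_num)).and
    ((ev (p := 3) 2310 v.1 (by norm_num)).and ((ev (p := 5) 2310 (v.1 - v.2) (by norm_num)).and
    ((ev (p := 7) 2310 (v.2 - s v.1) (by norm_num)).and ((ev (p := 11) 2310 v.1 (by norm_num)).and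
    ((ev (p := 11) 2310 v.2 (by norm_num)).and
    (ev (p := 11) 2310 ((11 : ℚ)⁻¹ • s v.2) (by norm_num)))))))).exists
  exact ⟨((2310 : ℕ) : ℚ) ^ k, by positivity, a, b, by simpa [smul_sub] using c, by simpa [smul_sub] using d, e, f,
    by simpa [smul_comm (11 : ℚ)⁻¹] using g⟩

theorem pz (q n : ℕ) (h : p.Coprime q) : (q : ℚ)⁻¹ ^ n ∈ Z p := pow_mem (invZ h) n

theorem hopf (θ : G →+ G) (hθ : Function.Surjective θ) : Function.Injective θ := by
  let _ : DivisibleBy (ℚ[X] × ℚ[X]) ℤ := divisibleByOfSMulRightSurj _ _ fun {n} hn v =>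
    ⟨(n : ℚ)⁻¹ • v, by simp [← Int.cast_smul_eq_zsmul ℚ, smul_smul, hn]⟩
  obtain ⟨T', hT⟩ := (Module.Baer.of_divisible (ℚ[X] × ℚ[X])).extension_property_addMonoidHom
    G.subtype Subtype.val_injective (G.subtype.comp θ)
  let T := T'.toRatLinearMap
  have e : ∀ g : G, T g = θ g := DFunLike.congr_fun hT
  have m : ∀ v ∈ G, T v ∈ G := fun v hv => e ⟨v, hv⟩ ▸ (θ _).2
  have k2 : ∀ x, (T (x, 0)).2 = 0 := fun x => by
    obtain ⟨N, N0, h⟩ := mult (x, 0)
    refine (smul_eq_zero_iff_right N0).1 (zero (p := 2) fun n => ?_)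
    simpa only [map_smul, Prod.smul_fst, Prod.smul_snd] using (m _ (smG h (by simp) (.inr (pz 2 n (by norm_num))) (.inr (pz 2 n (by norm_num)))
      (.inr (pz 2 n (by norm_num))) (pz 2 n (by norm_num)))).1
  have k3 : ∀ x, (T (0, x)).1 = 0 := fun x => by
    obtain ⟨N, N0, h⟩ := mult (0, x)
    refine (smul_eq_zero_iff_right N0).1 (zero (p := 3) fun n => ?_)
    simpa only [map_smul, Prod.smul_fst, Prod.smul_snd] using (m _ (smG h (.inr (pz 3 n (by norm_num))) (by simp) (.inr (pz 3 n (by norm_num)))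
      (.inr (pz 3 n (by norm_num))) (pz 3 n (by norm_num)))).2.1
  have k5 : ∀ x, (T (x, x)).1 - (T (x, x)).2 = 0 := fun x => by
    obtain ⟨N, N0, h⟩ := mult (x, x)
    refine (smul_eq_zero_iff_right N0).1 (zero (p := 5) fun n => ?_)
    simpa only [map_smul, Prod.smul_fst, Prod.smul_snd, smul_sub] using (m _ (smG h (.inr (pz 5 n (by norm_num))) (.inr (pz 5 n (by norm_num)))
      (by simp) (.inr (pz 5 n (by norm_num))) (pz 5 n (by norm_num)))).2.2.1
  have k7 : ∀ x, (T (x, s x)).2 - s (T (x, s x)).1 = 0 := fun x => by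
    obtain ⟨N, N0, h⟩ := mult (x, s x)
    refine (smul_eq_zero_iff_right N0).1 (zero (p := 7) fun n => ?_)
    simpa only [map_smul, Prod.smul_fst, Prod.smul_snd, smul_sub] using (m _ (smG h (.inr (pz 7 n (by norm_num))) (.inr (pz 7 n (by norm_num)))
      (.inr (pz 7 n (by norm_num))) (by simp) (pz 7 n (by norm_num)))).2.2.2.1
  let f := (LinearMap.fst _ _ _).comp (T.comp (LinearMap.inl _ _ _))
  have a : ∀ x y, T (x, y) = T (x, 0) + T (0, y) := fun x y => by simp [← map_add]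
  have t : ∀ x y, T (x, y) = (f x, f y) := fun x y => by
    have := k5 y
    rw [a] at this ⊢
    simp only [Prod.ext_iff, Prod.fst_add, Prod.snd_add, k2, k3, add_zero, zero_add] at this ⊢
    exact ⟨rfl, (sub_eq_zero.1 this).symm⟩
  have c : ∀ x, f (s x) = s (f x) := fun x => by simpa [t, sub_eq_zero] using k7 x
  have i : ∀ x ∈ J 11, f x ∈ J 11 := fun x hx => by
    obtain ⟨k, a, b, c⟩ := ((ev (p := 3) 105 x (by norm_num)).and
      ((ev (p := 5) 105 x (by norm_num)).and (ev (p := 7) 105 (s x) (by norm_num)))).exists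
    have := (m (((105 : ℕ) : ℚ) ^ k • x, 0) ⟨zero_mem _, a, by simpa using b, by simpa using c,
      sm (.inr (pow_mem (natCast_mem _ _) _)) hx, zero_mem _, by simp⟩).2.2.2.2.1
    have := sm (.inr (pz 105 k (by norm_num))) this
    simpa [t, smul_smul] using this
  have o : ∀ q [Fact q.Prime], (1 : ℚ[X]) ∈ J q := fun q _ i => by
    rw [coeff_one]; split_ifs <;> simp
  have s1 : s 1 = 0 := divX_one
  have f1 : f 1 ≠ 0 := fun h => by
    obtain ⟨⟨⟨x, y⟩, hg⟩, g⟩ := hθ ⟨(0, 1), o 2, zero_mem _, by simpa using o 5, by simpa using o 7,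
      zero_mem _, o 11, by simp [s1]⟩
    have := congrArg Prod.snd ((e _).trans (congrArg Subtype.val g))
    rw [t] at this
    have j := i (X * ((11 : ℚ)⁻¹ • s y)) (fun n => by
      cases n
      exacts [by simp, by rw [coeff_X_mul]; exact hg.2.2.2.2.2.2 _]) 0
    rw [mul_smul_comm, map_smul, show X * s y = y - y.coeff 0 • 1 from eq_sub_of_add_eq (by
      rw [← C_mul', mul_one]; exact X_mul_divX_add y), map_sub, map_smul, h, show f y = 1 from this] at j
    exact notZ (p := 11) (by simpa using j)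
  have z : ∀ n (x : ℚ[X]), x.natDegree ≤ n → f x = 0 → x = 0 := fun n => by
    have b : ∀ x, s x = 0 → f x = 0 → x = 0 := fun x h1 h2 => by
      rw [divX_eq_zero_iff.1 h1, ← mul_one (C _), C_mul'] at h2 ⊢
      rw [((smul_eq_zero.1 ((map_smul f _ _).symm.trans h2)).resolve_right f1), zero_smul]
    induction n with
    | zero => exact fun x h => b x (divX_eq_zero_iff.2 (eq_C_of_natDegree_le_zero h))
    | succ n ih =>
      exact fun x h h' => b x (ih _ ((natDegree_divX_eq_natDegree_tsub_one (p := x)).trans_le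
        (by omega)) (by rw [c, h', map_zero])) h'
  refine (injective_iff_map_eq_zero θ).2 fun ⟨⟨x, y⟩, hg⟩ h => Subtype.ext ?_
  have := (e _).trans (congrArg Subtype.val h)
  rw [t] at this
  exact Prod.ext (z _ x le_rfl (congrArg Prod.fst this)) (z _ y le_rfl (congrArg Prod.snd this))

/-- the shift on the group -/
noncomputable def φ : G →+ G := ((s.prodMap s).toAddMonoidHom.comp G.subtype).codRestrict G
  fun ⟨_, a, b, c, d, e, f, g⟩ => ⟨sJ a, sJ b, by simpa using sJ c, by simpa using sJ d, sJ e, sJ f,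
    by simpa using sJ g⟩

theorem oneJ : (1 : ℚ[X]) ∈ J p := fun i => by
  rw [coeff_one]; split_ifs <;> simp

theorem XJ {f : ℚ[X]} {r : ℚ} (h : f ∈ J p) (hr : r ∈ Z p) : X * f + C r ∈ J p := fun n => by
  cases n
  exacts [by simpa, by simpa [coeff_X_mul] using h _]

theorem rng (g : G) (h : (11 : ℚ)⁻¹ * g.1.2.coeff 0 ∈ Z 11) : g ∈ φ.range := by
  obtain ⟨⟨x, y⟩, a, b, c, d, e, f, g⟩ := g
  obtain ⟨k, k2, k7⟩ := ((ev (p := 2) 2 x dvd_rfl).and (ev (p := 7) 7 x dvd_rfl)).exists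
  obtain ⟨u, w, uw⟩ : IsCoprime ((2 : ℤ) ^ k) (7 ^ k) := IsCoprime.pow (by norm_num)
  have uw : (u : ℚ) * 2 ^ k + w * 7 ^ k = 1 := by exact_mod_cast uw
  have sX : ∀ f r, s (X * f + C r) = f := fun f r => by ext; simp [coeff_X_mul]
  have n : ∀ q [Fact q.Prime], x ∈ J q → u * 2 ^ k * x.coeff 0 ∈ Z q := fun q _ h =>
    mul_mem (mul_mem (intCast_mem _ _) (pow_mem (ofNat_mem _ _) _)) (h 0)
  refine ⟨⟨(X * x + C (u * 2 ^ k * x.coeff 0), X * y + C (u * 2 ^ k * x.coeff 0)),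
    XJ a ?_, XJ b (n 3 b), ?_, ?_, XJ e (n 11 e), XJ f (n 11 e), ?_⟩,
    Subtype.ext (Prod.ext (sX _ _) (sX _ _))⟩
  · simpa [mul_assoc] using mul_mem (intCast_mem _ u) (k2 0)
  · simpa [mul_sub] using XJ c (zero_mem _)
  · simp only [sX]
    convert XJ d (neg_mem (mul_mem (intCast_mem _ w) (k7 0))) using 1
    ext (_ | i)
    · simp [-map_mul, -map_neg]; linear_combination x.coeff 0 * uw
    · simp [coeff_X_mul, -map_mul, -map_neg]
  · simp only [sX]
    rintro (_ | i)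
    exacts [h, by simpa using g i]

theorem fin : φ.range.FiniteIndex := by
  let ψ : G →+ ZMod 11 := PadicInt.toZMod.toAddMonoidHom.comp (AddMonoidHom.mk'
    (fun g => ⟨(g.1.2.coeff 0 : ℚ), g.2.2.2.2.2.2.1 0⟩) fun _ _ => Subtype.ext (by simp))
  refine AddSubgroup.finiteIndex_of_le (H := ψ.ker) fun g hg => rng g ?_
  have : _ ∈ RingHom.ker (PadicInt.toZMod (p := 11)) := hg
  rw [PadicInt.ker_toZMod, PadicInt.maximalIdeal_eq_span_p, Ideal.mem_span_singleton'] at this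
  obtain ⟨a, ha⟩ := this
  have : a.1 * 11 = (g.1.2.coeff 0 : ℚ) := congrArg Subtype.val ha
  rw [memZ]
  push_cast
  rw [← this, mul_comm, mul_inv_cancel_right₀ (by norm_num)]
  exact a.2

end Pool.Agent.H10.Hopf
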