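import Mathlib

set_option autoImplicit false

/-! Unary algebras with countably many operations: a tree with a spine whose sub-trees are
elementary substructures. -/

namespace Pool.Agent.H10.Iso

open FirstOrder FirstOrder.Language

def L : FirstOrder.Language.{0, 0} := ⟨fun n => {_i : ℕ // n = 1}, fun _ => Empty⟩

instance : L.IsAlgebraic := fun _ => inferInstanceAs (IsEmpty Empty)

@[reducible] def str {A : Type} (op : ℕ → A → A) : L.Structure A where
  funMap f x := op f.1 (x ⟨0, by rw [f.2]; exact one_pos⟩)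
  RelMap r _ := r.elim

lemma term_inv {α : Type} (t : L.Term α) : ∃ N : ℕ, ∀ (A B : Type) (p : ℕ → A → A) (q : ℕ → B → B)
    (e : A → B), (∀ i < N, ∀ x, e (p i x) = q i (e x)) → ∀ v : α → A,
      e (@Term.realize L A (str p) α v t) = @Term.realize L B (str q) α (e ∘ v) t := by
  induction t with
  | var a => exact ⟨0, fun _ _ _ _ _ _ _ => rfl⟩
  | func f ts ih =>
    obtain ⟨i, rfl⟩ := f
    obtain ⟨N, hN⟩ := ih 0
    refine ⟨max N (i + 1), fun A B p q e h v => ?_⟩
    change e (p i _) = q i _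
    rw [h i (by omega)]
    exact congrArg (q i) (hN A B p q e (fun j hj => h j (by omega)) v)

lemma form_inv {α : Type} {n : ℕ} (φ : L.BoundedFormula α n) : ∃ N : ℕ, ∀ (A B : Type)
    (p : ℕ → A → A) (q : ℕ → B → B) (e : A ≃ B), (∀ i < N, ∀ x, e (p i x) = q i (e x)) →
    ∀ (v : α → A) (xs : Fin n → A), (@BoundedFormula.Realize L A (str p) α n φ v xs ↔
      @BoundedFormula.Realize L B (str q) α n φ (e ∘ v) (e ∘ xs)) := by
  induction φ with
  | falsum => exact ⟨0, fun _ _ _ _ _ _ _ _ => Iff.rfl⟩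
  | equal t1 t2 =>
    obtain ⟨N1, h1⟩ := term_inv t1
    obtain ⟨N2, h2⟩ := term_inv t2
    refine ⟨max N1 N2, fun A B p q e h v xs => ?_⟩
    simp only [BoundedFormula.Realize]
    rw [← Sum.comp_elim, ← h1 A B p q e (fun j hj => h j (by omega)),
      ← h2 A B p q e (fun j hj => h j (by omega)), e.injective.eq_iff]
  | rel r _ => exact r.elim
  | imp _ _ ih1 ih2 =>
    obtain ⟨N1, h1⟩ := ih1
    obtain ⟨N2, h2⟩ := ih2
    refine ⟨max N1 N2, fun A B p q e h v xs => ?_⟩
    simp only [BoundedFormula.Realize]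
    rw [h1 A B p q e (fun j hj => h j (by omega)), h2 A B p q e (fun j hj => h j (by omega))]
  | all _ ih =>
    obtain ⟨N, h1⟩ := ih
    refine ⟨N, fun A B p q e h v xs => ?_⟩
    simp only [BoundedFormula.Realize]
    rw [← e.forall_congr_right]
    refine forall_congr' fun x => ?_
    rw [h1 A B p q e h, Fin.comp_snoc]

abbrev U : Type := ℤ × List ℕ

def par : U → U
  | (j, []) => (j + 1, [])
  | (j, _ :: w) => (j, w)

def op : ℕ → U → U
  | 0, x => par x
  | 1, x => if Even (x.1 - x.2.length) then x else par x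
  | i + 2, x => (x.1, i :: x.2)

lemma le_par (x : U) : x.1 ≤ (par x).1 := by
  obtain ⟨j, _ | _⟩ := x <;> simp [par]

lemma le_op (i : ℕ) (x : U) : x.1 ≤ (op i x).1 := by
  match i with
  | 0 => exact le_par x
  | 1 => simp only [op]; split_ifs; exacts [le_rfl, le_par x]
  | i + 2 => exact le_rfl

abbrev H (k : ℤ) : Type := {x : U // k ≤ x.1}

def opH (k : ℤ) (i : ℕ) (x : H k) : H k := ⟨op i x.1, x.2.trans (le_op i x.1)⟩

def tau (k : ℤ) (N : ℕ) (j : ℤ) : List ℕ → U
  | [] => if k ≤ j then (j, []) else (k, List.replicate (k - j).toNat N)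
  | i :: w => ((tau k N j w).1,
      (if w = [] ∧ j ≤ k ∧ N ≤ i then i + 1 else i) :: (tau k N j w).2)

def rho (k : ℤ) (N : ℕ) (j : ℤ) : List ℕ → U
  | [] => (j, [])
  | i :: w => if (rho k N j w).2 = [] ∧ (rho k N j w).1 ≤ k ∧ N ≤ i then
      (if i = N then ((rho k N j w).1 - 1, []) else ((rho k N j w).1, [i - 1]))
      else ((rho k N j w).1, i :: (rho k N j w).2)

lemma tau_ge (k : ℤ) (N : ℕ) (j : ℤ) (w : List ℕ) : k ≤ (tau k N j w).1 := by
  induction w with
  | nil => simp only [tau]; split_ifs with h; exacts [h, le_rfl]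
  | cons i w ih => exact ih

lemma rho_rep (k : ℤ) (N m : ℕ) : rho k N k (List.replicate m N) = (k - m, []) := by
  induction m with
  | zero => simp [rho]
  | succ m ih => simp only [List.replicate_succ, rho, ih]; simp; ring

lemma rho_tau (k : ℤ) (N : ℕ) (j : ℤ) (w : List ℕ) :
    rho k N (tau k N j w).1 (tau k N j w).2 = (j, w) := by
  induction w with
  | nil =>
    simp only [tau]
    split_ifs with h
    · rfl
    · rw [rho_rep]; simp; omega
  | cons i w ih =>
    simp only [tau, rho, ih]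
    by_cases h : w = [] ∧ j ≤ k ∧ N ≤ i
    · rw [if_pos h, if_pos ⟨h.1, h.2.1, by omega⟩, if_neg (by omega), h.1]; simp
    · rw [if_neg h, if_neg h]

lemma tau_pred (k : ℤ) (N : ℕ) (j : ℤ) (h : j ≤ k) :
    tau k N (j - 1) [] = ((tau k N j []).1, N :: (tau k N j []).2) := by
  simp only [tau]
  rw [if_neg (by omega), show (k - (j - 1)).toNat = (k - j).toNat + 1 by omega, List.replicate_succ]
  split_ifs with h2
  · obtain rfl : k = j := by omega
    simp
  · rfl

lemma tau_rho (k : ℤ) (N : ℕ) (j : ℤ) (hj : k ≤ j) (w : List ℕ) :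
    tau k N (rho k N j w).1 (rho k N j w).2 = (j, w) := by
  induction w with
  | nil => simp [rho, tau, hj]
  | cons i w ih =>
    simp only [rho]
    generalize rho k N j w = y at ih
    obtain ⟨a, b⟩ := y
    simp only at ih ⊢
    by_cases h : b = [] ∧ a ≤ k ∧ N ≤ i
    · rw [if_pos h]
      obtain ⟨rfl, h1, h2⟩ := h
      split_ifs with h3
      · rw [tau_pred k N a h1, ih, h3]
      · rw [tau, ih, if_pos ⟨rfl, h1, by omega⟩]
        simp; omega
    · rw [if_neg h, tau, ih, if_neg h]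

def eqv (k : ℤ) (N : ℕ) : U ≃ H k where
  toFun x := ⟨tau k N x.1 x.2, tau_ge _ _ _ _⟩
  invFun y := rho k N y.1.1 y.1.2
  left_inv x := rho_tau k N x.1 x.2
  right_inv y := Subtype.ext (tau_rho k N y.1.1 y.2 y.1.2)

lemma tau_par (k : ℤ) (N : ℕ) (x : U) : tau k N (par x).1 (par x).2 = par (tau k N x.1 x.2) := by
  obtain ⟨j, _ | ⟨i, w⟩⟩ := x
  · by_cases h : k ≤ j
    · simp [par, tau, h, show k ≤ j + 1 by omega]
    · have := tau_pred k N (j + 1) (by omega)
      rw [add_sub_cancel_right] at this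
      simp only [this, par]
  · rfl

lemma tau_ht (k : ℤ) (N : ℕ) (j : ℤ) (w : List ℕ) :
    (tau k N j w).1 - (tau k N j w).2.length = j - w.length := by
  induction w with
  | nil => simp only [tau]; split_ifs <;> simp; omega
  | cons i w ih => simp only [tau, List.length_cons]; push_cast; omega

lemma eqv_op (k : ℤ) (N i : ℕ) (hi : i < N) (x : U) : eqv k N (op i x) = opH k i (eqv k N x) := by
  apply Subtype.ext
  change tau k N (op i x).1 (op i x).2 = op i (tau k N x.1 x.2)
  match i with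
  | 0 => exact tau_par k N x
  | 1 =>
    simp only [op, tau_ht]
    split_ifs
    · rfl
    · exact tau_par k N x
  | i + 2 => simp only [op, tau]; rw [if_neg (by omega)]

lemma tau_fix (k : ℤ) (N : ℕ) (j : ℤ) (hj : k ≤ j) (w : List ℕ) (hw : ∀ i ∈ w, i < N) :
    tau k N j w = (j, w) := by
  induction w with
  | nil => simp [tau, hj]
  | cons i w ih =>
    have := hw i (by simp)
    rw [tau, ih fun a ha => hw a (by simp [ha]), if_neg (by omega)]

instance : L.Structure U := str op
instance (k : ℤ) : L.Structure (H k) := str (opH k)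

lemma elem (k : ℤ) {n : ℕ} (b : Fin n → H k) (φ : L.Formula (Fin n)) :
    φ.Realize (fun i => (b i).1) ↔ φ.Realize b := by
  obtain ⟨N, hN⟩ := form_inv φ
  obtain ⟨M, hM⟩ : ∃ M, ∀ i, (b i).1.2.sum < M :=
    ⟨∑ i, (b i).1.2.sum + 1, fun i => Nat.lt_succ_of_le
      (Finset.single_le_sum (f := fun i => (b i).1.2.sum) (fun _ _ => Nat.zero_le _)
        (Finset.mem_univ i))⟩
  have h := hN U (H k) op (opH k) (eqv k (max N M)) (fun i hi => eqv_op k _ i (by omega))
    (fun i => (b i).1) default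
  have e : (eqv k (max N M)) ∘ (fun i => (b i).1) = b := funext fun i => Subtype.ext
    (tau_fix k _ _ (b i).2 _ fun a ha => by
      have h1 : a ≤ (b i).1.2.sum := List.single_le_sum (fun _ _ => Nat.zero_le _) a ha
      have := hM i
      omega)
  rw [e] at h
  rw [Formula.boundedFormula_realize_eq_realize, Formula.boundedFormula_realize_eq_realize] at h
  exact h

def sh (m : ℤ) : U ≃ U := (Equiv.addRight (2 * m)).prodCongr (Equiv.refl _)

lemma sh_op (m : ℤ) (i : ℕ) (x : U) : sh m (op i x) = op i (sh m x) := by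
  have hp : sh m (par x) = par (sh m x) := by
    obtain ⟨j, _ | _⟩ := x <;> simp [par, sh]; ring
  match i with
  | 0 => exact hp
  | 1 =>
    have : Even ((sh m x).1 - (sh m x).2.length) ↔ Even (x.1 - x.2.length) := by
      change Even (x.1 + 2 * m - x.2.length) ↔ _
      rw [add_sub_right_comm, Int.even_add]; simp
    simp only [op, this]
    split_ifs
    · rfl
    · exact hp
  | i + 2 => rfl

/-- every tuple of the big tree has the type of a tuple of `H k` -/
lemma down (k : ℤ) {n : ℕ} (a : Fin n → U) :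
    ∃ b : Fin n → H k, ∀ φ : L.Formula (Fin n), φ.Realize a ↔ φ.Realize b := by
  obtain ⟨m, hm⟩ : ∃ m : ℤ, ∀ i, k ≤ (a i).1 + 2 * m := by
    obtain ⟨B, hB⟩ := (Set.finite_range fun i => |k - (a i).1|).bddAbove
    refine ⟨B, fun i => ?_⟩
    have h1 : |k - (a i).1| ≤ B := hB ⟨i, rfl⟩
    have h2 := le_abs_self (k - (a i).1)
    have h3 := abs_nonneg (k - (a i).1)
    omega
  refine ⟨fun i => ⟨sh m (a i), hm i⟩, fun φ => ?_⟩
  rw [← elem]
  obtain ⟨N, hN⟩ := form_inv φ
  have h := hN U U op op (sh m) (fun i _ => sh_op m i) a default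
  rw [Formula.boundedFormula_realize_eq_realize, Formula.boundedFormula_realize_eq_realize] at h
  exact h

lemma fg (k : ℤ) : Structure.FG L (H k) := by
  refine ⟨Substructure.fg_def.mpr ⟨{⟨(k, []), le_rfl⟩}, Set.finite_singleton _, ?_⟩⟩
  rw [eq_top_iff]
  set S := Substructure.closure L ({⟨(k, []), le_rfl⟩} : Set (H k))
  have hop : ∀ i x, x ∈ S → opH k i x ∈ S := fun i x hx =>
    S.fun_mem (n := 1) ⟨i, rfl⟩ (fun _ => x) fun _ => hx
  have h0 : ∀ j (hj : k ≤ j), (⟨(j, []), hj⟩ : H k) ∈ S := by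
    intro j hj
    induction j, hj using Int.leInduction with
    | base => exact Substructure.subset_closure rfl
    | succ j hj ih => exact hop 0 _ ih
  rintro ⟨⟨j, w⟩, hj⟩ -
  induction w with
  | nil => exact h0 j hj
  | cons i w ih => exact hop (i + 2) _ (ih hj)

lemma not_fg : ¬ Structure.FG L U := by
  rintro ⟨h⟩
  obtain ⟨s, hs, h⟩ := Substructure.fg_def.mp h
  obtain ⟨k, hk⟩ := (hs.image Prod.fst).bddBelow
  let S : L.Substructure U := ⟨{x | k ≤ x.1}, fun f x hx => (hx _).trans (le_op _ _)⟩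
  have h1 : Substructure.closure L s ≤ S := Substructure.closure_le.mpr fun x hx => hk ⟨x, hx, rfl⟩
  have h2 : ((k - 1, []) : U) ∈ S := h1 (by rw [h]; trivial)
  have h3 : k ≤ k - 1 := h2
  omega

lemma not_iso : IsEmpty (H 0 ≃[L] H 1) := by
  refine ⟨fun f => ?_⟩
  have hop : ∀ i x, f (opH 0 i x) = opH 1 i (f x) := fun i x =>
    f.map_fun (n := 1) ⟨i, rfl⟩ fun _ => x
  have nil : ∀ x : H 0, x.1.2 = [] ↔ (f x).1.2 = [] := by
    intro x
    rw [← not_iff_not]
    constructor
    · obtain ⟨⟨j, _ | ⟨i, w⟩⟩, hj⟩ := x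
      · simp
      · intro _
        have := hop (i + 2) ⟨(j, w), hj⟩
        change f ⟨(j, i :: w), hj⟩ = _ at this
        rw [this]
        simp [opH, op]
    · intro h h2
      obtain ⟨i, w, e⟩ := List.exists_cons_of_ne_nil h
      have h3 : f x = opH 1 (i + 2) (f (f.symm ⟨((f x).1.1, w), (f x).2⟩)) := by
        rw [f.apply_symm_apply]
        exact Subtype.ext (Prod.ext rfl e)
      rw [← hop] at h3
      rw [f.injective h3] at h2
      simp [opH, op] at h2
  obtain ⟨⟨⟨j, w⟩, hj⟩, hx⟩ := f.surjective ⟨(1, []), le_rfl⟩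
  obtain rfl : w = [] := (nil _).mpr (by rw [hx])
  rcases hj.lt_or_eq with h | h
  · have h1 := hop 0 ⟨(j - 1, []), by simp; omega⟩
    have h2 := (nil ⟨(j - 1, []), by simp; omega⟩).mp rfl
    have h3 : opH 0 0 ⟨(j - 1, []), by simp; omega⟩ = ⟨(j, []), hj⟩ := by simp [opH, op, par]
    rw [h3, hx] at h1
    generalize f ⟨(j - 1, []), _⟩ = y at h1 h2
    obtain ⟨⟨a, b⟩, ha⟩ := y
    subst h2
    simp [opH, op, par] at h1 ha
    omega
  · simp only at h
    subst h
    have h1 := hop 1 ⟨(0, []), hj⟩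
    have h3 : opH 0 1 ⟨(0, []), hj⟩ = ⟨(0, []), hj⟩ := by simp [opH, op]
    rw [h3, hx] at h1
    simp [opH, op, par] at h1

end Pool.Agent.H10.Iso
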