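import Pool.Agent.H10.Defin

open FirstOrder FirstOrder.Language

namespace Pool.Agent.H10.Isotyp
open Pool.Agent.H10.Defin

universe u v w

/-- Two tuples, possibly in different structures, satisfy the same first-order formulas. -/
def SameType (L : FirstOrder.Language.{u, v}) {A B : Type w} [L.Structure A] [L.Structure B]
    {m : ℕ} (a : Fin m → A) (b : Fin m → B) : Prop :=
  ∀ φ : L.Formula (Fin m), φ.Realize a ↔ φ.Realize b

/-- The two structures realise the same types of `m`-tuples, for every `m ≥ 1`. -/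
def Isotypic (L : FirstOrder.Language.{u, v}) (A B : Type w) [L.Structure A] [L.Structure B] :
    Prop :=
  ∀ m : ℕ, 1 ≤ m → (∀ a : Fin m → A, ∃ b : Fin m → B, SameType L a b) ∧
    (∀ b : Fin m → B, ∃ a : Fin m → A, SameType L a b)

/-- Tuples have the same type exactly when an automorphism carries one to the other. -/
def Homog (L : FirstOrder.Language.{u, v}) (A : Type w) [L.Structure A] : Prop :=
  ∀ (m : ℕ) (a b : Fin m → A), SameType L a b ↔ ∃ σ : L.Equiv A A, ⇑σ ∘ a = b

variable {L : FirstOrder.Language.{u, v}} {A B : Type w} [L.Structure A] [L.Structure B]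

theorem homog_of (h : ∀ (m : ℕ) (a b : Fin m → A), SameType L a b →
    ∃ σ : L.Equiv A A, ⇑σ ∘ a = b) : Homog L A := fun m a b =>
  ⟨h m a b, by rintro ⟨σ, rfl⟩ φ; exact (StrongHomClass.realize_formula σ φ).symm⟩

theorem SameType.comp {m n : ℕ} {a : Fin m → A} {b : Fin m → B} (h : SameType L a b)
    (g : Fin n → Fin m) : SameType L (a ∘ g) (b ∘ g) := fun φ => by
  rw [← Formula.realize_relabel, ← Formula.realize_relabel]; exact h _

theorem iso_of_isotypic [∀ n, IsEmpty (L.Relations n)] [Nonempty A] {r : ℕ} (x : Fin r → A)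
    (hx : ∀ a : A, ∃ t : L.Term (Fin r), t.realize x = a) (hA : Homog L A)
    (h : Isotypic L A B) : Nonempty (L.Equiv A B) := by
  obtain ⟨a0⟩ := ‹Nonempty A›
  obtain ⟨y', hy'⟩ := (h (r + 1) (by omega)).1 (Fin.cons a0 x)
  obtain ⟨y, hy⟩ : ∃ y : Fin r → B, SameType L x y := ⟨_, hy'.comp Fin.succ⟩
  choose t ht using hx
  have key : ∀ s s' : L.Term (Fin r), s.realize x = s'.realize x ↔ s.realize y = s'.realize y :=
    fun s s' => by simpa using hy (s.equal s')
  let f : A → B := fun a => (t a).realize y
  have hf : ∀ s : L.Term (Fin r), f (s.realize x) = s.realize y := fun s => (key _ _).1 (ht _)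
  have inj : Function.Injective f := fun a b e => by
    rw [← ht a, ← ht b]; exact (key _ _).2 e
  have surj : Function.Surjective f := fun b => by
    obtain ⟨z, hz⟩ := (h (r + 1) (by omega)).2 (Fin.cons b y)
    have h1 : SameType L (z ∘ Fin.succ) y := hz.comp Fin.succ
    obtain ⟨σ, hσ⟩ := (hA r x (z ∘ Fin.succ)).1 fun φ => (hy φ).trans (h1 φ).symm
    refine ⟨σ.symm (z 0), ?_⟩
    have e : ((t (σ.symm (z 0))).relabel Fin.succ).realize z = z 0 := by
      rw [Term.realize_relabel, ← hσ, HomClass.realize_term, ht]; simp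
    have := (hz (((t (σ.symm (z 0))).relabel Fin.succ).equal (Term.var 0))).1 (by simpa using e)
    simpa using this
  refine ⟨⟨Equiv.ofBijective f ⟨inj, surj⟩, fun {n} g v => ?_, fun {n} g _ => isEmptyElim g⟩⟩
  have e : Structure.funMap g v = (Term.func g fun i => t (v i)).realize x := by
    simp [Term.realize, ht]
  change f _ = _
  rw [e, hf]
  rfl

end Pool.Agent.H10.Isotyp
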