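import Mathlib

set_option autoImplicit false

namespace Pool.Agent.H10.Kakeya

open Matrix Set

abbrev M3 : Type := Matrix (Fin 3) (Fin 3) ℝ
abbrev E3 : Type := EuclideanSpace ℝ (Fin 3)

def SO : Set M3 := {ρ | ρ ∈ Matrix.specialOrthogonalGroup (Fin 3) ℝ}

lemma mem_SO {ρ : M3} : ρ ∈ SO ↔ ρᵀ * ρ = 1 ∧ ρ.det = 1 := by
  unfold SO
  rw [mem_ofPred_eq, mem_specialOrthogonalGroup_iff, mem_orthogonalGroup_iff']

/-- Householder reflection -/
noncomputable def Hh (v : Fin 3 → ℝ) : M3 := 1 - (2 / (v ⬝ᵥ v)) • vecMulVec v v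

lemma dot_ne {v : Fin 3 → ℝ} (hv : v ≠ 0) : v ⬝ᵥ v ≠ 0 := fun h => hv (dotProduct_self_eq_zero.mp h)

lemma Hh_transpose (v : Fin 3 → ℝ) : (Hh v)ᵀ = Hh v := by
  simp [Hh, transpose_vecMulVec]

lemma Hh_mulVec (v x : Fin 3 → ℝ) : Hh v *ᵥ x = x - (2 * (v ⬝ᵥ x) / (v ⬝ᵥ v)) • v := by
  unfold Hh
  rw [sub_mulVec, one_mulVec, smul_mulVec, vecMulVec_mulVec]
  congr 1
  funext i
  simp
  ring

lemma Hh_sq {v : Fin 3 → ℝ} (hv : v ≠ 0) : Hh v * Hh v = 1 := by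
  have h := dot_ne hv
  refine Matrix.ext_of_mulVec_single fun i => ?_
  rw [← mulVec_mulVec, Hh_mulVec, Hh_mulVec, one_mulVec, dotProduct_sub, dotProduct_smul,
    sub_sub, ← add_smul]
  have : 2 * (v ⬝ᵥ Pi.single i 1) / (v ⬝ᵥ v) + 2 * (v ⬝ᵥ Pi.single i 1
      - (2 * (v ⬝ᵥ Pi.single i 1) / (v ⬝ᵥ v)) • (v ⬝ᵥ v)) / (v ⬝ᵥ v) = 0 := by
    rw [smul_eq_mul]; field_simp; ring
  rw [this, zero_smul, sub_zero]

lemma Hh_det {v : Fin 3 → ℝ} (hv : v ≠ 0) : (Hh v).det = -1 := by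
  have h := dot_ne hv
  have e : v ⬝ᵥ v = v 0 * v 0 + v 1 * v 1 + v 2 * v 2 := by simp [dotProduct, Fin.sum_univ_three]
  obtain ⟨c, hc⟩ : ∃ c, c = 2 / (v ⬝ᵥ v) := ⟨_, rfl⟩
  have hc2 : c * (v 0 * v 0 + v 1 * v 1 + v 2 * v 2) = 2 := by rw [hc, ← e]; field_simp
  unfold Hh
  rw [← hc, det_fin_three]
  simp [vecMulVec_apply]
  linear_combination (-1) * hc2

lemma Hh_cont : ContinuousOn Hh {0}ᶜ := by
  unfold Hh
  refine continuousOn_const.sub (ContinuousOn.smul (continuousOn_const.div (by fun_prop)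
    (fun v hv => dot_ne hv)) ?_)
  refine Continuous.continuousOn (continuous_matrix fun i j => ?_)
  simp only [vecMulVec_apply]
  fun_prop

lemma SO_mul {a b : M3} (ha : a ∈ SO) (hb : b ∈ SO) : a * b ∈ SO :=
  (Matrix.specialOrthogonalGroup (Fin 3) ℝ).mul_mem ha hb

lemma J_mul {a b : M3} (ha : JoinedIn SO 1 a) (hb : JoinedIn SO 1 b) : JoinedIn SO 1 (a * b) := by
  refine ha.trans ?_
  have := hb.map (f := fun x => a * x) (by fun_prop)
  rw [mul_one] at this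
  refine this.mono ?_
  rintro _ ⟨x, hx, rfl⟩
  exact SO_mul ha.target_mem hx

lemma J_HH {a b : Fin 3 → ℝ} (ha : a ≠ 0) (hb : b ≠ 0) : JoinedIn SO 1 (Hh a * Hh b) := by
  have h1 : JoinedIn ({0}ᶜ : Set (Fin 3 → ℝ)) a b :=
    (isPathConnected_compl_singleton_of_one_lt_rank (by simp) 0).joinedIn a ha b hb
  have := h1.map_continuousOn (f := fun v => Hh a * Hh v) (continuousOn_const.mul Hh_cont)
  rw [Hh_sq ha] at this
  refine this.mono ?_
  rintro _ ⟨v, hv, rfl⟩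
  rw [mem_SO]
  constructor
  · rw [transpose_mul, Hh_transpose, Hh_transpose, mul_assoc, ← mul_assoc (Hh a), Hh_sq ha,
      one_mul, Hh_sq hv]
  · rw [det_mul, Hh_det ha, Hh_det hv]; norm_num

def e0 : Fin 3 → ℝ := Pi.single 0 1
lemma e0_ne : e0 ≠ 0 := fun h => by simpa [e0] using congrFun h 0

def Q (ρ : M3) : Prop := JoinedIn SO 1 ρ ∨ JoinedIn SO 1 (Hh e0 * ρ)

lemma Q_H {ρ : M3} {a : Fin 3 → ℝ} (ha : a ≠ 0) (h : Q ρ) : Q (Hh a * ρ) := by
  rcases h with h | h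
  · right
    rw [← mul_assoc]
    exact J_mul (J_HH e0_ne ha) h
  · left
    have := J_mul (J_HH ha e0_ne) h
    rwa [mul_assoc, ← mul_assoc (Hh e0), Hh_sq e0_ne, one_mul] at this

lemma dot_orth {ρ : M3} (h : ρᵀ * ρ = 1) (x y : Fin 3 → ℝ) : (ρ *ᵥ x) ⬝ᵥ (ρ *ᵥ y) = x ⬝ᵥ y := by
  rw [dotProduct_mulVec, vecMul_mulVec, h, vecMul_one]

lemma Q_all (k : ℕ) : ∀ ρ : M3, ρᵀ * ρ = 1 →
    (∀ i : Fin 3, k ≤ i.val → ρ *ᵥ Pi.single i 1 = Pi.single i 1) → Q ρ := by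
  induction k with
  | zero =>
    intro ρ _ h
    have : ρ = 1 := Matrix.ext_of_mulVec_single fun i => by rw [h i (Nat.zero_le _), one_mulVec]
    rw [this]
    exact Or.inl (JoinedIn.refl (Matrix.specialOrthogonalGroup (Fin 3) ℝ).one_mem)
  | succ k ih =>
    intro ρ ho h
    by_cases hk : ∀ i : Fin 3, k ≤ i.val → ρ *ᵥ Pi.single i 1 = Pi.single i 1
    · exact ih ρ ho hk
    push Not at hk
    obtain ⟨i0, hi0, hne⟩ := hk
    have hi0' : i0.val = k := by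
      by_contra hc
      exact hne (h i0 (by omega))
    set e : Fin 3 → ℝ := Pi.single i0 1 with he
    set v := ρ *ᵥ e - e with hv
    have hv0 : v ≠ 0 := sub_ne_zero.mpr hne
    have hee : e ⬝ᵥ e = 1 := by simp [he]
    have hρe : (ρ *ᵥ e) ⬝ᵥ (ρ *ᵥ e) = 1 := by rw [dot_orth ho, hee]
    have h1 : Q (Hh v * ρ) := by
      refine ih _ ?_ fun i hi => ?_
      · rw [transpose_mul, Hh_transpose, mul_assoc, ← mul_assoc (Hh v), Hh_sq hv0, one_mul, ho]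
      · rw [← mulVec_mulVec, Hh_mulVec]
        by_cases hii : i = i0
        · rw [hii, ← he]
          have : 2 * (v ⬝ᵥ (ρ *ᵥ e)) / (v ⬝ᵥ v) = 1 := by
            rw [div_eq_one_iff_eq (dot_ne hv0), hv]
            simp only [sub_dotProduct, dotProduct_sub, hρe, hee, dotProduct_comm (ρ *ᵥ e) e]
            ring
          rw [this, one_smul, hv, sub_sub_cancel]
        · have h2 := h i (by
            have : i.val ≠ i0.val := fun h => hii (Fin.ext h)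
            omega)
          have h3 : e ⬝ᵥ Pi.single i 1 = 0 := by
            simp [he, Pi.single_eq_of_ne hii]
          have : v ⬝ᵥ (ρ *ᵥ Pi.single i 1) = 0 := by
            rw [hv, sub_dotProduct, dot_orth ho, h2, h3, sub_zero]
          rw [this, h2]; simp
    have := Q_H hv0 h1
    rwa [← mul_assoc, Hh_sq hv0, one_mul] at this

lemma SO_joined {ρ : M3} (h : ρ ∈ SO) : JoinedIn SO 1 ρ := by
  obtain ⟨h1, h2⟩ := mem_SO.mp h
  rcases Q_all 3 ρ h1 (fun i hi => absurd i.2 (by omega)) with h3 | h3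
  · exact h3
  · have := (mem_SO.mp h3.target_mem).2
    rw [det_mul, Hh_det e0_ne, h2] at this
    norm_num at this

lemma norm_sq_dot (v : E3) : ‖v‖ ^ 2 = v.ofLp ⬝ᵥ v.ofLp := by
  rw [EuclideanSpace.norm_sq_eq]
  simp [dotProduct, sq]

lemma norm_rot {ρ : M3} (h : ρᵀ * ρ = 1) (v : E3) : ‖Matrix.toEuclideanLin ρ v‖ = ‖v‖ := by
  have : ‖Matrix.toEuclideanLin ρ v‖ ^ 2 = ‖v‖ ^ 2 := by
    rw [norm_sq_dot, norm_sq_dot, ← dot_orth h v.ofLp v.ofLp]
    rfl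
  exact (pow_left_inj₀ (norm_nonneg _) (norm_nonneg _) two_ne_zero).mp this

/-- the unit ball with a small cap removed -/
def S : Set E3 := {v | ‖v‖ ≤ 1 ∧ v 0 ≤ 4 / 5}

def R : Fin 6 → M3 :=
  ![!![1, 0, 0; 0, 1, 0; 0, 0, 1], !![-1, 0, 0; 0, -1, 0; 0, 0, 1],
    !![0, 0, 1; 1, 0, 0; 0, 1, 0], !![0, 0, 1; -1, 0, 0; 0, -1, 0],
    !![0, 1, 0; 0, 0, 1; 1, 0, 0], !![0, -1, 0; 0, 0, 1; -1, 0, 0]]

lemma R_mem (j : Fin 6) : R j ∈ SO := by
  rw [mem_SO]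
  constructor
  · fin_cases j <;> (ext a b; fin_cases a <;> fin_cases b <;> simp [R, Matrix.mul_apply, Fin.sum_univ_three])
  · fin_cases j <;> simp [R, det_fin_three]

lemma R_caps (u : E3) (hu : ‖u‖ ≤ 1) (j j' : Fin 6) (h : 4 / 5 < ((R j)ᵀ *ᵥ u.ofLp) 0)
    (h' : 4 / 5 < ((R j')ᵀ *ᵥ u.ofLp) 0) : j = j' := by
  have h1 : u 0 * u 0 + u 1 * u 1 + u 2 * u 2 ≤ 1 := by
    have := norm_sq_dot u
    simp only [dotProduct, Fin.sum_univ_three] at this
    nlinarith [norm_nonneg u]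
  fin_cases j <;> fin_cases j' <;>
    simp [R, mulVec, dotProduct, Fin.sum_univ_three] at h h' ⊢ <;>
    nlinarith [mul_self_nonneg (u 0), mul_self_nonneg (u 1), mul_self_nonneg (u 2)]

lemma ball_in (K : Set E3) (hK : Convex ℝ K) (hc : IsCompact K)
    (h : ∀ ρ ∈ Matrix.specialOrthogonalGroup (Fin 3) ℝ, ∃ x : E3,
      (fun v => Matrix.toEuclideanLin ρ v + x) '' S ⊆ K) :
    ∃ c : E3, ∀ u : E3, ‖u‖ ≤ 1 → u + c ∈ K := by
  have := Convex.helly_theorem_compact' (𝕜 := ℝ) (E := E3) (ι := {u : E3 // ‖u‖ ≤ 1})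
    (F := fun u => (fun x => u.1 + x) ⁻¹' K) (fun u => hK.translate_preimage_right _)
    (fun u => (Homeomorph.addLeft u.1).isCompact_preimage.mpr hc) ?_
  · obtain ⟨c, hc⟩ := this
    exact ⟨c, fun u hu => mem_iInter.mp hc ⟨u, hu⟩⟩
  · intro I hI
    have hj : ∃ j : Fin 6, ∀ u ∈ I, ((R j)ᵀ *ᵥ u.1.ofLp) 0 ≤ 4 / 5 := by
      by_contra hcon
      push Not at hcon
      choose f hf hf' using hcon
      have := Finset.card_le_card_of_injOn (s := Finset.univ) (t := I) f (fun j _ => hf j)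
        (fun j _ j' _ e => R_caps (f j).1 (f j).2 j j' (hf' j) (e ▸ hf' j'))
      simp at this hI
      omega
    obtain ⟨j, hj⟩ := hj
    obtain ⟨x, hx⟩ := h (R j) (R_mem j)
    refine ⟨x, mem_iInter₂.mpr fun u hu => hx ⟨Matrix.toEuclideanLin (R j)ᵀ u.1, ⟨?_, hj u hu⟩, ?_⟩⟩
    · rw [norm_rot (by rw [transpose_transpose]; exact mul_eq_one_comm.mp (mem_SO.mp (R_mem j)).1)]
      exact u.2
    · have : Matrix.toEuclideanLin (R j) (Matrix.toEuclideanLin (R j)ᵀ u.1) = u.1 := by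
        apply WithLp.ofLp_injective 2
        change R j *ᵥ ((R j)ᵀ *ᵥ u.1.ofLp) = u.1.ofLp
        rw [mulVec_mulVec, mul_eq_one_comm.mp (mem_SO.mp (R_mem j)).1, one_mulVec]
      simp only [this]

lemma S_convex : Convex ℝ S := by
  have : S = Metric.closedBall (0 : E3) 1 ∩ {v : E3 | (EuclideanSpace.proj (0 : Fin 3) : E3 →L[ℝ] ℝ) v ≤ 4 / 5} := by
    ext v; simp [S]
  rw [this]
  exact (convex_closedBall _ _).inter (convex_halfSpace_le (LinearMap.isLinear _) _)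

lemma S_compact : IsCompact S := by
  have : S = Metric.closedBall (0 : E3) 1 ∩ {v : E3 | v 0 ≤ 4 / 5} := by
    ext v; simp [S]
  rw [this]
  exact (isCompact_closedBall _ _).inter_right (isClosed_le (by fun_prop) continuous_const)

lemma mem1 : EuclideanSpace.single (1 : Fin 3) (1 : ℝ) ∈ S := by simp [S]; norm_num
lemma mem1' : EuclideanSpace.single (1 : Fin 3) (-1 : ℝ) ∈ S := by simp [S]; norm_num
lemma mem2 : EuclideanSpace.single (2 : Fin 3) (1 : ℝ) ∈ S := by simp [S]; norm_num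

lemma not_pt : ¬ ∃ a : E3, S = {a} := by
  rintro ⟨a, h⟩
  have h1 := mem1
  have h2 := mem2
  rw [h, mem_singleton_iff] at h1 h2
  have := congrArg (fun v : E3 => v 1) (h1.trans h2.symm)
  simp at this

lemma not_seg : ¬ ∃ a b : E3, a ≠ b ∧ S = segment ℝ a b := by
  rintro ⟨a, b, -, h⟩
  have h1 := mem1
  have h2 := mem1'
  have h3 := mem2
  rw [h, segment_eq_image'] at h1 h2 h3
  obtain ⟨t1, -, h1⟩ := h1
  obtain ⟨t2, -, h2⟩ := h2
  obtain ⟨t3, -, h3⟩ := h3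
  have a1 := congrArg (fun v : E3 => v 1) h1
  have a2 := congrArg (fun v : E3 => v 1) h2
  have b1 := congrArg (fun v : E3 => v 2) h1
  have b2 := congrArg (fun v : E3 => v 2) h2
  have b3 := congrArg (fun v : E3 => v 2) h3
  simp at a1 a2 b1 b2 b3
  have c1 : (t1 - t2) * (b 1 - a 1) = 2 := by linarith
  have c2 : (t1 - t2) * (b 2 - a 2) = 0 := by linarith
  rcases mul_eq_zero.mp c2 with c | c
  · rw [c] at c1; norm_num at c1
  · rw [c] at b1 b3; linarith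

lemma not_ball : ¬ ∃ (c : E3) (r : ℝ), 0 < r ∧ S = Metric.closedBall c r := by
  rintro ⟨c, r, hr, h⟩
  have h1 := mem1
  have h2 := mem1'
  rw [h, Metric.mem_closedBall] at h1 h2
  have h3 := dist_triangle_right (EuclideanSpace.single (1 : Fin 3) (1 : ℝ))
    (EuclideanSpace.single (1 : Fin 3) (-1 : ℝ)) c
  rw [EuclideanSpace.dist_single_same] at h3
  have h4 : c + EuclideanSpace.single (0 : Fin 3) r ∈ S := by
    rw [h]; simp [abs_of_pos hr]
  have h5 : c - EuclideanSpace.single (0 : Fin 3) r ∈ S := by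
    rw [h]; simp [abs_of_pos hr]
  have h6 := h4.2
  have h7 := (PiLp.norm_apply_le (c - EuclideanSpace.single (0 : Fin 3) r) 0).trans h5.1
  simp at h6 h7
  rw [abs_le] at h7
  norm_num [Real.dist_eq] at h3
  linarith [h7.1]

theorem rot (K : Set E3) (hK : Convex ℝ K) (hc : IsCompact K)
    (h : ∀ ρ ∈ Matrix.specialOrthogonalGroup (Fin 3) ℝ, ∃ x : E3,
      (fun v => Matrix.toEuclideanLin ρ v + x) '' S ⊆ K)
    (ρ₀ ρ₁ : M3) (x₀ x₁ : E3) (h0 : ρ₀ ∈ Matrix.specialOrthogonalGroup (Fin 3) ℝ)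
    (h1 : ρ₁ ∈ Matrix.specialOrthogonalGroup (Fin 3) ℝ)
    (k0 : (fun v => Matrix.toEuclideanLin ρ₀ v + x₀) '' S ⊆ K)
    (k1 : (fun v => Matrix.toEuclideanLin ρ₁ v + x₁) '' S ⊆ K) :
    ∃ γ : ℝ → M3, ∃ δ : ℝ → E3, Continuous γ ∧ Continuous δ ∧
      γ 0 = ρ₀ ∧ γ 1 = ρ₁ ∧ δ 0 = x₀ ∧ δ 1 = x₁ ∧
      ∀ t ∈ Set.Icc (0 : ℝ) 1, γ t ∈ Matrix.specialOrthogonalGroup (Fin 3) ℝ ∧
        (fun v => Matrix.toEuclideanLin (γ t) v + δ t) '' S ⊆ K := by
  obtain ⟨c, hcK⟩ := ball_in K hK hc h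
  let X : Set (M3 × E3) := {p | p.1 ∈ SO ∧ (fun v => Matrix.toEuclideanLin p.1 v + p.2) '' S ⊆ K}
  have hc1 : ∀ ρ ∈ SO, (ρ, c) ∈ X := by
    intro ρ hρ
    refine ⟨hρ, ?_⟩
    rintro _ ⟨v, hv, rfl⟩
    exact hcK _ (by rw [norm_rot (mem_SO.mp hρ).1]; exact hv.1)
  have hj : ∀ ρ x, (ρ, x) ∈ X → JoinedIn X (1, c) (ρ, x) := by
    intro ρ x hx
    have a1 : JoinedIn X (1, c) (ρ, c) := by
      refine ((SO_joined hx.1).map (f := fun a => (a, c)) (by fun_prop)).mono ?_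
      rintro _ ⟨a, ha, rfl⟩
      exact hc1 a ha
    have a2 : JoinedIn X (ρ, c) (ρ, x) := by
      have hconv : Convex ℝ {y : E3 | (ρ, y) ∈ X} := by
        have : {y : E3 | (ρ, y) ∈ X} = ⋂ v ∈ S, (fun y => Matrix.toEuclideanLin ρ v + y) ⁻¹' K := by
          ext y
          simp only [X, mem_ofPred_eq, hx.1, true_and, image_subset_iff, mem_iInter]
          rfl
        rw [this]
        exact convex_iInter₂ fun v _ => hK.translate_preimage_right _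
      have := (hconv.isPathConnected ⟨x, hx⟩).joinedIn c (hc1 ρ hx.1) x hx
      refine (this.map (f := fun y => (ρ, y)) (by fun_prop)).mono ?_
      rintro _ ⟨y, hy, rfl⟩
      exact hy
    exact a1.trans a2
  obtain ⟨p, hp⟩ := (hj ρ₀ x₀ ⟨h0, k0⟩).symm.trans (hj ρ₁ x₁ ⟨h1, k1⟩)
  refine ⟨fun t => (p.extend t).1, fun t => (p.extend t).2, by fun_prop, by fun_prop,
    by simp, by simp, by simp, by simp, fun t ht => ?_⟩
  have := hp ⟨t, ht⟩
  rw [← p.extend_apply ht] at this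
  exact this

end Pool.Agent.H10.Kakeya
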