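import Mathlib

namespace Pool.Agent.H10.Lamp
open LaurentPolynomial Filter
open scoped commutatorElement

abbrev V : Type := LaurentPolynomial (ZMod 2)

/-- central extensions of the lamplighter group with lamp group the Klein four group -/
@[ext] structure G {A : Type} [AddCommGroup A] (B : V →+ A) where
  v : V
  w : V
  x : A
  k : ℤ

variable {A : Type} [AddCommGroup A] {B : V →+ A}

theorem TT (k : ℤ) : (T (-k) : V) * T k = 1 := by rw [← T_add]; simp

noncomputable instance : Mul (G B) := ⟨fun g h => ⟨g.v + T g.k * h.v, g.w + T g.k * h.w,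
  g.x + h.x + B (invert g.v * (T g.k * h.w)), g.k + h.k⟩⟩
noncomputable instance : One (G B) := ⟨⟨0, 0, 0, 0⟩⟩
noncomputable instance : Inv (G B) :=
  ⟨fun g => ⟨-(T (-g.k) * g.v), -(T (-g.k) * g.w), -g.x + B (invert g.v * g.w), -g.k⟩⟩

@[simp] theorem mul_v (g h : G B) : (g * h).v = g.v + T g.k * h.v := rfl
@[simp] theorem mul_w (g h : G B) : (g * h).w = g.w + T g.k * h.w := rfl
@[simp] theorem mul_x (g h : G B) :
    (g * h).x = g.x + h.x + B (invert g.v * (T g.k * h.w)) := rfl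
@[simp] theorem mul_k (g h : G B) : (g * h).k = g.k + h.k := rfl
@[simp] theorem one_v : (1 : G B).v = 0 := rfl
@[simp] theorem one_w : (1 : G B).w = 0 := rfl
@[simp] theorem one_x : (1 : G B).x = 0 := rfl
@[simp] theorem one_k : (1 : G B).k = 0 := rfl
@[simp] theorem inv_v (g : G B) : g⁻¹.v = -(T (-g.k) * g.v) := rfl
@[simp] theorem inv_w (g : G B) : g⁻¹.w = -(T (-g.k) * g.w) := rfl
@[simp] theorem inv_x (g : G B) : g⁻¹.x = -g.x + B (invert g.v * g.w) := rfl
@[simp] theorem inv_k (g : G B) : g⁻¹.k = -g.k := rfl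

noncomputable instance : Group (G B) := Group.ofLeftAxioms
  (fun a b c => by
    have := TT a.k
    ext1
    · simp only [mul_v, mul_k, T_add]; ring
    · simp only [mul_w, mul_k, T_add]; ring
    · simp only [mul_v, mul_w, mul_k, mul_x, T_add, map_add, map_mul, invert_T]
      have e : (invert a.v + T (-a.k) * invert b.v) * (T a.k * T b.k * c.w) =
          invert b.v * (T b.k * c.w) + invert a.v * (T a.k * (T b.k * c.w)) := by
        linear_combination (invert b.v * T b.k * c.w) * this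
      rw [e, mul_add, mul_add, map_add, map_add]; abel
    · simp [add_assoc])
  (fun a => by ext1 <;> simp)
  (fun a => by
    have := TT a.k
    ext1
    · simp
    · simp
    · simp only [mul_x, inv_x, inv_v, inv_k, map_neg, map_mul, invert_T, neg_neg, one_x]
      have e : -(T a.k * invert a.v) * (T (-a.k) * a.w) = -(invert a.v * a.w) := by
        linear_combination (-invert a.v * a.w) * this
      rw [e, map_neg]; abel
    · simp)

theorem comm (g h : G B) (g1 : g.w = 0) (g2 : g.k = 0) (h1 : h.v = 0) (h2 : h.k = 0) :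
    ⁅g, h⁆ = ⟨0, 0, B (invert g.v * h.w), 0⟩ := by
  ext1 <;> simp [commutatorElement_def, *]
  abel

noncomputable def kH : G B →* Multiplicative ℤ := .mk' (fun g => .ofAdd g.k) fun _ _ => rfl

theorem zpow_k (g : G B) (n : ℤ) : (g ^ n).k = n * g.k := by
  simpa [kH] using congrArg Multiplicative.toAdd (map_zpow (kH (B := B)) g n)

/-- the lamplighter group -/
abbrev L : Type := G (0 : V →+ PUnit)

/-- the quotient map -/
noncomputable def pr : G B →* L := .mk' (fun g => ⟨g.v, g.w, 0, g.k⟩) fun _ _ => rfl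

noncomputable def gen (B : V →+ A) : Fin 3 → G B := ![⟨0, 0, 0, 1⟩, ⟨1, 0, 0, 0⟩, ⟨0, 1, 0, 0⟩]

theorem ind {P : V → Prop} (h0 : P 0) (ha : ∀ p q, P p → P q → P (p + q)) (hT : ∀ n, P (T n))
    (v : V) : P v := by
  induction v using LaurentPolynomial.induction_on' with
  | add p q hp hq => exact ha p q hp hq
  | C_mul_T n c =>
    have : c = 0 ∨ c = 1 := by revert c; decide
    rcases this with rfl | rfl
    · simpa using h0
    · simpa using hT n

theorem tpow (n : ℤ) : gen B 0 ^ n = ⟨0, 0, 0, n⟩ := by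
  induction n using Int.induction_on with
  | zero => rfl
  | succ n ih => rw [zpow_add_one, ih]; ext1 <;> simp [gen]
  | pred n ih => rw [zpow_sub_one, ih]; ext1 <;> simp [gen, sub_eq_add_neg]

theorem gen_top (C : Subgroup (G B)) (h : ∀ i, gen B i ∈ C) (hz : ∀ x, ⟨0, 0, x, 0⟩ ∈ C) :
    C = ⊤ := by
  have t : ∀ n, ⟨0, 0, 0, n⟩ ∈ C := fun n => tpow (B := B) n ▸ zpow_mem (h 0) n
  have a : ∀ v, ⟨v, 0, 0, 0⟩ ∈ C := ind (one_mem C)
    (fun p q hp hq => by convert mul_mem hp hq using 1; ext1 <;> simp)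
    fun n => by convert mul_mem (mul_mem (t n) (h 1)) (inv_mem (t n)) using 1; ext1 <;> simp [gen]
  have b : ∀ v, ⟨0, v, 0, 0⟩ ∈ C := ind (one_mem C)
    (fun p q hp hq => by convert mul_mem hp hq using 1; ext1 <;> simp)
    fun n => by convert mul_mem (mul_mem (t n) (h 2)) (inv_mem (t n)) using 1; ext1 <;> simp [gen]
  refine top_unique fun g _ => ?_
  convert mul_mem (mul_mem (mul_mem (b g.w) (a g.v)) (hz g.x)) (t g.k) using 1
  ext1 <;> simp

/-- the standard marking of the lamplighter group is determined by two relations -/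
theorem rigid (f : FreeGroup (Fin 3) →* L) (hf : Function.Surjective f)
    (h1 : f (.of 1) ^ 2 = 1) (h2 : f (.of 2) ^ 2 = 1) : f.ker = (FreeGroup.lift (gen 0) : _ →* L).ker := by
  have k1 : (f (.of 1)).k = 0 := by have := congrArg G.k h1; simp [sq] at this; omega
  have k2 : (f (.of 2)).k = 0 := by have := congrArg G.k h2; simp [sq] at this; omega
  set s := f (.of 0) with hs
  have dv : ∀ w, s.k ∣ (f w).k := fun w => by
    induction w using FreeGroup.induction_on with
    | C1 => simp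
    | of i => fin_cases i <;> simp [k1, k2, hs]
    | inv_of i h => simpa using h
    | mul x y hx hy => simpa using hx.add hy
  obtain ⟨σ, hσ⟩ : ∃ σ : V ≃+* V, ∀ n, σ (T n) = T (n * s.k) := by
    obtain ⟨w, hw⟩ := hf (gen 0 0)
    have := dv w
    rw [hw] at this
    rcases Int.isUnit_iff.1 (isUnit_of_dvd_one this) with h | h
    · exact ⟨.refl _, by simp [h]⟩
    · exact ⟨invert.toRingEquiv, by simp [h]⟩
  have k0 : s.k ≠ 0 := fun h => by
    have := congrArg (fun f : V => f.coeff 0) (σ.injective ((hσ 1).trans (by simp [h]) : _ = σ 1))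
    simp at this
  let Ψ : V × V →ₗ[V] V × V := .coprod (.toSpanSingleton _ _ ((f (.of 1)).v, (f (.of 1)).w))
    (.toSpanSingleton _ _ ((f (.of 2)).v, (f (.of 2)).w))
  let φ : L →* L := .mk' (fun g => ⟨(Ψ (σ g.v, σ g.w)).1, (Ψ (σ g.v, σ g.w)).2, 0, 0⟩ * s ^ g.k)
    fun g h => by
      ext1
      · simp [Ψ, zpow_add, zpow_k, hσ, -T_mul]; ring
      · simp [Ψ, zpow_add, zpow_k, hσ, -T_mul]; ring
      · rfl
      · simp [zpow_add]
  have e : φ.comp (FreeGroup.lift (gen 0)) = f := FreeGroup.ext_hom _ _ fun i => by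
    fin_cases i <;> ext1 <;> simp [φ, Ψ, gen, k1, k2, hs]
  have hΨ : Function.Injective Ψ := OrzechProperty.injective_of_surjective_endomorphism _ fun m => by
    obtain ⟨w, hw⟩ := hf ⟨m.1, m.2, 0, 0⟩
    rw [← e, MonoidHom.comp_apply] at hw
    generalize (FreeGroup.lift (gen 0) : _ →* L) w = g at hw
    have g0 : g.k = 0 := by simpa [φ, zpow_k, k0] using congrArg G.k hw
    exact ⟨(σ g.v, σ g.w), Prod.ext (by simpa [φ, g0] using congrArg G.v hw)
      (by simpa [φ, g0] using congrArg G.w hw)⟩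
  rw [← e]
  refine MonoidHom.ker_comp_of_injective _ _ ((injective_iff_map_eq_one φ).2 fun g hg => ?_)
  have g0 : g.k = 0 := by simpa [φ, zpow_k, k0] using congrArg G.k hg
  have : (σ g.v, σ g.w) = 0 := hΨ (by
    rw [map_zero]
    exact Prod.ext (by simpa [φ, g0] using congrArg G.v hg) (by simpa [φ, g0] using congrArg G.w hg))
  simp only [Prod.mk_eq_zero, EmbeddingLike.map_eq_zero_iff] at this
  exact G.ext this.1 this.2 rfl g0

open Classical in
/-- parity of the two-adic valuation -/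
noncomputable def m (j : ℤ) : ZMod 2 := if ∃ e, 2 ^ (2 * e + 1) ∣ j ∧ ¬ 2 ^ (2 * e + 2) ∣ j then 1 else 0

theorem m_pow (k : ℕ) : m (2 ^ (2 * k)) = 0 ∧ m (2 ^ (2 * k) + 2 ^ (2 * k)) = 1 := by
  have d : ∀ a b : ℕ, (2 : ℤ) ^ a ∣ 2 ^ b ↔ a ≤ b := fun a b =>
    pow_dvd_pow_iff two_ne_zero (by decide)
  refine ⟨if_neg fun ⟨e, h1, h2⟩ => ?_, if_pos ⟨k, ?_⟩⟩
  · rw [d] at h1 h2; omega
  · rw [← two_mul, ← pow_succ', d, d]; omega

theorem m_rec (j : ℤ) : ∀ᶠ k in atTop, m (j + 2 ^ (2 * k)) = m j := by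
  rcases eq_or_ne j 0 with rfl | j0
  · exact .of_forall fun k => by rw [zero_add, (m_pow k).1]; simp [m]
  filter_upwards [eventually_ge_atTop j.natAbs] with k hk
  have h1 : ¬ 2 ^ (2 * k) ∣ j := fun h => j0 (Int.eq_zero_of_abs_lt_dvd h (by
    have : ((2 * k : ℕ) : ℤ) < 2 ^ (2 * k) := by exact_mod_cast Nat.lt_two_pow_self (n := 2 * k)
    rw [Int.abs_eq_natAbs]
    omega))
  have : ∀ r, 2 ^ r ∣ j + 2 ^ (2 * k) ↔ 2 ^ r ∣ j := fun r => by
    rcases le_total r (2 * k) with h | h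
    · exact dvd_add_left (pow_dvd_pow _ h)
    · exact iff_of_false (fun h2 => h1 ((dvd_add_left dvd_rfl).1 ((pow_dvd_pow _ h).trans h2)))
        fun h2 => h1 ((pow_dvd_pow _ h).trans h2)
  classical
  exact if_congr (by simp only [this]) rfl rfl

noncomputable def Bm : V →+ ZMod 2 :=
  ((AddMonoidAlgebra.basis ℤ (ZMod 2)).constr (ZMod 2) m).toAddMonoidHom

theorem Bm_T (j : ℤ) : Bm (T j) = m j := (AddMonoidAlgebra.basis ℤ (ZMod 2)).constr_basis (ZMod 2) _ j

theorem Bm_rec : ∀ v : V, ∀ᶠ k in atTop, Bm (T (2 ^ (2 * k)) * v) = Bm v :=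
  ind (by simp) (fun p q hp hq => by
    filter_upwards [hp, hq] with k h1 h2
    rw [mul_add, map_add, map_add, h1, h2]) fun n => by
      simpa only [← T_add, Bm_T, add_comm _ n] using m_rec n

/-- every marking of `G Bm` is a limit of other markings -/
theorem lim {n : ℕ} (f : FreeGroup (Fin n) →* G Bm) (hf : Function.Surjective f) :
    ∃ F : ℕ → FreeGroup (Fin n) →* G Bm, (∀ k, Function.Surjective (F k) ∧
      ∃ w, f w = 1 ∧ F k w ≠ 1) ∧ ∀ w, ∀ᶠ k in atTop, (F k w = 1 ↔ f w = 1) := by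
  let F : ℕ → FreeGroup (Fin n) →* G Bm := fun k => FreeGroup.lift fun i =>
    ⟨(f (.of i)).v, T (2 ^ (2 * k)) * (f (.of i)).w, (f (.of i)).x, (f (.of i)).k⟩
  have h : ∀ w, (∀ k, (F k w).v = (f w).v ∧ (F k w).w = T (2 ^ (2 * k)) * (f w).w ∧
      (F k w).k = (f w).k) ∧ ∀ᶠ k in atTop, (F k w).x = (f w).x := fun w => by
    induction w using FreeGroup.induction_on with
    | C1 => simp
    | of i => simp [F]
    | inv_of i h =>
      refine ⟨fun k => by simp [h.1 k, -T_mul, mul_left_comm], ?_⟩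
      filter_upwards [h.2, Bm_rec (invert (f (.of i)).v * (f (.of i)).w)] with k h1 h2
      simp only [map_inv, inv_x, h1, h.1 k, mul_left_comm _ (T (2 ^ (2 * k))), h2]
    | mul x y hx hy =>
      refine ⟨fun k => by simp [hx.1 k, hy.1 k, -T_mul, mul_left_comm, mul_add], ?_⟩
      filter_upwards [hx.2, hy.2, Bm_rec (invert (f x).v * (T (f x).k * (f y).w))] with k h1 h2 h3
      simp only [map_mul, mul_x, h1, h2, hx.1 k, hy.1 k, mul_left_comm _ (T (2 ^ (2 * k))), h3]
  refine ⟨F, fun k => ?_, fun w => (h w).2.mono fun k hk => ?_⟩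
  · obtain ⟨a, ha⟩ := hf ⟨1, 0, 0, 0⟩
    obtain ⟨b, hb⟩ := hf ⟨0, T (2 ^ (2 * k)), 0, 0⟩
    have c : F k ⁅a, b⁆ = ⟨0, 0, 1, 0⟩ := by
      rw [map_commutatorElement, comm] <;> simp [(h _).1 k, ha, hb, ← T_add, Bm_T, m_pow, -T_mul]
    refine ⟨fun g => ?_, ⁅a, b⁆, ?_, fun e => ?_⟩
    · obtain ⟨w, hw⟩ := hf ⟨g.v, T (-2 ^ (2 * k)) * g.w, 0, g.k⟩
      have : (F k w).x = g.x ∨ (F k w).x + 1 = g.x := by
        generalize (F k w).x = p, g.x = q; revert p q; decide
      have t : T (2 ^ (2 * k)) * (T (-2 ^ (2 * k)) * g.w) = g.w := by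
        rw [← mul_assoc, mul_comm (T _), TT, one_mul]
      rcases this with e | e
      · exact ⟨w, by ext1 <;> simp [(h _).1 k, hw, e, t, -T_mul]⟩
      · exact ⟨w * ⁅a, b⁆, by rw [map_mul, c]; ext1 <;> simp [(h _).1 k, hw, e, t, -T_mul]⟩
    · rw [map_commutatorElement, comm] <;> simp [ha, hb, Bm_T, m_pow]; rfl
    · simpa [c] using congrArg G.x e
  · simp [G.ext_iff, (h w).1 k, hk, (isUnit_T _).mul_right_eq_zero, -T_mul]

end Pool.Agent.H10.Lamp
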