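import Pool.Agent.H10.Defin

open FirstOrder FirstOrder.Language

namespace Pool.Agent.H10.LieHom
open Pool.Agent.H10.Defin

variable {K : Type} [Field K]

/-- the Heisenberg Lie algebra -/
def Heis (K : Type) : Type := K × K × K

instance : AddCommGroup (Heis K) := inferInstanceAs (AddCommGroup (K × K × K))
instance : Module K (Heis K) := inferInstanceAs (Module K (K × K × K))
instance : Bracket (Heis K) (Heis K) :=
  ⟨fun a b => ((0, 0, a.1 * b.2.1 - a.2.1 * b.1) : K × K × K)⟩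
theorem Heis.ext' {a b : Heis K} (h1 : a.1 = b.1) (h2 : a.2.1 = b.2.1) (h3 : a.2.2 = b.2.2) :
    a = b := Prod.ext h1 (Prod.ext h2 h3)
@[simp] theorem Heis.br1 (a b : Heis K) : ⁅a, b⁆.1 = 0 := rfl
@[simp] theorem Heis.br2 (a b : Heis K) : ⁅a, b⁆.2.1 = 0 := rfl
@[simp] theorem Heis.br3 (a b : Heis K) : ⁅a, b⁆.2.2 = a.1 * b.2.1 - a.2.1 * b.1 := rfl
@[simp] theorem Heis.add1 (a b : Heis K) : (a + b).1 = a.1 + b.1 := rfl
@[simp] theorem Heis.add2 (a b : Heis K) : (a + b).2.1 = a.2.1 + b.2.1 := rfl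
@[simp] theorem Heis.add3 (a b : Heis K) : (a + b).2.2 = a.2.2 + b.2.2 := rfl
@[simp] theorem Heis.smul1 (c : K) (b : Heis K) : (c • b).1 = c * b.1 := rfl
@[simp] theorem Heis.smul2 (c : K) (b : Heis K) : (c • b).2.1 = c * b.2.1 := rfl
@[simp] theorem Heis.smul3 (c : K) (b : Heis K) : (c • b).2.2 = c * b.2.2 := rfl
@[simp] theorem Heis.zero1 : (0 : Heis K).1 = 0 := rfl
@[simp] theorem Heis.zero2 : (0 : Heis K).2.1 = 0 := rfl
@[simp] theorem Heis.zero3 : (0 : Heis K).2.2 = 0 := rfl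

instance : LieRing (Heis K) where
  add_lie a b c := Heis.ext' (by simp) (by simp) (by simp; ring)
  lie_add a b c := Heis.ext' (by simp) (by simp) (by simp; ring)
  lie_self a := Heis.ext' (by simp) (by simp) (by simp; ring)
  leibniz_lie a b c := Heis.ext' (by simp) (by simp) (by simp)

instance : LieAlgebra K (Heis K) where
  lie_smul t a b := Heis.ext' (by simp) (by simp) (by simp; ring)

theorem Heis.triple (a b c : Heis K) : ⁅⁅a, b⁆, c⁆ = 0 :=
  Heis.ext' rfl rfl (by rw [Heis.br3, Heis.br1, Heis.br2]; simp)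

variable {H : Type} [LieRing H] [LieAlgebra K H] {r : ℕ} {x : Fin r → H}

/-- the span of all brackets -/
def sq (K H : Type) [Field K] [LieRing H] [LieAlgebra K H] : Submodule K H :=
  Submodule.span K {c | ∃ a b : H, c = ⁅a, b⁆}

theorem mem_sq (a b : H) : ⁅a, b⁆ ∈ sq K H := Submodule.subset_span ⟨a, b, rfl⟩

/-- `x` generates -/
def Gens (K : Type) [Field K] {H : Type} [LieRing H] [LieAlgebra K H] {ι : Type} (x : ι → H) :
    Prop := ∀ S : LieSubalgebra K H, (∀ i, x i ∈ S) → ∀ a, a ∈ S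

theorem Gens.ind {ι : Type} {x : ι → H} (hx : Gens K x) (S : Submodule K H) (h1 : ∀ i, x i ∈ S)
    (h2 : ∀ a ∈ S, ∀ b ∈ S, ⁅a, b⁆ ∈ S) (a : H) : a ∈ S :=
  hx { S with lie_mem' := fun ha hb => h2 _ ha _ hb } h1 a

theorem Gens.ideal {ι : Type} {x : ι → H} (hx : Gens K x) (N : Submodule K H)
    (h : ∀ i, ∀ b ∈ N, ⁅x i, b⁆ ∈ N) (a : H) : ∀ b ∈ N, ⁅a, b⁆ ∈ N := by
  refine hx.ind
    { carrier := {a | ∀ b ∈ N, ⁅a, b⁆ ∈ N}
      add_mem' := fun hp hq b hb => by rw [add_lie]; exact N.add_mem (hp b hb) (hq b hb)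
      zero_mem' := fun b _ => by simp
      smul_mem' := fun c p hp b hb => by rw [smul_lie]; exact N.smul_mem _ (hp b hb) } h
    (fun p hp q hq b hb => ?_) a
  rw [lie_lie]
  exact N.sub_mem (hp _ (hq b hb)) (hq _ (hp b hb))

theorem sq_eq (hx : Gens K x) {h : H} (hh : h ∈ sq K H) :
    ∃ w : Fin r → H, h = ∑ j, ⁅x j, w j⁆ := by
  let N : Submodule K H :=
    { carrier := {h | ∃ w : Fin r → H, h = ∑ j, ⁅x j, w j⁆}
      add_mem' := by
        rintro _ _ ⟨v, rfl⟩ ⟨w, rfl⟩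
        exact ⟨v + w, by simp [Finset.sum_add_distrib]⟩
      zero_mem' := ⟨0, by simp⟩
      smul_mem' := by
        rintro c _ ⟨w, rfl⟩
        exact ⟨c • w, by simp [Finset.smul_sum]⟩ }
  have : ∀ a b : H, ⁅a, b⁆ ∈ N := by
    intro a
    refine hx.ind
      { carrier := {a | ∀ b, ⁅a, b⁆ ∈ N}
        add_mem' := fun hp hq b => by rw [add_lie]; exact N.add_mem (hp b) (hq b)
        zero_mem' := fun b => by simp
        smul_mem' := fun c p hp b => by rw [smul_lie]; exact N.smul_mem _ (hp b) }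
      (fun i b => ⟨Pi.single i b, ?_⟩) (fun p hp q hq b => ?_) a
    · rw [Finset.sum_eq_single i] <;> simp +contextual [Pi.single_apply]
    · rw [lie_lie]
      exact N.sub_mem (hp _) (hq _)
  exact (Submodule.span_le.2 (by rintro _ ⟨a, b, rfl⟩; exact this a b) : sq K H ≤ N) hh

theorem lin (hx : Gens K x) (a : H) : ∃ c : Fin r → K, a - ∑ i, c i • x i ∈ sq K H := by
  have := hx.ind (Submodule.span K (Set.range x) ⊔ sq K H)
    (fun i => Submodule.mem_sup_left (Submodule.subset_span ⟨i, rfl⟩))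
    (fun p _ q _ => Submodule.mem_sup_right (mem_sq p q)) a
  obtain ⟨s, hs, t, ht, rfl⟩ := Submodule.mem_sup.1 this
  obtain ⟨c, rfl⟩ := (Submodule.mem_span_range_iff_exists_fun K).1 hs
  exact ⟨c, by simpa using ht⟩

def D3 (r : ℕ) (c : H) : Prop := ∃ u v t : Fin r → H, c = ∑ j, ⁅⁅u j, v j⁆, t j⁆

def G (y : Fin r → H) : Prop :=
  (∀ i, ∃ w : H, ¬ D3 r ⁅y i, w⁆) ∧ ∀ a : H, ∃ z : Fin r → H, a = ∑ i, z i ∧ ∀ i, D3 r ⁅z i, y i⁆

theorem D3_of_sq (hx : Gens K x) {h : H} (hh : h ∈ sq K H) (w : H) : D3 r ⁅h, w⁆ := by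
  obtain ⟨v, rfl⟩ := sq_eq hx hh
  exact ⟨x, v, fun _ => w, by rw [sum_lie]⟩

theorem D3_heis (ψ : H →ₗ⁅K⁆ Heis K) {c : H} (hc : D3 r c) : ψ c = 0 := by
  obtain ⟨u, v, t, rfl⟩ := hc
  rw [map_sum]
  exact Finset.sum_eq_zero fun j _ => by rw [LieHom.map_lie, LieHom.map_lie, Heis.triple]

/-- maps of the generators into the Heisenberg algebra extend -/
def HL (K : Type) [Field K] {H : Type} [LieRing H] [LieAlgebra K H] {r : ℕ} (x : Fin r → H) :
    Prop := ∀ f : Fin r → Heis K, ∃ ψ : H →ₗ⁅K⁆ Heis K, ∀ i, ψ (x i) = f i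

theorem G_self (hr : 2 ≤ r) (hx : Gens K x) (hl : HL K x) : G x := by
  classical
  refine ⟨fun i => ?_, fun a => ?_⟩
  · haveI : Nontrivial (Fin r) := Fin.nontrivial_iff_two_le.2 hr
    obtain ⟨j, hj⟩ := exists_ne i
    obtain ⟨ψ, hψ⟩ := hl fun l => if l = i then ((1, 0, 0) : K × K × K) else ((0, 1, 0) : K × K × K)
    refine ⟨x j, fun h => ?_⟩
    have := congrArg (fun a : Heis K => a.2.2) (D3_heis ψ h)
    simp [LieHom.map_lie, hψ, hj] at this
  · obtain ⟨c, hc⟩ := lin hx a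
    let i0 : Fin r := ⟨0, by omega⟩
    refine ⟨fun i => c i • x i + if i = i0 then a - ∑ i, c i • x i else 0, ?_, fun i => ?_⟩
    · simp [Finset.sum_add_distrib]
    · rw [add_lie, smul_lie, lie_self, smul_zero, zero_add]
      refine D3_of_sq hx ?_ _
      split_ifs
      · exact hc
      · exact zero_mem _

theorem G_sound (hx : Gens K x) (hl : HL K x) {y : Fin r → H} (hy : G y) (a : H) :
    a ∈ Submodule.span K (Set.range y) ⊔ sq K H := by
  obtain ⟨z, rfl, hz⟩ := hy.2 a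
  refine Submodule.sum_mem _ fun i _ => ?_
  by_contra hne
  obtain ⟨l2, hl2, hk2⟩ := Submodule.exists_le_ker_of_notMem hne
  have hyi : y i ∉ sq K H := fun h => by
    obtain ⟨w, hw⟩ := hy.1 i
    exact hw (D3_of_sq hx h w)
  obtain ⟨l1, hl1, hk1⟩ := Submodule.exists_le_ker_of_notMem hyi
  obtain ⟨ψ, hψ⟩ := hl fun l => ((l1 (x l), l2 (x l), 0) : K × K × K)
  have key : ∀ a, (ψ a).1 = l1 a ∧ (ψ a).2.1 = l2 a := fun a =>
    hx.ind
      { carrier := {a | (ψ a).1 = l1 a ∧ (ψ a).2.1 = l2 a}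
        add_mem' := fun hp hq => by simp [hp.1, hp.2, hq.1, hq.2]
        zero_mem' := by simp
        smul_mem' := fun c p hp => by simp [hp.1, hp.2] }
      (fun i => by change _ ∧ _; rw [hψ]; exact ⟨rfl, rfl⟩)
      (fun p _ q _ => by
        change _ ∧ _
        rw [LieHom.map_lie]
        exact ⟨(hk1 (mem_sq p q)).symm, (hk2 (Submodule.mem_sup_right (mem_sq p q))).symm⟩) a
  have h0 : l2 (y i) = 0 := hk2 (Submodule.mem_sup_left (Submodule.subset_span ⟨i, rfl⟩))
  have := congrArg (fun a : Heis K => a.2.2) (D3_heis ψ (hz i))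
  simp [LieHom.map_lie, (key _).1, (key _).2, h0, hl1, hl2] at this

section logic
universe u v
variable (L : FirstOrder.Language.{u, v}) [L.Structure H]

/-- the Lie algebra operations are given by terms -/
structure LD (K H : Type) [Field K] [LieRing H] [LieAlgebra K H] [L.Structure H] : Prop where
  add : ∀ {α : Type} {f g : (α → H) → H}, T L f → T L g → T L fun v => f v + g v
  br : ∀ {α : Type} {f g : (α → H) → H}, T L f → T L g → T L fun v => ⁅f v, g v⁆
  smul : ∀ {α : Type} (c : K) {f : (α → H) → H}, T L f → T L fun v => c • f v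
  zero : ∀ {α : Type}, T L fun _ : α → H => (0 : H)

variable {L}

theorem LD.sum (h : LD L K H) {α ι : Type} (s : Finset ι) {f : ι → (α → H) → H}
    (hf : ∀ i, T L (f i)) : T L fun v => ∑ i ∈ s, f i v := by
  classical
  induction s using Finset.induction_on with
  | empty => simpa using h.zero
  | insert a s ha ih => simpa [Finset.sum_insert ha] using h.add (hf a) ih

theorem df_G (h : LD L K H) : Df L fun y : Fin r → H => G y := by
  unfold G D3
  repeat' first
    | exact T.var _ | apply h.br | (apply h.sum; intro)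
    | apply Df.eq | apply Df.and | apply Df.not
    | apply Df.ex | apply Df.all | apply Df.exFun | (apply Df.finAll; intro)

theorem exists_term (h : LD L K H) (hx : Gens K x) (a : H) :
    ∃ f : (Fin r → H) → H, T L f ∧ ∀ σ : H →ₗ⁅K⁆ H, f (fun i => σ (x i)) = σ a :=
  hx.ind
    { carrier := {a | ∃ f : (Fin r → H) → H, T L f ∧ ∀ σ : H →ₗ⁅K⁆ H, f (fun i => σ (x i)) = σ a}
      add_mem' := by
        rintro p q ⟨f, hf, h1⟩ ⟨g, hg, h2⟩
        exact ⟨_, h.add hf hg, fun σ => by simp [h1, h2]⟩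
      zero_mem' := ⟨_, h.zero, fun σ => by simp⟩
      smul_mem' := by
        rintro c p ⟨f, hf, h1⟩
        exact ⟨_, h.smul c hf, fun σ => by simp [h1]⟩ }
    (fun i => ⟨_, T.var i, fun σ => rfl⟩)
    (by
      rintro p ⟨f, hf, h1⟩ q ⟨g, hg, h2⟩
      exact ⟨_, h.br hf hg, fun σ => by simp [h1, h2]⟩) a

/-- an endomorphism, onto modulo brackets, carrying `a` to `b` -/
theorem approx (h : LD L K H) (hr : 2 ≤ r) (hx : Gens K x) (hl : HL K x)
    (he : ∀ y : Fin r → H, ∃ σ : H →ₗ⁅K⁆ H, ∀ i, σ (x i) = y i) {m : ℕ} {a b : Fin m → H}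
    (hab : ∀ φ : L.Formula (Fin m), φ.Realize a → φ.Realize b) :
    ∃ σ : H →ₗ⁅K⁆ H, (∀ i, σ (a i) = b i) ∧ ∀ c, ∃ s, c - σ s ∈ sq K H := by
  choose f hf h1 using fun j => exists_term h hx (a j)
  have hd : Df L fun v : Fin m → H => ∃ y : Fin r → H, G y ∧ ∀ j, v j = f j y :=
    Df.exFun (Df.and ((df_G h).relabel _) (Df.finAll fun j => Df.eq (T.var _) ((hf j).relabel _)))
  obtain ⟨φ, hφ⟩ := hd
  obtain ⟨y, hy, hy'⟩ := (hφ _).1 (hab φ ((hφ _).2
    ⟨x, G_self hr hx hl, fun j => (h1 j LieHom.id).symm⟩))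
  obtain ⟨σ, hσ⟩ := he y
  refine ⟨σ, fun j => by rw [hy' j, ← h1 j σ, funext hσ], fun c => ?_⟩
  obtain ⟨s, hs, t, ht, rfl⟩ := Submodule.mem_sup.1 (G_sound hx hl hy c)
  obtain ⟨d, rfl⟩ := (Submodule.mem_span_range_iff_exists_fun K).1 hs
  exact ⟨∑ i, d i • x i, by simpa [map_sum, hσ] using ht⟩

theorem abelian (h : LD L K H) (hx : Gens K x) (h0 : ∀ a b : H, ⁅a, b⁆ = 0) {m : ℕ}
    {a b : Fin m → H} (hab : ∀ φ : L.Formula (Fin m), φ.Realize a ↔ φ.Realize b) :
    ∃ σ : H ≃ₗ⁅K⁆ H, ∀ i, σ (a i) = b i := by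
  haveI : FiniteDimensional K H := by
    have : Submodule.span K (Set.range x) = ⊤ := top_le_iff.1 fun c _ =>
      hx.ind (Submodule.span K (Set.range x)) (fun i => Submodule.subset_span ⟨i, rfl⟩)
        (fun p _ q _ => by simp [h0]) c
    have h2 := FiniteDimensional.span_of_finite K (Set.finite_range x)
    rw [this] at h2
    exact Module.Finite.equiv Submodule.topEquiv
  let f₁ := Fintype.linearCombination K a
  let f₂ := Fintype.linearCombination K b
  have hk : LinearMap.ker f₁ = LinearMap.ker f₂ := by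
    ext c
    simp only [LinearMap.mem_ker, f₁, f₂, Fintype.linearCombination_apply]
    obtain ⟨φ, hφ⟩ : Df L fun v : Fin m → H => ∑ j, c j • v j = 0 :=
      Df.eq (h.sum _ fun j => h.smul _ (T.var j)) h.zero
    exact (hφ a).symm.trans ((hab φ).trans (hφ b))
  let e : LinearMap.range f₁ ≃ₗ[K] LinearMap.range f₂ :=
    f₁.quotKerEquivRange.symm.trans ((Submodule.quotEquivOfEq _ _ hk).trans f₂.quotKerEquivRange)
  have he : ∀ c, (e ⟨f₁ c, c, rfl⟩ : H) = f₂ c := by
    intro c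
    have : f₁.quotKerEquivRange.symm ⟨f₁ c, c, rfl⟩ = Submodule.Quotient.mk c := by
      rw [LinearEquiv.symm_apply_eq]; rfl
    simp only [e, LinearEquiv.trans_apply, this]
    rfl
  obtain ⟨g, hg⟩ := Submodule.exists_linearEquiv_restrict_eq e
  refine ⟨{ g with map_lie' := fun {p q} => by simp [h0] }, fun j => ?_⟩
  have h1 := hg ⟨f₁ (Pi.single j 1), _, rfl⟩
  rw [he] at h1
  change g (a j) = b j
  simpa [f₁, f₂] using h1.symm

end logic

theorem abelian_of_le (hr : r ≤ 1) (hx : Gens K x) (a b : H) : ⁅a, b⁆ = 0 := by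
  haveI : Subsingleton (Fin r) := Fin.subsingleton_iff_le_one.2 hr
  have h1 : ∀ i j, ⁅x i, x j⁆ = 0 := fun i j => by rw [Subsingleton.elim i j, lie_self]
  have h2 : ∀ p ∈ Submodule.span K (Set.range x), ∀ q ∈ Submodule.span K (Set.range x),
      ⁅p, q⁆ = 0 := by
    intro p hp q hq
    obtain ⟨c, rfl⟩ := (Submodule.mem_span_range_iff_exists_fun K).1 hp
    obtain ⟨d, rfl⟩ := (Submodule.mem_span_range_iff_exists_fun K).1 hq
    simp [sum_lie, lie_sum, h1]
  have h3 := hx.ind (Submodule.span K (Set.range x)) (fun i => Submodule.subset_span ⟨i, rfl⟩)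
    (fun p hp q hq => by rw [h2 p hp q hq]; exact zero_mem _)
  exact h2 a (h3 a) b (h3 b)

open LieModule

theorem lcs_ind {n : ℕ} (N : Submodule K H)
    (h : ∀ a b : H, b ∈ lowerCentralSeries K H H n → ⁅a, b⁆ ∈ N) {c : H}
    (hc : c ∈ lowerCentralSeries K H H (n + 1)) : c ∈ N := by
  rw [lowerCentralSeries_succ, ← LieSubmodule.mem_toSubmodule,
    LieSubmodule.lieIdeal_oper_eq_linear_span'] at hc
  refine (Submodule.span_le.2 ?_ : _ ≤ N) hc
  rintro _ ⟨a, -, b, hb, rfl⟩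
  exact h a b hb

theorem lcs_mem {n : ℕ} (a : H) {b : H} (hb : b ∈ lowerCentralSeries K H H n) :
    ⁅a, b⁆ ∈ lowerCentralSeries K H H (n + 1) := by
  rw [lowerCentralSeries_succ]
  exact LieSubmodule.lie_mem_lie (LieSubmodule.mem_top _) hb

theorem sq_lcs {n : ℕ} {h b : H} (hh : h ∈ sq K H) (hb : b ∈ lowerCentralSeries K H H n) :
    ⁅h, b⁆ ∈ lowerCentralSeries K H H (n + 2) := by
  induction hh using Submodule.span_induction with
  | mem c hc =>
    obtain ⟨u, v, rfl⟩ := hc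
    rw [lie_lie]
    exact sub_mem (lcs_mem _ (lcs_mem _ hb)) (lcs_mem _ (lcs_mem _ hb))
  | zero => simp
  | add p q _ _ h1 h2 => rw [add_lie]; exact add_mem h1 h2
  | smul c p _ h1 => rw [smul_lie]; exact SMulMemClass.smul_mem _ h1

/-- onto modulo brackets implies onto modulo every term of the lower central series -/
theorem approx_lcs (σ : H →ₗ⁅K⁆ H) (hσ : ∀ c, ∃ s, c - σ s ∈ sq K H) (n : ℕ) (c : H) :
    ∃ s, c - σ s ∈ lowerCentralSeries K H H n := by
  have h1 : ∀ n, ∀ c ∈ lowerCentralSeries K H H n, ∃ s, σ s ∈ lowerCentralSeries K H H n ∧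
      c - σ s ∈ lowerCentralSeries K H H (n + 1) := by
    intro n
    induction n with
    | zero =>
      intro c _
      obtain ⟨s, hs⟩ := hσ c
      refine ⟨s, by simp, ?_⟩
      refine (Submodule.span_le.2 ?_ : sq K H ≤ (lowerCentralSeries K H H 1).toSubmodule) hs
      rintro _ ⟨a, b, rfl⟩
      exact lcs_mem a (by simp)
    | succ n ih =>
      intro c hc
      refine lcs_ind
        { carrier := {c | ∃ s, σ s ∈ lowerCentralSeries K H H (n + 1) ∧
            c - σ s ∈ lowerCentralSeries K H H (n + 1 + 1)}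
          add_mem' := by
            rintro p q ⟨s, h1, h2⟩ ⟨t, h3, h4⟩
            exact ⟨s + t, by rw [map_add]; exact add_mem h1 h3,
              by rw [map_add, add_sub_add_comm]; exact add_mem h2 h4⟩
          zero_mem' := ⟨0, by simp, by simp⟩
          smul_mem' := by
            rintro c p ⟨s, h1, h2⟩
            exact ⟨c • s, by rw [map_smul]; exact SMulMemClass.smul_mem _ h1,
              by rw [map_smul, ← smul_sub]; exact SMulMemClass.smul_mem _ h2⟩ }
        (fun a b hb => ?_) hc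
      obtain ⟨s, hs⟩ := hσ a
      obtain ⟨t, h1, h2⟩ := ih b hb
      refine ⟨⁅s, t⁆, by rw [LieHom.map_lie]; exact lcs_mem _ h1, ?_⟩
      have e : ⁅a, b⁆ - σ ⁅s, t⁆ = ⁅a - σ s, b⁆ + ⁅σ s, b - σ t⁆ := by
        rw [LieHom.map_lie, sub_lie, lie_sub]; abel
      rw [e]
      exact add_mem (sq_lcs hs hb) (lcs_mem _ h2)
  induction n with
  | zero => exact ⟨0, by simp⟩
  | succ n ih =>
    obtain ⟨s, hs⟩ := ih
    obtain ⟨t, -, ht⟩ := h1 n _ hs
    exact ⟨s + t, by rw [map_add, ← sub_sub]; exact ht⟩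

/-- left-normed products of generators -/
def S (x : Fin r → H) : ℕ → Set H
  | 0 => Set.range x
  | k + 1 => Set.image2 (fun a b => ⁅a, b⁆) (Set.range x) (S x k)

theorem S_fin (k : ℕ) : (S x k).Finite := by
  induction k with
  | zero => exact Set.finite_range x
  | succ k ih => exact (Set.finite_range x).image2 _ ih

theorem S_lcs (k : ℕ) : ∀ a ∈ S x k, a ∈ lowerCentralSeries K H H k := by
  induction k with
  | zero => simp
  | succ k ih => rintro _ ⟨a, -, b, hb, rfl⟩; exact lcs_mem a (ih b hb)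

theorem span_S (hx : Gens K x) (a : H) : a ∈ Submodule.span K (⋃ k, S x k) := by
  have h1 := hx.ideal (Submodule.span K (⋃ k, S x k)) fun i b hb => by
    induction hb using Submodule.span_induction with
    | mem c hc =>
      obtain ⟨k, hk⟩ := Set.mem_iUnion.1 hc
      exact Submodule.subset_span (Set.mem_iUnion.2 ⟨k + 1, _, ⟨i, rfl⟩, c, hk, rfl⟩)
    | zero => simp
    | add p q _ _ h1 h2 => rw [lie_add]; exact add_mem h1 h2
    | smul c p _ h1 => rw [lie_smul]; exact Submodule.smul_mem _ _ h1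
  exact hx.ind (Submodule.span K (⋃ k, S x k))
    (fun i => Submodule.subset_span (Set.mem_iUnion.2 ⟨0, i, rfl⟩))
    (fun p _ q hq => h1 p q hq) a

theorem findim {n : ℕ} (hx : Gens K x) (hn : lowerCentralSeries K H H n = ⊥) :
    FiniteDimensional K H := by
  have hf : (⋃ k ∈ Set.Iio n, S x k).Finite := (Set.finite_Iio n).biUnion fun k _ => S_fin k
  have : Submodule.span K (⋃ k ∈ Set.Iio n, S x k) = ⊤ := top_le_iff.1 fun c _ => by
    refine Submodule.span_le.2 (fun a ha => ?_) (span_S hx c)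
    obtain ⟨k, hk⟩ := Set.mem_iUnion.1 ha
    by_cases h : k < n
    · exact Submodule.subset_span (Set.mem_biUnion h hk)
    · have := antitone_lowerCentralSeries K H H (not_lt.1 h) (S_lcs k a hk)
      rw [hn, LieSubmodule.mem_bot] at this
      rw [this]; exact zero_mem _
  have h2 := FiniteDimensional.span_of_finite K hf
  rw [this] at h2
  exact Module.Finite.equiv Submodule.topEquiv

theorem Heis.lcs {n : ℕ} (hn : 2 ≤ n) : lowerCentralSeries K (Heis K) (Heis K) n = ⊥ := by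
  refine eq_bot_iff.2 ((antitone_lowerCentralSeries K _ _ hn).trans fun c hc => ?_)
  refine lcs_ind (n := 1) (⊥ : Submodule K (Heis K)) (fun a b hb => ?_) hc
  refine lcs_ind (n := 0) (LinearMap.ker (LieAlgebra.ad K (Heis K) a)) (fun u v _ => ?_) hb
  rw [LinearMap.mem_ker, LieAlgebra.ad_apply, ← lie_skew, Heis.triple, neg_zero]

theorem nil_homog {L : FirstOrder.Language.{0, 0}} [L.Structure H] (h : LD L K H) {n : ℕ}
    (hx : Gens K x) (hn : lowerCentralSeries K H H n = ⊥)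
    (hu : ∀ (B : Type) [LieRing B] [LieAlgebra K B], lowerCentralSeries K B B n = ⊥ →
      ∀ f : Fin r → B, ∃ ψ : H →ₗ⁅K⁆ B, ∀ i, ψ (x i) = f i) {m : ℕ}
    {a b : Fin m → H} (hab : ∀ φ : L.Formula (Fin m), φ.Realize a ↔ φ.Realize b) :
    ∃ σ : H ≃ₗ⁅K⁆ H, ∀ i, σ (a i) = b i := by
  by_cases hr : r ≤ 1
  · exact abelian h hx (abelian_of_le hr hx) hab
  by_cases hn1 : n ≤ 1
  · refine abelian h hx (fun p q => ?_) hab
    have := antitone_lowerCentralSeries K H H hn1 (lcs_mem (n := 0) p (b := q) (by simp))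
    rwa [hn, LieSubmodule.mem_bot] at this
  obtain ⟨σ, h1, h2⟩ := approx h (by omega) hx (hu _ (Heis.lcs (by omega))) (hu H hn)
    fun φ => (hab φ).1
  haveI := findim hx hn
  have hs : Function.Surjective σ := fun c => by
    obtain ⟨s, hs⟩ := approx_lcs σ h2 n c
    rw [hn, LieSubmodule.mem_bot, sub_eq_zero] at hs
    exact ⟨s, hs.symm⟩
  exact ⟨LieEquiv.ofBijective σ
    ⟨(LinearMap.injective_iff_surjective (f := (σ : H →ₗ[K] H))).2 hs, hs⟩, h1⟩

end Pool.Agent.H10.LieHom
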