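import Pool.Agent.H10.LieHom
import Pool.Agent.H10.Isotyp

open FirstOrder FirstOrder.Language

namespace Pool.Agent.H10.LieLang
open Pool.Agent.H10.Defin Pool.Agent.H10.LieHom LieModule

/-- Function symbols: `+`, bracket, `0`, one unary symbol per scalar, and unary minus when
`neg = true`. -/
inductive Fn (K : Type) (neg : Bool) : ℕ → Type
  | add : Fn K neg 2
  | br : Fn K neg 2
  | zero : Fn K neg 0
  | smul (c : K) : Fn K neg 1
  | minus (h : neg = true) : Fn K neg 1

/-- The language of Lie algebras over `K`. -/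
def lang (K : Type) (neg : Bool) : FirstOrder.Language.{0, 0} := ⟨Fn K neg, fun _ => Empty⟩

/-- Interpretation of the function symbols in a Lie algebra. -/
def interp (K : Type) (neg : Bool) (H : Type) [Field K] [LieRing H] [LieAlgebra K H] :
    {n : ℕ} → Fn K neg n → (Fin n → H) → H
  | _, .add, v => v 0 + v 1
  | _, .br, v => ⁅v 0, v 1⁆
  | _, .zero, _ => 0
  | _, .smul c, v => c • v 0
  | _, .minus _, v => - v 0

/-- A Lie algebra as a first-order structure. -/
@[reducible] def str (K : Type) (neg : Bool) (H : Type) [Field K] [LieRing H] [LieAlgebra K H] :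
    (lang K neg).Structure H where
  funMap := fun f v => interp K neg H f v
  RelMap := fun r _ => Empty.elim r

/-- The free Lie algebra on `r` generators. -/
abbrev Lr (K : Type) [Field K] (r : ℕ) : Type := FreeLieAlgebra K (Fin r)

/-- The free nilpotent Lie algebra `L_r / γ_{n+1}(L_r)`. -/
abbrev Nil (K : Type) [Field K] (r n : ℕ) : Type :=
  Lr K r ⧸ LieModule.lowerCentralSeries K (Lr K r) (Lr K r) n

/-- The free solvable Lie algebra `L_r / L_r^{(n)}`. -/
abbrev Sol (K : Type) [Field K] (r n : ℕ) : Type := Lr K r ⧸ LieAlgebra.derivedSeries K (Lr K r) n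

/-- Logical homogeneity: tuples of equal type are conjugate under a Lie algebra automorphism. -/
def LogHom (K H : Type) [Field K] [LieRing H] [LieAlgebra K H] : Prop :=
  ∀ (m : ℕ) (a b : Fin m → H),
    @Isotyp.SameType (lang K true) H H (str K true H) (str K true H) m a b →
    ∃ σ : H ≃ₗ⁅K⁆ H, ∀ i, σ (a i) = b i

variable {K : Type} [Field K] {H : Type} [LieRing H] [LieAlgebra K H]

theorem ld (neg : Bool) : @LD (lang K neg) K H _ _ _ (str K neg H) := by
  letI := str K neg H
  refine ⟨?_, ?_, ?_, ⟨Term.func Fn.zero ![], fun _ => rfl⟩⟩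
  · rintro α f g ⟨s, hs⟩ ⟨t, ht⟩
    exact ⟨Term.func Fn.add ![s, t], fun v => congrArg₂ (· + ·) (hs v) (ht v)⟩
  · rintro α f g ⟨s, hs⟩ ⟨t, ht⟩
    exact ⟨Term.func Fn.br ![s, t], fun v => congrArg₂ (fun a b : H => ⁅a, b⁆) (hs v) (ht v)⟩
  · rintro α c f ⟨s, hs⟩
    exact ⟨Term.func (Fn.smul c) ![s], fun v => congrArg (c • ·) (hs v)⟩

/-- a Lie isomorphism as an isomorphism of structures -/
def toEquiv (neg : Bool) (σ : H ≃ₗ⁅K⁆ H) :
    @FirstOrder.Language.Equiv (lang K neg) H H (str K neg H) (str K neg H) :=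
  letI := str K neg H
  ⟨σ.toLinearEquiv.toEquiv, fun {n} g v => by
    cases g with
    | add => exact map_add σ _ _
    | br => exact σ.map_lie _ _
    | zero => exact map_zero σ
    | smul c => exact map_smul σ c _
    | minus _ => exact map_neg σ _, fun {n} g _ => Empty.elim g⟩

/-- quotient map -/
def mkH (I : LieIdeal K H) : H →ₗ⁅K⁆ H ⧸ I :=
  { I.toSubmodule.mkQ with map_lie' := rfl }

theorem mkH_surj (I : LieIdeal K H) : Function.Surjective (mkH I) := Quot.mk_surjective

theorem mkH_zero {I : LieIdeal K H} {a : H} : mkH I a = 0 ↔ a ∈ I :=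
  Submodule.Quotient.mk_eq_zero I.toSubmodule

theorem exists_lift {B : Type} [LieRing B] [LieAlgebra K B] (I : LieIdeal K H) (f : H →ₗ⁅K⁆ B)
    (h : ∀ a ∈ I, f a = 0) : ∃ g : (H ⧸ I) →ₗ⁅K⁆ B, ∀ a, g (mkH I a) = f a := by
  refine ⟨{ I.toSubmodule.liftQ (f : H →ₗ[K] B) h with map_lie' := ?_ }, fun a => rfl⟩
  intro p q
  obtain ⟨p, rfl⟩ := mkH_surj I p
  obtain ⟨q, rfl⟩ := mkH_surj I q
  exact f.map_lie p q

theorem gens_free {X : Type} : Gens K (FreeLieAlgebra.of K : X → FreeLieAlgebra K X) := by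
  intro S hS a
  have e : S.incl.comp (FreeLieAlgebra.lift K fun i => (⟨_, hS i⟩ : S)) = LieHom.id :=
    FreeLieAlgebra.hom_ext fun i => by simp
  have := LieHom.congr_fun e a
  rw [LieHom.id_apply] at this
  rw [← this]
  exact Subtype.property _

theorem Gens.map {B ι : Type} [LieRing B] [LieAlgebra K B] {x : ι → H} (hx : Gens K x)
    (f : H →ₗ⁅K⁆ B) (hf : Function.Surjective f) : Gens K fun i => f (x i) := fun S hS b => by
  obtain ⟨a, rfl⟩ := hf b
  exact hx (S.comap f) hS a

theorem map_lcs {B : Type} [LieRing B] [LieAlgebra K B] (f : H →ₗ⁅K⁆ B) (n : ℕ) :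
    ∀ a ∈ lowerCentralSeries K H H n, f a ∈ lowerCentralSeries K B B n := by
  induction n with
  | zero => simp
  | succ n ih =>
    intro a ha
    refine lcs_ind ((lowerCentralSeries K B B (n + 1)).toSubmodule.comap (f : H →ₗ[K] B))
      (fun p q hq => ?_) ha
    change f ⁅p, q⁆ ∈ lowerCentralSeries K B B (n + 1)
    rw [LieHom.map_lie]
    exact lcs_mem _ (ih q hq)

theorem surj_lcs {B : Type} [LieRing B] [LieAlgebra K B] (f : H →ₗ⁅K⁆ B)
    (hf : Function.Surjective f) (n : ℕ) :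
    ∀ b ∈ lowerCentralSeries K B B n, ∃ a ∈ lowerCentralSeries K H H n, f a = b := by
  induction n with
  | zero => intro b _; obtain ⟨a, rfl⟩ := hf b; exact ⟨a, by simp, rfl⟩
  | succ n ih =>
    intro b hb
    refine lcs_ind ((lowerCentralSeries K H H (n + 1)).toSubmodule.map (f : H →ₗ[K] B))
      (fun p q hq => ?_) hb
    obtain ⟨p, rfl⟩ := hf p
    obtain ⟨q, h1, rfl⟩ := ih q hq
    exact ⟨⁅p, q⁆, lcs_mem _ h1, f.map_lie _ _⟩

theorem quot_lcs (n : ℕ) : lowerCentralSeries K (H ⧸ lowerCentralSeries K H H n)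
    (H ⧸ lowerCentralSeries K H H n) n = ⊥ := by
  refine eq_bot_iff.2 fun b hb => ?_
  obtain ⟨a, ha, rfl⟩ := surj_lcs _ (mkH_surj (lowerCentralSeries K H H n)) n b hb
  exact (LieSubmodule.mem_bot _).2 (mkH_zero.2 ha)

theorem nil_gens (r n : ℕ) :
    Gens K fun i : Fin r => (mkH _ (FreeLieAlgebra.of K i) : Nil K r n) :=
  Gens.map gens_free _ (mkH_surj _)

theorem nil_main (neg : Bool) (r n m : ℕ) (a b : Fin m → Nil K r n)
    (h : @Isotyp.SameType (lang K neg) _ _ (str K neg _) (str K neg _) m a b) :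
    ∃ σ : Nil K r n ≃ₗ⁅K⁆ Nil K r n, ∀ i, σ (a i) = b i := by
  letI := str K neg (Nil K r n)
  refine nil_homog (ld neg) (nil_gens r n) (quot_lcs n) (fun B _ _ hB f => ?_) h
  obtain ⟨g, hg⟩ := exists_lift (lowerCentralSeries K (Lr K r) (Lr K r) n)
    (FreeLieAlgebra.lift K f) fun a ha => by
      have := map_lcs (FreeLieAlgebra.lift K f) n a ha
      rwa [hB, LieSubmodule.mem_bot] at this
  exact ⟨g, fun i => by rw [hg, FreeLieAlgebra.lift_of_apply]⟩

end Pool.Agent.H10.LieLang
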