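import Mathlib

open Set

namespace Pool.Agent.H10.M2w

/-- The lattice `M_{2^ω}`: least element, greatest element, and an antichain indexed by `ℝ`. -/
inductive M : Type
  | bot : M
  | top : M
  | atom (r : ℝ) : M

open Classical in
/-- Binary meet of `M_{2^ω}`. -/
noncomputable def meet (a b : M) : M :=
  if a = b then a else if a = M.top then b else if b = M.top then a else M.bot

open Classical in
/-- Binary join of `M_{2^ω}`. -/
noncomputable def join (a b : M) : M :=
  if a = b then a else if a = M.bot then b else if b = M.bot then a else M.top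

/-- `M_{2^ω}` embeds into `L`: an injective map carrying meets to meets and joins to joins. -/
def EmbedsIn (L : Type) [PartialOrder L] : Prop :=
  ∃ f : M → L, Function.Injective f ∧
    ∀ a b, IsGLB {f a, f b} (f (meet a b)) ∧ IsLUB {f a, f b} (f (join a b))

/-- Pointwise convergence on `X → X`, with `X` discrete. -/
@[reducible] def ptw (X : Type) : TopologicalSpace (X → X) :=
  @Pi.topologicalSpace X (fun _ => X) (fun _ => ⊥)

/-- Local monoids on `X`, ordered by inclusion. -/
abbrev Mon (X : Type) : Type :=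
  {S : Submonoid (Function.End X) // @IsClosed (X → X) (ptw X) {f | f ∈ S}}

/-- Locally closed permutation groups on `X`, ordered by inclusion. -/
abbrev Gr (X : Type) : Type :=
  {S : Subgroup (Equiv.Perm X) //
    @IsClosed (Equiv.Perm X) (TopologicalSpace.induced (fun σ : Equiv.Perm X => (σ : X → X)) (ptw X)) S}

abbrev G : Type := Fin 2 → ℚ_[2]

noncomputable def U (n : ℕ) : AddSubgroup G :=
  (IsUltrametricDist.closedBall_openAddSubgroup G (r := (1 / 2 : ℝ) ^ n) (by positivity) :
    OpenAddSubgroup G)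

lemma mem_U {n : ℕ} {g : G} : g ∈ U n ↔ ‖g‖ ≤ (1 / 2 : ℝ) ^ n := by
  change g ∈ Metric.closedBall (0 : G) _ ↔ _
  simp

lemma U_open (n : ℕ) : IsOpen (U n : Set G) :=
  (IsUltrametricDist.closedBall_openAddSubgroup G (r := (1 / 2 : ℝ) ^ n) (by positivity)).isOpen

instance (n : ℕ) : Countable (G ⧸ U n) := by
  haveI : DiscreteTopology (G ⧸ U n) := QuotientAddGroup.discreteTopology (U_open n)
  rw [← TopologicalSpace.separableSpace_iff_countable]
  exact (QuotientAddGroup.mk_surjective (s := U n)).denseRange.separableSpace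
    QuotientAddGroup.continuous_mk

abbrev Y : Type := Σ n : ℕ, G ⧸ U n

instance : Infinite Y :=
  Infinite.of_injective (fun n => (⟨n, 0⟩ : Y)) fun _ _ h => congrArg Sigma.fst h

noncomputable def act (g : G) (y : Y) : Y := ⟨y.1, (g : G ⧸ U y.1) + y.2⟩

lemma act_zero (y : Y) : act 0 y = y := by simp [act]

lemma act_add (g h : G) (y : Y) : act (g + h) y = act g (act h y) := by
  simp only [act, QuotientAddGroup.mk_add, add_assoc]
  rfl

lemma act_eq {g h : G} {y : Y} : act g y = act h y ↔ ‖g - h‖ ≤ (1 / 2 : ℝ) ^ y.1 := by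
  simp only [act, Sigma.mk.injEq, heq_eq_eq, true_and, add_left_inj]
  rw [QuotientAddGroup.eq, mem_U, ← norm_neg]
  simp [sub_eq_add_neg, add_comm]

lemma small {v : ℝ} (h : ∀ n : ℕ, v ≤ (1 / 2 : ℝ) ^ n) : v ≤ 0 :=
  ge_of_tendsto' (tendsto_pow_atTop_nhds_zero_of_lt_one (by norm_num) (by norm_num)) h

section
variable {X : Type} (e : X ≃ Y)

noncomputable def rho (g : G) : X → X := fun x => e.symm (act g (e x))

lemma rho_eq {g h : G} {x : X} : rho e g x = rho e h x ↔ ‖g - h‖ ≤ (1 / 2 : ℝ) ^ (e x).1 := by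
  simp [rho, act_eq]

lemma rho_inj : Function.Injective (rho e) := fun g h H => by
  rw [← sub_eq_zero, ← norm_le_zero_iff]
  refine small fun n => ?_
  have := (rho_eq e).1 (congrFun H (e.symm ⟨n, 0⟩))
  simpa using this

lemma rho_closed (K : AddSubgroup G) (hK : IsClosed (K : Set G)) :
    @IsClosed (X → X) (ptw X) (rho e '' K) := by
  letI : TopologicalSpace X := ⊥
  haveI : DiscreteTopology X := ⟨rfl⟩
  rw [← closure_subset_iff_isClosed]
  intro f hf
  have key : ∀ x x' : X, ∃ g ∈ K, rho e g x = f x ∧ rho e g x' = f x' := fun x x' => by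
    have ho : IsOpen {h : X → X | h x = f x ∧ h x' = f x'} :=
      IsOpen.inter
        ((isOpen_discrete {f x}).preimage (continuous_apply x : Continuous fun h : X → X => h x))
        ((isOpen_discrete {f x'}).preimage (continuous_apply x' : Continuous fun h : X → X => h x'))
    obtain ⟨_, h1, g, hg, rfl⟩ := mem_closure_iff.1 hf _ ho ⟨rfl, rfl⟩
    exact ⟨g, hg, h1⟩
  choose c hcK hc using fun n : ℕ => key (e.symm ⟨n, 0⟩) (e.symm ⟨n, 0⟩)
  have A : ∀ (x : X) (g : G), rho e g x = f x → ∀ m, (e x).1 ≤ m →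
      ‖g - c m‖ ≤ (1 / 2 : ℝ) ^ (e x).1 := fun x g hg m hm => by
    obtain ⟨h, -, h1, h2⟩ := key x (e.symm ⟨m, 0⟩)
    have a1 := (rho_eq e).1 (hg.trans h1.symm)
    have a2 := (rho_eq e).1 (h2.trans (hc m).1.symm)
    simp only [Equiv.apply_symm_apply] at a2
    have a3 : (1 / 2 : ℝ) ^ m ≤ (1 / 2 : ℝ) ^ (e x).1 :=
      pow_le_pow_of_le_one (by norm_num) (by norm_num) hm
    have := IsUltrametricDist.norm_add_le_max (g - h) (h - c m)
    rw [sub_add_sub_cancel] at this
    exact this.trans (max_le a1 (a2.trans a3))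
  have hC : CauchySeq c := cauchySeq_of_le_geometric (1 / 2) 1 (by norm_num) fun n => by
    have := A _ _ (hc n).1 (n + 1) (by simp)
    simpa [dist_eq_norm] using this
  obtain ⟨g, hg⟩ := cauchySeq_tendsto_of_complete hC
  refine ⟨g, hK.mem_of_tendsto hg (Filter.Eventually.of_forall hcK), funext fun x => ?_⟩
  obtain ⟨h, -, h1, -⟩ := key x x
  rw [← h1, eq_comm, rho_eq]
  refine le_of_tendsto ((tendsto_const_nhds.sub hg).norm) ?_
  filter_upwards [Filter.eventually_ge_atTop (e x).1] with m hm using A x h h1 m hm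

noncomputable def rhoP : Multiplicative G →* Equiv.Perm X where
  toFun g :=
    { toFun := rho e g.toAdd
      invFun := rho e (-g.toAdd)
      left_inv := fun x => by simp [rho, ← act_add, act_zero]
      right_inv := fun x => by simp [rho, ← act_add, act_zero] }
  map_one' := Equiv.ext fun x => by simp [rho, act_zero]
  map_mul' g h := Equiv.ext fun x => by simp [rho, act_add]

noncomputable def toGr (K : AddSubgroup G) (hK : IsClosed (K : Set G)) : Gr X :=
  ⟨{ carrier := {σ | (σ : X → X) ∈ rho e '' K}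
     one_mem' := ⟨0, K.zero_mem, funext fun x => by simp [rho, act_zero]⟩
     mul_mem' := by
       rintro a b ⟨g, hg, h1⟩ ⟨h, hh, h2⟩
       refine ⟨g + h, K.add_mem hg hh, funext fun x => ?_⟩
       rw [Equiv.Perm.mul_apply, ← h1, ← h2]
       simp [rho, act_add]
     inv_mem' := by
       rintro a ⟨g, hg, h1⟩
       refine ⟨-g, K.neg_mem hg, funext fun x => ?_⟩
       rw [eq_comm, Equiv.Perm.inv_eq_iff_eq, ← h1]
       simp [rho, ← act_add, act_zero] },
   @IsClosed.preimage _ _ (TopologicalSpace.induced (fun σ : Equiv.Perm X => (σ : X → X)) (ptw X)) (ptw X) _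
     (@continuous_induced_dom _ _ _ (ptw X)) _ (rho_closed e K hK)⟩

noncomputable def toMon (K : AddSubgroup G) (hK : IsClosed (K : Set G)) : Mon X :=
  ⟨{ carrier := rho e '' K
     one_mem' := ⟨0, K.zero_mem, funext fun x => by
       simp only [rho, act_zero, Equiv.symm_apply_apply]; rfl⟩
     mul_mem' := by
       rintro _ _ ⟨g, hg, rfl⟩ ⟨h, hh, rfl⟩
       refine ⟨g + h, K.add_mem hg hh, funext fun x => ?_⟩
       change _ = rho e g (rho e h x)
       simp [rho, act_add] },
   rho_closed e K hK⟩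

end

noncomputable def line (t : ℚ_[2]) : AddSubgroup G where
  carrier := {g | g 1 = t * g 0}
  zero_mem' := by simp
  add_mem' := by
    intro a b ha hb
    simp only [mem_ofPred_eq, Pi.add_apply] at *
    rw [ha, hb]; ring
  neg_mem' := by
    intro a ha
    simp only [mem_ofPred_eq, Pi.neg_apply] at *
    rw [ha]; ring

noncomputable def KK (j : ℝ → ℚ_[2]) : M → AddSubgroup G
  | M.bot => ⊥
  | M.top => ⊤
  | M.atom r => line (j r)

lemma KK_closed (j : ℝ → ℚ_[2]) : ∀ a, IsClosed (KK j a : Set G)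
  | M.bot => by simp [KK]
  | M.top => by simp [KK]
  | M.atom r => isClosed_eq (continuous_apply 1) (by fun_prop)

lemma line_inf {s t : ℚ_[2]} (h : s ≠ t) : line s ⊓ line t = ⊥ := by
  rw [eq_bot_iff]
  rintro g ⟨h1, h2⟩
  change g 1 = s * g 0 at h1
  change g 1 = t * g 0 at h2
  have h0 : g 0 = 0 := by
    by_contra h0
    exact h (mul_right_cancel₀ h0 (h1.symm.trans h2))
  rw [AddSubgroup.mem_bot]
  funext i
  fin_cases i
  · exact h0
  · simpa [h0] using h1

lemma line_sup {s t : ℚ_[2]} (h : s ≠ t) : line s ⊔ line t = ⊤ := by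
  rw [eq_top_iff]
  intro g _
  have h' : s - t ≠ 0 := sub_ne_zero.2 h
  refine AddSubgroup.mem_sup.2 ⟨![(g 1 - t * g 0) / (s - t), s * ((g 1 - t * g 0) / (s - t))], rfl,
    ![(s * g 0 - g 1) / (s - t), t * ((s * g 0 - g 1) / (s - t))], rfl, ?_⟩
  funext i
  fin_cases i <;> simp <;> field_simp <;> ring

lemma KK_lat {j : ℝ → ℚ_[2]} (hj : Function.Injective j) (a b : M) :
    KK j (meet a b) = KK j a ⊓ KK j b ∧ KK j (join a b) = KK j a ⊔ KK j b := by
  by_cases hab : a = b
  · subst hab; simp [meet, join]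
  · rcases a with _ | _ | r <;> rcases b with _ | _ | s <;>
      simp only [meet, join, hab, reduceCtorEq, if_true, if_false, KK] <;>
      first
        | exact absurd rfl hab
        | exact ⟨(line_inf fun h => hab (by rw [hj h])).symm,
            (line_sup fun h => hab (by rw [hj h])).symm⟩
        | simp

lemma KK_inj {j : ℝ → ℚ_[2]} (hj : Function.Injective j) : Function.Injective (KK j) := by
  have m1 : ∀ t : ℚ_[2], (![1, t] : G) ∈ line t := fun t => by
    change t = t * 1; ring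
  have m2 : ∀ s t : ℚ_[2], (![1, s] : G) ∈ line t → s = t := fun s t h => by
    change s = t * 1 at h; simpa using h
  have m3 : ∀ s : ℚ_[2], (![1, s] : G) ∉ (⊥ : AddSubgroup G) := fun s h => by
    simpa using congrFun (AddSubgroup.mem_bot.1 h) 0
  have n1 : ∀ t, line t ≠ ⊥ := fun t h => m3 t (h ▸ m1 t)
  have n2 : ∀ t, line t ≠ ⊤ := fun t h => by
    have := m2 (t + 1) t (h ▸ AddSubgroup.mem_top _)
    simp at this
  have n3 : (⊥ : AddSubgroup G) ≠ ⊤ := fun h => m3 0 (h ▸ AddSubgroup.mem_top _)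
  rintro (_ | _ | r) (_ | _ | s) h
  · rfl
  · exact absurd h n3
  · exact absurd h.symm (n1 _)
  · exact absurd h.symm n3
  · rfl
  · exact absurd h.symm (n2 _)
  · exact absurd h (n1 _)
  · exact absurd h (n2 _)
  · change line (j r) = line (j s) at h
    have : r = s := hj (m2 _ _ (h ▸ m1 (j r)))
    rw [this]

lemma embeds_of {L : Type} [PartialOrder L] (F : ∀ K : AddSubgroup G, IsClosed (K : Set G) → L)
    (mem : G → L → Prop) (h1 : ∀ K hK g, mem g (F K hK) ↔ g ∈ K)
    (h2 : ∀ K hK S, F K hK ≤ S ↔ ∀ g ∈ K, mem g S)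
    (h3 : ∀ K hK K' hK' K'' hK'' S, K'' = K ⊓ K' → S ≤ F K hK → S ≤ F K' hK' → S ≤ F K'' hK'')
    (h4 : ∀ S g h, mem g S → mem h S → mem (g + h) S) : EmbedsIn L := by
  obtain ⟨j⟩ : Nonempty (ℝ ↪ ℚ_[2]) := by
    rw [← Cardinal.le_def, Cardinal.mk_real]
    exact continuum_le_cardinal_of_nontriviallyNormedField _
  have mono : ∀ K hK K' hK', K ≤ K' → F K hK ≤ F K' hK' := fun K hK K' hK' h =>
    (h2 _ _ _).2 fun g hg => (h1 _ _ _).2 (h hg)
  refine ⟨fun a => F (KK j a) (KK_closed j a), fun a b h => KK_inj j.injective ?_, fun a b => ?_⟩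
  · ext g
    rw [← h1 _ (KK_closed j a), ← h1 _ (KK_closed j b)]
    exact iff_of_eq (congrArg (mem g) h)
  obtain ⟨e1, e2⟩ := KK_lat j.injective a b
  refine ⟨⟨?_, fun S hS => ?_⟩, ⟨?_, fun S hS => ?_⟩⟩
  · rintro _ (rfl | rfl)
    · exact mono _ _ _ _ (e1 ▸ inf_le_left)
    · exact mono _ _ _ _ (e1 ▸ inf_le_right)
  · exact h3 _ _ _ _ _ _ _ e1 (hS (Or.inl rfl)) (hS (Or.inr rfl))
  · rintro _ (rfl | rfl)
    · exact mono _ _ _ _ (e2 ▸ le_sup_left)
    · exact mono _ _ _ _ (e2 ▸ le_sup_right)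
  · refine (h2 _ _ _).2 fun g hg => ?_
    rw [e2] at hg
    obtain ⟨y, hy, z, hz, rfl⟩ := AddSubgroup.mem_sup.1 hg
    exact h4 _ _ _ ((h2 _ _ _).1 (hS (Or.inl rfl)) y hy) ((h2 _ _ _).1 (hS (Or.inr rfl)) z hz)

theorem both (X : Type) [Countable X] [Infinite X] : EmbedsIn (Mon X) ∧ EmbedsIn (Gr X) := by
  obtain ⟨e⟩ : Nonempty (X ≃ Y) := inferInstance
  constructor
  · refine embeds_of (toMon e) (fun g S => rho e g ∈ S.1) (fun K hK g => ?_) (fun K hK S => ?_)
      (fun K hK K' hK' K'' hK'' S h a b => ?_) (fun S g h a b => ?_)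
    · exact (rho_inj e).mem_set_image
    · exact ⟨fun h g hg => h ⟨g, hg, rfl⟩, fun h => by rintro _ ⟨g, hg, rfl⟩; exact h g hg⟩
    · intro f hf
      obtain ⟨g, hg, rfl⟩ := a hf
      exact ⟨g, h ▸ ⟨hg, (rho_inj e).mem_set_image.1 (b hf)⟩, rfl⟩
    · have := S.1.mul_mem a b
      have e1 : rho e (g + h) = (show Function.End X from rho e g) * (show Function.End X from rho e h) :=
        funext fun x => by
          change _ = rho e g (rho e h x)
          simp [rho, act_add]
      rw [e1]; exact this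
  · refine embeds_of (toGr e) (fun g S => rhoP e (Multiplicative.ofAdd g) ∈ S.1)
      (fun K hK g => ?_) (fun K hK S => ?_)
      (fun K hK K' hK' K'' hK'' S h a b => ?_) (fun S g h a b => ?_)
    · exact (rho_inj e).mem_set_image
    · refine ⟨fun h g hg => h ⟨g, hg, rfl⟩, fun h σ ⟨g, hg, h1⟩ => ?_⟩
      have : σ = rhoP e (Multiplicative.ofAdd g) := Equiv.ext fun x => (congrFun h1 x).symm
      rw [this]; exact h g hg
    · intro f hf
      obtain ⟨g, hg, h1⟩ := a hf
      obtain ⟨g', hg', h2⟩ := b hf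
      obtain rfl := rho_inj e (h1.trans h2.symm)
      exact ⟨g, h ▸ ⟨hg, hg'⟩, h1⟩
    · rw [ofAdd_add, map_mul]; exact S.1.mul_mem a b

end Pool.Agent.H10.M2w
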