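import Pool.Agent.H10.LieLang
import Pool.Agent.H10.BaurMonk

open FirstOrder FirstOrder.Language MvPolynomial

namespace Pool.Agent.H10.Metab
open Pool.Agent.H10.LieHom Pool.Agent.H10.LieLang Pool.Agent.H10.BaurMonk

section types
variable {K : Type} [Field K] {H : Type} [LieRing H] [LieAlgebra K H]

def ev (K : Type) [Field K] {H : Type} [LieRing H] [LieAlgebra K H] {β : Type} (v : β → H)
    (t : (lang K true).Term β) : H := @Term.realize (lang K true) H (str K true H) β v t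

theorem ev_hom {β : Type} (σ : H →ₗ⁅K⁆ H) (v : β → H) (t : (lang K true).Term β) :
    ev K (fun a => σ (v a)) t = σ (ev K v t) := by
  symm
  induction t with
  | var a => rfl
  | func f ts ih =>
    cases f with
    | add => exact (map_add σ _ _).trans (congrArg₂ (· + ·) (ih 0) (ih 1))
    | br => exact (σ.map_lie _ _).trans (congrArg₂ (fun a b : H => ⁅a, b⁆) (ih 0) (ih 1))
    | minus _ => exact (map_neg σ _).trans (congrArg Neg.neg (ih 0))
    | zero => exact map_zero σ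
    | smul c => exact (map_smul σ c _).trans (congrArg (c • ·) (ih 0))

theorem ev_cong {β : Type} {v w : β → H} (h : ∀ i, v i - w i ∈ sq K H)
    (t : (lang K true).Term β) : ev K v t - ev K w t ∈ sq K H := by
  induction t with
  | var a => exact h a
  | func f ts ih =>
    cases f with
    | add =>
      change (ev K v (ts 0) + ev K v (ts 1)) - (ev K w (ts 0) + ev K w (ts 1)) ∈ _
      rw [add_sub_add_comm]; exact add_mem (ih 0) (ih 1)
    | br => exact sub_mem (mem_sq _ _) (mem_sq _ _)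
    | minus _ =>
      change -ev K v (ts 0) - -ev K w (ts 0) ∈ _
      rw [neg_sub_neg, ← neg_sub]; exact neg_mem (ih 0)
    | zero => change (0 : H) - 0 ∈ _; simp
    | smul c =>
      change c • ev K v (ts 0) - c • ev K w (ts 0) ∈ _
      rw [← smul_sub]; exact Submodule.smul_mem _ _ (ih 0)

theorem ev_aff (hm : ∀ a ∈ sq K H, ∀ b ∈ sq K H, ⁅a, b⁆ = 0) {β : Type} {u v w : β → H}
    (h1 : ∀ i, u i - v i ∈ sq K H) (h2 : ∀ i, w i - v i ∈ sq K H) (t : (lang K true).Term β) :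
    ev K (u - v + w) t = ev K u t - ev K v t + ev K w t := by
  induction t with
  | var a => rfl
  | func f ts ih =>
    cases f with
    | add =>
      change ev K _ (ts 0) + ev K _ (ts 1) = (ev K u (ts 0) + ev K u (ts 1)) -
        (ev K v (ts 0) + ev K v (ts 1)) + (ev K w (ts 0) + ev K w (ts 1))
      rw [ih 0, ih 1]; abel
    | br =>
      change ⁅ev K _ (ts 0), ev K _ (ts 1)⁆ = ⁅ev K u (ts 0), ev K u (ts 1)⁆ -
        ⁅ev K v (ts 0), ev K v (ts 1)⁆ + ⁅ev K w (ts 0), ev K w (ts 1)⁆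
      rw [ih 0, ih 1]
      have a1 := ev_cong h1 (ts 0)
      have a2 := ev_cong h1 (ts 1)
      have a3 := ev_cong h2 (ts 0)
      have a4 := ev_cong h2 (ts 1)
      generalize ev K v (ts 0) = b at *
      generalize ev K v (ts 1) = b' at *
      obtain ⟨m, e1⟩ : ∃ m, ev K u (ts 0) = b + m := ⟨_, (add_sub_cancel _ _).symm⟩
      obtain ⟨m', e2⟩ : ∃ m, ev K u (ts 1) = b' + m := ⟨_, (add_sub_cancel _ _).symm⟩
      obtain ⟨n, e3⟩ : ∃ m, ev K w (ts 0) = b + m := ⟨_, (add_sub_cancel _ _).symm⟩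
      obtain ⟨n', e4⟩ : ∃ m, ev K w (ts 1) = b' + m := ⟨_, (add_sub_cancel _ _).symm⟩
      rw [e1, add_sub_cancel_left] at a1
      rw [e2, add_sub_cancel_left] at a2
      rw [e3, add_sub_cancel_left] at a3
      rw [e4, add_sub_cancel_left] at a4
      rw [e1, e2, e3, e4]
      simp only [add_sub_cancel_left, add_lie, lie_add, hm _ a1 _ a2, hm _ a1 _ a4, hm _ a3 _ a2,
        hm _ a3 _ a4]
      abel
    | minus _ =>
      change -ev K _ (ts 0) = -ev K u (ts 0) - -ev K v (ts 0) + -ev K w (ts 0)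
      rw [ih 0]; abel
    | zero => change (0 : H) = 0 - 0 + 0; simp
    | smul c =>
      change c • ev K _ (ts 0) = c • ev K u (ts 0) - c • ev K v (ts 0) + c • ev K w (ts 0)
      rw [ih 0, smul_add, smul_sub]

theorem same [Finite K] {r m : ℕ} {x : Fin r → H} (hx : Gens K x)
    (hm : ∀ a ∈ sq K H, ∀ b ∈ sq K H, ⁅a, b⁆ = 0) {a b : Fin m → H} (f g : H →ₗ⁅K⁆ H)
    (hf : ∀ c, f c - c ∈ sq K H) (hg : ∀ c, g c - c ∈ sq K H) (h1 : f ∘ a = b) (h2 : g ∘ b = a) :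
    @Isotyp.SameType (lang K true) H H (str K true H) (str K true H) m a b := by
  classical
  letI := str K true H
  haveI : ∀ n, IsEmpty ((lang K true).Relations n) := fun _ => (inferInstance : IsEmpty Empty)
  haveI : Finite (H ⧸ sq K H) := Finite.of_surjective
    (fun c : Fin r → K => (sq K H).mkQ (∑ i, c i • x i)) fun q => by
      obtain ⟨p, rfl⟩ := (sq K H).mkQ_surjective q
      obtain ⟨c, hc⟩ := lin hx p
      exact ⟨c, ((Submodule.Quotient.eq _).2 hc).symm⟩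
  letI : Fintype (H ⧸ sq K H) := Fintype.ofFinite _
  refine same_type {h | ∃ σ : H →ₗ⁅K⁆ H, h = σ ∧ ∀ c, σ c - c ∈ sq K H} (fun n s t => ?_)
    ⟨f, rfl, hf⟩ ⟨g, rfl, hg⟩ h1 h2
  refine ⟨Finset.univ.image fun κ : Fin m ⊕ Fin n → H ⧸ sq K H =>
    {p | (∀ i, (sq K H).mkQ (Sum.elim p.1 p.2 i) = κ i) ∧
      ev K (Sum.elim p.1 p.2) s = ev K (Sum.elim p.1 p.2) t}, fun A hA => ?_, fun p q h hp =>
    ((h _ (Finset.mem_image_of_mem _ (Finset.mem_univ _))).1 ⟨fun _ => rfl, hp⟩).2⟩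
  obtain ⟨κ, -, rfl⟩ := Finset.mem_image.1 hA
  constructor
  · rintro u ⟨u1, u2⟩ v ⟨v1, v2⟩ w ⟨w1, w2⟩
    have e : Sum.elim (u - v + w).1 (u - v + w).2 =
        Sum.elim u.1 u.2 - Sum.elim v.1 v.2 + Sum.elim w.1 w.2 := by
      funext i; rcases i with i | i <;> rfl
    have c1 : ∀ i, Sum.elim u.1 u.2 i - Sum.elim v.1 v.2 i ∈ sq K H := fun i =>
      (Submodule.Quotient.eq _).1 ((u1 i).trans (v1 i).symm)
    have c2 : ∀ i, Sum.elim w.1 w.2 i - Sum.elim v.1 v.2 i ∈ sq K H := fun i =>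
      (Submodule.Quotient.eq _).1 ((w1 i).trans (v1 i).symm)
    refine ⟨fun i => ?_, ?_⟩
    · rw [e, Pi.add_apply, Pi.sub_apply, map_add, map_sub, u1, v1, w1, sub_add_cancel]
    · rw [e, ev_aff hm c1 c2, ev_aff hm c1 c2, u2, v2, w2]
  · rintro _ ⟨σ, rfl, hσ⟩ p ⟨p1, p2⟩
    have e : Sum.elim (σ ∘ p.1) (σ ∘ p.2) = fun i => σ (Sum.elim p.1 p.2 i) := by
      funext i; rcases i with i | i <;> rfl
    refine ⟨fun i => ?_, ?_⟩
    · rw [← p1 i]
      change (sq K H).mkQ (Sum.elim (σ ∘ p.1) (σ ∘ p.2) i) = _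
      rw [e]
      exact (Submodule.Quotient.eq _).2 (hσ _)
    · change ev K (Sum.elim (σ ∘ p.1) (σ ∘ p.2)) s = ev K (Sum.elim (σ ∘ p.1) (σ ∘ p.2)) t
      rw [e, ev_hom, ev_hom, p2]

theorem kill_der {B : Type} [LieRing B] [LieAlgebra K B] (φ : H →ₗ⁅K⁆ B)
    (hm : ∀ a ∈ sq K B, ∀ b ∈ sq K B, ⁅a, b⁆ = 0) :
    ∀ a ∈ LieAlgebra.derivedSeries K H 2, φ a = 0 := by
  have h1 : ∀ a ∈ LieAlgebra.derivedSeries K H 1, φ a ∈ sq K B := fun a ha => by
    rw [LieAlgebra.derivedSeries_def, LieAlgebra.derivedSeriesOfIdeal_succ,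
      ← LieSubmodule.mem_toSubmodule, LieSubmodule.lieIdeal_oper_eq_linear_span'] at ha
    refine (Submodule.span_le.2 ?_ : _ ≤ (sq K B).comap (φ : H →ₗ[K] B)) ha
    rintro _ ⟨p, -, q, -, rfl⟩
    change φ ⁅p, q⁆ ∈ sq K B
    rw [LieHom.map_lie]; exact mem_sq _ _
  intro a ha
  rw [LieAlgebra.derivedSeries_def, LieAlgebra.derivedSeriesOfIdeal_succ,
    ← LieSubmodule.mem_toSubmodule, LieSubmodule.lieIdeal_oper_eq_linear_span'] at ha
  refine (Submodule.span_le.2 ?_ : _ ≤ LinearMap.ker (φ : H →ₗ[K] B)) ha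
  rintro _ ⟨p, hp, q, hq, rfl⟩
  change φ ⁅p, q⁆ = 0
  rw [LieHom.map_lie]; exact hm _ (h1 p hp) _ (h1 q hq)

theorem sol_metab (r : ℕ) : ∀ a ∈ sq K (Sol K r 2), ∀ b ∈ sq K (Sol K r 2), ⁅a, b⁆ = 0 := by
  have h1 : ∀ a ∈ sq K (Sol K r 2), ∃ p ∈ LieAlgebra.derivedSeries K (Lr K r) 1, mkH _ p = a := by
    intro a ha
    refine (Submodule.span_le.2 ?_ : _ ≤ (LieAlgebra.derivedSeries K (Lr K r) 1).toSubmodule.map
      (mkH (LieAlgebra.derivedSeries K (Lr K r) 2) : Lr K r →ₗ[K] Sol K r 2)) ha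
    rintro _ ⟨p, q, rfl⟩
    obtain ⟨p, rfl⟩ := mkH_surj _ p
    obtain ⟨q, rfl⟩ := mkH_surj _ q
    refine ⟨⁅p, q⁆, ?_, rfl⟩
    change ⁅p, q⁆ ∈ LieAlgebra.derivedSeriesOfIdeal K (Lr K r) (0 + 1) ⊤
    rw [LieAlgebra.derivedSeriesOfIdeal_succ]
    exact LieSubmodule.lie_mem_lie (by simp) (by simp)
  intro a ha b hb
  obtain ⟨p, hp, rfl⟩ := h1 a ha
  obtain ⟨q, hq, rfl⟩ := h1 b hb
  rw [← LieHom.map_lie, mkH_zero, LieAlgebra.derivedSeries_def,
    LieAlgebra.derivedSeriesOfIdeal_succ]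
  exact LieSubmodule.lie_mem_lie hp hq

noncomputable def gen (K : Type) [Field K] (r : ℕ) (i : Fin r) : Sol K r 2 := mkH _ (FreeLieAlgebra.of K i)

theorem sol_gens (r : ℕ) : Gens K (gen K r) := Gens.map gens_free _ (mkH_surj _)

theorem sol_lift {B : Type} [LieRing B] [LieAlgebra K B] {r : ℕ}
    (hm : ∀ a ∈ sq K B, ∀ b ∈ sq K B, ⁅a, b⁆ = 0) (f : Fin r → B) :
    ∃ ψ : Sol K r 2 →ₗ⁅K⁆ B, ∀ i, ψ (gen K r i) = f i := by
  obtain ⟨g, hg⟩ := exists_lift _ (FreeLieAlgebra.lift K f) (kill_der _ hm)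
  exact ⟨g, fun i => by rw [gen, hg, FreeLieAlgebra.lift_of_apply]⟩

theorem hom_ext {B ι : Type} [LieRing B] [LieAlgebra K B] {x : ι → H} (hx : Gens K x)
    {f g : H →ₗ⁅K⁆ B} (h : ∀ i, f (x i) = g (x i)) (a : H) : f a = g a :=
  hx.ind (LinearMap.eqLocus (f : H →ₗ[K] B) g) h (fun p hp q hq => by
    change f _ = g _
    rw [LieHom.map_lie, LieHom.map_lie, show f p = g p from hp, show f q = g q from hq]) a

theorem ia {ι : Type} {x : ι → H} (hx : Gens K x) (f : H →ₗ⁅K⁆ H)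
    (h : ∀ i, f (x i) - x i ∈ sq K H) (a : H) : f a - a ∈ sq K H :=
  hx.ind ((sq K H).comap (f.toLinearMap - LinearMap.id (R := K) (M := H))) h (fun p _ q _ => by
    change f _ - _ ∈ sq K H
    rw [LieHom.map_lie]; exact sub_mem (mem_sq _ _) (mem_sq _ _)) a

def mu1 (x y z : H) : H := x - ⁅y, ⁅y, x⁆⁆ + ⁅z, ⁅z, y⁆⁆
def mu2 (x y z : H) : H := x - ⁅y, ⁅y, x⁆⁆ + ⁅y, ⁅z, ⁅z, y⁆⁆⁆

theorem comm (hm : ∀ a ∈ sq K H, ∀ b ∈ sq K H, ⁅a, b⁆ = 0) (a b : H) {u : H} (hu : u ∈ sq K H) :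
    ⁅a, ⁅b, u⁆⁆ = ⁅b, ⁅a, u⁆⁆ := by
  rw [leibniz_lie, hm _ (mem_sq _ _) _ hu, zero_add]

theorem id1 (hm : ∀ a ∈ sq K H, ∀ b ∈ sq K H, ⁅a, b⁆ = 0) (x y z : H) :
    mu1 (x + ⁅z, ⁅y, ⁅z, y⁆⁆ - ⁅z, y⁆⁆) y (z - ⁅y, ⁅y, ⁅z, y⁆⁆ - ⁅z, y⁆⁆) = mu2 x y z := by
  have hu : ⁅y, ⁅z, y⁆⁆ - ⁅z, y⁆ ∈ sq K H := sub_mem (mem_sq _ _) (mem_sq _ _)
  have e : ⁅z, ⁅y, ⁅z, y⁆⁆ - ⁅z, y⁆⁆ = ⁅y, ⁅z, ⁅z, y⁆⁆⁆ - ⁅z, ⁅z, y⁆⁆ := by
    rw [lie_sub, comm hm z y (mem_sq _ _)]
  generalize ⁅y, ⁅z, y⁆⁆ - ⁅z, y⁆ = u at *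
  rw [mu1, mu2, sub_lie z _ ⁅_, y⁆, hm _ (mem_sq _ _) _ (mem_sq _ _), sub_lie, ← lie_skew ⁅y, u⁆ y,
    lie_sub, lie_neg, lie_add, lie_add, comm hm z y (mem_sq _ _), comm hm z y hu, e]
  abel

theorem id2 (hm : ∀ a ∈ sq K H, ∀ b ∈ sq K H, ⁅a, b⁆ = 0) (x y z : H) :
    mu2 (x - ⁅z, ⁅y, ⁅z, y⁆⁆ - ⁅z, y⁆⁆) y (z + (⁅y, ⁅z, y⁆⁆ - ⁅z, y⁆)) = mu1 x y z := by
  have hu : ⁅y, ⁅z, y⁆⁆ - ⁅z, y⁆ ∈ sq K H := sub_mem (mem_sq _ _) (mem_sq _ _)
  have e : ⁅z, ⁅y, ⁅z, y⁆⁆ - ⁅z, y⁆⁆ = ⁅y, ⁅z, ⁅z, y⁆⁆⁆ - ⁅z, ⁅z, y⁆⁆ := by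
    rw [lie_sub, comm hm z y (mem_sq _ _)]
  generalize ⁅y, ⁅z, y⁆⁆ - ⁅z, y⁆ = u at *
  rw [mu1, mu2, add_lie z _ ⁅_, y⁆, hm _ hu _ (mem_sq _ _), add_lie, ← lie_skew u y, add_zero,
    lie_add, lie_add, lie_neg, lie_neg, lie_sub, lie_sub, comm hm z y hu, e]
  abel

end types

/-- the Magnus algebra -/
def W (R : Type) : Type := R × (Fin 3 → R)

section magnus
variable {K R : Type} [Field K] [CommRing R] [Algebra K R]

instance : AddCommGroup (W R) := inferInstanceAs (AddCommGroup (R × (Fin 3 → R)))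
instance : Module K (W R) := inferInstanceAs (Module K (R × (Fin 3 → R)))
instance : Bracket (W R) (W R) :=
  ⟨fun a b => ((0, fun i => a.1 * b.2 i - b.1 * a.2 i) : R × (Fin 3 → R))⟩
theorem W.ext' {a b : W R} (h1 : a.1 = b.1) (h2 : ∀ i, a.2 i = b.2 i) : a = b :=
  Prod.ext h1 (funext h2)
@[simp] theorem W.br1 (a b : W R) : ⁅a, b⁆.1 = 0 := rfl
@[simp] theorem W.br2 (a b : W R) (i : Fin 3) : ⁅a, b⁆.2 i = a.1 * b.2 i - b.1 * a.2 i := rfl
@[simp] theorem W.add1 (a b : W R) : (a + b).1 = a.1 + b.1 := rfl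
@[simp] theorem W.add2 (a b : W R) (i : Fin 3) : (a + b).2 i = a.2 i + b.2 i := rfl
@[simp] theorem W.sub2 (a b : W R) (i : Fin 3) : (a - b).2 i = a.2 i - b.2 i := rfl
@[simp] theorem W.smul1 (c : K) (b : W R) : (c • b).1 = c • b.1 := rfl
@[simp] theorem W.smul2 (c : K) (b : W R) (i : Fin 3) : (c • b).2 i = c • b.2 i := rfl
@[simp] theorem W.zero1 : (0 : W R).1 = 0 := rfl
@[simp] theorem W.zero2 (i : Fin 3) : (0 : W R).2 i = 0 := rfl

instance : LieRing (W R) where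
  add_lie a b c := W.ext' (by simp) fun i => by simp; ring
  lie_add a b c := W.ext' (by simp) fun i => by simp; ring
  lie_self a := W.ext' (by simp) fun i => by simp
  leibniz_lie a b c := W.ext' (by simp) fun i => by simp; ring

instance : LieAlgebra K (W R) where
  lie_smul t a b := W.ext' (by simp) fun i => by simp [smul_sub]

theorem W.metab : ∀ a ∈ sq K (W R), ∀ b ∈ sq K (W R), ⁅a, b⁆ = 0 := by
  have h : ∀ a ∈ sq K (W R), a.1 = 0 := fun a ha => by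
    induction ha using Submodule.span_induction with
    | mem c hc => obtain ⟨p, q, rfl⟩ := hc; rfl
    | zero => rfl
    | add p q _ _ h1 h2 => simp [h1, h2]
    | smul c p _ h1 => simp [h1]
  exact fun a ha b hb => W.ext' rfl fun i => by rw [W.br2, h a ha, h b hb]; simp

def Phi (θ : R →ₐ[K] R) (J : Fin 3 → Fin 3 → R) : W R →ₗ⁅K⁆ W R where
  toFun a := ((θ a.1, fun k => ∑ j, θ (a.2 j) * J j k) : R × (Fin 3 → R))
  map_add' a b := W.ext' (by simp) fun k => by simp [add_mul, Finset.sum_add_distrib]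
  map_smul' c a := W.ext' (by simp) fun k => by simp [Finset.smul_sum]
  map_lie' {a b} := W.ext' (map_zero θ) fun k => by
    change ∑ j, θ (a.1 * b.2 j - b.1 * a.2 j) * J j k =
      θ a.1 * (∑ j, θ (b.2 j) * J j k) - θ b.1 * ∑ j, θ (a.2 j) * J j k
    simp only [Fin.sum_univ_three, map_sub, map_mul]; ring

end magnus

instance : Fact (Nat.Prime 3) := ⟨by norm_num⟩
abbrev F : Type := ZMod 3
abbrev R : Type := MvPolynomial (Fin 3) F

noncomputable def P (ξ : Fin 3 → R) : Fin 3 → R :=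
  ![1 - ξ 1 * ξ 1, ξ 0 * ξ 1 + ξ 2 * ξ 2, -(ξ 1 * ξ 2)]
noncomputable def Q : Fin 3 → R :=
  ![1 - X 1 * X 1, X 0 * X 1 + X 1 * X 2 * X 2, -(X 1 * X 1 * X 2)]

theorem poly_contra (ξ : Fin 3 → R) (J : Matrix (Fin 3) (Fin 3) R) (g : Fin 3 → Fin 3 → F) (κ : F)
    (hκ : κ ≠ 0) (hd : J.det = C κ) (hg : ∀ i, ξ i = ∑ j, C (g i j) * X j)
    (hQ : ∀ k, Q k = ∑ j, P ξ j * J j k) : False := by
  have main : ∀ t : F, t * t = 1 → (1 : F) = t * (g 1 1 * Matrix.det (Matrix.of g) * κ) := by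
    intro t ht
    obtain ⟨e, e0, e1, e2, ec⟩ : ∃ e : R →+* F, e (X 0) = 0 ∧ e (X 1) = t ∧ e (X 2) = 0 ∧
      ∀ c, e (C c) = c := ⟨eval ![0, t, 0], by simp, by simp, by simp, by simp⟩
    have hdet : (e.mapMatrix J).det = κ := by rw [← RingHom.map_det, hd, ec]
    have eξ : ∀ i, e (ξ i) = g i 1 * t := fun i => by simp [hg, Fin.sum_univ_three, e0, e1, e2, ec]
    have dξ : ∀ i l, e (pderiv l (ξ i)) = g i l := fun i l => by
      fin_cases l <;> simp [hg, Fin.sum_univ_three, ec]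
    have h0 : (fun j => e (P ξ j)) = 0 := by
      refine Matrix.eq_zero_of_vecMul_eq_zero (M := e.mapMatrix J) (hdet ▸ hκ) ?_
      funext k
      have := congrArg e (hQ k)
      rw [map_sum] at this
      simp only [map_mul] at this
      refine this.symm.trans ?_
      fin_cases k <;> simp [Q, ht, e0, e1, e2]
    have p0 := congrFun h0 0
    have p1 := congrFun h0 1
    have p2 := congrFun h0 2
    simp only [P, Matrix.cons_val_zero, Matrix.cons_val_one, Matrix.cons_val, map_sub, map_one,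
      map_mul, map_add, map_neg, Pi.zero_apply] at p0 p1 p2
    have q2 : e (ξ 2) = 0 := by linear_combination -e (ξ 1) * p2 + e (ξ 2) * p0
    have q0 : e (ξ 0) = 0 := by
      linear_combination e (ξ 1) * p1 + e (ξ 0) * p0 - e (ξ 1) * e (ξ 2) * q2
    have hM : (Matrix.of fun l k => e (pderiv l (Q k))) =
        (Matrix.of fun l j => e (pderiv l (P ξ j))) * e.mapMatrix J := by
      ext1 l k
      rw [Matrix.mul_apply, Matrix.of_apply, hQ, map_sum, map_sum]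
      refine Finset.sum_congr rfl fun j _ => ?_
      have := congrFun h0 j
      simp only [Pi.zero_apply] at this
      simp [Derivation.leibniz, this, mul_comm]
    have A1 : (Matrix.of fun l k => e (pderiv l (Q k))) = !![0, t, 0; -2 * t, 0, 0; 0, 0, -1] := by
      ext l k
      fin_cases l <;> fin_cases k <;> simp [Q, Derivation.leibniz, e0, e1, e2, ht, two_mul]
    have A2 : (Matrix.of fun l j => e (pderiv l (P ξ j))) =
        Matrix.of fun l => ![-2 * e (ξ 1) * g 1 l, e (ξ 1) * g 0 l, -e (ξ 1) * g 2 l] := by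
      ext l k
      fin_cases k <;> simp [P, Derivation.leibniz, dξ, q0, q2] <;> ring
    have hD := congrArg Matrix.det hM
    rw [Matrix.det_mul, hdet, A1, A2, Matrix.det_fin_three, Matrix.det_fin_three] at hD
    simp only [Matrix.of_apply, Matrix.cons_val_zero, Matrix.cons_val_one, Matrix.cons_val,
      Matrix.cons_val', Matrix.cons_val_fin_one] at hD
    rw [eξ] at hD p0
    rw [Matrix.det_fin_three]
    simp only [Matrix.of_apply]
    have h2 : (2 : F) ≠ 0 := by decide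
    apply mul_left_cancel₀ h2
    linear_combination -hD - 2 * ht + 2 * κ * g 1 1 * t * (g 0 0 * g 1 1 * g 2 2 - g 0 0 * g 1 2 * g 2 1
      - g 0 1 * g 1 0 * g 2 2 + g 0 1 * g 1 2 * g 2 0 + g 0 2 * g 1 0 * g 2 1
      - g 0 2 * g 1 1 * g 2 0) * (-p0)
  have m1 := main 1 (by simp)
  have m2 := main (-1) (by simp)
  have : (1 : F) + 1 = 0 := by linear_combination m1 + m2
  exact absurd this (by decide)

theorem no_aut (σ : Sol F 3 2 ≃ₗ⁅F⁆ Sol F 3 2) :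
    σ (mu1 (gen F 3 0) (gen F 3 1) (gen F 3 2)) ≠ mu2 (gen F 3 0) (gen F 3 1) (gen F 3 2) := by
  intro hσ
  obtain ⟨ι, hι⟩ := sol_lift (K := F) (B := W R) W.metab
    fun i : Fin 3 => ((X i, Pi.single i 1) : R × (Fin 3 → R))
  let ξ : Fin 3 → R := fun i => (ι (σ (gen F 3 i))).1
  let J : Matrix (Fin 3) (Fin 3) R := fun i => (ι (σ (gen F 3 i))).2
  have key : ∀ a, ι (σ a) = Phi (aeval ξ) J (ι a) := fun a =>
    hom_ext (sol_gens 3) (f := ι.comp σ.toLieHom) (g := (Phi (aeval ξ) J).comp ι) (fun i => by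
      change ι (σ (gen F 3 i)) = Phi (aeval ξ) J (ι (gen F 3 i))
      rw [hι]
      refine W.ext' (aeval_X ξ i).symm fun k => ?_
      change J i k = ∑ j, aeval ξ ((Pi.single i 1 : Fin 3 → R) j) * J j k
      rw [Finset.sum_eq_single i] <;> simp +contextual [Pi.single_apply]) a
  have hJ : (Matrix.of fun i j => aeval ξ ((ι (σ.symm (gen F 3 i))).2 j)) * J = 1 := by
    ext1 i k
    have := congrArg (fun w : W R => w.2 k) (key (σ.symm (gen F 3 i)))
    rw [LieEquiv.apply_symm_apply, hι] at this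
    rw [Matrix.mul_apply, Matrix.one_apply, eq_comm]
    refine Eq.trans ?_ this
    simp [Pi.single_apply, eq_comm]
  obtain ⟨κ, hκ, hd⟩ := isUnit_iff_eq_C_of_isReduced.1 (Matrix.isUnit_det_of_left_inverse hJ)
  have hlin : ∀ a, ∃ c : Fin 3 → F, (ι a).1 = ∑ j, C (c j) * X j := fun a =>
    (sol_gens 3).ind
      { carrier := {a | ∃ c : Fin 3 → F, (ι a).1 = ∑ j, C (c j) * X j}
        add_mem' := by
          rintro p q ⟨c, hc⟩ ⟨d, hd⟩
          exact ⟨c + d, by simp [hc, hd, add_mul, Finset.sum_add_distrib]⟩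
        zero_mem' := ⟨0, by simp⟩
        smul_mem' := by
          rintro t p ⟨c, hc⟩
          exact ⟨t • c, by simp [hc, Finset.mul_sum, smul_eq_C_mul, mul_assoc]⟩ }
      (fun i => ⟨Pi.single i 1, by
        rw [hι, Finset.sum_eq_single i] <;> simp +contextual [Pi.single_apply]⟩)
      (fun p _ q _ => ⟨0, by simp⟩) a
  choose g hg using fun i => hlin (σ (gen F 3 i))
  have hQ : ∀ k, Q k = ∑ j, P ξ j * J j k := fun k => by
    have := congrArg (fun w : W R => w.2 k) (key (mu1 (gen F 3 0) (gen F 3 1) (gen F 3 2)))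
    rw [hσ] at this
    change _ = ∑ j, aeval ξ ((ι _).2 j) * J j k at this
    simp only [mu1, mu2, map_add, map_sub, LieHom.map_lie, hι, W.add2, W.sub2, W.br2, W.br1] at this
    refine Eq.trans ?_ (this.trans (Finset.sum_congr rfl fun j _ => ?_))
    · fin_cases k <;> simp [Q] <;> ring
    · congr 1
      fin_cases j <;> simp [P] <;> ring
  exact poly_contra ξ J g κ hκ.ne_zero hd hg hQ

theorem not_hom : ¬ LogHom F (Sol F 3 2) := by
  intro h
  have hm := sol_metab (K := F) 3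
  set x := gen F 3 0
  set y := gen F 3 1
  set z := gen F 3 2
  obtain ⟨f, hf⟩ := sol_lift hm ![x + ⁅z, ⁅y, ⁅z, y⁆⁆ - ⁅z, y⁆⁆, y, z - ⁅y, ⁅y, ⁅z, y⁆⁆ - ⁅z, y⁆⁆]
  obtain ⟨g, hg⟩ := sol_lift hm ![x - ⁅z, ⁅y, ⁅z, y⁆⁆ - ⁅z, y⁆⁆, y, z + (⁅y, ⁅z, y⁆⁆ - ⁅z, y⁆)]
  obtain ⟨σ, hσ⟩ := h 1 (fun _ => mu1 x y z) (fun _ => mu2 x y z) (same (sol_gens 3) hm f g
    (ia (sol_gens 3) f fun i => by
      rw [hf]
      fin_cases i
      · simpa [x] using sub_mem (mem_sq _ _) (mem_sq _ _)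
      · simp [y]
      · simpa [z] using sub_mem (mem_sq _ _) (mem_sq _ _))
    (ia (sol_gens 3) g fun i => by
      rw [hg]
      fin_cases i
      · simpa [x] using sub_mem (mem_sq _ _) (mem_sq _ _)
      · simp [y]
      · simpa [z] using sub_mem (mem_sq _ _) (mem_sq _ _))
    (funext fun _ => by
      rw [← id1 hm x y z]
      have h0 : f x = _ := hf 0
      have h1 : f y = _ := hf 1
      have h2 : f z = _ := hf 2
      simp only [Function.comp, mu1, map_add, map_sub, LieHom.map_lie, h0, h1, h2]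
      rfl)
    (funext fun _ => by
      rw [← id2 hm x y z]
      have h0 : g x = _ := hg 0
      have h1 : g y = _ := hg 1
      have h2 : g z = _ := hg 2
      simp only [Function.comp, mu2, map_add, map_sub, LieHom.map_lie, h0, h1, h2]
      rfl))
  exact no_aut σ (hσ 0)

end Pool.Agent.H10.Metab
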