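import Mathlib

/-! A class three group with an action of `SL(2, F)`. -/

namespace Pool.Agent.H10.NV

open Matrix MatrixGroups
open scoped commutatorElement

/-- the data: a truncated graded commutative algebra -/
structure Dat (F K T L : Type) [Field F] [AddCommGroup K] [AddCommGroup T] [AddCommGroup L]
    [Module F K] [Module F T] [Module F L] where
  mu : K →ₗ[F] K →ₗ[F] T
  nu : T →ₗ[F] K →ₗ[F] L
  mu_comm : ∀ a b, mu a b = mu b a
  nu_comm : ∀ a b c, nu (mu a b) c = nu (mu a c) b

variable {F K T L : Type} [Field F] [AddCommGroup K] [AddCommGroup T] [AddCommGroup L]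
    [Module F K] [Module F T] [Module F L]

/-- the class three group -/
@[ext] structure P (D : Dat F K T L) where
  x : K
  y : K
  t : T
  z : L
  w : L

variable {D : Dat F K T L}

/-- the alternating form -/
def om (D : Dat F K T L) (u v : P D) : T := D.mu u.x v.y - D.mu u.y v.x

instance : Mul (P D) := ⟨fun u v => ⟨u.x + v.x, u.y + v.y, u.t + v.t + om D u v,
  u.z + v.z + (3 : F) • D.nu u.t v.x - (3 : F) • D.nu v.t u.x + D.nu (om D u v) v.x
    - D.nu (om D u v) u.x,
  u.w + v.w + (3 : F) • D.nu u.t v.y - (3 : F) • D.nu v.t u.y + D.nu (om D u v) v.y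
    - D.nu (om D u v) u.y⟩⟩
instance : One (P D) := ⟨⟨0, 0, 0, 0, 0⟩⟩
instance : Inv (P D) := ⟨fun u => ⟨-u.x, -u.y, -u.t, -u.z, -u.w⟩⟩

@[simp] theorem mul_x (u v : P D) : (u * v).x = u.x + v.x := rfl
@[simp] theorem mul_y (u v : P D) : (u * v).y = u.y + v.y := rfl
@[simp] theorem mul_t (u v : P D) : (u * v).t = u.t + v.t + om D u v := rfl
@[simp] theorem mul_z (u v : P D) : (u * v).z = u.z + v.z + (3 : F) • D.nu u.t v.x
    - (3 : F) • D.nu v.t u.x + D.nu (om D u v) v.x - D.nu (om D u v) u.x := rfl
@[simp] theorem mul_w (u v : P D) : (u * v).w = u.w + v.w + (3 : F) • D.nu u.t v.y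
    - (3 : F) • D.nu v.t u.y + D.nu (om D u v) v.y - D.nu (om D u v) u.y := rfl
@[simp] theorem one_x : (1 : P D).x = 0 := rfl
@[simp] theorem one_y : (1 : P D).y = 0 := rfl
@[simp] theorem one_t : (1 : P D).t = 0 := rfl
@[simp] theorem one_z : (1 : P D).z = 0 := rfl
@[simp] theorem one_w : (1 : P D).w = 0 := rfl
@[simp] theorem inv_x (u : P D) : u⁻¹.x = -u.x := rfl
@[simp] theorem inv_y (u : P D) : u⁻¹.y = -u.y := rfl
@[simp] theorem inv_t (u : P D) : u⁻¹.t = -u.t := rfl
@[simp] theorem inv_z (u : P D) : u⁻¹.z = -u.z := rfl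
@[simp] theorem inv_w (u : P D) : u⁻¹.w = -u.w := rfl

theorem nu3 (D : Dat F K T L) (a b c : K) : D.nu (D.mu a b) c = D.nu (D.mu c b) a := by
  rw [D.mu_comm a b, D.nu_comm, D.mu_comm]

instance : Group (P D) := Group.ofLeftAxioms
  (fun a b c => by
    ext
    · simp [add_assoc]
    · simp [add_assoc]
    · simp only [mul_t, mul_x, mul_y, om, map_add, LinearMap.add_apply]; abel
    · simp only [mul_z, mul_t, mul_x, mul_y, om, map_add, map_sub, LinearMap.add_apply,
        LinearMap.sub_apply, D.mu_comm, D.nu_comm, nu3 D]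
      module
    · simp only [mul_w, mul_t, mul_x, mul_y, om, map_add, map_sub, LinearMap.add_apply,
        LinearMap.sub_apply, D.mu_comm, D.nu_comm, nu3 D]
      module)
  (fun a => by ext <;> simp [om])
  (fun a => by ext <;> simp [om, D.mu_comm])

/-- the action of a matrix -/
def act (h : SL(2, F)) (u : P D) : P D :=
  ⟨h 0 0 • u.x + h 0 1 • u.y, h 1 0 • u.x + h 1 1 • u.y, u.t,
    h 0 0 • u.z + h 0 1 • u.w, h 1 0 • u.z + h 1 1 • u.w⟩

theorem om_act (h : SL(2, F)) (u v : P D) : om D (act h u) (act h v) = om D u v := by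
  have hd : h 0 0 * h 1 1 - h 0 1 * h 1 0 = 1 := by
    rw [← Matrix.det_fin_two]; exact h.det_coe
  simp only [om, act, map_add, map_smul, LinearMap.add_apply, LinearMap.smul_apply]
  linear_combination (norm := module) hd • (D.mu u.x v.y - D.mu u.y v.x)

theorem act_mul (h : SL(2, F)) (u v : P D) : act h (u * v) = act h u * act h v := by
  ext
  · simp only [act, mul_x, mul_y]; module
  · simp only [act, mul_x, mul_y]; module
  · rw [mul_t, om_act]; rfl
  · rw [mul_z, om_act]
    simp only [act, mul_z, mul_w, map_add, map_smul]; module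
  · rw [mul_w, om_act]
    simp only [act, mul_z, mul_w, map_add, map_smul]; module

theorem act_one (u : P D) : act 1 u = u := by
  ext <;> simp [act]

theorem act_act (g h : SL(2, F)) (u : P D) : act g (act h u) = act (g * h) u := by
  have e : ∀ i j, (g * h) i j = g i 0 * h 0 j + g i 1 * h 1 j := fun i j => by
    simp [Matrix.mul_apply, Fin.sum_univ_two]
  ext <;> simp only [act, e] <;> module

/-- the action as a homomorphism -/
def phi (D : Dat F K T L) : SL(2, F) →* MulAut (P D) where
  toFun h :=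
    { toFun := act h
      invFun := act h⁻¹
      left_inv := fun u => by rw [act_act, inv_mul_cancel, act_one]
      right_inv := fun u => by rw [act_act, mul_inv_cancel, act_one]
      map_mul' := act_mul h }
  map_one' := by ext1 u; exact act_one u
  map_mul' g h := by ext1 u; exact (act_act g h u).symm

theorem phi_apply (h : SL(2, F)) (u : P D) : phi D h u = act h u := rfl

/-- the group -/
abbrev G (D : Dat F K T L) : Type := P D ⋊[phi D] SL(2, F)

theorem act_neg (u : P D) : act (-1) u = ⟨-u.x, -u.y, u.t, -u.z, -u.w⟩ := by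
  ext <;> simp [act]

theorem center_bot (h2 : (2 : F) ≠ 0) (h3 : (3 : F) ≠ 0) [Nontrivial K]
    (hT : ∀ t, (∀ a, D.nu t a = 0) → t = 0) : Subgroup.center (G D) = ⊥ := by
  rw [eq_bot_iff]
  intro g hg
  rw [Subgroup.mem_center_iff] at hg
  have h1 := congrArg SemidirectProduct.left (hg (SemidirectProduct.inr (-1)))
  simp only [SemidirectProduct.mul_left, SemidirectProduct.left_inr, SemidirectProduct.right_inr,
    one_mul, map_one, mul_one, phi_apply, act_neg] at h1
  have hK : ∀ a : K, -a = a → a = 0 := fun a ha => by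
    have : (2 : F) • a = 0 := by rw [two_smul]; nth_rewrite 1 [← ha]; simp
    exact (smul_eq_zero.1 this).resolve_left h2
  have hL : ∀ a : L, -a = a → a = 0 := fun a ha => by
    have : (2 : F) • a = 0 := by rw [two_smul]; nth_rewrite 1 [← ha]; simp
    exact (smul_eq_zero.1 this).resolve_left h2
  have hx : g.left.x = 0 := hK _ (congrArg P.x h1)
  have hy : g.left.y = 0 := hK _ (congrArg P.y h1)
  have hz : g.left.z = 0 := hL _ (congrArg P.z h1)
  have hw : g.left.w = 0 := hL _ (congrArg P.w h1)
  have h4 : ∀ v : P D, v * g.left = g.left * act g.right v := fun v => by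
    have := congrArg SemidirectProduct.left (hg (SemidirectProduct.inl v))
    simpa [phi_apply, act_one] using this
  obtain ⟨a, ha⟩ := exists_ne (0 : K)
  have hr : g.right = 1 := by
    have e1 := congrArg P.x (h4 ⟨a, 0, 0, 0, 0⟩)
    have e2 := congrArg P.y (h4 ⟨a, 0, 0, 0, 0⟩)
    have e3 := congrArg P.x (h4 ⟨0, a, 0, 0, 0⟩)
    have e4 := congrArg P.y (h4 ⟨0, a, 0, 0, 0⟩)
    simp only [mul_x, mul_y, act, hx, hy, smul_zero, add_zero, zero_add] at e1 e2 e3 e4
    have f1 : g.right 0 0 = 1 := smul_left_injective F ha (by simpa using e1.symm)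
    have f2 : g.right 1 0 = 0 := smul_left_injective F ha (by simpa using e2.symm)
    have f3 : g.right 0 1 = 0 := smul_left_injective F ha (by simpa using e3.symm)
    have f4 : g.right 1 1 = 1 := smul_left_injective F ha (by simpa using e4.symm)
    ext i j
    fin_cases i <;> fin_cases j <;> simp [f1, f2, f3, f4]
  have ht : g.left.t = 0 := hT _ fun b => by
    have e1 := congrArg P.z (h4 ⟨b, 0, 0, 0, 0⟩)
    simp only [hr, act_one, mul_z, om, hx, hy, hz, map_zero, LinearMap.zero_apply, sub_zero,
      add_zero, zero_add, smul_zero, zero_sub] at e1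
    exact (smul_eq_zero.1 (hL _ e1)).resolve_left h3
  rw [Subgroup.mem_bot]
  ext <;> simp [hx, hy, hz, hw, ht, hr]

theorem perfect (h2 : (2 : F) ≠ 0) {a : F} (ha : a ≠ 0) (ha2 : a ^ 2 ≠ 1)
    (hT : ∀ S : AddSubgroup T, (∀ a b, D.mu a b ∈ S) → S = ⊤) : commutator (G D) = ⊤ := by
  have hr : ∀ h : SL(2, F), (SemidirectProduct.inr h : G D) ∈ commutator (G D) := by
    intro h
    have h1 : h ∈ commutator SL(2, F) := by rw [SL2.commutator_eq_top ha ha2]; trivial
    have h2 := Subgroup.mem_map_of_mem (SemidirectProduct.inr : _ →* G D) h1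
    rw [map_commutator_eq] at h2
    exact Subgroup.commutator_mono le_top le_top h2
  let C : Subgroup (P D) := (commutator (G D)).comap SemidirectProduct.inl
  have h0 : ∀ x y z w, (⟨x, y, 0, z, w⟩ : P D) ∈ C := by
    intro x y z w
    let u : P D := ⟨(2 : F)⁻¹ • x, (2 : F)⁻¹ • y, 0, (2 : F)⁻¹ • z, (2 : F)⁻¹ • w⟩
    have h1 : ⁅(SemidirectProduct.inl u : G D), (SemidirectProduct.inr (-1) : G D)⁆ ∈ commutator (G D) :=
      Subgroup.commutator_mem_commutator (Subgroup.mem_top _) (Subgroup.mem_top _)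
    have h3 : ⁅(SemidirectProduct.inl u : G D), (SemidirectProduct.inr (-1) : G D)⁆ =
        SemidirectProduct.inl (u * act (-1) u⁻¹) := by
      rw [commutatorElement_def, map_mul, ← phi_apply, SemidirectProduct.inl_aut, map_inv, map_inv]
      simp only [mul_assoc]
    have h5 : ∀ {V : Type} [AddCommGroup V] [Module F V] (v : V),
        (2 : F)⁻¹ • v + (2 : F)⁻¹ • v = v := fun v => by
      rw [← two_smul F, smul_smul, mul_inv_cancel₀ h2, one_smul]
    have h4 : u * act (-1) u⁻¹ = ⟨x, y, 0, z, w⟩ := by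
      rw [act_neg]
      ext <;> simp [u, om, D.mu_comm, h5]
    rw [h3, h4] at h1
    exact h1
  let S : AddSubgroup T :=
    { carrier := {t | (⟨0, 0, t, 0, 0⟩ : P D) ∈ C}
      zero_mem' := h0 0 0 0 0
      add_mem' := fun {s t} hs ht => by
        have := C.mul_mem hs ht
        have e : (⟨0, 0, s, 0, 0⟩ : P D) * ⟨0, 0, t, 0, 0⟩ = ⟨0, 0, s + t, 0, 0⟩ := by
          ext <;> simp [om]
        rwa [e] at this
      neg_mem' := fun {s} hs => by
        have := C.inv_mem hs
        have e : (⟨0, 0, s, 0, 0⟩ : P D)⁻¹ = ⟨0, 0, -s, 0, 0⟩ := by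
          ext <;> simp
        rwa [e] at this }
  have h1 : ∀ u : P D, u ∈ C ↔ u.t ∈ S := by
    intro u
    have e : u = (⟨u.x, u.y, 0, u.z + (3 : F) • D.nu u.t u.x, u.w + (3 : F) • D.nu u.t u.y⟩ : P D) *
        ⟨0, 0, u.t, 0, 0⟩ := by
      ext <;> simp [om]
    rw [e]
    refine (C.mul_mem_cancel_left (h0 _ _ _ _)).trans ?_
    simp [om, S]
  have hS : S = ⊤ := hT S fun a b => by
    have := (h1 _).1 (C.mul_mem (h0 a 0 0 0) (h0 0 b 0 0))
    simpa [om] using this
  rw [eq_top_iff]
  intro g _
  rw [← SemidirectProduct.inl_left_mul_inr_right g]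
  exact mul_mem ((h1 g.left).2 (hS ▸ AddSubgroup.mem_top _)) (hr _)

theorem card_cent [Finite T] [Finite L] [Finite (G D)] (g : G D) :
    Nat.card T ≤ Nat.card (Subgroup.centralizer {g}) := by
  let ψ : T × L × L →ₗ[F] L × L :=
    { toFun := fun q => (g.right 0 0 • q.2.1 + g.right 0 1 • q.2.2 - q.2.1
          - (6 : F) • D.nu q.1 g.left.x,
        g.right 1 0 • q.2.1 + g.right 1 1 • q.2.2 - q.2.2 - (6 : F) • D.nu q.1 g.left.y)
      map_add' := fun p q => by
        ext <;> simp only [Prod.fst_add, Prod.snd_add, map_add, LinearMap.add_apply] <;> module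
      map_smul' := fun c q => by
        ext <;> simp only [Prod.smul_fst, Prod.smul_snd, map_smul, LinearMap.smul_apply,
          RingHom.id_apply] <;> module }
  have h1 := Submodule.card_eq_card_quotient_mul_card (LinearMap.ker ψ)
  have h2 : Nat.card ((T × L × L) ⧸ LinearMap.ker ψ) ≤ Nat.card (L × L) := by
    rw [Nat.card_congr ψ.quotKerEquivRange.toEquiv]
    exact Nat.card_le_card_of_injective _ (LinearMap.range ψ).injective_subtype
  have h3 : Nat.card T ≤ Nat.card (LinearMap.ker ψ) := by
    rw [Nat.card_prod] at h1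
    have h4 : 0 < Nat.card (L × L) := Nat.card_pos
    refine Nat.le_of_mul_le_mul_right ?_ h4
    rw [h1]
    exact Nat.mul_le_mul_left _ h2
  refine h3.trans (Nat.card_le_card_of_injective
    (fun q => ⟨SemidirectProduct.inl ⟨0, 0, q.1.1, q.1.2.1, q.1.2.2⟩, ?_⟩) ?_)
  · rw [Subgroup.mem_centralizer_singleton_iff]
    have hq := q.2
    rw [LinearMap.mem_ker] at hq
    have e1 := congrArg Prod.fst hq
    have e2 := congrArg Prod.snd hq
    simp only [ψ, LinearMap.coe_mk, AddHom.coe_mk, Prod.fst_zero, Prod.snd_zero] at e1 e2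
    ext1
    · simp only [SemidirectProduct.mul_left, SemidirectProduct.left_inl,
        SemidirectProduct.right_inl, map_one, MulAut.one_apply, phi_apply]
      ext
      · simp [act]
      · simp [act]
      · simp [act, om, add_comm]
      · simp only [act, om, mul_z, map_zero, LinearMap.zero_apply, smul_zero, add_zero, sub_zero]
        linear_combination (norm := module) -e1
      · simp only [act, om, mul_w, map_zero, LinearMap.zero_apply, smul_zero, add_zero, sub_zero]
        linear_combination (norm := module) -e2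
    · simp
  · intro p q h
    have h5 := SemidirectProduct.inl_injective (congrArg Subtype.val h)
    apply Subtype.ext
    exact Prod.ext (congrArg P.t h5) (Prod.ext (congrArg P.z h5) (congrArg P.w h5))

/-- coordinates -/
def eqv (D : Dat F K T L) : P D ≃ K × K × T × L × L where
  toFun u := (u.x, u.y, u.t, u.z, u.w)
  invFun q := ⟨q.1, q.2.1, q.2.2.1, q.2.2.2.1, q.2.2.2.2⟩
  left_inv _ := rfl
  right_inv _ := rfl

end Pool.Agent.H10.NV
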