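import Pool.Agent.H10.BF

namespace Pool.Agent.H10.Olig
open Equiv Finset

theorem exP : ∃ P : Finset ℕ → Prop, ∀ (D : Finset ℕ) (F : Finset ℕ → Prop),
    ∃ c, c ∉ D ∧ ∀ S ⊆ D, (P (insert c S) ↔ F S) := by
  classical
  let dec : ℕ → Finset (Finset ℕ) := fun c =>
    (Encodable.decode (α := Finset (Finset ℕ)) (Nat.unpair c).1).getD ∅
  refine ⟨fun S => ∃ c ∈ S, (∀ x ∈ S, x ≤ c) ∧ S.erase c ∈ dec c, fun D F => ?_⟩
  let c := Nat.pair (Encodable.encode (D.powerset.filter F)) (D.sup id + 1)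
  have hc : ∀ x ∈ D, x < c := fun x hx =>
    lt_of_lt_of_le (Nat.lt_succ_of_le (le_sup (f := id) hx)) (Nat.right_le_pair _ _)
  have hd : dec c = D.powerset.filter F := by simp [dec, c]
  refine ⟨c, fun h => lt_irrefl _ (hc c h), fun S hS => ⟨?_, fun h => ?_⟩⟩
  · rintro ⟨d, h1, h2, h3⟩
    have : d = c := by
      rcases mem_insert.1 h1 with h | h
      · exact h
      · exact absurd (h2 c (mem_insert_self _ _)) (not_le.2 (hc d (hS h)))
    subst this
    rw [erase_insert (fun h => lt_irrefl _ (hc _ (hS h))), hd] at h3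
    exact (mem_filter.1 h3).2
  · refine ⟨c, mem_insert_self _ _, fun x hx => ?_, ?_⟩
    · rcases mem_insert.1 hx with h | h
      · exact h.le
      · exact (hc x (hS h)).le
    · rw [erase_insert (fun h => lt_irrefl _ (hc _ (hS h))), hd]
      exact mem_filter.2 ⟨mem_powerset.2 hS, h⟩

variable (P : Finset ℕ → Prop)

def W (ε : ℕ → Prop) (π : Perm ℕ) (S : Finset ℕ) : Prop :=
  (∀ x ∈ S, 2 ≤ x) → (P (S.image π) ↔ (P S ↔ ε S.card))

def GP : Subgroup (Perm ℕ) where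
  carrier := {π | (∀ x, 2 ≤ π x ↔ 2 ≤ x) ∧ ∃ ε, ∀ S, W P ε π S}
  one_mem' := ⟨by simp, fun _ => True, fun S _ => by simp⟩
  mul_mem' := by
    rintro π ρ ⟨h1, ε, h2⟩ ⟨k1, δ, k2⟩
    refine ⟨fun x => (h1 _).trans (k1 x), fun n => (ε n ↔ δ n), fun S hS => ?_⟩
    have a := h2 (S.image ρ) (by
      intro x hx
      obtain ⟨y, hy, rfl⟩ := mem_image.1 hx
      exact (k1 y).2 (hS y hy))
    have b := k2 S hS
    rw [image_image, card_image_of_injective _ ρ.injective] at a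
    change P (image (π ∘ ρ) S) ↔ _
    tauto
  inv_mem' := by
    rintro π ⟨h1, ε, h2⟩
    have k1 : ∀ x, 2 ≤ π⁻¹ x ↔ 2 ≤ x := fun x => by rw [← h1]; simp
    refine ⟨k1, ε, fun S hS => ?_⟩
    have a := h2 (S.image ⇑π⁻¹) (by
      intro x hx
      obtain ⟨y, hy, rfl⟩ := mem_image.1 hx
      exact (k1 y).2 (hS y hy))
    rw [image_image, card_image_of_injective _ (π⁻¹).injective] at a
    have : image (⇑π ∘ ⇑π⁻¹) S = S := by ext; simp
    rw [this] at a
    tauto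

def S0 (k : ℕ) : Finset ℕ := Ico 2 (k + 2)

/-- `π` keeps the colour of `k`-sets. -/
def chi (k : ℕ) (π : Perm ℕ) : Prop := P ((S0 k).image π) ↔ P (S0 k)

variable {P}

theorem chi_iff {ε π k} (h : W P ε π (S0 k)) : chi P k π ↔ ε k := by
  have := h (fun x hx => (mem_Ico.1 hx).1)
  simp only [S0, Nat.card_Ico, Nat.add_sub_cancel] at this
  unfold chi S0
  tauto

theorem W_chi {π} (h : π ∈ GP P) (S) : W P (fun k => chi P k π) π S := by
  obtain ⟨-, ε, h⟩ := h
  have : (fun k => chi P k π) = ε := funext fun k => propext (chi_iff (h _))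
  rw [this]; exact h S

theorem chi_mul {π ρ} (h : π ∈ GP P) (h' : ρ ∈ GP P) (k) :
    chi P k (π * ρ) ↔ (chi P k π ↔ chi P k ρ) := by
  have a := W_chi h ((S0 k).image ρ) (by
    intro x hx
    obtain ⟨y, hy, rfl⟩ := mem_image.1 hx
    exact (h'.1 y).2 (mem_Ico.1 hy).1)
  rw [image_image, card_image_of_injective _ ρ.injective] at a
  have c : (S0 k).card = k := by simp [S0]
  rw [c] at a
  change (P (image (π ∘ ρ) _) ↔ _) ↔ _
  rw [a]
  unfold chi
  tauto

theorem W_congr {ε π ρ S} (h : ∀ x ∈ S, π x = ρ x) (w : W P ε ρ S) : W P ε π S := by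
  unfold W
  rw [image_congr (g := ρ) h]
  exact w

theorem mem_of_local {π : Perm ℕ} (h : ∀ U : Finset ℕ, ∃ ρ ∈ GP P, ∀ x ∈ U, π x = ρ x) :
    π ∈ GP P := by
  refine ⟨fun x => ?_, fun k => chi P k π, fun S => ?_⟩
  · obtain ⟨ρ, h1, h2⟩ := h {x}
    rw [h2 x (by simp)]; exact h1.1 x
  · obtain ⟨ρ, h1, h2⟩ := h (S ∪ S0 S.card)
    have a := W_congr (fun x hx => h2 x (mem_union_left _ hx)) (W_chi h1 S)
    have b : chi P S.card π ↔ chi P S.card ρ := by
      unfold chi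
      rw [image_congr (g := ρ) fun x hx => h2 x (mem_union_right _ hx)]
    intro hS
    have := a hS
    simp only [b]
    exact this

theorem z_mem : swap 0 1 ∈ GP P ∧ ∀ k, chi P k (swap 0 1) := by
  have a : ∀ S : Finset ℕ, (∀ x ∈ S, 2 ≤ x) → S.image (swap 0 1) = S := fun S hS => by
    rw [image_congr (f := swap 0 1) (g := id) fun x hx => swap_apply_of_ne_of_ne
      (by have := hS x hx; omega) (by have := hS x hx; omega), image_id]
  refine ⟨⟨fun x => ?_, fun _ => True, fun S hS => by rw [a S hS]; simp⟩, fun k => ?_⟩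
  · rw [swap_apply_def]; split_ifs <;> omega
  · unfold chi; rw [a (S0 k) fun x hx => (mem_Ico.1 hx).1]

theorem z_comm {π} (h : π ∈ GP P) : π * swap 0 1 = swap 0 1 * π := by
  rw [mul_swap_eq_swap_mul]
  have a := h.1 0
  have b := h.1 1
  have c : π 0 ≠ π 1 := π.injective.ne (by omega)
  rcases (by omega : π 0 = 0 ∧ π 1 = 1 ∨ π 0 = 1 ∧ π 1 = 0) with ⟨d, e⟩ | ⟨d, e⟩
  · rw [d, e]
  · rw [d, e, swap_comm]

theorem ext (hP : ∀ (D : Finset ℕ) (F : Finset ℕ → Prop),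
    ∃ c, c ∉ D ∧ ∀ S ⊆ D, (P (insert c S) ↔ F S)) (ε : ℕ → Prop) {D : Finset ℕ} {π : Perm ℕ}
    (h0 : 0 ∈ D) (h1 : 1 ∈ D) (p0 : π 0 = 0) (p1 : π 1 = 1) (h : ∀ S ⊆ D, W P ε π S) :
    ∃ g ∈ GP P, (∀ w ∈ D, g w = π w) ∧ ∀ k, chi P k g ↔ ε k := by
  have two : ∀ π : Perm ℕ, π 0 = 0 → π 1 = 1 → ∀ x, 2 ≤ π x ↔ 2 ≤ x := fun π p0 p1 x => by
    have a : π x = 0 ↔ x = 0 := by rw [← p0, π.apply_eq_iff_eq, p0]
    have b : π x = 1 ↔ x = 1 := by rw [← p1, π.apply_eq_iff_eq, p1]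
    omega
  obtain ⟨g, g1, g2⟩ := BF.bf (P := fun D π => 0 ∈ D ∧ 1 ∈ D ∧ π 0 = 0 ∧ π 1 = 1 ∧
      ∀ S ⊆ D, W P ε π S) (D := D) (π := π) (by
    rintro D π ⟨h0, h1, p0, p1, h⟩
    refine ⟨p0 ▸ mem_image_of_mem _ h0, p1 ▸ mem_image_of_mem _ h1,
      Perm.inv_eq_iff_eq.2 p0.symm, Perm.inv_eq_iff_eq.2 p1.symm, fun S hS hS' => ?_⟩
    obtain ⟨T, hT, rfl⟩ := subset_image_iff.1 hS
    have a := h T hT fun x hx => (two π p0 p1 x).1 (hS' _ (mem_image_of_mem _ hx))
    have : image (⇑π⁻¹) (image π T) = T := by ext; simp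
    rw [this, card_image_of_injective _ π.injective]
    tauto) (by
    rintro D π c ⟨h0, h1, p0, p1, h⟩
    by_cases hc : c ∈ D
    · exact ⟨π, by rw [insert_eq_of_mem hc]; exact ⟨h0, h1, p0, p1, h⟩, fun _ _ => rfl⟩
    obtain ⟨d, d1, d2⟩ := hP (D.image π) fun T =>
      (P (insert c (T.image ⇑π⁻¹)) ↔ ε (T.card + 1))
    have e : ∀ w ∈ D, (swap (π c) d * π) w = π w := fun w hw =>
      swap_apply_of_ne_of_ne (π.injective.ne fun e => hc (e ▸ hw))
        fun e => d1 (e ▸ mem_image_of_mem _ hw)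
    refine ⟨swap (π c) d * π, ⟨mem_insert_of_mem h0, mem_insert_of_mem h1, (e 0 h0).trans p0,
      (e 1 h1).trans p1, fun S hS => ?_⟩, e⟩
    by_cases hcS : c ∈ S
    · obtain ⟨T, hT, rfl⟩ : ∃ T, c ∉ T ∧ S = insert c T :=
        ⟨S.erase c, notMem_erase _ _, (insert_erase hcS).symm⟩
      have hT' : T ⊆ D := fun x hx => by
        rcases mem_insert.1 (hS (mem_insert_of_mem hx)) with h | h
        · exact absurd (h ▸ hx) hT
        · exact h
      intro _
      rw [image_insert, image_congr (g := π) fun x hx => e x (hT' hx)]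
      have : (swap (π c) d * π) c = d := by simp
      rw [this, d2 _ (image_subset_image hT'), card_image_of_injective _ π.injective,
        card_insert_of_notMem hT]
      have : image (⇑π⁻¹) (image π T) = T := by ext; simp
      rw [this]
    · have hT' : S ⊆ D := fun x hx => by
        rcases mem_insert.1 (hS hx) with h | h
        · exact absurd (h ▸ hx) hcS
        · exact h
      exact W_congr (fun x hx => e x (hT' hx)) (h S hT')) ⟨h0, h1, p0, p1, h⟩
  have w : ∀ S, W P ε g S := fun S => by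
    obtain ⟨D', π', a, b, c⟩ := g2 S
    exact W_congr (fun x hx => c x (a hx)) (b.2.2.2.2 S a)
  exact ⟨g, ⟨two g ((g1 0 h0).trans p0) ((g1 1 h1).trans p1), ε, w⟩, g1,
    fun k => chi_iff (w _)⟩

theorem olig (hP : ∀ (D : Finset ℕ) (F : Finset ℕ → Prop),
    ∃ c, c ∉ D ∧ ∀ S ⊆ D, (P (insert c S) ↔ F S)) (n : ℕ) :
    Finite (MulAction.orbitRel.Quotient (GP P) (Fin n → ℕ)) := by
  classical
  let ex : (Fin n → ℕ) → Fin 2 ⊕ Fin n → ℕ := fun a => Sum.elim Fin.val a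
  let τ : (Fin n → ℕ) → (Fin 2 ⊕ Fin n → Fin 2 ⊕ Fin n → Prop) × (Finset (Fin 2 ⊕ Fin n) → Prop) :=
    fun a => (fun i j => ex a i = ex a j, fun I => P (I.image (ex a)))
  have key : ∀ a b, τ a = τ b → (MulAction.orbitRel (GP P) (Fin n → ℕ)) b a := by
    intro a b e
    have e1 : ∀ i j, ex a i = ex a j ↔ ex b i = ex b j := fun i j =>
      iff_of_eq (congrFun (congrFun (congrArg Prod.fst e) i) j)
    have e2 : ∀ I : Finset _, P (I.image (ex a)) ↔ P (I.image (ex b)) := fun I =>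
      iff_of_eq (congrFun (congrArg Prod.snd e) I)
    obtain ⟨π, hπ⟩ : ∃ π : Perm ℕ, ∀ i, π (ex a i) = ex b i := by
      obtain ⟨π, hπ⟩ := Perm.exists_extending_pair (α := Set.range (ex a)) (f := Subtype.val)
        (g := fun y => ex b y.2.choose) Subtype.val_injective fun y y' h => Subtype.ext
          (y.2.choose_spec.symm.trans (((e1 _ _).2 h).trans y'.2.choose_spec))
      exact ⟨π, fun i => (hπ ⟨_, i, rfl⟩).trans ((e1 _ _).1
        (Exists.choose_spec (p := fun j => ex a j = ex a i) _))⟩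
    obtain ⟨g, g1, g2, -⟩ := ext hP (fun _ => True) (D := univ.image (ex a)) (π := π)
      (mem_image.2 ⟨.inl 0, mem_univ _, rfl⟩) (mem_image.2 ⟨.inl 1, mem_univ _, rfl⟩)
      (hπ (.inl 0)) (hπ (.inl 1)) fun S hS _ => by
        obtain ⟨T, -, rfl⟩ := subset_image_iff.1 hS
        rw [image_image, image_congr (f := π ∘ ex a) (g := ex b) fun x _ => hπ x, e2]
        simp
    exact ⟨⟨g, g1⟩, funext fun i => (g2 _ (mem_image.2 ⟨.inr i, mem_univ _, rfl⟩)).trans
      (hπ (.inr i))⟩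
  refine Finite.of_injective (fun q => τ (Quotient.out q)) fun q q' e => ?_
  rw [← Quotient.out_eq q, ← Quotient.out_eq q']
  exact (Quotient.sound (key _ _ e)).symm

end Pool.Agent.H10.Olig
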