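import Mathlib

/-! Polynomial maps on groups. -/

namespace Pool.Agent.H10.PC

open Function

/-- `Pol k f`: all `k`-fold right difference operators kill `f`. -/
def Pol {G B : Type} [Group G] [AddCommGroup B] : ℕ → (G → B) → Prop
  | 0, f => ∀ x, f x = 0
  | k + 1, f => ∀ g, Pol k (fun x => f (x * g) - f x)

variable {G G' B B' : Type} [Group G] [Group G'] [AddCommGroup B] [AddCommGroup B']

theorem Pol.zero : ∀ k : ℕ, Pol k (fun _ : G => (0 : B))
  | 0 => fun _ => rfl
  | k + 1 => fun _ => by simpa using Pol.zero k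

theorem Pol.congr {k : ℕ} {f f' : G → B} (h : Pol k f) (e : ∀ x, f x = f' x) : Pol k f' := by
  have : f = f' := funext e
  exact this ▸ h

theorem Pol.add : ∀ {k : ℕ} {f f' : G → B}, Pol k f → Pol k f' → Pol k (fun x => f x + f' x)
  | 0, f, f', h, h' => fun x => by simp [h x, h' x]
  | k + 1, f, f', h, h' => fun g => (Pol.add (h g) (h' g)).congr (fun x => by beta_reduce; abel)

theorem Pol.map (φ : B →+ B') : ∀ {k : ℕ} {f : G → B}, Pol k f → Pol k (fun x => φ (f x))
  | 0, f, h => fun x => by simp [h x]
  | k + 1, f, h => fun g => (Pol.map φ (h g)).congr (fun x => by simp)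

theorem Pol.comp (θ : G' → G) (hθ : ∀ y, ∃ y', ∀ x, θ (x * y) = θ x * y') :
    ∀ {k : ℕ} {f : G → B}, Pol k f → Pol k (fun x => f (θ x))
  | 0, f, h => fun x => h _
  | k + 1, f, h => fun g => by
      obtain ⟨y', hy⟩ := hθ g
      exact (Pol.comp θ hθ (h y')).congr (fun x => by beta_reduce; rw [hy])

theorem Pol.right {k : ℕ} {f : G → B} (h : Pol k f) (g : G) : Pol k (fun x => f (x * g)) :=
  Pol.comp (fun x => x * g) (fun y => ⟨g⁻¹ * y * g, fun x => by group⟩) h

theorem Pol.succ : ∀ {k : ℕ} {f : G → B}, Pol k f → Pol (k + 1) f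
  | 0, f, h => fun g x => by simp [h x, h (x * g)]
  | k + 1, f, h => fun g => Pol.succ (h g)

theorem Pol.mono {k l : ℕ} {f : G → B} (h : Pol k f) (hkl : k ≤ l) : Pol l f := by
  induction hkl with
  | refl => exact h
  | step _ ih => exact ih.succ

theorem Pol.of_surj (π : G' →* G) (hπ : Surjective π) :
    ∀ {k : ℕ} {f : G → B}, Pol k (fun x => f (π x)) → Pol k f
  | 0, f, h => fun x => by
      obtain ⟨y, rfl⟩ := hπ x
      exact h y
  | k + 1, f, h => fun g => by
      obtain ⟨y, rfl⟩ := hπ g
      exact Pol.of_surj π hπ ((h y).congr (fun x => by simp))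

theorem Pol.const (b : B) : Pol 1 (fun _ : G => b) := fun _ _ => by simp

theorem Pol.hom {f : G → B} (hf : ∀ x y, f (x * y) = f x + f y) : Pol 2 f :=
  fun g => (Pol.const (f g)).congr (fun x => by rw [hf]; abel)

theorem Pol.sum {ι : Type} (s : Finset ι) {k : ℕ} (F : ι → G → B) (h : ∀ i ∈ s, Pol k (F i)) :
    Pol k (fun x => ∑ i ∈ s, F i x) := by
  classical
  induction s using Finset.induction_on with
  | empty => simpa using Pol.zero k
  | insert a s ha ih =>
    refine ((h a (Finset.mem_insert_self _ _)).add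
      (ih (fun i hi => h i (Finset.mem_insert_of_mem hi)))).congr (fun x => ?_)
    rw [Finset.sum_insert ha]

theorem Pol.mul_aux {E : Type} [Ring E] : ∀ (m k l : ℕ), k + l = m → ∀ {u v : G → E},
    Pol k u → Pol l v → Pol m (fun x => u x * v x)
  | _, 0, l, _, u, v, hu, _ => (Pol.zero _).congr (fun x => by rw [hu x, zero_mul])
  | _, k + 1, 0, _, u, v, _, hv => (Pol.zero _).congr (fun x => by rw [hv x, mul_zero])
  | 0, k + 1, l + 1, hm, _, _, _, _ => by omega
  | m + 1, k + 1, l + 1, hm, u, v, hu, hv => fun g => by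
      have h1 := Pol.mul_aux m k (l + 1) (by omega) (hu g) (hv.right g)
      have h2 := Pol.mul_aux m (k + 1) l (by omega) hu (hv g)
      exact (h1.add h2).congr (fun x => by noncomm_ring)

theorem Pol.pow {E : Type} [Ring E] {k : ℕ} {u : G → E} (hu : Pol k u) :
    ∀ s : ℕ, Pol (s * k + 1) (fun x => u x ^ s)
  | 0 => by simpa using Pol.const (G := G) (1 : E)
  | s + 1 => (Pol.mul_aux ((s + 1) * k + 1) (s * k + 1) k (by ring) (hu.pow s) hu).congr
      (fun x => by rw [pow_succ])

/-- The polynomial maps of degree `< k` as a submodule. -/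
def PolS (G B : Type) [Group G] [AddCommGroup B] (k : ℕ) : Submodule ℤ (G → B) where
  carrier := {f | Pol k f}
  add_mem' := fun ha hb => Pol.add ha hb
  zero_mem' := Pol.zero k
  smul_mem' := fun c _ hf => Pol.map (c • AddMonoidHom.id B) hf

/-- exponent in the size bound -/
def cb (d : ℕ) : ℕ → ℕ
  | 0 => 0
  | k + 1 => 1 + d * cb d k

theorem card_PolS [Finite G] [Finite B] (S : Finset G) (hS : Subgroup.closure (S : Set G) = ⊤)
    (d : ℕ) (hd : S.card ≤ d) : ∀ k, Nat.card (PolS G B k) ≤ Nat.card B ^ cb d k
  | 0 => by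
      have : Subsingleton (PolS G B 0) := ⟨fun a b => Subtype.ext (funext fun x => by
        rw [a.2 x, b.2 x])⟩
      simpa [cb] using Finite.card_le_one_iff_subsingleton.2 this
  | k + 1 => by
      have ih := card_PolS S hS d hd k
      let Φ : PolS G B (k + 1) → B × (S → PolS G B k) :=
        fun f => (f.1 1, fun s => ⟨fun x => f.1 (x * s) - f.1 x, f.2 s⟩)
      have hΦ : Injective Φ := by
        intro f f' h
        have h1 : f.1 1 = f'.1 1 := congrArg Prod.fst h
        have h2 : ∀ s ∈ S, ∀ x, f.1 (x * s) - f.1 x = f'.1 (x * s) - f'.1 x := by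
          intro s hs x
          have := congrArg (fun q : B × (S → PolS G B k) => (q.2 ⟨s, hs⟩).1 x) h
          exact this
        have h3 : ∀ g : G, ∀ x, f.1 (x * g) - f'.1 (x * g) = f.1 x - f'.1 x := by
          intro g
          have hg : g ∈ Subgroup.closure (S : Set G) := hS ▸ Subgroup.mem_top g
          induction hg using Subgroup.closure_induction with
          | mem s hs =>
            intro x
            have := h2 s hs x
            rw [sub_eq_sub_iff_sub_eq_sub] at this
            exact this
          | one => intro x; simp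
          | mul a b _ _ ha hb => intro x; rw [← mul_assoc, hb, ha]
          | inv a _ ha => intro x; rw [← ha (x * a⁻¹)]; simp
        refine Subtype.ext (funext fun x => ?_)
        have := h3 x 1
        rw [one_mul, h1, sub_self] at this
        exact sub_eq_zero.1 this
      have hB : 1 ≤ Nat.card B := Nat.card_pos
      calc Nat.card (PolS G B (k + 1)) ≤ Nat.card (B × (S → PolS G B k)) :=
            Nat.card_le_card_of_injective Φ hΦ
        _ = Nat.card B * Nat.card (PolS G B k) ^ S.card := by
            rw [Nat.card_prod, Nat.card_fun]; simp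
        _ ≤ Nat.card B * (Nat.card B ^ cb d k) ^ d := by
            refine Nat.mul_le_mul_left _ ?_
            exact (Nat.pow_le_pow_left ih _).trans
              (Nat.pow_le_pow_right (Nat.one_le_pow _ _ hB) hd)
        _ = Nat.card B ^ cb d (k + 1) := by
            rw [cb, ← pow_mul]; ring

end Pool.Agent.H10.PC
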