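import Pool.Agent.H10.PC1

/-! Unipotence of `p`-group actions and a truncated logarithm. -/

namespace Pool.Agent.H10.PC

open Function

section Unip

variable {Γ W : Type} [Group Γ] [AddCommGroup W]

/-- ascending socle series -/
def soc (ρ : Γ →* Module.End ℤ W) : ℕ → Submodule ℤ W
  | 0 => ⊥
  | i + 1 => ⨅ γ : Γ, (soc ρ i).comap (ρ γ - 1)

theorem mem_soc_succ (ρ : Γ →* Module.End ℤ W) (i : ℕ) (w : W) :
    w ∈ soc ρ (i + 1) ↔ ∀ γ, ρ γ w - w ∈ soc ρ i := by
  simp [soc]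

theorem soc_inv (ρ : Γ →* Module.End ℤ W) : ∀ (i : ℕ) (γ : Γ) (w : W), w ∈ soc ρ i →
    ρ γ w ∈ soc ρ i
  | 0, γ, w, h => by
      have : w = 0 := by simpa [soc] using h
      simp [this]
  | i + 1, γ, w, h => by
      rw [mem_soc_succ] at h ⊢
      intro δ
      have h1 := soc_inv ρ i γ _ (h (γ⁻¹ * δ * γ))
      have : ρ γ (ρ (γ⁻¹ * δ * γ) w - w) = ρ δ (ρ γ w) - ρ γ w := by
        rw [map_sub, ← Module.End.mul_apply, ← map_mul, ← Module.End.mul_apply (ρ δ), ← map_mul]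
        congr 3
        group
      rwa [this] at h1

theorem soc_le_succ (ρ : Γ →* Module.End ℤ W) (i : ℕ) : soc ρ i ≤ soc ρ (i + 1) := by
  intro w hw
  rw [mem_soc_succ]
  intro γ
  exact sub_mem (soc_inv ρ i γ w hw) hw

theorem prime_dvd_card {A : Type} [AddCommGroup A] {p e : ℕ} (hp : p.Prime)
    (hA : ∀ a : A, p ^ e • a = 0) {a : A} (ha : a ≠ 0) : p ∣ Nat.card A := by
  have h1 : addOrderOf a ∣ p ^ e := addOrderOf_dvd_of_nsmul_eq_zero (hA a)
  obtain ⟨j, -, hj⟩ := (Nat.dvd_prime_pow hp).1 h1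
  have hj0 : j ≠ 0 := by
    rintro rfl
    exact ha (AddMonoid.addOrderOf_eq_one_iff.1 (by simpa using hj))
  exact (dvd_pow_self p hj0).trans (hj ▸ addOrderOf_dvd_natCard a)

theorem soc_lt [Finite W] {p e : ℕ} (hp : p.Prime) (hW : ∀ w : W, p ^ e • w = 0)
    (ρ : Γ →* Module.End ℤ W) (hρ : ∀ γ, ∃ m, ρ (γ ^ p ^ m) = 1) (i : ℕ) (hi : soc ρ i ≠ ⊤) :
    ∃ w ∈ soc ρ (i + 1), w ∉ soc ρ i := by
  haveI := Fact.mk hp
  set U := soc ρ i with hU
  let act : Γ → (W ⧸ U) → (W ⧸ U) := fun γ => U.mapQ U (ρ γ) (fun w hw => soc_inv ρ i γ w hw)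
  have hact : ∀ γ w, act γ (U.mkQ w) = U.mkQ (ρ γ w) := fun γ w => rfl
  letI : MulAction Γ (W ⧸ U) :=
    { smul := act
      one_smul := fun q => by
        obtain ⟨w, rfl⟩ := U.mkQ_surjective q
        change act 1 _ = _
        rw [hact]; simp
      mul_smul := fun a b q => by
        obtain ⟨w, rfl⟩ := U.mkQ_surjective q
        change act (a * b) _ = act a (act b _)
        rw [hact, hact, hact]; simp }
  have hsm : ∀ (γ : Γ) (w : W), γ • (U.mkQ w) = U.mkQ (ρ γ w) := fun γ w => rfl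
  let σ := MulAction.toPermHom Γ (W ⧸ U)
  have hP : IsPGroup p σ.range := by
    rintro ⟨_, γ, rfl⟩
    obtain ⟨m, hm⟩ := hρ γ
    refine ⟨m, Subtype.ext ?_⟩
    rw [SubgroupClass.coe_pow, ← map_pow]
    ext q
    obtain ⟨w, rfl⟩ := U.mkQ_surjective q
    change (γ ^ p ^ m) • (U.mkQ w) = _
    rw [hsm, hm]; simp
  obtain ⟨w0, hw0⟩ : ∃ w0, w0 ∉ U := by
    by_contra h
    push Not at h
    exact hi (eq_top_iff.2 fun w _ => h w)
  have hdvd : p ∣ Nat.card (W ⧸ U) := by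
    refine prime_dvd_card (e := e) hp (fun q => ?_) (a := U.mkQ w0) ?_
    · obtain ⟨w, rfl⟩ := U.mkQ_surjective q
      rw [← map_nsmul, hW, map_zero]
    · simpa using hw0
  haveI : Finite (W ⧸ U) := Finite.of_surjective _ U.mkQ_surjective
  have h0 : (0 : W ⧸ U) ∈ MulAction.fixedPoints σ.range (W ⧸ U) := by
    rintro ⟨_, γ, rfl⟩
    change γ • (U.mkQ 0) = _
    rw [hsm]; simp
  obtain ⟨b, hb, hne⟩ := hP.exists_fixed_point_of_prime_dvd_card_of_fixed_point (W ⧸ U) hdvd h0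
  obtain ⟨w, rfl⟩ := U.mkQ_surjective b
  refine ⟨w, ?_, ?_⟩
  · rw [mem_soc_succ]
    intro γ
    have := hb ⟨σ γ, γ, rfl⟩
    change γ • (U.mkQ w) = _ at this
    rw [hsm] at this
    exact (Submodule.Quotient.eq U).1 this
  · intro hw
    exact hne ((Submodule.Quotient.mk_eq_zero U).2 hw).symm

theorem soc_top [Finite W] {p e M : ℕ} (hp : p.Prime) (hW : ∀ w : W, p ^ e • w = 0)
    (hM : Nat.card W ≤ p ^ M)
    (ρ : Γ →* Module.End ℤ W) (hρ : ∀ γ, ∃ m, ρ (γ ^ p ^ m) = 1) : soc ρ M = ⊤ := by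
  have key : ∀ i, soc ρ i = ⊤ ∨ p ^ i ≤ Nat.card (soc ρ i) := by
    intro i
    induction i with
    | zero => right; simp [soc]
    | succ i ih =>
      by_cases hi : soc ρ i = ⊤
      · left; exact eq_top_iff.2 (hi ▸ soc_le_succ ρ i)
      · right
        have h1 := ih.resolve_left hi
        obtain ⟨w, hw, hw'⟩ := soc_lt hp hW ρ hρ i hi
        let V := (soc ρ i).comap (soc ρ (i + 1)).subtype
        have hV : Nat.card V = Nat.card (soc ρ i) :=
          Nat.card_congr (Submodule.comapSubtypeEquivOfLe (soc_le_succ ρ i)).toEquiv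
        have h2 := Submodule.card_eq_card_quotient_mul_card V
        have hdvd : p ∣ Nat.card (soc ρ (i + 1) ⧸ V) := by
          refine prime_dvd_card (e := e) hp (fun q => ?_) (a := V.mkQ ⟨w, hw⟩) ?_
          · obtain ⟨w, rfl⟩ := V.mkQ_surjective q
            rw [← map_nsmul]
            have : p ^ e • w = 0 := Subtype.ext (hW w)
            rw [this, map_zero]
          · simpa [V] using hw'
        haveI : Finite (soc ρ (i + 1) ⧸ V) := Finite.of_surjective _ V.mkQ_surjective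
        have h3 : p ≤ Nat.card (soc ρ (i + 1) ⧸ V) := Nat.le_of_dvd Nat.card_pos hdvd
        rw [h2, hV, pow_succ]
        exact Nat.mul_le_mul h1 h3
  rcases key M with h | h
  · exact h
  · have h1 : Nat.card (soc ρ M) = Nat.card W :=
      le_antisymm (Nat.card_le_card_of_injective _ (soc ρ M).injective_subtype) (hM.trans h)
    have := AddSubgroup.eq_top_of_card_eq (soc ρ M).toAddSubgroup h1
    exact eq_top_iff.2 fun w _ => by
      have hw : w ∈ (soc ρ M).toAddSubgroup := this ▸ AddSubgroup.mem_top w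
      exact hw

theorem pol_soc (ρ : Γ →* Module.End ℤ W) : ∀ (k : ℕ) (T : Module.End ℤ W),
    (∀ w, T w ∈ soc ρ k) → Pol k (fun γ => ρ γ * T)
  | 0, T, h => fun γ => by
      ext w
      have : T w = 0 := by simpa [soc] using h w
      simp [this]
  | k + 1, T, h => fun g =>
      (pol_soc ρ k ((ρ g - 1) * T) (fun w => by
        simpa using (mem_soc_succ ρ k _).1 (h w) g)).congr (fun x => by
          beta_reduce
          rw [map_mul]; noncomm_ring)

theorem pow_soc (ρ : Γ →* Module.End ℤ W) (γ : Γ) : ∀ (k : ℕ) (w : W), w ∈ soc ρ k →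
    ((ρ γ - 1) ^ k) w = 0
  | 0, w, h => by simpa [soc] using h
  | k + 1, w, h => by
      rw [pow_succ, Module.End.mul_apply]
      exact pow_soc ρ γ k _ (by simpa using (mem_soc_succ ρ k _).1 h γ)

theorem unip [Finite W] {p e M : ℕ} (hp : p.Prime) (hW : ∀ w : W, p ^ e • w = 0)
    (hM : Nat.card W ≤ p ^ M)
    (ρ : Γ →* Module.End ℤ W) (hρ : ∀ γ, ∃ m, ρ (γ ^ p ^ m) = 1) :
    Pol M (fun γ => ρ γ) ∧ ∀ γ, (ρ γ - 1) ^ M = 0 := by
  have h := soc_top hp hW hM ρ hρ
  refine ⟨(pol_soc ρ M 1 (fun w => h ▸ Submodule.mem_top)).congr (fun x => by simp), fun γ => ?_⟩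
  ext w
  exact pow_soc ρ γ M w (h ▸ Submodule.mem_top)

end Unip

end Pool.Agent.H10.PC
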