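import Pool.Agent.H10.PC2

/-! A truncated logarithm. -/

namespace Pool.Agent.H10.PC

open Function Polynomial

/-- coefficients extracting the linear term -/
def LinCo (N D : ℕ) (a : ℕ → ℕ) : Prop :=
  ∀ i < D, (∑ s ∈ Finset.range D, a s * s ^ i) ≡ (if i = 1 then 1 else 0) [MOD N]

theorem isUnit_small {p e : ℕ} (hp : p.Prime) {j : ℕ} (hj0 : 0 < j) (hj : j < p) :
    IsUnit (j : ZMod (p ^ e)) := by
  rw [ZMod.isUnit_iff_coprime]
  exact Nat.Coprime.pow_right _ ((Nat.coprime_primes_iff_ne_aux hp hj0 hj))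
where
  Nat.coprime_primes_iff_ne_aux {p j : ℕ} (hp : p.Prime) (hj0 : 0 < j) (hj : j < p) :
      Nat.Coprime j p :=
    ((Nat.Prime.coprime_iff_not_dvd hp).2 (Nat.not_dvd_of_pos_of_lt hj0 hj)).symm

theorem exists_linCo {p e D : ℕ} (hp : p.Prime) (hD : D ≤ p) (hD2 : 2 ≤ D) :
    ∃ a, LinCo (p ^ e) D a := by
  haveI : NeZero (p ^ e) := ⟨pow_ne_zero _ hp.ne_zero⟩
  let V : Matrix (Fin D) (Fin D) (ZMod (p ^ e)) := Matrix.vandermonde (fun s => ((s : ℕ) : ZMod (p ^ e)))
  have hV : IsUnit V.det := by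
    rw [Matrix.det_vandermonde]
    refine IsUnit.prod_iff.2 fun i _ => IsUnit.prod_iff.2 fun j hj => ?_
    have hij : i < j := Finset.mem_Ioi.1 hj
    have hij' : (i : ℕ) < j := hij
    rw [← Nat.cast_sub hij'.le]
    exact isUnit_small hp (by omega) (by omega)
  let b : Fin D → ZMod (p ^ e) := Matrix.vecMul (Pi.single ⟨1, by omega⟩ 1) V⁻¹
  have hb : Matrix.vecMul b V = Pi.single ⟨1, by omega⟩ 1 := by
    rw [Matrix.vecMul_vecMul, Matrix.nonsing_inv_mul _ hV, Matrix.vecMul_one]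
  refine ⟨fun s => if h : s < D then (b ⟨s, h⟩).val else 0, fun i hi => ?_⟩
  rw [← ZMod.natCast_eq_natCast_iff]
  have := congrFun hb ⟨i, hi⟩
  simp only [Matrix.vecMul, dotProduct, V, Matrix.vandermonde_apply] at this
  rw [Finset.sum_range]
  push_cast
  simp only [Fin.is_lt, dif_pos, ZMod.natCast_val, ZMod.cast_id', id, Fin.eta]
  rw [this, Pi.single_apply]
  by_cases h1 : i = 1
  · subst h1; simp
  · have : (⟨i, hi⟩ : Fin D) ≠ ⟨1, by omega⟩ := fun h => h1 (by simpa using h)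
    simp [this, h1]

variable {E : Type} [Ring E]

theorem cast_eq_of_modEq {N a b : ℕ} (hN : (N : E) = 0) (h : a ≡ b [MOD N]) : (a : E) = b := by
  rw [← Nat.mod_add_div a N, ← Nat.mod_add_div b N, h]
  push_cast
  simp [hN]

theorem LinCo.cast {N D : ℕ} {a : ℕ → ℕ} (h : LinCo N D a) (hN : (N : E) = 0) {i : ℕ}
    (hi : i < D) : (∑ s ∈ Finset.range D, (a s : E) * (s : E) ^ i) = if i = 1 then 1 else 0 := by
  have := cast_eq_of_modEq hN (h i hi)
  push_cast at this
  exact this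

theorem LinCo.eval {N D : ℕ} {a : ℕ → ℕ} (h : LinCo N D a) (hN : (N : E) = 0) (hD : 2 ≤ D)
    (P : E[X]) (hP : P.natDegree < D) :
    (∑ s ∈ Finset.range D, a s • P.eval (s : E)) = P.coeff 1 := by
  have h1 : ∀ s : ℕ, P.eval (s : E) = ∑ i ∈ Finset.range D, P.coeff i * (s : E) ^ i :=
    fun s => eval_eq_sum_range' hP _
  simp_rw [h1, Finset.smul_sum]
  rw [Finset.sum_comm]
  have h2 : ∀ i ∈ Finset.range D, (∑ s ∈ Finset.range D, a s • (P.coeff i * (s : E) ^ i)) =
      if i = 1 then P.coeff 1 else 0 := by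
    intro i hi
    have h3 := h.cast hN (Finset.mem_range.1 hi)
    have : (∑ s ∈ Finset.range D, a s • (P.coeff i * (s : E) ^ i)) =
        P.coeff i * ∑ s ∈ Finset.range D, (a s : E) * (s : E) ^ i := by
      rw [Finset.mul_sum]
      refine Finset.sum_congr rfl fun s _ => ?_
      rw [← mul_smul_comm, nsmul_eq_mul]
    rw [this, h3]
    split_ifs with h4
    · subst h4; simp
    · simp
  rw [Finset.sum_congr rfl h2, Finset.sum_ite_eq']
  simp [show 1 < D by omega]

/-- truncated logarithm -/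
def lg (D : ℕ) (a : ℕ → ℕ) (u : E) : E := ∑ s ∈ Finset.range D, a s • u ^ s

theorem natDegree_desc (j : ℕ) : (descPochhammer E j).natDegree ≤ j := by
  rw [← descPochhammer_map (Int.castRingHom E)]
  exact natDegree_map_le.trans (descPochhammer_natDegree ℤ j).le

theorem exists_powPoly {p e M : ℕ} (hp : p.Prime) (hM : M ≤ p) (hN : ((p ^ e : ℕ) : E) = 0)
    (u : E) (hu : (u - 1) ^ M = 0) :
    ∃ P : E[X], P.natDegree ≤ M ∧ ∀ s : ℕ, P.eval (s : E) = u ^ s := by
  have hinv : ∀ j < M, ∃ c : ℕ, (c : E) * (j.factorial : E) = 1 := by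
    intro j hj
    have hc : Nat.Coprime j.factorial (p ^ e) := by
      refine Nat.Coprime.pow_right _ ((Nat.Prime.coprime_iff_not_dvd hp).2 ?_).symm
      rw [hp.dvd_factorial]; omega
    obtain ⟨c, hc⟩ := Nat.exists_mul_mod_eq_of_coprime 1 hc (pow_ne_zero _ hp.ne_zero)
    refine ⟨c, ?_⟩
    have := cast_eq_of_modEq hN (a := c * j.factorial) (b := 1) (by
      rw [mul_comm]; exact hc.2)
    simpa using this
  choose! c hc using hinv
  refine ⟨∑ j ∈ Finset.range M, C ((u - 1) ^ j * (c j : E)) * descPochhammer E j, ?_, fun s => ?_⟩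
  · refine natDegree_sum_le_of_forall_le _ _ fun j hj => ?_
    exact (natDegree_C_mul_le _ _).trans ((natDegree_desc j).trans (Finset.mem_range.1 hj).le)
  · rw [eval_finset_sum]
    have h1 : ∀ j ∈ Finset.range M, eval (s : E) (C ((u - 1) ^ j * (c j : E)) * descPochhammer E j)
        = (u - 1) ^ j * (s.choose j : E) := by
      intro j hj
      rw [eval_C_mul, descPochhammer_eval_eq_descFactorial,
        Nat.descFactorial_eq_factorial_mul_choose, Nat.cast_mul, mul_assoc, ← mul_assoc (c j : E),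
        hc j (Finset.mem_range.1 hj), one_mul]
    rw [Finset.sum_congr rfl h1]
    have h2 : u ^ s = ∑ j ∈ Finset.range (s + 1), (u - 1) ^ j * (s.choose j : E) := by
      have := (Commute.one_right (u - 1)).add_pow s
      simpa using this
    rw [h2]
    have h3 : ∀ n ≥ M, ∑ j ∈ Finset.range M, (u - 1) ^ j * (s.choose j : E) =
        ∑ j ∈ Finset.range n, (u - 1) ^ j * (s.choose j : E) := by
      intro n hn
      refine Finset.sum_subset (Finset.range_subset_range.2 hn) fun j _ hj => ?_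
      have : M ≤ j := by simpa using hj
      rw [pow_eq_zero_of_le this hu, zero_mul]
    have h4 : ∀ n ≥ s + 1, ∑ j ∈ Finset.range (s + 1), (u - 1) ^ j * (s.choose j : E) =
        ∑ j ∈ Finset.range n, (u - 1) ^ j * (s.choose j : E) := by
      intro n hn
      refine Finset.sum_subset (Finset.range_subset_range.2 hn) fun j _ hj => ?_
      have : s < j := by simpa using hj
      rw [Nat.choose_eq_zero_of_lt this, Nat.cast_zero, mul_zero]
    rw [h3 (M + s + 1) (by omega), h4 (M + s + 1) (by omega)]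

theorem lg_mul {p e M : ℕ} (hp : p.Prime) (hM : 2 * M + 2 ≤ p) (hN : ((p ^ e : ℕ) : E) = 0)
    {a : ℕ → ℕ} (ha : LinCo (p ^ e) (2 * M + 2) a) (u v : E) (hu : (u - 1) ^ M = 0)
    (hv : (v - 1) ^ M = 0) (huv : Commute u v) :
    lg (2 * M + 2) a (u * v) = lg (2 * M + 2) a u + lg (2 * M + 2) a v := by
  obtain ⟨P, hP, hP'⟩ := exists_powPoly hp (by omega) hN u hu
  obtain ⟨Q, hQ, hQ'⟩ := exists_powPoly hp (by omega) hN v hv
  have hPQ : ∀ s : ℕ, (P * Q).eval (s : E) = (u * v) ^ s := by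
    intro s
    rw [huv.mul_pow, ← hP', ← hQ']
    exact eval₂_mul_noncomm (RingHom.id E) (s : E) (fun k => (Nat.cast_commute s _).symm)
  have e1 := ha.eval hN (by omega) P (by omega)
  have e2 := ha.eval hN (by omega) Q (by omega)
  have e3 := ha.eval hN (by omega) (P * Q) (natDegree_mul_le.trans_lt (by omega))
  simp only [hP', hQ', hPQ] at e1 e2 e3
  have p0 : P.coeff 0 = 1 := by
    have := hP' 0
    rwa [Nat.cast_zero, ← coeff_zero_eq_eval_zero, pow_zero] at this
  have q0 : Q.coeff 0 = 1 := by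
    have := hQ' 0
    rwa [Nat.cast_zero, ← coeff_zero_eq_eval_zero, pow_zero] at this
  unfold lg
  rw [e1, e2, e3, mul_coeff_one, p0, q0, one_mul, mul_one, add_comm]

theorem lg_ne {N D M : ℕ} (hN : (N : E) = 0) (hD : 2 ≤ D) {a : ℕ → ℕ} (ha : LinCo N D a)
    (u : E) (hu : (u - 1) ^ M = 0) (h1 : u ≠ 1) : lg D a u ≠ 0 := by
  classical
  have hex : ∃ m, (u - 1) ^ m = 0 := ⟨M, hu⟩
  have hm := Nat.find_spec hex
  have hm0 : Nat.find hex ≠ 0 := by
    intro h; rw [h, pow_zero] at hm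
    apply h1
    rw [← mul_one u, hm, mul_zero]
  have hm1 : Nat.find hex ≠ 1 := by
    intro h; rw [h, pow_one] at hm
    exact h1 (sub_eq_zero.1 hm)
  obtain ⟨m, hm2⟩ : ∃ m, Nat.find hex = m + 2 := ⟨Nat.find hex - 2, by omega⟩
  have hne : (u - 1) ^ (m + 1) ≠ 0 := Nat.find_min hex (by omega)
  rw [hm2] at hm
  have key : ∀ s : ℕ, u ^ s * (u - 1) ^ m = (u - 1) ^ m + (s : E) * (u - 1) ^ (m + 1) := by
    intro s
    induction s with
    | zero => simp
    | succ s ih =>
      have hc : u * ((s : E) * (u - 1) ^ (m + 1)) = (s : E) * (u * (u - 1) ^ (m + 1)) := by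
        rw [← mul_assoc, ← (Nat.cast_commute s u).eq, mul_assoc]
      have hu1 : ∀ k, u * (u - 1) ^ k = (u - 1) ^ k + (u - 1) ^ (k + 1) := by
        intro k; rw [pow_succ']; noncomm_ring
      rw [pow_succ', mul_assoc, ih, mul_add, hc, hu1, hu1, hm]
      push_cast; noncomm_ring
  intro h0
  apply hne
  have h2 : lg D a u * (u - 1) ^ m = (u - 1) ^ (m + 1) := by
    unfold lg
    rw [Finset.sum_mul]
    have c0 := ha.cast hN (i := 0) (by omega)
    have c1 := ha.cast hN (i := 1) (by omega)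
    simp only [pow_zero, mul_one, pow_one] at c0 c1
    have : ∀ s ∈ Finset.range D, a s • u ^ s * (u - 1) ^ m =
        (a s : E) * (u - 1) ^ m + ((a s : E) * s) * (u - 1) ^ (m + 1) := by
      intro s _
      rw [smul_mul_assoc, key, nsmul_eq_mul]; noncomm_ring
    rw [Finset.sum_congr rfl this, Finset.sum_add_distrib, ← Finset.sum_mul, ← Finset.sum_mul,
      c0, c1]
    simp
  rw [← h2, h0, zero_mul]

theorem lg_one {N D : ℕ} (hN : (N : E) = 0) (hD : 2 ≤ D) {a : ℕ → ℕ} (ha : LinCo N D a) :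
    lg D a (1 : E) = 0 := by
  have c0 := ha.cast hN (i := 0) (by omega)
  unfold lg
  simpa using c0

theorem pol_lg {Γ : Type} [Group Γ] {M : ℕ} (D : ℕ) (a : ℕ → ℕ) {u : Γ → E} (hu : Pol M u) :
    Pol (D * M + 1) (fun γ => lg D a (u γ)) := by
  unfold lg
  refine Pol.sum _ (fun s γ => a s • u γ ^ s) fun s hs => ?_
  have h1 := (hu.pow s).map (a s • AddMonoidHom.id E)
  refine (h1.mono ?_).congr (fun x => by simp)
  have := Finset.mem_range.1 hs
  exact Nat.succ_le_succ (Nat.mul_le_mul_right _ this.le)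

end Pool.Agent.H10.PC
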