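import Pool.Agent.H10.PC3

/-! Polynomial maps of bounded degree separate points of groups of order `p ^ n`, `p` large. -/

namespace Pool.Agent.H10.PC

open Function

/-- multiplication by `p` from `ZMod (p^n)` to `ZMod (p^(n+1))` -/
def iota (p n : ℕ) : ZMod (p ^ n) →+ ZMod (p ^ (n + 1)) :=
  ZMod.lift (p ^ n) ⟨(zmultiplesHom _ (p : ZMod (p ^ (n + 1)))), by
    simp only [zmultiplesHom_apply, zsmul_eq_mul]
    have : ((p ^ (n + 1) : ℕ) : ZMod (p ^ (n + 1))) = 0 := ZMod.natCast_self _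
    push_cast at this ⊢
    rw [← pow_succ, this]⟩

theorem iota_nat (p n m : ℕ) : iota p n (m : ZMod (p ^ n)) = (m : ZMod (p ^ (n + 1))) * p := by
  have : (m : ZMod (p ^ n)) = ((m : ℤ) : ZMod (p ^ n)) := by simp
  rw [this, iota, ZMod.lift_coe]
  simp

theorem iota_ne {p n : ℕ} (hp : p.Prime) {c : ZMod (p ^ n)} (hc : c ≠ 0) : iota p n c ≠ 0 := by
  haveI : NeZero (p ^ n) := ⟨pow_ne_zero _ hp.ne_zero⟩
  intro h
  apply hc
  rw [← ZMod.natCast_zmod_val c] at h ⊢
  rw [iota_nat, ← Nat.cast_mul, ZMod.natCast_eq_zero_iff, pow_succ] at h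
  rw [ZMod.natCast_eq_zero_iff]
  exact Nat.dvd_of_mul_dvd_mul_right hp.pos h

section Step

variable {G : Type} [Group G] (H : Subgroup G) [H.Normal] (t : G)

/-- the covering group -/
def Cov : Subgroup (G × Multiplicative ℤ) :=
  ((QuotientGroup.mk' H).comp (MonoidHom.fst G (Multiplicative ℤ))).eqLocus
    ((zpowersHom (G ⧸ H) (QuotientGroup.mk' H t)).comp (MonoidHom.snd G (Multiplicative ℤ)))

theorem mem_Cov (γ : G × Multiplicative ℤ) :
    γ ∈ Cov H t ↔ (γ.1 : G ⧸ H) = (t : G ⧸ H) ^ (Multiplicative.toAdd γ.2) := Iff.rfl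

/-- the affine map of `H` -/
def th (γ : Cov H t) (x : H) : H :=
  ⟨γ.1.1⁻¹ * x * t ^ (Multiplicative.toAdd γ.1.2), by
    rw [← QuotientGroup.eq_one_iff]
    have h1 := (mem_Cov H t γ.1).1 γ.2
    have h2 : ((x : G) : G ⧸ H) = 1 := (QuotientGroup.eq_one_iff _).2 x.2
    simp [h1, h2]⟩

theorem th_mul (γ : Cov H t) (y : H) : ∃ y', ∀ x, th H t γ (x * y) = th H t γ x * y' := by
  refine ⟨⟨(t ^ (Multiplicative.toAdd γ.1.2))⁻¹ * y * (t ^ (Multiplicative.toAdd γ.1.2))⁻¹⁻¹,
    Subgroup.Normal.conj_mem inferInstance _ y.2 _⟩, fun x => Subtype.ext ?_⟩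
  simp [th, mul_assoc]

variable (B : Type) [AddCommGroup B] (k : ℕ)

/-- the action on polynomial maps -/
def rho : Cov H t →* Module.End ℤ (PolS H B k) where
  toFun γ :=
    { toFun := fun f => ⟨fun x => f.1 (th H t γ x), Pol.comp _ (th_mul H t γ) f.2⟩
      map_add' := fun _ _ => rfl
      map_smul' := fun _ _ => rfl }
  map_one' := by
    ext f x
    change f.1 (th H t 1 x) = f.1 x
    refine congrArg f.1 (Subtype.ext ?_)
    simp [th]
  map_mul' a b := by
    ext f x
    change f.1 (th H t (a * b) x) = f.1 (th H t b (th H t a x))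
    refine congrArg f.1 (Subtype.ext ?_)
    simp [th, zpow_add, mul_assoc]

theorem rho_apply (γ : Cov H t) (f : PolS H B k) (x : H) :
    (rho H t B k γ f).1 x = f.1 (th H t γ x) := rfl

/-- projection -/
def pr : Cov H t →* G := (MonoidHom.fst G (Multiplicative ℤ)).comp (Cov H t).subtype

theorem factor {p : ℕ} (hgen : ∀ g : G, ∃ j : ℤ, (g : G ⧸ H) = (t : G ⧸ H) ^ j)
    (hord : orderOf (t : G ⧸ H) = p) (z : Cov H t)
    (hz : z.1 = (1, Multiplicative.ofAdd (p : ℤ))) {B' : Type} [AddCommGroup B'] {l : ℕ}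
    (F : Cov H t → B') (hF : Pol l F) (hFz : ∀ γ, F (γ * z) = F γ) :
    ∃ f : G → B', Pol l f ∧ ∀ γ, f (pr H t γ) = F γ := by
  have hsurj : Surjective (pr H t) := by
    intro g
    obtain ⟨j, hj⟩ := hgen g
    exact ⟨⟨(g, Multiplicative.ofAdd j), (mem_Cov H t _).2 hj⟩, rfl⟩
  have hzm : ∀ (m : ℤ) γ, F (γ * z ^ m) = F γ := by
    intro m
    induction m using Int.induction_on with
    | zero => simp
    | succ m ih => intro γ; rw [zpow_add_one, ← mul_assoc, hFz, ih]
    | pred m ih =>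
      intro γ
      rw [zpow_sub_one, ← hFz, ← mul_assoc, inv_mul_cancel_right, ih]
  have hwd : ∀ γ γ', pr H t γ = pr H t γ' → F γ = F γ' := by
    intro γ γ' h
    have h1 := (mem_Cov H t γ.1).1 γ.2
    have h2 := (mem_Cov H t γ'.1).1 γ'.2
    have h3 : γ.1.1 = γ'.1.1 := h
    rw [h3, h2, zpow_eq_zpow_iff_modEq, hord] at h1
    obtain ⟨m, hm⟩ := h1.dvd
    have : γ = γ' * z ^ m := by
      apply Subtype.ext
      rw [Subgroup.coe_mul, SubgroupClass.coe_zpow, hz]
      refine Prod.ext (by simp [h3]) ?_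
      apply Multiplicative.toAdd.injective
      simp only [Prod.pow_mk, Prod.snd_mul, toAdd_mul, toAdd_zpow, toAdd_ofAdd, smul_eq_mul]
      linarith
    rw [this, hzm]
  let f : G → B' := fun g => F (surjInv hsurj g)
  have hf : ∀ γ, f (pr H t γ) = F γ := fun γ => hwd _ _ (surjInv_eq hsurj _)
  exact ⟨f, Pol.of_surj (pr H t) hsurj (hF.congr fun γ => (hf γ).symm), hf⟩

end Step

theorem step (n k : ℕ) : ∃ k' K', ∀ p, p.Prime → K' ≤ p → ∀ (G : Type) [Group G]
    (H : Subgroup G), Nat.card G = p ^ (n + 1) → Nat.card H = p ^ n →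
    (∃ S : Finset H, S.card ≤ n ∧ Subgroup.closure (S : Set H) = ⊤) →
    (∀ w : H, w ≠ 1 → ∃ f : H → ZMod (p ^ n), Pol k f ∧ f w ≠ f 1) →
    (∃ S : Finset G, S.card ≤ n + 1 ∧ Subgroup.closure (S : Set G) = ⊤) ∧
    ∀ w : G, w ≠ 1 → ∃ f : G → ZMod (p ^ (n + 1)), Pol k' f ∧ f w ≠ f 1 := by
  classical
  set M := n * cb n k with hMdef
  refine ⟨(2 * M + 2) * M + 2, 2 * M + 2, fun p hp hK G _ H hG hH ⟨S, hS, hS'⟩ ih => ?_⟩
  haveI := Fact.mk hp
  haveI : NeZero (p ^ n) := ⟨pow_ne_zero _ hp.ne_zero⟩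
  haveI : Finite G := Nat.finite_of_card_ne_zero (hG ▸ pow_ne_zero _ hp.ne_zero)
  have hidx : H.index = p := by
    have := H.card_mul_index
    rw [hG, hH, pow_succ] at this
    exact Nat.eq_of_mul_eq_mul_left (pow_pos hp.pos n) this
  haveI hN : H.Normal := Subgroup.normal_of_index_eq_minFac_card (by
    rw [hidx, hG, hp.pow_minFac (by omega)])
  have hQ : Nat.card (G ⧸ H) = p := hidx
  obtain ⟨t, ht⟩ : ∃ t : G, t ∉ H := by
    by_contra h
    push Not at h
    have : H = ⊤ := eq_top_iff.2 fun x _ => h x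
    rw [this, Subgroup.index_top] at hidx
    exact hp.one_lt.ne hidx
  have ht1 : (t : G ⧸ H) ≠ 1 := fun h => ht ((QuotientGroup.eq_one_iff _).1 h)
  have hord : orderOf (t : G ⧸ H) = p := by
    have h1 : orderOf (t : G ⧸ H) ∣ p := hQ ▸ orderOf_dvd_natCard _
    rcases (Nat.dvd_prime hp).1 h1 with h | h
    · exact absurd (orderOf_eq_one_iff.1 h) ht1
    · exact h
  have hgen : ∀ g : G, ∃ j : ℤ, (g : G ⧸ H) = (t : G ⧸ H) ^ j := by
    intro g
    have := zpowers_eq_top_of_prime_card hQ ht1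
    have hg : (g : G ⧸ H) ∈ Subgroup.zpowers (t : G ⧸ H) := this ▸ Subgroup.mem_top _
    obtain ⟨j, hj⟩ := hg
    exact ⟨j, hj.symm⟩
  constructor
  · refine ⟨insert t (S.image H.subtype), ?_, ?_⟩
    · exact (Finset.card_insert_le _ _).trans (Nat.succ_le_succ (Finset.card_image_le.trans hS))
    · rw [eq_top_iff]
      intro g _
      obtain ⟨j, hj⟩ := hgen g
      have h1 : (t ^ j)⁻¹ * g ∈ H := by
        rw [← QuotientGroup.eq]; simp [hj]
      have hH' : H ≤ Subgroup.closure ((insert t (S.image H.subtype) : Finset G) : Set G) := by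
        intro x hx
        have h2 : (⟨x, hx⟩ : H) ∈ Subgroup.closure (S : Set H) := hS' ▸ Subgroup.mem_top _
        have h3 := Subgroup.mem_map_of_mem H.subtype h2
        rw [MonoidHom.map_closure] at h3
        refine Subgroup.closure_mono ?_ h3
        intro y hy
        simp only [Finset.coe_insert, Finset.coe_image]
        exact Or.inr hy
      have ht' : t ∈ Subgroup.closure ((insert t (S.image H.subtype) : Finset G) : Set G) :=
        Subgroup.subset_closure (by simp)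
      have := mul_mem (zpow_mem ht' j) (hH' h1)
      simpa using this
  intro w hw
  let z : Cov H t := ⟨(1, Multiplicative.ofAdd (p : ℤ)), (mem_Cov H t _).2 (by
    simp only [toAdd_ofAdd, zpow_natCast, QuotientGroup.mk_one]
    rw [← hord, pow_orderOf_eq_one])⟩
  have hzc : ∀ γ : Cov H t, Commute γ z := by
    intro γ
    apply Subtype.ext
    refine Prod.ext (by simp [z]) (mul_comm _ _)
  have hlin : ∀ β : ZMod (p ^ (n + 1)),
      Pol 2 (fun γ : Cov H t => Multiplicative.toAdd γ.1.2 • β) :=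
    fun β => Pol.hom (fun x y => by simp [add_smul])
  by_cases hwH : w ∈ H
  · -- the main case
    obtain ⟨f0, hf0, hf0'⟩ := ih ⟨w, hwH⟩⁻¹ (fun h => hw (by simpa using h))
    let W := PolS H (ZMod (p ^ n)) k
    let ρ := rho H t (ZMod (p ^ n)) k
    have hW : ∀ v : W, p ^ n • v = 0 := by
      intro v
      ext x
      simp [nsmul_eq_mul, ← Nat.cast_pow]
    have hcard : Nat.card W ≤ p ^ M := by
      have := card_PolS (B := ZMod (p ^ n)) S hS' n hS k
      rwa [Nat.card_zmod, ← pow_mul] at this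
    have hρ : ∀ γ, ∃ m, ρ (γ ^ p ^ m) = 1 := by
      intro γ
      refine ⟨n + 1, ?_⟩
      ext f x
      change f.1 (th H t _ x) = f.1 x
      refine congrArg f.1 (Subtype.ext ?_)
      have h1 : ∀ g : G, g ^ p ^ (n + 1) = 1 := fun g => hG ▸ pow_card_eq_one'
      simp only [th, SubgroupClass.coe_pow, Prod.pow_fst, Prod.pow_snd, h1, toAdd_pow,
        nsmul_eq_mul]
      rw [zpow_mul, zpow_natCast, h1]; simp
    obtain ⟨hpol, hnil⟩ := unip hp hW hcard ρ hρ
    have hE : ((p ^ n : ℕ) : Module.End ℤ W) = 0 := by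
      ext1 v
      rw [Module.End.natCast_apply, hW]; simp
    obtain ⟨a, ha⟩ := exists_linCo (e := n) hp hK (by omega)
    let γw : Cov H t := ⟨(w, 1), (mem_Cov H t _).2 (by
      simpa using hwH)⟩
    have hγw : ρ γw ≠ 1 := by
      intro h
      apply hf0'
      have := congrArg (fun T : Module.End ℤ W => (T ⟨f0, hf0⟩).1 1) h
      simp only [Module.End.one_apply] at this
      rw [← this]
      change f0 _ = f0 _
      congr 1
      apply Subtype.ext
      simp [th, γw]
    have hlg := lg_ne hE (by omega) ha _ (hnil γw) hγw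
    obtain ⟨φ, x, hφ⟩ : ∃ (φ : W) (x : H), (lg (2 * M + 2) a (ρ γw) φ).1 x ≠ 0 := by
      by_contra h
      push Not at h
      apply hlg
      ext φ x
      exact h φ x
    let ℓ : Module.End ℤ W →+ ZMod (p ^ n) :=
      { toFun := fun T => (T φ).1 x
        map_zero' := rfl
        map_add' := fun _ _ => rfl }
    let F0 : Cov H t → ZMod (p ^ n) := fun γ => ℓ (lg (2 * M + 2) a (ρ γ))
    have hF0 : Pol ((2 * M + 2) * M + 1) F0 := (pol_lg _ a hpol).map ℓ
    have hF0z : ∀ γ, F0 (γ * z) = F0 γ + F0 z := by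
      intro γ
      simp only [F0]
      rw [map_mul, lg_mul hp hK hE ha _ _ (hnil γ) (hnil z) ((hzc γ).map ρ), map_add]
    let β : ZMod (p ^ (n + 1)) := -((F0 z).val : ZMod (p ^ (n + 1)))
    let F : Cov H t → ZMod (p ^ (n + 1)) :=
      fun γ => iota p n (F0 γ) + Multiplicative.toAdd γ.1.2 • β
    have hF : Pol ((2 * M + 2) * M + 2) F :=
      ((hF0.map (iota p n)).succ).add ((hlin β).mono (by omega))
    have hFz : ∀ γ, F (γ * z) = F γ := by
      intro γ
      simp only [F]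
      rw [hF0z, map_add]
      have h1 : iota p n (F0 z) = ((F0 z).val : ZMod (p ^ (n + 1))) * p := by
        rw [← iota_nat, ZMod.natCast_zmod_val]
      have h2 : Multiplicative.toAdd (γ * z).1.2 = Multiplicative.toAdd γ.1.2 + p := by
        simp [z]
      rw [h1, h2, add_smul]
      simp only [β, zsmul_eq_mul]
      push_cast
      ring
    obtain ⟨f, hf, hf'⟩ := factor H t hgen hord z rfl F hF hFz
    refine ⟨f, hf, ?_⟩
    have e1 : f w = F γw := hf' γw
    have e2 : f 1 = F 1 := by rw [← hf' 1, map_one]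
    rw [e1, e2]
    have e3 : F 1 = 0 := by
      simp only [F, F0]
      rw [map_one, lg_one hE (by omega) ha]
      simp
    have e4 : F γw = iota p n (F0 γw) := by simp [F, γw]
    rw [e3, e4]
    exact iota_ne hp hφ
  · let β : ZMod (p ^ (n + 1)) := (p : ZMod (p ^ (n + 1))) ^ n
    have hβ : (p : ZMod (p ^ (n + 1))) * β = 0 := by
      have : ((p ^ (n + 1) : ℕ) : ZMod (p ^ (n + 1))) = 0 := ZMod.natCast_self _
      push_cast at this
      exact (pow_succ' _ n).symm.trans this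
    let F : Cov H t → ZMod (p ^ (n + 1)) := fun γ => Multiplicative.toAdd γ.1.2 • β
    have hFz : ∀ γ, F (γ * z) = F γ := by
      intro γ
      simp only [F]
      have h2 : Multiplicative.toAdd (γ * z).1.2 = Multiplicative.toAdd γ.1.2 + p := by
        simp [z]
      rw [h2, add_smul, natCast_zsmul, nsmul_eq_mul, hβ, add_zero]
    obtain ⟨f, hf, hf'⟩ := factor H t hgen hord z rfl F ((hlin β).mono (show 2 ≤ (2 * M + 2) * M + 2 by omega)) hFz
    refine ⟨f, hf, ?_⟩
    obtain ⟨j, hj⟩ := hgen w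
    let γw : Cov H t := ⟨(w, Multiplicative.ofAdd j), (mem_Cov H t _).2 hj⟩
    have e1 : f w = F γw := hf' γw
    have e2 : f 1 = F 1 := by rw [← hf' 1, map_one]
    rw [e1, e2]
    have e3 : F 1 = 0 := by simp [F]
    have e4 : F γw = ((j * p ^ n : ℤ) : ZMod (p ^ (n + 1))) := by simp [F, γw, β]
    rw [e3, e4, Ne, ZMod.intCast_zmod_eq_zero_iff_dvd]
    intro h
    apply hwH
    have h1 : (p : ℤ) ∣ j := by
      push_cast at h
      rw [pow_succ'] at h
      exact Int.dvd_of_mul_dvd_mul_right (pow_ne_zero _ (by exact_mod_cast hp.ne_zero)) h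
    rw [← QuotientGroup.eq_one_iff, hj, ← orderOf_dvd_iff_zpow_eq_one, hord]
    exact h1

theorem sep : ∀ n : ℕ, ∃ k K, ∀ p, p.Prime → K ≤ p → ∀ (G : Type) [Group G],
    Nat.card G = p ^ n → (∃ S : Finset G, S.card ≤ n ∧ Subgroup.closure (S : Set G) = ⊤) ∧
    ∀ w : G, w ≠ 1 → ∃ f : G → ZMod (p ^ n), Pol k f ∧ f w ≠ f 1
  | 0 => ⟨0, 0, fun p _ _ G _ hG => by
      have : Subsingleton G := (Nat.card_eq_one_iff_unique.1 (by simpa using hG)).1
      exact ⟨⟨∅, le_rfl, Subsingleton.elim _ _⟩, fun w hw => absurd (Subsingleton.elim _ _) hw⟩⟩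
  | n + 1 => by
      obtain ⟨k, K, ih⟩ := sep n
      obtain ⟨k', K', hs⟩ := step n k
      refine ⟨k', max K K', fun p hp hK G _ hG => ?_⟩
      haveI := Fact.mk hp
      haveI : Finite G := Nat.finite_of_card_ne_zero (hG ▸ pow_ne_zero _ hp.ne_zero)
      obtain ⟨H, hH⟩ := Sylow.exists_subgroup_card_pow_prime (G := G) p (n := n)
        (hG ▸ pow_dvd_pow p (Nat.le_succ n))
      obtain ⟨h1, h2⟩ := ih p hp (le_of_max_le_left hK) H hH
      exact hs p hp (le_of_max_le_right hK) G H hG hH h1 h2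

end Pool.Agent.H10.PC
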