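import Pool.Agent.H10.PC4

/-! A universal group of order at most `p ^ F n`. -/

namespace Pool.Agent.H10.PC

open Function

/-- index set of types of abelian `p`-groups -/
abbrev Ty (M : ℕ) : Type := (r : Fin (M + 1)) × (Fin r → Fin (M + 1))

/-- the abelian group of a given type -/
abbrev Ab (p M : ℕ) (l : Ty M) : Type := (i : Fin l.1) → ZMod (p ^ (l.2 i : ℕ))

/-- the universal group -/
abbrev Un (p M : ℕ) : Type := (l : Ty M) → (Module.End ℤ (Ab p M l))ˣ

theorem card_Ab {p M : ℕ} (hp : p.Prime) (l : Ty M) : Nat.card (Ab p M l) ≤ p ^ (M * M) := by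
  rw [Nat.card_pi]
  simp only [Nat.card_zmod]
  rw [Finset.prod_pow_eq_pow_sum]
  refine Nat.pow_le_pow_right hp.pos ?_
  calc ∑ i : Fin l.1, (l.2 i : ℕ) ≤ ∑ _i : Fin l.1, M :=
        Finset.sum_le_sum fun i _ => Nat.lt_succ_iff.1 (l.2 i).2
    _ = l.1 * M := by simp
    _ ≤ M * M := Nat.mul_le_mul_right _ (Nat.lt_succ_iff.1 l.1.2)

theorem fin_Ab {p M : ℕ} (hp : p.Prime) (l : Ty M) : Finite (Ab p M l) := by
  haveI : ∀ i : Fin l.1, NeZero (p ^ (l.2 i : ℕ)) := fun i => ⟨pow_ne_zero _ hp.ne_zero⟩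
  infer_instance

theorem end_inj {p M : ℕ} (hp : p.Prime) (l : Ty M) :
    Injective (fun (T : Module.End ℤ (Ab p M l)) (i : Fin l.1) => T (Pi.single i 1)) := by
  haveI : ∀ i : Fin l.1, NeZero (p ^ (l.2 i : ℕ)) := fun i => ⟨pow_ne_zero _ hp.ne_zero⟩
  intro T T' h
  refine LinearMap.ext fun v => ?_
  have hv : v = ∑ i, (v i).val • (Pi.single i 1 : Ab p M l) := by
    conv_lhs => rw [← Finset.univ_sum_single v]
    refine Finset.sum_congr rfl fun i _ => ?_
    rw [← Pi.single_smul, nsmul_eq_mul, mul_one, ZMod.natCast_zmod_val]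
  rw [hv, map_sum, map_sum]
  refine Finset.sum_congr rfl fun i _ => ?_
  rw [map_nsmul, map_nsmul]
  exact congrArg _ (congrFun h i)

theorem fin_End {p M : ℕ} (hp : p.Prime) (l : Ty M) : Finite (Module.End ℤ (Ab p M l)) := by
  haveI := fin_Ab hp l
  exact Finite.of_injective _ (end_inj hp l)

theorem card_units {p M : ℕ} (hp : p.Prime) (l : Ty M) :
    Nat.card (Module.End ℤ (Ab p M l))ˣ ≤ p ^ (M * M * M) := by
  haveI := fin_Ab hp l
  haveI := fin_End hp l
  calc Nat.card (Module.End ℤ (Ab p M l))ˣ ≤ Nat.card (Module.End ℤ (Ab p M l)) :=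
        Nat.card_le_card_of_injective _ Units.val_injective
    _ ≤ Nat.card (Fin l.1 → Ab p M l) := Nat.card_le_card_of_injective _ (end_inj hp l)
    _ = Nat.card (Ab p M l) ^ (l.1 : ℕ) := by rw [Nat.card_fun]; simp
    _ ≤ (p ^ (M * M)) ^ M := (Nat.pow_le_pow_left (card_Ab hp l) _).trans
        (Nat.pow_le_pow_right (Nat.one_le_pow _ _ hp.pos) (Nat.lt_succ_iff.1 l.1.2))
    _ = p ^ (M * M * M) := by rw [← pow_mul]

theorem fin_Un {p M : ℕ} (hp : p.Prime) : Finite (Un p M) := by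
  haveI := fun l : Ty M => fin_End hp l
  infer_instance

theorem card_Un {p M : ℕ} (hp : p.Prime) :
    Nat.card (Un p M) ≤ p ^ (M * M * M * Fintype.card (Ty M)) := by
  rw [Nat.card_pi, pow_mul]
  calc ∏ l : Ty M, Nat.card (Module.End ℤ (Ab p M l))ˣ ≤ ∏ _l : Ty M, p ^ (M * M * M) :=
        Finset.prod_le_prod' fun l _ => card_units hp l
    _ = _ := by simp

theorem exists_type {p e M : ℕ} (hp : p.Prime) (W : Type) [AddCommGroup W] [Finite W]
    (hW : ∀ w : W, p ^ e • w = 0) (hM : Nat.card W ≤ p ^ M) :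
    ∃ l : Ty M, Nonempty (W ≃+ Ab p M l) := by
  classical
  obtain ⟨ι, _, n, hn, ⟨φ⟩⟩ := AddCommGroup.equiv_directSum_zmod_of_finite' W
  let ψ : W ≃+ ((i : ι) → ZMod (n i)) := φ.trans (DirectSum.addEquivProd _)
  have hdvd : ∀ i, n i ∣ p ^ e := by
    intro i
    have h1 := hW (ψ.symm (Pi.single i 1))
    rw [← map_nsmul, map_eq_zero_iff _ ψ.symm.injective] at h1
    have h2 := congrFun h1 i
    simp only [Pi.smul_apply, Pi.single_eq_same, nsmul_eq_mul, mul_one, Pi.zero_apply] at h2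
    exact (ZMod.natCast_eq_zero_iff _ _).1 h2
  choose c _ hc using fun i => (Nat.dvd_prime_pow hp).1 (hdvd i)
  have hc1 : ∀ i, 1 ≤ c i := by
    intro i
    by_contra h
    have h0 : c i = 0 := by omega
    have := hn i
    rw [hc i, h0] at this
    simp at this
  have hsum : ∑ i, c i ≤ M := by
    have h1 : Nat.card W = p ^ ∑ i, c i := by
      rw [Nat.card_congr ψ.toEquiv, Nat.card_pi]
      simp only [Nat.card_zmod, hc]
      rw [Finset.prod_pow_eq_pow_sum]
    rw [h1] at hM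
    exact (Nat.pow_le_pow_iff_right hp.one_lt).1 hM
  have hcard : Fintype.card ι ≤ M := by
    refine le_trans ?_ hsum
    calc Fintype.card ι = ∑ _i : ι, 1 := by simp
      _ ≤ _ := Finset.sum_le_sum fun i _ => hc1 i
  have hcM : ∀ i, c i ≤ M := fun i =>
    (Finset.single_le_sum (fun j _ => Nat.zero_le (c j)) (Finset.mem_univ i)).trans hsum
  let σ := Fintype.equivFin ι
  refine ⟨⟨⟨Fintype.card ι, Nat.lt_succ_of_le hcard⟩,
    fun j => ⟨c (σ.symm j), Nat.lt_succ_of_le (hcM _)⟩⟩, ⟨ψ.trans ?_⟩⟩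
  have hn' : n = fun i => p ^ c i := funext hc
  subst hn'
  exact (LinearEquiv.piCongrLeft' ℤ (fun i => ZMod (p ^ c i)) σ).toAddEquiv

theorem embed_large (n : ℕ) : ∃ M K, ∀ p, p.Prime → K ≤ p → ∀ (G : Type) [Group G],
    Nat.card G = p ^ n → ∃ φ : G →* Un p M, Injective φ := by
  classical
  obtain ⟨k, K, h⟩ := sep n
  refine ⟨n * cb n k, K, fun p hp hK G _ hG => ?_⟩
  obtain ⟨⟨S, hS, hS'⟩, hsep⟩ := h p hp hK G hG
  haveI : NeZero (p ^ n) := ⟨pow_ne_zero _ hp.ne_zero⟩
  haveI : Finite G := Nat.finite_of_card_ne_zero (hG ▸ pow_ne_zero _ hp.ne_zero)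
  let W := PolS G (ZMod (p ^ n)) k
  have hW : ∀ v : W, p ^ n • v = 0 := by
    intro v
    ext x
    simp [nsmul_eq_mul, ← Nat.cast_pow]
  have hcard : Nat.card W ≤ p ^ (n * cb n k) := by
    have := card_PolS (B := ZMod (p ^ n)) S hS' n hS k
    rwa [Nat.card_zmod, ← pow_mul] at this
  let ρ : G →* Module.End ℤ W :=
    { toFun := fun g =>
        { toFun := fun f => ⟨fun x => f.1 (g⁻¹ * x),
            Pol.comp _ (fun y => ⟨y, fun x => (mul_assoc _ _ _).symm⟩) f.2⟩
          map_add' := fun _ _ => rfl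
          map_smul' := fun _ _ => rfl }
      map_one' := by
        ext f x
        change f.1 (1⁻¹ * x) = f.1 x
        simp
      map_mul' := fun a b => by
        ext f x
        change f.1 ((a * b)⁻¹ * x) = f.1 (b⁻¹ * (a⁻¹ * x))
        simp [mul_assoc] }
  have hρ : Injective ρ := by
    rw [injective_iff_map_eq_one]
    intro g hg
    by_contra hne
    obtain ⟨f, hf, hf'⟩ := hsep g⁻¹ (by simpa using hne)
    apply hf'
    have := congrArg (fun T : Module.End ℤ W => (T ⟨f, hf⟩).1 1) hg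
    change f (g⁻¹ * 1) = f 1 at this
    simpa using this
  obtain ⟨l, ⟨ε⟩⟩ := exists_type hp W hW hcard
  let ε' := ε.toIntLinearEquiv.conjRingEquiv
  let ρ' : G →* Module.End ℤ (Ab p (n * cb n k) l) := (ε' : _ →* _).comp ρ
  have hρ' : Injective ρ' := ε'.injective.comp hρ
  refine ⟨(MonoidHom.mulSingle (fun l => (Module.End ℤ (Ab p (n * cb n k) l))ˣ) l).comp
    ρ'.toHomUnits, ?_⟩
  refine (Pi.mulSingle_injective (M := fun l => (Module.End ℤ (Ab p (n * cb n k) l))ˣ) l).comp ?_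
  intro a b hab
  apply hρ'
  exact congrArg Units.val hab

theorem cover (n : ℕ) : ∃ F, ∀ p, p.Prime → ∃ (U : Type) (_ : Group U) (_ : Finite U),
    Nat.card U ≤ p ^ F ∧ ∀ (G : Type) [Group G], Nat.card G = p ^ n →
      ∃ φ : G →* U, Injective φ := by
  classical
  obtain ⟨M, K, h⟩ := embed_large n
  refine ⟨max (M * M * M * Fintype.card (Ty M)) (n * K ^ n), fun p hp => ?_⟩
  by_cases hK : K ≤ p
  · refine ⟨Un p M, inferInstance, fin_Un hp, ?_, h p hp hK⟩
    exact (card_Un hp).trans (Nat.pow_le_pow_right hp.pos (le_max_left _ _))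
  · refine ⟨Equiv.Perm (Fin (p ^ n)), inferInstance, inferInstance, ?_, fun G _ hG => ?_⟩
    · rw [Nat.card_perm, Nat.card_eq_fintype_card, Fintype.card_fin]
      refine (Nat.factorial_le_pow _).trans ?_
      rw [← pow_mul]
      refine Nat.pow_le_pow_right hp.pos (le_trans ?_ (le_max_right _ _))
      exact Nat.mul_le_mul_left _ (Nat.pow_le_pow_left (by omega) _)
    · haveI : Finite G := Nat.finite_of_card_ne_zero (hG ▸ pow_ne_zero _ hp.ne_zero)
      let e : G ≃ Fin (p ^ n) := Finite.equivFinOfCardEq hG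
      refine ⟨(e.permCongrHom : _ →* _).comp (MulAction.toPermHom G G), ?_⟩
      exact e.permCongrHom.injective.comp MulAction.toPerm_injective

end Pool.Agent.H10.PC
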