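import Mathlib

/-! Regev's theorem (Latyshev's proof): a PI algebra tensored with a finite-dimensional algebra
is PI. -/

namespace Pool.Agent.H10.PI

open List

variable {F R : Type} [Field F] [Ring R] [Algebra F R]

/-- The monomial function of a word. -/
def M (R : Type) [Ring R] {ι : Type} (l : List ι) : (ι → R) → R := fun y => (l.map y).prod

theorem basis_eq {ι : Type} (w : List ι) :
    FreeAlgebra.basisFreeMonoid F ι (FreeMonoid.ofList w) = (w.map (FreeAlgebra.ι F)).prod := by
  simp [FreeAlgebra.basisFreeMonoid, FreeAlgebra.equivMonoidAlgebraFreeMonoid, FreeMonoid.lift_apply]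

theorem expand {ι : Type} [DecidableEq ι] {d : ℕ} (w0 : Fin d → ι) (w : List ι) :
    ∃ T : Finset (List (Fin d)), (∀ l, l ∈ T ↔ l.map w0 = w) ∧ ∀ y : Fin d → R,
      (w.map fun j => ∑ i with w0 i = j, y i).prod = ∑ l ∈ T, M R l y := by
  induction w with
  | nil => exact ⟨{[]}, by simp, by simp [M]⟩
  | cons j w ih =>
    obtain ⟨T, h1, h2⟩ := ih
    refine ⟨((Finset.univ.filter fun i => w0 i = j) ×ˢ T).image fun p => p.1 :: p.2, fun l => ?_,
      fun y => ?_⟩
    · cases l <;> simp [h1]
    · rw [Finset.sum_image fun p _ q _ h => Prod.ext (cons.inj h).1 (cons.inj h).2,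
        Finset.sum_product, map_cons, prod_cons, h2, Finset.sum_mul_sum]
      rfl

/-- The multilinearization operator. -/
noncomputable def Δ (F R : Type) [Field F] [Ring R] [Algebra F R] (d : ℕ) :
    ((Fin d → R) → R) →ₗ[F] ((Fin d → R) → R) :=
  ∑ Z : Finset (Fin d), (-1 : ℤ) ^ Z.card • LinearMap.funLeft F R fun y i => if i ∈ Z then 0 else y i

theorem Δ_M {d : ℕ} (l : List (Fin d)) :
    Δ F R d (M R l) = if ∀ i, i ∈ l then M R l else 0 := by
  have h : ∀ Z : Finset (Fin d), (LinearMap.funLeft F R fun (y : Fin d → R) i =>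
      if i ∈ Z then 0 else y i) (M R l) = if Z ∈ l.toFinsetᶜ.powerset then M R l else 0 := by
    intro Z
    ext y
    simp only [LinearMap.funLeft_apply, M, Finset.mem_powerset]
    split_ifs with h
    · simp only [M]
      congr 1
      exact map_congr_left fun i hi => if_neg fun hz => by simpa [hi] using h hz
    · obtain ⟨i, h1, h2⟩ := Finset.not_subset.1 h
      exact prod_eq_zero (mem_map.2 ⟨i, by simpa using h2, if_pos h1⟩)
  simp only [Δ, LinearMap.sum_apply, LinearMap.smul_apply, h, smul_ite, smul_zero]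
  rw [Finset.sum_ite_mem, Finset.univ_inter, ← Finset.sum_smul, Finset.sum_powerset_neg_one_pow_card]
  simp [Finset.eq_univ_iff_forall]

theorem multilin {ι : Type} (g : FreeAlgebra F ι) (hg : g ≠ 0)
    (h : ∀ r : ι → R, FreeAlgebra.lift F r g = 0) : ∃ d : ℕ, M R (finRange d) ∈
      Submodule.span F (M R '' {l | l ~ finRange d ∧ l ≠ finRange d}) := by
  classical
  let b := FreeAlgebra.basisFreeMonoid F ι
  obtain ⟨w0, hw, hm⟩ := (b.repr g).support.exists_max_image (fun w => w.toList.length)
    (Finsupp.support_nonempty_iff.2 (by simpa using hg))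
  refine ⟨w0.toList.length, ?_⟩
  set d := w0.toList.length
  set S := Submodule.span F (M R '' {l | l ~ finRange d ∧ l ≠ finRange d})
  choose T h1 h2 using expand (R := R) (w0.toList.get)
  have e : ∑ w ∈ (b.repr g).support, b.repr g w • ∑ l ∈ T w.toList, M R l = 0 := by
    ext y
    rw [Pi.zero_apply, ← h fun j => ∑ i with w0.toList.get i = j, y i]
    conv_rhs => rw [← b.linearCombination_repr g, Finsupp.linearCombination_apply, Finsupp.sum]
    simp only [Finset.sum_apply, Pi.smul_apply, map_sum, map_smul, ← h2]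
    refine Finset.sum_congr rfl fun w _ => ?_
    rw [show b w = _ from basis_eq w.toList, map_list_prod]
    simp [Function.comp_def]
  have k : ∀ w ∈ (b.repr g).support, ∀ l ∈ T w.toList, S.mkQ (Δ F R d (M R l)) =
      if l = finRange d then S.mkQ (M R (finRange d)) else 0 := by
    intro w hw l hl
    rw [Δ_M]
    split_ifs with a c c
    · rw [c]
    · refine (Submodule.Quotient.mk_eq_zero _).2 (Submodule.subset_span ⟨l, ⟨?_, c⟩, rfl⟩)
      refine ((subperm_of_subset (nodup_finRange d) fun i _ => a i).perm_of_length_le ?_).symm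
      have := hm w hw
      rw [← (h1 _ _).1 hl] at this
      simpa using this
    · exact (a (by simp [c])).elim
    · rfl
  have e2 := congrArg (fun G => S.mkQ (Δ F R d G)) e
  simp only [map_sum, map_smul, map_zero] at e2
  rw [Finset.sum_congr rfl fun w hw => by rw [Finset.sum_congr rfl (k w hw), Finset.sum_ite_eq'],
    Finset.sum_eq_single w0 (fun w _ hne => by
      rw [if_neg, smul_zero]
      rw [h1, map_get_finRange]
      exact fun e => hne (FreeMonoid.toList.injective e).symm) (fun h => (h hw).elim),
    if_pos (by rw [h1, map_get_finRange]), smul_eq_zero] at e2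
  exact (Submodule.Quotient.mk_eq_zero _).1 (e2.resolve_left (Finsupp.mem_support_iff.1 hw))

theorem blocks {α : Type} {s l : List α} (h : s <+ l) : ∃ (u : List α) (bs : List (α × List α)),
    bs.map Prod.fst = s ∧ l = u ++ bs.flatMap fun p => p.1 :: p.2 := by
  induction h with
  | slnil => exact ⟨[], [], rfl, rfl⟩
  | cons a _ ih =>
    obtain ⟨u, bs, h1, rfl⟩ := ih
    exact ⟨a :: u, bs, h1, rfl⟩
  | cons_cons a _ ih =>
    obtain ⟨u, bs, rfl, rfl⟩ := ih
    exact ⟨[], (a, u) :: bs, rfl, rfl⟩

theorem lex_lt {α β : Type} [LinearOrder α] (b : β → α × List α) (q : List β)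
    (hq : q.Pairwise fun i j => (b j).1 < (b i).1) (p : List β) (h : p ~ q) (hne : p ≠ q)
    (u : List α) : u ++ p.flatMap (fun i => (b i).1 :: (b i).2) <
      u ++ q.flatMap fun i => (b i).1 :: (b i).2 := by
  induction q generalizing p u with
  | nil => exact (hne h.eq_nil).elim
  | cons a q ih =>
    obtain _ | ⟨a', p⟩ := p
    · simp at h
    by_cases e : a' = a
    · subst e
      simpa using ih hq.of_cons p h.cons_inv (fun e => hne (by rw [e])) (u ++ (b a').1 :: (b a').2)
    · have := rel_of_pairwise_cons hq ((mem_cons.1 (h.subset mem_cons_self)).resolve_left e)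
      exact List.Lex.append_left _ (List.Lex.rel this) u

/-- No strictly decreasing subsequence of length `d`. -/
def Good {α : Type} [LT α] (d : ℕ) (l : List α) : Prop :=
  ∀ s, s <+ l → s.Pairwise (· > ·) → s.length ≠ d

theorem laty {d : ℕ} (h : M R (finRange d) ∈
      Submodule.span F (M R '' {l | l ~ finRange d ∧ l ≠ finRange d})) (n : ℕ)
    (l : List (Fin n)) (hl : l ~ finRange n) :
    M R l ∈ Submodule.span F (M R '' {l | l ~ finRange n ∧ Good d l}) := by
  have : Finite {l : List (Fin n) // l ~ finRange n} :=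
    ((List.finite_length_eq (Fin n) n).subset fun l (h : l ~ _) => by simpa using h.length_eq).to_subtype
  suffices ∀ x : {l : List (Fin n) // l ~ finRange n}, M R x.1 ∈ _ from this ⟨l, hl⟩
  intro x
  induction x using (wellFounded_lt (α := {l : List (Fin n) // l ~ finRange n})).induction with
  | _ x ih =>
  obtain ⟨l, hl⟩ := x
  by_cases hg : Good d l
  · exact Submodule.subset_span ⟨l, ⟨hl, hg⟩, rfl⟩
  simp only [Good, not_forall, not_not] at hg
  obtain ⟨s, hs, h1, h2⟩ := hg
  obtain ⟨u, bs, rfl, rfl⟩ := blocks hs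
  rw [length_map] at h2
  subst h2
  let L : ((Fin bs.length → R) → R) →ₗ[F] ((Fin n → R) → R) :=
    { toFun := fun G x => M R u x * G fun j => M R ((bs.get j).1 :: (bs.get j).2) x
      map_add' := fun _ _ => funext fun _ => mul_add _ _ _
      map_smul' := fun _ _ => funext fun _ => mul_smul_comm _ _ _ }
  have hL : ∀ p, L (M R p) = M R (u ++ p.flatMap fun i => (bs.get i).1 :: (bs.get i).2) := by
    intro p
    ext x
    simp only [L, M, LinearMap.coe_mk, AddHom.coe_mk, map_append, prod_append]
    congr 1
    induction p with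
    | nil => rfl
    | cons a p ih => rw [flatMap_cons, map_append, prod_append, ← ih]; rfl
  have e : ((finRange bs.length).flatMap fun i => (bs.get i).1 :: (bs.get i).2) =
      bs.flatMap fun p => p.1 :: p.2 := by
    conv_rhs => rw [← map_get_finRange bs, flatMap_map]
  have := Submodule.mem_map_of_mem (f := L) h
  rw [hL, e, Submodule.map_span] at this
  refine Submodule.span_le.2 ?_ this
  rintro _ ⟨_, ⟨p, ⟨hp, hne⟩, rfl⟩, rfl⟩
  rw [hL]
  refine ih ⟨_, ((e ▸ hp.flatMap_right _).append_left u).trans hl⟩ ?_
  refine (lex_lt _ _ ?_ p hp hne u).trans_eq (congrArg _ e)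
  rw [← map_get_finRange bs, map_map, pairwise_map] at h1
  exact h1

theorem color {α : Type} [LinearOrder α] (l : List α) (hl : l.Nodup) : ∃ c : α → ℕ,
    l.Pairwise (fun a b => b < a → c b < c a) ∧
    ∀ a ∈ l, ∃ s, a :: s <+ l ∧ (a :: s).Pairwise (· > ·) ∧ s.length = c a := by
  induction l with
  | nil => exact ⟨0, by simp, by simp⟩
  | cons a t ih =>
    obtain ⟨c, h1, h2⟩ := ih hl.of_cons
    have ha : ∀ b ∈ t, b ≠ a := fun b hb e => hl.notMem (e ▸ hb)
    refine ⟨Function.update c a ((t.toFinset.filter (· < a)).sup fun b => c b + 1),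
      pairwise_cons.2 ⟨fun b hb h => ?_, h1.imp_of_mem fun hx hy h e => ?_⟩, fun b hb => ?_⟩
    · rw [Function.update_self, Function.update_of_ne (ha b hb)]
      exact Finset.le_sup (f := fun b => c b + 1) (by simp [hb, h])
    · rw [Function.update_of_ne (ha _ hx), Function.update_of_ne (ha _ hy)]
      exact h e
    · rcases mem_cons.1 hb with rfl | hb
      · rw [Function.update_self]
        rcases (t.toFinset.filter (· < b)).eq_empty_or_nonempty with e | e
        · exact ⟨[], by simp, by simp, by simp [e]⟩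
        · obtain ⟨x, hx, e⟩ := Finset.exists_mem_eq_sup _ e fun b => c b + 1
          simp only [Finset.mem_filter, mem_toFinset] at hx
          obtain ⟨s, h3, h4, h5⟩ := h2 x hx.1
          refine ⟨x :: s, h3.cons_cons _, pairwise_cons.2 ⟨fun y hy => ?_, h4⟩, by simp [e, h5]⟩
          rcases mem_cons.1 hy with rfl | hy
          · exact hx.2
          · exact (rel_of_pairwise_cons h4 hy).trans hx.2
      · obtain ⟨s, h3, h4, h5⟩ := h2 b hb
        exact ⟨s, h3.cons _, h4, by rw [Function.update_of_ne (ha b hb), h5]⟩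

theorem eq_of_filter {α β : Type} [DecidableEq β] (c : α → β) (l l' : List α)
    (h : l.map c = l'.map c) (k : ∀ j, l.filter (c · = j) = l'.filter (c · = j)) : l = l' := by
  induction l generalizing l' with
  | nil => simpa using h
  | cons a l ih =>
    obtain _ | ⟨a', l'⟩ := l'
    · simp at h
    simp only [map_cons, cons.injEq] at h
    have e : a = a' := by simpa [filter_cons, h.1] using (by simpa [h.1] using k (c a') : _ ∧ _).1
    subst e
    rw [ih l' h.2 fun j => ?_]
    have := k j
    by_cases hj : c a = j <;> simpa [hj] using this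

theorem count (d n : ℕ) : {l | l ~ finRange n ∧ Good d l}.ncard ≤ d ^ n * d ^ n := by
  have ex : ∀ l : {l | l ~ finRange n ∧ Good d l}, ∃ c : Fin n → Fin d,
      ∀ j, (l.1.filter (c · = j)).Pairwise (· < ·) := by
    rintro ⟨l, hl, hg⟩
    have nd := hl.nodup_iff.2 (nodup_finRange n)
    obtain ⟨c, h1, h2⟩ := color l nd
    refine ⟨fun a => ⟨c a, not_le.1 fun h => ?_⟩, fun j => ?_⟩
    · obtain ⟨s, h3, h4, h5⟩ := h2 a (hl.symm.subset (mem_finRange a))
      exact hg _ ((take_sublist d _).trans h3) (h4.sublist (take_sublist d _)) (by simp; omega)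
    · rw [pairwise_filter]
      refine (h1.and nd).imp fun h ha hb => ?_
      simp only [decide_eq_true_eq, Fin.ext_iff] at ha hb
      exact lt_of_le_of_ne (not_lt.1 fun e => by have := h.1 e; omega) h.2
  choose c hc using ex
  have := Nat.card_le_card_of_injective (β := (Fin n → Fin d) × List.Vector (Fin d) n)
    (fun l : {l | l ~ finRange n ∧ Good d l} =>
      (c l, ⟨l.1.map (c l), by simpa using l.2.1.length_eq⟩)) fun l l' e => by
      have e1 : c l = c l' := congrArg Prod.fst e
      have e2 : l.1.map (c l) = l'.1.map (c l') := congrArg (fun x => x.2.1) e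
      have h' := hc l'
      rw [← e1] at e2 h'
      exact Subtype.ext (eq_of_filter _ _ _ e2 fun j =>
        ((l.2.1.trans l'.2.1.symm).filter _).eq_of_pairwise
          (fun _ _ _ _ h k => (lt_asymm h k).elim) (hc l j) (h' j))
  simpa [Nat.card_coe_set_eq] using this

open TensorProduct in
theorem regev (D : Type) [Ring D] [Algebra F D] [FiniteDimensional F D] {ι : Type}
    (g : FreeAlgebra F ι) (hg : g ≠ 0) (h : ∀ r : ι → R, FreeAlgebra.lift F r g = 0) :
    ∃ (n : ℕ) (f : FreeAlgebra F (Fin n)), f ≠ 0 ∧
      ∀ r : Fin n → R ⊗[F] D, FreeAlgebra.lift F r f = 0 := by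
  obtain ⟨d, hd⟩ := multilin g hg h
  let e := Module.finBasis F D
  set k := Module.finrank F D
  obtain ⟨n, hn⟩ := (Nat.eventually_mul_pow_lt_factorial_sub k (k * (d * d)) 0).exists
  set G := {l | l ~ finRange n ∧ Good d l}
  have hG : G.Finite :=
    (List.finite_length_eq (Fin n) n).subset fun l h => by simpa using h.1.length_eq
  set W := Submodule.span F (M R '' G)
  have : FiniteDimensional F W := FiniteDimensional.span_of_finite F (hG.image _)
  have hW : Module.finrank F W ≤ d ^ n * d ^ n := by
    have := (hG.image (M R)).fintype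
    refine (finrank_span_le_card _).trans ?_
    rw [← Set.ncard_eq_toFinset_card']
    exact (Set.ncard_image_le hG).trans (count d n)
  let m : Equiv.Perm (Fin n) → W := fun σ => ⟨M R ((finRange n).map σ), laty hd n _ σ.map_finRange_perm⟩
  let Φ : (Equiv.Perm (Fin n) → F) →ₗ[F] ((Fin n → Fin k) → Fin k → W) :=
    Fintype.linearCombination F fun σ p j => e.repr (M D ((finRange n).map σ) (e ∘ p)) j • m σ
  obtain ⟨α, h1, h2⟩ := (Submodule.ne_bot_iff _).1 (LinearMap.ker_ne_bot_of_finrank_lt (f := Φ) (by
    simp only [Module.finrank_pi_fintype, Finset.sum_const, Finset.card_univ, Fintype.card_pi,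
      Fintype.card_fin, Finset.prod_const, smul_eq_mul, Module.finrank_self, Fintype.card_perm]
    rw [mul_pow, mul_pow] at hn
    calc _ ≤ k ^ n * (k * (d ^ n * d ^ n)) := by gcongr
      _ < _ := by simpa [mul_left_comm] using hn))
  refine ⟨n, ∑ σ, α σ • (((finRange n).map σ).map (FreeAlgebra.ι F)).prod, fun h0 => h2 ?_,
    fun r => ?_⟩
  · simp only [← basis_eq] at h0
    refine funext (Fintype.linearIndependent_iff.1 ((FreeAlgebra.basisFreeMonoid F _).linearIndependent.comp
      (fun σ : Equiv.Perm (Fin n) => FreeMonoid.ofList ((finRange n).map σ)) fun σ τ e => ?_) α h0)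
    ext i
    rw [map_inj_left.1 (FreeMonoid.ofList.injective e) i (mem_finRange i)]
  · let μ : MultilinearMap F (fun _ : Fin n => R ⊗[F] D) (R ⊗[F] D) :=
      ∑ σ, α σ • (MultilinearMap.mkPiAlgebraFin F n _).domDomCongr σ
    have hμ : ∀ r, μ r = ∑ σ, α σ • M _ ((finRange n).map σ) r := fun r => by
      simp [μ, M, ofFn_eq_map, Function.comp_def]
    have h3 : FreeAlgebra.lift F r (∑ σ, α σ • (((finRange n).map σ).map (FreeAlgebra.ι F)).prod) =
        μ r := by
      simp [hμ, M, map_list_prod, Function.comp_def]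
    choose x hx using fun i => TensorProduct.eq_repr_basis_right e (r i)
    have hx' : ∀ i, r i = ∑ j, x i j ⊗ₜ[F] e j := fun i => by
      rw [← hx i, Finsupp.sum_fintype _ _ (by simp)]
    rw [h3, funext hx', μ.map_sum]
    refine Finset.sum_eq_zero fun p _ => ?_
    have h4 : ∀ l : List (Fin n), M _ l (fun i => x i (p i) ⊗ₜ[F] e (p i)) =
        M R l (fun i => x i (p i)) ⊗ₜ[F] M D l (e ∘ p) := fun l => by
      induction l with
      | nil => rfl
      | cons a l ih => simp only [M, map_cons, prod_cons] at ih ⊢; rw [ih]; simp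
    rw [hμ]
    simp only [h4]
    have h5 : ∀ j, ∑ σ, α σ • e.repr (M D ((finRange n).map σ) (e ∘ p)) j •
        M R ((finRange n).map σ) (fun i => x i (p i)) = 0 := fun j => by
      have := congrFun (congrArg Subtype.val (congrFun (congrFun h1 p) j)) fun i => x i (p i)
      simpa [Φ, Fintype.linearCombination_apply, m] using this
    calc _ = ∑ j, (∑ σ, α σ • e.repr (M D ((finRange n).map σ) (e ∘ p)) j •
        M R ((finRange n).map σ) (fun i => x i (p i))) ⊗ₜ[F] e j := by
          simp only [TensorProduct.sum_tmul]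
          rw [Finset.sum_comm]
          refine Finset.sum_congr rfl fun σ _ => ?_
          conv_lhs => rw [← e.sum_repr (M D _ _)]
          simp only [TensorProduct.tmul_sum, Finset.smul_sum, TensorProduct.tmul_smul,
            TensorProduct.smul_tmul']
      _ = 0 := by simp only [h5, TensorProduct.zero_tmul, Finset.sum_const_zero]

end Pool.Agent.H10.PI
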