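import Mathlib

set_option autoImplicit false

namespace Pool.Agent.H10.PTree

open SimpleGraph

/-- a graph in which each vertex has at most one neighbour of rank not larger is acyclic -/
lemma acyclic {V : Type} (G : SimpleGraph V) (r : V → ℕ)
    (h : ∀ v a b, G.Adj v a → G.Adj v b → r a ≤ r v → r b ≤ r v → a = b) : G.IsAcyclic := by
  classical
  intro v c hc
  obtain ⟨u, hu, hm⟩ := Finset.exists_max_image c.support.toFinset r ⟨v, by simp⟩
  have hu' : u ∈ c.support := by simpa using hu
  have hc' := hc.rotate hu'
  have hn := hc'.not_nil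
  have hs : ∀ x ∈ (c.rotate u hu').support, r x ≤ r u := fun x hx =>
    hm x (by simpa using hx)
  exact hc'.snd_ne_penultimate (h u _ _ (Walk.adj_snd hn) (Walk.adj_penultimate hn).symm
    (hs _ (Walk.getVert_mem_support _ _)) (hs _ (Walk.getVert_mem_support _ _)))

end Pool.Agent.H10.PTree
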