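import Mathlib

/-! Products of conjugates in nilpotent groups. -/

namespace Pool.Agent.H10.PW

open Subgroup List
open scoped commutatorElement

variable {G : Type} [Group G]

theorem cen {z : G} (h : z ∈ center G) (g : G) : g * z = z * g := mem_center_iff.1 h g

theorem cm_mul_right {w : G} (h : ∀ g, ⁅w, g⁆ ∈ center G) (a b : G) :
    ⁅w, a * b⁆ = ⁅w, a⁆ * ⁅w, b⁆ := by
  have : ⁅w, a * b⁆ = ⁅w, a⁆ * (a * ⁅w, b⁆) * a⁻¹ := by
    simp only [commutatorElement_def]; group
  rw [this, cen (h b) a]; group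

theorem cm_inv_right {w : G} (h : ∀ g, ⁅w, g⁆ ∈ center G) (a : G) : ⁅w, a⁻¹⁆ = ⁅w, a⁆⁻¹ := by
  rw [eq_inv_iff_mul_eq_one, ← cm_mul_right h]; simp

theorem cm_conj_right {w : G} (h : ∀ g, ⁅w, g⁆ ∈ center G) (a b : G) :
    ⁅w, b * a * b⁻¹⁆ = ⁅w, a⁆ := by
  rw [cm_mul_right h, cm_mul_right h, cm_inv_right h, cen (h a)]; group

theorem cm_mul_left {w : G} (h : ∀ g, ⁅w, g⁆ ∈ center G) (v a : G) :
    ⁅v * w, a⁆ = ⁅w, a⁆ * ⁅v, a⁆ := by
  have : ⁅v * w, a⁆ = (v * ⁅w, a⁆) * v⁻¹ * ⁅v, a⁆ := by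
    simp only [commutatorElement_def]; group
  rw [this, cen (h a) v]; group

theorem cm_inv_left {w : G} (h : ∀ g, ⁅w, g⁆ ∈ center G) (a : G) : ⁅w⁻¹, a⁆ = ⁅w, a⁆⁻¹ := by
  rw [eq_comm, inv_eq_iff_mul_eq_one, ← cm_mul_left h]; simp

theorem ach1 (R : G → G → Prop) {e a : G} (he : e ∈ center G)
    (hm : ∀ b, R a b → R a (b * e)) : ∀ {u u' : List G}, a ∈ u → Forall₂ R u u' →
      ∃ u'', Forall₂ R u u'' ∧ u''.prod = u'.prod * e := by
  intro u u' ha h
  induction h with
  | nil => simp at ha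
  | @cons x y l l' hxy hl ih =>
    rcases List.mem_cons.1 ha with rfl | ha
    · refine ⟨y * e :: l', Forall₂.cons (hm _ hxy) hl, ?_⟩
      rw [prod_cons, prod_cons, mul_assoc, ← cen he, mul_assoc]
    · obtain ⟨l'', h1, h2⟩ := ih ha
      exact ⟨y :: l'', Forall₂.cons hxy h1, by rw [prod_cons, prod_cons, h2, mul_assoc]⟩

theorem ach (R : G → G → Prop) (u : List G) (S : Set G)
    (hS : ∀ e ∈ S, e ∈ center G ∧ ∃ a ∈ u, (∀ b, R a b → R a (b * e)) ∧
      ∀ b, R a b → R a (b * e⁻¹)) {e : G} (he : e ∈ closure S) :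
    ∀ u', Forall₂ R u u' → ∃ u'', Forall₂ R u u'' ∧ u''.prod = u'.prod * e := by
  induction he using closure_induction'' with
  | mem x hx =>
    obtain ⟨h1, a, ha, h2, -⟩ := hS x hx
    exact fun u' h => ach1 R h1 h2 ha h
  | inv_mem x hx =>
    obtain ⟨h1, a, ha, -, h2⟩ := hS x hx
    exact fun u' h => ach1 R (inv_mem h1) h2 ha h
  | one => exact fun u' h => ⟨u', h, by simp⟩
  | mul x y _ _ hx hy =>
    intro u' h
    obtain ⟨v, h1, h2⟩ := hx u' h
    obtain ⟨w, h3, h4⟩ := hy v h1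
    exact ⟨w, h3, by rw [h4, h2, mul_assoc]⟩

/-- elements whose commutators with `H` lie in `E` -/
def Dg (H : Set G) (hc : ∀ w ∈ H, ∀ g, ⁅w, g⁆ ∈ center G) (E : Subgroup G) : Subgroup G where
  carrier := {g | ∀ w ∈ H, ⁅w, g⁆ ∈ E}
  one_mem' w _ := by simp
  mul_mem' ha hb w hw := by rw [cm_mul_right (hc w hw)]; exact mul_mem (ha w hw) (hb w hw)
  inv_mem' ha w hw := by rw [cm_inv_right (hc w hw)]; exact inv_mem (ha w hw)

theorem achConj (H : Subgroup G) (hc : ∀ w ∈ H, ∀ g, ⁅w, g⁆ ∈ center G) (u : List G) {e : G}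
    (he : e ∈ closure {e | ∃ w ∈ H, ∃ a ∈ u, e = ⁅w, a⁆}) :
    ∀ u', Forall₂ IsConj u u' → ∃ u'', Forall₂ IsConj u u'' ∧ u''.prod = u'.prod * e := by
  have key : ∀ w ∈ H, ∀ a b : G, IsConj a b → IsConj a (b * ⁅w, a⁆) := by
    intro w hw a b hab
    obtain ⟨c, rfl⟩ := isConj_iff.1 hab
    refine hab.trans (isConj_iff.2 ⟨w, ?_⟩)
    rw [← cm_conj_right (hc w hw) a c, cen (hc w hw _)]
    simp only [commutatorElement_def]; group
  refine ach IsConj u _ ?_ he
  rintro _ ⟨w, hw, a, ha, rfl⟩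
  refine ⟨hc w hw a, a, ha, key w hw a, ?_⟩
  rw [← cm_inv_left (hc w hw)]
  exact key _ (inv_mem hw) a

theorem liftConj {K : Type} [Group K] (f : G →* K) (hf : Function.Surjective f) :
    ∀ (u : List G) (v : List K), Forall₂ IsConj (u.map f) v →
      ∃ u', Forall₂ IsConj u u' ∧ u'.map f = v
  | [], v, h => ⟨[], Forall₂.nil, by simpa using h⟩
  | a :: u, v, h => by
    rw [List.map_cons] at h
    cases h with
    | cons h1 h2 =>
      obtain ⟨u', h3, rfl⟩ := liftConj f hf u _ h2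
      obtain ⟨c, rfl⟩ := isConj_iff.1 h1
      obtain ⟨c, rfl⟩ := hf c
      exact ⟨(c * a * c⁻¹) :: u', Forall₂.cons (isConj_iff.2 ⟨c, rfl⟩) h3, by simp⟩

theorem lcs_quot (r : ℕ) : (⊤ : Subgroup (G ⧸ (⊤ : Subgroup G).lowerCentralSeries r)).lowerCentralSeries r
    = ⊥ := by
  have h := map_lowerCentralSeries (⊤ : Subgroup G)
    (QuotientGroup.mk' ((⊤ : Subgroup G).lowerCentralSeries r)) r
  rw [map_top_of_surjective _ (QuotientGroup.mk'_surjective _)] at h
  rw [← h, Subgroup.map_eq_bot_iff, QuotientGroup.ker_mk']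

theorem cen_of (r : ℕ) (h : (⊤ : Subgroup G).lowerCentralSeries (r + 1) = ⊥) {z : G}
    (hz : z ∈ (⊤ : Subgroup G).lowerCentralSeries r) : z ∈ center G := by
  refine mem_center_iff.2 fun g => ?_
  have : ⁅z, g⁆ ∈ (⊤ : Subgroup G).lowerCentralSeries (r + 1) :=
    commutator_mem_commutator hz (mem_top g)
  rw [h, mem_bot, commutatorElement_eq_one_iff_mul_comm] at this
  exact this.symm

theorem map_gen {K : Type} [Group K] (f : G →* K) (hf : Function.Surjective f) {s : Set G}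
    {t : Set K} (hs : closure s = ⊤) (h : f '' s ⊆ t) : closure t = ⊤ := by
  rw [eq_top_iff, ← map_top_of_surjective f hf, ← hs, MonoidHom.map_closure]
  exact closure_mono h

theorem liftMod (r : ℕ) (u : List G) (c : G)
    (h : ∃ v, Forall₂ IsConj (u.map (QuotientGroup.mk' ((⊤ : Subgroup G).lowerCentralSeries r))) v ∧
      v.prod = (u.map (QuotientGroup.mk' _)).prod * QuotientGroup.mk' _ c) :
    ∃ u', Forall₂ IsConj u u' ∧
      u'.prod⁻¹ * (u.prod * c) ∈ (⊤ : Subgroup G).lowerCentralSeries r := by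
  obtain ⟨v, h1, h2⟩ := h
  obtain ⟨u', h3, rfl⟩ := liftConj _ (QuotientGroup.mk'_surjective _) u v h1
  rw [← map_list_prod, ← map_list_prod, ← map_mul] at h2
  exact ⟨u', h3, QuotientGroup.eq.1 h2⟩

theorem comm_map {K : Type} [Group K] (f : G →* K) {c : G} (hc : c ∈ commutator G) :
    f c ∈ commutator K := by
  have : (commutator G).map f ≤ commutator K := by
    rw [commutator_def, map_commutator]
    exact commutator_mono le_top le_top
  exact this ⟨c, hc, rfl⟩

theorem lemA : ∀ (r : ℕ) (G : Type) [Group G],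
    (⊤ : Subgroup G).lowerCentralSeries (r + 1) = ⊥ → ∀ u : List G, closure {a | a ∈ u} = ⊤ →
      ∀ c ∈ commutator G, ∃ u', Forall₂ IsConj u u' ∧ u'.prod = u.prod * c
  | 0, G, _, h, u, _, c, hc => by
    have : c = 1 := by
      rw [top_lowerCentralSeries_one] at h
      rwa [h, mem_bot] at hc
    exact ⟨u, forall₂_same.2 fun a _ => IsConj.refl a, by simp [this]⟩
  | r + 1, G, _, h, u, hu, c, hc => by
    obtain ⟨u', h1, h2⟩ := liftMod (r + 1) u c (lemA r _ (lcs_quot _) _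
      (map_gen _ (QuotientGroup.mk'_surjective _) hu (by
        rintro _ ⟨a, ha, rfl⟩; exact List.mem_map_of_mem ha)) _ (comm_map _ hc))
    have hc : ∀ w ∈ (⊤ : Subgroup G).lowerCentralSeries r, ∀ g, ⁅w, g⁆ ∈ center G :=
      fun w hw g => cen_of _ h (commutator_mem_commutator hw (mem_top g))
    have hD : ⊤ ≤ Dg _ hc (closure {e | ∃ w ∈ (⊤ : Subgroup G).lowerCentralSeries r,
        ∃ a ∈ u, e = ⁅w, a⁆}) := by
      refine hu.ge.trans ((closure_le _).2 ?_)
      exact fun a ha w hw => subset_closure ⟨w, hw, a, ha, rfl⟩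
    obtain ⟨u'', h3, h4⟩ := achConj _ hc u
      ((commutator_le.2 fun w hw g hg => hD hg w hw) h2) u' h1
    exact ⟨u'', h3, by rw [h4]; group⟩

theorem lemA2 (h : (⊤ : Subgroup G).lowerCentralSeries 2 = ⊥) (u : List G) (f : G)
    (hu : closure (insert f {a | a ∈ u}) = ⊤) (c : G) (hc : c ∈ commutator G) :
    ∃ u', Forall₂ IsConj u u' ∧ u'.prod = u.prod * c := by
  have hz : ∀ w ∈ (⊤ : Subgroup G), ∀ g, ⁅w, g⁆ ∈ center G :=
    fun w hw g => cen_of 1 h (commutator_mem_commutator hw (mem_top g))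
  let E := closure {e | ∃ w ∈ (⊤ : Subgroup G), ∃ a ∈ u, e = ⁅w, a⁆}
  have h1 : ⊤ ≤ Dg {f} (fun w _ => hz w (mem_top w)) E := by
    refine hu.ge.trans ((closure_le _).2 ?_)
    rintro a (rfl | ha) w rfl
    · simp
    · exact subset_closure ⟨w, mem_top w, a, ha, rfl⟩
  have hD : ⊤ ≤ Dg _ hz E := by
    refine hu.ge.trans ((closure_le _).2 ?_)
    rintro a (rfl | ha) w hw
    · rw [← commutatorElement_inv]
      exact inv_mem (h1 (mem_top w) a rfl)
    · exact subset_closure ⟨w, mem_top w, a, ha, rfl⟩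
  exact achConj _ hz u ((commutator_le.2 fun w hw g hg => hD hg w hw) hc) u
    (forall₂_same.2 fun a _ => IsConj.refl a)

theorem comm_le {ι : Type} (x : ι → G) (hx : closure (Set.range x) = ⊤) (N : Subgroup G) [N.Normal]
    (h : ∀ i j, ⁅x i, x j⁆ ∈ N) : commutator G ≤ N := by
  have key : ∀ a b : G, Commute (QuotientGroup.mk' N a) (QuotientGroup.mk' N b) := by
    intro a b
    have ha : a ∈ closure (Set.range x) := hx ▸ mem_top a
    have hb : b ∈ closure (Set.range x) := hx ▸ mem_top b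
    induction ha using closure_induction with
    | mem a ha =>
      induction hb using closure_induction with
      | mem b hb =>
        obtain ⟨i, rfl⟩ := ha
        obtain ⟨j, rfl⟩ := hb
        rw [← commutatorElement_eq_one_iff_commute, ← map_commutatorElement]
        exact (QuotientGroup.eq_one_iff _).2 (h i j)
      | one => simp
      | mul b c _ _ hb hc => rw [map_mul]; exact hb.mul_right hc
      | inv b _ hb => rw [map_inv]; exact hb.inv_right
    | one => simp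
    | mul a c _ _ ha hc => rw [map_mul]; exact ha.mul_left hc
    | inv a _ ha => rw [map_inv]; exact ha.inv_left
  refine commutator_le.2 fun a _ b _ => (QuotientGroup.eq_one_iff _).1 ?_
  exact (map_commutatorElement (QuotientGroup.mk' N) a b).trans
    (commutatorElement_eq_one_iff_commute.2 (key a b))

end Pool.Agent.H10.PW
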