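import Pool.Agent.H10.PW1

/-! Upper bounds for the palindromic width. -/

namespace Pool.Agent.H10.PW

open Subgroup List
open scoped commutatorElement

variable {G : Type} [Group G]

/-- product of `k` elements of `P` -/
def PP (P : Set G) (k : ℕ) (g : G) : Prop :=
  ∃ l : List G, l.length = k ∧ (∀ p ∈ l, p ∈ P) ∧ l.prod = g

/-- the abstract setting -/
structure Ctx {m : ℕ} (x : Fin (m + 1) → G) (θ : G →* G) (P : Set G) : Prop where
  hx : closure (Set.range x) = ⊤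
  hθ : ∀ i, θ (x i) = (x i)⁻¹
  h1 : 1 ∈ P
  hxP : ∀ i, x i ∈ P
  hP : ∀ v p, p ∈ P → v * p * (θ v)⁻¹ ∈ P

/-- squares -/
def Sq (G : Type) [Group G] : Subgroup G := normalClosure (Set.range fun g : G => g * g)

instance : (Sq G).Normal := normalClosure_normal

theorem sq_mem (g : G) : g * g ∈ Sq G := subset_normalClosure ⟨g, rfl⟩

theorem Sq_le {D : Subgroup G} (h : ∀ g, g * g ∈ D) : Sq G ≤ D := by
  refine (closure_le _).2 fun a ha => ?_
  obtain ⟨_, ⟨g, rfl⟩, hc⟩ := Group.mem_conjugatesOfSet_iff.1 ha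
  obtain ⟨c, rfl⟩ := isConj_iff.1 hc
  have := h (c * g * c⁻¹)
  rwa [show c * g * c⁻¹ * (c * g * c⁻¹) = c * (g * g) * c⁻¹ by group] at this

theorem q_sq (a : G ⧸ Sq G) : a * a = 1 := by
  obtain ⟨g, rfl⟩ := QuotientGroup.mk_surjective a
  exact (QuotientGroup.eq_one_iff (g * g)).2 (subset_normalClosure ⟨g, rfl⟩)

theorem q_inv (a : G ⧸ Sq G) : a⁻¹ = a := inv_eq_of_mul_eq_one_right (q_sq a)

theorem q_comm (a b : G ⧸ Sq G) : a * b = b * a := by
  rw [← q_inv (a * b), mul_inv_rev, q_inv, q_inv]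

variable {m : ℕ} {x : Fin (m + 1) → G} {θ : G →* G} {P : Set G}

theorem Ctx.tt (h : Ctx x θ P) (v : G) : θ (θ v) = v := by
  have : θ.comp θ = MonoidHom.id G := MonoidHom.eq_of_eqOn_dense h.hx (by
    rintro _ ⟨i, rfl⟩; simp [h.hθ])
  exact DFunLike.congr_fun this v

theorem Ctx.qt (h : Ctx x θ P) (v : G) :
    QuotientGroup.mk' (Sq G) (θ v) = QuotientGroup.mk' (Sq G) v := by
  have : (QuotientGroup.mk' (Sq G)).comp θ = QuotientGroup.mk' (Sq G) :=
    MonoidHom.eq_of_eqOn_dense h.hx (by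
      rintro _ ⟨i, rfl⟩
      rw [MonoidHom.comp_apply, h.hθ, map_inv, q_inv])
  exact DFunLike.congr_fun this v

theorem Ctx.zp (h : Ctx x θ P) (i : Fin (m + 1)) (k : ℤ) : x i ^ k ∈ P := by
  obtain ⟨j, rfl | rfl⟩ := Int.even_or_odd' k
  · have := h.hP (x i ^ j) 1 h.h1
    rw [map_zpow, h.hθ] at this
    convert this using 1
    group
  · have := h.hP (x i ^ j) _ (h.hxP i)
    rw [map_zpow, h.hθ] at this
    convert this using 1
    group

theorem Ctx.pairs (h : Ctx x θ P) : ∀ (L : List (G × G)) (u : List G),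
    Forall₂ IsConj (L.map fun a => a.1 * a.2) u → (∀ a ∈ L, a.1 ∈ P ∧ a.2 ∈ P) →
    ∃ l : List G, l.length = 2 * L.length ∧ (∀ p ∈ l, p ∈ P) ∧ l.prod = u.prod ∧
      ∀ a ∈ L, (∃ p ∈ l, p⁻¹ * a.1 ∈ Sq G) ∧ ∃ p ∈ l, p⁻¹ * a.2 ∈ Sq G
  | [], u, hu, _ => ⟨[], rfl, by simp, by simp at hu; simp [hu], by simp⟩
  | a :: L, u, hu, hL => by
    rw [List.map_cons] at hu
    cases hu with
    | cons h1 h2 =>
      obtain ⟨l, l1, l2, l3, l4⟩ := h.pairs L _ h2 fun b hb => hL b (mem_cons_of_mem _ hb)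
      obtain ⟨v, rfl⟩ := isConj_iff.1 h1
      have key : ∀ v p : G, (v * p * (θ v)⁻¹)⁻¹ * p ∈ Sq G := fun v p => by
        refine QuotientGroup.eq.1 ?_
        change QuotientGroup.mk' (Sq G) _ = QuotientGroup.mk' (Sq G) _
        rw [map_mul, map_mul, map_inv, h.qt, q_comm (QuotientGroup.mk' (Sq G) v)]
        group
      refine ⟨(v * a.1 * (θ v)⁻¹) :: (θ v * a.2 * (θ (θ v))⁻¹) :: l, by simp [l1]; ring, ?_, ?_, ?_⟩
      · intro p hp
        rcases List.mem_cons.1 hp with rfl | hp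
        · exact h.hP _ _ (hL a mem_cons_self).1
        rcases List.mem_cons.1 hp with rfl | hp
        · exact h.hP _ _ (hL a mem_cons_self).2
        · exact l2 p hp
      · rw [prod_cons, prod_cons, prod_cons, l3, h.tt]; group
      · intro b hb
        rcases List.mem_cons.1 hb with rfl | hb
        · exact ⟨⟨_, mem_cons_self, key _ _⟩, _, mem_cons_of_mem _ mem_cons_self, key _ _⟩
        · obtain ⟨⟨p, hp, h3⟩, q, hq, h4⟩ := l4 b hb
          exact ⟨⟨p, mem_cons_of_mem _ (mem_cons_of_mem _ hp), h3⟩,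
            q, mem_cons_of_mem _ (mem_cons_of_mem _ hq), h4⟩

/-- the pairs -/
def LL (x : Fin (m + 1) → G) (k : Fin (m + 1) → ℤ) : List (G × G) :=
  List.ofFn fun t : Fin m => (x t.castSucc, x t.succ ^ k t.succ)

theorem Ctx.ab (h : Ctx x θ P) (g : G) : ∃ k : Fin (m + 1) → ℤ,
    (x 0 ^ k 0 * ((LL x k).map fun a => a.1 * a.2).prod)⁻¹ * g ∈ commutator G := by
  have h1 : closure (Set.range fun i => Abelianization.of (x i)) = ⊤ :=
    map_gen Abelianization.of QuotientGroup.mk_surjective h.hx (by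
      rintro _ ⟨_, ⟨i, rfl⟩, rfl⟩; exact ⟨i, rfl⟩)
  obtain ⟨k, hk⟩ := mem_closure_range_iff_of_fintype.1 (h1.ge (mem_top
    (Abelianization.of g * (∏ t : Fin m, Abelianization.of (x t.castSucc))⁻¹)))
  refine ⟨k, QuotientGroup.eq.1 ?_⟩
  change Abelianization.of _ = Abelianization.of _
  rw [mul_inv_eq_iff_eq_mul] at hk
  rw [hk, map_mul, map_list_prod, LL, List.map_ofFn, List.map_ofFn, List.prod_ofFn,
    Fin.prod_univ_succ]
  simp only [Function.comp, map_mul, map_zpow, Finset.prod_mul_distrib]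
  rw [mul_assoc, mul_comm (∏ t : Fin m, Abelianization.of (x t.castSucc))]

theorem Ctx.gen (h : Ctx x θ P) (k : Fin (m + 1) → ℤ) :
    closure (insert (x (Fin.last m)) {a | a ∈ (LL x k).map fun a => a.1 * a.2}) = ⊤ := by
  refine top_le_iff.1 (h.hx.ge.trans ((closure_le _).2 ?_))
  rintro _ ⟨i, rfl⟩
  induction i using Fin.reverseInduction with
  | last => exact subset_closure (Set.mem_insert _ _)
  | cast i ih =>
    have : x i.castSucc * x i.succ ^ k i.succ ∈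
        closure (insert (x (Fin.last m)) {a | a ∈ (LL x k).map fun a => a.1 * a.2}) :=
      subset_closure (Set.mem_insert_of_mem _ (List.mem_map.2
        ⟨_, List.mem_ofFn.2 ⟨i, rfl⟩, rfl⟩))
    exact (Subgroup.mul_mem_cancel_right _ (zpow_mem ih _)).1 this

theorem Ctx.LP (h : Ctx x θ P) (k : Fin (m + 1) → ℤ) : ∀ a ∈ LL x k, a.1 ∈ P ∧ a.2 ∈ P := by
  intro a ha
  obtain ⟨t, rfl⟩ := List.mem_ofFn.1 ha
  exact ⟨h.hxP _, h.zp _ _⟩

theorem Ctx.up4 (h : Ctx x θ P) (r : ℕ) (hr : (⊤ : Subgroup G).lowerCentralSeries (r + 1) = ⊥)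
    (g : G) : PP P (2 * (m + 1) + 1) g := by
  obtain ⟨k, hk⟩ := h.ab (g * (x (Fin.last m))⁻¹)
  have hc := (commutator_normal ⊤ ⊤).conj_mem' _ hk (x (Fin.last m))
  obtain ⟨u, h1, h2⟩ := lemA r G hr
    ((LL x k ++ [(x (Fin.last m), (1 : G))]).map fun a : G × G => a.1 * a.2)
    (by rw [← h.gen k]; congr 1; ext a; simp [or_comm]) _ hc
  obtain ⟨l, l1, l2, l3, -⟩ := h.pairs _ u h1 (by
    intro a ha
    rcases List.mem_append.1 ha with ha | ha
    · exact h.LP k a ha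
    · rw [List.mem_singleton.1 ha]; exact ⟨h.hxP _, h.h1⟩)
  refine ⟨x 0 ^ k 0 :: l, by simp [l1, LL], ?_, ?_⟩
  · intro p hp
    rcases List.mem_cons.1 hp with rfl | hp
    · exact h.zp _ _
    · exact l2 p hp
  · rw [prod_cons, l3, h2, List.map_append, prod_append]
    simp only [List.map_cons, List.map_nil, prod_cons, prod_nil]
    group

theorem Ctx.step2 (h : Ctx x θ P) (hr : (⊤ : Subgroup G).lowerCentralSeries 3 = ⊥) (l : List G)
    (hl : ∀ p ∈ l, p ∈ P) (h0 : ∀ t : Fin m, ∃ p ∈ l, p⁻¹ * x t.castSucc ∈ Sq G)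
    (hm : (∃ p ∈ l, p⁻¹ * x (Fin.last m) ∈ Sq G) ∨ ∃ p ∈ l, p ∈ Sq G)
    {e : G} (he : e ∈ (⊤ : Subgroup G).lowerCentralSeries 2) : PP P l.length (l.prod * e) := by
  have hz : ∀ w ∈ commutator G, ∀ g, ⁅w, g⁆ ∈ center G :=
    fun w hw g => cen_of 2 hr (commutator_mem_commutator hw (mem_top g))
  have hcm : ∀ a b : G, ⁅a, b⁆ ∈ commutator G := fun a b =>
    commutator_mem_commutator (mem_top a) (mem_top b)
  have hc : ∀ a b g : G, ⁅⁅a, b⁆, g⁆ ∈ center G := fun a b => hz _ (hcm a b)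
  have cc : ∀ w ∈ commutator G, ∀ v g : G, ⁅v * w * v⁻¹, g⁆ = ⁅w, g⁆ := by
    intro w hw v g
    have : v * w * v⁻¹ = w * ⁅w⁻¹, v⁆ := by simp only [commutatorElement_def]; group
    have h1 : ∀ g : G, ⁅⁅w⁻¹, v⁆, g⁆ = 1 := fun g =>
      commutatorElement_eq_one_iff_mul_comm.2 (cen (hz _ (inv_mem hw) v) g).symm
    rw [this, cm_mul_left (fun g => by rw [h1]; exact one_mem _), h1, one_mul]
  have tc : ∀ i j, θ ⁅x i, x j⁆ = (x j * x i)⁻¹ * ⁅x i, x j⁆ * (x j * x i)⁻¹⁻¹ := fun i j => by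
    rw [map_commutatorElement, h.hθ, h.hθ]; simp only [commutatorElement_def]; group
  have tz : ∀ i j g, θ ⁅⁅x i, x j⁆, g⁆ = ⁅⁅x i, x j⁆, g⁆⁻¹ := by
    intro i j g
    have hg : g ∈ closure (Set.range x) := h.hx ▸ mem_top g
    induction hg using closure_induction with
    | mem g hg =>
      obtain ⟨k, rfl⟩ := hg
      rw [map_commutatorElement, tc, h.hθ, cc _ (hcm _ _), cm_inv_right (hc _ _)]
    | one => simp
    | mul a b _ _ ha hb => rw [cm_mul_right (hc _ _), map_mul, ha, hb, mul_inv_rev,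
        cen (inv_mem (hc _ _ b))]
    | inv a _ ha => rw [cm_inv_right (hc _ _), map_inv, ha]
  obtain ⟨p0, hp0⟩ : ∃ p, p ∈ l := by rcases hm with ⟨p, hp, -⟩ | ⟨p, hp, -⟩ <;> exact ⟨p, hp⟩
  let R : G → G → Prop := fun a b => b ∈ P ∧ a⁻¹ * b ∈ center G
  have Rsq : ∀ i j g a b, R a b → R a (b * (⁅⁅x i, x j⁆, g⁆ * ⁅⁅x i, x j⁆, g⁆)) := by
    rintro i j g a b ⟨h1, h2⟩
    refine ⟨?_, by rw [← mul_assoc]; exact mul_mem h2 (mul_mem (hc _ _ _) (hc _ _ _))⟩
    have := h.hP ⁅⁅x i, x j⁆, g⁆ b h1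
    rwa [tz, inv_inv, ← cen (hc _ _ _), mul_assoc] at this
  have Rmu : ∀ i j a b, R a b → R a (b * ⁅⁅x i, x j⁆, a * (x j * x i)⁻¹⁆) := by
    rintro i j a b ⟨h1, h2⟩
    refine ⟨?_, by rw [← mul_assoc]; exact mul_mem h2 (hc _ _ _)⟩
    have := h.hP ⁅x i, x j⁆ b h1
    have e1 : ⁅⁅x i, x j⁆, a⁻¹ * b⁆ = 1 := commutatorElement_eq_one_iff_mul_comm.2 (cen h2 _)
    have e2 : ⁅⁅x i, x j⁆, a⁆ = ⁅⁅x i, x j⁆, b⁆ := by
      conv_rhs => rw [show b = a * (a⁻¹ * b) by group, cm_mul_right (hc _ _), e1, mul_one]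
    rw [cm_mul_right (hc _ _), e2, ← mul_assoc, cen (hc _ _ b) b]
    convert this using 1
    rw [tc]
    generalize ⁅x i, x j⁆ = c
    simp only [commutatorElement_def]; group
  let S : Set G := {e | ∃ i j, (∃ g, e = ⁅⁅x i, x j⁆, g⁆ * ⁅⁅x i, x j⁆, g⁆) ∨
    ∃ a ∈ l, e = ⁅⁅x i, x j⁆, a * (x j * x i)⁻¹⁆}
  have hS : ∀ e ∈ S, e ∈ center G ∧ ∃ a ∈ l, (∀ b, R a b → R a (b * e)) ∧
      ∀ b, R a b → R a (b * e⁻¹) := by
    rintro _ ⟨i, j, ⟨g, rfl⟩ | ⟨a, ha, rfl⟩⟩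
    · refine ⟨mul_mem (hc _ _ _) (hc _ _ _), p0, hp0, Rsq i j g p0, ?_⟩
      rw [mul_inv_rev, ← cm_inv_right (hc _ _)]
      exact Rsq i j _ p0
    · refine ⟨hc _ _ _, a, ha, Rmu i j a, fun b hb => ?_⟩
      have := Rsq i j (a * (x j * x i)⁻¹)⁻¹ a _ (Rmu i j a b hb)
      rw [cm_inv_right (hc _ _)] at this
      convert this using 1
      group
  let D := Dg {w | ∃ i j, w = ⁅x i, x j⁆} (by rintro _ ⟨i, j, rfl⟩; exact hc _ _) (closure S)
  have mD : ∀ g, g ∈ D ↔ ∀ i j, ⁅⁅x i, x j⁆, g⁆ ∈ closure S := fun g =>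
    ⟨fun hg i j => hg _ ⟨i, j, rfl⟩, by rintro hg _ ⟨i, j, rfl⟩; exact hg i j⟩
  have sD : Sq G ≤ D := Sq_le fun g => (mD _).2 fun i j => by
    rw [cm_mul_right (hc _ _)]; exact subset_closure ⟨i, j, Or.inl ⟨g, rfl⟩⟩
  have mu : ∀ a ∈ l, ∀ i j, ⁅⁅x i, x j⁆, a * (x j * x i)⁻¹⁆ ∈ closure S := fun a ha i j =>
    subset_closure ⟨i, j, Or.inr ⟨a, ha, rfl⟩⟩
  have pD : ∀ a ∈ l, ∀ b ∈ l, a * b⁻¹ ∈ D := fun a ha b hb => (mD _).2 fun i j => by
    have := mul_mem (mu a ha i j) (inv_mem (mu b hb i j))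
    rwa [← cm_inv_right (hc _ _), ← cm_mul_right (hc _ _),
      show a * (x j * x i)⁻¹ * (b * (x j * x i)⁻¹)⁻¹ = a * b⁻¹ by group] at this
  have cD : ∀ g ∈ D, ∀ v : G, v * g * v⁻¹ ∈ D := fun g hg v => (mD _).2 fun i j => by
    rw [cm_conj_right (hc _ _)]; exact (mD _).1 hg i j
  have xD : ∀ a ∈ l, ∀ y, (∃ p ∈ l, p⁻¹ * y ∈ Sq G) → a⁻¹ * y ∈ D := by
    rintro a ha y ⟨p, hp, h1⟩
    have := mul_mem (cD _ (pD p hp a ha) a⁻¹) (sD h1)
    rwa [show a⁻¹ * (p * a⁻¹) * a⁻¹⁻¹ * (p⁻¹ * y) = a⁻¹ * y by group] at this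
  have hD : ∀ i, x i ∈ D := by
    rcases hm with hm | ⟨p, hp, hp'⟩
    · have h1 : ∀ i, p0⁻¹ * x i ∈ D := fun i => by
        induction i using Fin.lastCases with
        | last => exact xD _ hp0 _ hm
        | cast i => exact xD _ hp0 _ (h0 i)
      have h2 : p0 ∈ D := (mD _).2 fun i j => by
        have h3 : x j * x i ∈ D := by
          have := mul_mem (cD _ (h1 j) p0) (mul_mem (sD (sq_mem p0)) (h1 i))
          rwa [show p0 * (p0⁻¹ * x j) * p0⁻¹ * (p0 * p0 * (p0⁻¹ * x i)) = x j * x i by group] at this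
        have := mul_mem (mu p0 hp0 i j) ((mD _).1 h3 i j)
        rwa [← cm_mul_right (hc _ _), inv_mul_cancel_right] at this
      exact fun i => by simpa using mul_mem h2 (h1 i)
    · have h2 : p ∈ D := sD hp'
      have h1 : ∀ t : Fin m, x t.castSucc ∈ D := fun t => by
        simpa using mul_mem h2 (xD _ hp _ (h0 t))
      have h3 : ∀ i j, ⁅⁅x i, x j⁆, x j * x i⁆ ∈ closure S := fun i j => by
        have := mul_mem (inv_mem (mu p hp i j)) ((mD _).1 h2 i j)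
        rwa [← cm_inv_right (hc _ _), ← cm_mul_right (hc _ _),
          show (p * (x j * x i)⁻¹)⁻¹ * p = x j * x i by group] at this
      intro k
      induction k using Fin.lastCases with
      | cast k => exact h1 k
      | last =>
        refine (mD _).2 fun i j => ?_
        induction i using Fin.lastCases with
        | last =>
          induction j using Fin.lastCases with
          | last => simp
          | cast j =>
            have := h3 (Fin.last m) j.castSucc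
            rw [cm_mul_right (hc _ _)] at this
            exact (Subgroup.mul_mem_cancel_left _ ((mD _).1 (h1 j) _ _)).1 this
        | cast i =>
          induction j using Fin.lastCases with
          | last =>
            have := h3 i.castSucc (Fin.last m)
            rw [cm_mul_right (hc _ _)] at this
            exact (Subgroup.mul_mem_cancel_right _ ((mD _).1 (h1 i) _ _)).1 this
          | cast j =>
            have hw : ∀ a b c : G, ⁅⁅a, b⁆, b * c * b⁻¹⁆ * (⁅⁅b, c⁆, c * a * c⁻¹⁆ *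
                ⁅⁅c, a⁆, a * b * a⁻¹⁆) = 1 := fun a b c => by
              simp only [commutatorElement_def]; group
            have := hw (x i.castSucc) (x j.castSucc) (x (Fin.last m))
            rw [cm_conj_right (hc _ _), cm_conj_right (hc _ _), cm_conj_right (hc _ _),
              mul_eq_one_iff_eq_inv] at this
            rw [this]
            exact inv_mem (mul_mem ((mD _).1 (h1 i) _ _) ((mD _).1 (h1 j) _ _))
  have hT : ⊤ ≤ D := h.hx.ge.trans ((closure_le _).2 (by rintro _ ⟨i, rfl⟩; exact hD i))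
  let M : Subgroup G :=
    { carrier := {w | w ∈ commutator G ∧ ∀ g, ⁅w, g⁆ ∈ closure S}
      one_mem' := ⟨one_mem _, fun g => by simp⟩
      mul_mem' := fun ha hb => ⟨mul_mem ha.1 hb.1, fun g => by
        rw [cm_mul_left (hz _ hb.1)]; exact mul_mem (hb.2 g) (ha.2 g)⟩
      inv_mem' := fun ha => ⟨inv_mem ha.1, fun g => by
        rw [cm_inv_left (hz _ ha.1)]; exact inv_mem (ha.2 g)⟩ }
  have : M.Normal := ⟨fun w hw v => ⟨(commutator_normal ⊤ ⊤).conj_mem _ hw.1 v, fun g => by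
    rw [cc _ hw.1]; exact hw.2 g⟩⟩
  have hM := comm_le x h.hx M fun i j => ⟨hcm _ _, fun g => (mD g).1 (hT (mem_top g)) i j⟩
  obtain ⟨l', l1, l2⟩ := ach R l S hS ((commutator_le.2 fun w hw g _ => (hM hw).2 g) he) l
    (forall₂_same.2 fun a ha => ⟨hl a ha, by simp⟩)
  refine ⟨l', l1.length_eq.symm, fun p hp => ?_, l2⟩
  obtain ⟨i, hi, rfl⟩ := List.getElem_of_mem hp
  exact (l1.get (l1.length_eq ▸ hi) hi).1

theorem Ctx.up3 (h : Ctx x θ P) (hr : (⊤ : Subgroup G).lowerCentralSeries 3 = ⊥) (hm : 0 < m)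
    (g : G) : PP P (2 * m + 1) g := by
  obtain ⟨k, hk⟩ := h.ab g
  obtain ⟨u, h1, h2⟩ := liftMod 2 ((LL x k).map fun a => a.1 * a.2) _ (lemA2 (lcs_quot _) _
    (QuotientGroup.mk' _ (x (Fin.last m)))
    (map_gen _ (QuotientGroup.mk'_surjective _) (h.gen k) (by
      rintro _ ⟨a, rfl | ha, rfl⟩
      · exact Set.mem_insert _ _
      · exact Set.mem_insert_of_mem _ (List.mem_map_of_mem ha))) _ (comm_map _ hk))
  obtain ⟨l, l1, l2, l3, l4⟩ := h.pairs _ u h1 (h.LP k)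
  have := h.step2 hr (x 0 ^ k 0 :: l) (by
    intro p hp
    rcases List.mem_cons.1 hp with rfl | hp
    · exact h.zp _ _
    · exact l2 p hp) (fun t => by
      obtain ⟨p, hp, h3⟩ := (l4 _ (List.mem_ofFn.2 ⟨t, rfl⟩)).1
      exact ⟨p, mem_cons_of_mem _ hp, h3⟩) (by
      obtain ⟨m', rfl⟩ := Nat.exists_eq_succ_of_ne_zero hm.ne'
      obtain ⟨p, hp, h3⟩ := (l4 _ (List.mem_ofFn.2 ⟨Fin.last m', rfl⟩)).2
      change p⁻¹ * x (Fin.last (m' + 1)) ^ k (Fin.last (m' + 1)) ∈ Sq G at h3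
      obtain ⟨j, hj | hj⟩ := Int.even_or_odd' (k (Fin.last (m' + 1)))
      · refine Or.inr ⟨p, mem_cons_of_mem _ hp, ?_⟩
        rw [hj, two_mul, zpow_add] at h3
        exact inv_mem_iff.1 ((Subgroup.mul_mem_cancel_right _ (sq_mem _)).1 h3)
      · refine Or.inl ⟨p, mem_cons_of_mem _ hp, ?_⟩
        rw [hj, add_comm (2 * j), zpow_add, zpow_one, two_mul, zpow_add, ← mul_assoc] at h3
        exact (Subgroup.mul_mem_cancel_right _ (sq_mem _)).1 h3) h2
  rw [prod_cons, l3, List.length_cons, l1] at this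
  convert this using 1
  · simp [LL]
  · group

end Pool.Agent.H10.PW
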