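import Pool.Agent.H10.PW1

/-! A group of order 512 and class four. -/

namespace Pool.Agent.H10.PW

open Subgroup
open scoped commutatorElement

/-- the field with two elements -/
abbrev Z2 := ZMod 2

theorem z2 (p : Z2) : p = 0 ∨ p = 1 := by revert p; decide

theorem z11 : (1 + 1 : Z2) = 0 := by decide

theorem zaa (p : Z2) : p + p = 0 := by revert p; decide

/-- the test group -/
@[ext] structure Q where
  s : Z2
  x : Z2 → Z2
  y : Z2 → Z2
  z : Z2 → Z2 → Z2

instance : DecidableEq Q := fun a b =>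
  decidable_of_iff (a.s = b.s ∧ a.x = b.x ∧ a.y = b.y ∧ a.z = b.z) Q.ext_iff.symm

instance : Mul Q := ⟨fun g h => ⟨g.s + h.s, fun p => g.x p + h.x (p + g.s),
  fun q => g.y q + h.y (q + g.s),
  fun p q => g.z p q + h.z (p + g.s) (q + g.s) + g.x p * h.y (q + g.s)⟩⟩
instance : One Q := ⟨⟨0, fun _ => 0, fun _ => 0, fun _ _ => 0⟩⟩
instance : Inv Q := ⟨fun g => ⟨g.s, fun p => g.x (p + g.s), fun q => g.y (q + g.s),
  fun p q => g.z (p + g.s) (q + g.s) + g.x (p + g.s) * g.y (q + g.s)⟩⟩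

@[simp] theorem mul_s (g h : Q) : (g * h).s = g.s + h.s := rfl
@[simp] theorem mul_x (g h : Q) (p) : (g * h).x p = g.x p + h.x (p + g.s) := rfl
@[simp] theorem mul_y (g h : Q) (p) : (g * h).y p = g.y p + h.y (p + g.s) := rfl
@[simp] theorem mul_z (g h : Q) (p q) : (g * h).z p q =
    g.z p q + h.z (p + g.s) (q + g.s) + g.x p * h.y (q + g.s) := rfl
@[simp] theorem one_s : (1 : Q).s = 0 := rfl
@[simp] theorem one_x (p) : (1 : Q).x p = 0 := rfl
@[simp] theorem one_y (p) : (1 : Q).y p = 0 := rfl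
@[simp] theorem one_z (p q) : (1 : Q).z p q = 0 := rfl
@[simp] theorem inv_s (g : Q) : (g⁻¹).s = g.s := rfl
@[simp] theorem inv_x (g : Q) (p) : (g⁻¹).x p = g.x (p + g.s) := rfl
@[simp] theorem inv_y (g : Q) (p) : (g⁻¹).y p = g.y (p + g.s) := rfl
@[simp] theorem inv_z (g : Q) (p q) : (g⁻¹).z p q =
    g.z (p + g.s) (q + g.s) + g.x (p + g.s) * g.y (q + g.s) := rfl

instance : Group Q := Group.ofLeftAxioms
  (fun a b c => by ext <;> simp only [mul_s, mul_x, mul_y, mul_z, add_assoc] <;> ring)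
  (fun a => by ext <;> simp)
  (fun a => by ext <;> simp [zaa] <;> grind)

/-- second term -/
def K2 : Subgroup Q where
  carrier := {g | g.s = 0 ∧ g.x 0 = g.x 1 ∧ g.y 0 = g.y 1}
  one_mem' := by simp
  mul_mem' := by rintro a b ⟨h1, h2, h3⟩ ⟨h4, h5, h6⟩; simp [h1, h2, h3, h4, h5, h6]
  inv_mem' := by rintro a ⟨h1, h2, h3⟩; simp [h1, h2, h3]

/-- third term -/
def K3 : Subgroup Q where
  carrier := {g | g.s = 0 ∧ (∀ p, g.x p = 0) ∧ (∀ p, g.y p = 0) ∧
    g.z 0 0 + g.z 0 1 + g.z 1 0 + g.z 1 1 = 0}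
  one_mem' := by simp
  mul_mem' := by
    rintro a b ⟨h1, h2, h3, h7⟩ ⟨h4, h5, h6, h8⟩
    simp only [Set.mem_setOf_eq, mul_s, mul_x, mul_y, mul_z, h1, h2, h3, h4, h5, h6, add_zero,
      mul_zero, implies_true, true_and]
    linear_combination h7 + h8
  inv_mem' := by rintro a ⟨h1, h2, h3, h4⟩; simp [h1, h2, h3, h4]

/-- fourth term -/
def K4 : Subgroup Q where
  carrier := {g | g.s = 0 ∧ (∀ p, g.x p = 0) ∧ (∀ p, g.y p = 0) ∧ ∀ p q, g.z p q = g.z 0 0}
  one_mem' := by simp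
  mul_mem' := by
    rintro a b ⟨h1, h2, h3, h7⟩ ⟨h4, h5, h6, h8⟩
    simp only [Set.mem_setOf_eq, mul_s, mul_x, mul_y, mul_z, h1, h2, h3, h4, h5, h6, add_zero,
      mul_zero, implies_true, true_and]
    intro p q
    rw [h7, h8]
  inv_mem' := by
    rintro a ⟨h1, h2, h3, h4⟩
    simp only [Set.mem_setOf_eq, inv_s, inv_x, inv_y, inv_z, h1, h2, h3, add_zero,
      mul_zero, implies_true, true_and]
    exact h4

theorem lcsQ : (⊤ : Subgroup Q).lowerCentralSeries 4 = ⊥ := by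
  have h2 : (⊤ : Subgroup Q).lowerCentralSeries 1 ≤ K2 := commutator_le.2 fun g _ h _ => by
    change _ ∧ _ ∧ _
    rcases z2 g.s with e | e <;> rcases z2 h.s with e' | e' <;>
      simp only [commutatorElement_def, mul_s, mul_x, mul_y, inv_s, inv_x, inv_y, e, e', add_zero,
        zero_add, z11, true_and] <;> grind
  have h3 : (⊤ : Subgroup Q).lowerCentralSeries 2 ≤ K3 := commutator_le.2 fun g hg h _ => by
    obtain ⟨e, e1, e2⟩ := h2 hg
    refine ⟨?_, fun p => ?_, fun p => ?_, ?_⟩ <;> (try rcases z2 p with rfl | rfl) <;>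
      rcases z2 h.s with e' | e' <;>
      simp only [commutatorElement_def, mul_s, mul_x, mul_y, mul_z, inv_s, inv_x, inv_y, inv_z, e,
        e', e1, e2, add_zero, zero_add, z11] <;> grind
  have h4 : (⊤ : Subgroup Q).lowerCentralSeries 3 ≤ K4 := commutator_le.2 fun g hg h _ => by
    obtain ⟨e, e1, e2, e3⟩ := h3 hg
    refine ⟨?_, fun p => ?_, fun p => ?_, fun p q => ?_⟩ <;> (try rcases z2 p with rfl | rfl) <;>
      (try rcases z2 q with rfl | rfl) <;> rcases z2 h.s with e' | e' <;>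
      simp only [commutatorElement_def, mul_s, mul_x, mul_y, mul_z, inv_s, inv_x, inv_y, inv_z, e,
        e', e1, e2, add_zero, zero_add, z11] <;> grind
  refine le_bot_iff.1 (commutator_le.2 fun g hg h _ => mem_bot.2 ?_)
  obtain ⟨e, e1, e2, e3⟩ := h4 hg
  generalize g.z 0 0 = c at e3
  ext <;> simp only [commutatorElement_def, mul_s, mul_x, mul_y, mul_z, inv_s, inv_x, inv_y,
    inv_z, e, e1, e2, e3, add_zero, zero_add, add_assoc, zaa, one_s, one_x, one_y, one_z] <;> grind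

/-- generator -/
def qa : Q := ⟨0, fun p => 1 + p, fun _ => 0, fun _ _ => 0⟩
/-- generator -/
def qb : Q := ⟨0, fun _ => 0, fun p => 1 + p, fun _ _ => 0⟩
/-- generator -/
def qs : Q := ⟨1, fun _ => 0, fun _ => 0, fun _ _ => 0⟩

theorem cqa (u : Q) : (u * qa * u⁻¹).s = 0 ∧ (∀ p, (u * qa * u⁻¹).x p = if u.s = p then 1 else 0) ∧
    (∀ q, (u * qa * u⁻¹).y q = 0) ∧ ∀ p q, u.s ≠ p → (u * qa * u⁻¹).z p q = 0 := by
  refine ⟨?_, fun p => ?_, fun p => ?_, fun p q h => ?_⟩ <;> (try rcases z2 p with rfl | rfl) <;>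
    (try rcases z2 q with rfl | rfl) <;> rcases z2 u.s with e | e <;>
    simp [qa, e, z11, zaa] at * <;> grind

theorem cqb (u : Q) : (u * qb * u⁻¹).s = 0 ∧ (∀ p, (u * qb * u⁻¹).x p = 0) ∧
    (∀ q, (u * qb * u⁻¹).y q = if u.s = q then 1 else 0) ∧
      ∀ p q, u.s ≠ q → (u * qb * u⁻¹).z p q = 0 := by
  refine ⟨?_, fun p => ?_, fun p => ?_, fun p q h => ?_⟩ <;> (try rcases z2 p with rfl | rfl) <;>
    (try rcases z2 q with rfl | rfl) <;> rcases z2 u.s with e | e <;>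
    simp [qb, e, z11, zaa] at * <;> grind

theorem qd : ⁅(qa * qs) ^ 2, (qb * qs) ^ 2⁆ = ⟨0, fun _ => 0, fun _ => 0, fun _ _ => 1⟩ := by
  decide +kernel

theorem q4 : ∀ a ∈ [qs, qa, qb, 1], a * a = 1 ∧ ∀ b ∈ [qs, qa, qb, 1], (a * b) ^ 4 = 1 := by
  decide +kernel

theorem lcsD4 : (⊤ : Subgroup (DihedralGroup 4)).lowerCentralSeries 2 = ⊥ := by
  have h2 : (⊤ : Subgroup (DihedralGroup 4)).lowerCentralSeries 1 ≤ center _ :=
    commutator_le.2 fun g hg h hh => mem_center_iff.2 (by clear hg hh; revert g h; decide +kernel)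
  exact le_bot_iff.1 (commutator_le.2 fun g hg h _ => mem_bot.2
    (commutatorElement_eq_one_iff_mul_comm.2 (cen (h2 hg) h).symm))

theorem lcsD8 : (⊤ : Subgroup (DihedralGroup 8)).lowerCentralSeries 3 = ⊥ := by
  have hz : ∀ g : DihedralGroup 8, g ∈ zpowers (DihedralGroup.r 2 : DihedralGroup 8) →
      g ∈ [DihedralGroup.r 0, DihedralGroup.r 2, DihedralGroup.r 4, DihedralGroup.r 6] := by
    rintro _ ⟨k, rfl⟩
    simp only [DihedralGroup.r_zpow]
    generalize (k : ZMod 8) = j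
    revert j; decide
  have h1 : (⊤ : Subgroup (DihedralGroup 8)).lowerCentralSeries 1 ≤
      zpowers (DihedralGroup.r 2) := commutator_le.2 fun g _ h _ => by
    have : ∀ g h : DihedralGroup 8, ∃ k : Fin 4, DihedralGroup.r 2 ^ (k : ℕ) = ⁅g, h⁆ := by
      decide +kernel
    obtain ⟨k, hk⟩ := this g h
    exact hk ▸ npow_mem_zpowers _ _
  have h2 : (⊤ : Subgroup (DihedralGroup 8)).lowerCentralSeries 2 ≤ center _ :=
    commutator_le.2 fun g hg h hh => mem_center_iff.2 (by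
      have := hz g (h1 hg)
      clear hg hh
      revert g h; decide +kernel)
  exact le_bot_iff.1 (commutator_le.2 fun g hg h _ => mem_bot.2
    (commutatorElement_eq_one_iff_mul_comm.2 (cen (h2 hg) h).symm))

end Pool.Agent.H10.PW
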