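import Pool.Agent.H10.PW2
import Pool.Agent.H10.PW3

/-! Lower bounds for the palindromic width. -/

namespace Pool.Agent.H10.PW

open Subgroup List
open scoped commutatorElement

variable {n : ℕ}

/-- inversion of the generators -/
def th (n : ℕ) : FreeGroup (Fin n) →* FreeGroup (Fin n) :=
  FreeGroup.lift fun i => (FreeGroup.of i)⁻¹

theorem mk_cons {α : Type} (a : α × Bool) (w : List (α × Bool)) :
    FreeGroup.mk (a :: w) = FreeGroup.mk [a] * FreeGroup.mk w := rfl

theorem mk_rev : ∀ w : List (Fin n × Bool), FreeGroup.mk w.reverse = (th n (FreeGroup.mk w))⁻¹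
  | [] => by simp [← FreeGroup.one_eq_mk]
  | (i, b) :: w => by
    rw [reverse_cons, ← FreeGroup.mul_mk, mk_rev w, mk_cons (i, b) w, map_mul, mul_inv_rev]
    congr 1
    cases b
    · simp only [th, FreeGroup.lift_mk]; simp; rfl
    · simp only [th, FreeGroup.lift_mk]; simp; rfl

theorem pal_red (w : List (Fin n × Bool)) (h : w.reverse = w) :
    FreeGroup.IsReduced (FreeGroup.reduce w) ∧ (FreeGroup.reduce w).reverse = FreeGroup.reduce w := by
  have h1 : FreeGroup.IsReduced (FreeGroup.reduce w) := .of_reduce_eq FreeGroup.reduce.idem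
  have h2 : FreeGroup.IsReduced (FreeGroup.reduce w).reverse :=
    List.isChain_reverse.2 (List.IsChain.imp (fun a b h e => (h e.symm).symm) h1)
  refine ⟨h1, ?_⟩
  rw [← h2.reduce_eq]
  exact FreeGroup.reduce.sound (by rw [mk_rev, FreeGroup.reduce.self, ← mk_rev, h])

/-- the embedding -/
def io (n : ℕ) : FreeGroup (Fin n) →* FreeGroup (Fin (n + 1)) :=
  FreeGroup.lift fun i => FreeGroup.of i.succ * FreeGroup.of 0

/-- conjugates of involutions -/
def ev {T : Type} [Group T] (t : Fin (n + 1) → T) (a : Fin (n + 1) × FreeGroup (Fin (n + 1))) : T :=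
  FreeGroup.lift t a.2 * t a.1 * (FreeGroup.lift t a.2)⁻¹

theorem pal_ev (w : List (Fin n × Bool)) (h : w.reverse = w) : ∃ a, ∀ (T : Type) [Group T]
    (t : Fin (n + 1) → T), (∀ i, t i * t i = 1) →
      FreeGroup.lift t (io n (FreeGroup.mk w)) * t 0 = ev t a := by
  have one : ∀ (T : Type) [Group T] (t : Fin (n + 1) → T) (i : Fin n) (b : Bool),
      FreeGroup.lift t (io n (FreeGroup.mk [(i, b)])) =
        cond b (t i.succ * t 0) (t i.succ * t 0)⁻¹ := by
    intro T _ t i b
    cases b <;> simp [io, FreeGroup.lift_mk]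
  induction List.Palindrome.of_reverse_eq h with
  | nil => exact ⟨(0, 1), fun T _ t _ => by simp [ev, ← FreeGroup.one_eq_mk]⟩
  | singleton a =>
    obtain ⟨i, b⟩ := a
    cases b
    · refine ⟨(i.succ, FreeGroup.of 0), fun T _ t ht => ?_⟩
      simp [one, ev, inv_eq_of_mul_eq_one_right (ht _)]
    · refine ⟨(i.succ, 1), fun T _ t ht => ?_⟩
      simp [one, ev, mul_assoc, ht]
  | @cons_concat a l hl ih =>
    obtain ⟨i, b⟩ := a
    obtain ⟨⟨y, v⟩, hv⟩ := ih hl.reverse_eq
    refine ⟨(y, io n (FreeGroup.mk [(i, b)]) * v), fun T _ t ht => ?_⟩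
    have h1 := hv T t ht
    have h2 : FreeGroup.lift t (io n (FreeGroup.mk [(i, b)])) * t 0 =
        t 0 * (FreeGroup.lift t (io n (FreeGroup.mk [(i, b)])))⁻¹ := by
      rw [one]
      cases b <;> simp [inv_eq_of_mul_eq_one_right (ht _), mul_assoc, ht, ← mul_assoc (t 0) (t 0)]
    rw [mk_cons, ← FreeGroup.mul_mk]
    simp only [ev, map_mul] at *
    rw [mul_assoc, mul_assoc, h2, ← mul_assoc _ (t 0), h1]
    group

theorem list_ev : ∀ ws : List (List (Fin n × Bool)), (∀ w ∈ ws, w.reverse = w) →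
    ∃ L : List (Fin (n + 1) × FreeGroup (Fin (n + 1))), L.length = ws.length ∧
      ∀ (T : Type) [Group T] (t : Fin (n + 1) → T), (∀ i, t i * t i = 1) →
      FreeGroup.lift t (io n (ws.map FreeGroup.mk).prod) * t 0 ^ ws.length = (L.map (ev t)).prod
  | [], _ => ⟨[], rfl, by simp⟩
  | w :: ws, h => by
    obtain ⟨a, ha⟩ := pal_ev w (h w mem_cons_self)
    obtain ⟨L, h1, h2⟩ := list_ev ws fun v hv => h v (mem_cons_of_mem _ hv)
    refine ⟨a :: L.map fun b => (b.1, FreeGroup.of 0 * b.2), by simp [h1], fun T _ t ht => ?_⟩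
    have : ((L.map fun b => (b.1, FreeGroup.of 0 * b.2)).map (ev t)).prod =
        t 0 * (L.map (ev t)).prod * (t 0)⁻¹ := by
      have := map_list_prod (MulAut.conj (t 0)) (L.map (ev t))
      rw [MulAut.conj_apply] at this
      rw [this, List.map_map, List.map_map]
      congr 2
      funext b
      simp only [ev, Function.comp, map_mul, FreeGroup.lift_apply_of, MulAut.conj_apply]
      group
    rw [List.map_cons, List.map_cons, prod_cons, prod_cons, this, ← ha T t ht, ← h2 T t ht,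
      length_cons, pow_succ, map_mul, map_mul, inv_eq_of_mul_eq_one_right (ht 0)]
    simp only [mul_assoc, ← mul_assoc (t 0) (t 0), ht, one_mul]

/-- the data extracted from a factorization -/
def Fac (r k : ℕ) (g : FreeGroup (Fin n)) : Prop :=
  ∃ L : List (Fin (n + 1) × FreeGroup (Fin (n + 1))), L.length = k ∧
    ∀ (T : Type) [Group T] (t : Fin (n + 1) → T), (∀ i, t i * t i = 1) →
      (⊤ : Subgroup T).lowerCentralSeries r = ⊥ → FreeGroup.lift t (io n g) = (L.map (ev t)).prod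

theorem fac_of {r j : ℕ} (g : FreeGroup (Fin n)) (ws : List (List (Fin n × Bool)))
    (h : ∀ w ∈ ws, w.reverse = w) (hl : ws.length = 2 * j)
    (hg : (ws.map FreeGroup.mk).prod⁻¹ * g ∈ (⊤ : Subgroup _).lowerCentralSeries r) :
    Fac r (2 * j) g := by
  obtain ⟨L, h1, h2⟩ := list_ev ws h
  refine ⟨L, h1.trans hl, fun T _ t ht hT => ?_⟩
  have h3 : ((FreeGroup.lift t).comp (io n)) _ ∈ (⊤ : Subgroup T).lowerCentralSeries r :=
    lowerCentralSeries_mono r le_top ((map_lowerCentralSeries _ _ r).le ⟨_, hg, rfl⟩)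
  rw [hT, mem_bot, map_mul, map_inv, inv_mul_eq_one] at h3
  rw [← h2 T t ht, hl, pow_mul, pow_two, ht, one_pow, mul_one]
  exact h3.symm

theorem lcs_mono {T : Type} [Group T] {s r : ℕ} (h : (⊤ : Subgroup T).lowerCentralSeries s = ⊥)
    (hr : s ≤ r) : (⊤ : Subgroup T).lowerCentralSeries r = ⊥ :=
  le_bot_iff.1 (h ▸ Subgroup.lowerCentralSeries_antitone _ hr)

/-- generators with the identity -/
def ee (i : Fin (n + 1)) : FreeGroup (Fin n) := Fin.cons (α := fun _ => FreeGroup (Fin n)) 1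
  FreeGroup.of i

/-- products of two involutions -/
def cc (i j : Fin (n + 1)) : FreeGroup (Fin n) := ee i * (ee j)⁻¹

theorem cc_ev {T : Type} [Group T] (t : Fin (n + 1) → T) (ht : ∀ i, t i * t i = 1)
    (i j : Fin (n + 1)) : FreeGroup.lift t (io n (cc i j)) = t i * t j := by
  have : ∀ i, FreeGroup.lift t (io n (ee i)) = t i * t 0 := fun i => by
    induction i using Fin.cases with
    | zero => simp [ee, ht]
    | succ i => simp [ee, io]
  rw [cc, map_mul, map_mul, map_inv, map_inv, this, this, mul_inv_rev,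
    inv_eq_of_mul_eq_one_right (ht j)]
  group

theorem prod_one {α M : Type} [Fintype α] [Monoid M] (a : α) (f : α → M)
    (h : ∀ b, b ≠ a → f b = 1) : ((Finset.univ : Finset α).toList.map f).prod = f a := by
  classical
  rw [prod_map_eq_pow_single a f fun b hb _ => h b hb,
    count_eq_one_of_mem (Finset.nodup_toList _) (by simp), pow_one]

/-- first test element -/
noncomputable def g1 (n s : ℕ) : FreeGroup (Fin n) :=
  ((Finset.univ : Finset (Fin (n + 1) × Fin (n + 1))).toList.map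
    fun a => if a.1 < a.2 then cc a.1 a.2 ^ s else 1).prod

/-- second test element -/
noncomputable def g2 (n : ℕ) : FreeGroup (Fin n) :=
  ((Finset.univ : Finset (Fin (n + 1))).toList.map
    fun m => ⁅cc (m + 1) m ^ 2, cc (m + 1 + 1) m ^ 2⁆).prod

theorem g1_ev {T : Type} [Group T] (t : Fin (n + 1) → T) (ht : ∀ i, t i * t i = 1) (s : ℕ)
    (i l : Fin (n + 1)) (h : ∀ a b, a < b → (a, b) ≠ (i, l) → (t a * t b) ^ s = 1) :
    FreeGroup.lift t (io n (g1 n s)) = if i < l then (t i * t l) ^ s else 1 := by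
  rw [g1, map_list_prod, map_list_prod, List.map_map, List.map_map,
    prod_one (i, l)]
  · simp only [Function.comp]
    split_ifs
    · rw [map_pow, map_pow, cc_ev t ht]
    · simp
  · rintro ⟨a, b⟩ hab
    simp only [Function.comp]
    split_ifs with h'
    · rw [map_pow, map_pow, cc_ev t ht, h a b h' hab]
    · simp

theorem g2_ev {T : Type} [Group T] (t : Fin (n + 1) → T) (ht : ∀ i, t i * t i = 1)
    (m : Fin (n + 1)) (h : ∀ a, a ≠ m → ⁅(t (a + 1) * t a) ^ 2, (t (a + 1 + 1) * t a) ^ 2⁆ = 1) :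
    FreeGroup.lift t (io n (g2 n)) = ⁅(t (m + 1) * t m) ^ 2, (t (m + 1 + 1) * t m) ^ 2⁆ := by
  rw [g2, map_list_prod, map_list_prod, List.map_map, List.map_map,
    prod_one m]
  · simp only [Function.comp, map_commutatorElement, map_pow, cc_ev t ht]
  · rintro a ha
    simp only [Function.comp, map_commutatorElement, map_pow, cc_ev t ht]
    exact h a ha

theorem parity {r : ℕ} (hr : 1 ≤ r) {g : FreeGroup (Fin n)}
    (hg : ∀ t : Fin (n + 1) → Multiplicative Z2, FreeGroup.lift t (io n g) = 1)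
    (L : List (Fin (n + 1) × FreeGroup (Fin (n + 1))))
    (hL : ∀ (T : Type) [Group T] (t : Fin (n + 1) → T), (∀ i, t i * t i = 1) →
      (⊤ : Subgroup T).lowerCentralSeries r = ⊥ → FreeGroup.lift t (io n g) = (L.map (ev t)).prod)
    (y : Fin (n + 1)) : 2 ∣ L.countP (fun a => a.1 = y) := by
  have h1 := hL (Multiplicative Z2) (fun i => if i = y then Multiplicative.ofAdd 1 else 1)
    (fun i => by split_ifs <;> rfl) (lcs_mono (s := 1) (le_bot_iff.1 (commutator_le.2
      fun a _ b _ => mem_bot.2 (commutatorElement_eq_one_iff_mul_comm.2 (mul_comm a b)))) hr)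
  rw [hg] at h1
  have h2 : ∀ L : List (Fin (n + 1) × FreeGroup (Fin (n + 1))),
      (L.map (ev fun i => if i = y then Multiplicative.ofAdd (1 : Z2) else 1)).prod =
        Multiplicative.ofAdd ((L.countP (fun a => a.1 = y) : ℕ) : Z2) := by
    intro L
    induction L with
    | nil => rfl
    | cons a L ih =>
      rw [List.map_cons, prod_cons, ih, countP_cons, ev, mul_inv_cancel_comm]
      by_cases h : a.1 = y <;> simp [h, add_comm, ofAdd_add]
  rw [h2] at h1
  exact (ZMod.natCast_eq_zero_iff _ 2).1 (congrArg Multiplicative.toAdd h1).symm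

theorem sum_cnt (L : List (Fin (n + 1) × FreeGroup (Fin (n + 1)))) :
    ∑ y, L.countP (fun a => a.1 = y) = L.length := by
  induction L with
  | nil => simp
  | cons a L ih => simp [countP_cons, Finset.sum_add_distrib, ih]

theorem two_unused {k : ℕ} (s : ℕ) (hs : Even s) (i l : Fin (n + 1)) (hil : i < l)
    (L : List (Fin (n + 1) × FreeGroup (Fin (n + 1))))
    (hi : L.countP (fun a => a.1 = i) = 0) (hl : L.countP (fun a => a.1 = l) = 0) :
    ∃ t : Fin (n + 1) → DihedralGroup k, (∀ i, t i * t i = 1) ∧ (L.map (ev t)).prod = 1 ∧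
      FreeGroup.lift t (io n (g1 n s)) = (DihedralGroup.sr 0 * DihedralGroup.sr 1) ^ s := by
  let t : Fin (n + 1) → DihedralGroup k := fun y =>
    if y = i then DihedralGroup.sr 0 else if y = l then DihedralGroup.sr 1 else 1
  have ht : ∀ i, t i * t i = 1 := fun y => by simp only [t]; split_ifs <;> simp
  refine ⟨t, ht, List.prod_eq_one fun x hx => ?_, ?_⟩
  · obtain ⟨a, ha, rfl⟩ := List.mem_map.1 hx
    have h1 : a.1 ≠ i := by simpa using countP_eq_zero.1 hi a ha
    have h2 : a.1 ≠ l := by simpa using countP_eq_zero.1 hl a ha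
    simp [ev, t, h1, h2]
  · rw [g1_ev t ht s i l, if_pos hil]
    · simp [t, hil.ne']
    · intro a b hab hne
      obtain ⟨j, rfl⟩ := hs
      rw [← two_mul, pow_mul, pow_two]
      have : t a = 1 ∨ t b = 1 := by
        by_contra hc
        simp only [t, not_or] at hc
        obtain ⟨h1, h2⟩ := hc
        split_ifs at h1 h2 <;> simp_all <;> omega
      rcases this with h | h <;> simp [h, ht]

theorem cnt_cases (c : Fin (n + 1) → ℕ) (h2 : ∀ y, 2 ∣ c y)
    (h0 : ∀ i l, i < l → c i = 0 → c l = 0 → False) :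
    ∃ m, 2 * n + ∑ y ∈ Finset.univ.erase m, (c y - 2) + c m = ∑ y, c y ∧
      (c m = 0 ∨ 2 ≤ c m) ∧ ∀ y, y ≠ m → 2 ≤ c y := by
  obtain ⟨m, hm⟩ : ∃ m, ∀ y, y ≠ m → c y ≠ 0 := by
    by_cases h : ∃ m, c m = 0
    · obtain ⟨m, hm⟩ := h
      refine ⟨m, fun y hy h => ?_⟩
      rcases lt_or_gt_of_ne hy with h' | h'
      · exact h0 _ _ h' h hm
      · exact h0 _ _ h' hm h
    · exact ⟨0, fun y _ hy => h ⟨y, hy⟩⟩
  have h3 : ∀ y, y ≠ m → 2 ≤ c y := fun y hy => Nat.le_of_dvd (Nat.pos_of_ne_zero (hm y hy)) (h2 y)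
  refine ⟨m, ?_, by have := h2 m; omega, h3⟩
  rw [← Finset.sum_erase_add _ _ (Finset.mem_univ m)]
  have : ∑ y ∈ Finset.univ.erase m, c y = ∑ y ∈ Finset.univ.erase m, (2 + (c y - 2)) :=
    Finset.sum_congr rfl fun y hy => by have := h3 y (Finset.ne_of_mem_erase hy); omega
  rw [this, Finset.sum_add_distrib]
  simp [Finset.card_erase_of_mem, mul_comm]

theorem z2pow (a : Multiplicative Z2) : a ^ 2 = 1 := by revert a; decide

theorem low2 {r : ℕ} (hr : 2 ≤ r) {k : ℕ} (hk : k < 2 * n) : ¬ Fac r k (g1 n 2) := by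
  rintro ⟨L, h1, hL⟩
  obtain ⟨m, h2, -⟩ := cnt_cases (fun y => L.countP (fun a => a.1 = y))
    (parity (by omega) (fun t => by
      rw [g1_ev t (fun i => by rw [← pow_two, z2pow]) 2 0 0 fun _ _ _ _ => z2pow _]; simp) L hL)
    (fun i l hil hi hl => by
      obtain ⟨t, ht, e1, e2⟩ := two_unused (k := 4) 2 (by decide) i l hil L hi hl
      rw [hL _ t ht (lcs_mono lcsD4 hr), e1] at e2
      exact absurd e2 (by decide))
  rw [sum_cnt] at h2
  omega

theorem low4 {r : ℕ} (hr : 4 ≤ r) (hn : 3 ≤ n) : ¬ Fac r (2 * n) (g1 n 4 * g2 n) := by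
  rintro ⟨L, h1, hL⟩
  obtain ⟨m, h2, -, h3⟩ := cnt_cases (fun y => L.countP (fun a => a.1 = y))
    (parity (by omega) (fun t => by
      have ht : ∀ i, t i * t i = 1 := fun i => by rw [← pow_two, z2pow]
      rw [map_mul, map_mul, g1_ev t ht 4 0 0 fun _ _ _ _ => by
        rw [show 4 = 2 * 2 from rfl, pow_mul, z2pow],
        g2_ev t ht 0 fun _ _ => by simp [z2pow]]
      simp [z2pow]) L hL)
    (fun i l hil hi hl => by
      obtain ⟨t, ht, e1, e2⟩ := two_unused (k := 8) 4 (by decide) i l hil L hi hl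
      have h8 : ∀ a b : DihedralGroup 8, ⁅a ^ 2, b ^ 2⁆ = 1 := by decide +kernel
      have := hL _ t ht (lcs_mono lcsD8 (by omega))
      rw [e1, map_mul, map_mul, e2, g2_ev t ht 0 fun _ _ => h8 _ _, h8] at this
      exact absurd this (by decide))
  rw [sum_cnt, h1] at h2
  have hm : L.countP (fun a => a.1 = m) = 0 := by omega
  have hc : ∀ y, y ≠ m → L.countP (fun a => a.1 = y) = 2 := fun y hy => by
    have h4 : ∑ y ∈ Finset.univ.erase m, (L.countP (fun a => a.1 = y) - 2) = 0 := by omega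
    have := Finset.sum_eq_zero_iff.1 h4 y (Finset.mem_erase.2 ⟨hy, Finset.mem_univ _⟩)
    have := h3 y hy
    omega
  obtain ⟨n, rfl⟩ := Nat.exists_eq_add_of_le' hn
  have f1 : ∀ a : Fin (n + 3 + 1), a + 1 ≠ a := fun a h => by
    rw [add_eq_left] at h; simp at h
  have f2 : ∀ a : Fin (n + 3 + 1), a + 1 + 1 ≠ a := fun a h => by
    rw [add_assoc a, add_eq_left, Fin.ext_iff] at h
    simp [Fin.val_add, Nat.mod_eq_of_lt] at h
  have f3 : ∀ a : Fin (n + 3 + 1), a + 1 + 1 + 1 ≠ a := fun a h => by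
    rw [add_assoc a, add_assoc a, add_eq_left, Fin.ext_iff] at h
    simp [Fin.val_add, Nat.mod_eq_of_lt] at h
  let t : Fin (n + 3 + 1) → Q := fun y =>
    if y = m then qs else if y = m + 1 then qa else if y = m + 1 + 1 then qb else 1
  have t4 : ∀ y, t y ∈ [qs, qa, qb, 1] := fun y => by simp only [t]; split_ifs <;> simp
  have ht : ∀ y, t y * t y = 1 := fun y => (q4 _ (t4 y)).1
  have t0 : t m = qs := by simp [t]
  have t1 : t (m + 1) = qa := by simp only [t, if_neg (f1 m), if_true]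
  have t2 : t (m + 1 + 1) = qb := by simp only [t, if_neg (f2 m), if_neg (f1 (m + 1)), if_true]
  have t3 : t (m + 1 + 1 + 1) = 1 := by
    simp only [t, if_neg (f3 m), if_neg (f2 (m + 1)), if_neg (f1 (m + 1 + 1))]
  have e := hL Q t ht (lcs_mono lcsQ hr)
  rw [map_mul, map_mul, g1_ev t ht 4 0 0 fun a b _ _ => (q4 _ (t4 a)).2 _ (t4 b),
    if_neg (lt_irrefl _), one_mul, g2_ev t ht m (fun a ha => by
      by_cases ha1 : a = m + 1
      · rw [ha1, t3]; simp [pow_two, ht]
      by_cases ha2 : a = m + 1 + 1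
      · rw [ha2, t3]; simp [pow_two, ht]
      · have : t a = 1 := by simp only [t, if_neg ha, if_neg ha1, if_neg ha2]
        rw [this]; simp [pow_two, ht]), t0, t1, t2, qd] at e
  have hne : ∀ a ∈ L, a.1 ≠ m := fun a ha => by simpa using countP_eq_zero.1 hm a ha
  have ent : ∀ a : Fin (n + 3 + 1) × FreeGroup (Fin (n + 3 + 1)), a.1 ≠ m → (ev t a).s = 0 ∧
      (∀ p, (ev t a).x p = if a.1 = m + 1 ∧ (FreeGroup.lift t a.2).s = p then 1 else 0) ∧
      (∀ p, (ev t a).y p = if a.1 = m + 1 + 1 ∧ (FreeGroup.lift t a.2).s = p then 1 else 0) ∧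
      ∀ p q, ¬ (a.1 = m + 1 ∧ (FreeGroup.lift t a.2).s = p) →
        ¬ (a.1 = m + 1 + 1 ∧ (FreeGroup.lift t a.2).s = q) → (ev t a).z p q = 0 := by
    intro a ha
    by_cases ha1 : a.1 = m + 1
    · obtain ⟨c1, c2, c3, c4⟩ := cqa (FreeGroup.lift t a.2)
      rw [ev, ha1, t1]
      refine ⟨c1, fun p => by simpa using c2 p, fun p => ?_, fun p q h _ => c4 p q (by simpa using h)⟩
      rw [c3, if_neg fun h => f1 _ h.1.symm]
    by_cases ha2 : a.1 = m + 1 + 1
    · obtain ⟨c1, c2, c3, c4⟩ := cqb (FreeGroup.lift t a.2)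
      rw [ev, ha2, t2]
      refine ⟨c1, fun p => ?_, fun p => by simpa using c3 p, fun p q _ h => c4 p q (by simpa using h)⟩
      rw [c2, if_neg fun h => f1 _ h.1]
    · have : t a.1 = 1 := by simp only [t, if_neg ha, if_neg ha1, if_neg ha2]
      simp [ev, this, ha1, ha2]
  have cnt : ∀ L : List (Fin (n + 3 + 1) × FreeGroup (Fin (n + 3 + 1))), (∀ a ∈ L, a.1 ≠ m) →
      (L.map (ev t)).prod.s = 0 ∧
      (∀ p, (L.map (ev t)).prod.x p =
        (L.countP (fun a => a.1 = m + 1 ∧ (FreeGroup.lift t a.2).s = p) : ℕ)) ∧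
      (∀ p, (L.map (ev t)).prod.y p =
        (L.countP (fun a => a.1 = m + 1 + 1 ∧ (FreeGroup.lift t a.2).s = p) : ℕ)) ∧
      ∀ p q, L.countP (fun a => a.1 = m + 1 ∧ (FreeGroup.lift t a.2).s = p) = 0 →
        L.countP (fun a => a.1 = m + 1 + 1 ∧ (FreeGroup.lift t a.2).s = q) = 0 →
        (L.map (ev t)).prod.z p q = 0 := by
    intro L
    induction L with
    | nil => simp
    | cons a L ih =>
      intro h
      obtain ⟨c1, c2, c3, c4⟩ := ent a (h a mem_cons_self)
      obtain ⟨d1, d2, d3, d4⟩ := ih fun b hb => h b (mem_cons_of_mem _ hb)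
      simp only [List.map_cons, prod_cons, mul_s, mul_x, mul_y, mul_z, c1, d1, add_zero, c2, d2, c3,
        d3, countP_cons, decide_eq_true_eq, Nat.add_eq_zero_iff, true_and]
      refine ⟨fun p => by split_ifs <;> simp [add_comm], fun p => by split_ifs <;> simp [add_comm],
        fun p q h1 h2 => ?_⟩
      have k1 : ¬ (a.1 = m + 1 ∧ (FreeGroup.lift t a.2).s = p) := fun h => by simp [h] at h1
      have k2 : ¬ (a.1 = m + 1 + 1 ∧ (FreeGroup.lift t a.2).s = q) := fun h => by simp [h] at h2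
      rw [c4 p q k1 k2, d4 p q h1.1 h2.1, if_neg k1]
      simp
  have spl : ∀ y, y ≠ m → (∀ p, ((L.countP (fun a => a.1 = y ∧ (FreeGroup.lift t a.2).s = p) : ℕ)
      : Z2) = 0) → ∃ p, L.countP (fun a => a.1 = y ∧ (FreeGroup.lift t a.2).s = p) = 0 := by
    intro y hy h
    have s1 : ∀ L : List (Fin (n + 3 + 1) × FreeGroup (Fin (n + 3 + 1))),
        L.countP (fun a => a.1 = y) =
        L.countP (fun a => a.1 = y ∧ (FreeGroup.lift t a.2).s = 0) +
          L.countP (fun a => a.1 = y ∧ (FreeGroup.lift t a.2).s = 1) := by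
      intro L
      induction L with
      | nil => rfl
      | cons a L ih =>
        simp only [countP_cons, ih, decide_eq_true_eq]
        rcases z2 (FreeGroup.lift t a.2).s with e | e <;> by_cases h : a.1 = y <;>
          simp [e, h] <;> omega
    have s2 := s1 L
    rw [hc y hy] at s2
    have s3 := (ZMod.natCast_eq_zero_iff _ 2).1 (h 0)
    by_cases s4 : L.countP (fun a => a.1 = y ∧ (FreeGroup.lift t a.2).s = 0) = 0
    · exact ⟨0, s4⟩
    · exact ⟨1, by omega⟩
  obtain ⟨-, c2, c3, c4⟩ := cnt L hne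
  rw [← e] at c2 c3 c4
  obtain ⟨p, hp⟩ := spl _ (f1 m) fun p => (c2 p).symm
  obtain ⟨q, hq⟩ := spl _ (f2 m) fun p => (c3 p).symm
  exact one_ne_zero (α := Z2) (c4 p q hp hq)

end Pool.Agent.H10.PW
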