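import Mathlib

namespace Pool.Agent.H10.Par
open Finset Equiv

abbrev W := ℕ × Bool

def sp (R : Finset (Finset W)) : Finset W := R.biUnion id

def wt (e : Finset W) : ℕ := ∑ w ∈ e, w.2.toNat

/-- `D` is strong for the edge set `E` -/
def St (D : Finset W) (E : Finset (Finset W)) : Prop :=
  ∀ R ⊆ E, (∀ e ∈ R, ¬ e ⊆ D) → R.card ≤ (sp R \ D).card

def K (V : Finset W) (E : Finset (Finset W)) : Prop :=
  (∀ e ∈ E, e ⊆ V ∧ e.card = 4 ∧ wt e = 3) ∧ ∀ R ⊆ E, 2 ≤ R.card → R.card + 4 ≤ (sp R).card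

def Ext (V : Finset W) (E : Finset (Finset W)) (V' : Finset W) (E' : Finset (Finset W)) : Prop :=
  V ⊆ V' ∧ E ⊆ E' ∧ St V E' ∧ ∀ e ∈ E', e ⊆ V → e ∈ E

def PI (V : Finset W) (E : Finset (Finset W)) (D : Finset W) (π : Perm W) : Prop :=
  D ⊆ V ∧ D.image π ⊆ V ∧ (∀ w ∈ D, (π w).2 = w.2) ∧ St D E ∧ St (D.image π) E ∧
    ∀ e ⊆ D, e ∈ E ↔ e.image π ∈ E

variable {V V' V'' D U : Finset W} {E E' E'' R : Finset (Finset W)} {π : Perm W}

theorem sp_sub (h : ∀ e ∈ R, e ⊆ V) : sp R ⊆ V := biUnion_subset.2 h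

theorem sub_sp {e : Finset W} (h : e ∈ R) : e ⊆ sp R := subset_biUnion_of_mem id h

theorem sp_mono {R' : Finset (Finset W)} (h : R ⊆ R') : sp R ⊆ sp R' :=
  biUnion_subset_biUnion_of_subset_left _ h

theorem cut (R : Finset (Finset W)) (hD : D ⊆ V) (h : St V E) (hR : ∀ e ∈ R, ¬ e ⊆ V → e ∈ E) :
    R.card + (sp (R.filter (· ⊆ V)) \ D).card ≤ (R.filter (· ⊆ V)).card + (sp R \ D).card := by
  have h1 := h (R.filter (¬ · ⊆ V)) (fun e he => hR e (mem_filter.1 he).1 (mem_filter.1 he).2)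
    fun e he => (mem_filter.1 he).2
  have h2 := card_filter_add_card_filter_not (s := R) (· ⊆ V)
  have h3 : (sp (R.filter (· ⊆ V)) \ D).card + (sp (R.filter (¬ · ⊆ V)) \ V).card ≤
      (sp R \ D).card := by
    rw [← card_union_of_disjoint (disjoint_of_subset_left (sdiff_subset.trans
      (sp_sub fun e he => (mem_filter.1 he).2)) disjoint_sdiff)]
    exact card_le_card (union_subset (sdiff_subset_sdiff (sp_mono (filter_subset _ _)) le_rfl)
      (sdiff_subset_sdiff (sp_mono (filter_subset _ _)) hD))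
  omega

theorem St.ext (h : St D E) (hD : D ⊆ V) (x : Ext V E V' E') : St D E' := fun R hR h1 => by
  have := cut R hD x.2.2.1 fun e he _ => hR he
  have := h (R.filter (· ⊆ V)) (fun e he => x.2.2.2 e (hR (mem_filter.1 he).1) (mem_filter.1 he).2)
    fun e he => h1 e (mem_filter.1 he).1
  omega

theorem Ext.trans (x : Ext V E V' E') (y : Ext V' E' V'' E'') : Ext V E V'' E'' :=
  ⟨x.1.trans y.1, x.2.1.trans y.2.1, x.2.2.1.ext x.1 y, fun e he h =>
    x.2.2.2 e (y.2.2.2 e he (h.trans x.1)) h⟩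

theorem K.st (k : K V E) : St V E := fun R hR h => by
  rw [eq_empty_of_forall_notMem (s := R) fun e he => h e he (k.1 e (hR he)).1]; simp

theorem K.grow (k : K V E) (h : V ⊆ V') : K V' E ∧ Ext V E V' E :=
  ⟨⟨fun e he => ⟨(k.1 e he).1.trans h, (k.1 e he).2⟩, k.2⟩, h, le_rfl, k.st, fun _ h _ => h⟩

theorem PI.ext (p : PI V E D π) (x : Ext V E V' E') : PI V' E' D π :=
  ⟨p.1.trans x.1, p.2.1.trans x.1, p.2.2.1, p.2.2.2.1.ext p.1 x, p.2.2.2.2.1.ext p.2.1 x,
    fun e he => ⟨fun h => x.2.1 ((p.2.2.2.2.2 e he).1 (x.2.2.2 e h (he.trans p.1))), fun h =>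
      x.2.1 ((p.2.2.2.2.2 e he).2 (x.2.2.2 _ h ((image_subset_image he).trans p.2.1)))⟩⟩

theorem im_im (π : Perm W) (e : Finset W) : (e.image π).image π.symm = e := by
  simp [image_image]

theorem im_im' (π : Perm W) (e : Finset W) : (e.image π.symm).image π = e := im_im π.symm e

theorem PI.symm (p : PI V E D π) : PI V E (D.image π) π.symm := by
  refine ⟨p.2.1, (im_im π D).symm ▸ p.1, fun w hw => ?_, p.2.2.2.2.1, (im_im π D).symm ▸ p.2.2.2.1,
    fun e he => ?_⟩
  · obtain ⟨v, hv, rfl⟩ := mem_image.1 hw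
    simp [p.2.2.1 v hv]
  · rw [p.2.2.2.2.2 _ ((image_subset_image he).trans (im_im π D).le), im_im']

theorem K.two (k : K V E) {e e' : Finset W} (h : e ∈ E) (h' : e' ∈ E) (h3 : 3 ≤ (e ∩ e').card) :
    e = e' := by
  by_contra hne
  have := k.2 {e, e'} (by simp [insert_subset_iff, h, h']) (by rw [card_pair hne])
  have h4 := card_union_add_card_inter e e'
  rw [card_pair hne] at this
  simp only [sp, biUnion_insert, singleton_biUnion, id] at this
  have := (k.1 e h).2.1
  have := (k.1 e' h').2.1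
  omega

theorem St.ins (s : St D E) {e : Finset W} {y : W} (he : e ∈ E) (hy : e \ D = {y}) :
    St (insert y D) E ∧ ∀ e' ∈ E, e' ⊆ insert y D → ¬ e' ⊆ D → e' = e := by
  have h0 : ¬ e ⊆ D := fun h => by simp [sdiff_eq_empty_iff_subset.2 h] at hy
  have h1 : e ⊆ insert y D := fun w hw => by
    by_cases h : w ∈ D
    · exact mem_insert_of_mem h
    · exact mem_insert.2 (.inl (mem_singleton.1 (hy ▸ mem_sdiff.2 ⟨hw, h⟩)))
  have h2 : ∀ R : Finset (Finset W), (sp (insert e R) \ D).card ≤ (sp R \ insert y D).card + 1 :=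
    fun R => by
      refine (card_le_card (t := insert y (sp R \ insert y D)) fun w hw => ?_).trans
        (card_insert_le _ _)
      have := @h1 w
      simp only [sp, biUnion_insert, id, mem_sdiff, mem_union, mem_insert] at hw this ⊢
      tauto
  refine ⟨fun R hR h => ?_, fun e' h3 h4 h5 => ?_⟩
  · have := s (insert e R) (insert_subset he hR) fun f hf => by
      rcases mem_insert.1 hf with rfl | hf
      exacts [h0, fun h' => h f hf (h'.trans (subset_insert _ _))]
    rw [card_insert_of_notMem fun h' => h e h' h1] at this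
    have := h2 R
    omega
  · by_contra hne
    have := s {e, e'} (by simp [insert_subset_iff, he, h3]) (by simp [h0, h5])
    rw [card_pair (Ne.symm hne)] at this
    have h6 := h2 {e'}
    rw [sdiff_eq_empty_iff_subset.2 (sp_sub (R := {e'}) (V := insert y D) (by simpa using h4)),
      card_empty] at h6
    omega

theorem am_st (k : K V E) (k' : K V' E') (s : St (V ∩ V') E') : St V (E ∪ E') := fun R hR h => by
  have h1 : R ⊆ E' := fun e he =>
    (mem_union.1 (hR he)).resolve_left fun h' => h e he (k.1 e h').1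
  refine (s R h1 fun e he h' => h e he (h'.trans inter_subset_left)).trans
    (card_le_card fun w hw => ?_)
  have := sp_sub (fun e he => (k'.1 e (h1 he)).1) (mem_sdiff.1 hw).1
  simp only [mem_sdiff, mem_inter] at hw ⊢
  tauto

theorem am (k : K V E) (k' : K V' E') (s : St (V ∩ V') E') (h1 : ∀ e ∈ E', e ⊆ V → e ∈ E)
    (h2 : ∀ e ∈ E, e ⊆ V' → e ∈ E') (h3 : ∀ e ∈ E, ∀ e' ∈ E', e' ∉ E → (e ∩ e').card ≤ 2) :
    K (V ∪ V') (E ∪ E') ∧ Ext V E (V ∪ V') (E ∪ E') := by
  have a1 := am_st k k' s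
  have a2 : ∀ e ∈ E ∪ E', e ⊆ V → e ∈ E := fun e he h => (mem_union.1 he).elim id fun h' => h1 e h' h
  refine ⟨⟨fun e he => ?_, fun R hR h => ?_⟩, subset_union_left, subset_union_left, a1, a2⟩
  · rcases mem_union.1 he with h | h
    · exact ⟨(k.1 e h).1.trans subset_union_left, (k.1 e h).2⟩
    · exact ⟨(k'.1 e h).1.trans subset_union_right, (k'.1 e h).2⟩
  by_cases c1 : 2 ≤ (R.filter (· ⊆ V)).card
  · have := cut R (empty_subset V) a1 fun e he _ => hR he
    have := k.2 _ (fun e he => a2 e (hR (mem_filter.1 he).1) (mem_filter.1 he).2) c1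
    simp only [sdiff_empty] at *
    omega
  by_cases c2 : R ⊆ E'
  · exact k'.2 R c2 h
  obtain ⟨e, e1, e2⟩ := not_subset.1 c2
  have e3 : e ∈ E := (mem_union.1 (hR e1)).resolve_right e2
  have e4 : ∀ f ∈ R.erase e, f ∉ E := fun f hf h' => (mem_erase.1 hf).1
    (card_le_one.1 (by omega : (R.filter (· ⊆ V)).card ≤ 1) _ (mem_filter.2 ⟨(mem_erase.1 hf).2, (k.1 f h').1⟩) _
      (mem_filter.2 ⟨e1, (k.1 e e3).1⟩))
  have e5 : R.erase e ⊆ E' := fun f hf =>
    (mem_union.1 (hR (mem_erase.1 hf).2)).resolve_left (e4 f hf)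
  have e6 := card_erase_add_one e1
  by_cases c3 : 2 ≤ (R.erase e).card
  · obtain ⟨w, w1, w2⟩ := not_subset.1 (mt (h2 e e3) e2)
    have := k'.2 _ e5 c3
    have := card_lt_card (s := sp (R.erase e)) (t := sp R) ⟨sp_mono (erase_subset _ _),
      fun h' => w2 (sp_sub (fun f hf => (k'.1 f (e5 hf)).1) (h' (sub_sp e1 w1)))⟩
    omega
  · obtain ⟨f, hf⟩ := card_pos.1 (by omega : 0 < (R.erase e).card)
    have := h3 e e3 f (e5 hf) (e4 f hf)
    have := card_union_add_card_inter e f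
    have := (k.1 e e3).2.1
    have := (k'.1 f (e5 hf)).2.1
    have := card_le_card (union_subset (sub_sp e1) (sub_sp (mem_erase.1 hf).2))
    omega

theorem wt_im {e : Finset W} (h : ∀ w ∈ e, (π w).2 = w.2) : wt (e.image π) = wt e := by
  rw [wt, sum_image π.injective.injOn]
  exact sum_congr rfl fun w hw => by rw [h w hw]

theorem sp_im (π : Perm W) (R : Finset (Finset W)) :
    sp (R.image (image π)) = (sp R).image π := by
  simp [sp, image_biUnion, biUnion_image]

theorem fresh (V : Finset W) : ∃ N, ∀ w : W, (w.1 + N, w.2) ∉ V :=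
  ⟨V.sup Prod.fst + 1, fun w h => by have := le_sup (f := Prod.fst) h; omega⟩

theorem step1 (k : K V E) (p : PI V E D π) {e e' : Finset W} {y : W} (he : e ∈ E) (he' : e' ∈ E)
    (hy : e \ D = {y}) (h : (e.erase y).image π ⊆ e') :
    ∃ π' : Perm W, PI V E (insert y D) π' ∧ ∀ w ∈ D, π' w = π w := by
  have y1 : y ∈ e ∧ y ∉ D := mem_sdiff.1 (hy ▸ mem_singleton_self y)
  have y2 : e.erase y ⊆ D := fun w hw => by
    by_contra h'
    exact (mem_erase.1 hw).1 (mem_singleton.1 (hy ▸ mem_sdiff.2 ⟨(mem_erase.1 hw).2, h'⟩))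
  have y3 : (e.erase y).card = 3 := by rw [card_erase_of_mem y1.1, (k.1 e he).2.1]
  obtain ⟨z, hz⟩ : ∃ z, e' \ (e.erase y).image π = {z} := card_eq_one.1 (by
    rw [card_sdiff_of_subset h, card_image_of_injective _ π.injective, y3, (k.1 e' he').2.1])
  have z1 := mem_sdiff.1 (hz ▸ mem_singleton_self z)
  have z2 : e' = insert z ((e.erase y).image π) := by
    rw [insert_eq, ← hz, sdiff_union_of_subset h]
  have z3 : z ∉ D.image π := fun hz' => by
    have a1 : e'.image π.symm ⊆ D := im_im π D ▸ image_subset_image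
      (z2 ▸ insert_subset hz' (image_subset_image y2))
    have := k.two he ((p.2.2.2.2.2 _ a1).2 (by rwa [im_im'])) (y3 ▸ card_le_card
      (subset_inter (erase_subset _ _) (im_im π (e.erase y) ▸ image_subset_image h)))
    exact y1.2 (a1 (this ▸ y1.1))
  have z4 : z.2 = y.2 := by
    have a1 := (k.1 e' he').2.2
    have a2 := (k.1 e he).2.2
    rw [z2, wt, sum_insert z1.2, ← wt, wt_im fun w hw => p.2.2.1 w (y2 hw)] at a1
    rw [← insert_erase y1.1, wt, sum_insert (notMem_erase _ _), ← wt] at a2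
    have : z.2.toNat = y.2.toNat := by omega
    revert this
    cases z.2 <;> cases y.2 <;> simp
  let π' : Perm W := π.trans (swap (π y) z)
  have p1 : ∀ w ∈ D, π' w = π w := fun w hw => swap_apply_of_ne_of_ne
    (fun h => y1.2 (π.injective h ▸ hw)) fun h => z3 (h ▸ mem_image_of_mem _ hw)
  have p2 : π' y = z := swap_apply_left _ _
  have p3 : ∀ f ⊆ D, f.image π' = f.image π := fun f hf => image_congr fun w hw => p1 w (hf hw)
  have p4 : (insert y D).image π' = insert z (D.image π) := by rw [image_insert, p2, p3 D le_rfl]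
  have p5 : e.image π' = e' := by
    rw [z2, ← p3 _ y2, ← p2, ← image_insert, insert_erase y1.1]
  have s1 := p.2.2.2.1.ins he hy
  have s2 := p.2.2.2.2.1.ins he' (y := z) (by
    rw [z2, insert_sdiff_of_notMem _ z3, sdiff_eq_empty_iff_subset.2 (image_subset_image y2)]; rfl)
  refine ⟨π', ⟨insert_subset ((k.1 e he).1 y1.1) p.1, p4 ▸ insert_subset ((k.1 e' he').1 z1.1) p.2.1,
    fun w hw => ?_, s1.1, p4 ▸ s2.1, fun f hf => ?_⟩, p1⟩
  · rcases mem_insert.1 hw with rfl | hw
    · rw [p2, z4]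
    · rw [p1 w hw, p.2.2.1 w hw]
  by_cases c : f ⊆ D
  · rw [p3 f c]; exact p.2.2.2.2.2 f c
  refine ⟨fun h => by rw [s1.2 f h hf c, p5]; exact he', fun h => ?_⟩
  have := s2.2 _ h (p4 ▸ image_subset_image hf) fun h' =>
    c ((image_subset_image_iff π'.injective).1 (p3 D le_rfl ▸ h'))
  rw [← p5] at this
  rwa [image_injective π'.injective this]

theorem step2 (k : K V E) (p : PI V E D π) (hD : D ⊆ U) (hU : U ⊆ V) (s : St U E)
    (c : ∀ e ∈ E, e ⊆ U → (e \ D).card ≠ 1) : ∃ V' E', K V' E' ∧ Ext V E V' E' ∧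
      ∃ π' : Perm W, PI V' E' U π' ∧ ∀ w ∈ D, π' w = π w := by
  obtain ⟨N, hN⟩ := fresh V
  obtain ⟨ρ, hρ⟩ := Perm.exists_extending_pair (Subtype.val : U → W)
    (fun w => if w.1 ∈ D then π w else (w.1.1 + N, w.1.2)) Subtype.val_injective (by
      intro u v h
      dsimp only at h
      split_ifs at h with h1 h2 h2
      · exact Subtype.ext (π.injective h)
      · exact (hN _ (h ▸ p.2.1 (mem_image_of_mem _ h1))).elim
      · exact (hN _ (h.symm ▸ p.2.1 (mem_image_of_mem _ h2))).elim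
      · simp only [Prod.mk.injEq, add_left_inj] at h
        exact Subtype.ext (Prod.ext h.1 h.2))
  have r1 : ∀ w ∈ D, ρ w = π w := fun w hw => (hρ ⟨w, hD hw⟩).trans (if_pos hw)
  have r2 : ∀ w ∈ U, (ρ w).2 = w.2 := fun w hw => by
    rw [hρ ⟨w, hw⟩]
    split_ifs with h
    exacts [p.2.2.1 w h, rfl]
  have r3 : ∀ f ⊆ D, f.image ρ = f.image π := fun f hf => image_congr fun w hw => r1 w (hf hw)
  have r4 : V ∩ U.image ρ = D.image ρ := by
    refine Subset.antisymm (fun w hw => ?_) (subset_inter (r3 D le_rfl ▸ p.2.1)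
      (image_subset_image hD))
    obtain ⟨u, hu, rfl⟩ := mem_image.1 (mem_inter.1 hw).2
    refine mem_image_of_mem _ (by_contra fun h => hN u ?_)
    rw [← show ρ u = _ from (hρ ⟨u, hu⟩).trans (if_neg h)]
    exact (mem_inter.1 hw).1
  have r5 : ∀ {s t : Finset W}, s.image ρ ⊆ t.image ρ ↔ s ⊆ t :=
    image_subset_image_iff ρ.injective
  let F := (E.filter (· ⊆ U)).image (image ρ)
  have f1 : ∀ e, e.image ρ ∈ F ↔ e ∈ E ∧ e ⊆ U := fun e => by
    rw [Function.Injective.mem_finset_image (image_injective ρ.injective), mem_filter]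
  have f2 : ∀ f ∈ F, ∃ e ∈ E, e ⊆ U ∧ e.image ρ = f := fun f hf => by
    obtain ⟨e, he, rfl⟩ := mem_image.1 hf
    exact ⟨e, (mem_filter.1 he).1, (mem_filter.1 he).2, rfl⟩
  have k' : K (U.image ρ) F := by
    refine ⟨fun f hf => ?_, fun R hR h => ?_⟩
    · obtain ⟨e, e1, e2, rfl⟩ := f2 f hf
      rw [card_image_of_injective _ ρ.injective, wt_im fun w hw => r2 w (e2 hw)]
      exact ⟨image_subset_image e2, (k.1 e e1).2⟩
    · obtain ⟨R, h1, rfl⟩ := subset_image_iff.1 hR
      rw [card_image_of_injective _ (image_injective ρ.injective)] at h ⊢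
      rw [sp_im, card_image_of_injective _ ρ.injective]
      exact k.2 R (h1.trans (filter_subset _ _)) h
  have s' : St (V ∩ U.image ρ) F := fun R hR h => by
    obtain ⟨R, h1, rfl⟩ := subset_image_iff.1 hR
    rw [r4] at h ⊢
    rw [card_image_of_injective _ (image_injective ρ.injective), sp_im,
      ← image_sdiff _ _ ρ.injective, card_image_of_injective _ ρ.injective]
    exact p.2.2.2.1 R (h1.trans (filter_subset _ _)) fun e he h' =>
      h _ (mem_image_of_mem _ he) (image_subset_image h')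
  have h1 : ∀ f ∈ F, f ⊆ V → f ∈ E := fun f hf h => by
    obtain ⟨e, e1, e2, rfl⟩ := f2 f hf
    have : e ⊆ D := r5.1 (r4 ▸ subset_inter h (image_subset_image e2))
    rw [r3 e this]; exact (p.2.2.2.2.2 e this).1 e1
  have h2 : ∀ e ∈ E, e ⊆ U.image ρ → e ∈ F := fun f hf h => by
    obtain ⟨e, e1, rfl⟩ := subset_image_iff.1 (r4 ▸ subset_inter (k.1 f hf).1 h)
    exact (f1 e).2 ⟨(p.2.2.2.2.2 e e1).2 (r3 e e1 ▸ hf), e1.trans hD⟩
  obtain ⟨k2, x⟩ := am k k' s' h1 h2 fun e he f hf hn => by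
    obtain ⟨g, g1, g2, rfl⟩ := f2 f hf
    have a1 : e ∩ g.image ρ ⊆ (g ∩ D).image ρ := by
      rw [image_inter _ _ ρ.injective, ← r4]
      exact subset_inter inter_subset_right (subset_inter (inter_subset_left.trans (k.1 e he).1)
        (inter_subset_right.trans (image_subset_image g2)))
    have a2 := card_sdiff_add_card_inter g D
    have a3 := c g g1 g2
    have a4 : (g \ D).card ≠ 0 := fun h => hn (h1 _ hf ((image_subset_image
      (sdiff_eq_empty_iff_subset.1 (card_eq_zero.1 h))).trans (r4 ▸ inter_subset_left)))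
    have a5 := (card_le_card a1).trans card_image_le
    have := (k.1 g g1).2.1
    omega
  refine ⟨_, _, k2, x, ρ, ⟨hU.trans x.1, subset_union_right, r2, s.ext hU x, ?_, fun e he =>
    ⟨fun h => mem_union_right _ ((f1 e).2 ⟨x.2.2.2 e h (he.trans hU), he⟩), fun h => ?_⟩⟩, r1⟩
  · rw [union_comm]
    exact am_st k' k (by rw [inter_comm, r4, r3 D le_rfl]; exact p.2.2.2.2.1)
  · exact mem_union_left _ ((f1 e).1 ((mem_union.1 h).elim
      (fun h => h2 _ h (image_subset_image he)) id)).1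

theorem ext (n : ℕ) : ∀ {V E D π}, K V E → PI V E D π → D ⊆ U → U ⊆ V → St U E →
    (U \ D).card ≤ n → ∃ V' E', K V' E' ∧ Ext V E V' E' ∧
      ∃ π' : Perm W, PI V' E' U π' ∧ ∀ w ∈ D, π' w = π w := by
  induction n with
  | zero =>
    intro V E D π k p hD hU s h
    obtain rfl := hD.antisymm (sdiff_eq_empty_iff_subset.1 (card_eq_zero.1 (by omega)))
    exact ⟨V, E, k, (k.grow le_rfl).2, π, p, fun _ _ => rfl⟩
  | succ n ih =>
    intro V E D π k p hD hU s h
    by_cases c : ∀ e ∈ E, e ⊆ U → (e \ D).card ≠ 1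
    · exact step2 k p hD hU s c
    push Not at c
    obtain ⟨e, e1, e2, e3⟩ := c
    obtain ⟨y, hy⟩ := card_eq_one.1 e3
    have y1 : y ∈ e ∧ y ∉ D := mem_sdiff.1 (hy ▸ mem_singleton_self y)
    obtain ⟨V1, E1, k1, x1, e', e4, e5⟩ : ∃ V1 E1, K V1 E1 ∧ Ext V E V1 E1 ∧
        ∃ e' ∈ E1, (e.erase y).image π ⊆ e' := by
      by_cases c : ∃ e' ∈ E, (e.erase y).image π ⊆ e'
      · exact ⟨V, E, k, (k.grow le_rfl).2, c⟩
      push Not at c
      obtain ⟨N, hN⟩ := fresh V
      have y2 : e.erase y ⊆ D := fun w hw => by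
        by_contra h'
        exact (mem_erase.1 hw).1 (mem_singleton.1 (hy ▸ mem_sdiff.2 ⟨(mem_erase.1 hw).2, h'⟩))
      have y3 : ((e.erase y).image π).card = 3 := by
        rw [card_image_of_injective _ π.injective, card_erase_of_mem y1.1, (k.1 e e1).2.1]
      have y4 := (image_subset_image (f := π) y2).trans p.2.1
      have y5 : (y.1 + N, y.2) ∉ (e.erase y).image π := fun h => hN y (y4 h)
      let f := insert (y.1 + N, y.2) ((e.erase y).image π)
      have f1 : ¬ f ⊆ V := fun h => hN y (h (mem_insert_self _ _))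
      have f2 : ∀ g ∈ E, (g ∩ f).card ≤ 2 := fun g hg => by
        have := card_lt_card (s := g ∩ f) (t := (e.erase y).image π) ⟨fun w hw =>
          (mem_insert.1 (mem_inter.1 hw).2).resolve_left fun h =>
            hN y (h ▸ (k.1 g hg).1 (mem_inter.1 hw).1), fun h => c g hg (h.trans inter_subset_left)⟩
        omega
      obtain ⟨k1, x1⟩ := am (V' := f) (E' := {f}) k ⟨fun g hg => by
          rw [mem_singleton.1 hg]
          refine ⟨le_rfl, by rw [card_insert_of_notMem y5, y3], ?_⟩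
          rw [wt, sum_insert y5, ← wt, wt_im fun w hw => p.2.2.1 w (y2 hw), ← (k.1 e e1).2.2]
          conv_rhs => rw [← insert_erase y1.1, wt, sum_insert (notMem_erase _ _), ← wt],
        fun R hR h => by have := card_le_card hR; simp at this; omega⟩ (fun R hR h => by
          rcases subset_singleton_iff.1 hR with rfl | rfl
          · simp
          · exact card_pos.2 ⟨_, mem_sdiff.2 ⟨sub_sp (mem_singleton_self f) (mem_insert_self _ _),
              fun h => hN y (mem_inter.1 h).1⟩⟩)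
        (fun g hg h => (f1 (mem_singleton.1 hg ▸ h)).elim) (fun g hg h => by
          have := f2 g hg
          rw [inter_eq_left.2 h, (k.1 g hg).2.1] at this
          omega) fun g hg g' hg' _ => mem_singleton.1 hg' ▸ f2 g hg
      exact ⟨_, _, k1, x1, f, by simp, subset_insert _ _⟩
    obtain ⟨π1, p1, q1⟩ := step1 k1 (p.ext x1) (x1.2.1 e1) e4 hy e5
    obtain ⟨V2, E2, k2, x2, π2, p2, q2⟩ := ih k1 p1 (insert_subset (e2 y1.1) hD) (hU.trans x1.1)
      (s.ext hU x1) (by
        rw [sdiff_insert, card_erase_of_mem (mem_sdiff.2 ⟨e2 y1.1, y1.2⟩)]; omega)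
    exact ⟨V2, E2, k2, x1.trans x2, π2, p2, fun w hw =>
      (q2 w (mem_insert_of_mem hw)).trans (q1 w hw)⟩

theorem both (k : K V E) (p : PI V E D π) : ∃ V' E', K V' E' ∧ Ext V E V' E' ∧
    ∃ D' π', PI V' E' D' π' ∧ V ⊆ D' ∧ V ⊆ D'.image π' ∧ ∀ w ∈ D, π' w = π w := by
  obtain ⟨V1, E1, k1, x1, π1, p1, q1⟩ := ext _ k p p.1 le_rfl k.st le_rfl
  obtain ⟨V2, E2, k2, x2, π2, p2, q2⟩ := ext _ k1 p1.symm p1.2.1 le_rfl k1.st le_rfl
  have a : ∀ w ∈ V, π2 (π1 w) = w := fun w hw => by simpa using q2 _ (mem_image_of_mem _ hw)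
  refine ⟨V2, E2, k2, x1.trans x2, _, _, p2.symm, fun w hw => a w hw ▸ mem_image_of_mem _
    (p1.2.1 (mem_image_of_mem _ hw)), (im_im π2 V1).symm ▸ x1.1, fun w hw => ?_⟩
  rw [← q1 w hw, symm_apply_eq, a w (p.1 hw)]

theorem K.pts (k : K V E) (h : ∀ w ∈ D, w.2 = true) (h4 : D.card ≤ 4) :
    St D E ∧ ∀ e ⊆ D, e ∉ E := by
  refine ⟨fun R hR h1 => ?_, fun e he h1 => ?_⟩
  · by_cases c : 2 ≤ R.card
    · have := k.2 R hR c
      have := le_card_sdiff D (sp R)
      omega
    rcases R.eq_empty_or_nonempty with rfl | ⟨e, he⟩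
    · simp
    · obtain ⟨w, w1, w2⟩ := not_subset.1 (h1 e he)
      have := card_pos.2 ⟨w, mem_sdiff.2 ⟨sub_sp he w1, w2⟩⟩
      omega
  · have := k.1 e h1
    rw [wt, sum_congr rfl (g := fun _ => 1) fun w hw => by rw [h w (he hw)]; rfl] at this
    simp at this
    omega

end Pool.Agent.H10.Par
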