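import Pool.Agent.H10.Par1

namespace Pool.Agent.H10.Par
open Finset Equiv

abbrev I := (Fin 4 ↪ ℕ) × (Fin 4 ↪ ℕ)

def On (i : I) (D : Finset W) (π : Perm W) : Prop :=
  ∀ j, (i.1 j, true) ∈ D ∧ π (i.1 j, true) = (i.2 j, true)

structure C where
  V : Finset W
  E : Finset (Finset W)
  D : I → Finset W
  π : I → Perm W
  k : K V E
  p : ∀ i, PI V E (D i) (π i)
  o : ∀ i, D i = ∅ ∨ On i (D i) (π i)

instance : Preorder C where
  le c d := c.E ⊆ d.E ∧ ∀ i, c.D i ⊆ d.D i ∧ ∀ w ∈ c.D i, d.π i w = c.π i w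
  le_refl c := ⟨le_rfl, fun _ => ⟨le_rfl, fun _ _ => rfl⟩⟩
  le_trans c d e h h' := ⟨h.1.trans h'.1, fun i => ⟨(h.2 i).1.trans (h'.2 i).1, fun w hw =>
    ((h'.2 i).2 w ((h.2 i).1 hw)).trans ((h.2 i).2 w hw)⟩⟩

theorem dense (i : I) (w : W) (c : C) :
    ∃ d, (On i (d.D i) (d.π i) ∧ w ∈ d.D i ∧ w ∈ (d.D i).image (d.π i)) ∧ c ≤ d := by
  let A : (Fin 4 ↪ ℕ) → Finset W := fun a => univ.image fun j => (a j, true)
  have hA : ∀ a, (∀ w ∈ A a, w.2 = true) ∧ (A a).card ≤ 4 := fun a =>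
    ⟨fun w hw => by obtain ⟨j, -, rfl⟩ := mem_image.1 hw; rfl, card_image_le.trans (by simp)⟩
  obtain ⟨k1, x1⟩ := c.k.grow (V' := c.V ∪ insert w (A i.1 ∪ A i.2)) subset_union_left
  obtain ⟨D, π, p, o, h1, h2⟩ : ∃ D π, PI (c.V ∪ insert w (A i.1 ∪ A i.2)) c.E D π ∧ On i D π ∧
      c.D i ⊆ D ∧ ∀ w ∈ c.D i, π w = c.π i w := by
    rcases c.o i with h | h
    swap
    · exact ⟨_, _, (c.p i).ext x1, h, le_rfl, fun _ _ => rfl⟩
    obtain ⟨π, hπ⟩ := Perm.exists_extending_pair (fun j => ((i.1 j, true) : W))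
      (fun j => (i.2 j, true)) (fun _ _ h => i.1.injective (congrArg Prod.fst h))
      fun _ _ h => i.2.injective (congrArg Prod.fst h)
    have e : (A i.1).image π = A i.2 := by simp [A, image_image, Function.comp_def, hπ]
    have a1 := c.k.pts (hA i.1).1 (hA i.1).2
    have a2 := c.k.pts (hA i.2).1 (hA i.2).2
    refine ⟨A i.1, π, ⟨fun w hw => by simp [hw], e ▸ fun w hw => by simp [hw], fun w hw => ?_, a1.1,
      e ▸ a2.1, fun f hf => iff_of_false (a1.2 f hf) (a2.2 _ (e ▸ image_subset_image hf))⟩,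
      fun j => ⟨mem_image_of_mem _ (mem_univ j), hπ j⟩, by simp [h], by simp [h]⟩
    rw [(hA _).1 w hw, (hA i.2).1 _ (e ▸ mem_image_of_mem _ hw)]
  obtain ⟨V', E', k2, x2, D', π', p', a1, a2, a3⟩ := both k1 p
  classical
  refine ⟨⟨V', E', Function.update c.D i D', Function.update c.π i π', k2, fun j => ?_,
    fun j => ?_⟩, ?_, x2.2.1, fun j => ?_⟩
  · by_cases h : j = i
    · subst h; simpa using p'
    · simpa [h] using (c.p j).ext (x1.trans x2)
  · by_cases h : j = i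
    · subst h
      simpa using .inr fun l => ⟨a1 (p.1 (o l).1), (a3 _ (o l).1).trans (o l).2⟩
    · simpa [h] using c.o j
  · simp only [Function.update_self]
    exact ⟨fun l => ⟨a1 (p.1 (o l).1), (a3 _ (o l).1).trans (o l).2⟩, a1 (by simp), a2 (by simp)⟩
  · by_cases h : j = i
    · subst h
      simp only [Function.update_self]
      exact ⟨h1.trans (p.1.trans a1), fun w hw => (a3 w (h1 hw)).trans (h2 w hw)⟩
    · simp [h]

def e1 : Finset W := {(0, false), (0, true), (1, true), (2, true)}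
def e2 : Finset W := {(0, false), (0, true), (3, true), (4, true)}

def c0 : C where
  V := e1 ∪ e2
  E := {e1, e2}
  D := fun _ => ∅
  π := fun _ => 1
  k := by unfold K; decide
  p := fun _ => by
    have : St ∅ {e1, e2} := by unfold St; decide
    exact ⟨empty_subset _, by simp, by simp, this, this, by simp⟩
  o := fun _ => .inl rfl

theorem main : ∃ Ed : Set (Finset W), e1 ∈ Ed ∧ e2 ∈ Ed ∧
    (∀ e ∈ Ed, ∀ e' ∈ Ed, 3 ≤ (e ∩ e').card → e = e') ∧
    ∀ a b : Fin 4 ↪ ℕ, ∃ g : Perm W, (∀ j, g (a j, true) = (b j, true)) ∧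
      (∀ w, (g w).2 = w.2) ∧ ∀ e, e ∈ Ed ↔ e.image g ∈ Ed := by
  let 𝒟 : I × W → Order.Cofinal C := fun q => ⟨_, fun c => dense q.1 q.2 c⟩
  haveI : Countable (Fin 4 ↪ ℕ) := DFunLike.coe_injective.countable
  letI := Encodable.ofCountable (I × W)
  let s := Order.sequenceOfCofinals c0 𝒟
  have m : Monotone s := Order.sequenceOfCofinals.monotone c0 𝒟
  have h : ∀ i w, ∃ n, On i ((s n).D i) ((s n).π i) ∧ w ∈ (s n).D i ∧
      w ∈ ((s n).D i).image ((s n).π i) := fun i w =>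
    ⟨_, Order.sequenceOfCofinals.encode_mem c0 𝒟 (i, w)⟩
  refine ⟨{e | ∃ n, e ∈ (s n).E}, ⟨0, (by decide : e1 ∈ c0.E)⟩,
    ⟨0, (by decide : e2 ∈ c0.E)⟩, ?_, fun a b => ?_⟩
  · rintro e ⟨n, hn⟩ e' ⟨n', hn'⟩
    exact (s (max n n')).k.two ((m (le_max_left _ _)).1 hn) ((m (le_max_right _ _)).1 hn')
  choose n hn using h (a, b)
  let g : W → W := fun w => (s (n w)).π (a, b) w
  have g1 : ∀ l, ∀ w ∈ (s l).D (a, b), g w = (s l).π (a, b) w := fun l w hw =>
    (((m (le_max_left (n w) l)).2 _).2 w (hn w).2.1).symm.trans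
      (((m (le_max_right _ _)).2 _).2 w hw)
  have g2 : ∀ (U : Finset W) l, ∃ l' ≥ l, U ⊆ (s l').D (a, b) := fun U l =>
    ⟨max l (U.sup n), le_max_left _ _, fun w hw =>
      ((m ((le_sup (f := n) hw).trans (le_max_right _ _))).2 _).1 (hn w).2.1⟩
  refine ⟨Equiv.ofBijective g ⟨fun u v e => ?_, fun w => ?_⟩, fun j => ?_, fun w => ?_, fun e => ?_⟩
  · obtain ⟨l, -, hl⟩ := g2 {u, v} 0
    rw [g1 l u (hl (by simp)), g1 l v (hl (by simp))] at e
    exact ((s l).π _).injective e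
  · obtain ⟨u, hu, e⟩ := mem_image.1 (hn w).2.2
    exact ⟨u, (g1 _ u hu).trans e⟩
  · exact (g1 _ _ ((hn (0, true)).1 j).1).trans ((hn (0, true)).1 j).2
  · exact ((s _).p _).2.2.1 w (hn w).2.1
  · have : ∀ l, e ⊆ (s l).D (a, b) → (e ∈ (s l).E ↔ e.image g ∈ (s l).E) := fun l hl => by
      rw [image_congr (g := (s l).π (a, b)) fun w hw => g1 l w (hl hw)]
      exact ((s l).p _).2.2.2.2.2 e hl
    constructor <;> rintro ⟨l, hl⟩ <;> obtain ⟨l', h1, h2⟩ := g2 e l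
    · exact ⟨l', (this l' h2).1 ((m h1).1 hl)⟩
    · exact ⟨l', (this l' h2).2 ((m h1).1 hl)⟩

end Pool.Agent.H10.Par
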