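import Mathlib

set_option autoImplicit false

namespace Pool.Agent.H10.Plane

open Set Filter Topology Complex

lemma const_of_countable {X Y : Type*} [TopologicalSpace X] [MetricSpace Y] {J : Set X}
    (hJ : IsPreconnected J) {D : X → Y} (hD : Continuous D) (hc : (D '' J).Countable) {x y : X}
    (hx : x ∈ J) (hy : y ∈ J) : D x = D y :=
  hc.isTotallyDisconnected _ Subset.rfl (hJ.image D hD.continuousOn)
    (mem_image_of_mem D hx) (mem_image_of_mem D hy)

lemma const_of_exp {D : ℝ → ℂ} (hD : Continuous D) (c : ℂ) (hc : c ≠ 0) (h : ∀ x, exp (D x) = c)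
    (x y : ℝ) : D x = D y := by
  refine const_of_countable isPreconnected_univ hD ?_ (mem_univ x) (mem_univ y)
  refine (countable_range (fun n : ℤ => log c + n * (2 * Real.pi * I))).mono ?_
  rintro _ ⟨z, -, rfl⟩
  have := h z
  rw [← exp_log hc, exp_eq_exp_iff_exists_int] at this
  obtain ⟨n, hn⟩ := this
  exact ⟨n, hn.symm⟩

lemma exists_log (K : ℝ × ℝ → ℂ) (hK : Continuous K) (h0 : ∀ p, K p ≠ 0) :
    ∃ L : ℝ × ℝ → ℂ, Continuous L ∧ ∀ p, exp (L p) = K p := by
  rcases isCoveringMapOn_exp.existsUnique_continuousMap_lifts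
    (⟨K, hK⟩ : C(ℝ × ℝ, ℂ)) (a₀ := (0, 0)) (exp_log (h0 (0, 0))) (fun x => h0 x) with ⟨f, ⟨-, hf⟩, -⟩
  exact ⟨f, f.continuous, fun p => congrFun hf p⟩

/-- the loop has a closed logarithm -/
def Null (γ : ℝ → ℂ) : Prop :=
  ∃ L : ℝ → ℂ, Continuous L ∧ (∀ x, exp (L x) = γ x) ∧ L (2 * Real.pi) = L 0

lemma Null.homotopy (K : ℝ × ℝ → ℂ) (hK : Continuous K) (h0 : ∀ p, K p ≠ 0)
    (hp : ∀ t, K (2 * Real.pi, t) = K (0, t)) (h : Null (fun x => K (x, 0))) :
    Null (fun x => K (x, 1)) := by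
  obtain ⟨L, hL, hLe⟩ := exists_log K hK h0
  obtain ⟨L0, hL0, hL0e, hL0p⟩ := h
  refine ⟨fun x => L (x, 1), by fun_prop, fun x => hLe _, ?_⟩
  have h1 := const_of_exp (D := fun x => L (x, 0) - L0 x) (by fun_prop) 1 one_ne_zero
    (fun x => by rw [exp_sub, hLe, hL0e, div_self (h0 _)]) (2 * Real.pi) 0
  have h2 := const_of_exp (D := fun t => L (2 * Real.pi, t) - L (0, t)) (by fun_prop) 1 one_ne_zero
    (fun x => by rw [exp_sub, hLe, hLe, hp, div_self (h0 _)]) 1 0
  simp only at h1 h2 ⊢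
  linear_combination h2 + h1 + hL0p

lemma not_null_odd (γ : ℝ → ℂ) (h0 : ∀ x, γ x ≠ 0) (hodd : ∀ x, γ (x + Real.pi) = - γ x) :
    ¬ Null γ := by
  rintro ⟨L, hL, hLe, hp⟩
  have e : ∀ x, exp (L (x + Real.pi) - L x) = -1 := fun x => by
    rw [exp_sub, hLe, hLe, hodd, neg_div, div_self (h0 _)]
  have h1 := const_of_exp (D := fun x => L (x + Real.pi) - L x) (by fun_prop) (-1) (by norm_num) e
    Real.pi 0
  have h2 : L (0 + Real.pi) - L 0 = 0 := by
    rw [← two_mul, hp] at h1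
    simp only [zero_add] at h1 ⊢
    linear_combination (-1 / 2 : ℂ) * h1
  have h3 := e 0
  rw [h2, exp_zero] at h3
  norm_num at h3

lemma surj_complex (F : ℂ → ℂ) (hF : Continuous F) (hinj : Function.Injective F)
    (hprop : Tendsto (fun z => ‖F z‖) (cocompact ℂ) atTop) : ∃ z, F z = 0 := by
  by_contra hne
  push Not at hne
  obtain ⟨R, hR0, hR⟩ : ∃ R : ℝ, 0 < R ∧ ∀ z : ℂ, ‖z‖ = R → ‖F 0‖ < ‖F z‖ := by
    have h1 := hprop.eventually (eventually_gt_atTop ‖F 0‖)
    rw [← Metric.cobounded_eq_cocompact] at h1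
    obtain ⟨R, hR0, hR⟩ := (Metric.hasBasis_cobounded_compl_closedBall (0 : ℂ)).eventually_iff.mp h1
    refine ⟨max R 0 + 1, by positivity, fun z hz => hR ?_⟩
    simp only [mem_compl_iff, mem_closedBall_zero_iff, not_le, hz]
    have := le_max_left R 0
    linarith
  let c : ℝ → ℂ := fun x => R * exp (x * I)
  have hc : Continuous c := by fun_prop
  have hcn : ∀ x, ‖c x‖ = R := fun x => by
    simp [c, abs_of_pos hR0]
  have hcp : c (2 * Real.pi) = c 0 := by simp [c]
  have hco : ∀ x, c (x + Real.pi) = - c x := fun x => by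
    simp only [c]
    push_cast
    rw [add_mul, exp_add, exp_pi_mul_I]; ring
  let s : ℝ → ℝ := fun t => max 0 (min 1 t)
  have hs : Continuous s := by fun_prop
  have hs0 : ∀ t, 0 ≤ s t := fun t => le_max_left _ _
  have hs1 : ∀ t, s t ≤ 1 := fun t => max_le zero_le_one (min_le_left _ _)
  have s0 : s 0 = 0 := by simp [s]
  have s1 : s 1 = 1 := by simp [s]
  have n0 : Null (fun x => F ((1 : ℝ) * c x)) := by
    refine Null.homotopy (fun p => F (p.2 * c p.1)) (by fun_prop) (fun p => hne _)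
      (fun t => by simp only [hcp]) ?_
    exact ⟨fun _ => log (F 0), continuous_const, fun x => by simp [exp_log (hne 0)], rfl⟩
  have n1 : Null (fun x => F (c x) - s 1 * F 0) := by
    refine Null.homotopy (fun p => F (c p.1) - s p.2 * F 0) (by fun_prop) (fun p => ?_)
      (fun t => by simp only [hcp]) (by simpa [s0] using n0)
    intro h
    have h1 := hR _ (hcn p.1)
    rw [sub_eq_zero] at h
    rw [h, norm_mul, Complex.norm_real, Real.norm_of_nonneg (hs0 _)] at h1
    nlinarith [hs1 p.2, norm_nonneg (F 0)]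
  have hne2 : ∀ x t, F (c x) - F (- (s t * c x)) ≠ 0 := by
    intro x t h
    rw [sub_eq_zero] at h
    have h1 := hinj h
    have h2 : ((1 + s t : ℝ) : ℂ) * c x = 0 := by push_cast; linear_combination h1
    have h3 := congrArg norm h2
    rw [norm_mul, hcn, Complex.norm_real, norm_zero, Real.norm_of_nonneg (by linarith [hs0 t])] at h3
    nlinarith [hs0 t]
  have n2 : Null (fun x => F (c x) - F (- (s 1 * c x))) := by
    refine Null.homotopy (fun p => F (c p.1) - F (- (s p.2 * c p.1))) (by fun_prop)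
      (fun p => hne2 _ _) (fun t => by simp only [hcp]) (by simpa [s0, s1] using n1)
  refine not_null_odd _ (fun x => hne2 x 1) (fun x => ?_) n2
  simp [hco, s1]

lemma isHomeomorph_of_proper (F : ℝ × ℝ → ℝ × ℝ) (hinj : Function.Injective F)
    (hprop : IsProperMap F) : IsHomeomorph F := by
  rw [isHomeomorph_iff_continuous_isClosedMap_bijective]
  refine ⟨hprop.continuous, hprop.isClosedMap, hinj, fun w => ?_⟩
  let e : ℂ ≃ₜ ℝ × ℝ := equivRealProdCLM.toHomeomorph
  let G : ℂ → ℂ := fun z => e.symm (F (e z)) - e.symm w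
  have hG : IsProperMap G :=
    (Homeomorph.subRight (e.symm w)).isProperMap.comp
      (e.symm.isProperMap.comp (hprop.comp e.isProperMap))
  obtain ⟨z, hz⟩ := surj_complex G hG.continuous
    (fun x y h => e.injective (hinj (e.symm.injective (sub_left_injective h))))
    (Tendsto.comp tendsto_norm_cocompact_atTop (isProperMap_iff_tendsto_cocompact.mp hG).2)
  exact ⟨e z, e.symm.injective (sub_eq_zero.mp hz)⟩

lemma compl_prod_preconnected {J N : Set ℝ} (hJ : J ≠ univ) (hN : N ≠ univ) :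
    IsPreconnected ((J ×ˢ N)ᶜ : Set (ℝ × ℝ)) := by
  obtain ⟨j0, hj0⟩ := (ne_univ_iff_exists_notMem J).mp hJ
  obtain ⟨n0, hn0⟩ := (ne_univ_iff_exists_notMem N).mp hN
  have col : ∀ x : ℝ, IsPreconnected (({x} : Set ℝ) ×ˢ (univ : Set ℝ)) := fun x =>
    isPreconnected_singleton.prod isPreconnected_univ
  have row : ∀ y : ℝ, IsPreconnected ((univ : Set ℝ) ×ˢ ({y} : Set ℝ)) := fun y =>
    isPreconnected_univ.prod isPreconnected_singleton
  refine isPreconnected_of_forall (j0, n0) ?_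
  rintro ⟨x, y⟩ h
  by_cases hx : x ∈ J
  · have hy : y ∉ N := fun hy => h ⟨hx, hy⟩
    refine ⟨(({j0} : Set ℝ) ×ˢ (univ : Set ℝ)) ∪ ((univ : Set ℝ) ×ˢ ({y} : Set ℝ)), ?_,
      Or.inl ⟨rfl, trivial⟩, Or.inr ⟨trivial, rfl⟩,
      (col j0).union (j0, y) ⟨rfl, trivial⟩ ⟨trivial, rfl⟩ (row y)⟩
    rintro ⟨u, v⟩ (⟨hu, -⟩ | ⟨-, hv⟩) ⟨h1, h2⟩
    · exact hj0 (hu ▸ h1)
    · exact hy (hv ▸ h2)
  · refine ⟨(({x} : Set ℝ) ×ˢ (univ : Set ℝ)) ∪ ((univ : Set ℝ) ×ˢ ({n0} : Set ℝ)), ?_,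
      Or.inr ⟨trivial, rfl⟩, Or.inl ⟨rfl, trivial⟩,
      (col x).union (x, n0) ⟨rfl, trivial⟩ ⟨trivial, rfl⟩ (row n0)⟩
    rintro ⟨u, v⟩ (⟨hu, -⟩ | ⟨-, hv⟩) ⟨h1, h2⟩
    · exact hx (hu ▸ h1)
    · exact hn0 (hv ▸ h2)

lemma countable_max (φ : ℝ → ℝ) : (φ '' {x | IsLocalMax φ x}).Countable := by
  refine (countable_range (fun p : ℚ × ℚ => sSup (φ '' Ioo (p.1 : ℝ) p.2))).mono ?_
  rintro _ ⟨x, hx, rfl⟩
  obtain ⟨⟨l, u⟩, ⟨hl, hu⟩, h⟩ := (nhds_basis_Ioo x).eventually_iff.mp hx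
  simp only at hl hu h
  obtain ⟨p, hp1, hp2⟩ := exists_rat_btwn hl
  obtain ⟨q, hq1, hq2⟩ := exists_rat_btwn hu
  refine ⟨(p, q), IsGreatest.csSup_eq ⟨⟨x, ⟨hp2, hq1⟩, rfl⟩, ?_⟩⟩
  rintro _ ⟨y, hy, rfl⟩
  exact h ⟨hp1.trans hy.1, hy.2.trans hq2⟩

lemma countable_extr (φ : ℝ → ℝ) : (φ '' {x | IsLocalMax φ x ∨ IsLocalMin φ x}).Countable := by
  have h1 := countable_max φ
  have h2 := (countable_max (fun x => - φ x)).image (fun t : ℝ => -t)
  refine (h1.union h2).mono ?_
  rintro _ ⟨x, hx | hx, rfl⟩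
  · exact Or.inl ⟨x, hx, rfl⟩
  · exact Or.inr ⟨- φ x, ⟨x, hx.neg, rfl⟩, neg_neg _⟩

section semi
variable (F : ℝ × ℝ ≃ₜ ℝ × ℝ)

lemma level_col (a c : ℝ) (h : ∀ y, (F (a, y)).1 = c) (x y : ℝ) (hxy : (F (x, y)).1 = c) :
    x = a := by
  have hV : range (fun y => (F (a, y)).2) = univ := by
    by_contra hV
    have hc : ({c} : Set ℝ) ≠ univ := (ne_univ_iff_exists_notMem _).mpr ⟨c + 1, by simp⟩
    have hB := compl_prod_preconnected hc hV
    have hmem : ∀ x, x ≠ a → F (x, 0) ∈ ((({c} : Set ℝ) ×ˢ range (fun y => (F (a, y)).2))ᶜ) := by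
      rintro x hx ⟨h1, y, h2⟩
      have : F (x, 0) = F (a, y) := Prod.ext (by rw [h y]; exact h1) h2.symm
      exact hx (congrArg Prod.fst (F.injective this))
    have := hB.intermediate_value (hmem (a - 1) (by linarith)) (hmem (a + 1) (by linarith))
      (f := fun q => (F.symm q).1) (by fun_prop)
    obtain ⟨q, hq, hq2⟩ := this (show a ∈ _ by simp)
    apply hq
    have e : q = F (a, (F.symm q).2) := by
      simp only at hq2
      rw [← hq2]; simp
    rw [e]
    exact ⟨h _, _, rfl⟩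
  obtain ⟨y', hy'⟩ : (F (x, y)).2 ∈ range (fun y => (F (a, y)).2) := hV ▸ mem_univ _
  have : F (x, y) = F (a, y') := Prod.ext (by rw [h y', hxy]) hy'.symm
  exact congrArg Prod.fst (F.injective this)

variable (ass : ∀ a b c : ℝ, (F ((F (a, b)).1, c)).1 = (F (a, (F (b, c)).1)).1)
include ass

lemma col_self (a c : ℝ) (h : ∀ y, (F (a, y)).1 = c) : c = a := by
  refine level_col F a c h c 0 ?_
  have := ass a 0 0
  rwa [h, h] at this

lemma col_all (a c : ℝ) (h : ∀ y, (F (a, y)).1 = c) (b y : ℝ) : (F (b, y)).1 = b := by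
  have h1 : ∀ y, (F ((F (b, a)).1, y)).1 = (F (b, c)).1 := fun y => by rw [ass, h]
  have h2 := col_self F ass _ _ h1
  have h3 : b = (F (b, a)).1 := level_col F _ _ h1 b a h2.symm
  rw [← h3] at h1 h2
  rw [h1, h2]

lemma extr_left (a w t : ℝ) (h : IsLocalMax (fun y => (F (a, y)).1) (F (w, t)).1) :
    IsLocalMax (fun y => (F (a, y)).1) w ∨ IsLocalMin (fun y => (F (a, y)).1) w := by
  by_contra hc
  push Not at hc
  obtain ⟨hc1, hc2⟩ := hc
  set φ : ℝ → ℝ := fun y => (F (a, y)).1 with hφ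
  have hφc : Continuous φ := by fun_prop
  have h1 : ∀ᶠ p in 𝓝 (w, t), φ (F p).1 ≤ φ (F (w, t)).1 :=
    (Continuous.tendsto (f := fun p => (F p).1) (by fun_prop) (w, t)).eventually h
  rw [nhds_prod_eq, eventually_prod_iff] at h1
  obtain ⟨pa, hpa, pb, hpb, h1⟩ := h1
  obtain ⟨⟨l, u⟩, ⟨hl, hu⟩, hU⟩ := (nhds_basis_Ioo w).eventually_iff.mp hpa
  simp only at hl hu hU
  have hw1 : ∃ w1 ∈ Ioo l u, φ w < φ w1 := by
    by_contra hcc
    push Not at hcc
    exact hc1 (mem_of_superset (Ioo_mem_nhds hl hu) hcc)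
  have hw2 : ∃ w2 ∈ Ioo l u, φ w2 < φ w := by
    by_contra hcc
    push Not at hcc
    exact hc2 (mem_of_superset (Ioo_mem_nhds hl hu) hcc)
  obtain ⟨w1, hw1, hw1'⟩ := hw1
  obtain ⟨w2, hw2, hw2'⟩ := hw2
  have hiv := isPreconnected_Ioo.intermediate_value hw2 hw1 hφc.continuousOn
  have h2 : ∀ᶠ p in 𝓝 (φ w, t), (F p).1 ≤ (F (φ w, t)).1 := by
    rw [nhds_prod_eq, eventually_prod_iff]
    refine ⟨fun s => s ∈ Icc (φ w2) (φ w1), Icc_mem_nhds hw2' hw1', pb, hpb, ?_⟩
    intro s hs t' ht'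
    obtain ⟨w', hw', rfl⟩ := hiv hs
    have := h1 (hU hw') ht'
    simp only [hφ] at this ⊢
    rwa [ass, ass]
  have hopen : IsOpenMap (fun p => (F p).1) := isOpenMap_fst.comp F.isOpenMap
  have h3 := hopen.image_mem_nhds h2
  obtain ⟨⟨l', u'⟩, ⟨hl', hu'⟩, hU'⟩ := (nhds_basis_Ioo _).mem_iff.mp h3
  simp only at hl' hu' hU'
  obtain ⟨v, hv1, hv2⟩ := exists_between hu'
  obtain ⟨p, hp, hp'⟩ := hU' ⟨hl'.trans hv1, hv2⟩
  simp only [mem_setOf_eq] at hp hp'
  linarith

lemma no_bump (a y1 y2 y3 : ℝ) (h12 : y1 < y2) (h23 : y2 < y3)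
    (b1 : (F (a, y1)).1 < (F (a, y2)).1) (b3 : (F (a, y3)).1 < (F (a, y2)).1) : False := by
  set φ : ℝ → ℝ := fun y => (F (a, y)).1 with hφ
  have hφc : Continuous φ := by fun_prop
  have nocol : ∀ b c, ¬ ∀ y, (F (b, y)).1 = c := by
    intro b c h
    have := col_all F ass b c h a
    rw [this, this] at b1
    exact lt_irrefl _ b1
  obtain ⟨m, hm, hmax⟩ := isCompact_Icc.exists_isMaxOn (nonempty_Icc.mpr (h12.trans h23).le)
    hφc.continuousOn
  have hm2 : φ y2 ≤ φ m := hmax ⟨h12.le, h23.le⟩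
  set Z : Set ℝ := {y | φ y = φ m} with hZ
  set P : Set ℝ := connectedComponentIn Z m with hP
  have hPZ : P ⊆ Z := connectedComponentIn_subset _ _
  have hmP : m ∈ P := mem_connectedComponentIn rfl
  have hPc : IsPreconnected P := isPreconnected_connectedComponentIn
  have hy1 : y1 ∉ P := fun h => by
    have : φ y1 = φ m := hPZ h
    change φ y1 < φ y2 at b1
    linarith
  have hy3 : y3 ∉ P := fun h => by
    have : φ y3 = φ m := hPZ h
    change φ y3 < φ y2 at b3
    linarith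
  have hPI : ∀ s ∈ P, y1 < s ∧ s < y3 := by
    intro s hs
    constructor
    · by_contra hc
      push Not at hc
      exact hy1 (hPc.Icc_subset hs hmP ⟨hc, hm.1⟩)
    · by_contra hc
      push Not at hc
      exact hy3 (hPc.Icc_subset hmP hs ⟨hm.2, hc⟩)
  have hPmax : ∀ s ∈ P, IsLocalMax φ s := by
    intro s hs
    have e : φ s = φ m := hPZ hs
    refine mem_of_superset (Icc_mem_nhds (hPI s hs).1 (hPI s hs).2) fun y hy => ?_
    change φ y ≤ φ s
    rw [e]; exact hmax hy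
  have hPcl : IsClosed P := by
    have hZc : IsClosed Z := isClosed_eq hφc continuous_const
    refine isClosed_of_closure_subset ?_
    exact hPc.closure.subset_connectedComponentIn (subset_closure hmP)
      (closure_minimal hPZ hZc)
  set A : Set (ℝ × ℝ) := {p | (F p).1 ∈ P} with hA
  have hAc : IsPreconnected A := by
    have : A = F.symm '' (P ×ˢ univ) := by
      ext p
      constructor
      · intro hp; exact ⟨F p, ⟨hp, trivial⟩, by simp⟩
      · rintro ⟨q, ⟨hq, -⟩, rfl⟩; simpa [hA] using hq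
    rw [this]
    exact (hPc.prod isPreconnected_univ).image _ F.symm.continuous.continuousOn
  set J : Set ℝ := Prod.fst '' A with hJ
  set N : Set ℝ := Prod.snd '' A with hN
  have hJc : IsPreconnected J := hAc.image _ continuous_fst.continuousOn
  have hJconst : ∀ w ∈ J, ∀ w' ∈ J, φ w = φ w' := by
    intro w hw w' hw'
    refine const_of_countable hJc hφc ((countable_extr φ).mono (image_mono ?_)) hw hw'
    rintro _ ⟨⟨w, t⟩, hp, rfl⟩
    exact extr_left F ass a w t (hPmax _ hp)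
  have hAJN : A = J ×ˢ N := by
    refine Subset.antisymm (fun p hp => ⟨⟨p, hp, rfl⟩, ⟨p, hp, rfl⟩⟩) ?_
    rintro ⟨w, t⟩ ⟨hw, ⟨w0, t0⟩, hp, rfl⟩
    have hw0 : w0 ∈ J := ⟨_, hp, rfl⟩
    have h1 : (fun w' => (F (w', t0)).1) '' J ⊆ Z := by
      rintro _ ⟨w', hw', rfl⟩
      have e1 : φ (F (w0, t0)).1 = φ m := hPZ hp
      have e2 := hJconst w' hw' w0 hw0
      change φ (F (w', t0)).1 = φ m
      simp only [hφ] at e1 e2 ⊢
      rw [← ass, e2, ass, e1]
    have h2 := (hJc.image (fun w' => (F (w', t0)).1) (by fun_prop)).subset_connectedComponentIn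
      ⟨w0, hw0, rfl⟩ h1
    rw [← connectedComponentIn_eq hp] at h2
    exact h2 ⟨w, hw, rfl⟩
  by_cases hJu : J = univ
  · have := hJconst y1 (hJu ▸ mem_univ _) y2 (hJu ▸ mem_univ _)
    change φ y1 < φ y2 at b1
    linarith
  by_cases hNu : N = univ
  · have hJ0 : J = {w | (F (w, 0)).1 ∈ P} := by
      ext w
      constructor
      · intro hw
        have : (w, (0 : ℝ)) ∈ A := hAJN ▸ ⟨hw, hNu ▸ mem_univ _⟩
        exact this
      · intro hw
        exact ⟨(w, 0), hw, rfl⟩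
    have hJcl : IsClosed J := hJ0 ▸ hPcl.preimage (f := fun w => (F (w, 0)).1) (by fun_prop)
    have hJne : J ≠ ∅ := Set.Nonempty.ne_empty ⟨_, F.symm (m, 0), by simpa [hA] using hmP, rfl⟩
    have hJo : ¬ IsOpen J := fun ho => by
      rcases isClopen_iff.mp ⟨hJcl, ho⟩ with h | h
      · exact hJne h
      · exact hJu h
    rw [isOpen_iff_mem_nhds] at hJo
    push Not at hJo
    obtain ⟨j, hj, hjn⟩ := hJo
    have hin : ∀ t, (F (j, t)).1 ∈ P := fun t => by
      have : (j, t) ∈ A := hAJN ▸ ⟨hj, hNu ▸ mem_univ _⟩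
      exact this
    have hnot : ∀ t, P ∉ 𝓝 (F (j, t)).1 := fun t ht => by
      apply hjn
      have := (Continuous.tendsto (f := fun w => (F (w, t)).1) (by fun_prop) j) ht
      exact mem_of_superset this fun w hw => ⟨(w, t), hw, rfl⟩
    have hlt : ∀ t t', ¬ (F (j, t)).1 < (F (j, t')).1 := by
      intro t t' h
      obtain ⟨v, hv1, hv2⟩ := exists_between h
      obtain ⟨t'', ht''⟩ := intermediate_value_univ t t' (f := fun t => (F (j, t)).1) (by fun_prop)
        ⟨hv1.le, hv2.le⟩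
      apply hnot t''
      simp only at ht''
      rw [ht'']
      exact mem_of_superset (Icc_mem_nhds hv1 hv2) (hPc.Icc_subset (hin t) (hin t'))
    exact nocol j (F (j, 0)).1 fun y => le_antisymm (not_lt.mp (hlt _ _)) (not_lt.mp (hlt _ _))
  have hB := compl_prod_preconnected hJu hNu
  rw [← hAJN] at hB
  have := hB.intermediate_value (a := F.symm (y1, 0)) (b := F.symm (y3, 0))
    (by simpa [hA] using hy1) (by simpa [hA] using hy3) (f := fun p => (F p).1) (by fun_prop)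
  obtain ⟨q, hq, hq2⟩ := this (show m ∈ _ by simpa using hm)
  apply hq
  simp only at hq2
  change (F q).1 ∈ P
  rw [hq2]; exact hmP

lemma no_dip (a y1 y2 y3 : ℝ) (h12 : y1 < y2) (h23 : y2 < y3)
    (b1 : (F (a, y2)).1 < (F (a, y1)).1) (b3 : (F (a, y2)).1 < (F (a, y3)).1) : False := by
  let G : ℝ × ℝ ≃ₜ ℝ × ℝ := ((Homeomorph.neg _).trans F).trans (Homeomorph.neg _)
  have hG : ∀ x y, (G (x, y)).1 = - (F (-x, -y)).1 := fun x y => rfl
  refine no_bump G (fun a b c => ?_) (-a) (-y3) (-y2) (-y1) (by linarith) (by linarith) ?_ ?_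
  · simp only [hG, neg_neg, ass]
  · simp only [hG, neg_neg]; linarith
  · simp only [hG, neg_neg]; linarith

lemma mono_or_anti (a : ℝ) :
    Monotone (fun y => (F (a, y)).1) ∨ Antitone (fun y => (F (a, y)).1) := by
  rw [monotone_or_antitone_iff_uIcc]
  have key : ∀ x y z, x ≤ z → z ≤ y → (F (a, z)).1 ∈ uIcc (F (a, x)).1 (F (a, y)).1 := by
    intro x y z h1 h2
    rcases h1.eq_or_lt with rfl | h1
    · exact left_mem_uIcc
    rcases h2.eq_or_lt with rfl | h2
    · exact right_mem_uIcc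
    rw [mem_uIcc]
    by_contra hc
    push Not at hc
    rcases le_or_gt (F (a, x)).1 (F (a, z)).1 with h3 | h3
    · have h4 := hc.1 h3
      have h5 := hc.2 h4.le
      exact no_bump F ass a x z y h1 h2 h5 h4
    · rcases le_or_gt (F (a, y)).1 (F (a, z)).1 with h4 | h4
      · have := hc.2 h4
        linarith
      · exact no_dip F ass a x z y h1 h2 h3 h4
  intro x y z hz
  rcases mem_uIcc.mp hz with h | h
  · exact key x y z h.1 h.2
  · rw [uIcc_comm]; exact key y x z h.1 h.2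

lemma mono_right (a : ℝ) : Monotone (fun y => (F (a, y)).1) := by
  by_cases hcol : ∃ b c, ∀ y, (F (b, y)).1 = c
  · obtain ⟨b, c, h⟩ := hcol
    intro x y _
    simp only [col_all F ass b c h]
    exact le_rfl
  have hboth : ∀ b, Monotone (fun y => (F (b, y)).1) → Antitone (fun y => (F (b, y)).1) → False := by
    intro b h1 h2
    refine hcol ⟨b, (F (b, 0)).1, fun y => ?_⟩
    rcases le_total y 0 with h | h
    · exact le_antisymm (h1 h) (h2 h)
    · exact le_antisymm (h2 h) (h1 h)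
  have c1 : IsClosed {b : ℝ | Monotone (fun y => (F (b, y)).1)} := by
    simp only [Monotone, setOf_forall]
    exact isClosed_iInter fun x => isClosed_iInter fun y => isClosed_iInter fun _ =>
      isClosed_le (by fun_prop) (by fun_prop)
  have c2 : IsClosed {b : ℝ | Antitone (fun y => (F (b, y)).1)} := by
    simp only [Antitone, setOf_forall]
    exact isClosed_iInter fun x => isClosed_iInter fun y => isClosed_iInter fun _ =>
      isClosed_le (by fun_prop) (by fun_prop)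
  have e : {b : ℝ | Monotone (fun y => (F (b, y)).1)} = {b : ℝ | Antitone (fun y => (F (b, y)).1)}ᶜ := by
    ext b
    exact ⟨fun h1 h2 => hboth b h1 h2, fun h => (mono_or_anti F ass b).resolve_right h⟩
  rcases isClopen_iff.mp ⟨c1, e ▸ c2.isOpen_compl⟩ with h | h
  · exfalso
    have han : ∀ b, Antitone (fun y => (F (b, y)).1) := fun b =>
      (mono_or_anti F ass b).resolve_left fun hb => (h ▸ hb : b ∈ (∅ : Set ℝ))
    refine hboth (F (0, 0)).1 ?_ (han _)
    simp only [ass]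
    exact (han 0).comp (han 0)
  · exact (h ▸ mem_univ a : a ∈ {b : ℝ | Monotone (fun y => (F (b, y)).1)})

lemma mono_fst : Monotone (fun p => (F p).1) := by
  rintro ⟨x, y⟩ ⟨x', y'⟩ ⟨h1, h2⟩
  have a1 := mono_right F ass x h2
  have a2 := mono_right ((Homeomorph.prodComm ℝ ℝ).trans F)
    (fun a b c => (ass c b a).symm) y' h1
  exact le_trans a1 a2

end semi

lemma mono_of_good (S : ℝ × ℝ → ℝ × ℝ) (hS : IsHomeomorph S)
    (h1 : ∀ a b c : ℝ, (S ((S (a, b)).1, c)).1 = (S (a, (S (b, c)).1)).1)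
    (h2 : ∀ a b c : ℝ, (S ((S (a, b)).2, c)).2 = (S (a, (S (b, c)).2)).2) : Monotone S := by
  intro p q h
  exact ⟨mono_fst (hS.homeomorph S) h1 h,
    mono_fst ((hS.homeomorph S).trans (Homeomorph.prodComm ℝ ℝ)) h2 h⟩

theorem main (L : List (ℝ × ℝ → ℝ × ℝ))
    (hL : ∀ S ∈ L, Continuous S ∧
          (∀ a b c : ℝ, (S ((S (a, b)).1, c)).1 = (S (a, (S (b, c)).1)).1) ∧
          (∀ a b c : ℝ, (S ((S (a, b)).2, c)).2 = (S (a, (S (b, c)).2)).2)) :
    Continuous (L.foldr (fun S R => S ∘ R) id) ∧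
    (IsHomeomorph (L.foldr (fun S R => S ∘ R) id) → Monotone (L.foldr (fun S R => S ∘ R) id)) := by
  induction L with
  | nil => exact ⟨continuous_id, fun _ => monotone_id⟩
  | cons S L ih =>
    obtain ⟨ih1, ih2⟩ := ih (fun S hS => hL S (List.mem_cons_of_mem _ hS))
    obtain ⟨c, a1, a2⟩ := hL S List.mem_cons_self
    simp only [List.foldr_cons]
    set R := L.foldr (fun S R => S ∘ R) id
    refine ⟨c.comp ih1, fun H => ?_⟩
    have hR : IsHomeomorph R := isHomeomorph_of_proper R H.injective.of_comp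
      (isProperMap_of_comp_of_t2 ih1 c H.isProperMap)
    have hS : IsHomeomorph S := by
      have : S = (S ∘ R) ∘ (hR.homeomorph R).symm := by
        funext p
        exact congrArg S ((hR.homeomorph R).apply_symm_apply p).symm
      rw [this]
      exact H.comp (hR.homeomorph R).symm.isHomeomorph
    exact (mono_of_good S hS a1 a2).comp (ih2 hR)

end Pool.Agent.H10.Plane
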