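import Pool.Agent.H10.Defin

open FirstOrder FirstOrder.Language MvPolynomial

namespace Pool.Agent.H10.PolyHom
open Pool.Agent.H10.Defin

section defs
variable {R : Type} [CommRing R] {n : ℕ}

def Rel (Q E c c' d s : R) : Prop :=
  ∃ q r, Q = q * r ∧ IsCoprime q r ∧ ¬ IsUnit q ∧ d ∣ E ∧ (s = 0 ∨ s ∣ E) ∧ q ∣ c - s ∧ q ∣ c' - d

def Step (b : Fin n → R) (F : R → R → Prop) (d s : R) : Prop :=
  s = 0 ∨ IsUnit s ∨ (∃ i, s = b i) ∨ ∃ d1 s1 d2 s2, F d1 s1 ∧ F d2 s2 ∧
    (d1 ∣ d ∧ ¬ d ∣ d1) ∧ (d2 ∣ d ∧ ¬ d ∣ d2) ∧ (s = s1 + s2 ∨ s = s1 * s2)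

def Gen (b : Fin n → R) : Prop :=
  ∀ f, ∃ Q E c c', (∀ d s, Rel Q E c c' d s → Step b (Rel Q E c c') d s) ∧ ∃ d, Rel Q E c c' d f

theorem df_gen [Ring.CompatibleRing R] : Df Language.ring fun b : Fin n → R => Gen b := by
  unfold Gen Step Rel
  repeat' first
    | exact T.var _ | exact T.zero | apply T.add | apply T.mul | apply T.sub
    | apply Df.eq | apply Df.dvd | apply Df.unit | apply Df.cop
    | apply Df.and | apply Df.or | apply Df.not | apply Df.imp
    | apply Df.ex | apply Df.all | (apply Df.finEx; intro)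

end defs

variable {k : Type} [Field k] {n : ℕ}

theorem sound {b : Fin n → MvPolynomial (Fin n) k} (h : Gen b) :
    Function.Surjective (aeval b : MvPolynomial (Fin n) k →ₐ[k] MvPolynomial (Fin n) k) := by
  intro f
  obtain ⟨Q, E, c, c', h1, d, h2⟩ := h f
  induction d using (wellFounded_dvdNotUnit (α := MvPolynomial (Fin n) k)).induction
    generalizing f with
  | _ d ih =>
    rcases h1 d f h2 with rfl | hu | ⟨i, rfl⟩ | ⟨d1, s1, d2, s2, a1, a2, b1, b2, e⟩
    · exact ⟨0, map_zero _⟩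
    · obtain ⟨r, -, rfl⟩ := isUnit_iff_eq_C_of_isReduced.1 hu
      exact ⟨C r, by simp⟩
    · exact ⟨X i, by simp⟩
    · obtain ⟨p1, rfl⟩ := ih d1 (dvdNotUnit_of_dvd_of_not_dvd b1.1 b1.2) s1 a1
      obtain ⟨p2, rfl⟩ := ih d2 (dvdNotUnit_of_dvd_of_not_dvd b2.1 b2.2) s2 a2
      rcases e with rfl | rfl
      · exact ⟨p1 + p2, map_add _ _ _⟩
      · exact ⟨p1 * p2, map_mul _ _ _⟩

theorem deg_pos {p : MvPolynomial (Fin n) k} (hp : p ≠ 0) (hu : ¬ IsUnit p) :
    1 ≤ p.totalDegree := by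
  by_contra h
  have h0 : p.totalDegree = 0 := by omega
  rw [totalDegree_eq_zero_iff_eq_C] at h0
  apply hu
  rw [h0] at hp ⊢
  exact (IsUnit.mk0 _ fun h => hp (by rw [h, C_0])).map C

theorem deg_pow {p : MvPolynomial (Fin n) k} (hp : Prime p) (m : ℕ) :
    m ≤ (p ^ m).totalDegree := by
  induction m with
  | zero => simp
  | succ m ih =>
    rw [pow_succ, totalDegree_mul_of_isDomain (pow_ne_zero _ hp.ne_zero) hp.ne_zero]
    have := deg_pos hp.ne_zero hp.not_isUnit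
    omega

theorem exists_prime (i : Fin n) {a : MvPolynomial (Fin n) k} (ha : a ≠ 0) :
    ∃ p, Prime p ∧ IsCoprime p a := by
  have hd : 1 ≤ (X i * a).totalDegree := by
    rw [totalDegree_mul_of_isDomain (X_ne_zero _) ha, totalDegree_X]; omega
  have key : ∀ r : k, 1 + X i * a ≠ C r := fun r h => by
    have : X i * a = C (r - 1) := by rw [map_sub, ← h]; simp
    rw [this, totalDegree_C] at hd
    omega
  obtain ⟨p, hp, q, hq⟩ := WfDvdMonoid.exists_irreducible_factor (a := 1 + X i * a)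
    (fun hu => by obtain ⟨r, -, h⟩ := isUnit_iff_eq_C_of_isReduced.1 hu; exact key r h)
    (by simpa using key 0)
  exact ⟨p, hp.prime, q, -X i, by linear_combination -hq⟩

theorem exists_primes (i : Fin n) {ι : Type} (s : Finset ι) :
    ∃ π : ι → MvPolynomial (Fin n) k, (∀ j ∈ s, Prime (π j)) ∧
      ∀ j ∈ s, ∀ l ∈ s, j ≠ l → IsCoprime (π j) (π l) := by
  classical
  induction s using Finset.induction_on with
  | empty => exact ⟨0, by simp, by simp⟩
  | insert a s ha ih =>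
    obtain ⟨π, h1, h2⟩ := ih
    obtain ⟨p, hp, hc⟩ := exists_prime i (a := ∏ j ∈ s, π j)
      (Finset.prod_ne_zero_iff.2 fun j hj => (h1 j hj).ne_zero)
    rw [IsCoprime.prod_right_iff] at hc
    have e : ∀ j ∈ s, Function.update π a p j = π j := fun j hj =>
      Function.update_of_ne (fun h : j = a => ha (h ▸ hj)) _ _
    refine ⟨Function.update π a p, fun j hj => ?_, fun j hj l hl hjl => ?_⟩
    · rcases Finset.mem_insert.1 hj with rfl | hj
      · simpa using hp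
      · rw [e j hj]; exact h1 j hj
    · rcases Finset.mem_insert.1 hj with hj' | hj' <;> rcases Finset.mem_insert.1 hl with hl' | hl'
      · exact absurd (hj'.trans hl'.symm) hjl
      · rw [e l hl', hj', Function.update_self]; exact hc l hl'
      · rw [e j hj', hl', Function.update_self]; exact (hc j hj').symm
      · rw [e j hj', e l hl']; exact h2 j hj' l hl' hjl

theorem crt {R ι : Type} [CommRing R] (s : Finset ι) (q x : ι → R)
    (h : ∀ j ∈ s, ∀ l ∈ s, j ≠ l → IsCoprime (q j) (q l)) : ∃ c, ∀ j ∈ s, q j ∣ c - x j := by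
  classical
  induction s using Finset.induction_on with
  | empty => exact ⟨0, by simp⟩
  | insert a s ha ih =>
    obtain ⟨c, hc⟩ := ih fun j hj l hl => h j (by simp [hj]) l (by simp [hl])
    obtain ⟨u, v, huv⟩ : IsCoprime (q a) (∏ j ∈ s, q j) := IsCoprime.prod_right fun j hj =>
      h a (by simp) j (by simp [hj]) fun e => ha (e ▸ hj)
    refine ⟨c * (u * q a) + x a * (v * ∏ j ∈ s, q j), fun j hj => ?_⟩
    rcases Finset.mem_insert.1 hj with rfl | hj
    · exact ⟨(c - x j) * u, by linear_combination x j * huv⟩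
    · obtain ⟨w, hw⟩ := Finset.dvd_prod_of_mem q hj
      obtain ⟨z, hz⟩ := hc j hj
      exact ⟨z + (x a - c) * v * w, by
        rw [hw] at huv ⊢; linear_combination hz + c * huv⟩

theorem code (i : Fin n) (F : Finset (MvPolynomial (Fin n) k × MvPolynomial (Fin n) k))
    (hF : ∀ p ∈ F, p.1 ≠ 0) : ∃ Q E c c', ∀ d s, Rel Q E c c' d s ↔ (d, s) ∈ F := by
  classical
  obtain ⟨π, h1, h2⟩ := exists_primes (k := k) i F
  set E := ∏ p ∈ F, p.1 * if p.2 = 0 then 1 else p.2 with hE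
  have E0 : E ≠ 0 := Finset.prod_ne_zero_iff.2 fun p hp =>
    mul_ne_zero (hF p hp) (by split_ifs with h <;> simp [h])
  set m := E.totalDegree + 1 with hm
  have h3 : ∀ j ∈ F, ∀ l ∈ F, j ≠ l → IsCoprime (π j ^ m) (π l ^ m) := fun j hj l hl h =>
    (h2 j hj l hl h).pow
  obtain ⟨c, hc⟩ := crt F (fun j => π j ^ m) Prod.snd h3
  obtain ⟨c', hc'⟩ := crt F (fun j => π j ^ m) Prod.fst h3
  have d1 : ∀ p ∈ F, p.1 ∣ E := fun p hp =>
    (dvd_mul_right _ _).trans (Finset.dvd_prod_of_mem _ hp)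
  have d2 : ∀ p ∈ F, p.2 = 0 ∨ p.2 ∣ E := fun p hp => by
    by_cases h : p.2 = 0
    · exact Or.inl h
    · refine Or.inr (dvd_trans ?_ (Finset.dvd_prod_of_mem _ hp))
      simp [h]
  have bd : ∀ s, s = 0 ∨ s ∣ E → s.totalDegree ≤ E.totalDegree := by
    rintro s (rfl | h)
    · simp
    · exact totalDegree_le_of_dvd_of_isDomain h E0
  have uq : ∀ j ∈ F, ∀ s t, s = 0 ∨ s ∣ E → t = 0 ∨ t ∣ E → π j ^ m ∣ s - t → s = t := by
    intro j hj s t hs ht h
    by_contra hne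
    have a1 := totalDegree_le_of_dvd_of_isDomain h (sub_ne_zero.2 hne)
    have a2 := deg_pow (h1 j hj) m
    have a3 := totalDegree_sub s t
    have a4 := bd s hs
    have a5 := bd t ht
    omega
  refine ⟨∏ j ∈ F, π j ^ m, E, c, c', fun d s => ⟨?_, fun hp => ?_⟩⟩
  · rintro ⟨q, r, e, hc1, hu, a1, a2, a3, a4⟩
    have Q0 : ∏ j ∈ F, π j ^ m ≠ 0 :=
      Finset.prod_ne_zero_iff.2 fun j hj => pow_ne_zero _ (h1 j hj).ne_zero
    obtain ⟨p, hp, hpq⟩ := WfDvdMonoid.exists_irreducible_factor hu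
      (left_ne_zero_of_mul (e ▸ Q0))
    obtain ⟨j, hj, hpj⟩ := (Prime.dvd_finsetProd_iff hp.prime _).1
      (e ▸ hpq.mul_right r : p ∣ ∏ j ∈ F, π j ^ m)
    have hjq : π j ∣ q :=
      ((hp.dvd_symm (h1 j hj).irreducible (hp.prime.dvd_of_dvd_pow hpj))).trans hpq
    have hjr : ¬ π j ∣ r := fun h => (h1 j hj).not_isUnit (hc1.isUnit_of_dvd' hjq h)
    have hq : π j ^ m ∣ q := (h1 j hj).pow_dvd_of_dvd_mul_right m hjr
      (e ▸ Finset.dvd_prod_of_mem (fun j => π j ^ m) hj)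
    have e1 : s = j.2 := uq j hj _ _ a2 (d2 j hj) (by
      have := dvd_sub (hc j hj) (hq.trans a3)
      rwa [sub_sub_sub_cancel_left] at this)
    have e2 : d = j.1 := uq j hj _ _ (Or.inr a1) (Or.inr (d1 j hj)) (by
      have := dvd_sub (hc' j hj) (hq.trans a4)
      rwa [sub_sub_sub_cancel_left] at this)
    rw [e1, e2]; exact hj
  · refine ⟨π (d, s) ^ m, ∏ j ∈ F.erase (d, s), π j ^ m,
      (Finset.mul_prod_erase F (fun j => π j ^ m) hp).symm, IsCoprime.prod_right fun j hj =>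
        h3 _ hp j (Finset.mem_of_mem_erase hj) (Finset.ne_of_mem_erase hj).symm,
      fun hu => (h1 _ hp).not_isUnit ((isUnit_pow_iff (by omega)).1 hu), d1 _ hp, d2 _ hp,
      hc _ hp, hc' _ hp⟩

theorem Step.mono {R : Type} [CommRing R] {b : Fin n → R} {F G : R → R → Prop}
    (h : ∀ d s, F d s → G d s) {d s : R} (hs : Step b F d s) : Step b G d s := by
  rcases hs with h1 | h1 | h1 | ⟨d1, s1, d2, s2, a1, a2, e⟩
  · exact Or.inl h1
  · exact Or.inr (Or.inl h1)
  · exact Or.inr (Or.inr (Or.inl h1))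
  · exact Or.inr (Or.inr (Or.inr ⟨d1, s1, d2, s2, h _ _ a1, h _ _ a2, e⟩))

theorem good (i : Fin n) (f : MvPolynomial (Fin n) k) :
    ∃ F : Finset (MvPolynomial (Fin n) k × MvPolynomial (Fin n) k), (∀ p ∈ F, p.1 ≠ 0) ∧
      (∀ d s, (d, s) ∈ F → Step X (fun d s => (d, s) ∈ F) d s) ∧ ∃ d, (d, f) ∈ F := by
  classical
  have base : ∀ g : MvPolynomial (Fin n) k, (∀ F, Step X F 1 g) →
      ∃ F : Finset (MvPolynomial (Fin n) k × MvPolynomial (Fin n) k), (∀ p ∈ F, p.1 ≠ 0) ∧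
      (∀ d s, (d, s) ∈ F → Step X (fun d s => (d, s) ∈ F) d s) ∧ ∃ d, (d, g) ∈ F :=
    fun g hg => ⟨{(1, g)}, by simp, fun d s h => by
      obtain ⟨rfl, rfl⟩ := Prod.mk.inj (Finset.mem_singleton.1 h); exact hg _, 1, by simp⟩
  have comb : ∀ g g1 g2 : MvPolynomial (Fin n) k, g = g1 + g2 ∨ g = g1 * g2 →
      (∃ F : Finset (MvPolynomial (Fin n) k × MvPolynomial (Fin n) k), (∀ p ∈ F, p.1 ≠ 0) ∧
      (∀ d s, (d, s) ∈ F → Step X (fun d s => (d, s) ∈ F) d s) ∧ ∃ d, (d, g1) ∈ F) →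
      (∃ F : Finset (MvPolynomial (Fin n) k × MvPolynomial (Fin n) k), (∀ p ∈ F, p.1 ≠ 0) ∧
      (∀ d s, (d, s) ∈ F → Step X (fun d s => (d, s) ∈ F) d s) ∧ ∃ d, (d, g2) ∈ F) →
      ∃ F : Finset (MvPolynomial (Fin n) k × MvPolynomial (Fin n) k), (∀ p ∈ F, p.1 ≠ 0) ∧
      (∀ d s, (d, s) ∈ F → Step X (fun d s => (d, s) ∈ F) d s) ∧ ∃ d, (d, g) ∈ F := by
    rintro g g1 g2 e ⟨F1, a1, a2, d1, a3⟩ ⟨F2, b1, b2, d2, b3⟩
    have z1 : d1 ≠ 0 := a1 _ a3
    have z2 : d2 ≠ 0 := b1 _ b3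
    have nd : ∀ x y : MvPolynomial (Fin n) k, x ≠ 0 → y ≠ 0 → ¬ x * (y * X i) ∣ x := by
      intro x y hx hy h
      have := totalDegree_le_of_dvd_of_isDomain h hx
      rw [totalDegree_mul_of_isDomain hx (mul_ne_zero hy (X_ne_zero _)),
        totalDegree_mul_of_isDomain hy (X_ne_zero _), totalDegree_X] at this
      omega
    refine ⟨insert (d1 * (d2 * X i), g) (F1 ∪ F2), fun p hp => ?_, fun d s h => ?_, _,
      Finset.mem_insert_self _ _⟩
    · rcases Finset.mem_insert.1 hp with rfl | hp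
      · exact mul_ne_zero z1 (mul_ne_zero z2 (X_ne_zero _))
      · exact (Finset.mem_union.1 hp).elim (a1 p) (b1 p)
    · rcases Finset.mem_insert.1 h with h | h
      · obtain ⟨rfl, rfl⟩ := Prod.mk.inj h
        refine Or.inr (Or.inr (Or.inr ⟨d1, g1, d2, g2, by simp [a3], by simp [b3],
          ⟨dvd_mul_right _ _, nd _ _ z1 z2⟩, ⟨⟨d1 * X i, by ring⟩, ?_⟩, e⟩))
        rw [mul_left_comm]; exact nd _ _ z2 z1
      · rcases Finset.mem_union.1 h with h | h
        · exact (a2 d s h).mono fun d s h => by simp [h]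
        · exact (b2 d s h).mono fun d s h => by simp [h]
  induction f using MvPolynomial.induction_on with
  | C a =>
    refine base _ fun F => ?_
    by_cases h : a = 0
    · exact Or.inl (by simp [h])
    · exact Or.inr (Or.inl ((IsUnit.mk0 a h).map C))
  | add p q hp hq => exact comb _ p q (Or.inl rfl) hp hq
  | mul_X p j hp =>
    exact comb _ p (X j) (Or.inr rfl) hp (base _ fun F => Or.inr (Or.inr (Or.inl ⟨j, rfl⟩)))

theorem complete (i : Fin n) : Gen (X : Fin n → MvPolynomial (Fin n) k) := by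
  intro f
  obtain ⟨F, h1, h2, d, h3⟩ := good i f
  obtain ⟨Q, E, c, c', h⟩ := code i F h1
  exact ⟨Q, E, c, c', fun d s hs => (h2 d s ((h d s).1 hs)).mono fun d s hs => (h d s).2 hs,
    d, (h d f).2 h3⟩

theorem hopf {R : Type} [CommRing R] [IsNoetherianRing R] (φ : R →+* R)
    (h : Function.Surjective φ) : Function.Injective φ := by
  let K : ℕ →o Ideal R := ⟨fun m => RingHom.ker (φ ^ m), monotone_nat_of_le_succ fun m x hx => by
    rw [RingHom.mem_ker] at hx ⊢
    rw [pow_succ', RingHom.mul_def, RingHom.comp_apply, hx, map_zero]⟩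
  obtain ⟨m, hm⟩ := monotone_stabilizes_iff_noetherian.2 inferInstance K
  rw [injective_iff_map_eq_zero]
  intro x hx
  have hs : Function.Surjective (φ ^ m) := by rw [RingHom.coe_pow]; exact h.iterate m
  obtain ⟨y, rfl⟩ := hs x
  have : y ∈ K (m + 1) := by
    change (φ ^ (m + 1)) y = 0
    rw [pow_succ', RingHom.mul_def, RingHom.comp_apply, hx]
  rw [← hm (m + 1) (by omega)] at this
  exact this

theorem term_poly {R : Type} [CommRing R] [Ring.CompatibleRing R] (p : MvPolynomial (Fin n) k) :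
    ∃ f : (Fin n ⊕ k → R) → R, T Language.ring f ∧ ∀ (φ : k →+* R) (y : Fin n → R),
      f (Sum.elim y φ) = eval₂ φ y p := by
  induction p using MvPolynomial.induction_on with
  | C a => exact ⟨_, T.var (Sum.inr a), fun φ y => by simp⟩
  | add p q hp hq =>
    obtain ⟨f, hf, h1⟩ := hp
    obtain ⟨g, hg, h2⟩ := hq
    exact ⟨_, hf.add hg, fun φ y => by simp [h1, h2]⟩
  | mul_X p j hp =>
    obtain ⟨f, hf, h1⟩ := hp
    exact ⟨_, hf.mul (T.var (Sum.inl j)), fun φ y => by simp [h1]⟩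

theorem main [Ring.CompatibleRing (MvPolynomial (Fin n) k)] {m : ℕ}
    (a b : Fin m → MvPolynomial (Fin n) k)
    (h : ∀ φ : Language.ring.Formula (Fin m ⊕ k),
      φ.Realize (Sum.elim a (algebraMap k (MvPolynomial (Fin n) k))) →
      φ.Realize (Sum.elim b (algebraMap k (MvPolynomial (Fin n) k)))) :
    ∃ σ : MvPolynomial (Fin n) k ≃ₐ[k] MvPolynomial (Fin n) k, ∀ i, σ (a i) = b i := by
  choose f hf h1 using fun j => term_poly (R := MvPolynomial (Fin n) k) (a j)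
  have hd : Df Language.ring fun v : Fin m ⊕ k → MvPolynomial (Fin n) k =>
      ∃ y : Fin n → MvPolynomial (Fin n) k, (∀ _ : Fin n, Gen y) ∧
        ∀ j, v (Sum.inl j) = f j (Sum.elim y fun c => v (Sum.inr c)) := by
    refine Df.exFun (Df.and (Df.finAll fun _ => df_gen.relabel _) (Df.finAll fun j =>
      (Df.eq (T.var _) ((hf j).relabel (Sum.elim Sum.inr fun c => Sum.inl (Sum.inr c)))).of_iff
        fun v => Eq.congr rfl ?_))
    congr 1
    funext x
    rcases x with x | x <;> rfl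
  obtain ⟨φ, hφ⟩ := hd
  obtain ⟨y, hy, hy'⟩ := (hφ _).1 (h φ ((hφ _).2 ⟨X, complete, fun j =>
    ((h1 j (algebraMap _ _) X).trans (eval₂_eta _)).symm⟩))
  have hs : Function.Surjective
      (aeval y : MvPolynomial (Fin n) k →ₐ[k] MvPolynomial (Fin n) k) := by
    rcases n with _ | n
    · intro p
      exact ⟨p, by rw [Subsingleton.elim y X, aeval_X_left_apply]⟩
    · exact sound (hy 0)
  refine ⟨AlgEquiv.ofBijective (aeval y) ⟨hopf (aeval y).toRingHom hs, hs⟩, fun j => ?_⟩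
  exact ((hy' j).trans (h1 j (algebraMap _ _) y)).symm

end Pool.Agent.H10.PolyHom
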