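import Pool.Agent.H10.Swindle

open Set Filter Topology

namespace Pool.Agent.H10.PosIso

section Bern

variable {K : Type*} [TopologicalSpace K] [CompactSpace K]

noncomputable def Q : ℕ → (ℕ → C(K, ℝ)) → (C(D, ℝ) →L[ℝ] C(K, ℝ))
  | 0, _ => (ContinuousLinearMap.const ℝ K).comp (ContinuousMap.evalCLM ℝ fun _ => false)
  | n + 1, φ =>
    (ContinuousLinearMap.mul ℝ C(K, ℝ) (φ 0)).comp ((Q n fun k => φ (k + 1)).comp (pre (cons true))) +
    (ContinuousLinearMap.mul ℝ C(K, ℝ) (1 - φ 0)).comp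
      ((Q n fun k => φ (k + 1)).comp (pre (cons false)))

lemma Q_zero (φ : ℕ → C(K, ℝ)) (f : C(D, ℝ)) (t : K) : Q 0 φ f t = f fun _ => false := rfl

lemma Q_succ (n : ℕ) (φ : ℕ → C(K, ℝ)) (f : C(D, ℝ)) (t : K) : Q (n + 1) φ f t =
    φ 0 t * Q n (fun k => φ (k + 1)) (f.comp (cons true)) t +
      (1 - φ 0 t) * Q n (fun k => φ (k + 1)) (f.comp (cons false)) t := rfl

def Adm (φ : ℕ → C(K, ℝ)) : Prop := ∀ k y, 0 ≤ φ k y ∧ φ k y ≤ 1

lemma Adm.shift {φ : ℕ → C(K, ℝ)} (h : Adm φ) : Adm fun k => φ (k + 1) := fun k y => h (k + 1) y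

lemma Q_near (n : ℕ) : ∀ (φ : ℕ → C(K, ℝ)), Adm φ → ∀ (f : C(D, ℝ)) (w ε : ℝ),
    (∀ x, |f x - w| ≤ ε) → ∀ t, |Q n φ f t - w| ≤ ε := by
  induction n with
  | zero => intro φ _ f w ε h t; exact h _
  | succ n ih =>
    intro φ hφ f w ε h t
    rw [Q_succ]
    exact conv_abs (hφ 0 t).1 (hφ 0 t).2
      (ih _ hφ.shift (f.comp (cons true)) w ε (fun x => h (cons true x)) _)
      (ih _ hφ.shift (f.comp (cons false)) w ε (fun x => h (cons false x)) _)

lemma Q_nonneg (n : ℕ) : ∀ (φ : ℕ → C(K, ℝ)), Adm φ → ∀ (f : C(D, ℝ)), (∀ x, 0 ≤ f x) →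
    ∀ t, 0 ≤ Q n φ f t := by
  induction n with
  | zero => intro φ _ f h t; exact h _
  | succ n ih =>
    intro φ hφ f h t
    rw [Q_succ]
    exact add_nonneg
      (mul_nonneg (hφ 0 t).1 (ih _ hφ.shift (f.comp (cons true)) (fun x => h (cons true x)) _))
      (mul_nonneg (sub_nonneg.2 (hφ 0 t).2)
        (ih _ hφ.shift (f.comp (cons false)) (fun x => h (cons false x)) _))

lemma Q_cauchy (n : ℕ) : ∀ (φ : ℕ → C(K, ℝ)), Adm φ → ∀ (f : C(D, ℝ)) (ε : ℝ) (m m' : ℕ),
    n ≤ m → n ≤ m' → Osc n f ε → ∀ t, |Q m φ f t - Q m' φ f t| ≤ 2 * ε := by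
  induction n with
  | zero =>
    intro φ hφ f ε m m' _ _ h t
    have h0 : ∀ x, |f x - f (fun _ => false)| ≤ ε := fun x => h _ _ fun k hk => absurd hk (by omega)
    have e1 := Q_near m φ hφ f _ ε h0 t
    have e2 := Q_near m' φ hφ f _ ε h0 t
    rw [abs_le] at *
    constructor <;> linarith [e1.1, e1.2, e2.1, e2.2]
  | succ n ih =>
    intro φ hφ f ε m m' hm hm' h t
    obtain ⟨m, rfl⟩ : ∃ k, m = k + 1 := ⟨m - 1, by omega⟩
    obtain ⟨m', rfl⟩ : ∃ k, m' = k + 1 := ⟨m' - 1, by omega⟩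
    have e1 := ih _ hφ.shift _ ε m m' (by omega) (by omega) (h.comp true) t
    have e2 := ih _ hφ.shift _ ε m m' (by omega) (by omega) (h.comp false) t
    have e3 := conv_abs (w := 0) (ε := 2 * ε) (hφ 0 t).1 (hφ 0 t).2 (by rwa [sub_zero])
      (by rwa [sub_zero])
      (u := Q m (fun k => φ (k + 1)) (f.comp (cons true)) t -
        Q m' (fun k => φ (k + 1)) (f.comp (cons true)) t)
      (v := Q m (fun k => φ (k + 1)) (f.comp (cons false)) t -
        Q m' (fun k => φ (k + 1)) (f.comp (cons false)) t)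
    rw [Q_succ, Q_succ]
    refine le_of_eq_of_le (congrArg abs ?_) e3
    ring

lemma Q_cauchySeq {φ : ℕ → C(K, ℝ)} (hφ : Adm φ) (f : C(D, ℝ)) :
    CauchySeq fun n => Q n φ f := by
  rw [Metric.cauchySeq_iff]
  intro ε hε
  obtain ⟨n, hn⟩ := exists_osc f (show 0 < ε / 4 by positivity)
  refine ⟨n, fun m hm m' hm' => ?_⟩
  have : dist (Q m φ f) (Q m' φ f) ≤ 2 * (ε / 4) :=
    (ContinuousMap.dist_le (by positivity)).2 fun t => Q_cauchy n φ hφ f _ m m' hm hm' hn t
  linarith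

def Supp (φ : ℕ → C(K, ℝ)) (y : K) (x : D) : Prop :=
  ∀ n, (x n = true → φ n y ≠ 0) ∧ (x n = false → φ n y ≠ 1)

lemma Q_supp (n : ℕ) : ∀ (φ : ℕ → C(K, ℝ)), Adm φ → ∀ (f : C(D, ℝ)) (w ε : ℝ) (y : K),
    Osc n f ε → (∀ x, Supp φ y x → f x = w) → |Q n φ f y - w| ≤ ε := by
  induction n with
  | zero =>
    intro φ _ f w ε y h hs
    classical
    have h1 : Supp φ y fun k => decide (φ k y = 1) := fun k => by
      refine ⟨fun hk => ?_, fun hk => ?_⟩
      · rw [of_decide_eq_true hk]; exact one_ne_zero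
      · exact of_decide_eq_false hk
    rw [Q_zero, ← hs _ h1]
    exact h _ _ fun k hk => absurd hk (by omega)
  | succ n ih =>
    intro φ hφ f w ε y h hs
    have hT : φ 0 y ≠ 0 → |Q n (fun k => φ (k + 1)) (f.comp (cons true)) y - w| ≤ ε := fun h0 =>
      ih _ hφ.shift _ w ε y (h.comp true) fun x hx => hs (cons true x) fun k => by
        cases k with
        | zero => exact ⟨fun _ => h0, fun hk => by simp at hk⟩
        | succ k => exact hx k
    have hF : φ 0 y ≠ 1 → |Q n (fun k => φ (k + 1)) (f.comp (cons false)) y - w| ≤ ε := fun h0 =>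
      ih _ hφ.shift _ w ε y (h.comp false) fun x hx => hs (cons false x) fun k => by
        cases k with
        | zero => exact ⟨fun hk => by simp at hk, fun _ => h0⟩
        | succ k => exact hx k
    rw [Q_succ]
    by_cases h0 : φ 0 y = 0
    · have := hF (by rw [h0]; exact zero_ne_one)
      rw [h0]; simpa using this
    by_cases h1 : φ 0 y = 1
    · have := hT h0
      rw [h1]; simpa using this
    exact conv_abs (hφ 0 y).1 (hφ 0 y).2 (hT h0) (hF h1)

theorem exists_op {φ : ℕ → C(K, ℝ)} (hφ : Adm φ) : ∃ A : C(D, ℝ) →L[ℝ] C(K, ℝ),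
    (∀ f : C(D, ℝ), (∀ x, 0 ≤ f x) → ∀ y, 0 ≤ A f y) ∧
    ∀ (f : C(D, ℝ)) (y : K) (w : ℝ), (∀ x, Supp φ y x → f x = w) → A f y = w := by
  choose g hg using fun f => cauchySeq_tendsto_of_complete (Q_cauchySeq hφ f)
  have hl : ∀ f t, Tendsto (fun n => Q n φ f t) atTop (𝓝 (g f t)) := fun f t =>
    ((continuous_eval_const t).tendsto _).comp (hg f)
  refine ⟨continuousLinearMapOfTendsto (fun n => Q n φ) (f := g) (tendsto_pi_nhds.2 hg),
    fun f hf y => ?_, fun f y w hw => ?_⟩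
  · exact ge_of_tendsto' (hl f y) fun n => Q_nonneg n φ hφ f hf y
  · refine tendsto_nhds_unique (hl f y) (Metric.tendsto_atTop.2 fun ε hε => ?_)
    obtain ⟨N, hN⟩ := exists_osc f (half_pos hε)
    refine ⟨N, fun n hn => ?_⟩
    rw [Real.dist_eq]
    linarith [Q_supp n φ hφ f w _ y (hN.mono hn) hw]

end Bern

/-- `C(X)` is positively complemented in `C(Y)`. -/
def PC (X Y : Type*) [TopologicalSpace X] [CompactSpace X] [TopologicalSpace Y] [CompactSpace Y] :
    Prop :=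
  ∃ (p : C(Y, ℝ) →L[ℝ] C(X, ℝ)) (i : C(X, ℝ) →L[ℝ] C(Y, ℝ)), (∀ b, p (i b) = b) ∧
    (∀ f : C(Y, ℝ), (∀ x, 0 ≤ f x) → ∀ y, 0 ≤ p f y) ∧
    ∀ f : C(X, ℝ), (∀ x, 0 ≤ f x) → ∀ y, 0 ≤ i f y

lemma PC.trans {X Y Z : Type*} [TopologicalSpace X] [CompactSpace X] [TopologicalSpace Y]
    [CompactSpace Y] [TopologicalSpace Z] [CompactSpace Z] (h1 : PC X Y) (h2 : PC Y Z) :
    PC X Z := by
  obtain ⟨p, i, h, hp, hi⟩ := h1
  obtain ⟨p', i', h', hp', hi'⟩ := h2
  refine ⟨p.comp p', i'.comp i, fun b => ?_, fun f hf => hp _ (hp' f hf), fun f hf => hi' _ (hi f hf)⟩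
  simp only [ContinuousLinearMap.comp_apply, h', h]

theorem pc_cantor (K : Type*) [MetricSpace K] [CompactSpace K] [Uncountable K] : PC D K := by
  obtain ⟨e, -, he, hinj⟩ := (isClosed_univ (X := K)).exists_nat_bool_injection_of_not_countable
    (by rw [countable_univ_iff]; exact not_countable)
  have hcl : ∀ (n : ℕ) (b : Bool), IsClosed (e '' {x | x n = b}) := fun n b =>
    ((isClosed_eq (continuous_apply n) continuous_const).isCompact.image he).isClosed
  have hex : ∀ n : ℕ, ∃ f : C(K, ℝ), EqOn f 0 (e '' {x | x n = false}) ∧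
      EqOn f 1 (e '' {x | x n = true}) ∧ ∀ x, f x ∈ Icc (0 : ℝ) 1 := fun n =>
    exists_continuous_zero_one_of_isClosed (hcl n false) (hcl n true) (by
      rw [disjoint_image_iff hinj, Set.disjoint_left]
      intro x h1 h2
      have h3 : x n = false := h1
      have h4 : x n = true := h2
      rw [h3] at h4
      exact absurd h4 (by simp))
  choose φ h0 h1 hφ using hex
  obtain ⟨A, hA, hA'⟩ := exists_op (φ := φ) fun k y => hφ k y
  refine ⟨pre ⟨e, he⟩, A, fun b => ?_, fun f hf y => hf _, hA⟩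
  ext x
  refine hA' b (e x) (b x) fun z hz => ?_
  congr 1
  funext n
  cases hx : x n
  · have := h0 n (mem_image_of_mem e hx)
    cases hz' : z n
    · rfl
    · exact absurd this ((hz n).1 hz')
  · have := h1 n (mem_image_of_mem e hx)
    cases hz' : z n
    · exact absurd this ((hz n).2 hz')
    · rfl

theorem pc_miljutin (K : Type*) [MetricSpace K] [CompactSpace K] [Nonempty K] : PC K D := by
  let z : ℕ → K := TopologicalSpace.denseSeq K
  have hz : DenseRange z := TopologicalSpace.denseRange_denseSeq K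
  let u : ℕ → K → ℝ := fun n y => (((Nat.unpair n).2 : ℝ) + 1) * dist y (z (Nat.unpair n).1)
  have hu : ∀ n, Continuous (u n) := fun n => by fun_prop
  let φ : ℕ → C(K, ℝ) := fun n => ⟨fun y => max 0 (min 1 (2 - u n y)), by
    have := hu n
    fun_prop⟩
  have hφ : Adm φ := fun k y => ⟨le_max_left _ _, max_le zero_le_one (min_le_left _ _)⟩
  let R : Set (D × K) := {w | ∀ n, (w.1 n = true → u n w.2 ≤ 2) ∧ (w.1 n = false → 1 ≤ u n w.2)}
  have hR : IsClosed R := by
    have : R = ⋂ n, (({w : D × K | w.1 n = false} ∪ {w | u n w.2 ≤ 2}) ∩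
        ({w : D × K | w.1 n = true} ∪ {w | 1 ≤ u n w.2})) := by
      ext w
      simp only [R, mem_iInter, mem_inter_iff, mem_union, Set.mem_ofPred_eq]
      refine forall_congr' fun n => ?_
      cases w.1 n <;> simp
    rw [this]
    refine isClosed_iInter fun n => IsClosed.inter (IsClosed.union ?_ ?_) (IsClosed.union ?_ ?_)
    · exact isClosed_eq (by fun_prop) continuous_const
    · exact isClosed_le ((hu n).comp continuous_snd) continuous_const
    · exact isClosed_eq (by fun_prop) continuous_const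
    · exact isClosed_le continuous_const ((hu n).comp continuous_snd)
  have hSR : ∀ y x, Supp φ y x → (x, y) ∈ R := fun y x h n => by
    refine ⟨fun hx => ?_, fun hx => ?_⟩
    · by_contra hc
      refine (h n).1 hx ?_
      change max 0 (min 1 (2 - u n y)) = 0
      exact max_eq_left ((min_le_right _ _).trans (by push Not at hc; linarith))
    · by_contra hc
      refine (h n).2 hx ?_
      change max 0 (min 1 (2 - u n y)) = 1
      rw [min_eq_left (by push Not at hc; linarith), max_eq_right zero_le_one]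
  have hfun : ∀ x y y', (x, y) ∈ R → (x, y') ∈ R → y = y' := fun x y y' h h' => by
    by_contra hne
    have hd : 0 < dist y y' := dist_pos.2 hne
    obtain ⟨m, hm⟩ := exists_nat_gt (3 / dist y y')
    have hm1 : (0 : ℝ) < m + 1 := by positivity
    obtain ⟨k, hk⟩ := hz.exists_dist_lt y (show 0 < 1 / ((m : ℝ) + 1) by positivity)
    have e1 : u (Nat.pair k m) y = ((m : ℝ) + 1) * dist y (z k) := by simp [u]
    have e2 : u (Nat.pair k m) y' = ((m : ℝ) + 1) * dist y' (z k) := by simp [u]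
    have e3 : ((m : ℝ) + 1) * dist y (z k) < 1 := by
      rw [lt_div_iff₀ hm1] at hk; linarith
    have e4 : x (Nat.pair k m) = true := by
      cases hx : x (Nat.pair k m)
      · have := (h _).2 hx
        change 1 ≤ u _ y at this
        linarith
      · rfl
    have e5 := (h' _).1 e4
    change u _ y' ≤ 2 at e5
    have e6 : dist y y' ≤ dist y (z k) + dist y' (z k) := dist_triangle_right _ _ _
    rw [div_lt_iff₀ hd] at hm
    nlinarith
  have hne : (Prod.fst '' R).Nonempty := by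
    classical
    obtain ⟨y⟩ := ‹Nonempty K›
    refine ⟨fun k => decide (φ k y = 1), mem_image_of_mem Prod.fst (hSR y _ fun k => ?_)⟩
    refine ⟨fun hk => ?_, fun hk => ?_⟩
    · rw [of_decide_eq_true hk]; exact one_ne_zero
    · exact of_decide_eq_false hk
  obtain ⟨ρ, hρ1, hρ2, hρ3⟩ := PiNat.exists_retraction_of_isClosed
    (isClosedMap_fst_of_compactSpace _ hR) hne
  have hex : ∀ x : D, ∃ y, (ρ x, y) ∈ R := fun x => by
    obtain ⟨w, hw, hw'⟩ : ρ x ∈ Prod.fst '' R := hρ2 ▸ mem_range_self x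
    exact ⟨w.2, by rw [← hw']; exact hw⟩
  choose ψ hψ using hex
  have hψc : Continuous ψ := by
    refine continuous_iff_isClosed.2 fun s hs => ?_
    have : ψ ⁻¹' s = ρ ⁻¹' (Prod.fst '' (R ∩ Prod.snd ⁻¹' s)) := by
      ext x
      refine ⟨fun hx => ⟨(ρ x, ψ x), ⟨hψ x, hx⟩, rfl⟩, ?_⟩
      rintro ⟨w, ⟨hw, hws⟩, hw'⟩
      have : ψ x = w.2 := hfun (ρ x) _ _ (hψ x) (by rw [← hw']; exact hw)
      rw [mem_preimage, this]
      exact hws
    rw [this]
    exact (isClosedMap_fst_of_compactSpace _ (hR.inter (hs.preimage continuous_snd))).preimage hρ3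
  obtain ⟨A, hA, hA'⟩ := exists_op hφ
  refine ⟨A, pre ⟨ψ, hψc⟩, fun b => ?_, hA, fun f hf y => hf _⟩
  ext y
  refine hA' _ y (b y) fun x hx => ?_
  have h1 := hSR y x hx
  have h2 := hψ x
  rw [hρ1 x (mem_image_of_mem Prod.fst h1)] at h2
  change b (ψ x) = b y
  rw [hfun x _ _ h2 h1]

section Steps

variable {K M : Type*} [TopologicalSpace K] [CompactSpace K] [T2Space K]
  [TopologicalSpace M] [CompactSpace M]

noncomputable def Cur : C(D × K, ℝ) ≃L[ℝ] C(D, C(K, ℝ)) where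
  toFun f := f.curry
  invFun g := g.uncurry
  map_add' _ _ := by ext; rfl
  map_smul' _ _ := by ext; rfl
  left_inv f := by ext x; rfl
  right_inv g := by ext x y; rfl
  continuous_toFun := ContinuousMap.continuous_curry
  continuous_invFun := ContinuousMap.continuous_uncurry

theorem steps (h : PC (D × K) M) :
    (∃ T : C(M, ℝ) ≃L[ℝ] C(K, ℝ) × C(M, ℝ), ∀ f : C(M, ℝ), (∀ x, 0 ≤ f x) →
      (∀ y, 0 ≤ (T f).1 y) ∧ ∀ y, 0 ≤ (T f).2 y) ∧
    ∃ S : (C(K, ℝ) × C(M, ℝ)) ≃L[ℝ] C(M, ℝ), ∀ z : C(K, ℝ) × C(M, ℝ), (∀ x, 0 ≤ z.1 x) →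
      (∀ x, 0 ≤ z.2 x) → ∀ y, 0 ≤ S z y := by
  obtain ⟨p0, i0, h0, hp0, hi0⟩ := h
  let p : C(M, ℝ) →L[ℝ] C(D, C(K, ℝ)) := (Cur (K := K) : _ →L[ℝ] _).comp p0
  let i : C(D, C(K, ℝ)) →L[ℝ] C(M, ℝ) := i0.comp (Cur (K := K).symm : _ →L[ℝ] _)
  have hpi : ∀ v, p (i v) = v := fun v => by
    change Cur (p0 (i0 (Cur.symm v))) = v
    rw [h0, ContinuousLinearEquiv.apply_symm_apply]
  have hp : ∀ f : C(M, ℝ), (∀ x, 0 ≤ f x) → ∀ x y, 0 ≤ p f x y := fun f hf x y => hp0 f hf (x, y)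
  have hi : ∀ v : C(D, C(K, ℝ)), (∀ x y, 0 ≤ v x y) → ∀ x, 0 ≤ i v x := fun v hv =>
    hi0 _ fun w => hv w.1 w.2
  let U : C(M, ℝ) →L[ℝ] C(K, ℝ) × C(M, ℝ) :=
    (((ContinuousMap.evalCLM ℝ e0)).prod (i.comp (pre ((cons false).comp rho)))).comp p
  have hU : ∀ f, U f = (p f e0, i ((p f).comp ((cons false).comp rho))) := fun _ => rfl
  let L : C(K, ℝ) × C(M, ℝ) →L[ℝ] C(M, ℝ) :=
    i.comp (glue.comp ((ContinuousLinearMap.const ℝ D).prodMap ((pre rho).comp p)))
  have hL : ∀ b g, L (b, g) = i (glue (ContinuousMap.const D b, (p g).comp rho)) := fun _ _ => rfl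
  have hLU : ∀ g, L (U g) = i ((p g).comp rho) := fun g => by
    rw [hU, hL, hpi]
    congr 1
    refine ContinuousMap.ext fun x => ?_
    obtain ⟨b, y, rfl⟩ := cons_cases x
    cases b
    · rw [glue_false]
      simp only [ContinuousMap.comp_apply, rho_rho, rho_false]
    · rw [glue_true]
      simp only [ContinuousMap.comp_apply, rho_true, ContinuousMap.const_apply]
  have h1 : ∀ b g, U (L (b, g)) = (b, L (U g)) := fun b g => by
    rw [hLU, hL, hU, hpi]
    refine Prod.ext ?_ ?_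
    · simp only [e0, glue_true, ContinuousMap.const_apply]
    · dsimp only
      congr 1
      refine ContinuousMap.ext fun x => ?_
      simp only [ContinuousMap.comp_apply, glue_false, rho_rho]
  have h2 : ∀ b g, L (b, L (U g)) = L (b, g) := fun b g => by
    rw [hLU, hL, hL, hpi]
    congr 3
    refine ContinuousMap.ext fun x => ?_
    simp only [ContinuousMap.comp_apply, rho_rho]
  have h3 : ∀ x, U (L (U x)) = U x := fun g => by
    rw [hLU, hU, hU, hpi]
    refine Prod.ext ?_ ?_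
    · simp only [ContinuousMap.comp_apply]
      rw [e0, rho_true, e0]
    · dsimp only
      congr 1
      refine ContinuousMap.ext fun x => ?_
      simp only [ContinuousMap.comp_apply, rho_false, rho_rho]
  obtain ⟨c, hc, T, hT⟩ := swindle_out U L h1 h2 h3
  obtain ⟨c', hc', S, hS⟩ := swindle_in U L h1 h2 h3
  refine ⟨⟨T, fun f hf => ⟨fun y => ?_, fun y => ?_⟩⟩, ⟨S, fun z hz1 hz2 y => ?_⟩⟩
  · rw [hT, Prod.fst_add, add_zero, Prod.smul_fst, hU]
    exact mul_nonneg hc.le (hp f hf _ _)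
  · rw [hT, Prod.snd_add, Prod.smul_snd, hU]
    exact add_nonneg (mul_nonneg hc.le (hi ((p f).comp ((cons false).comp rho))
      (fun x w => hp f hf (cons false (rho x)) w) y)) (hf _)
  · rw [hS]
    refine add_nonneg (mul_nonneg hc'.le ?_) (hz2 y)
    obtain ⟨b, g⟩ := z
    rw [hL]
    refine hi _ (fun x w => ?_) y
    obtain ⟨b', x', rfl⟩ := cons_cases x
    cases b'
    · exact hp g hz2 _ _
    · exact hz1 _

end Steps

theorem pc_gen (K M : Type*) [MetricSpace K] [CompactSpace K] [Nonempty K]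
    [MetricSpace M] [CompactSpace M] [Uncountable M] : PC (D × K) M := by
  letI : MetricSpace (D × K) := TopologicalSpace.metrizableSpaceMetric _
  exact (pc_miljutin (D × K)).trans (pc_cantor M)

theorem main (K L : Type*) [MetricSpace K] [CompactSpace K] [Uncountable K]
    [MetricSpace L] [CompactSpace L] [Uncountable L] :
    ∃ T : C(K, ℝ) ≃L[ℝ] C(L, ℝ), ∀ f : C(K, ℝ), (∀ x, 0 ≤ f x) → ∀ y, 0 ≤ T f y := by
  obtain ⟨T, hT⟩ := (steps (pc_gen L K)).1
  obtain ⟨S, hS⟩ := (steps (pc_gen K L)).2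
  refine ⟨(T.trans (ContinuousLinearEquiv.prodComm ℝ _ _)).trans S, fun f hf y => ?_⟩
  exact hS _ (hT f hf).2 (hT f hf).1 y

end Pool.Agent.H10.PosIso
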