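import Mathlib

namespace Pool.Agent.H10.Precol

open Cardinal Set

theorem rec_choice {J X : Type} (hJ : #J ≤ ℵ₁) (F : J → Set X) (hF : ∀ j, ¬ (F j).Countable)
    (av : J → J → X → Set X) (hav : ∀ i j y, (av i j y).Countable) :
    ∃ x : J → X, (∀ j, x j ∈ F j) ∧ ∀ i j, i ≠ j → x j ∉ av i j (x i) ∨ x i ∉ av j i (x j) := by
  obtain ⟨r, wo, hr⟩ := Cardinal.exists_ord_eq J
  have hc : ∀ j, {i | r i j}.Countable := fun j => by
    rw [countable_iff_lt_aleph_one]
    have := card_typein_lt (r := r) j hr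
    rw [Ordinal.card_typein] at this
    exact this.trans_le hJ
  have step : ∀ j (p : ∀ i, r i j → X), ∃ y, y ∈ F j ∧ ∀ i (h : r i j), y ∉ av i j (p i h) := by
    intro j p
    by_contra h
    push Not at h
    refine hF j ((Set.Countable.biUnion (hc j) fun i h => hav i j (p i h)).mono fun y hy => ?_)
    obtain ⟨i, hi, h2⟩ := h y hy
    exact mem_iUnion₂.mpr ⟨i, hi, h2⟩
  choose s hs using step
  let x : J → X := wo.wf.fix s
  have hx : ∀ j, x j = s j fun i _ => x i := fun j => wo.wf.fix_eq s j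
  refine ⟨x, fun j => hx j ▸ (hs j _).1, fun i j hij => ?_⟩
  rcases trichotomous_of r i j with h | h | h
  · left; rw [hx j]; exact (hs j fun i _ => x i).2 i h
  · exact absurd h hij
  · right; rw [hx i]; exact (hs i fun i _ => x i).2 j h

theorem absB {X G : Type} (act : G → X → X) (hinj : ∀ g, Function.Injective (act g))
    (hG : #G ≤ 𝔠) (W : Set X) (hW : #W = ℵ₁)
    (hmove : ∀ g, ¬ {w ∈ W | act g w ≠ w}.Countable)
    (hbad : #{g | ¬ {w ∈ W | act g w ∈ W}.Countable} ≤ ℵ₁) (hlt : (𝔠 : Cardinal.{0}) < 2 ^ ℵ₁)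
    (c0 : X → ZMod 2) :
    ∃ c : X → ZMod 2, (∀ x, x ∉ W → c x = c0 x) ∧ ∀ g, ∃ x, c (act g x) ≠ c x := by
  classical
  let Bd := {g | ¬ {w ∈ W | act g w ∈ W}.Countable}
  let h : Bd ⊕ W → X → X := Sum.elim (fun g => act g) fun _ => id
  have hh : ∀ j, Function.Injective (h j) := by
    rintro (g | t)
    exacts [hinj g, Function.injective_id]
  have hWu : ¬ W.Countable := by rw [countable_iff_lt_aleph_one, hW]; exact lt_irrefl _
  obtain ⟨x, hx1, hx2⟩ := rec_choice (J := Bd ⊕ W)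
    (by rw [mk_sum, lift_id, lift_id]; exact add_le_of_le aleph0_lt_aleph_one.le hbad hW.le)
    (Sum.elim (fun g => {w ∈ W | act g w ≠ w}) fun _ => W)
    (by rintro (g | t); exacts [hmove g, hWu])
    (fun i j y => {y, h i y} ∪ h j ⁻¹' {y})
    (fun i j y => ((Set.toFinite _).union ((Set.finite_singleton y).preimage
      (hh j).injOn)).countable)
  have hxW : ∀ j, x j ∈ W := by
    rintro (g | t)
    exacts [(hx1 (Sum.inl g)).1, hx1 (Sum.inr t)]
  have xinj : Function.Injective x := by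
    intro i j e
    by_contra hij
    rcases hx2 i j hij with h1 | h1
    · exact h1 (Or.inl (Or.inl e.symm))
    · exact h1 (Or.inl (Or.inl e))
  have hout : ∀ g : Bd, ¬ ∃ j, x j = act g (x (Sum.inl g)) := by
    rintro g ⟨j, e⟩
    by_cases hj : Sum.inl g = j
    · subst hj; exact (hx1 (Sum.inl g)).2 e.symm
    rcases hx2 _ j hj with h1 | h1
    · exact h1 (Or.inl (Or.inr e))
    · exact h1 (Or.inr e.symm)
  let c : (W → ZMod 2) → X → ZMod 2 := fun φ =>
    Function.extend x (Sum.elim (fun g : Bd => c0 (act g (x (Sum.inl g))) + 1) φ) c0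
  have c_out : ∀ φ y, y ∉ W → c φ y = c0 y := fun φ y hy =>
    Function.extend_apply' _ _ _ fun ⟨j, e⟩ => hy (e ▸ hxW j)
  by_contra hcon
  push Not at hcon
  have hcov : (univ : Set (W → ZMod 2)) ⊆
      ⋃ g : ↥Bdᶜ, {φ | ∀ y, c φ (act g y) = c φ y} := by
    intro φ _
    obtain ⟨g, hg⟩ := hcon (c φ) (c_out φ)
    refine mem_iUnion.mpr ⟨⟨g, fun hb => ?_⟩, hg⟩
    have h1 := hg (x (Sum.inl ⟨g, hb⟩))
    have h2 : c φ (act g (x (Sum.inl ⟨g, hb⟩))) = c0 (act g (x (Sum.inl ⟨g, hb⟩))) :=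
      Function.extend_apply' _ _ _ (hout ⟨g, hb⟩)
    have h3 : c φ (x (Sum.inl ⟨g, hb⟩)) = c0 (act g (x (Sum.inl ⟨g, hb⟩))) + 1 :=
      xinj.extend_apply _ _ _
    rw [h2, h3] at h1
    simp at h1
  have hsm : ∀ g : ↥Bdᶜ, #{φ | ∀ y, c φ (act g y) = c φ y} ≤ 𝔠 := by
    intro g
    have hc : {w ∈ W | act g w ∈ W}.Countable := not_not.mp g.2
    refine (mk_le_of_injective (f := fun (φ : {φ | ∀ y, c φ (act g y) = c φ y})
      (w : {w ∈ W | act g w ∈ W}) => c φ w) ?_).trans ?_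
    · intro φ ψ e
      ext t
      have h1 : c φ (x (Sum.inr t)) = φ.1 t := xinj.extend_apply _ _ _
      have h2 : c ψ (x (Sum.inr t)) = ψ.1 t := xinj.extend_apply _ _ _
      rw [← h1, ← h2]
      by_cases hw : act g (x (Sum.inr t)) ∈ W
      · exact congrFun e ⟨_, hxW _, hw⟩
      · rw [← φ.2, ← ψ.2, c_out _ _ hw, c_out _ _ hw]
    · rw [← power_def, mk_fintype (ZMod 2), ZMod.card, ← two_power_aleph0]
      exact power_le_power_left (by simp) (le_aleph0_iff_set_countable.mpr hc)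
  have h1 := (mk_le_mk_of_subset hcov).trans mk_iUnion_le_sum_mk
  have h2 := h1.trans (sum_le_sum _ _ hsm)
  rw [sum_const', mk_univ, ← power_def, mk_fintype (ZMod 2), ZMod.card, hW] at h2
  exact absurd (h2.trans (mul_le_of_le aleph0_le_continuum ((mk_set_le _).trans hG) le_rfl))
    (not_le.mpr (by exact_mod_cast hlt))

theorem cocF {ι A : Type} [AddCommGroup A] (δ : ι → FreeGroup ι → A) :
    ∃ C : FreeGroup ι → A, ∀ i γ, C (FreeGroup.of i * γ) = C γ + δ i γ := by
  let p : ι → Equiv.Perm (FreeGroup ι × A) := fun i =>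
    ⟨fun z => (FreeGroup.of i * z.1, z.2 + δ i z.1),
      fun z => ((FreeGroup.of i)⁻¹ * z.1, z.2 - δ i ((FreeGroup.of i)⁻¹ * z.1)),
      fun z => by simp, fun z => by simp⟩
  have hfst : ∀ γ (z : FreeGroup ι × A), (FreeGroup.lift p γ z).1 = γ * z.1 := by
    intro γ
    induction γ using FreeGroup.induction_on with
    | C1 => simp
    | of i => intro z; simp only [FreeGroup.lift_apply_of]; rfl
    | inv_of i _ => intro z; simp only [map_inv, FreeGroup.lift_apply_of]; rfl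
    | mul a b ha hb => intro z; simp [ha, hb, mul_assoc]
  refine ⟨fun γ => (FreeGroup.lift p γ (1, 0)).2, fun i γ => ?_⟩
  simp only [map_mul, Equiv.Perm.mul_apply, FreeGroup.lift_apply_of]
  show _ + δ i _ = _
  rw [hfst, mul_one]

end Pool.Agent.H10.Precol
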