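import Mathlib

namespace Pool.Agent.H10.QI
open SimpleGraph

/-- Cayley graphs for finite generating sets are quasi-isometric. -/
def QI (G H : Type) [Group G] [Group H] : Prop :=
  ∃ (S : Finset G) (T : Finset H), Subgroup.closure (S : Set G) = ⊤ ∧
    Subgroup.closure (T : Set H) = ⊤ ∧ ∃ (φ : G → H) (C : ℕ),
      (∀ g g', (mulCayley (T : Set H)).edist (φ g) (φ g') ≤
          C * (mulCayley (S : Set G)).edist g g' + C ∧
        (mulCayley (S : Set G)).edist g g' ≤ C * (mulCayley (T : Set H)).edist (φ g) (φ g') + C) ∧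
      ∀ h, ∃ g, (mulCayley (T : Set H)).edist (φ g) h ≤ C

theorem one {G : Type} [Group G] {S : Set G} {u v s : G} (hs : s ∈ S) (h : u * s = v ∨ u = v * s) :
    (mulCayley S).edist u v ≤ 1 :=
  edist_le_one_iff_adj_or_eq.2 <| (em (u = v)).symm.imp_left fun n =>
    (mulCayley_adj' S u v).2 ⟨n, s, hs, h⟩

theorem qi {G H : Type} [Group G] [Group H] (p : G →* H) (hp : Function.Surjective p)
    (S : Finset G) (hS : Subgroup.closure (S : Set G) = ⊤) (hk : ∀ g, p g = 1 → g = 1 ∨ g ∈ S) :
    QI G H := by
  classical
  refine ⟨S, S.image p, hS, ?_, p, 1, fun g g' => ⟨?_, ?_⟩, fun h => ?_⟩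
  · rw [Finset.coe_image, ← MonoidHom.map_closure, hS, Subgroup.map_top_of_surjective _ hp]
  · refine le_trans (le_iInf fun W => ?_) (by simp : (mulCayley (S : Set G)).edist g g' ≤ _)
    induction W with
    | nil => simp
    | cons a W ih =>
      obtain ⟨-, s, h1, h2⟩ := (mulCayley_adj' _ _ _).1 a
      refine SimpleGraph.edist_triangle.trans ((add_le_add (one (s := p s) (by simpa using ⟨s, h1, rfl⟩)
        (h2.imp (fun h => by simp [← h]) fun h => by simp [h])) ih).trans ?_)
      simp [add_comm]
  · have : ∀ x y (W : (mulCayley (S.image p : Set H)).Walk x y) u v, p u = x → p v = y →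
        (mulCayley (S : Set G)).edist u v ≤ W.length + 1 := fun x y W => by
      induction W with
      | nil =>
        intro u v h1 h2
        rcases hk (u⁻¹ * v) (by simp [h1, h2]) with h | h
        · simp [inv_mul_eq_one.1 h]
        · simpa using one h (.inl (by simp))
      | cons a W ih =>
        rintro u v rfl rfl
        obtain ⟨-, t, h1, h2⟩ := (mulCayley_adj' _ _ _).1 a
        obtain ⟨s, h3, rfl⟩ := Finset.mem_image.1 h1
        rcases h2 with h | h
        · refine SimpleGraph.edist_triangle.trans ((add_le_add (one (v := u * s) h3 (.inl rfl))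
            (ih _ _ (by simpa using h) rfl)).trans ?_)
          simp [add_comm]
        · refine SimpleGraph.edist_triangle.trans ((add_le_add (one (v := u * s⁻¹) h3 (.inr (by simp)))
            (ih _ _ (by simp [h]) rfl)).trans ?_)
          simp [add_comm]
    by_cases e : (mulCayley (S.image p : Set H)).edist (p g) (p g') = ⊤
    · simp [-Finset.coe_image, e]
    · obtain ⟨W, hW⟩ := exists_walk_of_edist_ne_top e
      simpa [-Finset.coe_image, hW] using this _ _ W _ _ rfl rfl
  · obtain ⟨g, rfl⟩ := hp h
    exact ⟨g, by simp⟩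

end Pool.Agent.H10.QI
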