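import Mathlib

/-! Every right alternative ring `A` embeds in a right alternative ring `B A` in which each nonzero
`n ∈ A` has `(x, y, n) ≠ 0` and `(n, x, y) = 0` for suitable `x, y`. -/

namespace Pool.Agent.H10.RAlt

variable (A : Type) [NonUnitalNonAssocRing A]

abbrev Z := AddCircle (1 : ℚ)

variable {A} in
/-- right multiplication on the unitization -/
def R (b : A) : ℤ × A →+ ℤ × A :=
  AddMonoidHom.mk' (fun y => (0, y.1 • b + y.2 * b)) fun y z => by
    ext <;> simp [add_smul, add_mul]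
    abel

def B := A × ((ℤ × A) →+ Z) × (ℤ × A) × Z

theorem R_add (b c : A) : R (b + c) = R b + R c := by
  refine AddMonoidHom.ext fun y => ?_
  ext <;> simp [R, mul_add]
  abel

theorem R_zero : R (0 : A) = 0 := AddMonoidHom.ext fun y => by simp [R]

noncomputable instance : NonUnitalNonAssocRing (B A) :=
  { (inferInstance : AddCommGroup (A × ((ℤ × A) →+ Z) × (ℤ × A) × Z)) with
    mul u v := (u.1 * v.1, u.2.1.comp (R v.1), R v.1 u.2.2.1, u.2.1 v.2.2.1)
    left_distrib u v w := Prod.ext (mul_add _ _ _) (Prod.ext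
      ((congrArg _ (R_add A _ _)).trans (AddMonoidHom.comp_add _ _ _))
      (Prod.ext (DFunLike.congr_fun (R_add A _ _) _) (map_add u.2.1 _ _)))
    right_distrib u v w := Prod.ext (add_mul _ _ _) (Prod.ext rfl (Prod.ext (map_add (R w.1) _ _) rfl))
    zero_mul u := Prod.ext (zero_mul _) (Prod.ext rfl (Prod.ext (map_zero (R u.1)) rfl))
    mul_zero u := Prod.ext (mul_zero _) (Prod.ext
      ((congrArg _ (R_zero A)).trans (AddMonoidHom.comp_zero _))
      (Prod.ext (DFunLike.congr_fun (R_zero A) _) (map_zero u.2.1))) }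

theorem mul_def (u v : B A) :
    u * v = (u.1 * v.1, u.2.1.comp (R v.1), R v.1 u.2.2.1, u.2.1 v.2.2.1) := rfl

theorem ralt (h : ∀ x y : A, x * y * y = x * (y * y)) (u v : B A) : u * v * v = u * (v * v) := by
  have e : ∀ b : A, (R b).comp (R b) = R (b * b) := fun b => AddMonoidHom.ext fun y => by
    simp [R, add_mul, h, smul_mul_assoc]
  exact Prod.ext (h _ _) (Prod.ext (congrArg u.2.1.comp (e _))
    (Prod.ext (DFunLike.congr_fun (e _) _) rfl))

noncomputable def j : A →ₙₐ[ℤ] B A where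
  toFun a := (a, 0)
  map_smul' c a := Prod.ext rfl (smul_zero c).symm
  map_zero' := rfl
  map_add' a b := Prod.ext rfl (add_zero _).symm
  map_mul' a b := Prod.ext rfl (Prod.ext rfl (Prod.ext (map_zero (R b)).symm rfl))

theorem key (n : A) (hn : n ≠ 0) : ∃ x y : B A, x * y * j A n - x * (y * j A n) ≠ 0 ∧
    j A n * x * y - j A n * (x * y) = 0 := by
  obtain ⟨c, hc⟩ := CharacterModule.exists_character_apply_ne_zero_of_ne_zero
    (show ((0, n) : ℤ × A) ≠ 0 by simpa using hn)
  refine ⟨(0, c, 0, 0), (0, 0, (1, 0), 0), fun e => hc ?_, sub_eq_zero.2 ?_⟩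
  · have := congrArg (fun u : B A => u.2.2.2) (sub_eq_zero.1 e)
    change c (R 0 0) = c (0, (1 : ℤ) • n + 0 * n) at this
    simpa using this.symm
  · simp [mul_def, j, R_zero]

theorem lift_j (a : ℕ → A) (f : FreeNonUnitalNonAssocAlgebra ℤ ℕ) :
    FreeNonUnitalNonAssocAlgebra.lift ℤ (j A ∘ a) f = j A (FreeNonUnitalNonAssocAlgebra.lift ℤ a f) :=
  DFunLike.congr_fun (show FreeNonUnitalNonAssocAlgebra.lift ℤ (j A ∘ a) =
    (j A).comp (FreeNonUnitalNonAssocAlgebra.lift ℤ a) from
      FreeNonUnitalNonAssocAlgebra.hom_ext ℤ fun _ => by simp) f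

end Pool.Agent.H10.RAlt
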