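import Mathlib

namespace Pool.Agent.H10.Rec
open MeasureTheory Set Filter Topology
open scoped ENNReal

/-- level weights -/
noncomputable def pw (k : ℕ) : ℝ≥0∞ := ENNReal.ofReal (4 / ((k + 4) * (k + 5)))

theorem pw_sum (n : ℕ) : ∑ k ∈ Finset.range n, pw k = ENNReal.ofReal (1 - 4 / (n + 4)) := by
  induction n with
  | zero => simp
  | succ n ih =>
    rw [Finset.sum_range_succ, ih, pw, ← ENNReal.ofReal_add]
    · congr 1; push_cast; field_simp; ring
    · rw [sub_nonneg, div_le_one (by positivity)]; linarith [(Nat.cast_nonneg n : (0 : ℝ) ≤ n)]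
    · positivity

theorem pw_tsum : ∑' k, pw k = 1 := by
  refine tendsto_nhds_unique (ENNReal.tendsto_nat_tsum pw) ?_
  simp only [pw_sum]
  have h : Tendsto (fun n : ℕ => (1 : ℝ) - 4 / (n + 4)) atTop (𝓝 (1 - 0)) :=
    (tendsto_const_nhds.div_atTop
      (tendsto_atTop_add_const_right _ _ tendsto_natCast_atTop_atTop)).const_sub 1
  simpa using ENNReal.tendsto_ofReal h

theorem pw_ne (k : ℕ) : pw k ≠ 0 := by
  simp only [pw, ne_eq, ENNReal.ofReal_eq_zero, not_le]; positivity

/-- level law -/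
noncomputable def pp : PMF ℕ := ⟨pw, ENNReal.summable.hasSum_iff.2 pw_tsum⟩

/-- law of level and sign -/
noncomputable def qq : PMF (ℕ × Bool) :=
  pp.bind fun k => (PMF.uniformOfFintype Bool).map (Prod.mk k)

theorem qq_lev (Q : Set ℕ) : qq.toMeasure {c | c.1 ∈ Q} = pp.toMeasure Q := by
  have : qq.map Prod.fst = pp := by
    simp only [qq, PMF.map_bind, PMF.map_comp]
    conv_rhs => rw [← PMF.bind_pure pp]
    congr 1
    funext k
    exact PMF.map_const _ _
  rw [← this, PMF.toMeasure_map_apply _ _ _ Measurable.of_discrete MeasurableSet.of_discrete]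
  rfl

theorem qq_lt (k : ℕ) : qq.toMeasure {c | c.1 < k} = ENNReal.ofReal (1 - 4 / (k + 4)) := by
  rw [← pw_sum]
  refine .trans ?_ ((qq_lev (Finset.range k : Finset ℕ)).trans (PMF.toMeasure_apply_finset _ _))
  simp

theorem qq_eq (k : ℕ) : qq.toMeasure {c | c.1 = k} = pw k :=
  (qq_lev {k}).trans (PMF.toMeasure_apply_singleton _ _ MeasurableSet.of_discrete)

/-- product law -/
noncomputable abbrev PP : Measure (ℕ → ℕ × Bool) := Measure.infinitePi fun _ => qq.toMeasure

/-- a repeated record -/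
def Bad (k i d : ℕ) : Set (ℕ → ℕ × Bool) :=
  Set.pi (Finset.range (i + d + 2)) fun j =>
    if j = i ∨ j = i + d + 1 then {c | c.1 = k} else {c | c.1 < k}

theorem bad (k : ℕ) : PP (⋃ i, ⋃ d, Bad k i d) ≤ 4⁻¹ * pw k := by
  have h : ∀ i d, PP (Bad k i d) = pw k ^ 2 * (ENNReal.ofReal (1 - 4 / (k + 4)) ^ i *
      ENNReal.ofReal (1 - 4 / (k + 4)) ^ d) := fun i d => by
    rw [Bad, Measure.infinitePi_pi _ (fun _ _ => MeasurableSet.of_discrete)]
    simp only [apply_ite, qq_lt, qq_eq]
    have h3 : (Finset.range (i + d + 2)).filter (fun j => j = i ∨ j = i + d + 1) =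
        {i, i + d + 1} := by
      ext j
      simp only [Finset.mem_filter, Finset.mem_range, Finset.mem_insert, Finset.mem_singleton]
      omega
    have h4 := Finset.card_filter_add_card_filter_not (s := Finset.range (i + d + 2))
      (fun j => j = i ∨ j = i + d + 1)
    rw [h3, Finset.card_pair (by omega), Finset.card_range] at h4
    rw [Finset.prod_ite, Finset.prod_const, Finset.prod_const, h3, Finset.card_pair (by omega),
      ← pow_add]
    congr 2
    omega
  refine (measure_iUnion_le _).trans ((ENNReal.tsum_le_tsum fun i => measure_iUnion_le _).trans ?_)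
  simp only [h, ENNReal.tsum_mul_left, ENNReal.tsum_mul_right, ENNReal.tsum_geometric]
  have hk : (0 : ℝ) ≤ k := Nat.cast_nonneg k
  have e : 1 - ENNReal.ofReal (1 - 4 / (k + 4)) = ENNReal.ofReal (4 / (k + 4)) := by
    rw [← ENNReal.ofReal_one, ← ENNReal.ofReal_sub _ (by
      rw [sub_nonneg, div_le_one (by positivity)]; linarith)]
    simp
  rw [e, ← ENNReal.ofReal_inv_of_pos (by positivity), pw, ← ENNReal.ofReal_pow (by positivity),
    ← ENNReal.ofReal_mul (by positivity), ← ENNReal.ofReal_mul (by positivity),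
    show (4⁻¹ : ℝ≥0∞) = ENNReal.ofReal 4⁻¹ by rw [ENNReal.ofReal_inv_of_pos (by norm_num)]; simp,
    ← ENNReal.ofReal_mul (by positivity)]
  refine ENNReal.ofReal_le_ofReal ?_
  field_simp
  nlinarith

/-- every initial segment has a unique maximal level, which is at least 2 and large -/
def Good (N : ℕ → ℕ) (ω : ℕ → ℕ × Bool) : Prop :=
  ∀ n, ∃ j ≤ n, 2 ≤ (ω j).1 ∧ n < N (ω j).1 ∧ ∀ i ≤ n, i ≠ j → (ω i).1 < (ω j).1

theorem good : ∃ N, ¬ ∀ᵐ ω ∂PP, ¬ Good N ω := by
  have hN : ∀ k : ℕ, ∃ n, ENNReal.ofReal (1 - 4 / ((k + 1 : ℕ) + 4)) ^ n ≤ 4⁻¹ * pw k := fun k =>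
    ((ENNReal.tendsto_pow_atTop_nhds_zero_of_lt_one (ENNReal.ofReal_lt_one.2 (by
      rw [sub_lt_self_iff]; positivity))).eventually (ge_mem_nhds (pos_iff_ne_zero.2
        (mul_ne_zero (by simp) (pw_ne k))))).exists
  choose N hN using hN
  refine ⟨N, fun h => ?_⟩
  let B (k n : ℕ) : Set (ℕ → ℕ × Bool) := Set.pi (Finset.range n) fun _ => {c | c.1 < k}
  have hB : ∀ k n, PP (B k n) = ENNReal.ofReal (1 - 4 / (k + 4)) ^ n := fun k n => by
    rw [Measure.infinitePi_pi _ (fun _ _ => MeasurableSet.of_discrete)]; simp [qq_lt]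
  have : PP univ ≤ PP (B 2 1 ∪ ((⋃ k, ⋃ i, ⋃ d, Bad k i d) ∪ ⋃ k, B (k + 1) (N k))) := by
    refine measure_mono_ae (h.mono fun ω hω _ => show ω ∈ B 2 1 ∪
      ((⋃ k, ⋃ i, ⋃ d, Bad k i d) ∪ ⋃ k, B (k + 1) (N k)) from ?_)
    by_contra hc
    simp only [mem_union, mem_iUnion, not_or, not_exists] at hc
    obtain ⟨h1, h2, h3⟩ := hc
    have u : ∀ n, ∃ j ≤ n, ∀ i ≤ n, i ≠ j → (ω i).1 < (ω j).1 := fun n => by
      induction n with
      | zero => exact ⟨0, le_rfl, fun i hi h => by omega⟩
      | succ n ih =>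
        obtain ⟨j, hj, r⟩ := ih
        rcases lt_trichotomy (ω (n + 1)).1 (ω j).1 with h | h | h
        · refine ⟨j, by omega, fun i hi e => ?_⟩
          rcases Nat.le_succ_iff.1 hi with h' | rfl
          exacts [r i h' e, h]
        · refine (h2 (ω j).1 j (n - j) fun i hi => ?_).elim
          simp only [Finset.coe_range, mem_Iio] at hi
          beta_reduce
          split_ifs with hc
          · rcases hc with rfl | rfl
            · rfl
            · rwa [show j + (n - j) + 1 = n + 1 by omega]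
          · exact r i (by omega) (by omega)
        · refine ⟨n + 1, le_rfl, fun i hi e => ?_⟩
          by_cases e' : i = j
          exacts [e' ▸ h, (r i (by omega) e').trans h]
    refine hω fun n => ?_
    obtain ⟨j, hj, r⟩ := u n
    have r' : ∀ i ≤ n, (ω i).1 ≤ (ω j).1 := fun i hi => by
      by_cases e : i = j
      exacts [e ▸ le_rfl, (r i hi e).le]
    refine ⟨j, hj, ?_, ?_, r⟩
    · by_contra h
      exact h1 fun i hi => by
        have := r' i (by simp at hi; omega)
        change (ω i).1 < 2; omega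
    · by_contra h
      exact h3 (ω j).1 fun i hi => by
        have := r' i (by simp at hi; omega)
        change (ω i).1 < (ω j).1 + 1; omega
  have s : ∑' k, 4⁻¹ * pw k = 4⁻¹ := by rw [ENNReal.tsum_mul_left, pw_tsum, mul_one]
  have t := (measure_univ (μ := PP)).ge.trans (this.trans ((measure_union_le _ _).trans
    (add_le_add (hB 2 1).le ((measure_union_le _ _).trans (add_le_add
    ((measure_iUnion_le _).trans ((ENNReal.tsum_le_tsum bad).trans s.le))
    ((measure_iUnion_le _).trans ((ENNReal.tsum_le_tsum fun k => (hB _ _).le.trans (hN k)).trans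
      s.le)))))))
  have := ENNReal.toReal_mono (by finiteness) t
  rw [ENNReal.toReal_add (by finiteness) (by finiteness), ENNReal.toReal_add (by finiteness)
    (by finiteness), pow_one, ENNReal.toReal_ofReal (by norm_num)] at this
  norm_num at this

/-- signed step -/
def st {G : Type} [Group G] (γ : ℕ → G) (c : ℕ × Bool) : G := if c.2 then γ c.1 else (γ c.1)⁻¹

theorem main : ∃ N, ∀ (G : Type) [Group G] [Countable G] [MeasurableSpace G]
    [DiscreteMeasurableSpace G] (γ : ℕ → G), Subgroup.closure (range γ) = ⊤ →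
    (∀ ω, Good N ω → ∃ P : Subsemigroup G, 1 ∉ P ∧
      ∀ n, ((List.range (n + 1)).map fun i => st γ (ω i)).prod ∈ P) →
    ∃ μ : PMF G, (∀ g, μ g⁻¹ = μ g) ∧ Subgroup.closure μ.support = ⊤ ∧
      ¬ ∀ᵐ ω ∂(Measure.infinitePi fun _ : ℕ => μ.toMeasure), Subsemigroup.closure
        (range fun k : ℕ => ((List.range (1 + k)).map ω).prod) = ⊤ := by
  obtain ⟨N, hN⟩ := good
  refine ⟨N, fun G _ _ _ _ γ h1 h2 => ⟨qq.map (st γ), fun g => ?_, ?_, fun h => hN ?_⟩⟩
  · have u : (PMF.uniformOfFintype Bool).map not = PMF.uniformOfFintype Bool := by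
      ext b; cases b <;> simp [PMF.map_apply]
    have e : (qq.map (st γ)).map Inv.inv = qq.map (st γ) := by
      simp only [qq, PMF.map_bind]
      congr 1; funext k
      conv_rhs => rw [← u]
      simp only [PMF.map_comp]
      congr 1; funext b; cases b <;> simp [st]
    conv_lhs => rw [← e]
    rw [PMF.map_apply, tsum_eq_single g fun b hb => if_neg fun h => hb (inv_injective h).symm]
    simp
  · rw [eq_top_iff, ← h1]
    refine Subgroup.closure_mono ?_
    rintro _ ⟨k, rfl⟩
    simp only [qq, PMF.mem_support_bind_iff, PMF.mem_support_map_iff]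
    exact ⟨(k, true), ⟨k, pw_ne k, true, PMF.mem_support_uniformOfFintype _, rfl⟩, rfl⟩
  · rw [← PMF.toMeasure_map _ _ Measurable.of_discrete, ← Measure.infinitePi_map_pi _
      fun _ => Measurable.of_discrete] at h
    refine (ae_of_ae_map (Measurable.aemeasurable (by fun_prop)) h).mono fun ω hω hg => ?_
    obtain ⟨P, p1, p2⟩ := h2 ω hg
    refine p1 ((Subsemigroup.closure_le.2 ?_ : _ ≤ P) (hω ▸ Subsemigroup.mem_top _))
    rintro _ ⟨k, rfl⟩
    simpa [add_comm] using p2 k

end Pool.Agent.H10.Rec
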