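import Pool.Agent.H10.Rec

namespace Pool.Agent.H10.Rec
open MeasureTheory Set

theorem sgn (ω : ℕ → ℕ × Bool) : ∃ ε : ℕ → Bool, ∀ j, (∀ i < j, (ω i).1 ≠ (ω j).1) →
    ε (ω j).1 = (ω j).2 := by
  classical
  refine ⟨fun k => if h : ∃ j, (ω j).1 = k then (ω (Nat.find h)).2 else true, fun j hj => ?_⟩
  have h : ∃ i, (ω i).1 = (ω j).1 := ⟨j, rfl⟩
  simp only [dif_pos h]
  rw [(Nat.find_eq_iff h).2 ⟨rfl, hj⟩]

theorem sumZ [MeasurableSpace (Multiplicative (ℤ →₀ ℤ))]
    [DiscreteMeasurableSpace (Multiplicative (ℤ →₀ ℤ))] :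
    ∃ μ : PMF (Multiplicative (ℤ →₀ ℤ)), (∀ g, μ g⁻¹ = μ g) ∧ Subgroup.closure μ.support = ⊤ ∧
      ¬ ∀ᵐ ω ∂(Measure.infinitePi fun _ : ℕ => μ.toMeasure), Subsemigroup.closure
        (range fun k : ℕ => ((List.range (1 + k)).map ω).prod) = ⊤ := by
  obtain ⟨N, hN⟩ := main
  let e := (Denumerable.eqv ℤ).symm
  have : Countable (Multiplicative (ℤ →₀ ℤ)) := inferInstanceAs (Countable (ℤ →₀ ℤ))
  refine hN _ (fun k => .ofAdd (Finsupp.single (e k) 1)) ?_ fun ω hω => ?_
  · rw [eq_top_iff]
    rintro g -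
    induction g using Multiplicative.rec with | ofAdd g =>
    induction g using Finsupp.induction_linear with
    | zero => exact one_mem _
    | add f g hf hg => exact mul_mem hf hg
    | single a b =>
      rw [show Finsupp.single a b = b • Finsupp.single (e (e.symm a)) 1 by simp, ofAdd_zsmul]
      exact zpow_mem (Subgroup.subset_closure (mem_range_self _)) _
  obtain ⟨ε, hε⟩ := sgn ω
  refine ⟨⟨{g | ∃ k, (∀ l > k, g.toAdd (e l) = 0) ∧
    0 < (if ε k then 1 else -1) * g.toAdd (e k)}, ?_⟩, by simp, fun n => ?_⟩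
  · rintro g g' ⟨k, z, p⟩ ⟨k', z', p'⟩
    rcases lt_trichotomy k k' with h | rfl | h
    · exact ⟨k', fun l hl => by simp [z l (h.trans hl), z' l hl], by simpa [z k' h] using p'⟩
    · exact ⟨k, fun l hl => by simp [z l hl, z' l hl], by
        simpa only [toAdd_mul, Finsupp.add_apply, mul_add] using add_pos p p'⟩
    · exact ⟨k, fun l hl => by simp [z' l (h.trans hl), z l hl], by simpa [z' k h] using p⟩
  obtain ⟨j, hj, -, -, r⟩ := hω n
  have s : ∀ c l, (st (fun k => Multiplicative.ofAdd (Finsupp.single (e k) (1 : ℤ))) c).toAdd (e l)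
      = if c.1 = l then if c.2 then 1 else -1 else 0 := fun c l => by
    unfold st; split_ifs <;> simp_all [Finsupp.single_apply]
  rw [show ∀ f : ℕ → Multiplicative (ℤ →₀ ℤ), ((List.range (n + 1)).map f).prod =
    ∏ i ∈ Finset.range (n + 1), f i from fun _ => rfl]
  refine ⟨(ω j).1, fun l hl => ?_, ?_⟩ <;> rw [toAdd_prod, Finsupp.finset_sum_apply] <;> simp only [s]
  · refine Finset.sum_eq_zero fun i hi => if_neg ?_
    by_cases h : i = j
    · rw [h]; omega
    · have := r i (by simp at hi; omega) h; omega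
  · rw [Finset.sum_eq_single j (fun i hi h => if_neg (r i (by simp at hi; omega) h).ne)
      (by simp; omega), hε j fun i hi => (r i (by omega) hi.ne).ne]
    cases (ω j).2 <;> simp

theorem tele {M C c : ℝ} (c0 : 0 < c) (c1 : c ≤ 1) (h : ∀ ε > 0, ∃ v : ℕ → ℝ, (∀ j, |v j| ≤ C) ∧
    M - (v 1 - v 0) ≤ ε ∧ ∀ j, c * (M - (v (j + 2) - v (j + 1))) ≤ M - (v (j + 1) - v j)) :
    M ≤ 0 := by
  by_contra hM
  push Not at hM
  obtain ⟨N, hN⟩ := exists_nat_gt (4 * C / M)
  obtain ⟨v, h1, h2, h3⟩ := h (c ^ N * (M / 2)) (by positivity)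
  have a : ∀ j, c ^ j * (M - (v (j + 1) - v j)) ≤ c ^ N * (M / 2) := fun j => by
    induction j with
    | zero => simpa using h2
    | succ j ih =>
      rw [pow_succ, mul_assoc]
      exact (mul_le_mul_of_nonneg_left (h3 j) (by positivity)).trans ih
  have b : ∀ j ≤ N, j * (M / 2) ≤ v j - v 0 := fun j hj => by
    induction j with
    | zero => simp
    | succ j ih =>
      have := ih (by omega)
      have : M - (v (j + 1) - v j) ≤ M / 2 := by
        by_contra hc
        push Not at hc
        have := (a j).trans (mul_le_mul_of_nonneg_right (pow_le_pow_of_le_one c0.le c1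
          (show j ≤ N by omega)) (by positivity))
        exact hc.not_ge (le_of_mul_le_mul_left this (by positivity))
      push_cast; linarith
  have := b N le_rfl
  rw [div_lt_iff₀ hM] at hN
  linarith [abs_le.1 (h1 N), abs_le.1 (h1 0)]

/-- Choquet-Deny -/
theorem cd {G : Type} [CommGroup G] (μ : PMF G) (hs : ∀ g, μ g⁻¹ = μ g)
    (hg : Subgroup.closure μ.support = ⊤)
    (f : G → ℝ) (C : ℝ) (hC : ∀ g, |f g| ≤ C) (hf : ∀ g, f g = ∑' h, (μ h).toReal * f (g * h))
    (g : G) : f g = f 1 := by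
  have s1 : HasSum (fun h => (μ h).toReal) 1 := by
    simpa [← ENNReal.tsum_toReal_eq μ.apply_ne_top] using ENNReal.hasSum_toReal (f := μ) (by simp)
  have s : ∀ g, Summable fun h => (μ h).toReal * f (g * h) := fun g =>
    .of_norm_bounded (s1.summable.mul_right C) fun h => by
      rw [norm_mul, Real.norm_of_nonneg ENNReal.toReal_nonneg]
      exact mul_le_mul_of_nonneg_left (hC _) ENNReal.toReal_nonneg
  have k : ∀ a ∈ μ.support, ∀ g, f (g * a) ≤ f g := fun a ha => by
    have b : BddAbove (range fun g => f (g * a) - f g) := ⟨C + C, by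
      rintro _ ⟨g, rfl⟩; linarith [abs_le.1 (hC g), abs_le.1 (hC (g * a))]⟩
    have := tele (M := ⨆ g, f (g * a) - f g) (C := C) (c := (μ a).toReal)
      (ENNReal.toReal_pos ha (μ.apply_ne_top a)) (by
        simpa using ENNReal.toReal_mono (by simp) (μ.coe_le_one a)) fun ε hε => by
        obtain ⟨g, hg⟩ := exists_lt_of_lt_ciSup (sub_lt_self (⨆ g, f (g * a) - f g) hε)
        refine ⟨fun j => f (g * a ^ j), fun j => hC _, by simp; linarith, fun j => ?_⟩
        simp only [pow_succ, ← mul_assoc]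
        generalize g * a ^ j = x
        have := (s1.mul_right (⨆ g, f (g * a) - f g)).sub ((s (x * a)).hasSum.sub (s x).hasSum)
        rw [← hf, ← hf, one_mul] at this
        simp only [← mul_sub] at this
        refine le_hasSum this a fun h _ => mul_nonneg ENNReal.toReal_nonneg (sub_nonneg.2 ?_)
        rw [mul_right_comm]; exact le_ciSup b (x * h)
    exact fun g => sub_nonpos.1 ((le_ciSup b g).trans this)
  have : ∀ a ∈ Subgroup.closure μ.support, ∀ g, f (g * a) ≤ f g := fun a ha => by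
    induction ha using Subgroup.closure_induction'' with
    | one => simp
    | mem a ha => exact k a ha
    | inv_mem a ha => exact k _ (by rwa [PMF.mem_support_iff, hs])
    | mul a b _ _ ha hb => exact fun g => by rw [← mul_assoc]; exact (hb _).trans (ha g)
  exact le_antisymm (by simpa using this g (by simp [hg]) 1) (by simpa using this g⁻¹ (by simp [hg]) g)

end Pool.Agent.H10.Rec
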