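import Pool.Agent.H10.Rec2

namespace Pool.Agent.H10.Rec
open MeasureTheory Set

theorem conv (ψ : ℤ → ℝ) (C : ℝ) (hC : ∀ k, |ψ k| ≤ C) (h : ∀ k, 2 * ψ k ≤ ψ (k + 1) + ψ (k - 1))
    (k : ℤ) : ψ k = ψ 0 := by
  have a : ∀ ψ : ℤ → ℝ, (∀ k, |ψ k| ≤ C) → (∀ k, 2 * ψ k ≤ ψ (k + 1) + ψ (k - 1)) →
      ∀ k, ψ (k + 1) ≤ ψ k := fun ψ hC h k => sub_nonpos.1 <|
    tele (C := C) one_pos le_rfl fun ε hε => ⟨fun j => ψ (k + j), fun j => hC _, by simp [hε.le],
      fun j => by
        have := h (k + j + 1)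
        push_cast
        rw [add_sub_cancel_right, add_assoc _ 1, one_add_one_eq_two, add_assoc, add_assoc] at this
        linarith⟩
  have b : ∀ k, ψ (k + 1) = ψ k := fun k => le_antisymm (a ψ hC h k) (by
    have := a (fun k => ψ (-k)) (fun k => hC _) (fun k => by
      have := h (-k)
      rw [neg_add', neg_sub, sub_eq_neg_add 1]; linarith) (-(k + 1))
    simpa using this)
  induction k with
  | zero => rfl
  | succ k ih => rw [b, ih]
  | pred k ih => rw [← b, sub_add_cancel, ih]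

theorem liou {G : Type} [Group G] (π : G →* Multiplicative ℤ) (a t : G) (ha : π a = 1)
    (ht : π t = .ofAdd 1) (hc : ∀ g, π g = 1 → g * a = a * g) (hg : Subgroup.closure {a, t} = ⊤)
    (f : G → ℝ) (C : ℝ) (hC : ∀ g, |f g| ≤ C)
    (hf : ∀ g, 4 * f g = f (g * a) + f (g * a⁻¹) + f (g * t) + f (g * t⁻¹)) (g : G) :
    f g = f 1 := by
  have k : ∀ b, (b = a ∨ b = a⁻¹) → ∀ x, f (x * b) ≤ f x := fun b hb x => by
    have b1 : π b = 1 := by rcases hb with rfl | rfl <;> simp [ha]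
    have b2 : ∀ g, π g = 1 → b * g = g * b := fun g h => by
      rcases hb with rfl | rfl
      exacts [(hc g h).symm, (Commute.inv_right (hc g h)).symm]
    set D := fun g => f (x * (b * g)) - f (x * g) with hD
    have d1 : ∀ g, |D g| ≤ C + C := fun g => (abs_sub _ _).trans (add_le_add (hC _) (hC _))
    have d2 : ∀ g, 4 * D g = D (g * a) + D (g * a⁻¹) + D (g * t) + D (g * t⁻¹) := fun g => by
      simp only [hD, mul_sub, hf, mul_assoc]; ring
    have n : ∀ k : ℤ, Nonempty {g // π g = .ofAdd k} := fun k =>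
      ⟨⟨t ^ k, by simp [ht, ← ofAdd_zsmul]⟩⟩
    let ψ (k : ℤ) := ⨆ g : {g // π g = .ofAdd k}, D g
    have p : ∀ g k, π g = .ofAdd k → D g ≤ ψ k := fun g k h =>
      le_ciSup (f := fun g : {g // π g = .ofAdd k} => D g) ⟨C + C, by
        rintro _ ⟨g, rfl⟩; exact (abs_le.1 (d1 g)).2⟩ ⟨g, h⟩
    have q := conv ψ (C + C) (fun k => abs_le.2 ⟨(abs_le.1 (d1 _)).1.trans (p _ k (n k).some.2),
      ciSup_le fun g => (abs_le.1 (d1 _)).2⟩) fun k => by
        have : ψ k ≤ (2 * ψ k + ψ (k + 1) + ψ (k - 1)) / 4 := ciSup_le fun g => by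
          linarith [d2 g, p (g * a) k (by simp [g.2, ha]), p (g * a⁻¹) k (by simp [g.2, ha]),
            p (g * t) (k + 1) (by simp [g.2, ht, ofAdd_add]),
            p (g * t⁻¹) (k - 1) (by simp [g.2, ht, ofAdd_sub, div_eq_mul_inv])]
        linarith
    have r : ∀ g, D g ≤ ψ 0 := fun g => q (π g).toAdd ▸ p g _ rfl
    have := tele (M := ψ 0) (C := C) (c := 4⁻¹) (by norm_num) (by norm_num) fun ε hε => by
      obtain ⟨g, hg⟩ := exists_lt_of_lt_ciSup (sub_lt_self (ψ 0) hε)
      have e : ∀ j : ℕ, f (x * (g * b ^ (j + 1))) - f (x * (g * b ^ j)) = D (g * b ^ j) := fun j => by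
        simp only [hD]; rw [b2 _ (by simp [g.2, b1]), pow_succ, mul_assoc]
      refine ⟨fun j => f (x * (g * b ^ j)), fun j => hC _, ?_, fun j => ?_⟩
      · simp only; rw [e 0]; simp only [pow_zero, mul_one]; linarith
      · simp only; rw [e, e, pow_succ, ← mul_assoc]
        generalize g.1 * b ^ j = y
        rcases hb with e | e <;> rw [e] <;>
          linarith [d2 y, r (y * a), r (y * a⁻¹), r (y * t), r (y * t⁻¹)]
    simpa [hD] using (r 1).trans this
  have k1 : ∀ x, f (x * a) = f x := fun x => le_antisymm (k a (.inl rfl) x) (by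
    simpa using k _ (.inr rfl) (x * a))
  have k2 : ∀ x, f (x * t) = f x := fun x => by
    simpa using conv (fun k => f (x * t ^ k)) C (fun _ => hC _) (fun k => by
      have := hf (x * t ^ k)
      have e := k1 (x * t ^ k * a⁻¹)
      rw [inv_mul_cancel_right] at e
      rw [k1, ← e] at this
      simp only [zpow_add_one, zpow_sub_one, ← mul_assoc]; linarith) 1
  have : ∀ y ∈ Subgroup.closure {a, t}, ∀ x, f (x * y) = f x := fun y hy => by
    induction hy using Subgroup.closure_induction with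
    | one => simp
    | mem y hy => rcases hy with rfl | rfl; exacts [k1, k2]
    | inv y _ hy => exact fun x => by rw [← hy, inv_mul_cancel_right]
    | mul y z _ _ hy hz => exact fun x => by rw [← mul_assoc, hz, hy]
  simpa using this g (by simp [hg]) 1

/-- a parameter in the interval from one to two -/
noncomputable def u : C(ℕ → Bool, ℝ) :=
  ⟨fun s => 1 + (cantorSetHomeomorphNatToBool.symm s).1, by fun_prop⟩

theorem u12 (s : ℕ → Bool) : 1 ≤ u s ∧ u s ≤ 2 := by
  have := cantorSet_subset_unitInterval (cantorSetHomeomorphNatToBool.symm s).2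
  constructor <;> simp only [u, ContinuousMap.coe_mk] <;> linarith [this.1, this.2]

theorem upow (s : ℕ → Bool) {k : ℤ} {n : ℕ} (h : k ≤ n) : u s ^ k ≤ 2 ^ n :=
  (zpow_le_zpow_right₀ (u12 s).1 h).trans (by
    rw [zpow_natCast]; exact pow_le_pow_left₀ (by linarith [u12 s]) (u12 s).2 n)

/-- families of affine maps -/
@[ext] structure A where
  k : ℤ
  f : (ℕ → Bool) → ℝ

noncomputable instance : Mul A := ⟨fun x y => ⟨x.k + y.k, fun s => x.f s + u s ^ x.k * y.f s⟩⟩
instance : One A := ⟨⟨0, 0⟩⟩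
noncomputable instance : Inv A := ⟨fun x => ⟨-x.k, fun s => -(u s ^ (-x.k) * x.f s)⟩⟩
@[simp] theorem mk (x y : A) : (x * y).k = x.k + y.k := rfl
@[simp] theorem mf (x y : A) (s) : (x * y).f s = x.f s + u s ^ x.k * y.f s := rfl
@[simp] theorem ik (x : A) : x⁻¹.k = -x.k := rfl
@[simp] theorem if' (x : A) (s) : x⁻¹.f s = -(u s ^ (-x.k) * x.f s) := rfl
@[simp] theorem ok : (1 : A).k = 0 := rfl
@[simp] theorem of' (s) : (1 : A).f s = 0 := rfl

noncomputable instance : Group A := Group.ofLeftAxioms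
  (fun x y z => by
    ext s
    · simp [add_assoc]
    · simp [zpow_add₀ (show u s ≠ 0 by linarith [u12 s])]; ring)
  (fun x => by ext <;> simp) (fun x => by ext <;> simp)

theorem heavy {G : Type} [Group G] (φ : G →* A) (a t : G) (ha : φ a = ⟨0, 1⟩) (ht : φ t = ⟨1, 0⟩)
    (i : ℕ) (B : ℝ) : ∃ (h : G) (H : ℝ), (φ h).k = 0 ∧ ∀ s, |(φ h).f s| ≤ H ∧
      B ≤ (if s i then 1 else -1) * (φ h).f s := by
  obtain ⟨⟨g, hg⟩, h⟩ := ContinuousMap.exists_mem_subalgebra_near_continuous_of_separatesPoints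
    (Algebra.adjoin ℝ {u}) (fun x y hxy => ⟨_, ⟨u, Algebra.subset_adjoin rfl, rfl⟩, fun h =>
      hxy (cantorSetHomeomorphNatToBool.symm.injective (Subtype.ext (add_left_cancel h)))⟩)
    (fun s => if s i then 1 else -1)
    ((continuous_of_discreteTopology (f := fun b : Bool => if b then (1 : ℝ) else -1)).comp
      (continuous_apply i)) 2⁻¹ (by norm_num)
  have p : ∀ (m : ℤ) (n : ℕ), ∃ h : G, φ h = ⟨0, fun s => m * u s ^ n⟩ := fun m n => by
    induction n with
    | zero =>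
      induction m with
      | zero => exact ⟨1, by ext <;> simp⟩
      | succ m ih => obtain ⟨h, e⟩ := ih; exact ⟨h * a, by ext <;> simp [e, ha]⟩
      | pred m ih => obtain ⟨h, e⟩ := ih; exact ⟨h * a⁻¹, by ext <;> simp [e, ha, sub_eq_add_neg]⟩
    | succ n ih => obtain ⟨h, e⟩ := ih; exact ⟨t * h * t⁻¹, by ext <;> simp [e, ht]; ring⟩
  have : ∃ E, ∀ N : ℝ, ∃ h : G, (φ h).k = 0 ∧ ∀ s, |N * g s - (φ h).f s| ≤ E := by
    clear h
    rw [← Subalgebra.mem_toSubmodule, Algebra.adjoin_eq_span] at hg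
    induction hg using Submodule.span_induction with
    | mem g hg =>
      obtain ⟨n, rfl⟩ := Submonoid.mem_closure_singleton.1 hg
      refine ⟨2 ^ n, fun N => ?_⟩
      obtain ⟨h, e⟩ := p ⌊N⌋ n
      refine ⟨h, by rw [e], fun s => ?_⟩
      have := upow s (le_refl (n : ℤ))
      have := (u12 s).1
      simp only [e, ContinuousMap.pow_apply, ← sub_mul, zpow_natCast] at *
      rw [abs_of_nonneg (mul_nonneg (sub_nonneg.2 (Int.floor_le N)) (by positivity))]
      nlinarith [show 0 < u s ^ n by positivity,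
        show N - ⌊N⌋ < 1 from Int.fract_lt_one N]
    | zero => exact ⟨0, fun N => ⟨1, by simp⟩⟩
    | add x y _ _ hx hy =>
      obtain ⟨E, hx⟩ := hx; obtain ⟨F, hy⟩ := hy
      refine ⟨E + F, fun N => ?_⟩
      obtain ⟨h, h1, h2⟩ := hx N; obtain ⟨k, k1, k2⟩ := hy N
      refine ⟨h * k, by simp [h1, k1], fun s => le_trans (le_of_eq ?_)
        ((abs_add_le _ _).trans (add_le_add (h2 s) (k2 s)))⟩
      congr 1; simp [h1]; ring
    | smul c x _ hx =>
      obtain ⟨E, hx⟩ := hx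
      exact ⟨E, fun N => by simpa [mul_assoc] using hx (N * c)⟩
  obtain ⟨E, hE⟩ := this
  obtain ⟨x, x1, x2⟩ := hE (2 * |B + E|)
  refine ⟨x, E + 4 * |B + E|, x1, fun s => ?_⟩
  have h1 := abs_lt.1 (h s)
  have h2 := abs_le.1 (x2 s)
  have h3 := abs_nonneg (B + E)
  have h4 := le_abs_self (B + E)
  simp only at h1
  rw [abs_le]
  split_ifs at h1 ⊢ <;> refine ⟨⟨?_, ?_⟩, ?_⟩ <;> nlinarith

theorem wr {G : Type} [Group G] [Countable G] [MeasurableSpace G] [DiscreteMeasurableSpace G]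
    (φ : G →* A) (a t : G) (ha : φ a = ⟨0, 1⟩) (ht : φ t = ⟨1, 0⟩)
    (hg : Subgroup.closure {a, t} = ⊤) :
    ∃ μ : PMF G, (∀ g, μ g⁻¹ = μ g) ∧ Subgroup.closure μ.support = ⊤ ∧
      ¬ ∀ᵐ ω ∂(Measure.infinitePi fun _ : ℕ => μ.toMeasure), Subsemigroup.closure
        (range fun k : ℕ => ((List.range (1 + k)).map ω).prod) = ⊤ := by
  obtain ⟨N, hN⟩ := main
  choose h H h1 h2 using heavy φ a t ha ht
  let B (i : ℕ) (x : ℝ) : ℝ := 2 ^ N i * (1 + N i * (2 ^ N i * (2 * x)))
  let b : ℕ → ℝ := fun n => Nat.rec 1 (fun i x => max x (H i (B i x))) n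
  have bm : Monotone b := monotone_nat_of_le_succ fun i => le_max_left _ _
  have b1 : ∀ i, 1 ≤ b i := fun i => bm (Nat.zero_le i)
  let γ (i : ℕ) : G := if i = 0 then a else if i = 1 then t else h i (B i (b i))
  have g1 : ∀ i, |(φ (γ i)).k| ≤ 1 ∧ ∀ s, |(φ (γ i)).f s| ≤ b (i + 1) := fun i => by
    have := b1 (i + 1)
    simp only [γ]; split_ifs
    · simpa [ha]
    · simp [ht]; linarith
    · exact ⟨by simp [h1], fun s => (h2 _ _ s).1.trans (le_max_right _ _)⟩
  have g2 : ∀ c, |(φ (st γ c)).k| ≤ 1 ∧ ∀ s, |(φ (st γ c)).f s| ≤ 2 * b (c.1 + 1) := fun c => by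
    have := b1 (c.1 + 1)
    obtain ⟨p, q⟩ := g1 c.1
    unfold st; split_ifs
    · exact ⟨p, fun s => by linarith [q s]⟩
    · refine ⟨by simpa, fun s => ?_⟩
      have := (u12 s).1
      rw [map_inv, if', abs_neg, abs_mul, abs_of_pos (by positivity)]
      exact mul_le_mul (by simpa using upow s (n := 1) (neg_le.1 (abs_le.1 p).1)) (q s)
        (abs_nonneg _) (by norm_num)
  refine hN G γ ?_ fun ω hω => ?_
  · rw [eq_top_iff, ← hg]
    refine Subgroup.closure_mono ?_
    rintro _ (rfl | rfl)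
    exacts [⟨0, rfl⟩, ⟨1, rfl⟩]
  obtain ⟨ε, hε⟩ := sgn ω
  have u1 := (u12 ε).1
  refine ⟨⟨{g | 0 < (φ g).f ε}, fun {x y} hx hy => ?_⟩, by simp, fun n => ?_⟩
  · simp only [mem_ofPred_eq, map_mul, mf] at *
    positivity
  obtain ⟨j, hj, j2, jn, r⟩ := hω n
  let X (n : ℕ) : A := φ ((List.range n).map fun i => st γ (ω i)).prod
  have X1 : ∀ n, X (n + 1) = X n * φ (st γ (ω n)) := fun n => by simp [X, List.range_succ]
  have X2 : ∀ n, |(X n).k| ≤ n := fun n => by
    induction n with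
    | zero => simp [X]
    | succ n ih => rw [X1]; exact (abs_add_le _ _).trans (by push_cast; linarith [(g2 (ω n)).1])
  have X3 : ∀ n, (X n).f ε = ∑ i ∈ Finset.range n, u ε ^ (X i).k * (φ (st γ (ω i))).f ε :=
    fun n => by
      induction n with
      | zero => simp [X]
      | succ n ih => rw [X1, mf, ih, Finset.sum_range_succ]
  change 0 < (X (n + 1)).f ε
  rw [X3, ← Finset.add_sum_erase _ _ (show j ∈ _ by simp; omega)]
  set k := (ω j).1 with hk
  have e1 : B k (b k) ≤ (φ (st γ (ω j))).f ε := by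
    have := (h2 k (B k (b k)) ε).2
    rw [hε j fun i hi => (r i (by omega) hi.ne).ne] at this
    unfold st
    simp only [γ, ← hk, if_neg (show k ≠ 0 by omega), if_neg (show k ≠ 1 by omega)]
    split_ifs at this ⊢ <;> simpa [h1] using this
  have bk := b1 k
  have e2 : 1 + N k * (2 ^ N k * (2 * b k)) ≤ u ε ^ (X j).k * (φ (st γ (ω j))).f ε := by
    rw [← inv_mul_le_iff₀ (by positivity), ← zpow_neg]
    refine le_trans (mul_le_mul_of_nonneg_right (upow ε ?_) (by positivity)) e1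
    have := (abs_le.1 (X2 j)).1; omega
  have e3 := Finset.card_nsmul_le_sum ((Finset.range (n + 1)).erase j)
    (fun i => u ε ^ (X i).k * (φ (st γ (ω i))).f ε) (-(2 ^ N k * (2 * b k))) fun i hi => by
      simp only [Finset.mem_erase, Finset.mem_range] at hi
      refine neg_le_of_abs_le ?_
      rw [abs_mul, abs_of_pos (by positivity)]
      refine mul_le_mul (upow ε ?_) (((g2 _).2 ε).trans ?_) (abs_nonneg _) (by positivity)
      · have := (abs_le.1 (X2 i)).2; omega
      · linarith [bm (r i (by omega) hi.1)]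
  rw [Finset.card_erase_of_mem (by simp; omega), Finset.card_range, nsmul_eq_mul,
    Nat.add_sub_cancel] at e3
  nlinarith [show (n : ℝ) ≤ N k by exact_mod_cast jn.le, show 0 < 2 ^ N k * (2 * b k) by positivity]

end Pool.Agent.H10.Rec
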