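import Pool.Agent.H10.Rec2

namespace Pool.Agent.H10.Rec
open MeasureTheory Set

theorem tr {G H : Type} [Group G] [Group H] [Countable G] [MeasurableSpace G]
    [DiscreteMeasurableSpace G] [MeasurableSpace H] [DiscreteMeasurableSpace H] (φ : G ≃* H)
    (h : ∃ μ : PMF G, (∀ g, μ g⁻¹ = μ g) ∧ Subgroup.closure μ.support = ⊤ ∧
      ¬ ∀ᵐ ω ∂(Measure.infinitePi fun _ : ℕ => μ.toMeasure), Subsemigroup.closure
        (range fun k : ℕ => ((List.range (1 + k)).map ω).prod) = ⊤) :
    ∃ μ : PMF H, (∀ g, μ g⁻¹ = μ g) ∧ Subgroup.closure μ.support = ⊤ ∧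
      ¬ ∀ᵐ ω ∂(Measure.infinitePi fun _ : ℕ => μ.toMeasure), Subsemigroup.closure
        (range fun k : ℕ => ((List.range (1 + k)).map ω).prod) = ⊤ := by
  obtain ⟨μ, h1, h2, h3⟩ := h
  have e : ∀ g, μ.map φ g = μ (φ.symm g) := fun g => by
    rw [PMF.map_apply, tsum_eq_single (φ.symm g) fun b hb => if_neg fun h => hb (by simp [h])]
    simp
  refine ⟨μ.map φ, fun g => by rw [e, e, map_inv, h1], ?_, fun h => h3 ?_⟩
  · rw [PMF.support_map]
    exact (φ.toMonoidHom.map_closure _).symm.trans (h2 ▸ Subgroup.map_top_of_surjective _ φ.surjective)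
  · rw [← PMF.toMeasure_map _ _ Measurable.of_discrete, ← Measure.infinitePi_map_pi _
      fun _ => Measurable.of_discrete] at h
    refine (ae_of_ae_map (Measurable.aemeasurable (by fun_prop)) h).mono fun ω hω => ?_
    rw [eq_top_iff]
    rintro g -
    rw [← φ.symm_apply_apply g]
    refine (Subsemigroup.closure_le (S := .comap (φ.symm : H →ₙ* G) (.closure (range fun k : ℕ =>
      ((List.range (1 + k)).map ω).prod)))).2 ?_ (hω ▸ Subsemigroup.mem_top (φ g))
    rintro _ ⟨k, rfl⟩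
    exact Subsemigroup.subset_closure ⟨k, by simp [map_list_prod, Function.comp_def]⟩

theorem io {G : Type} [MeasurableSpace G] [DiscreteMeasurableSpace G] (m : PMF G) (g : G)
    (hg : g ∈ m.support) (n : ℕ) :
    ∀ᵐ ω ∂(Measure.infinitePi (fun _ : ℕ => m.toMeasure)), ∃ j ≥ n, ω j = g := by
  rw [ae_iff]
  have hlt : m.toMeasure {g}ᶜ < 1 := by
    refine lt_of_le_of_ne prob_le_one fun h => ?_
    exact (PMF.toMeasure_apply_eq_one_iff _ MeasurableSet.of_discrete).1 h hg rfl
  refine le_antisymm (ge_of_tendsto' (ENNReal.tendsto_pow_atTop_nhds_zero_of_lt_one hlt)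
    fun N => ?_) bot_le
  have h := Measure.infinitePi_pi (fun _ : ℕ => m.toMeasure) (s := Finset.Ico n (n + N))
    (t := fun _ => {g}ᶜ) (fun _ _ => MeasurableSet.of_discrete)
  rw [Finset.prod_const, Nat.card_Ico, Nat.add_sub_cancel_left] at h
  rw [← h]
  refine measure_mono fun ω hω j hj => ?_
  simp only [Finset.coe_Ico, mem_Ico] at hj
  exact fun e => hω ⟨j, hj.1, e⟩

/-- generalised dihedral group -/
@[ext] structure D where
  e : ℤˣ
  v : ℤ →₀ ℤ

noncomputable instance : Mul D := ⟨fun x y => ⟨x.e * y.e, x.v + x.e • y.v⟩⟩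
instance : One D := ⟨⟨1, 0⟩⟩
noncomputable instance : Inv D := ⟨fun x => ⟨x.e, -(x.e • x.v)⟩⟩
@[simp] theorem me (x y : D) : (x * y).e = x.e * y.e := rfl
@[simp] theorem mv (x y : D) : (x * y).v = x.v + x.e • y.v := rfl
@[simp] theorem ie (x : D) : x⁻¹.e = x.e := rfl
@[simp] theorem iv (x : D) : x⁻¹.v = -(x.e • x.v) := rfl
@[simp] theorem oe : (1 : D).e = 1 := rfl
@[simp] theorem ov : (1 : D).v = 0 := rfl

noncomputable instance : Group D := Group.ofLeftAxioms
  (fun x y z => D.ext (mul_assoc _ _ _) (by simp [mul_smul, add_assoc]))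
  (fun x => D.ext (one_mul _) (by simp)) (fun x => D.ext (by simp) (by simp))

instance : Countable D := Function.Injective.countable (f := fun x : D => (x.e.1, x.v))
  fun _ _ h => D.ext (Units.ext (congrArg Prod.fst h)) (congrArg Prod.snd h)

/-- the sign -/
noncomputable def sg : D →* ℤˣ := MonoidHom.mk' D.e fun _ _ => rfl

theorem dih [MeasurableSpace D] [DiscreteMeasurableSpace D] (μ : PMF D)
    (hg : Subgroup.closure μ.support = ⊤) (n : ℕ) :
    ∀ᵐ ω ∂(Measure.infinitePi fun _ : ℕ => μ.toMeasure), Subsemigroup.closure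
      (range fun k : ℕ => ((List.range (n + k)).map ω).prod) = ⊤ := by
  filter_upwards [ae_all_iff.2 fun g : μ.support => io μ g g.2 n] with ω h
  set S := Subsemigroup.closure (range fun k : ℕ => ((List.range (n + k)).map ω).prod)
  have h1 : ∀ g ∈ μ.support, ∃ x ∈ S, x * g ∈ S := fun g hg => by
    obtain ⟨j, hj, e⟩ := h ⟨g, hg⟩
    obtain ⟨k, rfl⟩ := Nat.exists_eq_add_of_le hj
    exact ⟨_, Subsemigroup.subset_closure ⟨k, rfl⟩, Subsemigroup.subset_closure ⟨k + 1, by
      simp [← add_assoc, List.range_succ, e]⟩⟩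
  obtain ⟨s, hs, s1⟩ : ∃ s ∈ S, s.e = -1 := by
    by_contra hc
    push Not at hc
    have : Subgroup.closure μ.support ≤ sg.ker := (Subgroup.closure_le _).2 fun g hg => by
      obtain ⟨x, x1, x2⟩ := h1 g hg
      have := (Int.units_eq_one_or _).resolve_right (hc _ x2)
      rwa [me, (Int.units_eq_one_or _).resolve_right (hc _ x1), one_mul] at this
    exact absurd (show (-1 : ℤˣ) = 1 from this (x := ⟨-1, 0⟩) (by simp [hg])) (by decide)
  have i : ∀ x ∈ S, x⁻¹ ∈ S := fun x hx => by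
    rcases Int.units_eq_one_or x.e with e | e
    · rw [show x⁻¹ = s * x * s from D.ext (by simp [e, s1]) (by simp [e, s1])]
      exact S.mul_mem (S.mul_mem hs hx) hs
    · rwa [show x⁻¹ = x from D.ext rfl (by simp [e])]
  let T : Subgroup D := ⟨⟨S, by simpa using S.mul_mem hs (i s hs)⟩, i _⟩
  have : Subgroup.closure μ.support ≤ T := (Subgroup.closure_le _).2 fun g hg => by
    obtain ⟨x, x1, x2⟩ := h1 g hg
    change g ∈ S
    simpa using S.mul_mem (i x x1) x2
  exact eq_top_iff.2 fun g _ => this (by simp [hg])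

/-- translations -/
noncomputable def iso : Multiplicative (ℤ →₀ ℤ) ≃* sg.ker where
  toFun v := ⟨⟨1, v.toAdd⟩, rfl⟩
  invFun x := .ofAdd x.1.v
  left_inv _ := rfl
  right_inv x := Subtype.ext (D.ext (Eq.symm x.2) rfl)
  map_mul' _ _ := Subtype.ext (D.ext (by simp) (by simp))

end Pool.Agent.H10.Rec
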