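import Pool.Agent.H10.PosIso

open Set Filter Topology

namespace Pool.Agent.H10.PosIso

section Basic

variable {X X' Y : Type*} [TopologicalSpace X] [TopologicalSpace X'] [TopologicalSpace Y]

def IsReg (u : C(Y, ℝ) →ₗ[ℝ] C(X, ℝ)) (S : X → Set Y) : Prop :=
  ∀ (f : C(Y, ℝ)) (x : X) (a : ℝ), (∀ y ∈ S x, a ≤ f y) → a ≤ u f x

def Reg (S : X → Set Y) : Prop := ∃ u, IsReg u S

lemma IsReg.le {u : C(Y, ℝ) →ₗ[ℝ] C(X, ℝ)} {S : X → Set Y} (h : IsReg u S) (f : C(Y, ℝ)) (x : X)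
    (a : ℝ) (ha : ∀ y ∈ S x, f y ≤ a) : u f x ≤ a := by
  have := h (-f) x (-a) fun y hy => by simpa using ha y hy
  simpa using this

lemma IsReg.eq {u : C(Y, ℝ) →ₗ[ℝ] C(X, ℝ)} {S : X → Set Y} (h : IsReg u S) (f : C(Y, ℝ)) (x : X)
    (a : ℝ) (ha : ∀ y ∈ S x, f y = a) : u f x = a :=
  le_antisymm (h.le f x a fun y hy => (ha y hy).le) (h f x a fun y hy => (ha y hy).ge)

lemma IsReg.nonempty {u : C(Y, ℝ) →ₗ[ℝ] C(X, ℝ)} {S : X → Set Y} (h : IsReg u S) (x : X) :
    (S x).Nonempty := by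
  by_contra hc
  have := h 0 x 1 fun y hy => absurd ⟨y, hy⟩ hc
  simp at this
  linarith

lemma Reg.comap {S : X → Set Y} (h : Reg S) (g : C(X', X)) : Reg fun x' => S (g x') := by
  obtain ⟨u, hu⟩ := h
  exact ⟨(pre (V := ℝ) g).toLinearMap.comp u, fun f x a ha => hu f (g x) a ha⟩

lemma Reg.mono {S S' : X → Set Y} (h : Reg S) (hS : ∀ x, S x ⊆ S' x) : Reg S' := by
  obtain ⟨u, hu⟩ := h
  exact ⟨u, fun f x a ha => hu f x a fun y hy => ha y (hS x hy)⟩

lemma Reg.restrict [NormalSpace Y] {S : X → Set Y} (h : Reg S) {L : Set Y} (hL : IsClosed L)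
    (hS : ∀ x, S x ⊆ L) : Reg fun x => (Subtype.val ⁻¹' S x : Set L) := by
  obtain ⟨u, hu⟩ := h
  choose e he using fun f : C(L, ℝ) => ContinuousMap.exists_restrict_eq hL f
  have he' : ∀ f y (hy : y ∈ L), e f y = f ⟨y, hy⟩ := fun f y hy => by
    conv_rhs => rw [← he f]
    rfl
  have key : ∀ g g' : C(Y, ℝ), (∀ y ∈ L, g y = g' y) → u g = u g' := fun g g' hg => by
    ext x
    have := hu.eq (g - g') x 0 fun y hy => by simp [hg y (hS x hy)]
    rw [map_sub, ContinuousMap.sub_apply] at this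
    linarith
  refine ⟨{ toFun := fun f => u (e f), map_add' := fun f g => ?_, map_smul' := fun c f => ?_ },
    fun f x a ha => hu _ x a fun y hy => ?_⟩
  · rw [← map_add]
    exact key _ _ fun y hy => by simp [he' _ y hy]
  · rw [RingHom.id_apply, ← map_smul]
    exact key _ _ fun y hy => by simp [he' _ y hy]
  · rw [he' f y (hS x hy)]
    exact ha ⟨y, hS x hy⟩ hy

variable [CompactSpace X] [CompactSpace Y]

lemma IsReg.norm_le {u : C(Y, ℝ) →ₗ[ℝ] C(X, ℝ)} {S : X → Set Y} (h : IsReg u S) (f : C(Y, ℝ)) :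
    ‖u f‖ ≤ 1 * ‖f‖ := by
  rw [one_mul]
  refine (ContinuousMap.norm_le _ (norm_nonneg _)).2 fun x => ?_
  rw [Real.norm_eq_abs, abs_le]
  exact ⟨h f x _ fun y _ => (abs_le.1 (f.norm_coe_le_norm y)).1,
    h.le f x _ fun y _ => (abs_le.1 (f.norm_coe_le_norm y)).2⟩

lemma Reg.pcE {S : Y → Set X} (h : Reg S) (e : C(X, Y)) (hS : ∀ x, ∀ x' ∈ S (e x), x' = x) :
    PC X Y := by
  obtain ⟨u, hu⟩ := h
  refine ⟨pre e, u.mkContinuous 1 hu.norm_le, fun b => ?_, fun f hf y => hf _,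
    fun f hf y => hu f y 0 fun x _ => hf x⟩
  ext x
  exact hu.eq b (e x) (b x) fun x' hx' => by rw [hS x x' hx']

lemma Reg.pcA {S : X → Set Y} (h : Reg S) (ψ : C(Y, X)) (hS : ∀ x, ∀ y ∈ S x, ψ y = x) :
    PC X Y := by
  obtain ⟨u, hu⟩ := h
  refine ⟨u.mkContinuous 1 hu.norm_le, pre ψ, fun b => ?_, fun f hf y => hu f y 0 fun x _ => hf x,
    fun f hf y => hf _⟩
  ext x
  exact hu.eq _ x (b x) fun y hy => by
    change b (ψ y) = b x
    rw [hS x y hy]

lemma pc_retract (e : C(X, Y)) (r : C(Y, X)) (h : ∀ x, r (e x) = x) : PC X Y :=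
  ⟨pre e, pre r, fun b => by ext x; exact congrArg b (h x), fun f hf y => hf _, fun f hf y => hf _⟩

lemma PC.tensor [T2Space X] [T2Space Y] (h : PC X Y) : PC (D × X) (D × Y) := by
  obtain ⟨p, i, hpi, hp, hi⟩ := h
  refine ⟨((Cur (K := X)).symm : _ →L[ℝ] _).comp ((p.compLeftContinuous ℝ D).comp
      (Cur (K := Y) : _ →L[ℝ] _)),
    ((Cur (K := Y)).symm : _ →L[ℝ] _).comp ((i.compLeftContinuous ℝ D).comp
      (Cur (K := X) : _ →L[ℝ] _)), fun b => ?_, fun f hf y => hp (Cur f y.1) (fun x => hf _) y.2,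
    fun f hf y => hi (Cur f y.1) (fun x => hf _) y.2⟩
  ext w
  change p (i (Cur b w.1)) w.2 = b w
  rw [hpi]
  rfl

end Basic

section Pi

variable {ι : Type*} [DecidableEq ι] {X Y : ι → Type*} [∀ i, TopologicalSpace (X i)]
  [∀ i, TopologicalSpace (Y i)] [∀ i, CompactSpace (X i)] [∀ i, T2Space (X i)]

def slice (i : ι) (F : C((∀ i, X i) × (∀ i, Y i), ℝ)) :
    C((∀ i, X i) × (∀ i, Y i), C(Y i, ℝ)) :=
  (F.comp ⟨fun p : ((∀ i, X i) × (∀ i, Y i)) × Y i => (p.1.1, Function.update p.1.2 i p.2),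
    (continuous_fst.comp continuous_fst).prodMk
      ((continuous_snd.comp continuous_fst).update i continuous_snd)⟩).curry

variable (u : ∀ i, C(Y i, ℝ) →ₗ[ℝ] C(X i, ℝ)) {S : ∀ i, X i → Set (Y i)}
  (hc : ∀ i, Continuous (u i))

noncomputable def Tt (i : ι) :
    C((∀ i, X i) × (∀ i, Y i), ℝ) →ₗ[ℝ] C((∀ i, X i) × (∀ i, Y i), ℝ) where
  toFun F := ⟨fun z => u i (slice i F z) (z.1 i),
    ((hc i).comp (slice i F).continuous).eval ((continuous_apply i).comp continuous_fst)⟩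
  map_add' F G := by
    ext z
    have : slice i (F + G) z = slice i F z + slice i G z := rfl
    simp [this]
  map_smul' c F := by
    ext z
    have : slice i (c • F) z = c • slice i F z := rfl
    simp [this]

noncomputable def Ul : List ι →
    (C((∀ i, X i) × (∀ i, Y i), ℝ) →ₗ[ℝ] C((∀ i, X i) × (∀ i, Y i), ℝ))
  | [] => LinearMap.id
  | i :: l => (Tt u hc i).comp (Ul l)

variable {u}

lemma Ul_ge (hu : ∀ i, IsReg (u i) (S i)) (F : C((∀ i, X i) × (∀ i, Y i), ℝ)) (x : ∀ i, X i)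
    (a : ℝ) (l : List ι) : ∀ y : ∀ i, Y i,
    (∀ y' : ∀ i, Y i, (∀ i ∈ l, y' i ∈ S i (x i)) → (∀ i ∉ l, y' i = y i) → a ≤ F (x, y')) →
    a ≤ Ul u hc l F (x, y) := by
  induction l with
  | nil => intro y h; exact h y (fun i hi => absurd hi (by simp)) fun _ _ => rfl
  | cons i l ih =>
    intro y h
    refine hu i (slice i (Ul u hc l F) (x, y)) (x i) a fun t ht => ?_
    refine ih (Function.update y i t) fun y' h1 h2 => h y' (fun j hj => ?_) fun j hj => ?_
    · by_cases hjl : j ∈ l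
      · exact h1 j hjl
      · have hji : j = i := by simpa [hjl] using hj
        subst hji
        rw [h2 j hjl, Function.update_self]
        exact ht
    · have hji : j ≠ i := fun e => hj (by simp [e])
      rw [h2 j fun e => hj (by simp [e]), Function.update_of_ne hji]

def Dep (s : Finset ι) (F : C((∀ i, X i) × (∀ i, Y i), ℝ)) : Prop :=
  ∀ (x : ∀ i, X i) (y y' : ∀ i, Y i), (∀ i ∈ s, y i = y' i) → F (x, y) = F (x, y')

lemma Dep.T {s : Finset ι} {F : C((∀ i, X i) × (∀ i, Y i), ℝ)} (h : Dep s F) (i : ι) :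
    Dep s (Tt u hc i F) := fun x y y' hy => by
  have : slice i F (x, y) = slice i F (x, y') := by
    ext t
    refine h x _ _ fun j hj => ?_
    by_cases hji : j = i
    · subst hji; simp
    · simp [Function.update_of_ne hji, hy j hj]
  change u i (slice i F (x, y)) (x i) = u i (slice i F (x, y')) (x i)
  rw [this]

lemma Dep.U {s : Finset ι} {F : C((∀ i, X i) × (∀ i, Y i), ℝ)} (h : Dep s F) (l : List ι) :
    Dep s (Ul u hc l F) := by
  induction l with
  | nil => exact h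
  | cons i l ih => exact ih.T hc i

lemma Dep.T_eq (hu : ∀ i, IsReg (u i) (S i)) {s : Finset ι}
    {F : C((∀ i, X i) × (∀ i, Y i), ℝ)} (h : Dep s F) {i : ι} (hi : i ∉ s) :
    Tt u hc i F = F := by
  ext ⟨x, y⟩
  refine (hu i).eq (slice i F (x, y)) (x i) _ fun t _ => h x _ _ fun j hj => ?_
  have hji : j ≠ i := fun e => hi (e ▸ hj)
  simp [Function.update_of_ne hji]

lemma Dep.U_eq (hu : ∀ i, IsReg (u i) (S i)) {s : Finset ι}
    {F : C((∀ i, X i) × (∀ i, Y i), ℝ)} (h : Dep s F) (l : List ι) :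
    Ul u hc l F = Ul u hc (l.filter (· ∈ s)) F := by
  induction l with
  | nil => rfl
  | cons i l ih =>
    by_cases hi : i ∈ s
    · rw [List.filter_cons_of_pos (by simpa using hi)]
      change Tt u hc i (Ul u hc l F) = Tt u hc i (Ul u hc _ F)
      rw [ih]
    · rw [List.filter_cons_of_neg (by simpa using hi), ← ih]
      exact (h.U hc l).T_eq hc hu hi

end Pi

lemma exists_dep {ι : Type*} {Y : ι → Type*} [∀ i, TopologicalSpace (Y i)]
    [∀ i, CompactSpace (Y i)] (f : C(∀ i, Y i, ℝ)) {ε : ℝ} (hε : 0 < ε) :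
    ∃ s : Finset ι, ∀ y y' : ∀ i, Y i, (∀ i ∈ s, y i = y' i) → |f y - f y'| ≤ ε := by
  classical
  have h1 : ∀ y : ∀ i, Y i, ∃ (s : Finset ι) (V : ∀ i, Set (Y i)), (∀ i, IsOpen (V i)) ∧
      y ∈ (s : Set ι).pi V ∧ (s : Set ι).pi V ⊆ f ⁻¹' Metric.ball (f y) (ε / 2) := fun y => by
    have ho : IsOpen (f ⁻¹' Metric.ball (f y) (ε / 2)) := Metric.isOpen_ball.preimage f.continuous
    obtain ⟨s, V, hV, hs⟩ := isOpen_pi_iff.1 ho y (Metric.mem_ball_self (by positivity))
    refine ⟨s, fun i => if i ∈ s then V i else univ, fun i => ?_, fun i hi => ?_, fun z hz => hs ?_⟩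
    · dsimp only
      split_ifs with h
      · exact (hV i h).1
      · exact isOpen_univ
    · have hi' : i ∈ s := hi
      simpa [hi'] using (hV i hi').2
    · intro i hi
      have hi' : i ∈ s := hi
      simpa [hi'] using hz i hi
  choose s V hV hy hs using h1
  obtain ⟨T, hT⟩ := isCompact_univ.elim_finite_subcover (fun y => (s y : Set ι).pi (V y))
    (fun y => isOpen_set_pi (s y).finite_toSet fun i _ => hV y i)
    (fun y _ => mem_iUnion.2 ⟨y, hy y⟩)
  refine ⟨T.biUnion s, fun y y' hyy => ?_⟩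
  obtain ⟨w, hw, hyw⟩ := mem_iUnion₂.1 (hT (mem_univ y))
  have hyw' : y' ∈ (s w : Set ι).pi (V w) := fun i hi => by
    rw [← hyy i (Finset.mem_biUnion.2 ⟨w, hw, hi⟩)]
    exact hyw i hi
  have e1 := hs w hyw
  have e2 := hs w hyw'
  rw [mem_preimage, Metric.mem_ball, Real.dist_eq, abs_lt] at e1 e2
  rw [abs_le]
  constructor <;> linarith [e1.1, e1.2, e2.1, e2.2]

theorem Reg.pi {ι : Type*} {X Y : ι → Type*} [∀ i, TopologicalSpace (X i)]
    [∀ i, TopologicalSpace (Y i)] [∀ i, CompactSpace (X i)] [∀ i, T2Space (X i)]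
    [∀ i, CompactSpace (Y i)] [∀ i, Nonempty (Y i)] {S : ∀ i, X i → Set (Y i)}
    (h : ∀ i, Reg (S i)) : Reg fun x : ∀ i, X i => {y : ∀ i, Y i | ∀ i, y i ∈ S i (x i)} := by
  obtain ⟨lo, -⟩ := exists_wellFoundedLT (α := ι)
  classical
  choose u hu using h
  have hc : ∀ i, Continuous (u i) := fun i => ((u i).mkContinuous 1 (hu i).norm_le).continuous
  let y0 : ∀ i, Y i := fun i => Classical.arbitrary _
  let sn : C((∀ i, X i) × (∀ i, Y i), ∀ i, Y i) := ⟨Prod.snd, continuous_snd⟩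
  let sec : C(∀ i, X i, (∀ i, X i) × (∀ i, Y i)) := ⟨fun x => (x, y0), by fun_prop⟩
  let V : Finset ι → (C(∀ i, Y i, ℝ) →ₗ[ℝ] C(∀ i, X i, ℝ)) := fun s =>
    (pre (V := ℝ) sec).toLinearMap.comp ((Ul u hc (s.sort (· ≤ ·))).comp
      (pre (V := ℝ) sn).toLinearMap)
  have hV : ∀ s f x, V s f x = Ul u hc (s.sort (· ≤ ·)) (f.comp sn) (x, y0) := fun _ _ _ => rfl
  have habs : ∀ (l : List ι) (F : C((∀ i, X i) × (∀ i, Y i), ℝ)) (ε : ℝ), (∀ z, |F z| ≤ ε) →
      ∀ z, |Ul u hc l F z| ≤ ε := fun l F ε hF z => by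
    have e1 := Ul_ge hc hu F z.1 (-ε) l z.2 fun y' _ _ => (abs_le.1 (hF _)).1
    have e2 := Ul_ge hc hu (-F) z.1 (-ε) l z.2 fun y' _ _ => by
      simpa using (abs_le.1 (hF (z.1, y'))).2
    rw [map_neg, ContinuousMap.neg_apply] at e2
    exact abs_le.2 ⟨e1, by linarith⟩
  have hcau : ∀ f, CauchySeq fun s => V s f := fun f => by
    rw [Metric.cauchySeq_iff]
    intro ε hε
    obtain ⟨s, hs⟩ := exists_dep f (show 0 < ε / 4 by positivity)
    let pw : C((∀ i, X i) × (∀ i, Y i), ∀ i, Y i) :=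
      ⟨fun z i => if i ∈ s then z.2 i else y0 i, continuous_pi fun i => by
        split_ifs <;> fun_prop⟩
    have hD : Dep s (f.comp pw) := fun x y y' hy => by
      change f _ = f _
      congr 1
      funext i
      change (if i ∈ s then y i else y0 i) = if i ∈ s then y' i else y0 i
      split_ifs with hi
      · exact hy i hi
      · rfl
    have hF : ∀ z, |(f.comp sn - f.comp pw) z| ≤ ε / 4 := fun z =>
      hs _ _ fun i hi => by
        change z.2 i = if i ∈ s then z.2 i else y0 i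
        rw [if_pos hi]
    have hfil : ∀ t : Finset ι, s ≤ t → (t.sort (· ≤ ·)).filter (· ∈ s) = s.sort (· ≤ ·) :=
      fun t ht => by
      refine List.Perm.eq_of_pairwise' (r := (· ≤ ·)) ((Finset.pairwise_sort t _).filter _)
        (Finset.pairwise_sort s _) ?_
      rw [List.perm_ext_iff_of_nodup ((Finset.sort_nodup t _).filter _) (Finset.sort_nodup s _)]
      intro a
      simp only [List.mem_filter, Finset.mem_sort, decide_eq_true_eq]
      exact ⟨fun h => h.2, fun h => ⟨ht h, h⟩⟩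
    refine ⟨s, fun t ht t' ht' => ?_⟩
    have : dist (V t f) (V t' f) ≤ ε / 2 := (ContinuousMap.dist_le (by positivity)).2 fun x => by
      have e1 := habs (t.sort (· ≤ ·)) _ _ hF (x, y0)
      have e2 := habs (t'.sort (· ≤ ·)) _ _ hF (x, y0)
      rw [map_sub, ContinuousMap.sub_apply, hD.U_eq hc hu, hfil _ ‹_›] at e1 e2
      rw [Real.dist_eq, hV, hV, abs_le] at *
      constructor <;> linarith [e1.1, e1.2, e2.1, e2.2]
    linarith
  choose g hg using fun f => cauchySeq_tendsto_of_complete (hcau f)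
  refine ⟨linearMapOfTendsto g V (l := atTop) (tendsto_pi_nhds.2 hg), fun f x a ha => ?_⟩
  have hl : Tendsto (fun s => V s f x) atTop (𝓝 (g f x)) :=
    ((continuous_eval_const x).tendsto _).comp (hg f)
  change a ≤ g f x
  refine le_of_forall_pos_le_add fun ε hε => ?_
  obtain ⟨s, hs⟩ := exists_dep f hε
  choose σ hσ using fun i => (hu i).nonempty (x i)
  have : a - ε ≤ g f x := by
    refine ge_of_tendsto hl (eventually_atTop.2 ⟨s, fun t ht => ?_⟩)
    rw [hV]
    refine Ul_ge hc hu _ x _ _ y0 fun y' h1 _ => ?_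
    have e1 := ha (fun i => if i ∈ s then y' i else σ i) fun i => by
      dsimp only
      split_ifs with hi
      · exact h1 i ((Finset.mem_sort _).2 (ht hi))
      · exact hσ i
    have e2 := hs y' (fun i => if i ∈ s then y' i else σ i) fun i hi => by rw [if_pos hi]
    change a - ε ≤ f y'
    linarith [(abs_le.1 e2).1]
  linarith

end Pool.Agent.H10.PosIso
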