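import Mathlib

/-! Induction of integral coset equivalence to an overgroup; a wreath-type invariant. -/

namespace Pool.Agent.H10.Sc

open Finsupp Equiv

variable {G Γ X Y : Type} [Group G] [Group Γ]

/-- point stabiliser -/
def St (α : G →* Perm X) (x : X) : Subgroup G := (MulAction.stabilizer (Perm X) x).comap α

theorem mem_St (α : G →* Perm X) (x : X) (g : G) : g ∈ St α x ↔ α g x = x := Iff.rfl

theorem exists_iota (j : G →* Γ) (α : G →* Perm X) (x0 : X) (hα : ∀ x, ∃ g, α g x0 = x) :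
    ∃ ι : X → Γ ⧸ (St α x0).map j, ι x0 = ((1 : Γ) : Γ ⧸ (St α x0).map j) ∧
      ∀ g x, j g • ι x = ι (α g x) := by
  choose s hs using hα
  have key : ∀ g g' : G, α g x0 = α g' x0 →
      ((j g : Γ) : Γ ⧸ (St α x0).map j) = (j g' : Γ) := by
    intro g g' h
    rw [QuotientGroup.eq, ← map_inv, ← map_mul]
    refine Subgroup.mem_map_of_mem j ?_
    rw [mem_St, map_mul, map_inv, Perm.mul_apply, ← h]
    simp
  refine ⟨fun x => (j (s x) : Γ), ?_, fun g x => ?_⟩
  · have := key (s x0) 1 (by simp [hs])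
    simpa using this
  · change ((j g * j (s x) : Γ) : Γ ⧸ (St α x0).map j) = _
    rw [← map_mul]
    exact key _ _ (by simp [hs])

theorem exists_map [Fintype Y] (j : G →* Γ) (α : G →* Perm X) (β : G →* Perm Y) (x0 : X)
    (K : Subgroup Γ) (ι : Y → Γ ⧸ K) (hι : ∀ g y, j g • ι y = ι (β g y))
    (M : X → Y → ℤ) (hM : ∀ g x y, M (α g x) (β g y) = M x y) :
    ∃ Φ : (Γ ⧸ (St α x0).map j →₀ ℤ) →ₗ[ℤ] (Γ ⧸ K →₀ ℤ),
      (∀ (γ : Γ) v, Φ (mapDomain (γ • ·) v) = mapDomain (γ • ·) (Φ v)) ∧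
      ∀ γ : Γ, Φ (single (γ : Γ ⧸ (St α x0).map j) 1) = ∑ y, M x0 y • single (γ • ι y) 1 := by
  let a : Γ → (Γ ⧸ K →₀ ℤ) := fun γ => ∑ y, M x0 y • single (γ • ι y) 1
  have ha : ∀ γ γ' : Γ, (QuotientGroup.leftRel ((St α x0).map j)) γ γ' → a γ = a γ' := by
    intro γ γ' h
    obtain ⟨g, hg, hg'⟩ := QuotientGroup.leftRel_apply.1 h
    have e : γ' = γ * j g := by rw [hg']; simp
    have hg2 : α g x0 = x0 := hg
    simp only [a, e, mul_smul, hι]
    refine (Fintype.sum_equiv (β g) _ _ fun y => ?_).symm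
    rw [← hM g x0 y, hg2]
  let φ : Γ ⧸ (St α x0).map j → (Γ ⧸ K →₀ ℤ) := Quotient.lift a ha
  have hφ : ∀ γ : Γ, φ (γ : Γ ⧸ (St α x0).map j) = a γ := fun _ => rfl
  refine ⟨linearCombination ℤ φ, fun γ v => ?_, fun γ => by simp [hφ, a]⟩
  induction v using Finsupp.induction_linear with
  | zero => simp
  | add u v hu hv => rw [mapDomain_add, map_add, map_add, mapDomain_add, hu, hv]
  | single q c =>
    obtain ⟨δ, rfl⟩ := QuotientGroup.mk_surjective q
    rw [mapDomain_single, linearCombination_single, linearCombination_single, mapDomain_smul]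
    congr 1
    change a (γ * δ) = mapDomain _ (a δ)
    simp only [a]
    rw [mapDomain_finset_sum]
    refine Finset.sum_congr rfl fun y _ => ?_
    rw [mapDomain_smul, mapDomain_single, mul_smul]

theorem comp_id [Fintype X] [Fintype Y] [DecidableEq X] (j : G →* Γ) (α : G →* Perm X)
    (β : G →* Perm Y) (x0 : X) (y0 : Y) (hβ : ∀ y, ∃ g, β g y0 = y)
    (ι : X → Γ ⧸ (St α x0).map j) (hι0 : ι x0 = ((1 : Γ) : Γ ⧸ (St α x0).map j))
    (hι : ∀ g x, j g • ι x = ι (α g x))
    (κ : Y → Γ ⧸ (St β y0).map j) (hκ0 : κ y0 = ((1 : Γ) : Γ ⧸ (St β y0).map j))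
    (hκ : ∀ g y, j g • κ y = κ (β g y))
    (M : X → Y → ℤ) (N : Y → X → ℤ) (hN : ∀ g y x, N (β g y) (α g x) = N y x)
    (hMN : ∀ x, ∑ y, M x0 y * N y x = if x = x0 then 1 else 0)
    (Φ : (Γ ⧸ (St α x0).map j →₀ ℤ) →ₗ[ℤ] (Γ ⧸ (St β y0).map j →₀ ℤ))
    (hΦ : ∀ γ : Γ, Φ (single (γ : Γ ⧸ (St α x0).map j) 1) = ∑ y, M x0 y • single (γ • κ y) 1)
    (Ψ : (Γ ⧸ (St β y0).map j →₀ ℤ) →ₗ[ℤ] (Γ ⧸ (St α x0).map j →₀ ℤ))
    (hΨ : ∀ γ : Γ, Ψ (single (γ : Γ ⧸ (St β y0).map j) 1) = ∑ x, N y0 x • single (γ • ι x) 1) :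
    Ψ.comp Φ = LinearMap.id := by
  have h1 : ∀ (γ : Γ) y, Ψ (single (γ • κ y) 1) = ∑ x, N y x • single (γ • ι x) 1 := by
    intro γ y
    obtain ⟨g, rfl⟩ := hβ y
    have e : γ • κ (β g y0) = ((γ * j g : Γ) : Γ ⧸ (St β y0).map j) := by
      rw [← hκ, hκ0, ← mul_smul]
      change ((γ * j g * 1 : Γ) : Γ ⧸ (St β y0).map j) = _
      rw [mul_one]
    rw [e, hΨ]
    refine Fintype.sum_equiv (α g) _ _ fun x => ?_
    rw [hN, mul_smul, hι]
  refine Finsupp.lhom_ext' fun q => LinearMap.ext_ring ?_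
  obtain ⟨γ, rfl⟩ := QuotientGroup.mk_surjective q
  simp only [LinearMap.comp_apply, lsingle_apply, LinearMap.id_apply]
  rw [hΦ, map_sum]
  simp only [map_smul, h1, Finset.smul_sum, smul_smul]
  rw [Finset.sum_comm]
  simp only [← Finset.sum_smul, hMN, ite_smul, one_smul, zero_smul, Finset.sum_ite_eq',
    Finset.mem_univ, if_true, hι0]
  congr 1
  change ((γ * 1 : Γ) : Γ ⧸ (St α x0).map j) = _
  rw [mul_one]

theorem equiv_of [Fintype X] [Fintype Y] [DecidableEq X] [DecidableEq Y] (j : G →* Γ)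
    (α : G →* Perm X) (β : G →* Perm Y) (x0 : X) (y0 : Y) (hα : ∀ x, ∃ g, α g x0 = x)
    (hβ : ∀ y, ∃ g, β g y0 = y) (M : X → Y → ℤ) (N : Y → X → ℤ)
    (hM : ∀ g x y, M (α g x) (β g y) = M x y) (hN : ∀ g y x, N (β g y) (α g x) = N y x)
    (hMN : ∀ x, ∑ y, M x0 y * N y x = if x = x0 then 1 else 0)
    (hNM : ∀ y, ∑ x, N y0 x * M x y = if y = y0 then 1 else 0) :
    ∃ e : (Γ ⧸ (St α x0).map j →₀ ℤ) ≃ₗ[ℤ] (Γ ⧸ (St β y0).map j →₀ ℤ),
      ∀ (γ : Γ) v, e (mapDomain (γ • ·) v) = mapDomain (γ • ·) (e v) := by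
  obtain ⟨ι, hι0, hι⟩ := exists_iota j α x0 hα
  obtain ⟨κ, hκ0, hκ⟩ := exists_iota j β y0 hβ
  obtain ⟨Φ, hΦ1, hΦ⟩ := exists_map j α β x0 _ κ hκ M hM
  obtain ⟨Ψ, -, hΨ⟩ := exists_map j β α y0 _ ι hι N hN
  exact ⟨LinearEquiv.ofLinear Φ Ψ
    (comp_id j β α y0 x0 hα κ hκ0 hκ ι hι0 hι N M hM hNM Ψ hΨ Φ hΦ)
    (comp_id j α β x0 y0 hβ ι hι0 hι κ hκ0 hκ M N hN hMN Φ hΦ Ψ hΨ), hΦ1⟩

/-- embedding with a global fixed point -/
def emb (G : Type) [Group G] : G →* Perm (G ⊕ Unit) :=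
  (Perm.sumCongrHom G Unit).comp ((MonoidHom.inl _ _).comp (MulAction.toPermHom G G))

theorem emb_inj : Function.Injective (emb G) := by
  intro a b h
  have := DFunLike.congr_fun h (Sum.inl 1)
  simpa [emb] using this

theorem core_bot (H : Subgroup G) : (H.map (emb G)).normalCore = ⊥ := by
  classical
  rw [eq_bot_iff]
  intro n hn
  rw [Subgroup.mem_bot]
  ext p
  obtain ⟨g, -, hg⟩ := hn (Equiv.swap (Sum.inr ()) p)
  have h1 : emb G g (Sum.inr ()) = Sum.inr () := by simp [emb]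
  rw [hg] at h1
  simp only [Perm.mul_apply, swap_inv, swap_apply_left] at h1
  have h2 := congrArg (Equiv.swap (Sum.inr ()) p) h1
  simpa using h2

/-- a conjugacy class of size at most two -/
def Small (H : Type) [Group H] : Prop :=
  ∃ x : H, x ≠ 1 ∧ ∀ g, g * x * g⁻¹ = x ∨ g * x * g⁻¹ = x⁻¹

theorem Small.map {H H' : Type} [Group H] [Group H'] (e : H ≃* H') (h : Small H) : Small H' := by
  obtain ⟨x, hx, h⟩ := h
  refine ⟨e x, by simpa using hx, fun g => ?_⟩
  obtain ⟨g, rfl⟩ := e.surjective g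
  rcases h g with h | h
  · left; rw [← map_inv, ← map_mul, ← map_mul, h]
  · right; rw [← map_inv, ← map_mul, ← map_mul, h, map_inv]

/-- the symmetric group on three points -/
abbrev S := Perm (Fin 3)

/-- permuting coordinates -/
def ph (α : G →* Perm X) : G →* MulAut (X → S) where
  toFun g :=
    { toFun := fun f x => f ((α g)⁻¹ x)
      invFun := fun f x => f (α g x)
      left_inv := fun f => by ext1 x; simp
      right_inv := fun f => by ext1 x; simp
      map_mul' := fun _ _ => rfl }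
  map_one' := by ext1 f; ext1 x; simp
  map_mul' g h := by ext1 f; ext1 x; simp

theorem ph_apply (α : G →* Perm X) (g : G) (f : X → S) (x : X) :
    ph α g f x = f ((α g)⁻¹ x) := rfl

/-- the wreath product -/
abbrev W (α : G →* Perm X) : Type := (X → S) ⋊[ph α] G

theorem small1 [DecidableEq X] (α : G →* Perm X) (x0 : X) :
    Small (St (α.comp (SemidirectProduct.rightHom : W α →* G)) x0) := by
  let c : S := swap 0 1 * swap 1 2
  have hc : ∀ s : S, s * c * s⁻¹ = c ∨ s * c * s⁻¹ = c⁻¹ := by decide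
  refine ⟨⟨SemidirectProduct.inl (Pi.mulSingle x0 c), by simp [mem_St]⟩, ?_, ?_⟩
  · intro h
    have h1 := congrArg (fun u : St (α.comp (SemidirectProduct.rightHom : W α →* G)) x0 =>
      u.1.left x0) h
    simp only [SemidirectProduct.left_inl, Pi.mulSingle_eq_same] at h1
    have h2 : c ≠ 1 := by decide
    exact h2 h1
  · rintro ⟨g, hg⟩
    have hg' : α g.right x0 = x0 := hg
    have hg'' : (α g.right)⁻¹ x0 = x0 := by rw [Perm.inv_eq_iff_eq, hg']
    have key : g * SemidirectProduct.inl (Pi.mulSingle x0 c) * g⁻¹ =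
        SemidirectProduct.inl (Pi.mulSingle x0 (g.left x0 * c * (g.left x0)⁻¹)) := by
      ext x
      · by_cases hx : x = x0
        · subst hx
          simp [ph_apply, hg', hg'']
        · have : (α g.right).symm x ≠ x0 := fun h => hx (by rw [← hg', ← h]; simp)
          simp [ph_apply, hx, this]
      · simp
    rcases hc (g.left x0) with h | h
    · left; apply Subtype.ext
      change g * SemidirectProduct.inl (Pi.mulSingle x0 c) * g⁻¹ = _
      rw [key, h]
    · right; apply Subtype.ext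
      change g * SemidirectProduct.inl (Pi.mulSingle x0 c) * g⁻¹ =
        (SemidirectProduct.inl (Pi.mulSingle x0 c))⁻¹
      rw [key, h, ← map_inv, Pi.mulSingle_inv]

theorem small2 [DecidableEq X] (α : G →* Perm X) (β : G →* Perm Y) (y0 : Y)
    (hα : Function.Injective α) (hfix : ∀ x, ∃ h, β h y0 = y0 ∧ α h x ≠ x) :
    ¬ Small (St (β.comp (SemidirectProduct.rightHom : W α →* G)) y0) := by
  rintro ⟨⟨u, hu⟩, hne, h⟩
  have hl : ∀ f : X → S, (∀ x, f x * u.left x * (f ((α u.right)⁻¹ x))⁻¹ = u.left x) ∨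
      (∀ x, f x * u.left x * (f ((α u.right)⁻¹ x))⁻¹ = (u.left (α u.right x))⁻¹) := by
    intro f
    rcases h ⟨SemidirectProduct.inl f, by simp [mem_St]⟩ with h1 | h1
    · left; intro x
      have := congrArg (fun v : St (β.comp (SemidirectProduct.rightHom : W α →* G)) y0 =>
        v.1.left x) h1
      simpa [ph_apply] using this
    · right; intro x
      have := congrArg (fun v : St (β.comp (SemidirectProduct.rightHom : W α →* G)) y0 =>
        v.1.left x) h1
      have e : ((ph α) u.right).symm u.left x = u.left (α u.right x) := rfl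
      simpa [ph_apply, e] using this
  have hσ : ∀ x, (α u.right)⁻¹ x = x := by
    intro x
    by_contra hx
    have h1 : ∀ s : S, s * u.left x = u.left x ∨ s * u.left x = (u.left (α u.right x))⁻¹ := by
      intro s
      have hx' : (α u.right).symm x ≠ x := hx
      rcases hl (Pi.mulSingle x s) with h2 | h2
      · left; simpa [hx'] using h2 x
      · right; simpa [hx'] using h2 x
    have h3 : ∀ a b : S, ¬ ∀ s : S, s * a = a ∨ s * a = b := by decide
    exact h3 _ _ h1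
  have hσ' : α u.right = 1 := by
    rw [← inv_eq_one]; ext x; exact hσ x
  have hr : u.right = 1 := hα (by rw [hσ', map_one])
  obtain ⟨x, hx⟩ : ∃ x, u.left x ≠ 1 := by
    by_contra h0
    push Not at h0
    apply hne
    apply Subtype.ext
    ext x
    · simp [h0]
    · simp [hr]
  obtain ⟨k, hk, hk'⟩ := hfix x
  have hx' : u.left (α k x) ≠ 1 := by
    rcases h ⟨SemidirectProduct.inr k, by simpa [mem_St] using hk⟩ with h1 | h1
    · have := congrArg (fun v : St (β.comp (SemidirectProduct.rightHom : W α →* G)) y0 =>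
        v.1.left (α k x)) h1
      simp [ph_apply, hr] at this
      rw [← this]; exact hx
    · have := congrArg (fun v : St (β.comp (SemidirectProduct.rightHom : W α →* G)) y0 =>
        v.1.left (α k x)) h1
      simp [ph_apply, hr] at this
      intro h0
      rw [h0] at this
      exact hx (by simpa using this)
  simp only [hσ', inv_one, Perm.one_apply] at hl
  have h4 : ∀ s t : S, (s * u.left x * s⁻¹ = u.left x ∧ t * u.left (α k x) * t⁻¹ = u.left (α k x)) ∨
      (s * u.left x * s⁻¹ = (u.left x)⁻¹ ∧ t * u.left (α k x) * t⁻¹ = (u.left (α k x))⁻¹) := by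
    intro s t
    rcases hl (fun z => if z = x then s else t) with h2 | h2
    · left; exact ⟨by simpa using h2 x, by simpa [hk'] using h2 (α k x)⟩
    · right; exact ⟨by simpa using h2 x, by simpa [hk'] using h2 (α k x)⟩
  have h5 : ∀ a b : S, a ≠ 1 → b ≠ 1 → ¬ ∀ s t : S, (s * a * s⁻¹ = a ∧ t * b * t⁻¹ = b) ∨
      (s * a * s⁻¹ = a⁻¹ ∧ t * b * t⁻¹ = b⁻¹) := by decide +kernel
  exact h5 _ _ hx hx' h4

end Pool.Agent.H10.Sc
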