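import Mathlib

namespace Pool.Agent.H10.Sharp
open FirstOrder Language Structure

variable (L : FirstOrder.Language.{0, 0}) {M : Type} [L.Structure M]

/-- `a i ↦ b i` preserves all relations in both directions -/
def SameQF {ι : Type} (a b : ι → M) : Prop :=
  ∀ (n : ℕ) (R : L.Relations n) (t : Fin n → ι), RelMap R (a ∘ t) ↔ RelMap R (b ∘ t)

/-- every isomorphism between finite substructures extends to an automorphism -/
def UH (M : Type) [L.Structure M] : Prop :=
  ∀ (n : ℕ) (a b : Fin n ↪ M), SameQF L a b → ∃ g : M ≃[L] M, ∀ i, g (a i) = b i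

/-- strong amalgamation of the age of `M` -/
def SAP (M : Type) [L.Structure M] : Prop :=
  ∀ (A B C : Type) [L.Structure A] [L.Structure B] [L.Structure C] [Finite B] [Finite C],
    Nonempty (B ↪[L] M) → Nonempty (C ↪[L] M) → ∀ (f : A ↪[L] B) (g : A ↪[L] C),
    ∃ (D : Type) (_ : L.Structure D) (_ : Finite D) (_ : Nonempty (D ↪[L] M)) (f' : B ↪[L] D)
      (g' : C ↪[L] D), (∀ a, f' (f a) = g' (g a)) ∧ ∀ b c, f' b = g' c → ∃ a, f a = b

/-- all `k`-element substructures are rigid -/
def Rigid (M : Type) [L.Structure M] (k : ℕ) : Prop :=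
  ∀ (a : Fin k ↪ M) (π : Equiv.Perm (Fin k)), SameQF L a (a ∘ π) → π = 1

/-- a structurally sharply `k`-transitive action by automorphisms -/
def Sharp (M : Type) [L.Structure M] (G : Type) [Group G] [MulAction G M] (k : ℕ) : Prop :=
  (∀ g : G, SameQF L id fun x : M => g • x) ∧
    ∀ a b : Fin k ↪ M, SameQF L a b → ∃! g : G, ∀ i, g • a i = b i

variable {L} {ι : Type}

theorem SameQF.symm {a b : ι → M} (h : SameQF L a b) : SameQF L b a := fun n R t => (h n R t).symm

theorem SameQF.trans {a b c : ι → M} (h : SameQF L a b) (h' : SameQF L b c) : SameQF L a c :=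
  fun n R t => (h n R t).trans (h' n R t)

theorem SameQF.comp {κ : Type} {a b : ι → M} (h : SameQF L a b) (f : κ → ι) :
    SameQF L (a ∘ f) (b ∘ f) := fun n R t => h n R (f ∘ t)

theorem aut_same (g : M ≃[L] M) (a : ι → M) : SameQF L a (g ∘ a) :=
  fun _ R t => (g.map_rel R (a ∘ t)).symm

theorem UH.fin (h : UH L M) [Finite ι] {a b : ι → M} (ha : Function.Injective a)
    (hb : Function.Injective b) (e : SameQF L a b) : ∃ g : M ≃[L] M, ∀ i, g (a i) = b i := by
  obtain ⟨n, ⟨σ⟩⟩ := Finite.exists_equiv_fin ι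
  obtain ⟨g, hg⟩ := h n ⟨a ∘ σ.symm, ha.comp σ.symm.injective⟩ ⟨b ∘ σ.symm, hb.comp σ.symm.injective⟩
    (e.comp _)
  exact ⟨g, fun i => by simpa using hg (σ i)⟩

/-- the induced structure on a subset -/
def sub [L.IsRelational] (s : Set M) : L.Substructure M := ⟨s, fun f => isEmptyElim f⟩

theorem noalg [L.IsRelational] (h : UH L M) (h' : SAP L M) (A V : Finset M) {x : M} (hx : x ∉ A) :
    ∃ g : M ≃[L] M, (∀ a ∈ A, g a = a) ∧ g x ∉ V := by
  classical
  haveI : Finite (sub (L := L) (insert x A : Set M)) := (A.finite_toSet.insert x).to_subtype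
  haveI : Finite (sub (L := L) (A ∪ V : Set M)) := (A.finite_toSet.union V.finite_toSet).to_subtype
  obtain ⟨D, _, _, ⟨j⟩, f, g, h1, h2⟩ := h' (sub (L := L) (A : Set M)) (sub (L := L) (insert x A : Set M))
    (sub (L := L) (A ∪ V : Set M)) ⟨Substructure.subtype _⟩ ⟨Substructure.subtype _⟩
    (Substructure.inclusion fun _ h => Set.mem_insert_of_mem _ h)
    (Substructure.inclusion fun _ h => Set.mem_union_left _ h)
  have e : ∀ {S : L.Substructure M} (u : S ↪[L] M), SameQF L Subtype.val u := fun u n R t =>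
    ((Substructure.subtype _).map_rel R t).trans (u.map_rel R t).symm
  obtain ⟨α, hα⟩ := h.fin Subtype.val_injective (j.comp f).injective (e (j.comp f))
  obtain ⟨β, hβ⟩ := h.fin (j.comp g).injective Subtype.val_injective (e (j.comp g)).symm
  refine ⟨β.comp α, fun a ha => ?_, fun hv => ?_⟩
  · exact (congrArg β ((hα ⟨a, .inr ha⟩).trans (congrArg j (h1 ⟨a, ha⟩)))).trans (hβ _)
  · obtain ⟨a, ha⟩ := h2 ⟨x, .inl rfl⟩ ⟨_, .inr hv⟩ (j.injective (β.injective
      ((congrArg β (hα ⟨x, .inl rfl⟩).symm).trans (hβ ⟨_, .inr hv⟩).symm)))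
    have e : a.1 = x := congrArg Subtype.val ha
    exact hx (e ▸ a.2)

end Pool.Agent.H10.Sharp
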