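import Pool.Agent.H10.Sharp

namespace Pool.Agent.H10.Sharp
open FirstOrder Language Structure Equiv Finset

variable {L : FirstOrder.Language.{0, 0}} {M : Type} [L.Structure M] {k : ℕ}

def AutS (L : FirstOrder.Language.{0, 0}) (M : Type) [L.Structure M] : Subgroup (Perm M) where
  carrier := {π | SameQF L id π}
  one_mem' := fun _ _ _ => Iff.rfl
  mul_mem' := fun {_ b} ha hb => SameQF.trans hb (SameQF.comp ha b)
  inv_mem' := fun {a} ha => by
    have := (SameQF.comp ha a.symm).symm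
    rwa [self_comp_symm] at this

def NA (L : FirstOrder.Language.{0, 0}) (M : Type) [L.Structure M] : Prop :=
  ∀ (A V : Finset M) (x : M), x ∉ A → ∃ g ∈ AutS L M, (∀ a ∈ A, g a = a) ∧ g x ∉ V

def Cp {F : Type} [Group F] (ℓ : (Fin k ↪ M) → F) (D : Finset M) (π : Perm M) (x : F) : Prop :=
  ∀ t : Fin k ↪ M, (∀ j, t j ∈ D) → ℓ (π • t) = x * ℓ t

variable [DecidableEq M] {F : Type} [Group F] {ℓ : (Fin k ↪ M) → F} {D V : Finset M} {π : Perm M}
  {x : F}

theorem Cp.symm (h : Cp ℓ D π x) : Cp ℓ (D.image π) π⁻¹ x⁻¹ := fun t ht => by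
  rw [eq_inv_mul_iff_mul_eq, ← h, smul_inv_smul]
  intro j
  obtain ⟨w, hw, e⟩ := mem_image.1 (ht j)
  change π⁻¹ (t j) ∈ D
  simpa [← e] using hw

theorem leaf (na : NA L M) (hπ : π ∈ AutS L M) (hD : D ⊆ V) (hD' : D.image π ⊆ V) {c : M}
    (hc : c ∈ V) (h : Cp ℓ D π x) : ∃ π' ∈ AutS L M, ∃ (ℓ' : (Fin k ↪ M) → F) (V' : Finset M),
      V ⊆ V' ∧ (insert c D).image π' ⊆ V' ∧ Cp ℓ' (insert c D) π' x ∧ (∀ w ∈ D, π' w = π w) ∧
      ∀ t : Fin k ↪ M, (∀ j, t j ∈ V) → ℓ' t = ℓ t := by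
  by_cases c0 : c ∈ D
  · rw [insert_eq_of_mem c0]
    exact ⟨π, hπ, ℓ, V, le_rfl, hD', h, fun _ _ => rfl, fun _ _ => rfl⟩
  obtain ⟨β, b1, b2, b3⟩ := na (D.image π) V (π c) (by simpa using c0)
  have e : ∀ w ∈ D, (β * π) w = π w := fun w hw => b2 _ (mem_image_of_mem _ hw)
  have e1 : ∀ t : Fin k ↪ M, (∀ j, t j ∈ V) → ¬ ∃ j, t j = β (π c) := fun t ht ⟨j, hj⟩ =>
    b3 (hj ▸ ht j)
  refine ⟨β * π, mul_mem b1 hπ, fun s => if ∃ j, s j = β (π c) then x * ℓ ((β * π)⁻¹ • s) else ℓ s,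
    insert (β (π c)) V, subset_insert _ _, ?_, fun t ht => ?_, e, fun t ht => if_neg (e1 t ht)⟩
  · rw [image_insert, image_congr (g := π) e]
    exact insert_subset_insert _ hD'
  · dsimp only
    rw [if_neg (e1 t fun j => insert_subset hc hD (ht j)), inv_smul_smul]
    split_ifs with h1
    · rfl
    have : ∀ j, t j ∈ D := fun j => (mem_insert.1 (ht j)).resolve_left fun h =>
      h1 ⟨j, congrArg (β * π) h⟩
    rw [← h t this]
    exact congrArg ℓ (Function.Embedding.ext fun j => e _ (this j))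

theorem both (na : NA L M) (hπ : π ∈ AutS L M) (hD : D ⊆ V) (hD' : D.image π ⊆ V) {c : M}
    (hc : c ∈ V) (h : Cp ℓ D π x) : ∃ π' ∈ AutS L M, ∃ (ℓ' : (Fin k ↪ M) → F) (V' D' : Finset M),
      V ⊆ V' ∧ D' ⊆ V' ∧ D'.image π' ⊆ V' ∧ Cp ℓ' D' π' x ∧ D ⊆ D' ∧ (∀ w ∈ D, π' w = π w) ∧
      (∀ t : Fin k ↪ M, (∀ j, t j ∈ V) → ℓ' t = ℓ t) ∧ c ∈ D' ∧ c ∈ D'.image π' := by
  have im : ∀ (ρ : Perm M) (U : Finset M), (U.image ρ).image (ρ⁻¹ : Perm M) = U := fun ρ U => by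
    simp [image_image, Function.comp_def]
  obtain ⟨π1, a1, ℓ1, V1, a2, a3, a4, a5, a6⟩ := leaf na hπ hD hD' hc h
  obtain ⟨π2, b1, ℓ2, V2, b2, b3, b4, b5, b6⟩ := leaf na (inv_mem a1) a3
    ((im π1 _).le.trans ((insert_subset hc hD).trans a2)) (a2 hc) a4.symm
  have e : ∀ w ∈ insert c D, π2 (π1 w) = w := fun w hw => by
    simpa using b5 _ (mem_image_of_mem _ hw)
  have e1 : insert c D ⊆ (insert c ((insert c D).image π1)).image π2 := fun w hw =>
    e w hw ▸ mem_image_of_mem _ (mem_insert_of_mem (mem_image_of_mem _ hw))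
  refine ⟨π2⁻¹, inv_mem b1, ℓ2, V2, _, a2.trans b2, b3, (im π2 _).le.trans
    ((insert_subset (a2 hc) a3).trans b2), inv_inv x ▸ b4.symm, (subset_insert _ _).trans e1,
    fun w hw => ?_, fun t ht => (b6 t fun j => a2 (ht j)).trans (a6 t ht),
    e1 (mem_insert_self _ _), (im π2 _).ge (mem_insert_self _ _)⟩
  rw [← a5 w hw, Perm.inv_eq_iff_eq, e w (mem_insert_of_mem hw)]

abbrev I (M : Type) (k : ℕ) := (Fin k ↪ M) × (Fin k ↪ M)

def Cn (D : I M k → Finset M) (π : I M k → Perm M) : (Fin k ↪ M) → (Fin k ↪ M) → Prop :=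
  Relation.EqvGen fun s t => ∃ i, (∀ j, s j ∈ D i) ∧ t = π i • s

structure C (L : FirstOrder.Language.{0, 0}) (M : Type) [L.Structure M] [DecidableEq M] (k : ℕ) where
  V : Finset M
  D : I M k → Finset M
  π : I M k → Perm M
  a : ∀ i, π i ∈ AutS L M ∧ D i ⊆ V ∧ (D i).image (π i) ⊆ V
  l : ∃ ℓ : (Fin k ↪ M) → FreeGroup (I M k), ∀ i, Cp ℓ (D i) (π i) (.of i)
  o : ∀ i, D i = ∅ ∨ (SameQF L i.1 i.2 → Cn D π i.1 i.2)

instance : Preorder (C L M k) where
  le c d := ∀ i, c.D i ⊆ d.D i ∧ ∀ w ∈ c.D i, d.π i w = c.π i w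
  le_refl c := fun _ => ⟨le_rfl, fun _ _ => rfl⟩
  le_trans c d e h h' := fun i => ⟨(h i).1.trans (h' i).1, fun w hw =>
    ((h' i).2 w ((h i).1 hw)).trans ((h i).2 w hw)⟩

omit [DecidableEq M] in
theorem Cn.mono {D D' : I M k → Finset M} {π π' : I M k → Perm M}
    (h : ∀ i, D i ⊆ D' i ∧ ∀ w ∈ D i, π' i w = π i w) {s t} (c : Cn D π s t) : Cn D' π' s t := by
  induction c with
  | rel s t c =>
    obtain ⟨i, h1, h2⟩ := c
    exact .rel _ _ ⟨i, fun j => (h i).1 (h1 j),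
      h2.trans (Function.Embedding.ext fun j => ((h i).2 _ (h1 j)).symm)⟩
  | refl => exact .refl _
  | symm _ _ _ h => exact .symm _ _ h
  | trans _ _ _ _ _ h h' => exact .trans _ _ _ h h'

theorem upd (c : C L M k) (i : I M k) {V' D' : Finset M} {π' : Perm M}
    {ℓ' : (Fin k ↪ M) → FreeGroup (I M k)} (h1 : π' ∈ AutS L M) (h2 : c.V ⊆ V') (h3 : D' ⊆ V')
    (h4 : D'.image π' ⊆ V') (h5 : Cp ℓ' D' π' (.of i)) (h6 : c.D i ⊆ D')
    (h7 : ∀ w ∈ c.D i, π' w = c.π i w) (h8 : ∀ j, j ≠ i → Cp ℓ' (c.D j) (c.π j) (.of j))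
    (h9 : SameQF L i.1 i.2 → Cn c.D c.π i.1 i.2 ∨ (∀ j, i.1 j ∈ D') ∧ i.2 = π' • i.1) :
    ∃ d, c ≤ d ∧ d.V = V' ∧ d.D i = D' ∧ d.π i = π' ∧ (SameQF L i.1 i.2 → Cn d.D d.π i.1 i.2) := by
  classical
  have m : ∀ j, c.D j ⊆ Function.update c.D i D' j ∧
      ∀ w ∈ c.D j, Function.update c.π i π' j w = c.π j w := fun j => by
    by_cases h : j = i
    · subst h; simpa using ⟨h6, h7⟩
    · simp [h]
  have o : SameQF L i.1 i.2 → Cn (Function.update c.D i D') (Function.update c.π i π') i.1 i.2 :=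
    fun h => (h9 h).elim (Cn.mono m) fun h => .rel _ _ ⟨i, by simpa using h⟩
  refine ⟨⟨V', Function.update c.D i D', Function.update c.π i π', fun j => ?_, ⟨ℓ', fun j => ?_⟩,
    fun j => ?_⟩, m, rfl, by simp, by simp, o⟩
  · by_cases h : j = i
    · subst h; simpa using ⟨h1, h3, h4⟩
    · simpa [h] using ⟨(c.a j).1, (c.a j).2.1.trans h2, (c.a j).2.2.trans h2⟩
  · by_cases h : j = i
    · subst h; simpa using h5
    · simpa [h] using h8 j h
  · by_cases h : j = i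
    · subst h; exact .inr o
    · exact (c.o j).imp (by simp [h]) fun h1 h2 => (h1 h2).mono m

theorem Cn.same (c : C L M k) {s t} (h : Cn c.D c.π s t) : SameQF L s t := by
  induction h with
  | rel s t h => obtain ⟨i, -, rfl⟩ := h; exact SameQF.comp (c.a i).1 s
  | refl => exact fun _ _ _ => Iff.rfl
  | symm _ _ _ h => exact h.symm
  | trans _ _ _ _ _ h h' => exact h.trans h'

omit [DecidableEq M] in
theorem Cn.perm {D : I M k → Finset M} {π : I M k → Perm M} (σ : Perm (Fin k)) {s t}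
    (h : Cn D π s t) : Cn D π (σ.toEmbedding.trans s) (σ.toEmbedding.trans t) := by
  induction h with
  | rel s t h => obtain ⟨i, h, rfl⟩ := h; exact .rel _ _ ⟨i, fun j => h _, rfl⟩
  | refl => exact .refl _
  | symm _ _ _ h => exact .symm _ _ h
  | trans _ _ _ _ _ h h' => exact .trans _ _ _ h h'

theorem merge (uh : UH L M) (r : Rigid L M k) (c : C L M k) (i : I M k) :
    ∃ d, c ≤ d ∧ (SameQF L i.1 i.2 → Cn d.D d.π i.1 i.2) := by
  classical
  by_cases h : SameQF L i.1 i.2 → Cn c.D c.π i.1 i.2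
  · exact ⟨c, le_rfl, h⟩
  have h0 := (c.o i).resolve_right h
  push Not at h
  obtain ⟨ℓ, hℓ⟩ := c.l
  obtain ⟨α, hα⟩ := uh k i.1 i.2 h.1
  have r1 : ∀ σ σ' : Perm (Fin k), SameQF L (σ.toEmbedding.trans i.2) (σ'.toEmbedding.trans i.2) →
      σ' = σ := fun σ σ' h => mul_inv_eq_one.1 (r i.2 _ (by
        have := h.comp σ.symm
        rwa [show (σ.toEmbedding.trans i.2) ∘ σ.symm = i.2 from funext fun j => by simp] at this))
  let U : (Perm (Fin k) → Prop) → FreeGroup (I M k) := fun P => if h : ∃ σ, P σ then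
    (ℓ (h.choose.toEmbedding.trans i.2))⁻¹ * .of i * ℓ (h.choose.toEmbedding.trans i.1) else 1
  obtain ⟨d, h1, -, -, -, h2⟩ := upd c i (V' := c.V ∪ (univ.map i.1 ∪ univ.map i.2))
    (D' := univ.map i.1) (π' := α.toEquiv)
    (ℓ' := fun s => ℓ s * U fun σ => Cn c.D c.π s (σ.toEmbedding.trans i.2)) (aut_same α id)
    subset_union_left (fun w hw => by simp [hw]) (fun w hw => by
      obtain ⟨_, hv, rfl⟩ := mem_image.1 hw
      obtain ⟨j, -, rfl⟩ := mem_map.1 hv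
      rw [show α.toEquiv (i.1 j) = i.2 j from hα j]
      simp) (fun t ht => by
      choose f _ hf using fun j => mem_map.1 (ht j)
      obtain ⟨σ, rfl⟩ : ∃ σ : Perm (Fin k), t = σ.toEmbedding.trans i.1 :=
        ⟨Equiv.ofBijective f (Finite.injective_iff_bijective.1 fun u v e =>
          t.injective (by rw [← hf, ← hf, e])), Function.Embedding.ext fun j => (hf j).symm⟩
      have e : α.toEquiv • σ.toEmbedding.trans i.1 = σ.toEmbedding.trans i.2 :=
        Function.Embedding.ext fun j => hα _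
      have e1 : ∃ σ' : Perm (Fin k), Cn c.D c.π (σ.toEmbedding.trans i.2)
        (σ'.toEmbedding.trans i.2) := ⟨σ, .refl _⟩
      have e2 : ¬ ∃ σ' : Perm (Fin k), Cn c.D c.π (σ.toEmbedding.trans i.1)
          (σ'.toEmbedding.trans i.2) := by
        rintro ⟨σ', h'⟩
        obtain rfl := r1 σ σ' ((h.1.comp σ).symm.trans (h'.same c))
        have := h'.perm σ'.symm
        refine h.2 ?_
        convert this using 1 <;> ext j <;> simp
      simp only [e, U, dif_pos e1, dif_neg e2, r1 _ _ (e1.choose_spec.same c)]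
      group) (by simp [h0]) (by simp [h0]) (fun j _ t ht => by
      have : Cn c.D c.π t (c.π j • t) := .rel _ _ ⟨j, ht, rfl⟩
      dsimp only
      rw [hℓ j t ht, mul_assoc]
      congr 3
      exact funext fun σ => propext ⟨.trans _ _ _ this, .trans _ _ _ (.symm _ _ this)⟩)
    fun _ => .inr ⟨by simp, Function.Embedding.ext fun j => (hα j).symm⟩
  exact ⟨d, h1, h2⟩

theorem dense (uh : UH L M) (na : NA L M) (r : Rigid L M k) (i : I M k) (w : M) (c : C L M k) :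
    ∃ d, ((SameQF L i.1 i.2 → Cn d.D d.π i.1 i.2) ∧ w ∈ d.D i ∧ w ∈ (d.D i).image (d.π i)) ∧
      c ≤ d := by
  obtain ⟨d, h1, h2⟩ := merge uh r c i
  obtain ⟨ℓ, hℓ⟩ := d.l
  obtain ⟨π', a1, ℓ', V', D', a2, a3, a4, a5, a6, a7, a8, a9⟩ := both (V := insert w d.V) na
    (d.a i).1 ((d.a i).2.1.trans (subset_insert _ _)) ((d.a i).2.2.trans (subset_insert _ _))
    (mem_insert_self _ _) (hℓ i)
  obtain ⟨e, b1, -, b2, b3, b4⟩ := upd d i a1 ((subset_insert _ _).trans a2) a3 a4 a5 a6 a7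
    (fun j _ t ht => by
      rw [a8, a8 t fun l => mem_insert_of_mem ((d.a j).2.1 (ht l)), hℓ j t ht]
      exact fun l => mem_insert_of_mem ((d.a j).2.2 (mem_image_of_mem _ (ht l))))
    fun h => .inl (h2 h)
  exact ⟨e, ⟨b4, b2 ▸ a9.1, b2 ▸ b3 ▸ a9.2⟩, h1.trans b1⟩

theorem main [Countable M] (uh : UH L M) (na : NA L M) (r : Rigid L M k) (hk : 0 < k) :
    ∃ (G : Type) (_ : Group G) (_ : MulAction G M), Sharp L M G k := by
  let 𝒟 : I M k × M → Order.Cofinal (C L M k) := fun q => ⟨_, fun c => dense uh na r q.1 q.2 c⟩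
  haveI : Countable (Fin k ↪ M) := DFunLike.coe_injective.countable
  letI := Encodable.ofCountable (I M k × M)
  let c0 : C L M k := ⟨∅, fun _ => ∅, fun _ => 1, fun _ => ⟨one_mem _, le_rfl, le_rfl⟩,
    ⟨fun _ => 1, fun _ _ h => by simpa using h ⟨0, hk⟩⟩, fun _ => .inl rfl⟩
  let s := Order.sequenceOfCofinals c0 𝒟
  have m : Monotone s := Order.sequenceOfCofinals.monotone c0 𝒟
  have h : ∀ i w, ∃ n, (SameQF L i.1 i.2 → Cn (s n).D (s n).π i.1 i.2) ∧ w ∈ (s n).D i ∧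
      w ∈ ((s n).D i).image ((s n).π i) := fun i w =>
    ⟨_, Order.sequenceOfCofinals.encode_mem c0 𝒟 (i, w)⟩
  choose n hn using h
  have g2 : ∀ i (U : Finset M), ∃ l, ∀ l' ≥ l, U ⊆ (s l').D i := fun i U =>
    ⟨U.sup (n i), fun l hl w hw => (m ((le_sup (f := n i) hw).trans hl) i).1 (hn i w).2.1⟩
  have hg : ∀ i, ∃ g ∈ AutS L M, ∀ l, ∀ w ∈ (s l).D i, g w = (s l).π i w := fun i => by
    let g : M → M := fun w => (s (n i w)).π i w
    have g1 : ∀ l, ∀ w ∈ (s l).D i, g w = (s l).π i w := fun l w hw =>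
      ((m (le_max_left (n i w) l) _).2 w (hn i w).2.1).symm.trans
        ((m (le_max_right _ _) _).2 w hw)
    refine ⟨Equiv.ofBijective g ⟨fun u v e => ?_, fun w => ?_⟩, fun l R t => ?_, g1⟩
    · obtain ⟨l, hl⟩ := g2 i {u, v}
      rw [g1 l u (hl l le_rfl (by simp)), g1 l v (hl l le_rfl (by simp))] at e
      exact ((s l).π _).injective e
    · obtain ⟨u, hu, e⟩ := mem_image.1 (hn i w).2.2
      exact ⟨u, (g1 _ u hu).trans e⟩
    · obtain ⟨l', hl⟩ := g2 i (univ.image t)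
      rw [((s l').a i).1 l R t]
      exact iff_of_eq (congrArg _ (funext fun j => (g1 l' _ (hl l' le_rfl (by simp))).symm))
  choose g g0 g1 using hg
  let φ : FreeGroup (I M k) →* Perm M := FreeGroup.lift g
  have φ0 : ∀ w, φ w ∈ AutS L M := fun w => by
    induction w using FreeGroup.induction_on with
    | C1 => simp
    | of i => simpa [φ] using g0 i
    | inv_of i h => simpa using h
    | mul u v hu hv => rw [map_mul]; exact mul_mem hu hv
  have φ1 : ∀ l i (t : Fin k ↪ M), (∀ j, t j ∈ (s l).D i) → φ (.of i) • t = (s l).π i • t :=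
    fun l i t ht => Function.Embedding.ext fun j => by simpa [φ] using g1 i l _ (ht j)
  have φ2 : ∀ w (t : Fin k ↪ M), ∃ l, ∀ l' ≥ l, ∀ ℓ : (Fin k ↪ M) → FreeGroup (I M k),
      (∀ i, Cp ℓ ((s l').D i) ((s l').π i) (.of i)) → ℓ (φ w • t) = w * ℓ t := fun w => by
    induction w using FreeGroup.induction_on with
    | C1 => exact fun t => ⟨0, by simp⟩
    | of i =>
      intro t
      obtain ⟨l, hl⟩ := g2 i (univ.map t)
      exact ⟨l, fun l' h ℓ hℓ => by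
        rw [φ1 l' i t fun j => hl l' h (by simp), hℓ i t fun j => hl l' h (by simp)]⟩
    | inv_of i h =>
      intro t
      obtain ⟨l, hl⟩ := h (φ (.of i)⁻¹ • t)
      refine ⟨l, fun l' h ℓ hℓ => ?_⟩
      rw [eq_inv_mul_iff_mul_eq, ← hl l' h ℓ hℓ, map_inv, smul_inv_smul]
    | mul u v hu hv =>
      intro t
      obtain ⟨l1, h1⟩ := hv t
      obtain ⟨l2, h2⟩ := hu (φ v • t)
      exact ⟨max l1 l2, fun l' h ℓ hℓ => by
        rw [map_mul, mul_smul, h2 l' (le_of_max_le_right h) ℓ hℓ, h1 l' (le_of_max_le_left h) ℓ hℓ,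
          mul_assoc]⟩
  have φ3 : ∀ l a b, Cn (s l).D (s l).π a b → ∃ w, φ w • a = b := fun l a b h => by
    induction h with
    | rel a b h => obtain ⟨i, h, rfl⟩ := h; exact ⟨_, φ1 l i a h⟩
    | refl => exact ⟨1, by simp⟩
    | symm _ _ _ h => obtain ⟨w, rfl⟩ := h; exact ⟨w⁻¹, by simp⟩
    | trans _ _ _ _ _ h h' =>
      obtain ⟨w, rfl⟩ := h
      obtain ⟨w', rfl⟩ := h'
      exact ⟨w' * w, by rw [map_mul, mul_smul]⟩
  refine ⟨_, inferInstance, MulAction.compHom M φ, φ0, fun a b hab => ?_⟩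
  obtain ⟨w, hw⟩ := φ3 _ a b ((hn (a, b) (a ⟨0, hk⟩)).1 hab)
  refine ⟨w, fun j => DFunLike.congr_fun hw j, fun v hv => ?_⟩
  obtain ⟨l1, h1⟩ := φ2 w a
  obtain ⟨l2, h2⟩ := φ2 v a
  obtain ⟨ℓ, hℓ⟩ := (s (max l1 l2)).l
  have := h2 _ (le_max_right _ _) ℓ hℓ
  rw [show φ v • a = b from Function.Embedding.ext hv, ← hw, h1 _ (le_max_left _ _) ℓ hℓ] at this
  exact (mul_right_cancel this).symm

end Pool.Agent.H10.Sharp
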