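import Pool.Agent.H10.LieLang

namespace Pool.Agent.H10.Shir
open Pool.Agent.H10.LieHom Pool.Agent.H10.LieLang LieSubalgebra FreeLieAlgebra

variable {K : Type} [Field K] {H : Type} [LieRing H] [LieAlgebra K H] {X : Type}

abbrev Sp (K : Type) [Field K] {H : Type} [LieRing H] [LieAlgebra K H] (s : Set H) :
    LieSubalgebra K H := lieSpan K H s

/-- a Lie-independent family -/
def Free (K : Type) [Field K] {H : Type} [LieRing H] [LieAlgebra K H] {X : Type} (e : X → H) :
    Prop := Function.Injective (lift K e)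

theorem lift_comp {B : Type} [LieRing B] [LieAlgebra K B] (f : H →ₗ⁅K⁆ B) (e : X → H)
    (q : FreeLieAlgebra K X) : lift K (fun x => f (e x)) q = f (lift K e q) :=
  LieHom.congr_fun (f := lift K fun x => f (e x)) (g := f.comp (lift K e))
    (hom_ext fun x => by simp) q

theorem lift_of (q : FreeLieAlgebra K X) : lift K (of K) q = q :=
  LieHom.congr_fun (f := lift K (of K)) (g := LieHom.id) (hom_ext fun x => by simp) q

theorem map_Sp {B : Type} [LieRing B] [LieAlgebra K B] (f : H →ₗ⁅K⁆ B) {s : Set H} {a : H}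
    (ha : a ∈ Sp K s) : f a ∈ Sp K (f '' s) := by
  rw [Sp, ← map_lieSpan]; exact ⟨a, ha, rfl⟩

theorem Sp_pull (e : X → H) (s : Set X) {a : H} (ha : a ∈ Sp K (e '' s)) :
    ∃ q ∈ Sp K (of K '' s), lift K e q = a := by
  have : e '' s = lift K e '' (of K '' s) := by
    rw [Set.image_image]; simp
  rw [this, Sp, ← map_lieSpan] at ha
  exact ha

theorem lift_mem (e : X → H) (q : FreeLieAlgebra K X) : lift K e q ∈ Sp K (Set.range e) :=
  gens_free ((Sp K (Set.range e)).comap (lift K e))
    (fun i => by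
      change lift K e (of K i) ∈ Sp K (Set.range e)
      rw [lift_of_apply]; exact subset_lieSpan ⟨i, rfl⟩) q

theorem eq_on_Sp {B : Type} [LieRing B] [LieAlgebra K B] {f g : H →ₗ⁅K⁆ B} {s : Set H}
    (h : ∀ a ∈ s, f a = g a) {a : H} (ha : a ∈ Sp K s) : f a = g a := by
  induction ha using lieSpan_induction with
  | mem u hu => exact h u hu
  | zero => simp
  | add u v _ _ hu hv => simp [hu, hv]
  | smul t u _ hu => simp [hu]
  | lie u v _ _ hu hv => simp [hu, hv]

theorem Free.map {B : Type} [LieRing B] [LieAlgebra K B] {e : X → H} (he : Free K e)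
    {f : H →ₗ⁅K⁆ B} (hf : Function.Injective f) : Free K fun x => f (e x) := fun p q h =>
  he (hf (by rwa [lift_comp, lift_comp] at h))

theorem Free.of_free {Y : Type} {e : X → H} (he : Free K e) {u : Y → FreeLieAlgebra K X}
    (hu : Free K u) : Free K fun y => lift K e (u y) := hu.map he

theorem Free.comp {Y : Type} {e : X → H} (he : Free K e) {j : Y → X}
    (hj : Function.Injective j) : Free K fun y => e (j y) := by
  classical
  have : Free K fun y => (of K (j y) : FreeLieAlgebra K X) := by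
    refine Function.LeftInverse.injective
      (g := lift K fun x => if h : ∃ y, j y = x then of K h.choose else 0) fun q => ?_
    rw [← lift_comp]
    refine Eq.trans ?_ (lift_of q)
    congr 2
    funext y
    have h : ∃ y', j y' = j y := ⟨y, rfl⟩
    rw [lift_of_apply, dif_pos h, hj h.choose_spec]
  simpa using he.of_free this

theorem Free.exchange [DecidableEq X] {e : X → H} (he : Free K e) (x0 : X) {c : K} (hc : c ≠ 0)
    {p : H} (hp : p ∈ Sp K (e '' {x0}ᶜ)) :
    Free K (Function.update e x0 (c • e x0 + p)) ∧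
      Sp K (Set.range (Function.update e x0 (c • e x0 + p))) = Sp K (Set.range e) := by
  constructor
  · obtain ⟨q, hq, rfl⟩ := Sp_pull e _ hp
    have fix : ∀ a : FreeLieAlgebra K X, lift K (Function.update (of K) x0 a) q = q := fun a =>
      eq_on_Sp (g := LieHom.id) (by
        rintro _ ⟨x, hx, rfl⟩
        rw [lift_of_apply, Function.update_of_ne hx]; rfl) hq
    have : Free K (Function.update (of K) x0 (c • of K x0 + q) : X → FreeLieAlgebra K X) := by
      refine Function.LeftInverse.injective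
        (g := lift K (Function.update (of K) x0 (c⁻¹ • (of K x0 - q)))) fun a => ?_
      rw [← lift_comp]
      refine Eq.trans ?_ (lift_of a)
      congr 2
      funext y
      by_cases h : y = x0
      · subst h
        simp [fix, smul_smul, hc]
      · simp [Function.update_of_ne h]
    have h2 := he.of_free this
    have e2 : (fun y => lift K e (Function.update (of K) x0 (c • of K x0 + q) y)) =
        Function.update e x0 (c • e x0 + lift K e q) := by
      funext y
      by_cases h : y = x0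
      · subst h; simp
      · simp [Function.update_of_ne h]
    rwa [e2] at h2
  · apply le_antisymm
    · rw [lieSpan_le]
      rintro _ ⟨y, rfl⟩
      by_cases h : y = x0
      · subst h
        rw [Function.update_self]
        exact add_mem (SMulMemClass.smul_mem _ (subset_lieSpan ⟨y, rfl⟩))
          (lieSpan_mono (Set.image_subset_range _ _) hp)
      · rw [Function.update_of_ne h]; exact subset_lieSpan ⟨y, rfl⟩
    · have h1 : Sp K (e '' {x0}ᶜ) ≤ Sp K (Set.range (Function.update e x0 (c • e x0 + p))) :=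
        lieSpan_mono (by
          rintro _ ⟨y, hy, rfl⟩
          exact ⟨y, Function.update_of_ne hy _ _⟩)
      rw [lieSpan_le]
      rintro _ ⟨y, rfl⟩
      by_cases h : y = x0
      · subst h
        have h2 : c • e y + p ∈ Sp K (Set.range (Function.update e y (c • e y + p))) :=
          subset_lieSpan ⟨y, Function.update_self _ _ _⟩
        have := SMulMemClass.smul_mem c⁻¹ (sub_mem h2 (h1 hp))
        rwa [add_sub_cancel_right, smul_smul, inv_mul_cancel₀ hc, one_smul] at this
      · exact h1 (subset_lieSpan ⟨y, h, rfl⟩)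

/-- dual numbers over a Lie algebra -/
def Du (A : Type) : Type := A × A

section du
variable {A : Type} [LieRing A] [LieAlgebra K A]
instance : AddCommGroup (Du A) := inferInstanceAs (AddCommGroup (A × A))
instance : Module K (Du A) := inferInstanceAs (Module K (A × A))
instance : Bracket (Du A) (Du A) := ⟨fun a b => ((⁅a.1, b.1⁆, ⁅a.1, b.2⁆ - ⁅b.1, a.2⁆) : A × A)⟩
@[simp] theorem Du.br1 (a b : Du A) : ⁅a, b⁆.1 = ⁅a.1, b.1⁆ := rfl
@[simp] theorem Du.br2 (a b : Du A) : ⁅a, b⁆.2 = ⁅a.1, b.2⁆ - ⁅b.1, a.2⁆ := rfl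
@[simp] theorem Du.add1 (a b : Du A) : (a + b).1 = a.1 + b.1 := rfl
@[simp] theorem Du.add2 (a b : Du A) : (a + b).2 = a.2 + b.2 := rfl
@[simp] theorem Du.smul1 (c : K) (b : Du A) : (c • b).1 = c • b.1 := rfl
@[simp] theorem Du.smul2 (c : K) (b : Du A) : (c • b).2 = c • b.2 := rfl
@[simp] theorem Du.zero1 : (0 : Du A).1 = 0 := rfl
@[simp] theorem Du.zero2 : (0 : Du A).2 = 0 := rfl

instance : LieRing (Du A) where
  add_lie a b c := Prod.ext (by simp) (by simp; abel)
  lie_add a b c := Prod.ext (by simp) (by simp; abel)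
  lie_self a := Prod.ext (by simp) (by simp)
  leibniz_lie a b c := Prod.ext (by simp) (by
    simp only [Du.br1, Du.br2, Du.add2, lie_sub, lie_lie]; abel)

instance : LieAlgebra K (Du A) where
  lie_smul t a b := Prod.ext (by simp) (by simp [smul_sub])
end du

theorem exists_der (f : X → FreeLieAlgebra K X) :
    ∃ D : LieDerivation K (FreeLieAlgebra K X) (FreeLieAlgebra K X), ∀ x, D (of K x) = f x := by
  let φ : FreeLieAlgebra K X →ₗ⁅K⁆ Du (FreeLieAlgebra K X) :=
    lift K fun x => ((of K x, f x) : _ × _)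
  let p : Du (FreeLieAlgebra K X) →ₗ⁅K⁆ FreeLieAlgebra K X :=
    { toFun := fun a => a.1, map_add' := fun _ _ => rfl, map_smul' := fun _ _ => rfl,
      map_lie' := rfl }
  have h1 : ∀ a, (φ a).1 = a := fun a =>
    LieHom.congr_fun (f := p.comp φ) (g := LieHom.id) (hom_ext fun x => by
      change (φ (of K x)).1 = _
      rw [lift_of_apply]; rfl) a
  refine ⟨{ toFun := fun a => (φ a).2, map_add' := fun a b => by simp
            map_smul' := fun a b => by simp, leibniz' := fun a b => ?_ }, fun x => ?_⟩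
  · change (φ ⁅a, b⁆).2 = ⁅a, (φ b).2⁆ - ⁅b, (φ a).2⁆
    rw [LieHom.map_lie, Du.br2, h1, h1]
  · change (φ (of K x)).2 = _
    rw [lift_of_apply]

/-- the generators left after eliminating `x0` -/
def elim (e : X → H) (x0 : X) (p : {x // x ≠ x0} × ℕ) : H := (fun b => ⁅e x0, b⁆)^[p.2] (e p.1)

theorem elim_succ (e : X → H) (x0 : X) (x : {x // x ≠ x0}) (k : ℕ) :
    elim e x0 (x, k + 1) = ⁅e x0, elim e x0 (x, k)⁆ := Function.iterate_succ_apply' _ _ _

theorem Free.elim {e : X → H} (he : Free K e) (x0 : X) : Free K (elim e x0) := by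
  classical
  obtain ⟨D, hD⟩ := exists_der (K := K) (X := {x // x ≠ x0} × ℕ) fun p => of K (p.1, p.2 + 1)
  let ψ : FreeLieAlgebra K Unit →ₗ⁅K⁆ LieDerivation K _ _ := lift K fun _ => D
  let g : FreeLieAlgebra K X →ₗ⁅K⁆ LieAlgebra.SemiDirectSum _ _ ψ :=
    lift K fun x => if h : x = x0 then ⟨0, of K ()⟩ else ⟨of K (⟨x, h⟩, 0), 0⟩
  have hg : ∀ p, g (Shir.elim (of K) x0 p) = LieAlgebra.SemiDirectSum.inl ψ (of K p) := by
    rintro ⟨x, k⟩
    induction k with
    | zero => simp [Shir.elim, g, x.2]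
    | succ k ih => rw [elim_succ, LieHom.map_lie, ih]; simp [g, ψ, hD]
  have h1 : Free K (Shir.elim (of K) x0 : _ → FreeLieAlgebra K X) := fun p q h => by
    have := congrArg g h
    rw [← lift_comp, ← lift_comp, funext hg, lift_comp, lift_comp, lift_of, lift_of] at this
    exact LieAlgebra.SemiDirectSum.inl_injective ψ this
  have h2 := he.of_free h1
  have e2 : (fun p => lift K e (Shir.elim (of K) x0 p)) = Shir.elim e x0 := by
    funext ⟨x, k⟩
    induction k with
    | zero => simp [Shir.elim]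
    | succ k ih => rw [elim_succ, elim_succ, LieHom.map_lie, ih, lift_of_apply]
  rwa [e2] at h2

theorem elim_decomp (e : X → H) (x0 : X) {a : H} (ha : a ∈ Sp K (Set.range e)) :
    ∃ c : K, a - c • e x0 ∈ Sp K (Set.range (elim e x0)) := by
  have ad : ∀ b ∈ Sp K (Set.range (elim e x0)), ⁅e x0, b⁆ ∈ Sp K (Set.range (elim e x0)) := by
    intro b hb
    induction hb using lieSpan_induction with
    | mem u hu => obtain ⟨⟨x, k⟩, rfl⟩ := hu; exact subset_lieSpan ⟨(x, k + 1), elim_succ _ _ _ _⟩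
    | zero => simp
    | add u v _ _ hu hv => rw [lie_add]; exact add_mem hu hv
    | smul t u _ hu => rw [lie_smul]; exact SMulMemClass.smul_mem _ hu
    | lie u v h1 h2 hu hv => rw [leibniz_lie]; exact add_mem (lie_mem _ hu h2) (lie_mem _ h1 hv)
  induction ha using lieSpan_induction with
  | mem u hu =>
    obtain ⟨x, rfl⟩ := hu
    by_cases h : x = x0
    · exact ⟨1, by simp [h]⟩
    · exact ⟨0, by rw [zero_smul, sub_zero]; exact subset_lieSpan ⟨(⟨x, h⟩, 0), rfl⟩⟩
  | zero => exact ⟨0, by simp⟩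
  | add u v _ _ hu hv =>
    obtain ⟨c, hc⟩ := hu
    obtain ⟨d, hd⟩ := hv
    exact ⟨c + d, by rw [add_smul, add_sub_add_comm]; exact add_mem hc hd⟩
  | smul t u _ hu =>
    obtain ⟨c, hc⟩ := hu
    exact ⟨t * c, by rw [mul_smul, ← smul_sub]; exact SMulMemClass.smul_mem _ hc⟩
  | lie u v _ _ hu hv =>
    obtain ⟨c, hc⟩ := hu
    obtain ⟨d, hd⟩ := hv
    refine ⟨0, ?_⟩
    have e1 : ⁅u, v⁆ - (0 : K) • e x0 = ⁅u - c • e x0, v - d • e x0⁆ +
        c • ⁅e x0, v - d • e x0⁆ - d • ⁅e x0, u - c • e x0⁆ := by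
      simp only [sub_lie, lie_sub, smul_lie, lie_smul, lie_self, smul_zero, sub_zero, zero_smul,
        ← lie_skew u (e x0), smul_neg]
      abel
    rw [e1]
    exact sub_mem (add_mem (lie_mem _ hc hd) (SMulMemClass.smul_mem _ (ad _ hd)))
      (SMulMemClass.smul_mem _ (ad _ hc))

/-- monomials of a given weight -/
inductive Mon (e : X → H) (w : X → ℕ) : ℕ → H → Prop
  | of (x : X) : Mon e w (w x) (e x)
  | br {i j : ℕ} {a b : H} : Mon e w i a → Mon e w j b → Mon e w (i + j) ⁅a, b⁆

def comp (K : Type) [Field K] {H : Type} [LieRing H] [LieAlgebra K H] {X : Type} (e : X → H)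
    (w : X → ℕ) (n : ℕ) : Submodule K H := Submodule.span K {a | Mon e w n a}

theorem span_br {s t : Set H} {N : Submodule K H} (h : ∀ a ∈ s, ∀ b ∈ t, ⁅a, b⁆ ∈ N) {a b : H}
    (ha : a ∈ Submodule.span K s) (hb : b ∈ Submodule.span K t) : ⁅a, b⁆ ∈ N := by
  induction ha, hb using Submodule.span_induction₂ with
  | mem_mem x y hx hy => exact h x hx y hy
  | zero_left y hy => simp
  | zero_right x hx => simp
  | add_left x y z _ _ _ h1 h2 => rw [add_lie]; exact add_mem h1 h2
  | add_right x y z _ _ _ h1 h2 => rw [lie_add]; exact add_mem h1 h2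
  | smul_left r x y _ _ h1 => rw [smul_lie]; exact N.smul_mem _ h1
  | smul_right r x y _ _ h1 => rw [lie_smul]; exact N.smul_mem _ h1

theorem comp_br {e : X → H} {w : X → ℕ} {i j : ℕ} {a b : H} (ha : a ∈ comp K e w i)
    (hb : b ∈ comp K e w j) : ⁅a, b⁆ ∈ comp K e w (i + j) :=
  span_br (fun _ h1 _ h2 => Submodule.subset_span (Mon.br h1 h2)) ha hb

theorem Sp_comp {e : X → H} (w : X → ℕ) {a : H} (ha : a ∈ Sp K (Set.range e)) :
    a ∈ Submodule.span K {a | ∃ n, Mon e w n a} := by
  induction ha using lieSpan_induction with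
  | mem u hu => obtain ⟨x, rfl⟩ := hu; exact Submodule.subset_span ⟨_, Mon.of x⟩
  | zero => simp
  | add u v _ _ hu hv => exact add_mem hu hv
  | smul t u _ hu => exact Submodule.smul_mem _ _ hu
  | lie u v _ _ hu hv =>
    refine span_br ?_ hu hv
    rintro _ ⟨_, h1⟩ _ ⟨_, h2⟩
    exact Submodule.subset_span ⟨_, Mon.br h1 h2⟩

theorem Mon.pos {e : X → H} {w : X → ℕ} (hw : ∀ x, 1 ≤ w x) {n : ℕ} {a : H} (h : Mon e w n a) :
    1 ≤ n := by
  induction h with
  | of x => exact hw x
  | br _ _ h1 h2 => omega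

theorem Sp_mono {e : X → H} {s t : Set X} (h : ∀ x ∈ s, x ∈ t) {a : H} (ha : a ∈ Sp K (e '' s)) :
    a ∈ Sp K (e '' t) := lieSpan_mono (Set.image_mono h) ha

theorem Mon.mem_Sp {e : X → H} {w : X → ℕ} {n : ℕ} {a : H} (h : Mon e w n a) :
    a ∈ Sp K (e '' {x | w x ≤ n}) := by
  induction h with
  | of x => exact subset_lieSpan ⟨x, Nat.le_refl _, rfl⟩
  | br _ _ h1 h2 =>
    refine lie_mem _ (Sp_mono (fun x hx => ?_) h1) (Sp_mono (fun x hx => ?_) h2) <;>
    · simp only [Set.mem_ofPred_eq] at hx ⊢; omega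

theorem comp_le_Sp {e : X → H} {w : X → ℕ} {n : ℕ} {a : H} (ha : a ∈ comp K e w n) :
    a ∈ Sp K (e '' {x | w x ≤ n}) :=
  (Submodule.span_le.2 fun _ h => Mon.mem_Sp h : comp K e w n ≤ (Sp K _).toSubmodule) ha

theorem comp_split {e : X → H} {w : X → ℕ} (hw : ∀ x, 1 ≤ w x) {n : ℕ} {a : H}
    (ha : a ∈ comp K e w n) :
    a ∈ Submodule.span K (e '' {x | w x = n}) ⊔ (Sp K (e '' {x | w x < n})).toSubmodule := by
  refine (Submodule.span_le.2 fun b hb => ?_ : comp K e w n ≤ _) ha
  cases hb with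
  | of x => exact Submodule.mem_sup_left (Submodule.subset_span ⟨x, rfl, rfl⟩)
  | br h1 h2 =>
    have p1 := h1.pos hw
    have p2 := h2.pos hw
    refine Submodule.mem_sup_right ((LieSubalgebra.mem_toSubmodule _).2 (lie_mem _
      (Sp_mono (fun x hx => ?_) h1.mem_Sp) (Sp_mono (fun x hx => ?_) h2.mem_Sp))) <;>
    · simp only [Set.mem_ofPred_eq] at hx ⊢; omega

/-- a grading given by projections -/
structure Gr (K H : Type) [Field K] [LieRing H] [LieAlgebra K H] where
  L : ℕ → Submodule K H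
  π : ℕ → H →ₗ[K] H
  br : ∀ {i j : ℕ} {a b : H}, a ∈ L i → b ∈ L j → ⁅a, b⁆ ∈ L (i + j)
  proj : ∀ {m : ℕ} {a : H} (n : ℕ), a ∈ L m → π n a = if m = n then a else 0

theorem Gr.mon (G : Gr K H) {e : X → H} {w : X → ℕ} (he : ∀ x, e x ∈ G.L (w x)) {n : ℕ} {a : H}
    (h : Mon e w n a) : a ∈ G.L n := by
  induction h with
  | of x => exact he x
  | br _ _ h1 h2 => exact G.br h1 h2

theorem Gr.proj_Sp (G : Gr K H) {e : X → H} {w : X → ℕ} (he : ∀ x, e x ∈ G.L (w x)) {a : H}
    (ha : a ∈ Sp K (Set.range e)) (n : ℕ) : G.π n a ∈ comp K e w n := by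
  refine (Submodule.span_le.2 ?_ : _ ≤ (comp K e w n).comap (G.π n)) (Sp_comp w ha)
  rintro b ⟨m, hb⟩
  change G.π n b ∈ comp K e w n
  rw [G.proj n (G.mon he hb)]
  split_ifs with h
  · exact Submodule.subset_span (h ▸ hb)
  · exact zero_mem _

theorem Gr.hom_Sp (G : Gr K H) {e : X → H} {w : X → ℕ} (he : ∀ x, e x ∈ G.L (w x)) {a : H}
    (ha : a ∈ Sp K (Set.range e)) {n : ℕ} (hn : a ∈ G.L n) : a ∈ comp K e w n := by
  have := G.proj_Sp he ha n
  rwa [G.proj n hn, if_pos rfl] at this

open LieAlgebra in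
/-- the weight grading of a free Lie algebra -/
noncomputable def freeGr (K : Type) [Field K] {X : Type} (w : X → ℕ) :
    Gr K (FreeLieAlgebra K X) :=
  let Φ : FreeLieAlgebra K X →ₗ⁅K⁆ loopAlgebra K ℕ (FreeLieAlgebra K X) :=
    lift K fun x => AddMonoidAlgebra.single (w x) 1 ⊗ₜ of K x
  { L := comp K (of K) w
    π := fun n => Finsupp.lapply n ∘ₗ (LoopAlgebra.toFinsupp K ℕ _).toLinearMap ∘ₗ Φ.toLinearMap
    br := comp_br
    proj := fun {m a} n ha => by
      have h1 : ∀ k b, Mon (of K) w k b → Φ b = AddMonoidAlgebra.single k 1 ⊗ₜ b := by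
        intro k b hb
        induction hb with
        | of x => exact lift_of_apply _ _
        | br _ _ h1 h2 =>
          rw [LieHom.map_lie, h1, h2, ExtendScalars.bracket_tmul, AddMonoidAlgebra.single_mul_single,
            mul_one]
      have h2 : Φ a = AddMonoidAlgebra.single m 1 ⊗ₜ a := by
        induction ha using Submodule.span_induction with
        | mem b hb => exact h1 m b hb
        | zero => simp
        | add p q _ _ hp hq => rw [map_add, hp, hq, TensorProduct.tmul_add]
        | smul c p _ hp => rw [map_smul, hp, TensorProduct.tmul_smul]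
      change (LoopAlgebra.toFinsupp K ℕ _ (Φ a)) n = _
      rw [h2, LoopAlgebra.toFinsupp_single_tmul, Finsupp.single_apply] }

end Pool.Agent.H10.Shir
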