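import Pool.Agent.H10.Shir1

namespace Pool.Agent.H10.Shir
open Pool.Agent.H10.LieHom Pool.Agent.H10.LieLang LieSubalgebra FreeLieAlgebra

variable {K : Type} [Field K] {H : Type} [LieRing H] [LieAlgebra K H] {X ι : Type}

structure Core (G : Gr K H) (z : ι → H) (e : X → H) (w : X → ℕ) (m : ℕ) : Prop where
  free : Free K e
  hom : ∀ x, e x ∈ G.L (w x)
  pos : ∀ x, 1 ≤ w x
  fin : ∀ n, {x | w x ≤ n}.Finite
  mem : ∀ i, z i ∈ Sp K (Set.range e)
  low : ∀ x, w x < m → ∃ i, e x = z i

theorem phase1 {G : Gr K H} {z : ι → H} {d : ι → ℕ} (hz : ∀ i, z i ∈ G.L (d i))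
    (hind : ∀ i, z i ∉ Sp K (z '' {i}ᶜ)) {e : X → H} {w : X → ℕ} {m : ℕ} (h : Core G z e w m)
    (hl : ∀ i, d i < m → ∃ x, e x = z i) (s : Finset ι) (hs : ∀ i ∈ s, d i = m) :
    ∃ e' : X → H, Core G z e' w m ∧ ∀ i, d i < m ∨ i ∈ s → ∃ x, e' x = z i := by
  classical
  induction s using Finset.induction_on with
  | empty => exact ⟨e, h, fun i hi => hl i (by simpa using hi)⟩
  | insert i s _ ih =>
    obtain ⟨e, h, hl⟩ := ih fun j hj => hs j (by simp [hj])
    have hi : d i = m := hs i (by simp)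
    by_cases hr : ∃ x, e x = z i
    · refine ⟨e, h, fun j hj => ?_⟩
      rcases hj with hj | hj
      · exact hl j (Or.inl hj)
      · rcases Finset.mem_insert.1 hj with rfl | hj
        · exact hr
        · exact hl j (Or.inr hj)
    have inz : ∀ x, (∃ j, e x = z j) → e x ∈ Sp K (z '' {i}ᶜ) := by
      rintro x ⟨j, hj⟩
      exact subset_lieSpan ⟨j, fun hji : j = i => hr ⟨x, hji ▸ hj⟩, hj.symm⟩
    obtain ⟨u, hu, p, hp, hup⟩ := Submodule.mem_sup.1
      (comp_split h.pos (G.hom_Sp h.hom (h.mem i) (hi ▸ hz i)))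
    obtain ⟨c, hc, rfl⟩ := (Finsupp.mem_span_image_iff_linearCombination K).1 hu
    rw [Finsupp.mem_supported] at hc
    have hp' : p ∈ Sp K (e '' {x | w x < m}) := hp
    obtain ⟨x0, hx0, hz0⟩ : ∃ x0 ∈ c.support, ¬ ∃ j, e x0 = z j := by
      by_contra hne
      push Not at hne
      apply hind i
      rw [← hup, Finsupp.linearCombination_apply]
      refine add_mem (sum_mem fun x hx => SMulMemClass.smul_mem _ (inz x (hne x hx))) ?_
      refine (lieSpan_le.2 ?_ : Sp K _ ≤ Sp K _) hp'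
      rintro _ ⟨x, hx, rfl⟩
      exact inz x (h.low x hx)
    have w0 : w x0 = m := hc hx0
    have e0 : z i = c x0 • e x0 + (∑ x ∈ c.support.erase x0, c x • e x + p) := by
      rw [← hup, Finsupp.linearCombination_apply, Finsupp.sum, ← Finset.add_sum_erase _ _ hx0,
        add_assoc]
    have hq : ∑ x ∈ c.support.erase x0, c x • e x + p ∈ Sp K (e '' {x0}ᶜ) := by
      refine add_mem (sum_mem fun x hx => SMulMemClass.smul_mem _
        (subset_lieSpan ⟨x, Finset.ne_of_mem_erase hx, rfl⟩)) (Sp_mono (fun x hx => ?_) hp')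
      rintro rfl
      exact absurd w0 (ne_of_lt hx)
    obtain ⟨f1, f2⟩ := h.free.exchange x0 (Finsupp.mem_support_iff.1 hx0) hq
    rw [← e0] at f1 f2
    have keep : ∀ j, (∃ x, e x = z j) → ∃ x, Function.update e x0 (z i) x = z j := by
      rintro j ⟨x, hx⟩
      exact ⟨x, by rw [Function.update_of_ne (fun e1 : x = x0 => hz0 ⟨j, e1 ▸ hx⟩), hx]⟩
    refine ⟨Function.update e x0 (z i), ⟨f1, fun x => ?_, h.pos, h.fin, fun j => f2 ▸ h.mem j,
      fun x hx => ?_⟩, fun j hj => ?_⟩
    · by_cases e1 : x = x0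
      · rw [e1, Function.update_self, w0, ← hi]; exact hz i
      · rw [Function.update_of_ne e1]; exact h.hom x
    · rw [Function.update_of_ne (fun e1 : x = x0 => by rw [e1, w0] at hx; omega)]
      exact h.low x hx
    · rcases hj with hj | hj
      · exact keep j (hl j (Or.inl hj))
      · rcases Finset.mem_insert.1 hj with rfl | hj
        · exact ⟨x0, Function.update_self _ _ _⟩
        · exact keep j (hl j (Or.inr hj))

theorem phase2 {G : Gr K H} {z : ι → H} {d : ι → ℕ} (hz : ∀ i, z i ∈ G.L (d i)) {m : ℕ} (N : ℕ) :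
    ∀ (X : Type) (e : X → H) (w : X → ℕ), Core G z e w m → (∀ i, d i ≤ m → ∃ x, e x = z i) →
    {x | w x = m ∧ ¬ ∃ i, e x = z i}.ncard = N →
    ∃ (X : Type) (e : X → H) (w : X → ℕ), Core G z e w (m + 1) ∧
      ∀ i, d i < m + 1 → ∃ x, e x = z i := by
  induction N using Nat.strong_induction_on with
  | _ N ih =>
    intro X e w h hl hN
    by_cases hb : ∃ x0, w x0 = m ∧ ¬ ∃ i, e x0 = z i
    swap
    · refine ⟨X, e, w, ⟨h.free, h.hom, h.pos, h.fin, h.mem, fun x hx => ?_⟩,
        fun i hi => hl i (by omega)⟩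
      by_cases e1 : w x = m
      · by_contra hne; exact hb ⟨x, e1, hne⟩
      · exact h.low x (by omega)
    obtain ⟨x0, w0, hz0⟩ := hb
    have m1 : 1 ≤ m := w0 ▸ h.pos x0
    let w' : {x // x ≠ x0} × ℕ → ℕ := fun p => w p.1 + p.2 * m
    have hom' : ∀ p, elim e x0 p ∈ G.L (w' p) := by
      rintro ⟨x, k⟩
      induction k with
      | zero => simpa [w', elim] using h.hom x
      | succ k ihk =>
        rw [elim_succ]
        have := G.br (h.hom x0) ihk
        rwa [show w x0 + w' (x, k) = w' (x, k + 1) by simp only [w', w0]; ring] at this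
    have keep : ∀ j, (∃ x, e x = z j) → ∃ p, elim e x0 p = z j := by
      rintro j ⟨x, hx⟩
      exact ⟨(⟨x, fun e1 => hz0 ⟨j, e1 ▸ hx⟩⟩, 0), hx⟩
    have k0 : ∀ p, w' p ≤ m → p.2 = 0 := by
      rintro ⟨x, k⟩ hp
      have := h.pos x
      rcases k with _ | k
      · rfl
      · simp only [w', add_mul] at hp; omega
    have hfin : {x | w x = m ∧ ¬ ∃ i, e x = z i}.Finite := (h.fin m).subset fun x hx => hx.1.le
    refine ih _ ?_ _ (elim e x0) w' ⟨h.free.elim x0, hom', fun p => (h.pos p.1).trans (Nat.le_add_right _ _),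
      fun n => ?_, fun i => ?_, fun p hp => ?_⟩ (fun i hi => keep i (hl i hi)) rfl
    · rw [← hN]
      refine lt_of_le_of_lt (Set.ncard_le_ncard_of_injOn (t := _ \ {x0}) (fun p => p.1.1) ?_ ?_
        (hfin.subset Set.diff_subset)) (Set.ncard_diff_singleton_lt_of_mem ⟨w0, hz0⟩ hfin)
      · rintro ⟨x, k⟩ ⟨h1, h2⟩
        obtain rfl : k = 0 := k0 _ h1.le
        exact ⟨⟨by simpa [w'] using h1, h2⟩, x.2⟩
      · rintro ⟨x, k⟩ ⟨h1, -⟩ ⟨y, l⟩ ⟨h2, -⟩ e1
        obtain rfl : k = 0 := k0 _ h1.le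
        obtain rfl : l = 0 := k0 _ h2.le
        exact Prod.ext (Subtype.ext e1) rfl
    · refine (((h.fin n).preimage Subtype.val_injective.injOn).prod (Set.finite_Iic n)).subset ?_
      rintro ⟨x, k⟩ hp
      simp only [w', Set.mem_ofPred_eq] at hp
      refine ⟨(by omega : w x ≤ n), ?_⟩
      change k ≤ n
      nlinarith
    · by_cases hi : d i ≤ m
      · obtain ⟨p, hp⟩ := keep i (hl i hi)
        exact subset_lieSpan ⟨p, hp⟩
      · obtain ⟨c, hc⟩ := elim_decomp e x0 (h.mem i)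
        have := G.proj_Sp hom' hc (d i)
        rw [map_sub, map_smul, G.proj _ (hz i), G.proj _ (h.hom x0), if_pos rfl,
          if_neg (by omega), smul_zero, sub_zero] at this
        exact lieSpan_mono (Set.image_subset_range _ _) (comp_le_Sp this)
    · obtain ⟨x, k⟩ := p
      obtain rfl : k = 0 := k0 _ hp.le
      exact h.low x (by simpa [w'] using hp)

/-- Shirshov's lemma -/
theorem shirshov [Fintype ι] {G : Gr K H} {z : ι → H} {d : ι → ℕ} (hz : ∀ i, z i ∈ G.L (d i))
    (hd : ∀ i, 1 ≤ d i) (hind : ∀ i, z i ∉ Sp K (z '' {i}ᶜ)) {e : X → H} {w : X → ℕ}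
    (h : Core G z e w 1) : Free K z := by
  classical
  have st : ∀ m, ∃ (X : Type) (e : X → H) (w : X → ℕ), Core G z e w (m + 1) ∧
      ∀ i, d i < m + 1 → ∃ x, e x = z i := by
    intro m
    induction m with
    | zero => exact ⟨X, e, w, h, fun i hi => by have := hd i; omega⟩
    | succ m ih =>
      obtain ⟨X, e, w, h, hl⟩ := ih
      obtain ⟨e', h', hl'⟩ := phase1 hz hind h hl (Finset.univ.filter fun i => d i = m + 1)
        fun i hi => (Finset.mem_filter.1 hi).2
      refine phase2 hz _ X e' w h' (fun i hi => hl' i ?_) rfl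
      rcases hi.lt_or_eq with hi | hi
      · exact Or.inl hi
      · exact Or.inr (by simp [hi])
  obtain ⟨X, e, w, h, hl⟩ := st (Finset.univ.sup d)
  choose j hj using fun i => hl i (Nat.lt_succ_of_le (Finset.le_sup (Finset.mem_univ i)))
  have inj : Function.Injective j := fun a b hab => by
    by_contra hne
    exact hind a (subset_lieSpan ⟨b, fun e1 : b = a => hne e1.symm, by rw [← hj a, ← hj b, hab]⟩)
  have := h.free.comp inj
  rwa [funext hj] at this

end Pool.Agent.H10.Shir
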