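import Pool.Agent.H10.Shir2

namespace Pool.Agent.H10.Shir
open Pool.Agent.H10.LieHom Pool.Agent.H10.LieLang LieSubalgebra FreeLieAlgebra LieModule

variable {K : Type} [Field K] {H : Type} [LieRing H] [LieAlgebra K H] {X ι : Type}

def Gr.Lt (G : Gr K H) (n : ℕ) : Submodule K H := Submodule.span K {a | ∃ m < n, a ∈ G.L m}

theorem Gr.Lt_mono (G : Gr K H) {m n : ℕ} (h : m ≤ n) : G.Lt m ≤ G.Lt n :=
  Submodule.span_mono fun _ ⟨k, hk, ha⟩ => ⟨k, hk.trans_le h, ha⟩

theorem Gr.mem_Lt (G : Gr K H) {m n : ℕ} (h : m < n) {a : H} (ha : a ∈ G.L m) : a ∈ G.Lt n :=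
  Submodule.subset_span ⟨m, h, ha⟩

theorem Gr.Lt_br (G : Gr K H) {i j n : ℕ} (h : i + j ≤ n + 1) {a b : H} (ha : a ∈ G.Lt i)
    (hb : b ∈ G.Lt j) : ⁅a, b⁆ ∈ G.Lt n := by
  refine span_br ?_ ha hb
  rintro a ⟨k, hk, ha⟩ b ⟨l, hl, hb⟩
  exact G.mem_Lt (by omega) (G.br ha hb)

theorem Gr.proj_Lt (G : Gr K H) {n m : ℕ} (h : n ≤ m) {a : H} (ha : a ∈ G.Lt n) : G.π m a = 0 := by
  refine (Submodule.span_le.2 ?_ : _ ≤ LinearMap.ker (G.π m)) ha
  rintro a ⟨k, hk, ha⟩
  change G.π m a = 0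
  rw [G.proj m ha, if_neg (by omega)]

theorem Gr.sub_proj (G : Gr K H) {n : ℕ} {a : H} (ha : a ∈ G.Lt (n + 1)) :
    a - G.π n a ∈ G.Lt n ∧ G.π n a ∈ G.L n := by
  induction ha using Submodule.span_induction with
  | mem a ha =>
    obtain ⟨k, hk, ha⟩ := ha
    rw [G.proj n ha]
    split_ifs with h
    · exact ⟨by simp, h ▸ ha⟩
    · exact ⟨by simpa using G.mem_Lt (by omega) ha, zero_mem _⟩
  | zero => simp
  | add p q _ _ hp hq =>
    rw [map_add, add_sub_add_comm]; exact ⟨add_mem hp.1 hq.1, add_mem hp.2 hq.2⟩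
  | smul c p _ hp =>
    rw [map_smul, ← smul_sub]; exact ⟨Submodule.smul_mem _ _ hp.1, Submodule.smul_mem _ _ hp.2⟩

theorem mem_Sp_of (a : FreeLieAlgebra K X) : a ∈ Sp K (Set.range (of K)) :=
  gens_free (Sp K (Set.range (of K))) (fun i => subset_lieSpan ⟨i, rfl⟩) a

theorem exists_Lt (w : X → ℕ) (a : FreeLieAlgebra K X) : ∃ n, a ∈ (freeGr K w).Lt n := by
  have := Sp_comp w (mem_Sp_of a)
  induction this using Submodule.span_induction with
  | mem b hb => obtain ⟨n, hb⟩ := hb; exact ⟨n + 1, Gr.mem_Lt _ n.lt_succ_self (Submodule.subset_span hb)⟩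
  | zero => exact ⟨0, zero_mem _⟩
  | add p q _ _ hp hq =>
    obtain ⟨m, hm⟩ := hp
    obtain ⟨n, hn⟩ := hq
    exact ⟨max m n, add_mem (Gr.Lt_mono _ (le_max_left _ _) hm) (Gr.Lt_mono _ (le_max_right _ _) hn)⟩
  | smul c p _ hp => obtain ⟨m, hm⟩ := hp; exact ⟨m, Submodule.smul_mem _ _ hm⟩

theorem lift_hom (G : Gr K H) {z : X → H} {d : X → ℕ} (hz : ∀ x, z x ∈ G.L (d x)) {n : ℕ}
    {q : FreeLieAlgebra K X} (hq : q ∈ comp K (of K) d n) : lift K z q ∈ G.L n := by
  refine (Submodule.span_le.2 fun b hb => ?_ : _ ≤ (G.L n).comap (lift K z).toLinearMap) hq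
  change lift K z b ∈ G.L n
  clear hq
  induction hb with
  | of x => rw [lift_of_apply]; exact hz x
  | br _ _ h1 h2 => rw [LieHom.map_lie]; exact G.br h1 h2

theorem proj_lift (G : Gr K H) {z : X → H} {d : X → ℕ} (hz : ∀ x, z x ∈ G.L (d x)) (n : ℕ)
    (q : FreeLieAlgebra K X) : G.π n (lift K z q) = lift K z ((freeGr K d).π n q) := by
  have := Sp_comp d (mem_Sp_of q)
  induction this using Submodule.span_induction with
  | mem b hb =>
    obtain ⟨m, hb⟩ := hb
    have h1 : b ∈ comp K (of K) d m := Submodule.subset_span hb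
    rw [G.proj n (lift_hom G hz h1), (freeGr K d).proj n h1]
    split_ifs <;> simp
  | zero => simp
  | add p q _ _ hp hq => simp [hp, hq]
  | smul c p _ hp => simp [hp]

theorem lead (G : Gr K H) {y : X → H} {d : X → ℕ} (hy : ∀ x, y x ∈ G.Lt (d x + 1)) {n : ℕ}
    {q : FreeLieAlgebra K X} (hq : q ∈ comp K (of K) d n) :
    lift K y q - lift K (fun x => G.π (d x) (y x)) q ∈ G.Lt n := by
  refine (Submodule.span_le.2 fun b hb => ?_ : _ ≤ (G.Lt n).comap
    ((lift K y).toLinearMap - (lift K fun x => G.π (d x) (y x)).toLinearMap)) hq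
  change lift K y b - lift K (fun x => G.π (d x) (y x)) b ∈ G.Lt n
  clear hq
  induction hb with
  | of x => rw [lift_of_apply, lift_of_apply]; exact (G.sub_proj (hy x)).1
  | @br i j a b ha hb h1 h2 =>
    have a1 := G.mem_Lt i.lt_succ_self
      (lift_hom G (fun x => (G.sub_proj (hy x)).2) (Submodule.subset_span ha))
    have b1 := G.mem_Lt j.lt_succ_self
      (lift_hom G (fun x => (G.sub_proj (hy x)).2) (Submodule.subset_span hb))
    have b2 := add_mem (G.Lt_mono j.le_succ h2) b1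
    rw [sub_add_cancel] at b2
    have := add_mem (G.Lt_br (n := i + j) (by omega) h1 b2) (G.Lt_br (n := i + j) (by omega) a1 h2)
    rwa [sub_lie, lie_sub, sub_add_sub_cancel, ← LieHom.map_lie, ← LieHom.map_lie] at this

theorem lift_Lt (G : Gr K H) {y : X → H} {d : X → ℕ} (hy : ∀ x, y x ∈ G.Lt (d x + 1)) {n : ℕ}
    {q : FreeLieAlgebra K X} (hq : q ∈ (freeGr K d).Lt n) : lift K y q ∈ G.Lt n := by
  refine (Submodule.span_le.2 ?_ : _ ≤ (G.Lt n).comap (lift K y).toLinearMap) hq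
  rintro b ⟨m, hm, hb⟩
  have := add_mem (G.Lt_mono hm.le (lead G hy hb))
    (G.mem_Lt hm (lift_hom G (fun x => (G.sub_proj (hy x)).2) hb))
  rwa [sub_add_cancel] at this

theorem top (G : Gr K H) {y : X → H} {d : X → ℕ} (hy : ∀ x, y x ∈ G.Lt (d x + 1))
    (hf : Free K fun x => G.π (d x) (y x)) {D : ℕ} {q : FreeLieAlgebra K X}
    (hq : lift K y q ∈ G.Lt (D + 1)) : q ∈ Sp K (of K '' {x | d x ≤ D}) := by
  have h1 : ∀ N, q ∈ (freeGr K d).Lt N → q ∈ (freeGr K d).Lt (D + 1) := by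
    intro N
    induction N with
    | zero => exact fun h => Gr.Lt_mono _ (by omega) h
    | succ n ih =>
      intro h
      by_cases hn : n ≤ D
      · exact Gr.Lt_mono _ (by omega) h
      obtain ⟨a1, a2⟩ := (freeGr K d).sub_proj h
      have b1 := G.proj_Lt le_rfl (lift_Lt G hy a1)
      have b2 := G.proj_Lt le_rfl (lead G hy a2)
      have b3 := G.proj n (lift_hom G (fun x => (G.sub_proj (hy x)).2) a2)
      rw [map_sub, map_sub, G.proj_Lt (by omega) hq, zero_sub, neg_eq_zero] at b1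
      rw [map_sub, b1, b3, if_pos rfl, zero_sub, neg_eq_zero] at b2
      rw [hf (b2.trans (map_zero _).symm), sub_zero] at a1
      exact ih a1
  obtain ⟨N, hN⟩ := exists_Lt d q
  refine (Submodule.span_le.2 ?_ : _ ≤ (Sp K (of K '' {x | d x ≤ D})).toSubmodule) (h1 N hN)
  rintro b ⟨m, hm, hb⟩
  refine Sp_mono (fun x hx => ?_) (comp_le_Sp hb)
  simp only [Set.mem_ofPred_eq] at hx ⊢; omega

/-- the standard grading -/
noncomputable abbrev G0 (K : Type) [Field K] (r : ℕ) : Gr K (Lr K r) := freeGr K fun _ => 1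

theorem L0 {r : ℕ} {a : Lr K r} (ha : a ∈ (G0 K r).Lt 1) : a = 0 := by
  refine (Submodule.span_le.2 ?_ : _ ≤ ⊥) ha
  rintro b ⟨m, hm, hb⟩
  refine (Submodule.span_le.2 fun c hc => ?_ : _ ≤ ⊥) hb
  have := Mon.pos (fun _ => le_rfl) hc
  omega

theorem of_ne (x : X) : (of K x : FreeLieAlgebra K X) ≠ 0 := fun h => by
  let v : Heis K := ((1, 0, 0) : K × K × K)
  have := congrArg (fun a => (lift K (fun _ : X => v) a).1) h
  simp [v] at this

theorem Free.ne {e : X → H} (he : Free K e) (x : X) : e x ≠ 0 := fun h =>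
  of_ne x (he (by rw [lift_of_apply, h, map_zero]))

def IsBasis (K : Type) [Field K] {r : ℕ} (u : Fin r → Lr K r) : Prop :=
  Free K u ∧ Sp K (Set.range u) = ⊤

theorem basis_of (r : ℕ) : IsBasis K (of K : Fin r → Lr K r) :=
  ⟨fun p q h => by rwa [lift_of, lift_of] at h, eq_top_iff.2 fun a _ => mem_Sp_of a⟩

theorem IsBasis.surj {r : ℕ} {u : Fin r → Lr K r} (hu : IsBasis K u) (a : Lr K r) :
    ∃ q, lift K u q = a := by
  have : a ∈ Sp K (u '' Set.univ) := by rw [Set.image_univ, hu.2]; trivial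
  obtain ⟨q, -, h⟩ := Sp_pull u _ this
  exact ⟨q, h⟩

theorem KL {r : ℕ} (φ : Lr K r →ₗ⁅K⁆ Lr K r) (hφ : Function.Injective φ) :
    ∃ (u : Fin r → Lr K r) (d : Fin r → ℕ), IsBasis K u ∧ (∀ i, φ (u i) ∈ (G0 K r).Lt (d i + 1)) ∧
      ∀ D a, φ a ∈ (G0 K r).Lt (D + 1) → a ∈ Sp K (u '' {i | d i ≤ D}) := by
  classical
  have key : ∀ S (u : Fin r → Lr K r) (d : Fin r → ℕ), IsBasis K u →
      (∀ i, φ (u i) ∈ (G0 K r).Lt (d i + 1)) → ∑ i, d i = S →
      ∃ (u : Fin r → Lr K r) (d : Fin r → ℕ), IsBasis K u ∧ (∀ i, φ (u i) ∈ (G0 K r).Lt (d i + 1)) ∧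
      ∀ D a, φ a ∈ (G0 K r).Lt (D + 1) → a ∈ Sp K (u '' {i | d i ≤ D}) := by
    intro S
    induction S using Nat.strong_induction_on with
    | _ S ih =>
      intro u d hu hy hS
      have hd : ∀ i, 1 ≤ d i := fun i => by
        by_contra h
        have := hy i
        rw [show d i = 0 by omega] at this
        exact (hu.1.map hφ).ne i (L0 this)
      have hz := fun i => ((G0 K r).sub_proj (hy i)).2
      by_cases hind : ∀ i, (G0 K r).π (d i) (φ (u i)) ∉
        Sp K ((fun i => (G0 K r).π (d i) (φ (u i))) '' {i}ᶜ)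
      · have hf := shirshov hz hd hind (e := of K) (w := fun _ => 1)
          ⟨(basis_of r).1, fun x => Submodule.subset_span (Mon.of x), fun _ => le_rfl,
            fun _ => Set.toFinite _, fun _ => mem_Sp_of _, fun _ h => absurd h (lt_irrefl _)⟩
        refine ⟨u, d, hu, hy, fun D a ha => ?_⟩
        obtain ⟨q, rfl⟩ := hu.surj a
        rw [← lift_comp] at ha
        have := map_Sp (lift K u) (top _ hy hf ha)
        rwa [Set.image_image, funext (lift_of_apply u)] at this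
      push Not at hind
      obtain ⟨i, hi⟩ := hind
      obtain ⟨q0, h1, h2⟩ := Sp_pull _ _ hi
      have h3 := proj_lift (G0 K r) hz (d i) q0
      rw [h2, (G0 K r).proj _ (hz i), if_pos rfl] at h3
      set q := (freeGr K d).π (d i) q0 with hq
      have h4 : q ∈ comp K (of K) d (d i) :=
        (freeGr K d).proj_Sp (fun x => Submodule.subset_span (Mon.of x)) (mem_Sp_of q0) _
      have h5 : q ∈ Sp K (of K '' {i}ᶜ) := by
        rw [Set.image_eq_range] at h1 ⊢
        exact lieSpan_mono (Set.image_subset_range _ _) (comp_le_Sp ((freeGr K d).proj_Sp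
          (w := fun x : ({i}ᶜ : Set (Fin r)) => d x)
          (fun x => Submodule.subset_span (Mon.of x.1)) h1 _))
      have h6 := map_Sp (lift K u) (neg_mem h5)
      rw [Set.image_image, funext (lift_of_apply u)] at h6
      obtain ⟨f1, f2⟩ := hu.1.exchange i one_ne_zero h6
      refine ih _ ?_ _ (Function.update d i (d i - 1)) ⟨f1, f2.trans hu.2⟩ (fun j => ?_) rfl
      · rw [← hS, Finset.sum_update_of_mem (Finset.mem_univ i),
          ← Finset.add_sum_erase _ _ (Finset.mem_univ i), Finset.sdiff_singleton_eq_erase]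
        have := hd i
        omega
      · by_cases e1 : j = i
        · subst e1
          have := sub_mem ((G0 K r).sub_proj (hy j)).1 (lead _ hy h4)
          rw [← h3, sub_sub_sub_cancel_right, lift_comp] at this
          rw [Function.update_self, Function.update_self, Nat.sub_add_cancel (hd j)]
          simpa [sub_eq_add_neg] using this
        · rw [Function.update_of_ne e1, Function.update_of_ne e1]; exact hy j
  choose d hd using fun i => exists_Lt (fun _ : Fin r => 1) (φ (of K i))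
  exact key _ _ d (basis_of r) (fun i => Gr.Lt_mono _ (Nat.le_succ _) (hd i)) rfl

end Pool.Agent.H10.Shir
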