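import Pool.Agent.H10.Shir3

namespace Pool.Agent.H10.Shir
open Pool.Agent.H10.LieHom Pool.Agent.H10.LieLang LieSubalgebra FreeLieAlgebra LieModule

variable {K : Type} [Field K] {H : Type} [LieRing H] [LieAlgebra K H] {X ι : Type} {r : ℕ}

theorem lcs_proj (n : ℕ) {a : Lr K r} (ha : a ∈ lowerCentralSeries K (Lr K r) (Lr K r) n)
    {m : ℕ} (hm : m ≤ n) : (G0 K r).π m a = 0 := by
  have h0 : ∀ b : Lr K r, b ∈ Submodule.span K {a | ∃ m, 0 < m ∧ a ∈ (G0 K r).L m} := fun b =>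
    Submodule.span_mono (by
      rintro c ⟨k, hc⟩
      exact ⟨k, Mon.pos (fun _ => le_rfl) hc, Submodule.subset_span hc⟩)
      (Sp_comp (fun _ : Fin r => 1) (mem_Sp_of b))
  have h1 : ∀ n, ∀ a ∈ lowerCentralSeries K (Lr K r) (Lr K r) n,
      a ∈ Submodule.span K {a | ∃ m, n < m ∧ a ∈ (G0 K r).L m} := by
    intro n
    induction n with
    | zero => exact fun a _ => h0 a
    | succ n ih =>
      intro a ha
      refine lcs_ind _ (fun p q hq => span_br ?_ (h0 p) (ih q hq)) ha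
      rintro p ⟨i, hi, hp⟩ q ⟨j, hj, hq⟩
      exact Submodule.subset_span ⟨i + j, by omega, (G0 K r).br hp hq⟩
  refine (Submodule.span_le.2 ?_ : _ ≤ LinearMap.ker ((G0 K r).π m)) (h1 n a ha)
  rintro b ⟨k, hk, hb⟩
  change (G0 K r).π m b = 0
  rw [(G0 K r).proj m hb, if_neg (by omega)]

theorem Lt_lcs (n : ℕ) {a : Lr K r} (h : a ∈ (G0 K r).Lt n)
    (ha : a ∈ lowerCentralSeries K (Lr K r) (Lr K r) n) : a = 0 := by
  have : ∀ m ≤ n, a ∈ (G0 K r).Lt m → a = 0 := by
    intro m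
    induction m with
    | zero => exact fun _ h => L0 (Gr.Lt_mono _ (by omega) h)
    | succ m ih =>
      intro hm h
      have := ((G0 K r).sub_proj h).1
      rw [lcs_proj n ha (by omega), sub_zero] at this
      exact ih (by omega) this
  exact this n le_rfl h

theorem inj_of_approx (θ : Lr K r →ₗ⁅K⁆ Lr K r) (h : ∀ c, ∃ s, c - θ s ∈ sq K (Lr K r)) :
    Function.Injective θ := by
  rw [injective_iff_map_eq_zero]
  intro a ha
  obtain ⟨n, hn⟩ := exists_Lt (fun _ : Fin r => 1) a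
  refine Lt_lcs n hn ?_
  haveI := findim (nil_gens (K := K) r n) (quot_lcs n)
  obtain ⟨g, hg⟩ := exists_lift (lowerCentralSeries K (Lr K r) (Lr K r) n)
    ((mkH (lowerCentralSeries K (Lr K r) (Lr K r) n)).comp θ)
    fun a ha => mkH_zero.2 (map_lcs θ n a ha)
  have hs : Function.Surjective g := fun c => by
    obtain ⟨c, rfl⟩ := mkH_surj _ c
    obtain ⟨s, hs⟩ := approx_lcs θ h n c
    refine ⟨mkH _ s, ?_⟩
    rw [hg, eq_comm, ← sub_eq_zero]
    exact (map_sub (mkH _) _ _).symm.trans (mkH_zero.2 hs)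
  have hi := (LinearMap.injective_iff_surjective (f := g.toLinearMap)).2 hs
  refine mkH_zero.1 (hi ?_)
  change g _ = g 0
  rw [hg, map_zero, LieHom.comp_apply, ha, map_zero]

theorem hopf {u : Fin r → Lr K r} (h : Sp K (Set.range u) = ⊤) : IsBasis K u :=
  ⟨inj_of_approx _ fun c => by
    have : c ∈ Sp K (u '' Set.univ) := by rw [Set.image_univ, h]; trivial
    obtain ⟨q, -, h⟩ := Sp_pull u _ this
    exact ⟨q, by simp [h]⟩, h⟩

instance (n : ℕ) : FiniteDimensional K ((G0 K r).Lt n) := by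
  haveI := findim (nil_gens (K := K) r n) (quot_lcs n)
  refine FiniteDimensional.of_injective
    ((mkH (lowerCentralSeries K (Lr K r) (Lr K r) n)).toLinearMap ∘ₗ Submodule.subtype _) ?_
  rw [injective_iff_map_eq_zero]
  exact fun a ha => Subtype.ext (Lt_lcs n a.2 (mkH_zero.1 ha))

theorem exists_ab (X : Type) [DecidableEq X] : ∃ ab : FreeLieAlgebra K X →ₗ[K] (X → K),
    (∀ x, ab (of K x) = Pi.single x 1) ∧ ∀ p q : FreeLieAlgebra K X, ab ⁅p, q⁆ = 0 := by
  let v : X → X → Heis K := fun i j => ((if i = j then 1 else 0, 0, 0) : K × K × K)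
  refine ⟨{ toFun := fun a i => (lift K (v i) a).1
            map_add' := fun a b => by ext; simp
            map_smul' := fun a b => by ext; simp }, fun x => ?_, fun p q => ?_⟩
  · ext i; simp [v, Pi.single_apply]
  · ext i; simp

theorem rank_le {I J : Type} [Fintype I] [Fintype J] {e : I → H} (he : Free K e) {y : J → H}
    (h1 : ∀ j, y j ∈ Sp K (Set.range e)) (h2 : ∀ i, e i ∈ Sp K (Set.range y)) :
    Fintype.card I ≤ Fintype.card J := by
  classical
  choose q _ hq using fun j => Sp_pull e Set.univ (a := y j) (by rw [Set.image_univ]; exact h1 j)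
  obtain ⟨ab, a1, a2⟩ := exists_ab (K := K) I
  have h3 : ∀ a ∈ Sp K (Set.range q), ab a ∈ Submodule.span K (Set.range fun j => ab (q j)) := by
    intro a ha
    induction ha using lieSpan_induction with
    | mem u hu => obtain ⟨j, rfl⟩ := hu; exact Submodule.subset_span ⟨j, rfl⟩
    | zero => simp
    | add u v _ _ hu hv => rw [map_add]; exact add_mem hu hv
    | smul t u _ hu => rw [map_smul]; exact Submodule.smul_mem _ _ hu
    | lie u v _ _ hu hv => rw [a2]; exact zero_mem _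
  have h4 : ∀ i, of K i ∈ Sp K (Set.range q) := fun i => by
    have := h2 i
    rw [← funext hq, Set.range_comp' (lift K e) q, Sp, ← map_lieSpan] at this
    obtain ⟨p, hp, e1⟩ := this
    rwa [← he (e1.trans (lift_of_apply e i).symm)]
  have h5 : Submodule.span K (Set.range fun j => ab (q j)) = ⊤ := by
    rw [eq_top_iff, ← (Pi.basisFun K I).span_eq, Submodule.span_le]
    rintro _ ⟨i, rfl⟩
    rw [Pi.basisFun_apply, ← a1]
    exact h3 _ (h4 i)
  have := finrank_range_le_card (R := K) fun j => ab (q j)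
  rwa [Set.finrank, h5, finrank_top, Module.finrank_fintype_fun_eq_card] at this

theorem lin_equiv {V : Type} [AddCommGroup V] [Module K V] [FiniteDimensional K V] [Fintype ι]
    {a b : ι → V} (ha : LinearIndependent K a) (hb : LinearIndependent K b) :
    ∃ g : V ≃ₗ[K] V, ∀ i, g (a i) = b i := by
  obtain ⟨g, hg⟩ := Submodule.exists_linearEquiv_restrict_eq
    ((Module.Basis.span ha).equiv (Module.Basis.span hb) (Equiv.refl ι))
  refine ⟨g, fun i => ?_⟩
  have := hg (Module.Basis.span ha i)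
  rw [Module.Basis.equiv_apply, Module.Basis.span_apply, Module.Basis.span_apply] at this
  exact this.symm

/-- part of a basis -/
def Prim (K : Type) [Field K] {r : ℕ} {ι : Type} (v : ι → Lr K r) : Prop :=
  ∃ (u : Fin r → Lr K r) (j : ι → Fin r), IsBasis K u ∧ Function.Injective j ∧ ∀ l, u (j l) = v l

noncomputable def IsBasis.aut {u : Fin r → Lr K r} (hu : IsBasis K u) : Lr K r ≃ₗ⁅K⁆ Lr K r :=
  LieEquiv.ofBijective (lift K u) ⟨hu.1, hu.surj⟩

theorem IsBasis.aut_of {u : Fin r → Lr K r} (hu : IsBasis K u) (i : Fin r) :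
    hu.aut (of K i) = u i := lift_of_apply u i

theorem Prim.conj {v v' : ι → Lr K r} [Finite ι] (h : Prim K v) (h' : Prim K v') :
    ∃ α : Lr K r ≃ₗ⁅K⁆ Lr K r, ∀ l, α (v l) = v' l := by
  obtain ⟨u, j, hu, hj, e⟩ := h
  obtain ⟨u', j', hu', hj', e'⟩ := h'
  obtain ⟨p, hp⟩ := Equiv.Perm.exists_extending_pair j j' hj hj'
  have h2 : IsBasis K fun i => u' (p i) :=
    hopf (by rw [← hu'.2]; exact congrArg _ (p.surjective.range_comp u'))
  refine ⟨hu.aut.symm.trans h2.aut, fun l => ?_⟩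
  rw [← e, ← hu.aut_of, LieEquiv.trans_apply, LieEquiv.symm_apply_apply, h2.aut_of, hp, e']

theorem Prim.pull [Fintype ι] {v : ι → Lr K r} (τ : Lr K r →ₗ⁅K⁆ Lr K r)
    (hτ : Function.Injective τ) (h : Prim K fun l => τ (v l)) : Prim K v := by
  classical
  obtain ⟨u, j, hu, hj, e⟩ := h
  let φ : Lr K r →ₗ⁅K⁆ Lr K r := hu.aut.symm.toLieHom.comp τ
  have hφ : Function.Injective φ := hu.aut.symm.injective.comp hτ
  have e1 : ∀ l, φ (v l) = of K (j l) := fun l => by
    change hu.aut.symm (τ (v l)) = _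
    rw [LieEquiv.symm_apply_eq, hu.aut_of, e]
  obtain ⟨w, d, hw, h1, h2⟩ := KL φ hφ
  have o1 : ∀ i, (of K i : Lr K r) ∈ (G0 K r).L 1 := fun i => Submodule.subset_span (Mon.of i)
  have h3 : ∀ l, v l ∈ Submodule.span K (Set.range w) := fun l => by
    have a1 := map_Sp φ (h2 1 (v l) (e1 l ▸ (G0 K r).mem_Lt (by omega) (o1 _)))
    rw [Set.image_image, Set.image_eq_range] at a1
    have a2 := comp_split (fun _ => le_rfl) ((G0 K r).hom_Sp (w := fun _ => 1) (fun i => by
      have b1 := (G0 K r).sub_proj (Gr.Lt_mono _ (Nat.succ_le_succ i.2) (h1 i))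
      have b2 := L0 b1.1
      rw [sub_eq_zero] at b2
      rw [b2]; exact b1.2) a1 (e1 l ▸ o1 _))
    simp only [lt_self_iff_false, Set.setOf_false, Set.image_empty, span_empty,
      LieSubalgebra.bot_toSubmodule, sup_bot_eq] at a2
    have a3 : φ (v l) ∈ (Submodule.span K (Set.range w)).map φ.toLinearMap := by
      refine (Submodule.span_le.2 ?_ : _ ≤ _) a2
      rintro _ ⟨i, -, rfl⟩
      exact ⟨w i, Submodule.subset_span ⟨_, rfl⟩, rfl⟩
    obtain ⟨p, hp, e2⟩ := a3
    rwa [← hφ e2]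
  choose c hc using fun l => (Submodule.mem_span_range_iff_exists_fun K).1 (h3 l)
  obtain ⟨ab, a1, -⟩ := exists_ab (K := K) (Fin r)
  let S : (Fin r → K) →ₗ[K] Lr K r := Fintype.linearCombination K w
  have hS : ∀ l, S (c l) = v l := fun l => by rw [← hc l]; rfl
  have l1 : LinearIndependent K fun l => Pi.basisFun K (Fin r) (j l) :=
    (Pi.basisFun K (Fin r)).linearIndependent.comp j hj
  have l2 : LinearIndependent K c := by
    refine LinearIndependent.of_comp (ab ∘ₗ φ.toLinearMap ∘ₗ S) ?_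
    have : (ab ∘ₗ φ.toLinearMap ∘ₗ S) ∘ c = fun l => Pi.basisFun K (Fin r) (j l) := funext fun l => by
      change ab (φ (S (c l))) = _
      rw [hS, e1, a1, Pi.basisFun_apply]
    rwa [this]
  obtain ⟨g, hg⟩ := lin_equiv l1 l2
  refine ⟨fun i => S (g (Pi.basisFun K (Fin r) i)), j, hopf ?_, hj, fun l => by beta_reduce; rw [hg, hS]⟩
  rw [eq_top_iff, ← hw.2, lieSpan_le]
  rintro _ ⟨k, rfl⟩
  have e3 : w k = S (g (g.symm (Pi.single k 1))) := by simp [S]
  rw [e3, ← (Pi.basisFun K (Fin r)).sum_repr (g.symm (Pi.single k 1)), map_sum, map_sum]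
  refine sum_mem fun i _ => ?_
  rw [map_smul, map_smul]
  exact SMulMemClass.smul_mem _ (subset_lieSpan ⟨i, rfl⟩)

theorem core {m : ℕ} {a b : Fin m → Lr K r} (σ τ : Lr K r →ₗ⁅K⁆ Lr K r)
    (hσ : Function.Injective σ) (hτ : Function.Injective τ) (h1 : ∀ i, σ (a i) = b i)
    (h2 : ∀ i, τ (b i) = a i) : ∃ α : Lr K r ≃ₗ⁅K⁆ Lr K r, ∀ i, α (a i) = b i := by
  classical
  let ρ : Lr K r →ₗ⁅K⁆ Lr K r := τ.comp σ
  have hρ : Function.Injective ρ := hτ.comp hσ
  obtain ⟨P, P0, Ps⟩ : ∃ P : ℕ → Lr K r →ₗ⁅K⁆ Lr K r, P 0 = LieHom.id ∧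
      ∀ n, P (n + 1) = (P n).comp ρ := ⟨fun n => Nat.rec LieHom.id (fun _ f => f.comp ρ) n, rfl,
        fun _ => rfl⟩
  have Pi : ∀ n, Function.Injective (P n) := fun n => by
    induction n with
    | zero => rw [P0]; exact fun _ _ h => h
    | succ n ih => rw [Ps]; exact ih.comp hρ
  have Pa : ∀ n i, P n (a i) = a i := fun n i => by
    induction n with
    | zero => rw [P0]; rfl
    | succ n ih => rw [Ps]; change P n (τ (σ (a i))) = _; rw [h1, h2, ih]
  choose D' hD' using fun i => exists_Lt (fun _ : Fin r => 1) (a i)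
  let D := Finset.univ.sup D'
  have hD : ∀ i, a i ∈ (G0 K r).Lt (D + 1) := fun i =>
    Gr.Lt_mono _ (Nat.le_succ_of_le (Finset.le_sup (Finset.mem_univ i))) (hD' i)
  let Wn : ℕ →o (Submodule K ((G0 K r).Lt (D + 1)))ᵒᵈ :=
    ⟨fun n => OrderDual.toDual ((LinearMap.range (P n).toLinearMap).comap (Submodule.subtype _)),
      monotone_nat_of_le_succ fun n x ⟨y, hy⟩ => ⟨ρ y, by rw [Ps] at hy; exact hy⟩⟩
  obtain ⟨n, hn⟩ := IsArtinian.monotone_stabilizes Wn
  have st : ∀ c, P n c ∈ (G0 K r).Lt (D + 1) → ∃ c', P (n + 1) c' = P n c := fun c hc => by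
    have : (⟨_, hc⟩ : (G0 K r).Lt (D + 1)) ∈ OrderDual.ofDual (Wn n) := ⟨c, rfl⟩
    rw [hn (n + 1) (by omega)] at this
    exact this
  obtain ⟨u, d, hu, a1, a2⟩ := KL (P (n + 1)) (Pi _)
  obtain ⟨u', d', hu', b1, b2⟩ := KL (P n) (Pi _)
  have c1 : ∀ i : {i | d i ≤ D}, ρ (u i) ∈ Sp K (Set.range fun i : {i | d' i ≤ D} => u' i) :=
    fun i => by
      rw [← Set.image_eq_range]
      refine b2 D _ (Gr.Lt_mono _ (Nat.succ_le_succ i.2) ?_)
      have := a1 i
      rwa [Ps] at this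
  have c2 : ∀ i : {i | d' i ≤ D}, u' i ∈ Sp K (Set.range fun i : {i | d i ≤ D} => ρ (u i)) :=
    fun i => by
      have e1 := Gr.Lt_mono _ (Nat.succ_le_succ i.2) (b1 i)
      obtain ⟨c, hc⟩ := st _ e1
      have := map_Sp ρ (a2 D c (hc ▸ e1))
      rw [Ps] at hc
      rwa [show ρ c = u' i from Pi n hc, Set.image_image, Set.image_eq_range] at this
  have f1 : Free K fun i : {i | d i ≤ D} => ρ (u i) := (hu.1.comp Subtype.val_injective).map hρ
  have f2 : Free K fun i : {i | d' i ≤ D} => u' i := hu'.1.comp Subtype.val_injective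
  obtain ⟨ε⟩ : Nonempty ({i | d i ≤ D} ≃ {i | d' i ≤ D}) :=
    Fintype.card_eq.1 (le_antisymm (rank_le f1 c2 c1) (rank_le f2 c1 c2))
  have p1 : Prim K fun i : {i | d i ≤ D} => τ (σ (u i)) := by
    refine ⟨fun i => if h : d' i ≤ D then ρ (u (ε.symm ⟨i, h⟩)) else u' i, fun l => ε l, hopf ?_,
      Subtype.val_injective.comp ε.injective, fun l => ?_⟩
    · rw [eq_top_iff, ← hu'.2, lieSpan_le]
      rintro _ ⟨i, rfl⟩
      by_cases h : d' i ≤ D
      · refine lieSpan_mono ?_ (c2 ⟨i, h⟩)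
        rintro _ ⟨l, rfl⟩
        exact ⟨ε l, by simp only [dif_pos (show d' (ε l) ≤ D from (ε l).2)]; simp⟩
      · exact subset_lieSpan ⟨i, by simp only [dif_neg h]⟩
    · simp only [dif_pos (show d' (ε l) ≤ D from (ε l).2)]
      simp [ρ]
  have p2 : Prim K fun i : {i | d i ≤ D} => u i := ⟨u, _, hu, Subtype.val_injective, fun _ => rfl⟩
  obtain ⟨α, hα⟩ := p2.conj (Prim.pull τ hτ p1)
  refine ⟨α, fun i => ?_⟩
  rw [← h1]
  refine eq_on_Sp (f := α.toLieHom) (g := σ) ?_ (a2 D (a i) (by rw [Pa]; exact hD i))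
  rintro _ ⟨l, hl, rfl⟩
  exact hα ⟨l, hl⟩

theorem free_main (r : ℕ) : LogHom K (Lr K r) := by
  intro m a b h
  letI := str K true (Lr K r)
  by_cases hr : r ≤ 1
  · exact abelian (ld true) gens_free (abelian_of_le hr gens_free) h
  have hl : HL K (of K : Fin r → Lr K r) := fun f => ⟨lift K f, lift_of_apply f⟩
  have he : ∀ y : Fin r → Lr K r, ∃ σ : Lr K r →ₗ⁅K⁆ Lr K r, ∀ i, σ (of K i) = y i :=
    fun f => ⟨lift K f, lift_of_apply f⟩
  obtain ⟨σ, s1, s2⟩ := approx (ld true) (by omega) gens_free hl he fun φ => (h φ).1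
  obtain ⟨τ, t1, t2⟩ := approx (ld true) (by omega) gens_free hl he fun φ => (h φ).2
  exact core σ τ (inj_of_approx σ s2) (inj_of_approx τ t2) s1 t1

end Pool.Agent.H10.Shir
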