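import Mathlib

set_option autoImplicit false
set_option linter.unusedSectionVars false

namespace Pool.Agent.H10.Skel

open Finset
open scoped RealInnerProductSpace

variable {E : Type*} [NormedAddCommGroup E] [InnerProductSpace ℝ E] {ι : Type*} [DecidableEq ι]

/-- weighted variance identity -/
lemma sum_norm_sub_sq (s : Finset ι) (w : ι → ℝ) (u : ι → E) (z : E) (hw : ∑ i ∈ s, w i = 1) :
    ∑ i ∈ s, w i * ‖u i - z‖ ^ 2
      = ∑ i ∈ s, w i * ‖u i‖ ^ 2 - 2 * ⟪∑ i ∈ s, w i • u i, z⟫ + ‖z‖ ^ 2 := by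
  have h1 : ∀ i ∈ s, w i * ‖u i - z‖ ^ 2
      = w i * ‖u i‖ ^ 2 - 2 * ⟪w i • u i, z⟫ + w i * ‖z‖ ^ 2 := by
    intro i _
    rw [norm_sub_sq_real, real_inner_smul_left]; ring
  rw [sum_congr rfl h1, sum_add_distrib, sum_sub_distrib, ← sum_mul, hw, sum_inner, mul_sum]
  ring

lemma key (s : Finset ι) (w : ι → ℝ) (u : ι → E) (hpos : ∀ i ∈ s, 0 < w i)
    (hw : ∑ i ∈ s, w i = 1) :
    ∑ i ∈ s, w i * ‖(∑ j ∈ s, u j) - (s.card : ℝ) • u i‖ ^ 2
      ≤ (∑ i ∈ s, (w i)⁻¹) * (∑ i ∈ s, w i * ‖u i‖ ^ 2 - ‖∑ i ∈ s, w i • u i‖ ^ 2) := by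
  set Y : E := ∑ i ∈ s, w i • u i with hY
  set r : ℝ := (s.card : ℝ) with hr
  set v : ι → E := fun i => u i - Y with hv
  set W : E := ∑ j ∈ s, v j with hW
  set S : ℝ := ∑ i ∈ s, (w i)⁻¹ with hS
  have hV : ∑ i ∈ s, w i * ‖v i‖ ^ 2 = ∑ i ∈ s, w i * ‖u i‖ ^ 2 - ‖Y‖ ^ 2 := by
    simp only [hv]
    rw [sum_norm_sub_sq s w u Y hw, ← hY, real_inner_self_eq_norm_sq]; ring
  set V : ℝ := ∑ i ∈ s, w i * ‖v i‖ ^ 2 with hVdef
  have h0 : ∑ i ∈ s, w i • v i = 0 := by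
    simp only [hv, smul_sub, sum_sub_distrib, ← sum_smul, hw, one_smul, ← hY, sub_self]
  have hWu : ∀ i, (∑ j ∈ s, u j) - r • u i = W - r • v i := by
    intro i
    simp only [hW, hv, sum_sub_distrib, sum_const, smul_sub, hr]
    rw [Nat.cast_smul_eq_nsmul ℝ s.card Y]
    abel
  have h1 : ∑ i ∈ s, w i * ‖W - r • v i‖ ^ 2 = ‖W‖ ^ 2 + r ^ 2 * V := by
    have : ∀ i ∈ s, w i * ‖W - r • v i‖ ^ 2
        = w i * ‖W‖ ^ 2 - 2 * r * ⟪W, w i • v i⟫ + r ^ 2 * (w i * ‖v i‖ ^ 2) := by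
      intro i _
      rw [norm_sub_sq_real, real_inner_smul_right, real_inner_smul_right, norm_smul, mul_pow,
        Real.norm_eq_abs, sq_abs]
      ring
    rw [sum_congr rfl this, sum_add_distrib, sum_sub_distrib, ← sum_mul, hw, ← mul_sum,
      ← inner_sum, h0, inner_zero_right, ← mul_sum]
    ring
  have hW2 : W = ∑ j ∈ s, (1 - r * w j) • v j := by
    have : ∑ j ∈ s, (1 - r * w j) • v j = ∑ j ∈ s, v j - r • ∑ j ∈ s, w j • v j := by
      rw [smul_sum, ← sum_sub_distrib]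
      refine sum_congr rfl fun j _ => ?_
      rw [sub_smul, one_smul, mul_smul]
    rw [this, h0, smul_zero, sub_zero]
  have hn : ‖W‖ ≤ ∑ j ∈ s, |1 - r * w j| * ‖v j‖ := by
    rw [hW2]
    refine (norm_sum_le _ _).trans (le_of_eq ?_)
    refine sum_congr rfl fun j _ => ?_
    rw [norm_smul, Real.norm_eq_abs]
  have hcs : (∑ j ∈ s, |1 - r * w j| * ‖v j‖) ^ 2
      ≤ (∑ j ∈ s, (1 - r * w j) ^ 2 / w j) * V := by
    rw [hVdef]
    refine sum_sq_le_sum_mul_sum_of_sq_eq_mul s (fun i hi => ?_) (fun i hi => ?_) (fun i hi => ?_)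
    · exact div_nonneg (sq_nonneg _) (hpos i hi).le
    · exact mul_nonneg (hpos i hi).le (sq_nonneg _)
    · have := (hpos i hi).ne'
      rw [mul_pow, sq_abs]; field_simp
  have hsum : ∑ j ∈ s, (1 - r * w j) ^ 2 / w j = S - r ^ 2 := by
    have : ∀ j ∈ s, (1 - r * w j) ^ 2 / w j = (w j)⁻¹ - 2 * r + r ^ 2 * w j := by
      intro j hj
      have := (hpos j hj).ne'
      field_simp; ring
    rw [sum_congr rfl this, sum_add_distrib, sum_sub_distrib, sum_const, ← mul_sum, hw,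
      nsmul_eq_mul, ← hr, ← hS]
    ring
  have hW3 : ‖W‖ ^ 2 ≤ (S - r ^ 2) * V := by
    rw [← hsum]
    exact (pow_le_pow_left₀ (norm_nonneg _) hn 2).trans hcs
  simp only [hWu]
  rw [h1, ← hV]
  nlinarith

/-- the potential -/
noncomputable def Phi (c : ℝ) (s : Finset ι) (w : ι → ℝ) (u : ι → E) : ℝ :=
  (1 - c) * ‖∑ i ∈ s, w i • u i‖ ^ 2 + c * ∑ i ∈ s, w i * ‖u i‖ ^ 2

lemma var_nonneg (s : Finset ι) (w : ι → ℝ) (u : ι → E) (hpos : ∀ i ∈ s, 0 ≤ w i)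
    (hw : ∑ i ∈ s, w i = 1) :
    ‖∑ i ∈ s, w i • u i‖ ^ 2 ≤ ∑ i ∈ s, w i * ‖u i‖ ^ 2 := by
  have h := sum_norm_sub_sq s w u (∑ i ∈ s, w i • u i) hw
  rw [real_inner_self_eq_norm_sq] at h
  have : 0 ≤ ∑ i ∈ s, w i * ‖u i - ∑ i ∈ s, w i • u i‖ ^ 2 :=
    sum_nonneg fun i hi => mul_nonneg (hpos i hi) (sq_nonneg _)
  linarith

lemma step (s : Finset ι) (w : ι → ℝ) (u : ι → E) (hpos : ∀ i ∈ s, 0 ≤ w i)
    (hw : ∑ i ∈ s, w i = 1) (q : ℝ) (hq : 0 < q) (hcard : (s.card : ℝ) = q + 1)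
    (c : ℝ) (hc : c ≤ 1) :
    ∃ i ∈ s, ∃ w' : ι → ℝ, (∀ j ∈ s.erase i, 0 ≤ w' j) ∧ ∑ j ∈ s.erase i, w' j = 1 ∧
      Phi c (s.erase i) w' u ≤ Phi (c + (1 - c) / q ^ 2) s w u := by
  have hvar := var_nonneg s w u hpos hw
  by_cases hz : ∃ i ∈ s, w i = 0
  · obtain ⟨i, hi, h0⟩ := hz
    refine ⟨i, hi, w, fun j hj => hpos j (mem_of_mem_erase hj), ?_, ?_⟩
    · rw [sum_erase_eq_sub hi, hw, h0, sub_zero]
    · unfold Phi
      rw [sum_erase_eq_sub hi, sum_erase_eq_sub hi, h0, zero_smul, zero_mul, sub_zero, sub_zero]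
      have : 0 ≤ (1 - c) / q ^ 2 := div_nonneg (by linarith) (sq_nonneg _)
      nlinarith
  · push Not at hz
    have hp : ∀ i ∈ s, 0 < w i := fun i hi => lt_of_le_of_ne (hpos i hi) (hz i hi).symm
    have hkey := key s w u hp hw
    set Y : E := ∑ i ∈ s, w i • u i with hY
    set A : ℝ := ∑ i ∈ s, w i * ‖u i‖ ^ 2 with hA
    set U : E := ∑ j ∈ s, u j with hU
    set B : ℝ := ∑ j ∈ s, ‖u j‖ ^ 2 with hB
    set S : ℝ := ∑ i ∈ s, (w i)⁻¹ with hS
    have hne : s.Nonempty := by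
      rcases s.eq_empty_or_nonempty with h | h
      · rw [h] at hw; simp at hw
      · exact h
    have hq' := hq.ne'
    have hY' : ∀ i ∈ s, ∑ j ∈ s.erase i, (w j + w i / q) • u j
        = Y + (w i / q) • (U - (s.card : ℝ) • u i) := by
      intro i hi
      rw [sum_erase_eq_sub hi]
      simp only [add_smul, sum_add_distrib, ← smul_sum, ← hY, ← hU, hcard, smul_sub, smul_add,
        one_smul, smul_smul]
      rw [div_mul_cancel₀ _ hq']
      abel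
    have hA' : ∀ i ∈ s, ∑ j ∈ s.erase i, (w j + w i / q) * ‖u j‖ ^ 2
        = A + (w i / q) * (B - (s.card : ℝ) * ‖u i‖ ^ 2) := by
      intro i hi
      rw [sum_erase_eq_sub hi]
      simp only [add_mul, sum_add_distrib, ← mul_sum, ← hA, ← hB, hcard]
      field_simp
      ring
    have hsumU : ∑ i ∈ s, (U - (s.card : ℝ) • u i) = 0 := by
      rw [sum_sub_distrib, sum_const, ← smul_sum, ← hU, Nat.cast_smul_eq_nsmul, sub_self]
    have hsumB : ∑ i ∈ s, (B - (s.card : ℝ) * ‖u i‖ ^ 2) = 0 := by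
      rw [sum_sub_distrib, sum_const, ← mul_sum, ← hB, nsmul_eq_mul, sub_self]
    have hmain : ∑ i ∈ s, (w i)⁻¹ * Phi c (s.erase i) (fun j => w j + w i / q) u
        ≤ ∑ i ∈ s, (w i)⁻¹ * Phi (c + (1 - c) / q ^ 2) s w u := by
      have e1 : ∀ i ∈ s, (w i)⁻¹ * Phi c (s.erase i) (fun j => w j + w i / q) u
          = (w i)⁻¹ * ((1 - c) * ‖Y‖ ^ 2 + c * A)
            + (1 - c) * (2 / q) * ⟪Y, U - (s.card : ℝ) • u i⟫
            + (1 - c) / q ^ 2 * (w i * ‖U - (s.card : ℝ) • u i‖ ^ 2)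
            + c / q * (B - (s.card : ℝ) * ‖u i‖ ^ 2) := by
        intro i hi
        have := (hp i hi).ne'
        unfold Phi
        rw [hY' i hi, hA' i hi, norm_add_sq_real, real_inner_smul_right, norm_smul, mul_pow,
          Real.norm_eq_abs, sq_abs]
        field_simp
        ring
      rw [sum_congr rfl e1]
      simp only [sum_add_distrib, ← mul_sum, ← sum_mul, ← inner_sum, hsumU, hsumB, ← hS]
      unfold Phi
      rw [← hY, ← hA]
      have h2 : 0 ≤ (1 - c) / q ^ 2 := div_nonneg (by linarith) (sq_nonneg _)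
      have h3 := mul_le_mul_of_nonneg_left hkey h2
      rw [inner_zero_right]
      nlinarith
    obtain ⟨i, hi, hle⟩ := exists_le_of_sum_le hne hmain
    refine ⟨i, hi, fun j => w j + w i / q, fun j hj => ?_, ?_, ?_⟩
    · have := hpos j (mem_of_mem_erase hj)
      have := div_nonneg (hpos i hi) hq.le
      linarith
    · rw [sum_erase_eq_sub hi, sum_add_distrib, hw, sum_const, nsmul_eq_mul, hcard]
      field_simp
      ring
    · exact le_of_mul_le_mul_left hle (inv_pos.mpr (hp i hi))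

/-- the constant: for a support of size `k + 1 + n` and target size `k + 1`. -/
noncomputable def cc (k n : ℕ) : ℝ := (n : ℝ) / (((k : ℝ) + n) * ((k : ℝ) + 1))

lemma cc_le_one (k n : ℕ) : cc k n ≤ 1 := by
  unfold cc
  have hk : (0 : ℝ) ≤ k := Nat.cast_nonneg k
  have hn : (0 : ℝ) ≤ n := Nat.cast_nonneg n
  apply div_le_one_of_le₀
  · nlinarith [mul_nonneg hk hn, mul_nonneg hk hk]
  · positivity

lemma cc_succ (k n : ℕ) :
    cc k n + (1 - cc k n) / ((k : ℝ) + n + 1) ^ 2 = cc k (n + 1) := by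
  unfold cc
  have hk : (0 : ℝ) ≤ k := Nat.cast_nonneg k
  have hn : (0 : ℝ) ≤ n := Nat.cast_nonneg n
  by_cases h : (k : ℝ) + n = 0
  · have hk0 : (k : ℝ) = 0 := by linarith
    have hn0 : (n : ℝ) = 0 := by linarith
    push_cast
    rw [hk0, hn0]; norm_num
  · push_cast
    have h1 : (k : ℝ) + n + 1 ≠ 0 := by positivity
    have h2 : (k : ℝ) + (n + 1) ≠ 0 := by positivity
    have h3 : (k : ℝ) + 1 ≠ 0 := by positivity
    field_simp
    ring

theorem main (k n : ℕ) (u : ι → E) : ∀ (s : Finset ι) (w : ι → ℝ), (∀ i ∈ s, 0 ≤ w i) →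
    ∑ i ∈ s, w i = 1 → s.card = k + 1 + n →
    ∃ t ⊆ s, t.card = k + 1 ∧ ∃ w' : ι → ℝ, (∀ j ∈ t, 0 ≤ w' j) ∧ ∑ j ∈ t, w' j = 1 ∧
      ‖∑ j ∈ t, w' j • u j‖ ^ 2 ≤ Phi (cc k n) s w u := by
  induction n with
  | zero =>
    intro s w hpos hw hc
    refine ⟨s, Subset.refl _, by simpa using hc, w, hpos, hw, ?_⟩
    simp [Phi, cc]
  | succ n ih =>
    intro s w hpos hw hc
    have hq : (0 : ℝ) < (k : ℝ) + n + 1 := by positivity
    obtain ⟨i, hi, w', h1, h2, h3⟩ := step s w u hpos hw ((k : ℝ) + n + 1) hq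
      (by rw [hc]; push_cast; ring) (cc k n) (cc_le_one k n)
    rw [cc_succ] at h3
    obtain ⟨t, ht, htc, w'', h4, h5, h6⟩ := ih (s.erase i) w' h1 h2
      (by rw [card_erase_of_mem hi, hc]; omega)
    exact ⟨t, ht.trans (erase_subset _ _), htc, w'', h4, h5, h6.trans h3⟩

end Pool.Agent.H10.Skel
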