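import Mathlib

set_option autoImplicit false

namespace Pool.Agent.H10.Strong

open scoped ENNReal

abbrev H : Type := lp (fun _ : ℕ => ℝ) 2

noncomputable def ellp (i j : ℕ) : H →ₗ[ℝ] ℝ where
  toFun z := (z i + z j) / 2
  map_add' x y := by simp only [lp.coeFn_add, Pi.add_apply]; ring
  map_smul' c x := by simp only [lp.coeFn_smul, Pi.smul_apply, smul_eq_mul, RingHom.id_apply]; ring

lemma ellp_le (i j : ℕ) (z : H) : |ellp i j z| ≤ ‖z‖ := by
  have h1 : |z i| ≤ ‖z‖ := lp.norm_apply_le_norm (by norm_num) z i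
  have h2 : |z j| ≤ ‖z‖ := lp.norm_apply_le_norm (by norm_num) z j
  change |(z i + z j) / 2| ≤ ‖z‖
  rw [abs_le] at *
  constructor <;> linarith [h1.1, h1.2, h2.1, h2.2]

noncomputable def ell (k : ℕ) : H →ₗ[ℝ] ℝ :=
  ellp (Nat.unpair (Nat.unpair k).1).1 (Nat.unpair (Nat.unpair k).1).2

noncomputable def r (k : ℕ) : ℝ := (1 / 2) ^ (3 ^ k)
noncomputable def a (k : ℕ) : ℝ := r k ^ 3
noncomputable def eps (k : ℕ) : ℝ := a k ^ 6

lemma r_pos (k : ℕ) : 0 < r k := by unfold r; positivity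
lemma r_succ (k : ℕ) : r (k + 1) = r k ^ 3 := by unfold r; rw [← pow_mul, pow_succ]
lemma r_anti {j k : ℕ} (h : j ≤ k) : r k ≤ r j :=
  pow_le_pow_of_le_one (by norm_num) (by norm_num) (Nat.pow_le_pow_right (by norm_num) h)
lemma r_le (k : ℕ) : r k ≤ (1 / 2) ^ k :=
  pow_le_pow_of_le_one (by norm_num) (by norm_num) (Nat.lt_pow_self (by norm_num)).le
lemma r_le_one (k : ℕ) : r k ≤ 1 := pow_le_one₀ (by norm_num) (by norm_num)
lemma a_pos (k : ℕ) : 0 < a k := pow_pos (r_pos k) 3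
lemma a_le_r (k : ℕ) : a k ≤ r k := by
  unfold a
  exact pow_le_of_le_one (r_pos k).le (r_le_one k) (by norm_num)
lemma a_le_one (k : ℕ) : a k ≤ 1 := (a_le_r k).trans (r_le_one k)
lemma a_le (k : ℕ) : a k ≤ (1 / 2) ^ k := (a_le_r k).trans (r_le k)
lemma eps_pos (k : ℕ) : 0 < eps k := pow_pos (a_pos k) 6
lemma eps_le_one (k : ℕ) : eps k ≤ 1 := pow_le_one₀ (a_pos k).le (a_le_one k)
lemma a_gt {k j : ℕ} (h : k < j) : a j ≤ a k ^ 2 * (1 / 2) ^ j := by
  have h1 : r j ≤ a k := by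
    have := r_anti (show k + 1 ≤ j from h)
    rwa [r_succ] at this
  have h2 : r j ^ 2 ≤ a k ^ 2 := pow_le_pow_left₀ (r_pos j).le h1 2
  calc a j = r j ^ 2 * r j := by unfold a; ring
    _ ≤ _ := mul_le_mul h2 (r_le j) (r_pos j).le (sq_nonneg _)
lemma eps_lt {k j : ℕ} (h : j < k) : a k ^ 2 ≤ eps j := by
  have h1 : r k ≤ a j := by
    have := r_anti (show j + 1 ≤ k from h)
    rwa [r_succ] at this
  calc a k ^ 2 = r k ^ 6 := by unfold a; ring
    _ ≤ _ := pow_le_pow_left₀ (r_pos k).le h1 6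

noncomputable def T (k : ℕ) : H →ₗ[ℝ] WithLp 2 (ℝ × H) :=
  (WithLp.linearEquiv 2 ℝ (ℝ × H)).symm.toLinearMap ∘ₗ ((ell k).prod (eps k • LinearMap.id))

lemma T_sq (k : ℕ) (z : H) : ‖T k z‖ ^ 2 = (ell k z) ^ 2 + eps k ^ 2 * ‖z‖ ^ 2 := by
  rw [WithLp.prod_norm_sq_eq_of_L2]
  simp [T, norm_smul, mul_pow]

lemma T_le (k : ℕ) (z : H) : ‖T k z‖ ≤ 2 * ‖z‖ := by
  refine le_of_sq_le_sq ?_ (by positivity)
  rw [T_sq]
  have h1 : (ell k z) ^ 2 ≤ ‖z‖ ^ 2 := by
    rw [← sq_abs]; exact pow_le_pow_left₀ (abs_nonneg _) (ellp_le _ _ z) 2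
  have h2 : eps k ^ 2 ≤ 1 := pow_le_one₀ (eps_pos k).le (eps_le_one k)
  nlinarith [sq_nonneg ‖z‖]

lemma T_ge (k : ℕ) (z : H) : eps k * ‖z‖ ≤ ‖T k z‖ := by
  refine le_of_sq_le_sq ?_ (norm_nonneg _)
  rw [T_sq]; nlinarith [sq_nonneg (ell k z)]

lemma T_ge' (k : ℕ) (z : H) : |ell k z| ≤ ‖T k z‖ := by
  refine le_of_sq_le_sq ?_ (norm_nonneg _)
  rw [T_sq, sq_abs]; nlinarith [mul_nonneg (sq_nonneg (eps k)) (sq_nonneg ‖z‖)]

lemma T_eq (k : ℕ) (z : H) (h : ell k z = 0) : ‖T k z‖ ≤ eps k * ‖z‖ := by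
  refine le_of_sq_le_sq ?_ (mul_nonneg (eps_pos k).le (norm_nonneg _))
  rw [T_sq, h]; nlinarith

lemma summ (z : H) : Summable (fun k => a k * ‖T k z‖) := by
  refine Summable.of_nonneg_of_le (fun k => mul_nonneg (a_pos k).le (norm_nonneg _))
    (fun k => mul_le_mul (a_le k) (T_le k z) (norm_nonneg _) (by positivity)) ?_
  exact summable_geometric_two.mul_right _

noncomputable def N (z : H) : ℝ := ∑' k, a k * ‖T k z‖

lemma N_le (z : H) : N z ≤ 4 * ‖z‖ := by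
  have := (summ z).tsum_le_tsum
    (fun k => mul_le_mul (a_le k) (T_le k z) (norm_nonneg _) (by positivity))
    (summable_geometric_two.mul_right _)
  rw [tsum_mul_right, tsum_geometric_two] at this
  unfold N; linarith

lemma N_ge (z : H) : a 0 * eps 0 * ‖z‖ ≤ N z := by
  have := (summ z).le_tsum 0 (fun k _ => mul_nonneg (a_pos k).le (norm_nonneg _))
  have h2 := mul_le_mul_of_nonneg_left (T_ge 0 z) (a_pos 0).le
  unfold N; linarith

lemma N_add (x y : H) : N (x + y) ≤ N x + N y := by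
  unfold N
  rw [← (summ x).tsum_add (summ y)]
  refine (summ _).tsum_le_tsum (fun k => ?_) ((summ x).add (summ y))
  rw [map_add, ← mul_add]
  exact mul_le_mul_of_nonneg_left (norm_add_le _ _) (a_pos k).le

lemma N_smul (c : ℝ) (x : H) : N (c • x) = |c| * N x := by
  unfold N
  rw [← tsum_mul_left]
  refine tsum_congr fun k => ?_
  rw [map_smul, norm_smul, Real.norm_eq_abs]; ring

lemma smooth {F : Type*} [NormedAddCommGroup F] [InnerProductSpace ℝ F] (g w y : F) (hg : 0 < ‖g‖) :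
    ‖g + w‖ + ‖g - w‖ - ‖g + y‖ - ‖g - y‖ ≤ ‖w‖ ^ 2 / ‖g‖ := by
  have h1 := parallelogram_law_with_norm ℝ g w
  have h2 : 2 * ‖g‖ ≤ ‖g + y‖ + ‖g - y‖ := by
    have := norm_add_le (g + y) (g - y)
    rwa [add_add_sub_cancel, ← two_smul ℝ g, norm_smul, Real.norm_two] at this
  have h3 : ‖g + w‖ + ‖g - w‖ ≤ 2 * ‖g‖ + ‖w‖ ^ 2 / ‖g‖ := by
    refine le_of_sq_le_sq ?_ (by positivity)
    have h4 : ‖g‖ * (‖w‖ ^ 2 / ‖g‖) = ‖w‖ ^ 2 := by field_simp
    nlinarith [sq_nonneg (‖g + w‖ - ‖g - w‖), sq_nonneg (‖w‖ ^ 2 / ‖g‖)]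
  linarith

/-- the key estimate -/
lemma key (g h x : H) (k : ℕ) (hg : 0 < ‖g‖) (hg0 : ell k g = 0) (hh : ell k h = 1)
    (hx : ell k x = 1) :
    N (g + a k ^ 4 • (h - x)) + N (g - a k ^ 4 • (h - x)) - N (g + a k ^ 4 • h) - N (g - a k ^ 4 • h)
      ≤ a k ^ 5 * (a k * (2 * (‖g‖ + ‖h - x‖) + 2 * (4 * ‖h - x‖ ^ 2 / ‖g‖ + 4 * ‖x‖)) - 2) := by
  classical
  set t := a k ^ 4 with ht
  set w := t • (h - x) with hw
  set y := t • h with hy
  have ha := a_pos k
  have ha1 := a_le_one k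
  have ht0 : 0 < t := pow_pos ha 4
  have ht1 : t ≤ 1 := pow_le_one₀ ha.le ha1
  have hwn : ‖w‖ = t * ‖h - x‖ := by rw [hw, norm_smul, Real.norm_of_nonneg ht0.le]
  set K := 4 * ‖h - x‖ ^ 2 / ‖g‖ + 4 * ‖x‖ with hK
  have hK1 : 0 ≤ 4 * ‖h - x‖ ^ 2 / ‖g‖ := by positivity
  have hK2 : 0 ≤ 4 * ‖x‖ := by positivity
  set D := a k ^ 6 * (2 * (‖g‖ + ‖h - x‖)) - 2 * a k ^ 5 with hD
  have hterm : ∀ j, a j * ‖T j (g + w)‖ + a j * ‖T j (g - w)‖ - a j * ‖T j (g + y)‖
      - a j * ‖T j (g - y)‖ ≤ a k ^ 6 * K * (1 / 2) ^ j + (if j = k then D else 0) := by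
    intro j
    have haj := a_pos j
    rcases lt_trichotomy j k with hj | hj | hj
    · rw [if_neg hj.ne, add_zero]
      have h1 := T_ge j g
      have h2 := eps_lt hj
      have h3 : a k ^ 2 * ‖g‖ ≤ ‖T j g‖ := (mul_le_mul_of_nonneg_right h2 hg.le).trans h1
      have h4 : 0 < a k ^ 2 * ‖g‖ := by positivity
      have h5 := smooth (T j g) (T j w) (T j y) (h4.trans_le h3)
      simp only [← map_add, ← map_sub] at h5
      have h6 : ‖T j w‖ ^ 2 ≤ (2 * ‖w‖) ^ 2 := pow_le_pow_left₀ (norm_nonneg _) (T_le j w) 2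
      have h7 : ‖T j w‖ ^ 2 / ‖T j g‖ ≤ (2 * ‖w‖) ^ 2 / (a k ^ 2 * ‖g‖) :=
        div_le_div₀ (by positivity) h6 h4 h3
      have h8 : (2 * ‖w‖) ^ 2 / (a k ^ 2 * ‖g‖) = a k ^ 6 * (4 * ‖h - x‖ ^ 2 / ‖g‖) := by
        rw [hwn, ht]; field_simp; ring
      have h9 : a k ^ 6 * (4 * ‖h - x‖ ^ 2 / ‖g‖) ≤ a k ^ 6 * K :=
        mul_le_mul_of_nonneg_left (by rw [hK]; linarith) (by positivity)
      have h10 : ‖T j (g + w)‖ + ‖T j (g - w)‖ - ‖T j (g + y)‖ - ‖T j (g - y)‖ ≤ a k ^ 6 * K := by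
        linarith
      have h11 := mul_le_mul_of_nonneg_left h10 haj.le
      have h12 : a j * (a k ^ 6 * K) ≤ (1 / 2) ^ j * (a k ^ 6 * K) :=
        mul_le_mul_of_nonneg_right (a_le j) (by positivity)
      linarith
    · subst hj
      rw [if_pos rfl]
      have hw0 : ell j w = 0 := by rw [hw, map_smul, map_sub, hh, hx]; simp
      have hy0 : ell j y = t := by rw [hy, map_smul, hh]; simp
      have h1 := T_eq j (g + w) (by rw [map_add, hg0, hw0]; simp)
      have h2 := T_eq j (g - w) (by rw [map_sub, hg0, hw0]; simp)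
      have h3 := T_ge' j (g + y)
      have h4 := T_ge' j (g - y)
      rw [map_add, hg0, hy0, zero_add, abs_of_pos ht0] at h3
      rw [map_sub, hg0, hy0, zero_sub, abs_neg, abs_of_pos ht0] at h4
      have hw1 : ‖w‖ ≤ ‖h - x‖ := by rw [hwn]; nlinarith [norm_nonneg (h - x)]
      have h5 : ‖g + w‖ ≤ ‖g‖ + ‖h - x‖ := (norm_add_le _ _).trans (by linarith)
      have h6 : ‖g - w‖ ≤ ‖g‖ + ‖h - x‖ := (norm_sub_le _ _).trans (by linarith)
      have h7 := mul_le_mul_of_nonneg_left h5 (eps_pos j).le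
      have h8 := mul_le_mul_of_nonneg_left h6 (eps_pos j).le
      have h10 : ‖T j (g + w)‖ + ‖T j (g - w)‖ - ‖T j (g + y)‖ - ‖T j (g - y)‖
          ≤ a j ^ 6 * (2 * (‖g‖ + ‖h - x‖)) - 2 * t := by
        unfold eps at h1 h2 h7 h8
        linarith
      have h11 := mul_le_mul_of_nonneg_left h10 haj.le
      have h12 : 0 ≤ a j ^ 6 * K * (1 / 2) ^ j := by positivity
      have h13 : a j * (a j ^ 6 * (2 * (‖g‖ + ‖h - x‖))) ≤ 1 * (a j ^ 6 * (2 * (‖g‖ + ‖h - x‖))) :=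
        mul_le_mul_of_nonneg_right ha1 (by positivity)
      have h14 : a j * t = a j ^ 5 := by rw [ht]; ring
      rw [hD]
      nlinarith
    · rw [if_neg hj.ne', add_zero]
      have e1 : g + w = (g + y) - t • x := by rw [hw, hy, smul_sub]; abel
      have e2 : g - w = (g - y) + t • x := by rw [hw, hy, smul_sub]; abel
      have h1 : ‖T j (g + w)‖ ≤ ‖T j (g + y)‖ + ‖T j (t • x)‖ := by
        rw [e1, map_sub]; exact norm_sub_le _ _
      have h2 : ‖T j (g - w)‖ ≤ ‖T j (g - y)‖ + ‖T j (t • x)‖ := by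
        rw [e2, map_add]; exact norm_add_le _ _
      have h3 := T_le j (t • x)
      rw [norm_smul, Real.norm_of_nonneg ht0.le] at h3
      have h4 : t * (4 * ‖x‖) ≤ t * K := mul_le_mul_of_nonneg_left (by rw [hK]; linarith) ht0.le
      have h10 : ‖T j (g + w)‖ + ‖T j (g - w)‖ - ‖T j (g + y)‖ - ‖T j (g - y)‖ ≤ t * K := by
        linarith
      have h11 := mul_le_mul_of_nonneg_left h10 haj.le
      have h12 : a j * (t * K) ≤ (a k ^ 2 * (1 / 2) ^ j) * (t * K) :=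
        mul_le_mul_of_nonneg_right (a_gt hj) (by positivity)
      have h13 : (a k ^ 2 * (1 / 2) ^ j) * (t * K) = a k ^ 6 * K * (1 / 2) ^ j := by
        rw [ht]; ring
      linarith
  have hs1 : HasSum (fun j => a j * ‖T j (g + w)‖ + a j * ‖T j (g - w)‖ - a j * ‖T j (g + y)‖
      - a j * ‖T j (g - y)‖) (N (g + w) + N (g - w) - N (g + y) - N (g - y)) :=
    (((summ _).hasSum.add (summ _).hasSum).sub (summ _).hasSum).sub (summ _).hasSum
  have hs2 : HasSum (fun j => a k ^ 6 * K * (1 / 2) ^ j + (if j = k then D else 0))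
      (a k ^ 6 * K * 2 + D) :=
    (hasSum_geometric_two.mul_left _).add (hasSum_ite_eq k D)
  have := hasSum_le hterm hs1 hs2
  rw [hD] at this
  linarith

lemma exists_ell (x h : H) (hx : x ≠ 0) (hh : h ≠ 0) :
    ∃ i j, ellp i j x ≠ 0 ∧ ellp i j h ≠ 0 := by
  obtain ⟨i, hi⟩ : ∃ i, x i ≠ 0 := by
    by_contra hc
    push Not at hc
    exact hx (lp.ext (funext hc))
  obtain ⟨j, hj⟩ : ∃ j, h j ≠ 0 := by
    by_contra hc
    push Not at hc
    exact hh (lp.ext (funext hc))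
  have e : ∀ i j (z : H), ellp i j z = (z i + z j) / 2 := fun _ _ _ => rfl
  by_cases h1 : h i = 0
  · by_cases h2 : x j = 0
    · refine ⟨i, j, ?_, ?_⟩
      · rw [e, h2]; intro h; apply hi; linarith
      · rw [e, h1]; intro h; apply hj; linarith
    · refine ⟨j, j, ?_, ?_⟩
      · rw [e]; intro h; apply h2; linarith
      · rw [e]; intro h; apply hj; linarith
  · refine ⟨i, i, ?_, ?_⟩
    · rw [e]; intro h; apply hi; linarith
    · rw [e]; intro h; apply h1; linarith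

lemma exists_ker (G : Submodule ℝ H) (hG : 2 ≤ Module.rank ℝ G) (l : H →ₗ[ℝ] ℝ) :
    ∃ g ∈ G, g ≠ 0 ∧ l g = 0 := by
  by_contra hc
  push Not at hc
  have hinj : Function.Injective (l.domRestrict G) := by
    rw [injective_iff_map_eq_zero]
    intro g hg
    by_contra h0
    exact hc g.1 g.2 (fun h => h0 (Subtype.ext h)) hg
  have := LinearMap.rank_le_of_injective _ hinj
  rw [Module.rank_self] at this
  have h2 := hG.trans this
  norm_num at h2

theorem no_strong (G : Submodule ℝ H) (hG : 2 ≤ Module.rank ℝ G) (x : H) (hx : x ≠ 0)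
    (hs : ∀ g ∈ G, ∀ α : ℝ, N g ≤ N (g + α • x)) : False := by
  obtain ⟨h, hhG, hh0, -⟩ := exists_ker G hG 0
  obtain ⟨i, j, hxi, hhi⟩ := exists_ell x h hx hh0
  obtain ⟨g, hgG, hg0, hgl⟩ := exists_ker G hG (ellp i j)
  set c := (ellp i j x)⁻¹ with hc
  set x' := c • x with hx'
  set h' := (ellp i j h)⁻¹ • h with hh'
  have hh'G : h' ∈ G := G.smul_mem _ hhG
  set K := 2 * (‖g‖ + ‖h' - x'‖) + 2 * (4 * ‖h' - x'‖ ^ 2 / ‖g‖ + 4 * ‖x'‖) with hK
  have hgp : 0 < ‖g‖ := norm_pos_iff.mpr hg0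
  have hK0 : 0 < K := by positivity
  obtain ⟨m, hm⟩ := exists_pow_lt_of_lt_one (show 0 < 2 / K by positivity)
    (show (1 / 2 : ℝ) < 1 by norm_num)
  set k := Nat.pair (Nat.pair i j) m with hk
  have hell : ell k = ellp i j := by simp [ell, hk]
  have hak : a k < 2 / K :=
    ((a_le k).trans (pow_le_pow_of_le_one (by norm_num) (by norm_num)
      (Nat.right_le_pair _ _))).trans_lt hm
  have h1 := key g h' x' k hgp (by rw [hell, hgl])
    (by rw [hell, hh', map_smul, smul_eq_mul, inv_mul_cancel₀ hhi])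
    (by rw [hell, hx', map_smul, smul_eq_mul, hc, inv_mul_cancel₀ hxi])
  have h2 := hs (g + a k ^ 4 • h') (G.add_mem hgG (G.smul_mem _ hh'G)) (-(a k ^ 4 * c))
  have h3 := hs (g - a k ^ 4 • h') (G.sub_mem hgG (G.smul_mem _ hh'G)) (a k ^ 4 * c)
  have e2 : g + a k ^ 4 • h' + -(a k ^ 4 * c) • x = g + a k ^ 4 • (h' - x') := by
    rw [hx', smul_sub, neg_smul, mul_smul]; abel
  have e3 : g - a k ^ 4 • h' + (a k ^ 4 * c) • x = g - a k ^ 4 • (h' - x') := by
    rw [hx', smul_sub, mul_smul]; abel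
  rw [e2] at h2
  rw [e3] at h3
  rw [← hK] at h1
  rw [lt_div_iff₀ hK0] at hak
  have h4 : a k ^ 5 * (a k * K - 2) < 0 :=
    mul_neg_of_pos_of_neg (pow_pos (a_pos k) 5) (by linarith)
  linarith

/-- the renormed Hilbert space -/
def E : Type := H

noncomputable instance : AddCommGroup E := inferInstanceAs (AddCommGroup H)
noncomputable instance : Module ℝ E := inferInstanceAs (Module ℝ H)

noncomputable def toH : E ≃ₗ[ℝ] H := LinearEquiv.refl ℝ H

noncomputable def nE : AddGroupNorm E where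
  toFun z := N (toH z)
  map_zero' := by
    have := N_smul 0 0
    simpa using this
  add_le' x y := by rw [map_add]; exact N_add _ _
  neg' x := by
    have := N_smul (-1) (toH x)
    simpa using this
  eq_zero_of_map_eq_zero' x hx := by
    have h1 := N_ge (toH x)
    have h2 : 0 < a 0 * eps 0 := mul_pos (a_pos 0) (eps_pos 0)
    have hx' : N (toH x) = 0 := hx
    have h3 : ‖toH x‖ ≤ 0 := by
      by_contra hc
      push Not at hc
      have := mul_pos h2 hc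
      linarith
    exact toH.map_eq_zero_iff.mp (norm_le_zero_iff.mp h3)

noncomputable instance : NormedAddCommGroup E := nE.toNormedAddCommGroup

lemma norm_E (z : E) : ‖z‖ = N (toH z) := rfl

noncomputable instance : NormedSpace ℝ E where
  norm_smul_le c z := by rw [norm_E, norm_E, map_smul, N_smul, Real.norm_eq_abs]

instance : CompleteSpace E := by
  have h2 : 0 < a 0 * eps 0 := mul_pos (a_pos 0) (eps_pos 0)
  let e : E ≃L[ℝ] H := toH.toContinuousLinearEquivOfBounds (a 0 * eps 0)⁻¹ 4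
    (fun z => by
      rw [norm_E, ← div_eq_inv_mul, le_div_iff₀ h2, mul_comm]; exact N_ge _)
    (fun z => by rw [norm_E, LinearEquiv.apply_symm_apply]; exact N_le _)
  exact (completeSpace_congr (e := e.toEquiv) e.isUniformEmbedding).mpr inferInstance

lemma not_fd : ¬ FiniteDimensional ℝ E := by
  intro h
  have h1 : FiniteDimensional ℝ H := h
  have h2 : LinearIndependent ℝ (fun i : ℕ => (lp.single 2 i (1 : ℝ) : H)) := by
    rw [linearIndependent_iff']
    intro s c hs i hi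
    have := congrArg (ellp i i) hs
    rw [map_sum, map_zero, Finset.sum_eq_single i] at this
    · simpa [ellp] using this
    · intro b _ hb
      simp [ellp, lp.single_apply, Pi.single_eq_of_ne hb.symm]
    · exact fun h => absurd hi h
  exact Module.Finite.not_linearIndependent_of_infinite _ h2

theorem main : ¬ ∃ G : Submodule ℝ E, 2 ≤ Module.rank ℝ G ∧
    ∃ x : E, x ≠ 0 ∧ ∀ g ∈ G, ∀ α : ℝ, ‖g‖ ≤ ‖g + α • x‖ := by
  rintro ⟨G, hG, x, hx, hs⟩
  exact no_strong G hG x hx hs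

end Pool.Agent.H10.Strong
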