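import Mathlib

open Set Filter Topology

namespace Pool.Agent.H10.PosIso

section Abstract

variable {X Z : Type*} [NormedAddCommGroup X] [NormedSpace ℝ X] [CompleteSpace X]
  [NormedAddCommGroup Z] [NormedSpace ℝ Z] [CompleteSpace Z]

theorem swindle (U J : X →L[ℝ] Z) (L J' : Z →L[ℝ] X)
    (ha : ∀ x, U (L (U x)) = U x) (hb : ∀ z, L (U (L z)) = L z)
    (hc : ∀ x, J (L (U x)) = U (L (J x))) (hd : ∀ z, J' (U (L z)) = L (U (J' z)))
    (he : ∀ x, J' (J (x - L (U x))) = x - L (U x))
    (hf : ∀ z, J (J' (z - U (L z))) = z - U (L z)) :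
    ∃ c : ℝ, 0 < c ∧ ∃ T : X ≃L[ℝ] Z, ∀ x, T x = c • U x + J x := by
  set c : ℝ := ‖J.comp L‖ + 1 with hc0
  have hcpos : 0 < c := by positivity
  let T' : X →L[ℝ] Z := c • U + J - J.comp (L.comp U)
  let S' : Z →L[ℝ] X := c⁻¹ • L + J' - J'.comp (U.comp L)
  have hT' : ∀ x, T' x = c • U x + J (x - L (U x)) := fun x => by
    simp only [T', ContinuousLinearMap.sub_apply, ContinuousLinearMap.add_apply,
      ContinuousLinearMap.smul_apply, ContinuousLinearMap.comp_apply, map_sub]
    abel
  have hS' : ∀ z, S' z = c⁻¹ • L z + J' (z - U (L z)) := fun z => by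
    simp only [S', ContinuousLinearMap.sub_apply, ContinuousLinearMap.add_apply,
      ContinuousLinearMap.smul_apply, ContinuousLinearMap.comp_apply, map_sub]
    abel
  have h1 : ∀ x, S' (T' x) = x := fun x => by
    have e1 : L (J (x - L (U x))) = 0 := by
      rw [map_sub, hc, map_sub, hb, sub_self]
    have e2 : L (T' x) = c • L (U x) := by rw [hT', map_add, map_smul, e1, add_zero]
    have e3 : T' x - U (L (T' x)) = J (x - L (U x)) := by
      rw [e2, map_smul, ha, hT']; abel
    rw [hS', e3, e2, he, smul_smul, inv_mul_cancel₀ hcpos.ne', one_smul]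
    abel
  have h2 : ∀ z, T' (S' z) = z := fun z => by
    have e1 : U (J' (z - U (L z))) = 0 := by
      rw [map_sub, hd, map_sub, ha, sub_self]
    have e2 : U (S' z) = c⁻¹ • U (L z) := by rw [hS', map_add, map_smul, e1, add_zero]
    have e3 : S' z - L (U (S' z)) = J' (z - U (L z)) := by
      rw [e2, map_smul, hb, hS']; abel
    rw [hT', e3, e2, hf, smul_smul, mul_inv_cancel₀ hcpos.ne', one_smul]
    abel
  let N : Z →L[ℝ] Z := -(c⁻¹ • J.comp L)
  have hN : ‖N‖ < 1 := by
    simp only [N, norm_neg, norm_smul, Real.norm_eq_abs, abs_inv, abs_of_pos hcpos]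
    rw [inv_mul_lt_iff₀ hcpos]
    linarith
  refine ⟨c, hcpos, (ContinuousLinearEquiv.equivOfInverse T' S' h1 h2).trans
    (ContinuousLinearEquiv.ofUnit (Units.oneSub N hN)), fun x => ?_⟩
  change (1 - N) (T' x) = _
  have e1 : L (J (x - L (U x))) = 0 := by
    rw [map_sub, hc, map_sub, hb, sub_self]
  have e2 : L (T' x) = c • L (U x) := by rw [hT', map_add, map_smul, e1, add_zero]
  have e3 : N (T' x) = -J (L (U x)) := by
    simp only [N, ContinuousLinearMap.neg_apply, ContinuousLinearMap.smul_apply,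
      ContinuousLinearMap.comp_apply, e2, map_smul, smul_smul, inv_mul_cancel₀ hcpos.ne', one_smul]
  rw [ContinuousLinearMap.sub_apply, ContinuousLinearMap.one_apply, e3, hT', map_sub]
  abel

variable {B : Type*} [NormedAddCommGroup B] [NormedSpace ℝ B] [CompleteSpace B]

theorem swindle_out (U : X →L[ℝ] B × X) (L : B × X →L[ℝ] X)
    (h1 : ∀ b g, U (L (b, g)) = (b, L (U g))) (h2 : ∀ b g, L (b, L (U g)) = L (b, g))
    (h3 : ∀ x, U (L (U x)) = U x) :
    ∃ c : ℝ, 0 < c ∧ ∃ T : X ≃L[ℝ] B × X, ∀ x, T x = c • U x + (0, x) := by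
  refine swindle U (ContinuousLinearMap.inr ℝ B X) L (ContinuousLinearMap.snd ℝ B X) h3 ?_ ?_ ?_ ?_ ?_
  · rintro ⟨b, g⟩; rw [h1, h2]
  · intro x; simp [h1]
  · rintro ⟨b, g⟩; simp [h1]
  · intro x; simp
  · rintro ⟨b, g⟩; rw [h1]; simp

theorem swindle_in (U : X →L[ℝ] B × X) (L : B × X →L[ℝ] X)
    (h1 : ∀ b g, U (L (b, g)) = (b, L (U g))) (h2 : ∀ b g, L (b, L (U g)) = L (b, g))
    (h3 : ∀ x, U (L (U x)) = U x) :
    ∃ c : ℝ, 0 < c ∧ ∃ T : (B × X) ≃L[ℝ] X, ∀ z, T z = c • L z + z.2 := by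
  refine swindle L (ContinuousLinearMap.snd ℝ B X) U (ContinuousLinearMap.inr ℝ B X) ?_ h3 ?_ ?_ ?_ ?_
  · rintro ⟨b, g⟩; rw [h1, h2]
  · rintro ⟨b, g⟩; simp [h1]
  · intro x; simp [h1]
  · rintro ⟨b, g⟩; rw [h1]; simp
  · intro x; simp

end Abstract

abbrev D := ℕ → Bool

def cons (b : Bool) : C(D, D) :=
  ⟨fun x n => Nat.casesOn n b x, continuous_pi fun n => by
    cases n with
    | zero => exact continuous_const
    | succ n => exact continuous_apply n⟩

def tail : C(D, D) := ⟨fun x n => x (n + 1), by fun_prop⟩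

@[simp] lemma cons_zero (b : Bool) (x : D) : cons b x 0 = b := rfl
@[simp] lemma cons_succ (b : Bool) (x : D) (n : ℕ) : cons b x (n + 1) = x n := rfl
@[simp] lemma tail_cons (b : Bool) (x : D) : tail (cons b x) = x := rfl
lemma cons_tail (x : D) : cons (x 0) (tail x) = x := by
  funext n; cases n <;> rfl

lemma cons_cases (x : D) : ∃ b y, x = cons b y := ⟨_, _, (cons_tail x).symm⟩

section Ops

variable {K K' V : Type*} [TopologicalSpace K] [TopologicalSpace K']
  [NormedAddCommGroup V] [NormedSpace ℝ V]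

def pre (φ : C(K', K)) : C(K, V) →L[ℝ] C(K', V) where
  toFun f := f.comp φ
  map_add' _ _ := rfl
  map_smul' _ _ := rfl
  cont := ContinuousMap.continuous_precomp φ

@[simp] lemma pre_apply (φ : C(K', K)) (f : C(K, V)) (x : K') : pre φ f x = f (φ x) := rfl

def glue0 (a b : C(D, V)) : C(D, V) :=
  ⟨fun x => bif x 0 then a (tail x) else b (tail x),
    by
      have h : Continuous fun z : Bool × V × V => bif z.1 then z.2.1 else z.2.2 := by
        refine continuous_prod_of_discrete_left.2 fun c => ?_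
        cases c
        · exact continuous_snd
        · exact continuous_fst
      exact h.comp (f := fun x : D => (x 0, a (tail x), b (tail x))) (by fun_prop)⟩

noncomputable def glue : C(D, V) × C(D, V) →L[ℝ] C(D, V) :=
  LinearMap.mkContinuous
    { toFun := fun z => glue0 z.1 z.2
      map_add' := fun z w => by
        ext x
        simp only [glue0, ContinuousMap.coe_mk, ContinuousMap.add_apply, Prod.fst_add, Prod.snd_add]
        cases x 0 <;> rfl
      map_smul' := fun c z => by
        ext x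
        simp only [glue0, ContinuousMap.coe_mk, ContinuousMap.smul_apply, RingHom.id_apply]
        cases x 0 <;> rfl } 1 (fun z => by
      rw [one_mul]
      refine (ContinuousMap.norm_le _ (norm_nonneg _)).2 fun x => ?_
      simp only [glue0, LinearMap.coe_mk, AddHom.coe_mk, ContinuousMap.coe_mk]
      cases x 0
      · exact (ContinuousMap.norm_coe_le_norm _ _).trans (norm_snd_le z)
      · exact (ContinuousMap.norm_coe_le_norm _ _).trans (norm_fst_le z))

@[simp] lemma glue_true (a b : C(D, V)) (x : D) : glue (a, b) (cons true x) = a x := rfl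
@[simp] lemma glue_false (a b : C(D, V)) (x : D) : glue (a, b) (cons false x) = b x := rfl

end Ops

def rho : C(D, D) :=
  ⟨fun x n => x n && decide (∀ m : Fin n, x m = false), continuous_pi fun n => by
    have h1 : Continuous fun x : D => (x n, fun m : Fin n => x m) := by fun_prop
    exact (continuous_of_discreteTopology
      (f := fun z : Bool × (Fin n → Bool) => z.1 && decide (∀ m, z.2 m = false))).comp h1⟩

def e0 : D := cons true fun _ => false

lemma rho_true (x : D) : rho (cons true x) = e0 := by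
  funext n
  cases n with
  | zero => simp [rho, e0]
  | succ n =>
    simp only [rho, e0, ContinuousMap.coe_mk, cons_succ, Bool.and_eq_false_imp, decide_eq_false_iff_not]
    intro _ h
    simpa using h 0

lemma rho_false (x : D) : rho (cons false x) = cons false (rho x) := by
  funext n
  cases n with
  | zero => simp [rho]
  | succ n =>
    simp only [rho, ContinuousMap.coe_mk, cons_succ]
    congr 1
    simp [Fin.forall_fin_succ]

lemma rho_rho (x : D) : rho (rho x) = rho x := by
  funext n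
  induction n generalizing x with
  | zero => simp [rho]
  | succ n ih =>
    obtain ⟨b, y, rfl⟩ := cons_cases x
    cases b
    · rw [rho_false, rho_false, cons_succ, cons_succ, ih]
    · rw [rho_true, e0, rho_true, e0]

lemma conv_abs {a u v w ε : ℝ} (h0 : 0 ≤ a) (h1 : a ≤ 1) (hu : |u - w| ≤ ε) (hv : |v - w| ≤ ε) :
    |a * u + (1 - a) * v - w| ≤ ε := by
  rw [abs_le] at *
  constructor <;> nlinarith [hu.1, hu.2, hv.1, hv.2]

def Osc (n : ℕ) (f : C(D, ℝ)) (ε : ℝ) : Prop :=
  ∀ x y : D, (∀ k < n, x k = y k) → |f x - f y| ≤ ε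

lemma Osc.comp {n : ℕ} {f : C(D, ℝ)} {ε : ℝ} (h : Osc (n + 1) f ε) (b : Bool) :
    Osc n (f.comp (cons b)) ε := fun x y hxy => h _ _ fun k hk => by
  cases k with
  | zero => rfl
  | succ k => exact hxy k (by omega)

lemma Osc.mono {n m : ℕ} {f : C(D, ℝ)} {ε : ℝ} (h : Osc n f ε) (hm : n ≤ m) : Osc m f ε :=
  fun x y hxy => h _ _ fun k hk => hxy k (by omega)

lemma exists_osc (f : C(D, ℝ)) {ε : ℝ} (hε : 0 < ε) : ∃ n, Osc n f ε := by
  have h1 : ∀ x : D, ∃ (z : D) (n : ℕ), x ∈ PiNat.cylinder z n ∧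
      PiNat.cylinder z n ⊆ f ⁻¹' Metric.ball (f x) (ε / 2) := fun x => by
    have hn : f ⁻¹' Metric.ball (f x) (ε / 2) ∈ 𝓝 x :=
      f.continuous.continuousAt (Metric.ball_mem_nhds _ (by positivity))
    obtain ⟨s, ⟨z, n, rfl⟩, hx, hs⟩ :=
      (PiNat.isTopologicalBasis_cylinders (fun _ : ℕ => Bool)).mem_nhds_iff.1 hn
    exact ⟨z, n, hx, hs⟩
  choose z n hx hs using h1
  obtain ⟨T, hT⟩ := isCompact_univ.elim_finite_subcover (fun x => PiNat.cylinder (z x) (n x))
    (fun x => PiNat.isOpen_cylinder _ _ _) (fun x _ => mem_iUnion.2 ⟨x, hx x⟩)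
  refine ⟨T.sup n, fun x y hxy => ?_⟩
  obtain ⟨w, hw, hxw⟩ := mem_iUnion₂.1 (hT (mem_univ x))
  have hyw : y ∈ PiNat.cylinder (z w) (n w) := fun k hk => by
    rw [← hxy k (hk.trans_le (Finset.le_sup hw))]
    exact hxw k hk
  have e1 := hs w hxw
  have e2 := hs w hyw
  rw [mem_preimage, Metric.mem_ball, Real.dist_eq, abs_lt] at e1 e2
  rw [abs_le]
  constructor <;> linarith [e1.1, e1.2, e2.1, e2.2]

end Pool.Agent.H10.PosIso
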