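import Mathlib

/-! Thompson's group F as PL order automorphisms of `[0,1]`, with two explicit elements. -/

namespace Pool.Agent.H10.ThF

open unitInterval Filter Topology

/-- Piecewise linear with finitely many dyadic breakpoints and slopes powers of two. -/
def IsPL (f : I ≃o I) : Prop :=
  ∃ B : Finset ℝ, (∀ b ∈ B, ∃ (m : ℤ) (k : ℕ), b = m / 2 ^ k) ∧
    ∀ x : I, (x : ℝ) ∉ B → ∃ (k : ℤ) (c : ℝ), ∀ᶠ y : I in 𝓝 x, (f y : ℝ) = 2 ^ k * y + c

/-- Thompson's group `F`. -/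
def F : Subgroup (I ≃o I) := Subgroup.closure {f | IsPL f}

noncomputable def φ (c d e x : ℝ) : ℝ := min x (max (x / 2 + c) (max (x - d) (2 * x - e)))
noncomputable def ψ (c d e y : ℝ) : ℝ := max y (min (2 * y - 2 * c) (min (y + d) ((y + e) / 2)))

theorem φ_mono (c d e : ℝ) : StrictMono (φ c d e) := fun x y h =>
  min_lt_min h (max_lt_max (by linarith) (max_lt_max (by linarith) (by linarith)))

theorem φψ (c d e y : ℝ) : φ c d e (ψ c d e y) = y := by
  simp only [φ, ψ, max_def, min_def]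
  split_ifs <;> linarith

noncomputable def el (c d e : ℝ) (hc : 0 ≤ c) (he : e ≤ 1) : I ≃o I :=
  StrictMono.orderIsoOfRightInverse
    (fun x => ⟨φ c d e x, le_min x.2.1 (le_max_of_le_left (by linarith [x.2.1])),
      (min_le_left _ _).trans x.2.2⟩)
    (fun _ _ h => φ_mono c d e h)
    (fun y => ⟨ψ c d e y, le_max_of_le_left y.2.1, max_le y.2.2
      ((min_le_right _ _).trans ((min_le_right _ _).trans (by linarith [y.2.2])))⟩)
    fun y => Subtype.ext (φψ c d e y)

theorem el_val (c d e : ℝ) (hc : 0 ≤ c) (he : e ≤ 1) (x : I) :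
    (el c d e hc he x : ℝ) = φ c d e x := rfl

theorem loc {x : I} {a b : ℝ} (h1 : a < x) (h2 : (x : ℝ) < b) :
    ∀ᶠ y : I in 𝓝 x, a < y ∧ (y : ℝ) < b :=
  continuous_subtype_val.continuousAt.eventually (Ioo_mem_nhds h1 h2)

theorem el_PL (c d e : ℝ) (hc : 0 ≤ c) (he : e ≤ 1) (hd : 0 ≤ d) (h : 2 * (c + d) ≤ e - d)
    (hB : ∀ b ∈ ({2 * c, 2 * (c + d), e - d, e} : Finset ℝ), ∃ (m : ℤ) (k : ℕ), b = m / 2 ^ k) :
    IsPL (el c d e hc he) := by
  refine ⟨_, hB, fun x hx => ?_⟩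
  simp only [Finset.mem_insert, Finset.mem_singleton, not_or] at hx
  obtain ⟨h1, h2, h3, h4⟩ := hx
  have key : ∀ (a b : ℝ) (k : ℤ) (r : ℝ), a < x → (x : ℝ) < b →
      (∀ y : ℝ, a < y → y < b → φ c d e y = 2 ^ k * y + r) →
      ∃ (k : ℤ) (r : ℝ), ∀ᶠ y : I in 𝓝 x, (el c d e hc he y : ℝ) = 2 ^ k * y + r :=
    fun a b k r ha hb hy => ⟨k, r, (loc ha hb).mono fun y h => hy y h.1 h.2⟩
  rcases lt_or_gt_of_ne h1 with h1 | h1
  · refine key (x - 1) _ 0 0 (by linarith) h1 fun y _ _ => ?_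
    simp only [φ, max_def, min_def, zpow_zero]
    split_ifs <;> linarith
  rcases lt_or_gt_of_ne h2 with h2 | h2
  · refine key _ _ (-1) c h1 h2 fun y _ _ => ?_
    simp only [φ, max_def, min_def, zpow_neg_one]
    split_ifs <;> linarith
  rcases lt_or_gt_of_ne h3 with h3 | h3
  · refine key _ _ 0 (-d) h2 h3 fun y _ _ => ?_
    simp only [φ, max_def, min_def, zpow_zero]
    split_ifs <;> linarith
  rcases lt_or_gt_of_ne h4 with h4 | h4
  · refine key _ _ 1 (-e) h3 h4 fun y _ _ => ?_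
    simp only [φ, max_def, min_def, zpow_one]
    split_ifs <;> linarith
  · refine key _ (x + 1) 0 0 h4 (by linarith) fun y _ _ => ?_
    simp only [φ, max_def, min_def, zpow_zero]
    split_ifs <;> linarith

noncomputable def t : F := ⟨el 0 (1 / 4) 1 le_rfl le_rfl, Subgroup.subset_closure
  (el_PL _ _ _ _ _ (by norm_num) (by norm_num) (by
    simp only [Finset.mem_insert, Finset.mem_singleton, forall_eq_or_imp, forall_eq]
    exact ⟨⟨0, 0, by norm_num⟩, ⟨1, 1, by norm_num⟩, ⟨3, 2, by norm_num⟩, ⟨1, 0, by norm_num⟩⟩))⟩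

noncomputable def b : F := ⟨el (1 / 8) (1 / 16) (1 / 2) (by norm_num) (by norm_num),
  Subgroup.subset_closure (el_PL _ _ _ _ _ (by norm_num) (by norm_num) (by
    simp only [Finset.mem_insert, Finset.mem_singleton, forall_eq_or_imp, forall_eq]
    exact ⟨⟨1, 2, by norm_num⟩, ⟨3, 3, by norm_num⟩, ⟨7, 4, by norm_num⟩, ⟨1, 1, by norm_num⟩⟩))⟩

noncomputable def a : I := ⟨1 / 4, by norm_num, by norm_num⟩

theorem t_val (x : I) : (t.1 x : ℝ) = φ 0 (1 / 4) 1 x := rfl
theorem b_val (x : I) : (b.1 x : ℝ) = φ (1 / 8) (1 / 16) (1 / 2) x := rfl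

theorem t_le (x : I) : t.1 x ≤ x := min_le_left (x : ℝ) _

theorem b_ne : b ≠ 1 := fun h => by
  have := b_val ⟨3 / 8, by norm_num, by norm_num⟩
  rw [h] at this
  have h2 : (3 / 8 : ℝ) = φ (1 / 8) (1 / 16) (1 / 2) (3 / 8) := this
  norm_num [φ] at h2

theorem b_fix (x : I) (h : b.1 x ≠ x) : a < x ∧ t.1 x < a := by
  by_contra hc
  refine h (Subtype.ext ?_)
  rw [not_and_or, not_lt, not_lt, ← Subtype.coe_le_coe, ← Subtype.coe_le_coe, t_val] at hc
  rw [b_val]
  simp only [φ, a, max_def, min_def] at hc ⊢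
  split_ifs at hc ⊢ <;> rcases hc with hc | hc <;> linarith

theorem t_pow (x δ : I) (hx : x < 1) (hδ : 0 < δ) : ∀ᶠ N : ℕ in atTop, (t ^ N).1 x < δ := by
  have hx' : (x : ℝ) < 1 := hx
  have hδ' : (0 : ℝ) < δ := hδ
  set η : ℝ := min (δ / 2) (min (1 / 4) (1 - x)) with hη
  have h0 : 0 < η := lt_min (by linarith) (lt_min (by norm_num) (by linarith))
  have h1 : ∀ N : ℕ, ((t ^ N).1 x : ℝ) < δ ∨ ((t ^ N).1 x : ℝ) ≤ x - N * η := by
    intro N
    induction N with
    | zero => exact Or.inr (by simp)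
    | succ N ih =>
      have e : ((t ^ (N + 1)).1 x : ℝ) = φ 0 (1 / 4) 1 ((t ^ N).1 x) := by
        rw [pow_succ']; rfl
      have := min_le_left (δ / 2 : ℝ) (min (1 / 4) (1 - x))
      have := (min_le_right (δ / 2 : ℝ) (min (1 / 4) (1 - x))).trans (min_le_left _ _)
      have := (min_le_right (δ / 2 : ℝ) (min (1 / 4) (1 - x))).trans (min_le_right _ _)
      have : 0 ≤ N * η := by positivity
      rw [e]
      generalize ((t ^ N).1 x : ℝ) = y at ih
      by_cases hy : y < δ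
      · exact Or.inl ((min_le_left _ _).trans_lt hy)
      · refine Or.inr ?_
        have := ih.resolve_left hy
        push_cast
        simp only [φ, max_def, min_def]
        split_ifs <;> linarith
  obtain ⟨M, hM⟩ := exists_nat_gt (1 / η)
  filter_upwards [eventually_ge_atTop M] with N hN
  refine (h1 N).elim id fun h => ?_
  have h2 : (M : ℝ) ≤ N := by exact_mod_cast hN
  rw [div_lt_iff₀ h0] at hM
  have := ((t ^ N).1 x).2.1
  nlinarith

end Pool.Agent.H10.ThF
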