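import Mathlib

set_option autoImplicit false
set_option linter.unusedSectionVars false

namespace Pool.Agent.H10.Tiling

open Set

abbrev G : Type := ℕ × ℝ
abbrev X : Type := G →₀ ℝ

lemma exists_equiv : Nonempty (ℝ ≃ X) := by
  rw [← Cardinal.eq, Cardinal.mk_finsupp_of_infinite]
  simp

noncomputable def y : ℝ ≃ X := exists_equiv.some
noncomputable def e (g : G) : X := Finsupp.single g 1
noncomputable def c (g : G) : X := y g.2 + e g

open Classical in
noncomputable def io : X →ₗ[ℝ] lp (fun _ : G => ℝ) 2 :=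
  Finsupp.linearCombination ℝ (fun g => lp.single 2 g (1 : ℝ))

lemma io_apply (v : X) (g : G) : io v g = v g := by
  classical
  induction v using Finsupp.induction_linear with
  | zero => simp
  | add f h hf hh => simp [hf, hh]
  | single a b =>
    simp only [io, Finsupp.linearCombination_single, lp.coeFn_smul, Pi.smul_apply, lp.single_apply,
      Finsupp.single_apply, Pi.single_apply, smul_eq_mul]
    by_cases h : a = g
    · simp [h]
    · simp [h, Ne.symm h]

lemma io_inj : Function.Injective io := fun u v h => by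
  ext g
  rw [← io_apply, ← io_apply, h]

noncomputable def H (v : X) : ℝ := ‖io v‖

lemma H_two (v : X) (a b : G) (h : a ≠ b) : v a ^ 2 + v b ^ 2 ≤ H v ^ 2 := by
  classical
  have := lp.sum_rpow_le_norm_rpow (p := 2) (by norm_num) (io v) {a, b}
  rw [Finset.sum_pair h] at this
  simpa [io_apply, H] using this

lemma H_nonneg (v : X) : 0 ≤ H v := norm_nonneg _

lemma H_coord (v : X) (a : G) : |v a| ≤ H v := by
  have := lp.norm_apply_le_norm (p := 2) (by norm_num) (io v) a
  rwa [io_apply] at this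

lemma H_coord_lt (v : X) (a b : G) (h : a ≠ b) (hb : v b ≠ 0) : |v a| < H v := by
  have h1 := H_two v a b h
  have h2 : 0 < v b ^ 2 := by positivity
  exact abs_lt_of_sq_lt_sq (by linarith) (H_nonneg v)

lemma H_e (g : G) : H (e g) = 1 := by
  classical
  simp [H, io, e]

def Semi (p : X → ℝ) : Prop :=
  (∀ u v, p (u + v) ≤ p u + p v) ∧ ∀ (a : ℝ) (v : X), p (a • v) = |a| * p v

lemma Semi.zero {p : X → ℝ} (h : Semi p) : p 0 = 0 := by simpa using h.2 0 0

lemma Semi.le_sum {p : X → ℝ} (h : Semi p) (h1 : ∀ g, p (e g) ≤ 1) (v : X) :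
    p v ≤ ∑ g ∈ v.support, |v g| := by
  have : ∀ s : Finset G, p (∑ g ∈ s, v g • e g) ≤ ∑ g ∈ s, |v g| := by
    intro s
    classical
    induction s using Finset.induction_on with
    | empty => simp [h.zero]
    | insert a s ha ih =>
      rw [Finset.sum_insert ha, Finset.sum_insert ha]
      refine (h.1 _ _).trans (add_le_add ?_ ih)
      rw [h.2]
      exact mul_le_of_le_one_right (abs_nonneg _) (h1 a)
  have e1 : ∑ g ∈ v.support, v g • e g = v := by
    simp only [e, Finsupp.smul_single, smul_eq_mul, mul_one]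
    exact v.sum_single
  have h2 := this v.support
  rwa [e1] at h2

lemma Semi_H : Semi H :=
  ⟨fun u v => by unfold H; rw [map_add]; exact norm_add_le _ _,
   fun a v => by unfold H; rw [map_smul, norm_smul, Real.norm_eq_abs]⟩

noncomputable def th (k : ℕ) : ℝ := 1 / ((k : ℝ) + 1)
noncomputable def et (k : ℕ) : ℝ := th k ^ 2 / 3

lemma th_pos (k : ℕ) : 0 < th k := by unfold th; positivity
lemma th_le (k : ℕ) : th k ≤ 1 := by
  unfold th
  rw [div_le_one (by positivity)]
  have : (0 : ℝ) ≤ k := Nat.cast_nonneg k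
  linarith
lemma et_pos (k : ℕ) : 0 < et k := by unfold et; have := th_pos k; positivity
lemma et_le (k : ℕ) : et k ≤ th k := by
  unfold et
  nlinarith [th_pos k, th_le k]

noncomputable def kk (N : X → ℝ) (g g' : G) : ℕ := ⌈1 / (N (y g.2 - c g') - 1)⌉₊

open Classical in
noncomputable def tt (N : X → ℝ) (g g' : G) : ℝ := if y g.2 g' = 0 then th (kk N g g') else 1

lemma tt_pos (N : X → ℝ) (g g' : G) : 0 < tt N g g' := by
  unfold tt; split_ifs
  · exact th_pos _
  · exact one_pos
lemma tt_le (N : X → ℝ) (g g' : G) : tt N g g' ≤ 1 := by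
  unfold tt; split_ifs
  · exact th_le _
  · exact le_rfl

noncomputable def q (N : X → ℝ) (g g' : G) (v : X) : ℝ :=
  (1 - et (kk N g g')) * ((1 - tt N g g') * |v g'| + tt N g g' * N (v - v g • e g) + |v g|)

noncomputable def M (N : X → ℝ) (g g' : G) (v : X) : ℝ := q N g g' v + et (kk N g g') * H v

lemma Semi_q {N : X → ℝ} (h : Semi N) (g g' : G) : Semi (q N g g') := by
  have h1 : 0 ≤ 1 - et (kk N g g') := by linarith [et_le (kk N g g'), th_le (kk N g g')]
  have h2 : 0 ≤ 1 - tt N g g' := by linarith [tt_le N g g']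
  have h3 := (tt_pos N g g').le
  constructor
  · intro u v
    unfold q
    rw [← mul_add]
    refine mul_le_mul_of_nonneg_left ?_ h1
    have e1 : u + v - (u + v) g • e g = (u - u g • e g) + (v - v g • e g) := by
      rw [Finsupp.add_apply, add_smul]; abel
    have a1 := mul_le_mul_of_nonneg_left (abs_add_le (u g') (v g')) h2
    have a2 := mul_le_mul_of_nonneg_left (h.1 (u - u g • e g) (v - v g • e g)) h3
    have a3 := abs_add_le (u g) (v g)
    rw [e1, Finsupp.add_apply, Finsupp.add_apply]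
    linarith
  · intro a v
    unfold q
    have e1 : a • v - (a • v) g • e g = a • (v - v g • e g) := by
      rw [Finsupp.smul_apply, smul_sub, smul_eq_mul, mul_smul]
    rw [e1, h.2, Finsupp.smul_apply, Finsupp.smul_apply, smul_eq_mul, smul_eq_mul, abs_mul, abs_mul]
    ring

lemma Semi_M {N : X → ℝ} (h : Semi N) (g g' : G) : Semi (M N g g') := by
  constructor
  · intro u v
    have a1 := (Semi_q h g g').1 u v
    have a2 := mul_le_mul_of_nonneg_left (Semi_H.1 u v) (et_pos (kk N g g')).le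
    unfold M; linarith
  · intro a v
    unfold M
    rw [(Semi_q h g g').2, Semi_H.2]; ring

structure Inv (N : X → ℝ) : Prop where
  semi : Semi N
  ge : ∀ v, H v ≤ N v
  one : ∀ g, N (e g) ≤ 1
  key : ∀ w, ∃ (p : X → ℝ) (η : ℝ), (∀ u v, p (u + v) ≤ p u + p v) ∧ 0 < η ∧ N w = p w + η * H w ∧
    ∀ z, p z + η * H z ≤ N z

lemma M_le_of_zero {N : X → ℝ} (h : Inv N) (g g' : G) (v : X) (hv : v g = 0) : M N g g' v ≤ N v := by
  have h1 : 0 ≤ 1 - et (kk N g g') := by linarith [et_le (kk N g g'), th_le (kk N g g')]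
  have h2 : 0 ≤ 1 - tt N g g' := by linarith [tt_le N g g']
  have a1 := mul_le_mul_of_nonneg_left ((H_coord v g').trans (h.ge v)) h2
  have a2 := mul_le_mul_of_nonneg_left (h.ge v) (et_pos (kk N g g')).le
  have a3 : (1 - tt N g g') * |v g'| + tt N g g' * N v + 0 ≤ N v := by linarith
  have a4 := mul_le_mul_of_nonneg_left a3 h1
  unfold M q
  rw [hv, zero_smul, sub_zero, abs_zero]
  linarith

lemma M_e {N : X → ℝ} (h : Inv N) (g g' : G) (hg : g ≠ g') (d : G) : M N g g' (e d) ≤ 1 := by
  by_cases hd : d = g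
  · subst hd
    unfold M q
    have e1 : e d d = 1 := by simp [e]
    have e2 : e d g' = 0 := by simp [e, hg.symm]
    rw [e1, e2, one_smul, sub_self, h.semi.zero, H_e]
    simp
  · exact (M_le_of_zero h g g' _ (by simp [e, Ne.symm hd])).trans (h.one d)

lemma M_big {N : X → ℝ} (g g' : G) (h0 : (y g.2 - c g') g = 0) (h1 : y g'.2 g' = 0) (hg : g ≠ g')
    (hgap : 1 < N (y g.2 - c g')) : 2 ≤ M N g g' (c g - c g') := by
  set w := y g.2 - c g' with hw
  have e0 : c g - c g' = w + e g := by rw [hw]; unfold c; abel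
  have e1 : (w + e g) g = 1 := by rw [Finsupp.add_apply, h0]; simp [e]
  have e2 : (w + e g) g' = y g.2 g' - 1 := by
    simp [hw, c, e, h1, hg.symm]
  have hth : th (kk N g g') ≤ N w - 1 := by
    have hp : 0 < N w - 1 := by linarith
    have := Nat.le_ceil (1 / (N w - 1))
    unfold th kk
    rw [← hw, div_le_iff₀ (by positivity)]
    rw [div_le_iff₀ hp] at this
    nlinarith
  have t0 := th_pos (kk N g g')
  have t1 := th_le (kk N g g')
  have a1 : 2 + th (kk N g g') ^ 2
      ≤ (1 - tt N g g') * |y g.2 g' - 1| + tt N g g' * N w + 1 := by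
    unfold tt
    split_ifs with h
    · rw [h]; norm_num; nlinarith
    · nlinarith
  have h2 : 0 ≤ 1 - et (kk N g g') := by linarith [et_le (kk N g g')]
  have a2 := mul_le_mul_of_nonneg_left a1 h2
  have a3 := mul_nonneg (et_pos (kk N g g')).le (H_nonneg (w + e g))
  have a4 : th (kk N g g') ^ 2 ≤ 1 := pow_le_one₀ t0.le t1
  have a5 : 2 ≤ (1 - et (kk N g g')) * (2 + th (kk N g g') ^ 2) := by
    unfold et
    nlinarith [sq_nonneg (th (kk N g g'))]
  unfold M q
  rw [e0, e1, e2, one_smul, add_sub_cancel_right, abs_one]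
  linarith

lemma exists_max {ι : Type} (f : ι → ℝ) (i0 : ι) (h : {x | x ∈ range f ∧ f i0 < x}.Finite) :
    ∃ i, ∀ j, f j ≤ f i := by
  rcases Set.eq_empty_or_nonempty {x | x ∈ range f ∧ f i0 < x} with h0 | h0
  · refine ⟨i0, fun j => not_lt.mp fun hj => ?_⟩
    exact (h0 ▸ (⟨⟨j, rfl⟩, hj⟩ : f j ∈ {x | x ∈ range f ∧ f i0 < x}) : f j ∈ (∅ : Set ℝ))
  · obtain ⟨_, ⟨⟨i, rfl⟩, hi⟩, hmax⟩ := Set.exists_max_image _ id h h0
    refine ⟨i, fun j => ?_⟩
    by_cases hj : f i0 < f j
    · exact hmax _ ⟨⟨j, rfl⟩, hj⟩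
    · exact (not_lt.mp hj).trans hi.le

open Classical in
noncomputable def Fam (N : X → ℝ) (C : G × G → Prop) (p : G × G) : X → ℝ :=
  if C p then M N p.1 p.2 else N

noncomputable def ext (N : X → ℝ) (C : G × G → Prop) (v : X) : ℝ := ⨆ p, Fam N C p v

section step
variable {N : X → ℝ} {C : G × G → Prop} (h : Inv N) (hC : ∀ p, C p → p.1 ≠ p.2)
include h hC

lemma Fam_semi (p : G × G) : Semi (Fam N C p) := by
  unfold Fam; split_ifs
  · exact Semi_M h.semi _ _
  · exact h.semi

lemma Fam_one (p : G × G) (d : G) : Fam N C p (e d) ≤ 1 := by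
  unfold Fam; split_ifs with hp
  · exact M_e h _ _ (hC p hp) d
  · exact h.one d

lemma Fam_le (p : G × G) (v : X) : Fam N C p v ≤ ext N C v :=
  le_ciSup (f := fun p => Fam N C p v) ⟨∑ g ∈ v.support, |v g|, by
    rintro _ ⟨p, rfl⟩
    exact (Fam_semi h hC p).le_sum (Fam_one h hC p) v⟩ p

lemma Fam_diag : Fam N C ((0, 0), (0, 0)) = N := if_neg fun hp => hC _ hp rfl

lemma le_ext (v : X) : N v ≤ ext N C v := by
  have := Fam_le h hC ((0, 0), (0, 0)) v
  rwa [Fam_diag h hC] at this

lemma M_le_ext (p : G × G) (hp : C p) (v : X) : M N p.1 p.2 v ≤ ext N C v := by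
  have := Fam_le h hC p v
  rwa [Fam, if_pos hp] at this

lemma ext_eq (v : X) (hv : ∀ p, C p → v p.1 = 0) : ext N C v = N v := by
  refine le_antisymm (ciSup_le fun p => ?_) (le_ext h hC v)
  unfold Fam; split_ifs with hp
  · exact M_le_of_zero h _ _ _ (hv p hp)
  · exact le_rfl

lemma ext_attained (w : X) : ∃ p, ext N C w = Fam N C p w := by
  have hfin : ∀ g : G, {k : ℕ | N w < (1 - et k) * (th k * N (w - w g • e g) + |w g|)
      + et k * H w}.Finite := by
    intro g
    by_cases h0 : w - w g • e g = 0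
    · refine Set.finite_empty.subset fun k hk => ?_
      simp only [mem_ofPred_eq, h0, h.semi.zero] at hk
      have a1 := (H_coord w g).trans (h.ge w)
      have h1 : 0 ≤ 1 - et k := by linarith [et_le k, th_le k]
      have a2 := mul_le_mul_of_nonneg_left a1 h1
      have a3 := mul_le_mul_of_nonneg_left (h.ge w) (et_pos k).le
      exact absurd hk (by linarith)
    · obtain ⟨b, hb⟩ := Finsupp.ne_iff.mp h0
      have hbg : g ≠ b := by
        rintro rfl
        simp [e] at hb
      have hwb : w b ≠ 0 := by simpa [e, hbg.symm] using hb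
      have hd : 0 < N w - |w g| := by linarith [H_coord_lt w g b hbg hwb, h.ge w]
      have hN : 0 ≤ N (w - w g • e g) := (H_nonneg _).trans (h.ge _)
      obtain ⟨K, hK⟩ := exists_nat_gt ((N (w - w g • e g) + H w) / (N w - |w g|))
      refine (Set.finite_lt_nat K).subset fun k hk => ?_
      simp only [mem_ofPred_eq] at hk ⊢
      have a1 := mul_le_mul_of_nonneg_right (et_le k) (H_nonneg w)
      have a2 : 0 ≤ et k * (th k * N (w - w g • e g) + |w g|) :=
        mul_nonneg (et_pos k).le (add_nonneg (mul_nonneg (th_pos k).le hN) (abs_nonneg _))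
      have a3 : N w - |w g| < th k * (N (w - w g • e g) + H w) := by linarith
      rw [div_lt_iff₀ hd] at hK
      unfold th at a3
      rw [one_div, inv_mul_eq_div, lt_div_iff₀ (by positivity)] at a3
      have a4 : (k : ℝ) + 1 < K := by
        by_contra hc
        push Not at hc
        nlinarith
      have : (k : ℝ) < K := by linarith
      exact_mod_cast this
  obtain ⟨p, hp⟩ := exists_max (fun p => Fam N C p w) ((0, 0), (0, 0)) (by
    classical
    rw [Fam_diag h hC]
    refine (w.support.finite_toSet.biUnion fun g _ =>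
      (((((y g.2).support ∪ w.support).finite_toSet).image (fun g' => M N g g' w)).union
        ((hfin g).image (fun k => (1 - et k) * (th k * N (w - w g • e g) + |w g|)
          + et k * H w)))).subset ?_
    rintro _ ⟨⟨⟨g, g'⟩, rfl⟩, hlt⟩
    simp only [Fam] at hlt ⊢
    split_ifs at hlt ⊢ with hp
    · have hg : w g ≠ 0 := fun h0 => absurd (M_le_of_zero h g g' w h0) (not_le.mpr hlt)
      refine mem_biUnion (Finset.mem_coe.mpr (Finsupp.mem_support_iff.mpr hg)) ?_
      by_cases hg' : g' ∈ (y g.2).support ∪ w.support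
      · exact Or.inl ⟨g', hg', rfl⟩
      · simp only [Finset.mem_union, Finsupp.mem_support_iff, not_or, not_not] at hg'
        have e1 : M N g g' w = (1 - et (kk N g g')) * (th (kk N g g') * N (w - w g • e g) + |w g|)
            + et (kk N g g') * H w := by
          unfold M q tt
          rw [if_pos hg'.1, hg'.2]; simp
        exact Or.inr ⟨kk N g g', by rw [e1] at hlt; exact hlt, e1.symm⟩
    · exact absurd hlt (lt_irrefl _))
  exact ⟨p, le_antisymm (ciSup_le hp) (Fam_le h hC p w)⟩

lemma ext_inv : Inv (ext N C) := by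
  refine ⟨⟨fun u v => ciSup_le fun p => ?_, fun a v => ?_⟩, fun v => (h.ge v).trans (le_ext h hC v),
    fun g => ciSup_le fun p => Fam_one h hC p g, fun w => ?_⟩
  · exact ((Fam_semi h hC p).1 u v).trans (add_le_add (Fam_le h hC p u) (Fam_le h hC p v))
  · unfold ext
    rw [Real.mul_iSup_of_nonneg (abs_nonneg a)]
    exact iSup_congr fun p => (Fam_semi h hC p).2 a v
  · obtain ⟨p, hp⟩ := ext_attained h hC w
    by_cases hc : C p
    · rw [Fam, if_pos hc] at hp
      exact ⟨q N p.1 p.2, et (kk N p.1 p.2), (Semi_q h.semi _ _).1, et_pos _, hp,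
        fun z => M_le_ext h hC p hc z⟩
    · rw [Fam, if_neg hc] at hp
      obtain ⟨r, η, h1, h2, h3, h4⟩ := h.key w
      exact ⟨r, η, h1, h2, hp.trans h3, fun z => (h4 z).trans (le_ext h hC z)⟩

end step

def Low (n : ℕ) (v : X) : Prop := ∀ g : G, n ≤ g.1 → v g = 0

def act (N : X → ℝ) (A : Set G) (n : ℕ) : Set G :=
  {g | g.1 = n ∧ Low n (y g.2) ∧ ∀ g' ∈ A, 1 < N (y g.2 - c g')}

def cond (N : X → ℝ) (A : Set G) (n : ℕ) (p : G × G) : Prop :=
  p.1 ∈ act N A n ∧ p.2 ∈ A ∪ act N A n ∧ p.1 ≠ p.2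

noncomputable def St : ℕ → (X → ℝ) × Set G
  | 0 => (H, ∅)
  | n + 1 => (ext (St n).1 (cond (St n).1 (St n).2 n), (St n).2 ∪ act (St n).1 (St n).2 n)

lemma St_inv (n : ℕ) : Inv (St n).1 := by
  induction n with
  | zero => exact ⟨Semi_H, fun _ => le_rfl, fun g => (H_e g).le,
      fun w => ⟨fun _ => 0, 1, by simp, one_pos, by simp [St], by simp [St]⟩⟩
  | succ n ih => exact ext_inv ih fun p hp => hp.2.2

lemma St_mono (v : X) : Monotone fun n => (St n).1 v :=
  monotone_nat_of_le_succ fun n => le_ext (St_inv n) (fun p hp => hp.2.2) v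

lemma St_stab (v : X) (m : ℕ) (hv : Low m v) (n : ℕ) (hn : m ≤ n) : (St n).1 v = (St m).1 v := by
  induction n, hn using Nat.le_induction with
  | base => rfl
  | succ n hn ih =>
    rw [← ih]
    exact ext_eq (St_inv n) (fun p hp => hp.2.2) v fun p hp => hv _ (by rw [hp.1.1]; exact hn)

lemma A_mem (n : ℕ) (g : G) : g ∈ (St n).2 ↔ g.1 < n ∧ g ∈ act (St g.1).1 (St g.1).2 g.1 := by
  induction n with
  | zero => simp [St]
  | succ n ih =>
    change g ∈ (St n).2 ∪ act (St n).1 (St n).2 n ↔ _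
    rw [mem_union, ih]
    constructor
    · rintro (⟨h1, h2⟩ | h)
      · exact ⟨by omega, h2⟩
      · have := h.1
        exact ⟨by omega, by rw [this]; exact h⟩
    · rintro ⟨h1, h2⟩
      rcases Nat.lt_succ_iff_lt_or_eq.mp h1 with h | h
      · exact Or.inl ⟨h, h2⟩
      · right; rw [h] at h2; exact h2

lemma exists_low (v : X) : ∃ m, Low m v := by
  refine ⟨v.support.sup (fun g => g.1) + 1, fun g hg => ?_⟩
  by_contra h
  have := Finset.le_sup (f := fun g : G => g.1) (Finsupp.mem_support_iff.mpr h)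
  omega

noncomputable def NN (v : X) : ℝ := (St (exists_low v).choose).1 v

lemma NN_eq (v : X) (m : ℕ) (hv : Low m v) : NN v = (St m).1 v := by
  unfold NN
  rw [← St_stab v m hv (max m (exists_low v).choose) (le_max_left _ _),
    St_stab v _ (exists_low v).choose_spec _ (le_max_right _ _)]

lemma Low.mono {m n : ℕ} {v : X} (h : Low m v) (hmn : m ≤ n) : Low n v :=
  fun g hg => h g (hmn.trans hg)

lemma le_NN (v : X) (n : ℕ) : (St n).1 v ≤ NN v := by
  obtain ⟨m, hm⟩ := exists_low v
  rw [NN_eq v (max m n) (hm.mono (le_max_left _ _))]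
  exact St_mono v (le_max_right _ _)

lemma NN_inv : Inv NN := by
  refine ⟨⟨fun u v => ?_, fun a v => ?_⟩, fun v => le_NN v 0, fun g => (St_inv _).one g,
    fun w => ?_⟩
  · exact ((St_inv _).semi.1 u v).trans (add_le_add (le_NN u _) (le_NN v _))
  · obtain ⟨m, hm⟩ := exists_low v
    rw [NN_eq v m hm, NN_eq (a • v) m (fun g hg => by simp [hm g hg]), (St_inv m).semi.2]
  · obtain ⟨r, η, h1, h2, h3, h4⟩ := (St_inv (exists_low w).choose).key w
    exact ⟨r, η, h1, h2, h3, fun z => (h4 z).trans (le_NN z _)⟩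

/-- the set of active indices -/
def Act : Set G := {g | g ∈ act (St g.1).1 (St g.1).2 g.1}

lemma low_c {g : G} (hg : g ∈ Act) : Low (g.1 + 1) (c g) := by
  intro d hd
  have h1 : d ≠ g := by rintro rfl; omega
  have h2 := hg.2.1 d (by omega)
  simp [c, e, h1, h2]

lemma cover (v : X) : ∃ g ∈ Act, NN (v - c g) ≤ 1 := by
  obtain ⟨n, hn⟩ := exists_low v
  obtain ⟨t, rfl⟩ := y.surjective v
  by_cases h : ∀ g' ∈ (St n).2, 1 < (St n).1 (y t - c g')
  · refine ⟨(n, t), ⟨rfl, hn, h⟩, ?_⟩
    have : y t - c (n, t) = (-1 : ℝ) • e (n, t) := by simp [c]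
    rw [this, NN_inv.semi.2]
    simpa using NN_inv.one _
  · push Not at h
    obtain ⟨g, hg, hle⟩ := h
    rw [A_mem] at hg
    refine ⟨g, hg.2, ?_⟩
    rw [NN_eq _ n]
    · exact hle
    · intro d hd
      rw [Finsupp.sub_apply, hn d hd, low_c hg.2 d (by omega), sub_zero]

lemma sep_le {g g' : G} (hg : g ∈ Act) (hg' : g' ∈ Act) (hne : g ≠ g') (hle : g'.1 ≤ g.1) :
    2 ≤ NN (c g - c g') := by
  have hA : g' ∈ (St g.1).2 ∪ act (St g.1).1 (St g.1).2 g.1 := by
    have : g' ∈ (St (g.1 + 1)).2 := (A_mem _ _).mpr ⟨by omega, hg'⟩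
    exact this
  have h1 := M_le_ext (C := cond (St g.1).1 (St g.1).2 g.1) (St_inv g.1) (fun p hp => hp.2.2)
    (g, g') ⟨hg, hA, hne⟩ (c g - c g')
  refine le_trans (M_big g g' ?_ (hg'.2.1 _ le_rfl) hne ?_) (h1.trans (le_NN _ (g.1 + 1)))
  · simp [c, e, hne, hg.2.1 g le_rfl, hg'.2.1 g hle]
  · rcases hA with hA | hA
    · exact hg.2.2 g' hA
    · have e1 : g'.1 = g.1 := hA.1
      have h2 : y g.2 ≠ y g'.2 := fun h => hne (Prod.ext e1.symm (y.injective h))
      obtain ⟨b, hb⟩ := Finsupp.ne_iff.mp h2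
      have hb1 : g' ≠ b := by
        rintro rfl
        exact hb (by rw [hg.2.1 g' e1.ge, hg'.2.1 g' le_rfl])
      have h3 := H_coord_lt (y g.2 - c g') g' b hb1 (by simpa [c, e, hb1.symm, sub_eq_zero] using hb)
      have h4 : (y g.2 - c g') g' = -1 := by
        simp [c, e, hg.2.1 g' e1.ge, hg'.2.1 g' le_rfl]
      rw [h4] at h3
      simpa using h3.trans_le ((St_inv g.1).ge _)

lemma sep {g g' : G} (hg : g ∈ Act) (hg' : g' ∈ Act) (hne : g ≠ g') : 2 ≤ NN (c g - c g') := by
  rcases le_total g'.1 g.1 with h | h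
  · exact sep_le hg hg' hne h
  · have := sep_le hg' hg hne.symm h
    rwa [← neg_sub, ← neg_one_smul ℝ, NN_inv.semi.2, abs_neg, abs_one, one_mul] at this

/-- the normed space -/
def E : Type := X

noncomputable instance : AddCommGroup E := inferInstanceAs (AddCommGroup X)
noncomputable instance : Module ℝ E := inferInstanceAs (Module ℝ X)

noncomputable def toX : E ≃ₗ[ℝ] X := LinearEquiv.refl ℝ X

noncomputable def nE : AddGroupNorm E where
  toFun z := NN (toX z)
  map_zero' := NN_inv.semi.zero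
  add_le' x y := NN_inv.semi.1 _ _
  neg' x := by
    have := NN_inv.semi.2 (-1) (toX x)
    simpa using this
  eq_zero_of_map_eq_zero' x hx := by
    have h1 : H (toX x) ≤ 0 := (NN_inv.ge _).trans (le_of_eq hx)
    exact toX.map_eq_zero_iff.mp (io_inj ((norm_le_zero_iff.mp h1).trans (map_zero io).symm))

noncomputable instance : NormedAddCommGroup E := nE.toNormedAddCommGroup

lemma norm_E (z : E) : ‖z‖ = NN (toX z) := rfl

noncomputable instance : NormedSpace ℝ E where
  norm_smul_le c z := by rw [norm_E, norm_E, map_smul, NN_inv.semi.2, Real.norm_eq_abs]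

lemma strict : StrictConvexSpace ℝ E := by
  refine StrictConvexSpace.of_norm_add fun u v hu hv huv => ?_
  rw [norm_E] at hu hv huv
  rw [map_add] at huv
  obtain ⟨r, η, h1, h2, h3, h4⟩ := NN_inv.key (toX u + toX v)
  have a1 := h1 (toX u) (toX v)
  have a2 := h4 (toX u)
  have a3 := h4 (toX v)
  have a4 : η * (H (toX u) + H (toX v)) ≤ η * H (toX u + toX v) := by linarith
  have a5 := le_of_mul_le_mul_left a4 h2
  have a6 : SameRay ℝ (io (toX u)) (io (toX v)) := by
    rw [sameRay_iff_norm_add, ← map_add]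
    exact le_antisymm (Semi_H.1 _ _) a5
  exact (SameRay.sameRay_map_iff toX).mp ((io_inj.sameRay_map_iff (f := io)).mp a6)

lemma not_fd : ¬ FiniteDimensional ℝ E := by
  intro h
  have h1 : FiniteDimensional ℝ X := h
  exact Module.Finite.not_linearIndependent_of_infinite _
    (Finsupp.basisSingleOne (R := ℝ) (ι := G)).linearIndependent

end Pool.Agent.H10.Tiling
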