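import Pool.Agent.H10.UryDefs

namespace Pool.Agent.H10.Ury
open Set

theorem seq_choice {α : Type} [Nonempty α] (P : ℕ → (ℕ → α) → Prop)
    (loc : ∀ n f g, (∀ i ≤ n, f i = g i) → P n f → P n g)
    (H : ∀ n f, (∀ m < n, P m f) → ∃ a, P n (Function.update f n a)) : ∃ f, ∀ n, P n f := by
  choose! s hs using H
  let J : ℕ → ℕ → α := fun n => Nat.rec (fun _ => Classical.arbitrary α)
    (fun n f => Function.update f n (s n f)) n
  have J1 : ∀ n i, i < n → J (n + 1) i = J n i := fun n i h => Function.update_of_ne h.ne _ _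
  have a : ∀ n, ∀ m < n, P m (J n) := fun n => by
    induction n with
    | zero => simp
    | succ n ih =>
      intro m hm
      rcases Nat.lt_succ_iff_lt_or_eq.1 hm with h | rfl
      · exact loc m _ _ (fun i hi => (J1 n i (by omega)).symm) (ih m h)
      · exact hs m _ ih
  refine ⟨fun i => J (i + 1) i, fun n => loc n _ _ (fun i hi => ?_) (a (n + 1) n (by omega))⟩
  induction n, hi using Nat.le_induction with
  | base => rfl
  | succ n h ih => exact (J1 _ _ (by omega)).trans ih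

structure Cap (S : Set ℝ) (c : ℝ → ℝ) : Prop where
  rat : S ⊆ ratDist
  le : ∀ t, c t ≤ t
  mem : ∀ t ∈ ratDist, c t ∈ S
  ge : ∀ s ∈ S, ∀ t, s ≤ t → s ≤ c t
  lip : ∀ a b e, 0 ≤ e → a ≤ b + e → c a ≤ c b + e
  sub : ∀ a b, 0 ≤ a → 0 ≤ b → c (a + b) ≤ c a + c b

theorem cap_id : Cap ratDist id :=
  ⟨subset_rfl, fun _ => le_rfl, fun _ h => h, fun _ _ _ h => h, fun _ _ _ _ h => h,
    fun _ _ _ _ => le_rfl⟩

theorem cap_one : Cap ratDist1 (min 1) := by
  refine ⟨fun t ⟨q, a, _, b⟩ => ⟨q, a, b⟩, min_le_right 1, ?_, ?_, ?_, ?_⟩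
  · rintro _ ⟨q, a, rfl⟩
    exact ⟨min 1 q, le_min zero_le_one a, min_le_left _ _, by simp⟩
  · rintro _ ⟨q, _, b, rfl⟩ t h
    exact le_min (by exact_mod_cast b) h
  · intro a b e he h
    simp only [min_def]; split_ifs <;> linarith
  · intro a b ha hb
    simp only [min_def]; split_ifs <;> linarith

theorem rat_add {a b : ℝ} : a ∈ ratDist → b ∈ ratDist → a + b ∈ ratDist := by
  rintro ⟨q, h, rfl⟩ ⟨r, k, rfl⟩
  exact ⟨q + r, add_nonneg h k, by simp⟩

theorem rat_nn {a : ℝ} : a ∈ ratDist → 0 ≤ a := by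
  rintro ⟨q, h, rfl⟩
  exact_mod_cast h

variable {S : Set ℝ} {c : ℝ → ℝ} {U : Type} [MetricSpace U]

theorem katetov (h : Urysohn S U) (W : Finset U) (hW : W.Nonempty) (g : U → ℝ) (g1 : ∀ w, g w ∈ S)
    (g2 : ∀ v w, g v ≤ g w + dist v w) (g3 : ∀ v w, dist v w ≤ g v + g w) :
    ∃ z, ∀ w ∈ W, dist z w = g w := by
  classical
  by_cases e : ∃ v, g v = 0
  · obtain ⟨v, e⟩ := e
    refine ⟨v, fun w _ => le_antisymm ?_ ?_⟩
    · simpa [e] using g3 v w
    · simpa [e, dist_comm] using g2 w v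
  push Not at e
  obtain ⟨o, -⟩ := hW
  let d : Option W → Option W → ℝ := fun a b => match a, b with
    | none, none => 0
    | none, some w => g w
    | some w, none => g w
    | some v, some w => dist (v : U) w
  have nn : ∀ w, 0 ≤ g w := fun w => by have := g3 w w; simp at this; linarith
  letI : MetricSpace (Option W) :=
    { dist := d
      dist_self := by rintro (_ | a) <;> simp [d]
      dist_comm := by rintro (_ | a) (_ | b) <;> simp [d, dist_comm]
      dist_triangle := by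
        rintro (_ | a) (_ | b) (_ | k) <;> simp only [d]
        · simp
        · simp
        · linarith [nn b]
        · linarith [g2 k b, dist_comm (k : U) b]
        · simp
        · exact g3 _ _
        · linarith [g2 a b]
        · exact dist_triangle _ _ _
      eq_of_dist_eq_zero := by
        rintro (_ | a) (_ | b) k
        · rfl
        · exact (e _ k).elim
        · exact (e _ k).elim
        · exact congrArg some (Subtype.ext (eq_of_dist_eq_zero k)) }
  obtain ⟨f, hf⟩ := h.univ (Option W) (by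
    rintro (_ | a) (_ | b)
    exacts [by simpa using h.val o o, g1 _, g1 _, h.val _ _])
  have hd := hf.dist_eq
  choose r r1 r2 using fun x : (Finset.univ.image fun w : W => f (some w)) => Finset.mem_image.1 x.2
  obtain ⟨G, hG⟩ := h.homog _ (fun x => (r x : U)) (Isometry.of_dist_eq fun x y => by
    rw [Subtype.dist_eq x y, ← r2, ← r2, hd]; rfl)
  refine ⟨G (f none), fun w hw => ?_⟩
  have := hG ⟨f (some ⟨w, hw⟩), Finset.mem_image_of_mem _ (Finset.mem_univ _)⟩
  rw [show r _ = ⟨w, hw⟩ from Option.some_injective _ (hf.injective (r2 _))] at this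
  rw [← show G (f (some ⟨w, hw⟩)) = w from this, G.dist_eq, hd, this]
  rfl

theorem amalg (h : Urysohn S U) (k : Cap S c) {ι : Type} (I : Finset ι) (hI : I.Nonempty)
    (p : ι → U) (r : ι → ℝ) (hr : ∀ i, r i ∈ ratDist)
    (t : ∀ i ∈ I, ∀ j ∈ I, dist (p i) (p j) ≤ r i + r j) (W : Finset U) :
    ∃ z, (∀ i ∈ I, dist z (p i) ≤ r i) ∧ ∀ w ∈ W, ∃ i ∈ I, dist z w = c (r i + dist (p i) w) := by
  classical
  choose m m1 m2 using fun w => I.exists_min_image (fun i => r i + dist (p i) w) hI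
  have q : ∀ w, r (m w) + dist (p (m w)) w ∈ ratDist := fun w => rat_add (hr _) (k.rat (h.val _ _))
  obtain ⟨z, hz⟩ := katetov h (W ∪ I.image p) (hI.image p).inr (fun w => c (r (m w) + dist (p (m w)) w))
    (fun w => k.mem _ (q w))
    (fun v w => k.lip _ _ _ dist_nonneg (by
      linarith [m2 v _ (m1 w), dist_triangle (p (m w)) w v, dist_comm v w]))
    fun v w => (k.ge _ (h.val v w) _ (by
      linarith [t _ (m1 v) _ (m1 w), dist_triangle4 v (p (m v)) (p (m w)) w,
        dist_comm v (p (m v))])).trans (k.sub _ _ (rat_nn (q v)) (rat_nn (q w)))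
  refine ⟨z, fun i hi => ?_, fun w hw => ⟨_, m1 w, hz w (by simp [hw])⟩⟩
  rw [hz _ (Finset.mem_union_right _ (Finset.mem_image_of_mem _ hi))]
  exact (k.le _).trans (by simpa using m2 (p i) i hi)

theorem factor_nat (h : Urysohn S U) (k : Cap S c) [Nonempty U] (δ : ℕ → ℕ → ℝ)
    (d0 : ∀ m n, δ m n ∈ ratDist) (d1 : ∀ m n, δ m n = δ n m) (d2 : ∀ l m n, δ m n ≤ δ l m + δ l n) :
    ∃ j : ℕ → U, (∀ m n, dist (j m) (j n) ≤ δ m n) ∧ ∀ φ : ℕ → U,
      (∀ m n, dist (φ m) (φ n) ≤ δ m n) →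
      ∃ ψ : U → U, (∀ x y, dist (ψ x) (ψ y) ≤ dist x y) ∧ ∀ n, ψ (j n) = φ n := by
  classical
  haveI := h.count
  obtain ⟨u, hu⟩ := exists_surjective_nat U
  have sym : ∀ (f : ℕ → U) (e : ℕ → ℕ → ℝ), (∀ m n, e m n = e n m) → (∀ m n, 0 ≤ e m n) → ∀ N,
      (∀ m < N, ∀ i < m, dist (f m) (f i) ≤ e m i) → ∀ m < N, ∀ i < N, dist (f m) (f i) ≤ e m i :=
    fun f e e1 e2 N H m hm i hi => by
      rcases lt_trichotomy i m with q | rfl | q
      · exact H m hm i q
      · simpa using e2 i i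
      · rw [dist_comm, e1]; exact H i hi m q
  obtain ⟨j, hj⟩ := seq_choice (fun n (j : ℕ → U) => (∀ i < n, dist (j n) (j i) ≤ δ n i) ∧
      ∀ i < n, (∃ l < n, dist (j n) (u i) = c (δ n l + dist (j l) (u i))) ∧
        ∃ l < n, dist (j n) (j i) = c (δ n l + dist (j l) (j i)))
    (fun n f g e ⟨a, b⟩ => ⟨fun i hi => e n le_rfl ▸ e i hi.le ▸ a i hi, fun i hi => by
      obtain ⟨⟨l, l1, l2⟩, l', l3, l4⟩ := b i hi
      exact ⟨⟨l, l1, e n le_rfl ▸ e l l1.le ▸ l2⟩, l', l3,
        e n le_rfl ▸ e l' l3.le ▸ e i hi.le ▸ l4⟩⟩)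
    fun n f H => by
      rcases n.eq_zero_or_pos with rfl | hn
      · exact ⟨u 0, by simp⟩
      obtain ⟨z, z1, z2⟩ := amalg h k (Finset.range n) ⟨0, by simpa⟩ f (δ n) (d0 n)
        (fun i hi l hl => (sym f δ d1 (fun _ _ => rat_nn (d0 _ _)) n (fun m hm => (H m hm).1) i
          (by simpa using hi) l (by simpa using hl)).trans (d2 _ _ _))
        ((Finset.range n).image u ∪ (Finset.range n).image f)
      have up : ∀ i < n, Function.update f n z i = f i := fun i hi => Function.update_of_ne hi.ne _ _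
      refine ⟨z, fun i hi => by simpa [up i hi] using z1 i (by simpa), fun i hi => ⟨?_, ?_⟩⟩
      · obtain ⟨l, l1, l2⟩ := z2 (u i) (by simp; exact .inl ⟨i, hi, rfl⟩)
        exact ⟨l, by simpa using l1, by simpa [up l (by simpa using l1)] using l2⟩
      · obtain ⟨l, l1, l2⟩ := z2 (f i) (by simp; exact .inr ⟨i, hi, rfl⟩)
        exact ⟨l, by simpa using l1, by simpa [up l (by simpa using l1), up i hi] using l2⟩
  refine ⟨j, fun m n => sym j δ d1 (fun _ _ => rat_nn (d0 _ _)) (m + n + 1)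
    (fun m _ => (hj m).1) m (by omega) n (by omega), fun φ hφ => ?_⟩
  have A : ∀ N, ∀ m < N, ∀ i < N, dist (φ m) (φ i) ≤ dist (j m) (j i) := fun N => by
    induction N with
    | zero => simp
    | succ N ih =>
      refine sym φ _ (fun _ _ => dist_comm _ _) (fun _ _ => dist_nonneg) _ fun m hm i hi => ?_
      obtain ⟨l, l1, l2⟩ := ((hj m).2 i hi).2
      rw [l2]
      exact k.ge _ (h.val _ _) _ (by
        linarith [hφ m l, ih l (by omega) i (by omega), dist_triangle (φ m) (φ l) (φ i)])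
  have B : ∀ i (y : U), (∀ l ≤ i, dist (φ l) y ≤ dist (j l) (u i)) →
      ∀ m, dist (φ m) y ≤ dist (j m) (u i) := fun i y H m => by
    induction m using Nat.strong_induction_on with
    | _ m ih =>
      rcases le_or_gt m i with q | q
      · exact H m q
      obtain ⟨l, l1, l2⟩ := ((hj m).2 i q).1
      rw [l2]
      exact k.ge _ (h.val _ _) _ (by linarith [hφ m l, ih l l1, dist_triangle (φ m) (φ l) y])
  obtain ⟨ψ, hψ⟩ := seq_choice (fun n (ψ : ℕ → U) => (∀ i < n, dist (ψ n) (ψ i) ≤ dist (u n) (u i)) ∧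
      ∀ l ≤ n, dist (φ l) (ψ n) ≤ dist (j l) (u n))
    (fun n f g e ⟨a, b⟩ => ⟨fun i hi => e n le_rfl ▸ e i hi.le ▸ a i hi, e n le_rfl ▸ b⟩)
    fun n f H => by
      obtain ⟨z, z1, -⟩ := amalg h k ((Finset.range n).disjSum (Finset.range (n + 1)))
        ⟨.inr 0, by simp⟩ (Sum.elim f φ) (Sum.elim (fun i => dist (u n) (u i)) fun i => dist (j i) (u n))
        (by rintro (i | i) <;> exact k.rat (h.val _ _)) (by
          rintro (i | i) hi (l | l) hl <;> simp at hi hl ⊢
          · exact (sym f _ (fun _ _ => dist_comm _ _) (fun _ _ => dist_nonneg) n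
              (fun m hm => (H m hm).1) i hi l hl).trans (dist_triangle_left _ _ _)
          · linarith [B i _ (H i hi).2 l, dist_comm (f i) (φ l), dist_triangle (j l) (u n) (u i)]
          · linarith [B l _ (H l hl).2 i, dist_triangle (j i) (u n) (u l)]
          · exact (A (n + 1) i (by omega) l (by omega)).trans (dist_triangle_right _ _ _)) ∅
      refine ⟨z, fun i hi => ?_, fun l hl => ?_⟩
      · simpa [Function.update_of_ne hi.ne] using z1 (.inl i) (by simpa)
      · simpa [dist_comm] using z1 (.inr l) (by simpa)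
  choose x hx using hu
  refine ⟨fun y => ψ (x y), fun y z => ?_, fun n => ?_⟩
  · simpa [hx] using sym ψ _ (fun _ _ => dist_comm (u _) (u _)) (fun _ _ => dist_nonneg)
      (x y + x z + 1) (fun m _ => (hψ m).1) (x y) (by omega) (x z) (by omega)
  · simpa [hx, eq_comm] using B _ _ (hψ (x (j n))).2 n

theorem factor (h : Urysohn S U) (k : Cap S c) [Nonempty U] {X : Type} [Countable X] [Nonempty X]
    (δ : X → X → ℝ) (d0 : ∀ m n, δ m n ∈ ratDist) (d1 : ∀ m n, δ m n = δ n m)
    (d2 : ∀ l m n, δ m n ≤ δ l m + δ l n) :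
    ∃ j : X → U, (∀ m n, dist (j m) (j n) ≤ δ m n) ∧ ∀ φ : X → U,
      (∀ m n, dist (φ m) (φ n) ≤ δ m n) →
      ∃ ψ : U → U, (∀ x y, dist (ψ x) (ψ y) ≤ dist x y) ∧ ∀ n, ψ (j n) = φ n := by
  obtain ⟨e, he⟩ := exists_surjective_nat X
  obtain ⟨j, j1, j2⟩ := factor_nat h k (fun m n => δ (e m) (e n)) (fun _ _ => d0 _ _)
    (fun _ _ => d1 _ _) fun _ _ _ => d2 _ _ _
  choose x hx using he
  refine ⟨fun y => j (x y), fun m n => by simpa [hx] using j1 (x m) (x n), fun φ hφ => ?_⟩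
  obtain ⟨ψ, a, b⟩ := j2 (φ ∘ e) fun _ _ => hφ _ _
  exact ⟨ψ, a, fun n => by simp [b, hx]⟩

end Pool.Agent.H10.Ury
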