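import Pool.Agent.H10.Ury1

namespace Pool.Agent.H10.Ury
open Set

section clones
variable {A : Type}

theorem depth_mono (H : Ops A) (k : ℕ) : Monotone (depth H k) :=
  monotone_nat_of_le_succ fun _ => subset_union_right

theorem depth_comp {H : Ops A} {k e : ℕ} : ∀ (a m : ℕ) (g : (Fin (m + 1) → A) → A)
    (h : Fin (m + 1) → (Fin (k + 1) → A) → A), g ∈ depth H m a → (∀ j, h j ∈ depth H k e) →
    (fun x => g fun j => h j x) ∈ depth H k (e + a)
  | 0, _, _, _, ⟨i, rfl⟩, hh => hh i
  | a + 1, m, _, h, .inl ⟨n, g, t, hg, ht, rfl⟩, hh =>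
    .inl ⟨n, g, fun j x => t j fun i => h i x, hg, fun j => depth_comp a m _ h (ht j) hh, rfl⟩
  | a + 1, m, g, h, .inr hg, hh => .inr (depth_comp a m g h hg hh)

theorem depth_le {H C : Ops A} (hC : IsClone C) (h : H ≤ C) (k : ℕ) : ∀ i, depth H k i ⊆ C k
  | 0, _, ⟨i, rfl⟩ => hC.1 k i
  | i + 1, _, .inl ⟨n, g, t, hg, ht, rfl⟩ =>
    hC.2 n k g t (h n hg) fun j => depth_le hC h k i (ht j)
  | i + 1, _, .inr hg => depth_le hC h k i hg

theorem depth_ex {H C : Ops A} (h : Generates H C) {k : ℕ} {f} (hf : f ∈ C k) :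
    ∃ i, f ∈ depth H k i := by
  refine h.2.2 (fun k => {f | ∃ i, f ∈ depth H k i}) ⟨fun n i => ⟨0, i, rfl⟩, ?_⟩
    (fun n g hg => ⟨1, .inl ⟨n, g, fun j x => x j, hg, fun j => ⟨j, rfl⟩, rfl⟩⟩) k hf
  rintro n m g t ⟨a, ha⟩ ht
  choose e he using ht
  exact ⟨_, depth_comp a n g t ha fun j =>
    depth_mono H m (Finset.le_sup (f := e) (Finset.mem_univ j)) (he j)⟩

def un (g : A → A) : (Fin (0 + 1) → A) → A := fun x => g (x 0)

def bi (b : A × A → A) : (Fin (1 + 1) → A) → A := fun x => b (x 0, x 1)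

def BB (b : A × A → A) : ∀ k : ℕ, (Fin (k + 1) → A) → A
  | 0, x => x 0
  | k + 1, x => b (x 0, BB b k fun i => x i.succ)

theorem BB_mem {C : Ops A} (hC : IsClone C) {b} (hb : bi b ∈ C 1) : ∀ k, BB b k ∈ C k
  | 0 => hC.1 0 0
  | k + 1 => hC.2 1 (k + 1) _ ![fun x => x 0, fun x => BB b k fun i => x i.succ] hb
    (Fin.forall_fin_two.2 ⟨hC.1 _ 0, hC.2 k _ _ (fun i x => x i.succ) (BB_mem hC hb k)
      fun i => hC.1 _ _⟩)

theorem un_mem {C : Ops A} (hC : IsClone C) {g} (hg : un g ∈ C 0) {k t} (ht : t ∈ C k) :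
    (fun x => g (t x)) ∈ C k := hC.2 0 k _ (fun _ => t) hg fun _ => ht

theorem un_depth {H : Ops A} {g a} (hg : un g ∈ depth H 0 a) {k t e} (ht : t ∈ depth H k e) :
    (fun x => g (t x)) ∈ depth H k (e + a) := depth_comp a 0 _ (fun _ => t) hg fun _ => ht

end clones

variable {S : Set ℝ} {c : ℝ → ℝ} {U : Type} [MetricSpace U]

abbrev NE (g : U → U) : Prop := ∀ x y, dist (g x) (g y) ≤ dist x y

theorem pol_clone : IsClone (Pol U) :=
  ⟨fun _ i x y => dist_le_pi_dist x y i, fun _ _ _ _ hg hh x y =>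
    (hg _ _).trans ((dist_pi_le_iff dist_nonneg).2 fun i => hh i x y)⟩

theorem un_pol {g : U → U} (h : NE g) : un g ∈ Pol U 0 :=
  fun x y => (h _ _).trans (dist_le_pi_dist x y 0)

theorem Urysohn.ne (h : Urysohn S U) (k : Cap S c) : Nonempty U := by
  have := k.mem 0 ⟨0, le_rfl, by simp⟩
  rw [(k.le 0).antisymm (rat_nn (k.rat this))] at this
  obtain ⟨f, -⟩ := h.univ Unit fun _ _ => this
  exact ⟨f ()⟩

theorem binary (h : Urysohn S U) (k : Cap S c) [Nonempty U] : ∃ b : U × U → U, bi b ∈ Pol U 1 ∧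
    ∀ n, ∀ f ∈ Pol U n, ∃ g, NE g ∧ f = fun x => g (BB b n x) := by
  have := h.count
  obtain ⟨b, b1, b2⟩ := factor h k (X := U × U) dist (fun m n => by
    rw [Prod.dist_eq]
    rcases max_choice (dist m.1 n.1) (dist m.2 n.2) with e | e <;> rw [e] <;> exact k.rat (h.val _ _))
    dist_comm fun l m n => dist_triangle_left _ _ _
  obtain ⟨p, p1, p2⟩ := b2 Prod.fst fun _ _ => le_max_left _ _
  obtain ⟨q, q1, q2⟩ := b2 Prod.snd fun _ _ => le_max_right _ _
  refine ⟨b, fun x y => (b1 _ _).trans (max_le (dist_le_pi_dist x y 0) (dist_le_pi_dist x y 1)),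
    fun n f hf => ?_⟩
  have : ∃ L : U → Fin (n + 1) → U, (∀ x y, dist (L x) (L y) ≤ dist x y) ∧ ∀ x, L (BB b n x) = x := by
    clear hf f
    induction n with
    | zero => exact ⟨fun z _ => z, fun x y => by simp, fun x => funext fun i => by
        rw [Subsingleton.elim (α := Fin 1) i 0]; rfl⟩
    | succ n ih =>
      obtain ⟨L, l1, l2⟩ := ih
      refine ⟨fun z => Fin.cons (p z) (L (q z)), fun x y => (dist_pi_le_iff dist_nonneg).2
        (Fin.cases (p1 x y) fun i => (dist_le_pi_dist _ _ i).trans ((l1 _ _).trans (q1 x y))),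
        fun x => ?_⟩
      simp only [BB, p2, q2, l2]
      exact Fin.cons_self_tail x
  obtain ⟨L, l1, l2⟩ := this
  exact ⟨f ∘ L, fun x y => (hf _ _).trans (l1 x y), funext fun x => by simp [l2]⟩

theorem core (h : Urysohn S U) (k : Cap S c) (o : U) (g : ℕ → U → U) (g1 : ∀ p, NE (g p))
    (g2 : ∀ p, dist (g p o) (g (p + 1) o) ≤ 1) :
    ∃ F s ι : U → U, NE F ∧ NE s ∧ NE ι ∧ ∀ p x, g p x = F (s^[p] (ι x)) := by
  classical
  have := h.count
  have : Nonempty U := ⟨o⟩
  let d : ℕ × U → ℕ × U → ℝ := fun a b =>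
    if a.1 = b.1 then dist a.2 b.2 else dist a.2 o + dist b.2 o + |(a.1 : ℝ) - b.1|
  have d0 : ∀ a b, d a b ∈ ratDist := fun a b => by
    simp only [d]
    split_ifs
    · exact k.rat (h.val _ _)
    · exact rat_add (rat_add (k.rat (h.val _ _)) (k.rat (h.val _ _)))
        ⟨|(a.1 : ℚ) - b.1|, abs_nonneg _, by simp⟩
  obtain ⟨j, j1, j2⟩ := factor h k (fun a b => c (d a b)) (fun a b => k.rat (k.mem _ (d0 a b)))
    (fun a b => by simp only [d, eq_comm, dist_comm a.2 b.2, abs_sub_comm (a.1 : ℝ), add_comm (dist a.2 o)])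
    fun l m n => by
      refine le_trans ?_ (k.sub _ _ (rat_nn (d0 l m)) (rat_nn (d0 l n)))
      refine (k.lip _ _ 0 le_rfl ?_).trans (add_zero _).le
      have t := abs_sub_le (m.1 : ℝ) l.1 n.1
      rw [abs_sub_comm (m.1 : ℝ) l.1] at t
      have := dist_triangle_left m.2 n.2 l.2
      have := dist_triangle_right m.2 n.2 o
      have := dist_triangle m.2 l.2 o
      have := dist_triangle n.2 l.2 o
      have := dist_comm m.2 l.2
      have := dist_comm n.2 l.2
      have := dist_nonneg (x := l.2) (y := o)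
      have := abs_nonneg ((l.1 : ℝ) - m.1)
      have := abs_nonneg ((l.1 : ℝ) - n.1)
      simp only [d]
      split_ifs with e1 e2 e3 e4 e5 e6 e7
      · linarith
      · omega
      · omega
      · linarith
      · omega
      · rw [e5]; linarith
      · rw [e7, abs_sub_comm]; linarith
      · linarith
  obtain ⟨s, s1, s2⟩ := j2 (fun a => j (a.1 + 1, a.2)) fun a b => by
    simpa [d] using j1 (a.1 + 1, a.2) (b.1 + 1, b.2)
  have w : ∀ p q, p ≤ q → dist (g p o) (g q o) ≤ (q : ℝ) - p := fun p q e => by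
    induction q, e using Nat.le_induction with
    | base => simp
    | succ q _ ih => push_cast; linarith [g2 q, dist_triangle (g p o) (g q o) (g (q + 1) o)]
  obtain ⟨F, F1, F2⟩ := j2 (fun a => g a.1 a.2) fun a b => k.ge _ (h.val _ _) _ (by
    simp only [d]
    split_ifs with e
    · rw [e]; exact g1 _ _ _
    · have : dist (g a.1 o) (g b.1 o) ≤ |(a.1 : ℝ) - b.1| := by
        rcases le_total a.1 b.1 with q | q
        · exact (w _ _ q).trans (abs_sub_comm (a.1 : ℝ) _ ▸ le_abs_self _)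
        · exact dist_comm (g a.1 o) _ ▸ (w _ _ q).trans (le_abs_self _)
      linarith [dist_triangle4 (g a.1 a.2) (g a.1 o) (g b.1 o) (g b.1 b.2), g1 a.1 a.2 o,
        g1 b.1 o b.2, dist_comm o b.2])
  refine ⟨F, s, fun x => j (0, x), F1, s1, fun x y => (j1 _ _).trans (by simpa [d] using k.le _),
    fun p x => ?_⟩
  have : s^[p] (j (0, x)) = j (p, x) := by
    induction p with
    | zero => rfl
    | succ p ih => rw [Function.iterate_succ_apply', ih, s2]
  rw [this, F2]

theorem step (h : Urysohn S U) (k : Cap S c) (y x : U) :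
    ∃ z, dist z y ≤ 1 ∧ dist z x ≤ max (dist y x - 1) 0 := by
  obtain ⟨q, q1, q2⟩ := k.rat (h.val y x)
  obtain ⟨z, z1, -⟩ := amalg h k Finset.univ Finset.univ_nonempty (fun b => cond b y x)
    (fun b => cond b 1 (max (dist y x - 1) 0)) (by
      rintro (_ | _)
      exacts [⟨max (q - 1) 0, le_max_right _ _, by simp [q2]⟩, ⟨1, zero_le_one, by simp⟩]) (by
      have := le_max_left (dist y x - 1) 0
      have := le_max_right (dist y x - 1) 0
      rintro (_ | _) - (_ | _) - <;> simp only [cond, dist_self, dist_comm x y] <;> linarith) ∅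
  exact ⟨z, z1 true (by simp), z1 false (by simp)⟩

theorem distort (h : Urysohn S U) (k : Cap S c) (o : U) (f : ℕ → U → U) (f1 : ∀ p, NE (f p)) :
    ∃ F s ι : U → U, NE F ∧ NE s ∧ NE ι ∧ ∀ n, ∃ p, ∀ x, f n x = F (s^[p] (ι x)) := by
  classical
  choose t t1 t2 using step h k
  let nx : ℕ × U → ℕ × U := fun a => if a.2 = f a.1 o then (a.1 + 1, a.2) else (a.1, t a.2 (f a.1 o))
  let st : ℕ → ℕ × U := fun p => nx^[p] (0, o)
  have sx : ∀ p, st (p + 1) = nx (st p) := fun p => Function.iterate_succ_apply' _ _ _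
  let g : ℕ → U → U := fun p => if (st p).2 = f (st p).1 o then f (st p).1 else fun _ => (st p).2
  have go : ∀ p, g p o = (st p).2 := fun p => by simp only [g]; split_ifs with e <;> simp [*]
  obtain ⟨F, s, ι, a, b, d, e⟩ := core h k o g (fun p => by
    simp only [g]; split_ifs; exacts [f1 _, fun x y => by simp]) fun p => by
      rw [go, go, sx]; simp only [nx]; split_ifs
      · simp
      · rw [dist_comm]; exact t1 _ _
  have R : ∀ (m : ℕ) p n y, st p = (n, y) → dist y (f n o) ≤ m → ∃ q, st q = (n, f n o) := fun m => by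
    induction m with
    | zero => exact fun p n y e k => ⟨p, by rw [e, show y = f n o by simpa using k]⟩
    | succ m ih =>
      intro p n y e k
      by_cases q : y = f n o
      · exact ⟨p, q ▸ e⟩
      · refine ih (p + 1) n (t y (f n o)) (by rw [sx, e]; simp [nx, q]) ((t2 _ _).trans ?_)
        push_cast at k
        exact max_le (by linarith) (by positivity)
  have Q : ∀ n, ∃ q, st q = (n, f n o) := fun n => by
    induction n with
    | zero => exact R _ 0 0 o rfl (Nat.le_ceil _)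
    | succ n ih =>
      obtain ⟨q, e⟩ := ih
      exact R _ (q + 1) _ (f n o) (by rw [sx, e]; simp [nx]) (Nat.le_ceil _)
  refine ⟨F, s, ι, a, b, d, fun n => ?_⟩
  obtain ⟨q, hq⟩ := Q n
  exact ⟨q, fun x => by rw [← e]; simp [g, hq]⟩

theorem cof (h : Urysohn S U) (k : Cap S c) : UncountableCof (Pol U) := by
  intro C hC mono un'
  obtain ⟨o⟩ := h.ne k
  have : Nonempty U := ⟨o⟩
  by_contra H
  push Not at H
  have : ∀ i, ∃ n, ∃ f ∈ Pol U n, f ∉ C i n := fun i => by
    by_contra q
    push Not at q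
    exact H i (funext fun n => Set.ext fun f => ⟨fun e => (un' n f).2 ⟨i, e⟩, q n f⟩)
  choose n f f1 f2 using this
  obtain ⟨b, b1, b2⟩ := binary h k
  choose g g1 g2 using fun i => b2 _ _ (f1 i)
  obtain ⟨F, s, ι, a1, a2, a3, e⟩ := distort h k o g g1
  obtain ⟨i1, h1⟩ := (un' _ _).1 (un_pol a1)
  obtain ⟨i2, h2⟩ := (un' _ _).1 (un_pol a2)
  obtain ⟨i3, h3⟩ := (un' _ _).1 (un_pol a3)
  obtain ⟨i4, h4⟩ := (un' _ _).1 b1
  let i := i1 + i2 + i3 + i4
  obtain ⟨p, hp⟩ := e i
  refine f2 i ?_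
  rw [g2 i, funext hp]
  refine un_mem (hC i) (mono (show i1 ≤ i by omega) _ h1) ?_
  clear hp
  induction p with
  | zero =>
    exact un_mem (hC i) (mono (show i3 ≤ i by omega) _ h3)
      (BB_mem (hC i) (mono (show i4 ≤ i by omega) _ h4) _)
  | succ p ih =>
    simp only [Function.iterate_succ_apply']
    exact un_mem (hC i) (mono (show i2 ≤ i by omega) _ h2) ih

theorem bergman_sphere (h : Urysohn ratDist1 U) : Bergman (Pol U) := by
  intro H hH m
  obtain ⟨o⟩ := h.ne cap_one
  have : Nonempty U := ⟨o⟩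
  by_contra K
  push Not at K
  have : ∀ i, ∃ f ∈ Pol U m, f ∉ depth H m i := fun i => by
    by_contra q
    push Not at q
    exact K i ((depth_le hH.1 hH.2.1 m i).antisymm q)
  choose f f1 f2 using this
  obtain ⟨b, b1, b2⟩ := binary h cap_one
  choose g g1 g2 using fun i => b2 _ _ (f1 (i * (i + 3)))
  obtain ⟨F, s, ι, a1, a2, a3, e⟩ := core h cap_one o g g1 fun p => by
    obtain ⟨q, -, q1, q2⟩ := h.val (g p o) (g (p + 1) o)
    rw [q2]; exact_mod_cast q1
  obtain ⟨i1, h1⟩ := depth_ex hH (un_pol a1)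
  obtain ⟨i2, h2⟩ := depth_ex hH (un_pol a2)
  obtain ⟨i3, h3⟩ := depth_ex hH (un_pol a3)
  obtain ⟨i4, h4⟩ := depth_ex hH (BB_mem pol_clone b1 m)
  let i := i1 + i2 + i3 + i4
  have : ∀ p, (fun x => s^[p] (ι (BB b m x))) ∈ depth H m (i4 + i3 + p * i2) := fun p => by
    induction p with
    | zero => simpa using un_depth h3 h4
    | succ p ih =>
      simp only [Function.iterate_succ_apply', add_one_mul, ← add_assoc]
      exact un_depth h2 ih
  refine f2 (i * (i + 3)) ?_
  rw [g2 i, funext (e i)]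
  refine depth_mono H m ?_ (un_depth h1 (this i))
  have : i * i2 ≤ i * i := Nat.mul_le_mul_left _ (by omega)
  nlinarith [show i = i1 + i2 + i3 + i4 from rfl]

theorem not_bergman (h : Urysohn ratDist U) : ¬ Bergman (Pol U) := by
  intro B
  obtain ⟨o⟩ := h.ne cap_id
  obtain ⟨n, hn⟩ := B (fun n => {f ∈ Pol U n | dist (f fun _ => o) o ≤ 1})
    ⟨pol_clone, fun n f hf => hf.1, fun D hD hH n f hf => by
      obtain ⟨N, hN⟩ := exists_nat_ge (dist (f fun _ => o) o)
      induction N generalizing f with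
      | zero => exact hH n ⟨hf, hN.trans (by simp)⟩
      | succ N ih =>
        obtain ⟨y, y1, y2⟩ := step h cap_id o (f fun _ => o)
        obtain ⟨T, hT⟩ := h.homog {o} (fun _ => y) (Isometry.of_dist_eq fun a b => by
          rw [Subsingleton.elim a b]; simp)
        have e : T o = y := hT ⟨o, by simp⟩
        have := un_mem hD (g := T) (hH 0 ⟨un_pol fun a b => (T.dist_eq a b).le, by
          simpa [un, e] using y1⟩) (ih (f := fun x => T.symm (f x))
          (fun a b => (T.symm.dist_eq _ _).trans_le (hf a b)) (by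
            rw [← T.dist_eq, T.apply_symm_apply, e, dist_comm]
            push_cast at hN
            exact y2.trans (max_le (by rw [dist_comm]; linarith) (by positivity))))
        simpa using this⟩ 0
  have : ∀ i, ∀ f ∈ depth (fun n => {f ∈ Pol U n | dist (f fun _ => o) o ≤ 1}) 0 i,
      dist (f fun _ => o) o ≤ i := fun i => by
    induction i with
    | zero => rintro _ ⟨j, rfl⟩; simp
    | succ i ih =>
      rintro f (⟨m, g, t, hg, ht, rfl⟩ | hf)
      · have := (hg.1 (fun j => t j fun _ => o) fun _ => o).trans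
          ((dist_pi_le_iff (by positivity)).2 fun j => ih _ (ht j))
        push_cast
        linarith [hg.2, dist_triangle (g fun j => t j fun _ => o) (g fun _ => o) o]
      · exact (ih f hf).trans (by simp)
  obtain ⟨z, -, hz⟩ := amalg h cap_id {()} (by simp) (fun _ => o) (fun _ => n + 1)
    (fun _ => ⟨n + 1, by positivity, by simp⟩) (fun _ _ _ _ => by simp; positivity) {o}
  obtain ⟨-, -, e⟩ := hz o (by simp)
  have := this n (fun _ => z) (hn ▸ fun _ _ => by simp)
  simp [e] at this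
  linarith

end Pool.Agent.H10.Ury
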