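import Pool.Agent.H10.UryDefs

namespace Pool.Agent.H10.Ury

/-- polymorphisms of `(ℚ, ≤)`: the maps monotone for the componentwise order -/
def PolQ : Ops ℚ := fun _ => {f | Monotone f}

end Pool.Agent.H10.Ury
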