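import Pool.Agent.H10.Ury2
import Pool.Agent.H10.UryQ

namespace Pool.Agent.H10.Ury
open Set

noncomputable def GQ {m : ℕ} (f : ℕ → (Fin (m + 1) → ℚ) → ℚ) (x : Fin (m + 1) → ℚ) (i j : ℤ) : ℚ :=
  if h : -j ≤ i then (Finset.Icc (-j) i).sup' (Finset.nonempty_Icc.2 h) fun n => f n.toNat x
  else (Finset.Icc i (-j)).inf' (Finset.nonempty_Icc.2 (not_le.1 h).le) fun n => f n.toNat x

theorem GQ_mono {m : ℕ} {f : ℕ → (Fin (m + 1) → ℚ) → ℚ} (hf : ∀ n, Monotone (f n)) {x y i j i' j'}
    (h : x ≤ y) (hi : i ≤ i') (hj : j ≤ j') : GQ f x i j ≤ GQ f y i' j' := by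
  unfold GQ
  split_ifs with p q q
  · exact Finset.sup'_le _ _ fun n hn => (hf _ h).trans (Finset.le_sup' (fun n : ℤ => f n.toNat y)
      (by simp only [Finset.mem_Icc] at hn ⊢; omega))
  · omega
  · exact (Finset.inf'_le (b := max i (-j')) _ (by simp only [Finset.mem_Icc]; omega)).trans
      ((hf _ h).trans (Finset.le_sup' (fun n : ℤ => f n.toNat y)
        (by simp only [Finset.mem_Icc]; omega)))
  · exact Finset.le_inf' _ _ fun n hn => (Finset.inf'_le (b := n) _
      (by simp only [Finset.mem_Icc] at hn ⊢; omega)).trans (hf _ h)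

theorem un_polQ {g : ℚ → ℚ} (h : Monotone g) : un g ∈ PolQ 0 := fun _ _ k => h (k 0)

theorem bergman_rat : Bergman PolQ := by
  intro H hH m
  by_contra K
  push Not at K
  have : ∀ i, ∃ f ∈ PolQ m, f ∉ depth H m i := fun i => by
    by_contra q
    push Not at q
    exact K i ((depth_le hH.1 hH.2.1 m i).antisymm q)
  choose f f1 f2 using this
  obtain ⟨i1, h1⟩ := depth_ex hH (k := m + 2) (f := fun x =>
    GQ (fun n => f (n * (n + 2))) (fun i => x i.succ.succ) ⌊x 0⌋ ⌊x 1⌋) fun x y h =>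
      GQ_mono (fun n => f1 _) (fun i => h _) (Int.floor_mono (h 0)) (Int.floor_mono (h 1))
  obtain ⟨i2, h2⟩ := depth_ex hH (un_polQ (g := (· + 1)) fun _ _ h => by simpa)
  obtain ⟨i3, h3⟩ := depth_ex hH (un_polQ (g := (· - 1)) fun _ _ h => by simpa)
  obtain ⟨i4, h4⟩ := depth_ex hH (un_polQ (g := fun _ => 0) monotone_const)
  let i := i1 + i2 + i3 + i4
  have z : (fun _ => 0) ∈ depth H m i4 := by simpa using un_depth h4 (k := m) (e := 0) ⟨0, rfl⟩
  have a : ∀ p : ℕ, (fun _ => (p : ℚ)) ∈ depth H m (i4 + p * i2) := fun p => by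
    induction p with
    | zero => simpa using z
    | succ p ih => simpa [add_one_mul, ← add_assoc] using un_depth h2 ih
  have b : ∀ p : ℕ, (fun _ => -(p : ℚ)) ∈ depth H m (i4 + p * i3) := fun p => by
    induction p with
    | zero => simpa using z
    | succ p ih =>
      simpa [add_one_mul, ← add_assoc, sub_eq_add_neg, add_comm (-1 : ℚ)] using un_depth h3 ih
  have e2 : i * i2 ≤ i * i := Nat.mul_le_mul_left _ (by omega)
  have e3 : i * i3 ≤ i * i := Nat.mul_le_mul_left _ (by omega)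
  have := depth_comp (e := i + i * i) i1 _ _ (Fin.cons (fun _ => (i : ℚ))
    (Fin.cons (fun _ => -(i : ℚ)) fun j x => x j)) h1 (Fin.cases
      (depth_mono H m (by omega) (a i)) (Fin.cases (depth_mono H m (by omega) (b i))
        fun j => depth_mono H m (Nat.zero_le _) ⟨j, rfl⟩))
  refine f2 (i * (i + 2)) (depth_mono H m (show i + i * i + i1 ≤ _ by
    nlinarith [show i = i1 + i2 + i3 + i4 from rfl]) ?_)
  convert this using 1
  funext x
  have : ⌊-(i : ℚ)⌋ = -i := by rw [← Int.cast_natCast, ← Int.cast_neg, Int.floor_intCast]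
  simp [GQ, this]

end Pool.Agent.H10.Ury
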