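import Mathlib

namespace Pool.Agent.H10.Ury

/-- `U` is the countable homogeneous metric space with distances in `S` that is universal for the
finite metric spaces with distances in `S`. -/
structure Urysohn (S : Set ℝ) (U : Type) [MetricSpace U] : Prop where
  count : Countable U
  val : ∀ x y : U, dist x y ∈ S
  homog : ∀ (A : Finset U) (f : A → U), Isometry f → ∃ g : U ≃ᵢ U, ∀ x : A, g x = f x
  univ : ∀ (X : Type) [Finite X] [MetricSpace X], (∀ x y : X, dist x y ∈ S) →
    ∃ f : X → U, Isometry f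

/-- rational distances -/
def ratDist : Set ℝ := {t | ∃ q : ℚ, 0 ≤ q ∧ t = q}

/-- rational distances in `[0, 1]` -/
def ratDist1 : Set ℝ := {t | ∃ q : ℚ, 0 ≤ q ∧ q ≤ 1 ∧ t = q}

/-- sets of finitary operations; index `n` holds the `(n+1)`-ary ones -/
abbrev Ops (A : Type) : Type := ∀ n : ℕ, Set ((Fin (n + 1) → A) → A)

/-- clones: all projections, closed under composition -/
def IsClone {A : Type} (C : Ops A) : Prop :=
  (∀ (n : ℕ) (i : Fin (n + 1)), (fun x => x i) ∈ C n) ∧
  ∀ (n m : ℕ) (g : (Fin (n + 1) → A) → A) (h : Fin (n + 1) → (Fin (m + 1) → A) → A),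
    g ∈ C n → (∀ i, h i ∈ C m) → (fun x => g fun i => h i x) ∈ C m

/-- polymorphisms of a metric space: maps not increasing distances for the maximum metric -/
def Pol (U : Type) [MetricSpace U] : Ops U :=
  fun _ => {f | ∀ x y, dist (f x) (f y) ≤ dist x y}

/-- `C` is not the union of a countable increasing chain of proper subclones -/
def UncountableCof {A : Type} (C : Ops A) : Prop :=
  ∀ F : ℕ → Ops A, (∀ i, IsClone (F i)) → Monotone F → (∀ n f, f ∈ C n ↔ ∃ i, f ∈ F i n) →
    ∃ i, F i = C

/-- `(k+1)`-ary operations given by terms over `H` of depth at most `i` -/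
def depth {A : Type} (H : Ops A) (k : ℕ) : ℕ → Set ((Fin (k + 1) → A) → A)
  | 0 => {f | ∃ i, f = fun x => x i}
  | i + 1 => {f | ∃ (n : ℕ) (g : (Fin (n + 1) → A) → A) (h : Fin (n + 1) → (Fin (k + 1) → A) → A),
      g ∈ H n ∧ (∀ j, h j ∈ depth H k i) ∧ f = fun x => g fun j => h j x} ∪ depth H k i

/-- `C` is the smallest clone containing `H` -/
def Generates {A : Type} (H C : Ops A) : Prop :=
  IsClone C ∧ H ≤ C ∧ ∀ D, IsClone D → H ≤ D → C ≤ D

/-- the Bergman property for clones -/
def Bergman {A : Type} (C : Ops A) : Prop :=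
  ∀ H, Generates H C → ∀ k, ∃ n, depth H k n = C k

end Pool.Agent.H10.Ury
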