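import Mathlib

namespace Pool.Agent.H10.Wr
open Filter Topology Function

section
variable {G G' : Type} [Group G] [Group G']

def ball (S : Finset G) (n : ℕ) : Set G :=
  {g | ∃ l : List G, l.length ≤ n ∧ (∀ x ∈ l, x ∈ S ∨ x⁻¹ ∈ S) ∧ l.prod = g}

theorem ball_ind {S : Finset G} {P : ℕ → G → Prop} (h0 : P 0 1) (h1 : ∀ n g, P n g → P (n + 1) g)
    (h2 : ∀ n g s, (s ∈ S ∨ s⁻¹ ∈ S) → P n g → P (n + 1) (s * g)) :
    ∀ n, ∀ g ∈ ball S n, P n g := by
  rintro n _ ⟨l, a, b, rfl⟩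
  have : P l.length l.prod := by
    clear a
    induction l with
    | nil => exact h0
    | cons s l ih => simpa using h2 _ _ s (b s (by simp)) (ih fun x hx => b x (by simp [hx]))
  induction a with
  | refl => exact this
  | step _ ih => exact h1 _ _ ih

theorem one_ball (S : Finset G) (n : ℕ) : 1 ∈ ball S n := ⟨[], by simp⟩
theorem ball_succ {S : Finset G} {n : ℕ} {g : G} : g ∈ ball S n → g ∈ ball S (n + 1) :=
  fun ⟨l, a, b⟩ => ⟨l, a.trans (by simp), b⟩
theorem ball_l {S : Finset G} {n : ℕ} {g s : G} (hs : s ∈ S ∨ s⁻¹ ∈ S) :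
    g ∈ ball S n → s * g ∈ ball S (n + 1) :=
  fun ⟨l, a, b, c⟩ => ⟨s :: l, by simpa, by simpa [hs] using b, by simp [c]⟩
theorem ball_r {S : Finset G} {n : ℕ} {g s : G} (hs : s ∈ S ∨ s⁻¹ ∈ S) :
    g ∈ ball S n → g * s ∈ ball S (n + 1) := fun ⟨l, a, b, c⟩ =>
  ⟨l ++ [s], by simpa, fun x hx => (List.mem_append.1 hx).elim (b x) (by simp +contextual [hs]),
    by simp [c]⟩

open Classical in
noncomputable def Ws {α : Type} (s : Finset α) : ℕ → Finset (List α)
  | 0 => {[]}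
  | n + 1 => Finset.image₂ List.cons s (Ws s n)

theorem card_Ws {α : Type} (s : Finset α) (n : ℕ) : (Ws s n).card ≤ s.card ^ n := by
  classical
  induction n with
  | zero => rfl
  | succ n ih =>
    exact (Finset.card_image₂_le _ _ _).trans (by rw [pow_succ']; exact Nat.mul_le_mul_left _ ih)

theorem ball_card (S : Finset G) (n : ℕ) :
    (ball S n).Finite ∧ (ball S n).ncard ≤ (2 * S.card + 1) ^ n := by
  classical
  have : ball S n ⊆ (Ws (insert 1 (S ∪ S.image (·⁻¹))) n).image List.prod := fun g hg => by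
    refine ball_ind (P := fun n g => g ∈ (Ws (insert 1 (S ∪ S.image (·⁻¹))) n).image List.prod)
      (by simp [Ws]) (fun n g h => ?_) (fun n g s hs h => ?_) n g hg
    · obtain ⟨l, a, rfl⟩ := Finset.mem_image.1 h
      exact Finset.mem_image.2 ⟨1 :: l, Finset.mem_image₂_of_mem (by simp) a, by simp⟩
    · obtain ⟨l, a, rfl⟩ := Finset.mem_image.1 h
      exact Finset.mem_image.2 ⟨s :: l, Finset.mem_image₂_of_mem (Finset.mem_insert_of_mem
        (Finset.mem_union.2 (hs.imp_right fun h => Finset.mem_image.2 ⟨_, h, inv_inv s⟩))) a, by simp⟩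
  refine ⟨(Finset.finite_toSet _).subset this, (Set.ncard_le_ncard this).trans ?_⟩
  rw [Set.ncard_coe_finset]
  refine Finset.card_image_le.trans ((card_Ws _ _).trans (Nat.pow_le_pow_left ?_ _))
  have := Finset.card_insert_le 1 (S ∪ S.image (·⁻¹))
  have := Finset.card_union_le S (S.image (·⁻¹))
  have := Finset.card_image_le (s := S) (f := (·⁻¹))
  omega

open Classical in
noncomputable def un (S : Finset G) (T : Finset G') : Finset (G × G') :=
  S.image (MonoidHom.inl G G') ∪ T.image (MonoidHom.inr G G')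

theorem un_top {S : Finset G} {T : Finset G'} (hS : Subgroup.closure (S : Set G) = ⊤)
    (hT : Subgroup.closure (T : Set G') = ⊤) : Subgroup.closure (un S T : Set (G × G')) = ⊤ := by
  classical
  rw [un, Finset.coe_union, Finset.coe_image, Finset.coe_image, Subgroup.closure_union,
    ← MonoidHom.map_closure, ← MonoidHom.map_closure, hS, hT]
  refine top_unique fun g _ => ?_
  simpa using Subgroup.mul_mem_sup (S := Subgroup.map (MonoidHom.inl G G') ⊤)
    (T := Subgroup.map (MonoidHom.inr G G') ⊤) ⟨g.1, trivial, rfl⟩ ⟨g.2, trivial, rfl⟩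

theorem ball_map (φ : G →* G') {S : Finset G} {T : Finset G'} (h : ∀ s ∈ S, φ s ∈ T) :
    ∀ n, ∀ g ∈ ball S n, φ g ∈ ball T n :=
  ball_ind (by simpa using one_ball T 0) (fun _ _ => ball_succ) fun n g s hs a => by
    rw [map_mul]; exact ball_l (hs.imp (h s) fun b => by simpa using h _ b) a

theorem split {S : Finset G} {T : Finset G'} : ∀ n, ∀ g ∈ ball (un S T) n,
    ∃ i ≤ n, g.1 ∈ ball S i ∧ g.2 ∈ ball T (n - i) := by
  classical
  refine ball_ind ⟨0, le_rfl, one_ball _ _, one_ball _ _⟩ ?_ ?_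
  · rintro n g ⟨i, a, b, c⟩
    exact ⟨i + 1, by omega, ball_succ b, by simpa using c⟩
  · rintro n ⟨g, g'⟩ ⟨s, s'⟩ hs ⟨i, a, b, c⟩
    have : (s' = 1 ∧ (s ∈ S ∨ s⁻¹ ∈ S)) ∨ (s = 1 ∧ (s' ∈ T ∨ s'⁻¹ ∈ T)) := by
      simp only [un, Finset.mem_union, Finset.mem_image, MonoidHom.inl_apply, MonoidHom.inr_apply,
        Prod.inv_mk, Prod.mk.injEq, one_eq_inv] at hs
      rcases hs with (⟨_, h, rfl, rfl⟩ | ⟨_, h, rfl, rfl⟩) | ⟨_, h, rfl, rfl⟩ | ⟨_, h, rfl, rfl⟩ <;>
        simp [h]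
    rcases this with ⟨rfl, h⟩ | ⟨rfl, h⟩
    · exact ⟨i + 1, by omega, ball_l h b, by simpa using c⟩
    · exact ⟨i, by omega, by simpa using b, by rw [Nat.succ_sub a]; exact ball_l h c⟩

theorem cnt {α β : Type} {A : ℕ → Set α} {B : ℕ → Set β} {n c d M : ℕ}
    (hA : ∀ i ≤ n, (A i).Finite ∧ (A i).ncard ≤ c * M ^ i)
    (hB : ∀ i ≤ n, (B i).Finite ∧ (B i).ncard ≤ d * M ^ i) :
    {g : α × β | ∃ i ≤ n, g.1 ∈ A i ∧ g.2 ∈ B (n - i)}.Finite ∧
    {g : α × β | ∃ i ≤ n, g.1 ∈ A i ∧ g.2 ∈ B (n - i)}.ncard ≤ (n + 1) * (c * d * M ^ n) := by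
  have : {g : α × β | ∃ i ≤ n, g.1 ∈ A i ∧ g.2 ∈ B (n - i)} =
      ⋃ i ∈ Finset.range (n + 1), A i ×ˢ B (n - i) := by ext; simp [and_left_comm]
  rw [this]
  refine ⟨(Finset.finite_toSet _).biUnion fun i hi => (hA i ?_).1.prod (hB _ (by omega)).1,
    (Finset.set_ncard_biUnion_le _ _).trans ((Finset.sum_le_card_nsmul _ _ (c * d * M ^ n) fun i hi => ?_).trans
      (by simp))⟩
  · simpa [Nat.lt_succ_iff] using hi
  have hi : i ≤ n := by simpa [Nat.lt_succ_iff] using hi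
  rw [Set.ncard_prod, show M ^ n = M ^ i * M ^ (n - i) by rw [← pow_add]; congr; omega]
  exact (Nat.mul_le_mul (hA i hi).2 (hB _ (by omega)).2).trans_eq (by ring)

noncomputable def rate (u : ℕ → ℕ) : ℝ := limsup (fun n : ℕ => (u n : ℝ) ^ ((1 : ℝ) / (n : ℝ))) atTop

theorem poly (d : ℕ) : Tendsto (fun n : ℕ => (((n + 1) ^ d : ℕ) : ℝ) ^ ((1 : ℝ) / n)) atTop (𝓝 1) := by
  refine ((tendsto_rpow_div_mul_add d 1 (-1) zero_ne_one).comp (tendsto_atTop_add_const_right _ 1
    tendsto_natCast_atTop_atTop)).congr fun n => ?_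
  simp only [comp]
  push_cast
  rw [← Real.rpow_natCast, ← Real.rpow_mul (by positivity)]
  congr 1; ring

theorem rt (a b : ℕ) {n : ℕ} (hn : 1 ≤ n) : ((a * b ^ n : ℕ) : ℝ) ^ ((1 : ℝ) / n) =
    (a : ℝ) ^ ((1 : ℝ) / n) * b := by
  push_cast
  rw [Real.mul_rpow (by positivity) (by positivity), one_div,
    Real.pow_rpow_inv_natCast (by positivity) (by omega)]

theorem up {u : ℕ → ℕ} {d M : ℕ} (h : ∀ n, 1 ≤ n → u n ≤ (n + 1) ^ d * M ^ n) :
    rate u ≤ M ∧ ∀ m : ℕ, (∀ n, 1 ≤ n → m ^ n ≤ (n + 1) ^ 1 * u n) → m ≤ rate u := by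
  have t := (poly d).mul_const (M : ℝ)
  have e : (fun n : ℕ => (u n : ℝ) ^ ((1 : ℝ) / (n : ℝ))) ≤ᶠ[atTop] _ :=
    (eventually_ge_atTop 1).mono fun n hn => (Real.rpow_le_rpow (by positivity)
      (Nat.cast_le.2 (h n hn)) (by positivity)).trans_eq (rt _ _ hn)
  refine ⟨(limsup_le_limsup e (isCoboundedUnder_le_of_le _ (x := 0) fun n => by positivity)
    t.isBoundedUnder_le).trans_eq (by simpa using t.limsup_eq), fun m hm => ?_⟩
  have t2 := (tendsto_const_nhds (x := (m : ℝ))).div (poly 1) one_ne_zero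
  refine le_trans (by simpa using t2.limsup_eq.ge) (limsup_le_limsup ((eventually_ge_atTop 1).mono
    fun n hn => ?_) t2.isCoboundedUnder_le (t.isBoundedUnder_le.mono_le e))
  refine (div_le_iff₀' (by positivity)).2 ?_
  rw [← Real.mul_rpow (by positivity) (by positivity), ← Nat.cast_mul]
  refine le_trans ?_ (Real.rpow_le_rpow (by positivity) (Nat.cast_le.2 (hm n hn)) (by positivity))
  simpa using (rt 1 m hn).ge
end

/-- restricted wreath product -/
@[ext] structure W (B Q : Type) [Group B] where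
  f : Q → B
  fin : (mulSupport f).Finite
  q : Q

variable {B Q : Type} [Group B] [Group Q]

instance : Mul (W B Q) := ⟨fun g h => ⟨fun x => g.f x * h.f (g.q⁻¹ * x), (g.fin.union
  (h.fin.preimage (mul_right_injective g.q⁻¹).injOn)).subset (mulSupport_mul _ _), g.q * h.q⟩⟩
instance : One (W B Q) := ⟨⟨1, by simp, 1⟩⟩
instance : Inv (W B Q) := ⟨fun g => ⟨fun x => (g.f (g.q * x))⁻¹,
  (g.fin.preimage (mul_right_injective g.q).injOn).subset fun x => by simp, g.q⁻¹⟩⟩
@[simp] theorem mul_f (g h : W B Q) (x : Q) : (g * h).f x = g.f x * h.f (g.q⁻¹ * x) := rfl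
@[simp] theorem mul_q (g h : W B Q) : (g * h).q = g.q * h.q := rfl
@[simp] theorem one_f (x : Q) : (1 : W B Q).f x = 1 := rfl
@[simp] theorem one_q : (1 : W B Q).q = 1 := rfl
@[simp] theorem inv_f (g : W B Q) (x : Q) : g⁻¹.f x = (g.f (g.q * x))⁻¹ := rfl
@[simp] theorem inv_q (g : W B Q) : g⁻¹.q = g.q⁻¹ := rfl
instance : Group (W B Q) := Group.ofLeftAxioms (fun a b c => by ext <;> simp [mul_assoc])
  (fun a => by ext <;> simp) fun a => by ext <;> simp

open Classical in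
noncomputable def gen (p : B × Q) : W B Q :=
  ⟨fun x => if x = 1 then p.1 else 1, (Set.finite_singleton 1).subset fun x => by
    simp +contextual, p.2⟩

theorem gen_top (C : Subgroup (W B Q)) {R : Set Q} (hR : Subgroup.closure R = ⊤)
    (h : ∀ β, gen (β, 1) ∈ C) (h' : ∀ s ∈ R, gen (1, s) ∈ C) : C = ⊤ := by
  classical
  have a : ∀ q, gen (1, q) ∈ C := fun q => by
    have : q ∈ Subgroup.closure R := hR ▸ trivial
    induction this using Subgroup.closure_induction with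
    | mem s hs => exact h' s hs
    | one => exact h 1
    | mul x y _ _ hx hy => convert mul_mem hx hy using 1; ext <;> simp [gen]
    | inv x _ hx => convert inv_mem hx using 1; ext <;> simp [gen]
  have b : ∀ s : Set Q, s.Finite → ∀ g : W B Q, mulSupport g.f ⊆ s → g ∈ C := fun s hs => by
    induction s, hs using Set.Finite.induction_on with
    | empty =>
      intro g hg
      convert a g.q using 1
      ext <;> simp_all [gen]
    | @insert y s _ _ ih =>
      intro g hg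
      have := mul_mem (mul_mem (a y) (h (g.f y)⁻¹)) (inv_mem (a y))
      refine (mul_mem_cancel_left this).1 (ih _ fun x hx => (hg fun h => hx ?_).resolve_left ?_)
      · by_cases e : x = y <;> simp_all [gen, inv_mul_eq_one, eq_comm]
      · rintro rfl; simp [gen] at hx
  exact top_unique fun g _ => b _ g.fin g subset_rfl

theorem nf {K : Set B} (hK : ∀ β, ∃ b, b * β * b⁻¹ ∈ K) (n : ℕ) : ∀ g : W B Q, IsOfFinOrder g.q →
    (mulSupport g.f).ncard = n → ∃ h : W B Q, IsConj g h ∧ h.q = g.q ∧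
      mulSupport h.f ⊆ mulSupport g.f ∧ ∀ x, h.f x ∈ K := by
  classical
  induction n using Nat.strong_induction_on with | _ n ih =>
  intro g ho hn
  by_cases hc : ∃ y, g.f y ≠ 1 ∧ ∃ m : ℕ, g.f (g.q ^ m * y) ≠ 1 ∧ g.q ^ m * y ≠ y
  · obtain ⟨y, y1, hm⟩ := hc
    obtain ⟨m1, m2⟩ := Nat.find_spec hm
    have m3 := fun i => Nat.find_min hm (m := i)
    set m := Nat.find hm
    have m0 : 0 < m := Nat.pos_of_ne_zero fun h => m2 (by simp [h])
    have m4 : ∀ i, 0 < i → i ≤ m → g.q ^ i * y ≠ y := fun i a b e => m3 (m - i) (by omega) (by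
      have : g.q ^ (m - i) * y = g.q ^ m * y := by
        conv_lhs => rw [← e, ← mul_assoc, ← pow_add, Nat.sub_add_cancel b]
      exact this ▸ ⟨m1, m2⟩)
    let c : W B Q := ⟨fun x => if ∃ i < m, x = g.q ^ i * y then (g.f y)⁻¹ else 1,
      ((Set.finite_lt_nat m).image (g.q ^ · * y)).subset fun x hx => by
        by_contra h; exact hx (if_neg fun ⟨i, a, b⟩ => h ⟨i, a, b.symm⟩), 1⟩
    have s : mulSupport (c * g * c⁻¹).f ⊂ mulSupport g.f := by
      refine ⟨fun x hx e => hx ?_, fun h => h y1 ?_⟩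
      · have : (∃ i < m, g.q⁻¹ * x = g.q ^ i * y) ↔ ∃ i < m, x = g.q ^ i * y := by
          refine ⟨fun ⟨i, a, b⟩ => ?_, fun ⟨i, a, b⟩ => ?_⟩
          · have : x = g.q ^ (i + 1) * y := by rw [pow_succ', mul_assoc, ← b]; simp
            exact ⟨i + 1, lt_of_le_of_ne a fun h => m1 (by rw [← h, ← this, e]), this⟩
          · cases i with
            | zero => simp_all
            | succ i => exact ⟨i, by omega, by rw [b, pow_succ', mul_assoc]; simp⟩
        simp [c, e, this]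
      · have : ¬ ∃ i < m, g.q⁻¹ * y = g.q ^ i * y := fun ⟨i, a, b⟩ =>
          m4 (i + 1) (by omega) a (by rw [pow_succ', mul_assoc, ← b]; simp)
        simp only [c, mul_f, inv_f, mul_q, one_mul, inv_one, if_neg this, mul_one]
        rw [if_pos ⟨0, m0, by simp⟩, inv_mul_cancel]
    obtain ⟨h, h1, h2, h3, h4⟩ := ih _ (hn ▸ Set.ncard_lt_ncard s g.fin) (c * g * c⁻¹)
      (by simpa [c] using ho) rfl
    exact ⟨h, (isConj_iff.2 ⟨c, rfl⟩).trans h1, by simpa [c] using h2, h3.trans s.1, h4⟩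
  push Not at hc
  choose b hb using hK
  have o := ho.orderOf_pos
  have iv : ∀ i, g.q⁻¹ * g.q ^ i = g.q ^ (i + (orderOf g.q - 1)) := fun i => by
    rw [inv_mul_eq_iff_eq_mul, ← pow_succ', add_assoc, Nat.sub_add_cancel o, pow_add,
      pow_orderOf_eq_one, mul_one]
  let c : W B Q := ⟨fun x => if h : ∃ y, g.f y ≠ 1 ∧ ∃ i : ℕ, x = g.q ^ i * y then b (g.f h.choose)
    else 1, (Set.Finite.image2 (· * ·) (finite_powers.2 ho) g.fin).subset fun x hx => by
      by_contra h; exact hx (dif_neg fun ⟨y, a, i, b⟩ => h ⟨_, ⟨i, rfl⟩, y, a, b.symm⟩), 1⟩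
  have c1 : ∀ y, g.f y ≠ 1 → ∀ i : ℕ, c.f (g.q ^ i * y) = b (g.f y) := fun y a i => by
    have h : ∃ z, g.f z ≠ 1 ∧ ∃ j : ℕ, g.q ^ i * y = g.q ^ j * z := ⟨y, a, i, rfl⟩
    obtain ⟨z1, j, z2⟩ := h.choose_spec
    obtain ⟨k, hk⟩ := ho.mem_powers_iff_mem_zpowers.2 (mul_mem (inv_mem (pow_mem
      (Subgroup.mem_zpowers g.q) j)) (pow_mem (Subgroup.mem_zpowers g.q) i))
    have : g.q ^ k * y = h.choose := by
      rw [show g.q ^ k = _ from hk, mul_assoc, inv_mul_eq_iff_eq_mul]; exact z2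
    refine (dif_pos h).trans ?_
    rw [← this, hc y a k (this ▸ z1)]
  have c2 : ∀ x, c.f (g.q⁻¹ * x) = c.f x := fun x => by
    by_cases h : ∃ y, g.f y ≠ 1 ∧ ∃ i : ℕ, x = g.q ^ i * y
    · obtain ⟨y, a, i, rfl⟩ := h
      rw [← mul_assoc, iv, c1 y a, c1 y a]
    · exact (dif_neg fun ⟨y, a, i, e⟩ => h ⟨y, a, i + 1, by
        rw [pow_succ', mul_assoc, ← e]; simp⟩).trans (show c.f x = 1 from dif_neg h).symm
  have c3 : ∀ x, (c * g * c⁻¹).f x = c.f x * g.f x * (c.f x)⁻¹ := fun x => by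
    have : c.q = 1 := rfl
    simp [this, c2]
  refine ⟨c * g * c⁻¹, isConj_iff.2 ⟨c, rfl⟩, by simp [c], fun x hx e => hx (by simp [c3, e]),
    fun x => ?_⟩
  rw [c3]
  by_cases e : g.f x = 1
  · simpa [e] using hb 1
  · simpa [← c1 x e 0] using hb (g.f x)

end Pool.Agent.H10.Wr
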