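import Pool.Agent.H10.Wr
import Pool.Agent.H10.GS

namespace Pool.Agent.H10.Wr
open Filter Topology Function

theorem un_l {G G' : Type} [Group G] [Group G'] (S : Finset G) (T : Finset G') (n : ℕ) :
    (ball S n).ncard ≤ (ball (un S T) n).ncard := by
  classical
  exact Set.ncard_le_ncard_of_injOn (MonoidHom.inl _ _) (ball_map _ (fun s hs =>
    Finset.mem_union_left _ (Finset.mem_image_of_mem _ hs)) n) (Prod.mk_left_injective _).injOn
    (ball_card _ _).1

theorem un_r {G G' : Type} [Group G] [Group G'] (S : Finset G) (T : Finset G') (n : ℕ) :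
    (ConjClasses.mk '' ball T n).ncard ≤ (ConjClasses.mk '' ball (un S T) n).ncard := by
  classical
  refine le_trans (Set.ncard_le_ncard ?_ (((ball_card _ n).1.image _).image _))
    (Set.ncard_image_le (f := ConjClasses.map (MonoidHom.snd G G')) ((ball_card _ n).1.image _))
  rintro _ ⟨g, hg, rfl⟩
  have : MonoidHom.inr G G' g ∈ ball (un S T) n := ball_map _ (fun s hs => Finset.mem_union_right _
    (Finset.mem_image_of_mem _ hs)) n g hg
  exact ⟨ConjClasses.mk (1, g), ⟨_, this, rfl⟩, rfl⟩

section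
variable {B Q : Type} [Group B] [Group Q] [Fintype B]

open Classical in
noncomputable def SH (B : Type) [Group B] [Fintype B] (R : Finset Q) : Finset (W B Q) :=
  (Finset.univ ×ˢ R).image gen

theorem mem_SH {R : Finset Q} (β : B) {s : Q} (h : s ∈ R) : gen (β, s) ∈ SH B R := by
  classical
  exact Finset.mem_image_of_mem _ (by simpa)

theorem SH_top {R : Finset Q} (h1 : 1 ∈ R) (hR : Subgroup.closure (R : Set Q) = ⊤) :
    Subgroup.closure (SH B R : Set (W B Q)) = ⊤ := gen_top _ hR
  (fun β => Subgroup.subset_closure (mem_SH β h1)) fun _ hs => Subgroup.subset_closure (mem_SH 1 hs)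

open Classical in
noncomputable def Pw : List Q → Finset Q
  | [] => {1}
  | s :: l => insert 1 ((Pw l).image (s * ·))

theorem Pw_card (l : List Q) : (Pw l).card ≤ l.length + 1 := by
  classical
  induction l with
  | nil => rfl
  | cons s l ih => exact (Finset.card_insert_le _ _).trans (Nat.succ_le_succ (Finset.card_image_le.trans ih))

theorem one_Pw (l : List Q) : 1 ∈ Pw l := by cases l <;> simp [Pw]

theorem cls {R : Finset Q} (h1 : 1 ∈ R) (hi : ∀ s ∈ R, s⁻¹ ∈ R) (ht : ∀ q : Q, IsOfFinOrder q)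
    {K : Finset B} (hK : ∀ β, ∃ b, b * β * b⁻¹ ∈ K) (n : ℕ) : ∃ N : Set (W B Q), N.Finite ∧
      N.ncard ≤ K.card * (R.card * K.card) ^ n ∧ ∀ g ∈ ball (SH B R) n, ∃ h ∈ N, IsConj g h := by
  classical
  have s : ∀ n, ∀ g ∈ ball (SH B R) n, ∃ w ∈ Ws R n, w.length = n ∧ g.q = w.prod ∧
      mulSupport g.f ⊆ Pw w := by
    refine ball_ind ⟨[], by simp [Ws], rfl, rfl, fun x hx => (hx rfl).elim⟩ ?_ ?_
    · rintro n g ⟨w, a, b, c, d⟩
      exact ⟨1 :: w, Finset.mem_image₂_of_mem h1 a, by simp [b], by simp [c],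
        fun x hx => by simpa [Pw] using .inr (d hx)⟩
    · rintro n g s hs ⟨w, a, b, c, d⟩
      have : s.q ∈ R ∧ mulSupport s.f ⊆ {1, s.q} := by
        simp only [SH, Finset.mem_image, Finset.mem_product] at hs
        rcases hs with ⟨p, e, rfl⟩ | ⟨p, e, e'⟩
        · exact ⟨e.2, fun x hx => by simp_all [gen]⟩
        · rw [← inv_inv s, ← e']
          exact ⟨hi _ e.2, fun x hx => .inr (eq_inv_of_mul_eq_one_right
            (by_contra fun h => hx (by simpa [gen] using fun e => (h e).elim)))⟩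
      refine ⟨s.q :: w, Finset.mem_image₂_of_mem this.1 a, by simp [b], by simp [c], fun x hx => ?_⟩
      simp only [Pw, Finset.coe_insert, Finset.coe_image]
      rcases mulSupport_mul _ _ hx with h | h
      · exact (this.2 h).imp_right fun e => ⟨1, one_Pw w, by simpa using e.symm⟩
      · exact .inr ⟨_, d h, by simp⟩
  let N := ((Ws R n).filter (·.length = n)).biUnion fun w => ((Pw w).pi fun _ => K).image fun φ =>
    (⟨fun x => if h : x ∈ Pw w then φ x h else 1, (Pw w).finite_toSet.subset fun x hx =>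
      by_contra fun h => hx (dif_neg h), w.prod⟩ : W B Q)
  refine ⟨N, N.finite_toSet, ?_, fun g hg => ?_⟩
  · rw [Set.ncard_coe_finset]
    refine (Finset.card_biUnion_le_card_mul _ _ (K.card ^ (n + 1)) fun w hw => ?_).trans ?_
    · refine Finset.card_image_le.trans ?_
      rw [Finset.card_pi, Finset.prod_const]
      exact Nat.pow_le_pow_right (Finset.card_pos.2 ⟨_, (hK 1).choose_spec⟩)
        ((Finset.mem_filter.1 hw).2 ▸ Pw_card w)
    · exact (Nat.mul_le_mul_right _ ((Finset.card_filter_le _ _).trans (card_Ws R n))).trans_eq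
        (by ring)
  obtain ⟨w, a, b, c, d⟩ := s n g hg
  obtain ⟨h, h1, h2, h3, h4⟩ := nf (K := K) hK _ g (ht _) rfl
  refine ⟨h, Finset.mem_biUnion.2 ⟨w, Finset.mem_filter.2 ⟨a, b⟩, Finset.mem_image.2
    ⟨fun x _ => h.f x, Finset.mem_pi.2 fun x _ => h4 x, ?_⟩⟩, h1⟩
  ext x
  · exact dite_eq_iff'.2 ⟨fun _ => rfl, fun e => by_contra fun e' => e (d (h3 (Ne.symm e')))⟩
  · simp [h2, c]

theorem low [Infinite Q] {R : Finset Q} (hR : Subgroup.closure (R : Set Q) = ⊤)
    (hi : ∀ s ∈ R, s⁻¹ ∈ R) (n : ℕ) : Fintype.card B ^ n ≤ (ball (SH B R) n).ncard := by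
  classical
  have ex : ∀ q : Q, ∃ n, q ∈ ball R n := fun q => by
    have : q ∈ Subgroup.closure (R : Set Q) := hR ▸ trivial
    induction this using Subgroup.closure_induction_left with
    | one => exact ⟨0, one_ball _ _⟩
    | mul_left s a x _ ih => exact ⟨_, ball_l (.inl a) ih.choose_spec⟩
    | inv_mul_cancel s a x _ ih => exact ⟨_, ball_l (.inr (by simpa)) ih.choose_spec⟩
  let len := fun q => Nat.find (ex q)
  have pr : ∀ q n, len q = n + 1 → ∃ p, len p = n ∧ ∃ s ∈ R, q = p * s := fun q n h => by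
    obtain ⟨l, a, b, c⟩ := Nat.find_spec (ex q)
    rcases l.eq_nil_or_concat' with rfl | ⟨l, s, rfl⟩
    · have : len 1 ≤ 0 := Nat.find_le (one_ball R 0)
      obtain rfl : 1 = q := c
      omega
    have s1 : s ∈ R := (b s (by simp)).elim id fun h => inv_inv s ▸ hi _ h
    have : len l.prod ≤ n := Nat.find_le ⟨l, by have : _ ≤ len q := a; simp [h] at this; omega,
      fun x hx => b x (by simp [hx]), rfl⟩
    have : len q ≤ len l.prod + 1 := Nat.find_le (by
      rw [← c]; simpa using ball_r (.inl s1) (Nat.find_spec (ex l.prod)))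
    exact ⟨l.prod, by omega, s, s1, by simp [← c]⟩
  have dn : ∀ m k q, len q = k + m → ∃ p, len p = k := fun m => by
    induction m with
    | zero => exact fun k q h => ⟨q, h⟩
    | succ m ih => intro k q h; obtain ⟨p, a, -⟩ := pr q (k + m) h; exact ih k p a
  obtain ⟨q, hq⟩ : ∃ q, len q = n := by
    obtain ⟨q, hq⟩ := (ball_card R n).1.infinite_compl.nonempty
    have : n ≤ len q := not_lt.1 fun h => hq (by
      obtain ⟨l, a, b⟩ := Nat.find_spec (ex q); exact ⟨l, a.trans h.le, b⟩)
    exact dn (len q - n) n q (by omega)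
  obtain ⟨Φ, h1, h2⟩ : ∃ Φ : (Fin n → B) → W B Q, Injective Φ ∧ ∀ β, Φ β ∈ ball (SH B R) n ∧
      (Φ β).q = q ∧ ∀ x, n ≤ len x → (Φ β).f x = 1 := by
    induction n generalizing q with
    | zero =>
      obtain ⟨l, a, -, c⟩ := Nat.find_spec (ex q)
      obtain rfl := List.length_eq_zero_iff.1 (Nat.le_zero.1 (a.trans hq.le))
      exact ⟨fun _ => 1, fun _ _ _ => Subsingleton.elim _ _, fun _ => ⟨one_ball _ _, c,
        fun _ _ => rfl⟩⟩
    | succ n ih =>
      obtain ⟨p, a, s, b, rfl⟩ := pr q n hq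
      obtain ⟨Φ, h1, h2⟩ := ih p a
      refine ⟨fun β => Φ (Fin.tail β) * gen (β 0, s), fun β γ h => ?_, fun β => ⟨ball_r (.inl
        (Finset.mem_image_of_mem _ (by simpa))) (h2 _).1, by simp [h2, gen], fun x hx => ?_⟩⟩
      · have : β 0 = γ 0 := by simpa [h2, gen, (h2 _).2.2 p a.ge] using congrArg (·.f p) h
        simp only [this, mul_left_inj] at h
        rw [← Fin.cons_self_tail β, ← Fin.cons_self_tail γ, this, h1 h]
      · have : p ≠ x := by rintro rfl; omega
        simp [h2, gen, (h2 _).2.2 x (by omega), inv_mul_eq_one, this]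
  have := Set.ncard_le_ncard_of_injOn Φ (s := Set.univ) (fun β _ => (h2 β).1) h1.injOn (ball_card _ _).1
  simpa using this
end

/-- lamplighter group with abelian lamp group -/
@[ext] structure F (A : Type) [AddCommGroup A] where
  v : ℤ →₀ A
  k : ℤ

variable {A : Type} [AddCommGroup A]

noncomputable def sh (k : ℤ) : (ℤ →₀ A) →+ ℤ →₀ A := Finsupp.mapDomain.addMonoidHom (· + k)
@[simp] theorem sh_apply (k : ℤ) (v : ℤ →₀ A) (x : ℤ) : sh k v x = v (x - k) := by
  simpa [sh] using Finsupp.mapDomain_apply (add_left_injective k) v (x - k)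

noncomputable instance : Mul (F A) := ⟨fun g h => ⟨g.v + sh g.k h.v, g.k + h.k⟩⟩
noncomputable instance : One (F A) := ⟨⟨0, 0⟩⟩
noncomputable instance : Inv (F A) := ⟨fun g => ⟨-sh (-g.k) g.v, -g.k⟩⟩
@[simp] theorem Fmul_v (g h : F A) : (g * h).v = g.v + sh g.k h.v := rfl
@[simp] theorem Fmul_k (g h : F A) : (g * h).k = g.k + h.k := rfl
@[simp] theorem Fone_v : (1 : F A).v = 0 := rfl
@[simp] theorem Fone_k : (1 : F A).k = 0 := rfl
@[simp] theorem Finv_v (g : F A) : g⁻¹.v = -sh (-g.k) g.v := rfl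
@[simp] theorem Finv_k (g : F A) : g⁻¹.k = -g.k := rfl
noncomputable instance : Group (F A) := Group.ofLeftAxioms
  (fun a b c => by ext <;> simp [add_assoc, sub_sub]) (fun a => by ext <;> simp)
  fun a => by ext <;> simp

noncomputable def X (a : A) : F A := ⟨.single 0 a, 1⟩

theorem X_top (C : Subgroup (F A)) {T : Set A} (hT : AddSubgroup.closure T = ⊤) (h0 : X 0 ∈ C)
    (h : ∀ a ∈ T, X a ∈ C) : C = ⊤ := by
  have t : ∀ n : ℤ, ⟨0, n⟩ ∈ C := fun n => by
    induction n using Int.induction_on with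
    | zero => exact one_mem C
    | succ n ih => convert mul_mem ih h0 using 1; ext <;> simp [X]
    | pred n ih => convert mul_mem ih (inv_mem h0) using 1; ext <;> simp [X, sub_eq_add_neg]
  have a : ∀ a : A, ⟨.single 0 a, 0⟩ ∈ C := fun a => by
    have : a ∈ AddSubgroup.closure T := hT ▸ trivial
    induction this using AddSubgroup.closure_induction with
    | mem s hs => convert mul_mem (h s hs) (inv_mem h0) using 1; ext <;> simp [X]
    | zero => convert one_mem C using 1; ext <;> simp
    | add x y _ _ hx hy => convert mul_mem hx hy using 1; ext <;> simp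
    | neg x _ hx => convert inv_mem hx using 1; ext <;> simp
  have b : ∀ v : ℤ →₀ A, ⟨v, 0⟩ ∈ C := fun v => by
    induction v using Finsupp.induction_linear with
    | zero => exact one_mem C
    | add x y hx hy => convert mul_mem hx hy using 1; ext <;> simp
    | single i x =>
      convert mul_mem (mul_mem (t i) (a x)) (inv_mem (t i)) using 1
      ext <;> simp [Finsupp.single_apply, eq_sub_iff_add_eq]
  refine top_unique fun g _ => ?_
  convert mul_mem (b g.v) (t g.k) using 1; ext <;> simp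

open Classical in
theorem Fup [Fintype A] (n : ℕ) :
    (ball (Finset.univ.image (X (A := A))) n).ncard ≤ (n + 1) * (2 * n + 1) * Fintype.card A ^ n := by
  have s : ∀ n, ∀ g ∈ ball (Finset.univ.image (X (A := A))) n, ∃ lo : ℤ, -n ≤ lo ∧ lo ≤ 0 ∧
      -n ≤ g.k ∧ g.k ≤ n ∧ ∀ x, x < lo ∨ lo + n ≤ x → g.v x = 0 := by
    refine ball_ind ⟨0, by simp⟩ ?_ ?_
    · rintro n g ⟨lo, a, b, c, d, e⟩
      exact ⟨lo, by omega, b, by omega, by omega, fun x hx => e x (by omega)⟩
    · rintro n g s hs ⟨lo, a, b, c, d, e⟩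
      simp only [Finset.mem_image] at hs
      rcases hs with ⟨y, -, rfl⟩ | ⟨y, -, h⟩
      · refine ⟨min (lo + 1) 0, by omega, by omega, by simp [X]; omega, by simp [X]; omega,
          fun x hx => ?_⟩
        simp [X, e (x - 1) (by omega), Finsupp.single_eq_of_ne (show x ≠ 0 by omega)]
      · rw [← inv_inv s, ← h]
        refine ⟨lo - 1, by omega, by omega, by simp [X]; omega, by simp [X]; omega, fun x hx => ?_⟩
        simp [X, e (x + 1) (by omega), Finsupp.single_eq_of_ne (show x + 1 ≠ 0 by omega)]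
  choose! lo a b c d e using s n
  have := Set.ncard_le_ncard_of_injOn (t := (Finset.Icc (-n : ℤ) 0 ×ˢ Finset.Icc (-n : ℤ) n ×ˢ
    (Finset.univ : Finset (Fin n → A)) : Finset _)) (fun g => (lo g, g.k, fun i : Fin n => g.v (lo g + (i : ℕ))))
    (fun g hg => by simp [a g hg, b g hg, c g hg, d g hg]) (fun g hg h hh e' => by
      simp only [Prod.mk.injEq] at e'
      refine F.ext (Finsupp.ext fun x => ?_) e'.2.1
      by_cases hx : x < lo g ∨ lo g + n ≤ x
      · rw [e g hg x hx, e h hh x (e'.1 ▸ hx)]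
      · have := congrFun e'.2.2 ⟨(x - lo g).toNat, by omega⟩
        simp only [← e'.1] at this
        rwa [show lo g + ((x - lo g).toNat : ℤ) = x by omega] at this) (Finset.finite_toSet _)
  refine this.trans_eq ?_
  simp only [Set.ncard_coe_finset, Finset.card_product, Int.card_Icc, Finset.card_univ,
    Fintype.card_fun, Fintype.card_fin, mul_assoc]
  congr 2 <;> omega

open Classical in
theorem Flow [Fintype A] {n : ℕ} (hn : 1 ≤ n) : Fintype.card A ^ n ≤
    n * (ConjClasses.mk '' ball (Finset.univ.image (X (A := A))) n).ncard := by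
  have : NeZero n := ⟨by omega⟩
  have b : ∀ (c : ℕ → A) (m : ℕ), (⟨∑ i ∈ Finset.range m, .single i (c i), m⟩ : F A) ∈
      ball (Finset.univ.image X) m := fun c m => by
    induction m with
    | zero => exact one_ball _ _
    | succ m ih =>
      convert ball_r (s := X (c m)) (.inl (Finset.mem_image_of_mem _ (Finset.mem_univ _))) ih using 1
      ext <;> simp [X, Finset.sum_range_succ, Finsupp.single_apply, eq_sub_iff_add_eq]
  let e := fun ψ : ZMod n → A => (⟨∑ i ∈ Finset.range n, .single i (ψ i), n⟩ : F A)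
  let I : (ℤ →₀ A) →+ ZMod n →₀ A := Finsupp.mapDomain.addMonoidHom Int.cast
  have I1 : ∀ ψ r, I (e ψ).v r = ψ r := fun ψ r => by
    simp only [I, e, map_sum, Finsupp.mapDomain.addMonoidHom_apply, Finsupp.mapDomain_single,
      Finsupp.finsetSum_apply, Int.cast_natCast]
    rw [Finset.sum_eq_single r.val (fun i hi h => Finsupp.single_eq_of_ne fun e => h (by
      rw [e, ZMod.val_cast_of_lt (Finset.mem_range.1 hi)])) (by simp [r.val_lt])]
    simp
  have I2 : ∀ (j : ℤ) v r, I (sh j v) (r + j) = I v r := fun j v r => by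
    rw [← Finsupp.mapDomain_apply (add_left_injective (j : ZMod n)) (I v) r]
    simp [I, sh, ← Finsupp.mapDomain_comp, comp_def]
  have := Finset.card_le_mul_card_image (f := fun ψ => ConjClasses.mk (e ψ)) Finset.univ n (by
    simp only [Finset.mem_image]
    rintro _ ⟨ψ, -, rfl⟩
    refine (Finset.card_le_card (t := Finset.univ.image fun j : ZMod n => fun r => ψ (r + j))
      fun φ h => ?_).trans (Finset.card_image_le.trans (by simp))
    obtain ⟨c, hc⟩ := isConj_iff.1 (ConjClasses.mk_eq_mk_iff_isConj.1 (Finset.mem_filter.1 h).2)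
    refine Finset.mem_image.2 ⟨c.k, Finset.mem_univ _, funext fun r => ?_⟩
    have := congrArg (fun g : F A => I g.v (r + c.k)) (mul_inv_eq_iff_eq_mul.1 hc)
    have h2 := I2 n c.v (r + c.k)
    simp only [Int.cast_natCast, CharP.cast_eq_zero, add_zero] at h2
    simp only [Fmul_v, map_add, Finsupp.add_apply, I1, I2, show (e ψ).k = n from rfl, h2] at this
    rw [add_comm] at this
    exact (add_right_cancel this).symm)
  simp only [Finset.card_univ, Fintype.card_fun, ZMod.card] at this
  refine this.trans (Nat.mul_le_mul_left _ ?_)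
  rw [← Set.ncard_coe_finset]
  refine Set.ncard_le_ncard (fun x hx => ?_) ((ball_card _ _).1.image _)
  obtain ⟨ψ, -, rfl⟩ := Finset.mem_image.1 hx
  exact ⟨_, b (fun i => ψ i) n, rfl⟩

end Pool.Agent.H10.Wr
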